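import Pool.Agent.Lib.MP_732f67_ag.R.Spr

/-!
Auxiliary facts for the induction step of the main theorem: the last coordinate, denominators.
-/

namespace Pool.Agent.KMR

open Polynomial

variable {k Ω : Type} [Field k] [Field Ω] [Algebra k Ω]

/-- the last coordinate is transcendental over the field of the others -/
theorem mainA_tr {n : ℕ} (x : Fin (n + 1) → Ω) (hx : AlgebraicIndependent k x) :
    AlgebraicIndependent k (Fin.init x : Fin n → Ω) ∧
      Transcendental (kt (k := k) (Fin.init x : Fin n → Ω)) (x (Fin.last n)) := by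
  have ht : AlgebraicIndependent k (Fin.init x : Fin n → Ω) :=
    hx.comp Fin.castSucc (Fin.castSucc_injective n)
  refine ⟨ht, ?_⟩
  have h1 : AlgebraicIndependent k (fun o : Option (Fin n) =>
      o.elim (x (Fin.last n)) (Fin.init x : Fin n → Ω)) := by
    have h2 := hx.comp (finSuccEquivLast (n := n)).symm (finSuccEquivLast (n := n)).symm.injective
    convert h2 using 1
    funext o
    cases o with
    | none => simp
    | some i => simp [Fin.init]
  exact IntermediateField.transcendental_adjoin_iff.2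
    ((ht.option_iff_transcendental (x (Fin.last n))).1 h1)

/-- `k (x) = k (t) (z)` -/
theorem mainA_kt {n : ℕ} (x : Fin (n + 1) → Ω) :
    kt (k := k) x = IntermediateField.adjoin k
      ((kt (k := k) (Fin.init x : Fin n → Ω) : Set Ω) ∪ {x (Fin.last n)}) := by
  refine le_antisymm ?_ ?_
  · change IntermediateField.adjoin k _ ≤ _
    rw [IntermediateField.adjoin_le_iff]
    rintro _ ⟨i, rfl⟩
    refine Fin.lastCases ?_ (fun i => ?_) i
    · exact IntermediateField.subset_adjoin k _ (Or.inr rfl)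
    · exact IntermediateField.subset_adjoin k _
        (Or.inl (IntermediateField.subset_adjoin k _ ⟨i, rfl⟩))
  · rw [IntermediateField.adjoin_le_iff]
    rintro y (hy | hy)
    · have h1 : kt (k := k) (Fin.init x : Fin n → Ω) ≤ kt (k := k) x := by
        change IntermediateField.adjoin k _ ≤ _
        rw [IntermediateField.adjoin_le_iff]
        rintro _ ⟨i, rfl⟩
        exact IntermediateField.subset_adjoin k _ ⟨i.castSucc, rfl⟩
      exact h1 hy
    · rw [Set.mem_singleton_iff.1 hy]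
      exact IntermediateField.subset_adjoin k _ ⟨Fin.last n, rfl⟩

/-- denominators of the elements of `A[g⁻¹]` -/
theorem mainA_den (A : Subalgebra k Ω) (S : Set Ω) (hS : S ⊆ A) (g : Ω) (hg : g ∈ A)
    (hg0 : g ≠ 0) (a : Ω) (ha : a ∈ Algebra.adjoin k (S ∪ {g⁻¹})) :
    ∃ N : ℕ, ∀ N', N ≤ N' → g ^ N' * a ∈ A := by
  induction ha using Algebra.adjoin_induction with
  | mem y hy =>
    rcases hy with hy | hy
    · exact ⟨0, fun N' _ => A.mul_mem (A.pow_mem hg _) (hS hy)⟩
    · rw [Set.mem_singleton_iff.1 hy]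
      refine ⟨1, fun N' hN => ?_⟩
      obtain ⟨m, rfl⟩ : ∃ m, N' = m + 1 := ⟨N' - 1, by omega⟩
      rw [pow_succ, mul_assoc, mul_inv_cancel₀ hg0, mul_one]
      exact A.pow_mem hg _
  | algebraMap r => exact ⟨0, fun N' _ => A.mul_mem (A.pow_mem hg _) (A.algebraMap_mem r)⟩
  | add y z _ _ hy hz =>
    obtain ⟨N, hN⟩ := hy
    obtain ⟨N₂, hN₂⟩ := hz
    refine ⟨max N N₂, fun N' h => ?_⟩
    rw [mul_add]
    exact A.add_mem (hN N' ((le_max_left _ _).trans h)) (hN₂ N' ((le_max_right _ _).trans h))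
  | mul y z _ _ hy hz =>
    obtain ⟨N, hN⟩ := hy
    obtain ⟨N₂, hN₂⟩ := hz
    refine ⟨N + N₂, fun N' h => ?_⟩
    obtain ⟨m, rfl⟩ : ∃ m, N' = (N + m) + N₂ := ⟨N' - (N + N₂), by omega⟩
    have h1 : g ^ (N + m + N₂) * (y * z) = g ^ (N + m) * y * (g ^ N₂ * z) := by
      rw [pow_add]
      ring
    rw [h1]
    exact A.mul_mem (hN _ (by omega)) (hN₂ _ le_rfl)

/-- a common exponent for finitely many elements -/
theorem mainA_exp (A : Subalgebra k Ω) (g : Ω) (T : Finset Ω)
    (hT : ∀ a ∈ T, ∃ N : ℕ, ∀ N', N ≤ N' → g ^ N' * a ∈ A) :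
    ∃ N : ℕ, ∀ a ∈ T, g ^ N * a ∈ A := by
  choose N hN using fun a : T => hT a a.2
  refine ⟨Finset.univ.sup N, fun a ha => hN ⟨a, ha⟩ _ (Finset.le_sup (Finset.mem_univ _))⟩

/-- the elements `w - l`, `w = h (z)` -/
theorem mainA_w {n : ℕ} (x : Fin (n + 1) → Ω)
    (h : (kt (k := k) (Fin.init x : Fin n → Ω))[X]) (g : Ω)
    (hg : g ∈ Algebra.adjoin k (Set.range (Fin.init x : Fin n → Ω))) (hg0 : g ≠ 0)
    (hh : ∀ i, (h.coeff i : Ω) ∈
      Algebra.adjoin k (Set.range (Fin.init x : Fin n → Ω) ∪ {g⁻¹})) (l : Ω)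
    (hl : l ∈ Algebra.adjoin k (Set.range (Fin.init x : Fin n → Ω) ∪ {g⁻¹})) :
    ∃ N : ℕ, ∀ N', N ≤ N' →
      g ^ N' * (aeval (x (Fin.last n)) h - l) ∈ Algebra.adjoin k (Set.range x) := by
  set B := Algebra.adjoin k (Set.range x) with hB
  have hS : Set.range (Fin.init x : Fin n → Ω) ⊆ B := by
    rintro _ ⟨i, rfl⟩
    exact Algebra.subset_adjoin ⟨i.castSucc, rfl⟩
  have hgB : g ∈ B := (Algebra.adjoin_le hS : _ ≤ B) hg
  have hzB : x (Fin.last n) ∈ B := Algebra.subset_adjoin ⟨Fin.last n, rfl⟩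
  have h1 : ∀ i, ∃ N : ℕ, ∀ N', N ≤ N' → g ^ N' * (h.coeff i : Ω) ∈ B := fun i =>
    mainA_den B _ hS g hgB hg0 _ (hh i)
  choose Nc hNc using h1
  obtain ⟨Nl, hNl⟩ := mainA_den B _ hS g hgB hg0 l hl
  refine ⟨max Nl ((Finset.range (h.natDegree + 1)).sup Nc), fun N' hN' => ?_⟩
  rw [mul_sub]
  refine B.sub_mem ?_ (hNl N' ((le_max_left _ _).trans hN'))
  rw [aeval_eq_sum_range, Finset.mul_sum]
  refine B.sum_mem fun i hi => ?_
  rw [Algebra.smul_def, ← mul_assoc]
  refine B.mul_mem (hNc i N' ?_) (B.pow_mem hzB _)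
  exact ((Finset.le_sup hi).trans (le_max_right _ _)).trans hN'

end Pool.Agent.KMR
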