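import Pool.Agent.Lib.MP_732f67_ag.R.Icl

/-!
Spreading out: finitely many elements integral over `K[z]`, `K = k (t)`, are integral over
`k[t, g⁻¹, z]` for some `g ∈ k[t]`. Denominators.
-/

namespace Pool.Agent.KMR

open Polynomial

variable {k Ω : Type} [Field k] [Field Ω] [Algebra k Ω]

/-- `k (t)` -/
def kt {n : ℕ} (t : Fin n → Ω) : IntermediateField k Ω := IntermediateField.adjoin k (Set.range t)

/-- a common denominator of finitely many elements of `k (t)` -/
theorem spread_K {n : ℕ} (t : Fin n → Ω) (C : Finset Ω) (hC : ∀ c ∈ C, c ∈ kt (k := k) t) :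
    ∃ g ∈ Algebra.adjoin k (Set.range t), g ≠ 0 ∧ ∀ A : Subalgebra k Ω, (∀ i, t i ∈ A) →
      g⁻¹ ∈ A → ∀ c ∈ C, c ∈ A := by
  classical
  have h1 : ∀ c : C, ∃ a b : Ω, a ∈ Algebra.adjoin k (Set.range t) ∧
      b ∈ Algebra.adjoin k (Set.range t) ∧ b ≠ 0 ∧ (c : Ω) = a / b := by
    rintro ⟨c, hc⟩
    obtain ⟨a, ha, b, hb, h⟩ := IntermediateField.mem_adjoin_iff_div.1 (hC c hc)
    by_cases hb0 : b = 0
    · refine ⟨0, 1, Subalgebra.zero_mem _, Subalgebra.one_mem _, one_ne_zero, ?_⟩
      change c = _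
      rw [h, hb0, div_zero, zero_div]
    · exact ⟨a, b, ha, hb, hb0, h⟩
  choose a b ha hb hb0 hab using h1
  refine ⟨∏ c, b c, Subalgebra.prod_mem _ fun c _ => hb c,
    Finset.prod_ne_zero_iff.2 fun c _ => hb0 c, ?_⟩
  intro A htA hgA c hc
  have hle : Algebra.adjoin k (Set.range t) ≤ A := Algebra.adjoin_le (by
    rintro _ ⟨i, rfl⟩
    exact htA i)
  have h3 : ∏ c' ∈ Finset.univ.erase (⟨c, hc⟩ : C), b c' ≠ 0 :=
    Finset.prod_ne_zero_iff.2 fun c' _ => hb0 c'
  have h2 : c = a ⟨c, hc⟩ * (∏ c' ∈ Finset.univ.erase (⟨c, hc⟩ : C), b c') * (∏ c, b c)⁻¹ := by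
    rw [← Finset.mul_prod_erase Finset.univ b (Finset.mem_univ (⟨c, hc⟩ : C))]
    have h4 : c = a ⟨c, hc⟩ / b ⟨c, hc⟩ := hab ⟨c, hc⟩
    have h5 := hb0 ⟨c, hc⟩
    conv_lhs => rw [h4]
    field_simp
  rw [h2]
  exact A.mul_mem (A.mul_mem (hle (ha _)) (hle (Subalgebra.prod_mem _ fun c' _ => hb c'))) hgA

/-- a root of a monic polynomial with integral coefficients is integral -/
theorem spr_trans {A : Subalgebra k Ω} {u : Ω} (P : Polynomial Ω) (hP : P.Monic)
    (hc : ∀ n, IsIntegral A (P.coeff n)) (h0 : P.eval u = 0) : IsIntegral A u := by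
  classical
  let E := integralClosure A Ω
  have h1 : IsIntegral E u := by
    have h2 : (P.coeffs : Set Ω) ⊆ E.toSubring := by
      intro c hcc
      obtain ⟨n, -, rfl⟩ := Polynomial.mem_coeffs_iff.1 (Finset.mem_coe.1 hcc)
      exact hc n
    refine ⟨(P.toSubring E.toSubring h2).map (iclMap E.toSubring E fun x hx => hx),
      ((Polynomial.monic_toSubring _ _ _).2 hP).map _, ?_⟩
    rw [eval₂_map]
    have h3 : (algebraMap E Ω).comp (iclMap E.toSubring E fun x hx => hx) =
        E.toSubring.subtype := rfl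
    rw [h3, ← eval_map, Polynomial.map_toSubring]
    exact h0
  exact isIntegral_trans u h1

/-- the elements of `K[z]` -/
theorem spr_elt {K : IntermediateField k Ω} (z v : Ω) (hv : v ∈ Algebra.adjoin K {z}) :
    ∃ C : Finset Ω, (∀ c ∈ C, c ∈ K) ∧ ∀ A : Subalgebra k Ω, (∀ c ∈ C, c ∈ A) →
      IsIntegral A z → IsIntegral A v := by
  classical
  induction hv using Algebra.adjoin_induction with
  | mem w hw =>
    rw [Set.mem_singleton_iff] at hw
    rw [hw]
    exact ⟨∅, fun c hc => absurd hc (Finset.notMem_empty c), fun A _ h => h⟩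
  | algebraMap r =>
    refine ⟨{(r : Ω)}, fun c hc => ?_, fun A hA _ => ?_⟩
    · rw [Finset.mem_singleton.1 hc]
      exact r.2
    · exact isIntegral_algebraMap (R := A) (A := Ω)
        (x := ⟨r, hA _ (Finset.mem_singleton_self _)⟩)
  | add x y _ _ hx hy =>
    obtain ⟨C, hC, h⟩ := hx
    obtain ⟨C', hC', h'⟩ := hy
    refine ⟨C ∪ C', fun c hc => (Finset.mem_union.1 hc).elim (hC c) (hC' c), fun A hA hz => ?_⟩
    exact (h A (fun c hc => hA c (Finset.mem_union_left _ hc)) hz).add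
      (h' A (fun c hc => hA c (Finset.mem_union_right _ hc)) hz)
  | mul x y _ _ hx hy =>
    obtain ⟨C, hC, h⟩ := hx
    obtain ⟨C', hC', h'⟩ := hy
    refine ⟨C ∪ C', fun c hc => (Finset.mem_union.1 hc).elim (hC c) (hC' c), fun A hA hz => ?_⟩
    exact (h A (fun c hc => hA c (Finset.mem_union_left _ hc)) hz).mul
      (h' A (fun c hc => hA c (Finset.mem_union_right _ hc)) hz)

/-- the elements integral over `K[z]` -/
theorem spr_int {K : IntermediateField k Ω} (z u : Ω)
    (hu : IsIntegral (Algebra.adjoin K {z}) u) :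
    ∃ C : Finset Ω, (∀ c ∈ C, c ∈ K) ∧ ∀ A : Subalgebra k Ω, (∀ c ∈ C, c ∈ A) →
      IsIntegral A z → IsIntegral A u := by
  classical
  obtain ⟨p, hp, h0⟩ := hu
  choose C hC h using fun n => spr_elt (k := k) z (p.coeff n : Ω) (p.coeff n).2
  refine ⟨(Finset.range (p.natDegree + 1)).biUnion C, fun c hc => ?_, fun A hA hz => ?_⟩
  · obtain ⟨n, -, hn⟩ := Finset.mem_biUnion.1 hc
    exact hC n c hn
  · refine spr_trans (p.map (algebraMap (Algebra.adjoin K {z}) Ω)) (hp.map _) (fun n => ?_) ?_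
    · rw [coeff_map]
      by_cases hn : n < p.natDegree + 1
      · exact h n A (fun c hc => hA c (Finset.mem_biUnion.2 ⟨n, Finset.mem_range.2 hn, hc⟩)) hz
      · rw [coeff_eq_zero_of_natDegree_lt (by omega), map_zero]
        exact isIntegral_zero
    · rw [eval_map]
      exact h0

/-- PROOF. `spread_K` for the coefficients (in `K`) of integral equations over `K[z]`. -/
theorem spread {n : ℕ} (t : Fin n → Ω) (z : Ω) (U : Finset Ω)
    (hU : ∀ u ∈ U, IsIntegral (Algebra.adjoin (kt (k := k) t) {z}) u) :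
    ∃ g ∈ Algebra.adjoin k (Set.range t), g ≠ 0 ∧ ∀ A : Subalgebra k Ω, (∀ i, t i ∈ A) →
      g⁻¹ ∈ A → IsIntegral A z → ∀ u ∈ U, IsIntegral A u := by
  classical
  choose C hC h using fun u : U => spr_int z (u : Ω) (hU u u.2)
  obtain ⟨g, hg, hg0, hgA⟩ := spread_K (k := k) t (Finset.univ.biUnion C) (fun c hc => by
    obtain ⟨u, -, hu⟩ := Finset.mem_biUnion.1 hc
    exact hC u c hu)
  refine ⟨g, hg, hg0, fun A hA hgi hz u hu => ?_⟩
  exact h ⟨u, hu⟩ A (fun c hc => hgA A hA hgi c
    (Finset.mem_biUnion.2 ⟨⟨u, hu⟩, Finset.mem_univ _, hc⟩)) hz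

/-- `K (z)` is the field of fractions of `K[z]` -/
theorem spr_frc (K : IntermediateField k Ω) (z : Ω) :
    Frc ((Algebra.adjoin K {z}).restrictScalars k)
      (IntermediateField.adjoin k ((K : Set Ω) ∪ {z})) := by
  constructor
  · intro a ha
    rw [Subalgebra.mem_restrictScalars] at ha
    induction ha using Algebra.adjoin_induction with
    | mem w hw => exact IntermediateField.subset_adjoin _ _ (Or.inr hw)
    | algebraMap r => exact IntermediateField.subset_adjoin _ _ (Or.inl r.2)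
    | add x y _ _ hx hy => exact add_mem hx hy
    | mul x y _ _ hx hy => exact mul_mem hx hy
  · intro a ha
    have hle : Algebra.adjoin k ((K : Set Ω) ∪ {z}) ≤
        (Algebra.adjoin K {z}).restrictScalars k := by
      refine Algebra.adjoin_le ?_
      rintro w (hw | hw)
      · exact (Algebra.adjoin K {z}).algebraMap_mem ⟨w, hw⟩
      · exact Algebra.subset_adjoin (R := K) hw
    obtain ⟨r, hr, s, hs, h⟩ := IntermediateField.mem_adjoin_iff_div.1 ha
    by_cases hs0 : s = 0
    · refine ⟨0, Subalgebra.zero_mem _, 1, Subalgebra.one_mem _, one_ne_zero, ?_⟩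
      rw [h, hs0, div_zero, zero_div]
    · exact ⟨r, hle hr, s, hle hs, hs0, h⟩

/-- denominators -/
theorem spr_den {K : IntermediateField k Ω} (z : Ω) (u : Ω)
    (hu : IsAlgebraic (IntermediateField.adjoin k ((K : Set Ω) ∪ {z})) u) :
    ∃ s : K[X], aeval z s ≠ 0 ∧ IsIntegral (Algebra.adjoin K {z}) (aeval z s * u) := by
  obtain ⟨y, hy, hi⟩ := ((icl_alg_iff (spr_frc K z)).2 hu).exists_integral_multiple
  have hy0 : (y : Ω) ≠ 0 := fun h0 => hy (Subtype.ext h0)
  have h3 : ∀ w ∈ Algebra.adjoin K {z}, ∃ s : K[X], aeval z s = w := by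
    intro w hw
    rw [Algebra.adjoin_singleton_eq_range_aeval] at hw
    exact hw
  obtain ⟨s, hs'⟩ := h3 _ y.2
  refine ⟨s, by rw [hs']; exact hy0, ?_⟩
  rw [hs']
  exact hi

/-- for every element `u` algebraic over `K (z)` there is `s ∈ K[X]`, `s ≠ 0`, such that `s (z) u` is
integral over `K[z]` -/
theorem exists_den {K : IntermediateField k Ω} (z : Ω) (hz : Transcendental K z) (u : Ω)
    (hu : IsAlgebraic (IntermediateField.adjoin k ((K : Set Ω) ∪ {z})) u) :
    ∃ s : K[X], s ≠ 0 ∧ IsIntegral (Algebra.adjoin K {z}) (aeval z s * u) := by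
  have _ := hz
  obtain ⟨s, hs, h⟩ := spr_den z u hu
  exact ⟨s, fun h0 => hs (by rw [h0, map_zero]), h⟩

/-- multiples of denominators -/
theorem spr_dvd {K : IntermediateField k Ω} {z u : Ω} {s r : K[X]}
    (h : IsIntegral (Algebra.adjoin K {z}) (aeval z s * u)) (hd : s ∣ r) :
    IsIntegral (Algebra.adjoin K {z}) (aeval z r * u) := by
  obtain ⟨q, rfl⟩ := hd
  have h1 : aeval z (s * q) * u = aeval z q * (aeval z s * u) := by
    rw [map_mul]
    ring
  rw [h1]
  have h2 : aeval z q ∈ Algebra.adjoin K {z} := aeval_mem_adjoin_singleton K z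
  exact (isIntegral_algebraMap (R := Algebra.adjoin K {z}) (A := Ω) (x := ⟨_, h2⟩)).mul h

/-- primitive element -/
theorem spr_prim [CharZero k] {F L : IntermediateField k Ω} (hL : Fext F L) :
    ∃ θ : Ω, IntermediateField.adjoin k ((F : Set Ω) ∪ {θ}) = L := by
  have hfd := icl_fd hL
  have hc : CharZero F := charZero_of_injective_algebraMap (algebraMap k F).injective
  let E : IntermediateField F Ω := IntermediateField.extendScalars hL.le
  obtain ⟨α, hα⟩ := Field.exists_primitive_element F E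
  refine ⟨(α : Ω), ?_⟩
  have h1 : IntermediateField.adjoin F {(α : Ω)} = E := by
    have h2 := congrArg (IntermediateField.map E.val) hα
    rw [IntermediateField.adjoin_map, Set.image_singleton, ← AlgHom.fieldRange_eq_map,
      IntermediateField.fieldRange_val] at h2
    exact h2
  rw [← IntermediateField.restrictScalars_adjoin, h1]
  apply SetLike.ext
  intro x
  exact Iff.rfl

/-- PROOF. Primitive element `θ`, multiplied by some `s₀ (z)` to make it integral; then `exists_den`
for the inverse of the derivative and for the `φ`, `φ⁻¹`; `s` is the product. -/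
theorem exists_s [CharZero k] {K L : IntermediateField k Ω} (z : Ω) (hz : Transcendental K z)
    (hL : Fext (IntermediateField.adjoin k ((K : Set Ω) ∪ {z})) L) (Φ : Finset Ω)
    (hΦ : ∀ φ ∈ Φ, φ ∈ L) :
    ∃ (s : K[X]) (θ : Ω), s ≠ 0 ∧
      IntermediateField.adjoin k (((IntermediateField.adjoin k ((K : Set Ω) ∪ {z}) :
        IntermediateField k Ω) : Set Ω) ∪ {θ}) = L ∧
      IsIntegral (Algebra.adjoin K {z}) θ ∧
      IsIntegral (Algebra.adjoin K {z}) (aeval z s * (aeval θ (derivative (minpoly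
        (IntermediateField.adjoin k ((K : Set Ω) ∪ {z})) θ)))⁻¹) ∧
      ∀ φ ∈ Φ, IsIntegral (Algebra.adjoin K {z}) (aeval z s * φ) := by
  classical
  have _ := hz
  set F : IntermediateField k Ω := IntermediateField.adjoin k ((K : Set Ω) ∪ {z}) with hF
  obtain ⟨θ₀, hθ₀⟩ := spr_prim hL
  have hθ₀L : θ₀ ∈ L := by
    rw [← hθ₀]
    exact IntermediateField.subset_adjoin _ _ (Or.inr rfl)
  obtain ⟨s₀, hs₀, hi₀⟩ := spr_den (K := K) z θ₀ (hL.alg θ₀ hθ₀L)
  have hs₀F : aeval z s₀ ∈ F := (spr_frc K z).le _ (aeval_mem_adjoin_singleton K z)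
  set θ : Ω := aeval z s₀ * θ₀ with hθ
  have hgen : IntermediateField.adjoin k ((F : Set Ω) ∪ {θ}) = L := by
    rw [← hθ₀]
    apply le_antisymm
    · rw [IntermediateField.adjoin_le_iff]
      rintro w (hw | hw)
      · exact IntermediateField.subset_adjoin _ _ (Or.inl hw)
      · rw [Set.mem_singleton_iff] at hw
        rw [hw, hθ]
        exact mul_mem (IntermediateField.subset_adjoin _ _ (Or.inl hs₀F))
          (IntermediateField.subset_adjoin _ _ (Or.inr rfl))
    · rw [IntermediateField.adjoin_le_iff]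
      rintro w (hw | hw)
      · exact IntermediateField.subset_adjoin _ _ (Or.inl hw)
      · rw [Set.mem_singleton_iff] at hw
        have h1 : w = (aeval z s₀)⁻¹ * θ := by
          rw [hw, hθ, inv_mul_cancel_left₀ hs₀]
        rw [h1]
        exact mul_mem (inv_mem (IntermediateField.subset_adjoin _ _ (Or.inl hs₀F)))
          (IntermediateField.subset_adjoin _ _ (Or.inr rfl))
  have hθL : θ ∈ L := mul_mem (hL.le hs₀F) hθ₀L
  have hθi : IsIntegral F θ := (hL.alg θ hθL).isIntegral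
  have hdi : IsAlgebraic F (aeval θ (derivative (minpoly F θ)))⁻¹ := by
    have h1 : aeval θ (derivative (minpoly F θ)) ∈ integralClosure F Ω := by
      have h2 : Algebra.adjoin F {θ} ≤ integralClosure F Ω :=
        Algebra.adjoin_le (Set.singleton_subset_iff.2 hθi)
      exact h2 (aeval_mem_adjoin_singleton F θ)
    have h3 : IsIntegral F (aeval θ (derivative (minpoly F θ))) := h1
    exact h3.isAlgebraic.inv
  obtain ⟨s₁, hs₁, hi₁⟩ := spr_den (K := K) z _ hdi
  choose s₂ hs₂ hi₂ using fun φ : Φ => spr_den (K := K) z (φ : Ω) (hL.alg φ (hΦ φ φ.2))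
  refine ⟨s₁ * ∏ φ, s₂ φ, θ, ?_, hgen, hi₀, spr_dvd hi₁ (dvd_mul_right _ _), fun φ hφ => ?_⟩
  · intro h0
    have h1 := congrArg (aeval z) h0
    rw [map_mul, map_prod, map_zero, mul_eq_zero, Finset.prod_eq_zero_iff] at h1
    rcases h1 with h1 | ⟨φ, -, h1⟩
    · exact hs₁ h1
    · exact hs₂ φ h1
  · exact spr_dvd (hi₂ ⟨φ, hφ⟩)
      ((Finset.dvd_prod_of_mem s₂ (Finset.mem_univ (⟨φ, hφ⟩ : Φ))).mul_left _)

end Pool.Agent.KMR
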