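import Pool.Agent.Lib.MP_732f67_ag.R.Nst

/-!
Unramified extensions of subfields of `Ω`, over a subring `V`, in the naive sense: adjoin
successively elements integral over `V` such that the inverse of the derivative of the minimal
polynomial is integral over `V`.
-/

namespace Pool.Agent.KMR

open Polynomial

variable {k Ω : Type} [Field k] [Field Ω] [Algebra k Ω]

/-- `E' / E` is unramified over `V` -/
inductive Unr (V : Subring Ω) (E : IntermediateField k Ω) : IntermediateField k Ω → Prop
  | refl : Unr V E E
  | step {E' : IntermediateField k Ω} (θ : Ω) : Unr V E E' → IsIntegral V θ →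
      IsIntegral V ((aeval θ (derivative (minpoly E' θ)))⁻¹) →
      Unr V E (IntermediateField.adjoin k ((E' : Set Ω) ∪ {θ}))

theorem Unr.le {V : Subring Ω} {E E' : IntermediateField k Ω} (h : Unr V E E') : E ≤ E' := by
  induction h with
  | refl => exact le_rfl
  | step θ _ _ _ ih =>
    exact fun a ha => IntermediateField.subset_adjoin k _ (Or.inl (ih ha))

/-- elements of `E'` are algebraic over `E` -/
theorem Unr.finite {V : Subring Ω} {E E' : IntermediateField k Ω} (h : Unr V E E')
    (hV : ∀ a ∈ V, a ∈ E) : ∃ s : Finset Ω, (∀ a ∈ s, IsIntegral V a) ∧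
      E' = IntermediateField.adjoin k ((E : Set Ω) ∪ s) := by
  classical
  have _ := hV
  induction h with
  | refl =>
    refine ⟨∅, fun a ha => absurd ha (Finset.notMem_empty a), ?_⟩
    rw [Finset.coe_empty, Set.union_empty]
    exact (IntermediateField.adjoin_self k E).symm
  | step θ _ hθ _ ih =>
    obtain ⟨s, hs, he⟩ := ih
    refine ⟨insert θ s, fun a ha => ?_, le_antisymm ?_ ?_⟩
    · rcases Finset.mem_insert.1 ha with rfl | ha
      · exact hθ
      · exact hs a ha
    · rw [IntermediateField.adjoin_le_iff, he]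
      rintro x (hx | hx)
      · refine IntermediateField.adjoin.mono k _ _ ?_ hx
        rw [Finset.coe_insert]
        exact Set.union_subset_union_right _ (Set.subset_insert _ _)
      · refine IntermediateField.subset_adjoin k _ (Or.inr ?_)
        rw [Set.mem_singleton_iff.1 hx, Finset.coe_insert]
        exact Set.mem_insert _ _
    · rw [IntermediateField.adjoin_le_iff, he]
      rintro x (hx | hx)
      · exact IntermediateField.subset_adjoin k _
          (Or.inl (IntermediateField.subset_adjoin k _ (Or.inl hx)))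
      · rw [Finset.coe_insert] at hx
        rcases hx with rfl | hx
        · exact IntermediateField.subset_adjoin k _ (Or.inr rfl)
        · exact IntermediateField.subset_adjoin k _
            (Or.inl (IntermediateField.subset_adjoin k _ (Or.inr hx)))

theorem Unr.trans {V : Subring Ω} {E E' E'' : IntermediateField k Ω} (h : Unr V E E')
    (h' : Unr V E' E'') : Unr V E E'' := by
  induction h' with
  | refl => exact h
  | step θ _ h1 h2 ih => exact Unr.step θ ih h1 h2

/-- integral over `V`, so integral over every larger ring -/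
theorem unr_int_mono {V V' : Subring Ω} (hV : V ≤ V') {b : Ω} (hb : IsIntegral V b) :
    IsIntegral V' b :=
  IsIntegral.map_of_comp_eq (Subring.inclusion hV) (RingHom.id Ω) rfl hb

/-- two fields `E' ≤ K` containing `V`, `θ` integral over `V`: the quotient of the derivatives of
the minimal polynomials of `θ`, at `θ`, is integral over `V` -/
theorem unr_minpoly_le {V : Subring Ω} {E' K : IntermediateField k Ω} (hVE : ∀ a ∈ V, a ∈ E')
    (hK : E' ≤ K) (θ : Ω) (hθ : IsIntegral V θ) :
    ∃ q : Ω, IsIntegral V q ∧ aeval θ (derivative (minpoly E' θ)) =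
      aeval θ (derivative (minpoly K θ)) * q := by
  let iV : V →+* E' := V.subtype.codRestrict E' (fun x => hVE x x.2)
  let iK : E' →+* K := (IntermediateField.inclusion hK : E' →ₐ[k] K)
  have hθE : IsIntegral E' θ := IsIntegral.map_of_comp_eq iV (RingHom.id Ω) rfl hθ
  have hθK : IsIntegral K θ := IsIntegral.map_of_comp_eq iK (RingHom.id Ω) rfl hθE
  have h1 : minpoly E' θ ∣ (minpoly V θ).map iV := by
    refine minpoly.dvd E' θ ?_
    rw [aeval_def, eval₂_map]
    exact minpoly.aeval V θ
  have h2 : minpoly K θ ∣ (minpoly E' θ).map iK := by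
    refine minpoly.dvd K θ ?_
    rw [aeval_def, eval₂_map]
    exact minpoly.aeval E' θ
  have h3 := Polynomial.map_dvd (algebraMap E' Ω) h1
  have h4 := Polynomial.map_dvd (algebraMap K Ω) h2
  rw [Polynomial.map_map] at h3 h4
  obtain ⟨q, hq⟩ := h4
  have hq' : (minpoly E' θ).map (algebraMap E' Ω) = (minpoly K θ).map (algebraMap K Ω) * q := hq
  have hmE : ((minpoly E' θ).map (algebraMap E' Ω)).Monic := (minpoly.monic hθE).map _
  have hmK : ((minpoly K θ).map (algebraMap K Ω)).Monic := (minpoly.monic hθK).map _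
  have hqm : q.Monic := by
    rw [hq'] at hmE
    exact hmK.of_mul_monic_left hmE
  have hqd : q ∣ (minpoly V θ).map (algebraMap V Ω) := by
    refine dvd_trans ?_ h3
    rw [hq']
    exact dvd_mul_left _ _
  have hqi := isIntegral_coeff_of_dvd _ _ (minpoly.monic hθ) hqm hqd
  refine ⟨q.eval θ, ?_, ?_⟩
  · rw [eval_eq_sum_range]
    exact IsIntegral.sum _ fun i _ => (hqi i).mul (hθ.pow i)
  · have h5 := congrArg (fun p => (derivative p).eval θ) hq'
    simp only [derivative_mul, eval_add, eval_mul, derivative_map, eval_map] at h5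
    rw [← aeval_def, ← aeval_def, ← aeval_def, minpoly.aeval, zero_mul, add_zero] at h5
    exact h5

/-- base change. PROOF. The minimal polynomial over the larger field divides the one over the
smaller field, `f = f₂ q`, `f' (θ) = f₂' (θ) q (θ)`, and `q (θ)` is integral over `V`: the
coefficients of `q` are, because its roots are roots of `f`, which has integral coefficients
(`V ≤ E`; the conjugates of the integral element `θ`). Characteristic zero: `f' (θ) ≠ 0`. -/
theorem Unr.base [CharZero k] {V V' : Subring Ω} (hV : V ≤ V') {E E' F : IntermediateField k Ω}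
    (hVE : ∀ a ∈ V, a ∈ E) (h : Unr V E E') (hF : E ≤ F) : Unr V' F (F ⊔ E') := by
  induction h with
  | refl =>
    rw [sup_eq_left.2 hF]
    exact Unr.refl
  | @step E' θ h hθ hg ih =>
    have hle : E' ≤ IntermediateField.adjoin k ((E' : Set Ω) ∪ {θ}) := fun a ha =>
      IntermediateField.subset_adjoin k _ (Or.inl ha)
    have h1 : F ⊔ IntermediateField.adjoin k ((E' : Set Ω) ∪ {θ}) =
        IntermediateField.adjoin k (((F ⊔ E' : IntermediateField k Ω) : Set Ω) ∪ {θ}) := by
      refine le_antisymm (sup_le ?_ ?_) ?_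
      · exact fun a ha => IntermediateField.subset_adjoin k _
          (Or.inl ((le_sup_left : F ≤ F ⊔ E') ha))
      · rw [IntermediateField.adjoin_le_iff]
        rintro x (hx | hx)
        · exact IntermediateField.subset_adjoin k _ (Or.inl ((le_sup_right : E' ≤ F ⊔ E') hx))
        · exact IntermediateField.subset_adjoin k _ (Or.inr hx)
      · rw [IntermediateField.adjoin_le_iff]
        rintro x (hx | hx)
        · exact (sup_le_sup_left hle F) hx
        · exact (le_sup_right : IntermediateField.adjoin k ((E' : Set Ω) ∪ {θ}) ≤ _)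
            (IntermediateField.subset_adjoin k _ (Or.inr hx))
    rw [h1]
    refine Unr.step θ ih (unr_int_mono hV hθ) ?_
    have hVE' : ∀ a ∈ V, a ∈ E' := fun a ha => h.le (hVE a ha)
    obtain ⟨q, hq, he⟩ := unr_minpoly_le (V := V) (E' := E') (K := F ⊔ E') hVE' le_sup_right θ hθ
    have hc : CharZero E' := charZero_of_injective_algebraMap (algebraMap k E').injective
    have hθE : IsIntegral E' θ :=
      IsIntegral.map_of_comp_eq (V.subtype.codRestrict E' (fun x => hVE' x x.2)) (RingHom.id Ω)
        rfl hθ
    have hne : aeval θ (derivative (minpoly E' θ)) ≠ 0 :=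
      (minpoly.irreducible hθE).separable.aeval_derivative_ne_zero (minpoly.aeval _ _)
    have hq0 : q ≠ 0 := fun h0 => hne (by rw [he, h0, mul_zero])
    have h2 : (aeval θ (derivative (minpoly (F ⊔ E' : IntermediateField k Ω) θ)))⁻¹ =
        q * (aeval θ (derivative (minpoly E' θ)))⁻¹ := by
      rw [he, mul_inv, mul_comm, mul_assoc, inv_mul_cancel₀ hq0, mul_one]
    rw [h2]
    exact unr_int_mono hV (hq.mul hg)

/-- integral elements and automorphisms fixing `V` -/
theorem unr_map_int {V : Subring Ω} (g : Ω ≃ₐ[k] Ω) (hg : ∀ a ∈ V, g a = a) {b : Ω}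
    (hb : IsIntegral V b) : IsIntegral V (g b) :=
  IsIntegral.map_of_comp_eq (RingHom.id V) (g : Ω →+* Ω)
    (RingHom.ext fun x => (hg x x.2).symm) hb

/-- the minimal polynomial of a conjugate -/
theorem unr_map_minpoly (E' : IntermediateField k Ω) (g : Ω ≃ₐ[k] Ω) (θ : Ω)
    (hθ : IsIntegral E' θ) :
    minpoly (E'.map (g : Ω →ₐ[k] Ω)) (g θ) =
      (minpoly E' θ).map ((IntermediateField.intermediateFieldMap g E' : E' ≃ₐ[k] _) :
        E' →+* E'.map (g : Ω →ₐ[k] Ω)) := by
  set σ : E' ≃+* E'.map (g : Ω →ₐ[k] Ω) :=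
    (IntermediateField.intermediateFieldMap g E' : E' ≃ₐ[k] _).toRingEquiv with hσ
  have hroot : aeval (g θ) ((minpoly E' θ).map (σ : E' →+* E'.map (g : Ω →ₐ[k] Ω))) = 0 := by
    rw [aeval_def, eval₂_map]
    have h1 : (algebraMap (E'.map (g : Ω →ₐ[k] Ω)) Ω).comp
        (σ : E' →+* E'.map (g : Ω →ₐ[k] Ω)) = (g : Ω →+* Ω).comp (algebraMap E' Ω) := rfl
    have h2 := Polynomial.hom_eval₂ (minpoly E' θ) (algebraMap E' Ω) (g : Ω →+* Ω) θ
    rw [h1]
    change eval₂ ((g : Ω →+* Ω).comp (algebraMap E' Ω)) ((g : Ω →+* Ω) θ) (minpoly E' θ) = 0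
    rw [← h2, ← aeval_def, minpoly.aeval, map_zero]
  have hirr : Irreducible ((minpoly E' θ).map (σ : E' →+* E'.map (g : Ω →ₐ[k] Ω))) := by
    have h1 := (MulEquiv.irreducible_iff (Polynomial.mapEquiv σ)).2 (minpoly.irreducible hθ)
    exact h1
  exact (minpoly.eq_of_irreducible_of_monic hirr hroot ((minpoly.monic hθ).map _)).symm

/-- the conjugate extension, for an automorphism `g` of `Ω` fixing `E` -/
theorem Unr.map {V : Subring Ω} {E E' : IntermediateField k Ω} (hVE : ∀ a ∈ V, a ∈ E)
    (h : Unr V E E') (g : Ω ≃ₐ[k] Ω) (hg : ∀ a ∈ E, g a = a) :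
    Unr V E (E'.map (g : Ω →ₐ[k] Ω)) := by
  have hgV : ∀ a ∈ V, g a = a := fun a ha => hg a (hVE a ha)
  induction h with
  | refl =>
    have h1 : E.map (g : Ω →ₐ[k] Ω) = E := by
      ext x
      constructor
      · rintro ⟨y, hy, rfl⟩
        change g y ∈ E
        rw [hg y hy]
        exact hy
      · intro hx
        exact ⟨x, hx, hg x hx⟩
    rw [h1]
    exact Unr.refl
  | @step E' θ h hθ hg' ih =>
    have hθE : IsIntegral E' θ :=
      IsIntegral.map_of_comp_eq (V.subtype.codRestrict E' (fun x => h.le (hVE x x.2)))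
        (RingHom.id Ω) rfl hθ
    have h1 : (IntermediateField.adjoin k ((E' : Set Ω) ∪ {θ})).map (g : Ω →ₐ[k] Ω) =
        IntermediateField.adjoin k (((E'.map (g : Ω →ₐ[k] Ω)) : Set Ω) ∪ {g θ}) := by
      rw [IntermediateField.adjoin_map, Set.image_union, Set.image_singleton]
      rfl
    rw [h1]
    refine Unr.step (g θ) ih (unr_map_int g hgV hθ) ?_
    have h2 : aeval (g θ) (derivative (minpoly (E'.map (g : Ω →ₐ[k] Ω)) (g θ))) =
        g (aeval θ (derivative (minpoly E' θ))) := by
      rw [unr_map_minpoly E' g θ hθE, derivative_map, aeval_def, eval₂_map]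
      exact (Polynomial.hom_eval₂ (derivative (minpoly E' θ)) (algebraMap E' Ω)
        (g : Ω →+* Ω) θ).symm
    rw [h2, ← map_inv₀]
    exact unr_map_int g hgV hg'

/-- the compositum of finitely many unramified extensions is unramified (`base`, `trans`) -/
theorem Unr.sup [CharZero k] {V : Subring Ω} {E : IntermediateField k Ω} (hVE : ∀ a ∈ V, a ∈ E)
    {κ : Type} (s : Finset κ) (E' : κ → IntermediateField k Ω) (h : ∀ i ∈ s, Unr V E (E' i)) :
    Unr V E (E ⊔ s.sup E') := by
  classical
  induction s using Finset.induction_on with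
  | empty =>
    rw [Finset.sup_empty, sup_bot_eq]
    exact Unr.refl
  | insert i s hi ih =>
    have h1 := ih fun j hj => h j (Finset.mem_insert_of_mem hj)
    have h2 := Unr.base le_rfl hVE (h i (Finset.mem_insert_self i s)) (F := E ⊔ s.sup E')
      le_sup_left
    have h3 : E ⊔ (insert i s).sup E' = E ⊔ s.sup E' ⊔ E' i := by
      rw [Finset.sup_insert, sup_assoc, sup_comm (E' i)]
    rw [h3]
    exact h1.trans h2

end Pool.Agent.KMR
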