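import Pool.Agent.Lib.MP_732f67_ag.R.Bely
import Pool.Agent.Lib.MP_732f67_ag.R.Spr
import Pool.Agent.Lib.MP_732f67_ag.R.Unr

/-!
The coordinate `w` and the ring `A₀` over which everything is unramified.
-/

namespace Pool.Agent.KMR

open Polynomial

variable {k Ω : Type} [Field k] [Field Ω] [Algebra k Ω]

/-- it is enough to know some monic equation `f` with `f' (θ)⁻¹` integral: the minimal polynomial
divides `f`, the quotient has integral coefficients -/
theorem inv_der {V : Subring Ω} {E : IntermediateField k Ω} (hVE : ∀ a ∈ V, a ∈ E) (θ : Ω)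
    (f : Polynomial V) (hf : f.Monic) (h0 : aeval θ f = 0) (h1 : aeval θ (derivative f) ≠ 0)
    (h2 : IsIntegral V (aeval θ (derivative f))⁻¹) :
    IsIntegral V (aeval θ (derivative (minpoly E θ)))⁻¹ := by
  let iV : V →+* E := V.subtype.codRestrict E (fun x => hVE x x.2)
  have hθ : IsIntegral V θ := ⟨f, hf, h0⟩
  have hθE : IsIntegral E θ := IsIntegral.map_of_comp_eq iV (RingHom.id Ω) rfl hθ
  have h3 : minpoly E θ ∣ f.map iV := by
    refine minpoly.dvd E θ ?_
    rw [aeval_def, eval₂_map]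
    exact h0
  have h4 := Polynomial.map_dvd (algebraMap E Ω) h3
  rw [Polynomial.map_map] at h4
  obtain ⟨q, hq⟩ := h4
  have hq' : f.map (algebraMap V Ω) = (minpoly E θ).map (algebraMap E Ω) * q := hq
  have hmE : ((minpoly E θ).map (algebraMap E Ω)).Monic := (minpoly.monic hθE).map _
  have hmf : (f.map (algebraMap V Ω)).Monic := hf.map _
  have hqm : q.Monic := by
    rw [hq'] at hmf
    exact hmE.of_mul_monic_left hmf
  have hqd : q ∣ f.map (algebraMap V Ω) := by
    rw [hq']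
    exact dvd_mul_left _ _
  have hqi := isIntegral_coeff_of_dvd _ _ hf hqm hqd
  have hqθ : IsIntegral V (q.eval θ) := by
    rw [eval_eq_sum_range]
    exact IsIntegral.sum _ fun i _ => (hqi i).mul (hθ.pow i)
  have h5 : aeval θ (derivative f) = aeval θ (derivative (minpoly E θ)) * q.eval θ := by
    have h6 := congrArg (fun p => (derivative p).eval θ) hq'
    simp only [derivative_mul, eval_add, eval_mul, derivative_map, eval_map] at h6
    rw [← aeval_def, ← aeval_def, ← aeval_def, minpoly.aeval, zero_mul, add_zero] at h6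
    exact h6
  have h7 : (aeval θ (derivative (minpoly E θ)))⁻¹ =
      (aeval θ (derivative f))⁻¹ * q.eval θ := by
    have h8 : q.eval θ ≠ 0 := fun h => h1 (by rw [h5, h, mul_zero])
    rw [h5, mul_inv, mul_assoc, inv_mul_cancel₀ h8, mul_one]
  rw [h7]
  exact h2.mul hqθ

/-- integrality over a subalgebra and over the underlying subring -/
theorem A0_sub {A : Subalgebra k Ω} {a : Ω} (h : IsIntegral A a) :
    IsIntegral A.toSubring a := by
  obtain ⟨p, hp, hp0⟩ := h
  exact ⟨p, hp, hp0⟩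

/-- the value at an integral element of a polynomial whose coefficients are in `A` -/
theorem A0_aeval {K : IntermediateField k Ω} {A : Subalgebra k Ω} {z : Ω}
    (hz : IsIntegral A z) (p : K[X]) (hp : ∀ i, (p.coeff i : Ω) ∈ A) :
    IsIntegral A (aeval z p) := by
  rw [aeval_eq_sum_range]
  refine IsIntegral.sum _ fun i _ => ?_
  rw [Algebra.smul_def]
  exact (isIntegral_algebraMap (R := A) (x := (⟨p.coeff i, hp i⟩ : A))).mul (hz.pow i)

/-- the coefficients of a polynomial form a finite set -/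
theorem A0_coeff {K : IntermediateField k Ω} (p : K[X]) :
    ∃ C : Finset Ω, (∀ c ∈ C, c ∈ K) ∧ ∀ i, (p.coeff i : Ω) ∈ C := by
  classical
  refine ⟨(Finset.range (p.natDegree + 2)).image fun i => (p.coeff i : Ω), ?_, fun i => ?_⟩
  · intro c hc
    obtain ⟨i, -, rfl⟩ := Finset.mem_image.1 hc
    exact (p.coeff i).2
  · by_cases hi : i < p.natDegree + 2
    · exact Finset.mem_image.2 ⟨i, Finset.mem_range.2 hi, rfl⟩
    · refine Finset.mem_image.2 ⟨p.natDegree + 1, Finset.mem_range.2 (by omega), ?_⟩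
      rw [coeff_eq_zero_of_natDegree_lt (by omega : p.natDegree < p.natDegree + 1),
        coeff_eq_zero_of_natDegree_lt (by omega : p.natDegree < i)]

theorem A0_union [DecidableEq Ω] {P : Ω → Prop} {S : Finset Ω} (a b y : Ω) (h1 : P a)
    (h2 : P b) (h3 : ∀ φ ∈ S, P (y * φ)) :
    ∀ u ∈ ({a, b} ∪ S.image fun φ => y * φ : Finset Ω), P u := by
  intro u hu
  rcases Finset.mem_union.1 hu with hu | hu
  · rcases Finset.mem_insert.1 hu with rfl | hu
    · exact h1
    · rw [Finset.mem_singleton.1 hu]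
      exact h2
  · obtain ⟨φ, hφ', rfl⟩ := Finset.mem_image.1 hu
    exact h3 φ hφ'

/-- the polynomial `(h - w) / (leading coefficient)` over a ring containing everything -/
theorem A0_poly {K : IntermediateField k Ω} {A : Subalgebra k Ω} (h : K[X])
    (hd : 0 < h.natDegree) (w : Ω) (hw : w ∈ A) (hA : ∀ i, (h.coeff i : Ω) ∈ A)
    (hl : ((h.leadingCoeff : K) : Ω)⁻¹ ∈ A) :
    ∃ f : Polynomial A.toSubring, f.Monic ∧
      (∀ z : Ω, aeval z f = ((h.leadingCoeff : K) : Ω)⁻¹ * (aeval z h - w)) ∧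
      ∀ z : Ω, aeval z (derivative f) = ((h.leadingCoeff : K) : Ω)⁻¹ * aeval z (derivative h) := by
  set H : Polynomial Ω := h.map (algebraMap K Ω) with hH
  set l : Ω := ((h.leadingCoeff : K) : Ω) with hl'
  have hinj : Function.Injective (algebraMap K Ω) := (algebraMap K Ω).injective
  have hHd : H.natDegree = h.natDegree := natDegree_map_eq_of_injective hinj h
  have hHl : H.leadingCoeff = l := leadingCoeff_map_of_injective hinj h
  have hl0 : l ≠ 0 := by
    rw [← hHl]
    intro h0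
    rw [leadingCoeff_eq_zero] at h0
    rw [h0, natDegree_zero] at hHd
    omega
  let F : Polynomial Ω := Polynomial.C l⁻¹ * (H - Polynomial.C w)
  have hFm : F.Monic := by
    refine monic_C_mul_of_mul_leadingCoeff_eq_one ?_
    rw [leadingCoeff_sub_of_degree_lt, hHl, inv_mul_cancel₀ hl0]
    exact degree_C_le.trans_lt (natDegree_pos_iff_degree_pos.1 (by omega))
  have hFc : F ∈ Polynomial.lifts (algebraMap A.toSubring Ω) := by
    rw [Polynomial.lifts_iff_coeff_lifts]
    intro i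
    have h1 : F.coeff i ∈ A := by
      change (Polynomial.C l⁻¹ * (H - Polynomial.C w)).coeff i ∈ A
      rw [coeff_C_mul, coeff_sub, coeff_C, hH, coeff_map]
      refine A.mul_mem hl (A.sub_mem (hA i) ?_)
      split_ifs
      · exact hw
      · exact A.zero_mem
    exact ⟨⟨F.coeff i, h1⟩, rfl⟩
  obtain ⟨f, hf, -, hfm⟩ := Polynomial.lifts_and_degree_eq_and_monic hFc hFm
  refine ⟨f, hfm, fun z => ?_, fun z => ?_⟩
  · rw [aeval_def, ← eval_map, hf]
    change (Polynomial.C l⁻¹ * (H - Polynomial.C w)).eval z = _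
    rw [eval_mul, eval_C, eval_sub, eval_C, hH, eval_map, ← aeval_def]
  · rw [aeval_def, ← eval_map, ← derivative_map, hf]
    change (derivative (Polynomial.C l⁻¹ * (H - Polynomial.C w))).eval z = _
    rw [derivative_C_mul, derivative_sub, derivative_C, sub_zero, eval_mul, eval_C, hH,
      derivative_map, eval_map, ← aeval_def]

/-- `A₀ = k[t, g⁻¹, w, (w - c)⁻¹ (c ∈ C)]` -/
def A0 {n : ℕ} (t : Fin n → Ω) (g w : Ω) (C : Finset Ω) : Subalgebra k Ω :=
  Algebra.adjoin k (Set.range t ∪ {g⁻¹, w} ∪ {a | ∃ c ∈ C, a = (w - c)⁻¹})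

/-- PROOF. `exists_s` for `Φ` and the inverses of its elements, `belyi` for `s`: `h`, `C`,
`s h' q = (∏ c, (h - c)) ^ N`; `w = h (z)`. `g`: a common denominator of all the coefficients of `h`,
`s`, `q`, `h'`, of the inverse of the leading coefficient of `h`, of the elements of `C` (`spread_K`),
and `spread` for `θ`, `s (z) f' (θ)⁻¹`, `s (z) φ`; the product of the `g`s. Then over `A = A₀`:
`z` is integral (`h (z) = w`), `s (z)⁻¹ = h' (z) q (z) / ∏ (w - c) ^ N` and `h' (z)⁻¹` are integral, so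
`θ`, `f' (θ)⁻¹`, `φ`, `φ⁻¹` are integral. Two steps `Unr.step`: `K (w) ⊆ K (w) (z) = K (z)` (`inv_der` with
`(h - w) / (leading coefficient)`) and `K (z) ⊆ K (z) (θ) = L`. -/
theorem exists_A0 [CharZero k] {n : ℕ} (t : Fin n → Ω) (z : Ω)
    (hz : Transcendental (kt (k := k) t) z) {L : IntermediateField k Ω}
    (hL : Fext (IntermediateField.adjoin k ((kt (k := k) t : Set Ω) ∪ {z})) L) (Φ : Finset Ω)
    (hΦ : ∀ φ ∈ Φ, φ ∈ L ∧ φ ≠ 0) :
    ∃ (h : (kt (k := k) t)[X]) (C : Finset Ω) (g : Ω), 0 < h.natDegree ∧ 0 ∈ C ∧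
      (∀ c ∈ C, c ∈ kt (k := k) t) ∧ g ∈ Algebra.adjoin k (Set.range t) ∧ g ≠ 0 ∧
      Transcendental (kt (k := k) t) (aeval z h) ∧
      (∀ c ∈ C, c ∈ Algebra.adjoin k (Set.range t ∪ {g⁻¹})) ∧
      (∀ i, (h.coeff i : Ω) ∈ Algebra.adjoin k (Set.range t ∪ {g⁻¹})) ∧
      Fext (IntermediateField.adjoin k ((kt (k := k) t : Set Ω) ∪ {aeval z h})) L ∧
      Unr (A0 (k := k) t g (aeval z h) C).toSubring
        (IntermediateField.adjoin k ((kt (k := k) t : Set Ω) ∪ {aeval z h})) L ∧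
      IsIntegral (A0 (k := k) t g (aeval z h) C) z ∧
      ∀ φ ∈ Φ, IsIntegral (A0 (k := k) t g (aeval z h) C) φ ∧
        IsIntegral (A0 (k := k) t g (aeval z h) C) φ⁻¹ := by
  classical
  have hchar : CharZero (kt (k := k) t) :=
    charZero_of_injective_algebraMap (algebraMap k (kt (k := k) t)).injective
  obtain ⟨s, θ, hs0, hLθ, hθ, hder, hφ⟩ := exists_s z hz hL (Φ ∪ Φ.image fun a => a⁻¹) (by
    intro φ hφ
    rcases Finset.mem_union.1 hφ with h | h
    · exact (hΦ φ h).1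
    · obtain ⟨φ', hφ', rfl⟩ := Finset.mem_image.1 h
      exact L.inv_mem (hΦ φ' hφ').1)
  obtain ⟨h, C₀, N, hd, hC0, q, hq⟩ := belyi s hs0
  -- the denominators
  obtain ⟨Ch, hCh, hCh'⟩ := A0_coeff h
  obtain ⟨Cd, hCd, hCd'⟩ := A0_coeff (derivative h)
  obtain ⟨Cs, hCs, hCs'⟩ := A0_coeff s
  obtain ⟨Cq, hCq, hCq'⟩ := A0_coeff q
  obtain ⟨g₁, hg₁, hg₁0, hg₁A⟩ := spread_K t
    (C₀.image (algebraMap (kt (k := k) t) Ω) ∪ Ch ∪ Cd ∪ Cs ∪ Cq ∪
      {((h.leadingCoeff : kt (k := k) t) : Ω)⁻¹}) (by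
    intro c hc
    simp only [Finset.mem_union, Finset.mem_singleton] at hc
    rcases hc with ((((hc | hc) | hc) | hc) | hc) | hc
    · obtain ⟨c', -, rfl⟩ := Finset.mem_image.1 hc
      exact c'.2
    · exact hCh c hc
    · exact hCd c hc
    · exact hCs c hc
    · exact hCq c hc
    · rw [hc]
      exact (kt (k := k) t).inv_mem (h.leadingCoeff).2)
  simp only [Finset.mem_union, Finset.mem_singleton] at hg₁A
  obtain ⟨g₂, hg₂, hg₂0, hg₂A⟩ := spread t z
    ({θ, aeval z s * (aeval θ (derivative (minpoly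
        (IntermediateField.adjoin k ((kt (k := k) t : Set Ω) ∪ {z})) θ)))⁻¹} ∪
      (Φ ∪ Φ.image fun a => a⁻¹).image fun φ => aeval z s * φ) (A0_union _ _ _ hθ hder hφ)
  have hg0 : g₁ * g₂ ≠ 0 := mul_ne_zero hg₁0 hg₂0
  have hB : ∀ B : Subalgebra k Ω, (∀ i, t i ∈ B) → (g₁ * g₂)⁻¹ ∈ B → g₁⁻¹ ∈ B ∧ g₂⁻¹ ∈ B := by
    intro B ht hg
    have hle : Algebra.adjoin k (Set.range t) ≤ B := Algebra.adjoin_le (by
      rintro _ ⟨i, rfl⟩
      exact ht i)
    constructor
    · have h1 : g₁⁻¹ = g₂ * (g₁ * g₂)⁻¹ := by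
        field_simp
      rw [h1]
      exact B.mul_mem (hle hg₂) hg
    · have h1 : g₂⁻¹ = g₁ * (g₁ * g₂)⁻¹ := by
        field_simp
      rw [h1]
      exact B.mul_mem (hle hg₁) hg
  set C : Finset Ω := C₀.image (algebraMap (kt (k := k) t) Ω) with hC
  set w : Ω := aeval z h with hw
  set A : Subalgebra k Ω := A0 (k := k) t (g₁ * g₂) w C with hA
  -- elements of `A`
  have hAt : ∀ i, t i ∈ A := fun i =>
    Algebra.subset_adjoin (Or.inl (Or.inl ⟨i, rfl⟩))
  have hAg : (g₁ * g₂)⁻¹ ∈ A := Algebra.subset_adjoin (Or.inl (Or.inr (Or.inl rfl)))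
  have hAw : w ∈ A := Algebra.subset_adjoin (Or.inl (Or.inr (Or.inr rfl)))
  have hAc : ∀ c ∈ C, (w - c)⁻¹ ∈ A := fun c hc => Algebra.subset_adjoin (Or.inr ⟨c, hc, rfl⟩)
  have hAK := hg₁A A hAt (hB A hAt hAg).1
  have hAh : ∀ i, (h.coeff i : Ω) ∈ A := fun i =>
    hAK _ (Or.inl (Or.inl (Or.inl (Or.inl (Or.inr (hCh' i))))))
  have hAd : ∀ i, ((derivative h).coeff i : Ω) ∈ A := fun i =>
    hAK _ (Or.inl (Or.inl (Or.inl (Or.inr (hCd' i)))))
  have hAs : ∀ i, (s.coeff i : Ω) ∈ A := fun i => hAK _ (Or.inl (Or.inl (Or.inr (hCs' i))))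
  have hAq : ∀ i, (q.coeff i : Ω) ∈ A := fun i => hAK _ (Or.inl (Or.inr (hCq' i)))
  have hAl : ((h.leadingCoeff : kt (k := k) t) : Ω)⁻¹ ∈ A := hAK _ (Or.inr rfl)
  -- `A ≤ K (w)`
  have hKw : ∀ a ∈ kt (k := k) t,
      a ∈ IntermediateField.adjoin k ((kt (k := k) t : Set Ω) ∪ {w}) := fun a ha =>
    IntermediateField.subset_adjoin k _ (Or.inl ha)
  have hww : w ∈ IntermediateField.adjoin k ((kt (k := k) t : Set Ω) ∪ {w}) :=
    IntermediateField.subset_adjoin k _ (Or.inr rfl)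
  have hadj : ∀ a ∈ Algebra.adjoin k (Set.range t), a ∈ kt (k := k) t := fun a ha =>
    IntermediateField.algebra_adjoin_le_adjoin k _ ha
  have hCK : ∀ c ∈ C, c ∈ kt (k := k) t := by
    intro c hc
    obtain ⟨c', -, rfl⟩ := Finset.mem_image.1 hc
    exact c'.2
  have hAE : ∀ a ∈ A, a ∈ IntermediateField.adjoin k ((kt (k := k) t : Set Ω) ∪ {w}) := by
    have h1 : A ≤ (IntermediateField.adjoin k ((kt (k := k) t : Set Ω) ∪ {w})).toSubalgebra := by
      refine Algebra.adjoin_le ?_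
      rintro a ((ha | (ha | ha)) | ⟨c, hc, ha⟩)
      · exact hKw _ (hadj _ (Algebra.subset_adjoin ha))
      · rw [ha]
        exact hKw _ ((kt (k := k) t).inv_mem (hadj _ (Subalgebra.mul_mem _ hg₁ hg₂)))
      · rw [Set.mem_singleton_iff.1 ha]
        exact hww
      · rw [ha]
        exact IntermediateField.inv_mem _ (IntermediateField.sub_mem _ hww (hKw _ (hCK c hc)))
    exact fun a ha => h1 ha
  -- `z` is integral over `A`
  obtain ⟨f, hf, hf0, hf1⟩ := A0_poly h hd w hAw hAh hAl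
  have hfz : aeval z f = 0 := by rw [hf0, ← hw, sub_self, mul_zero]
  have hzV : IsIntegral A.toSubring z := ⟨f, hf, hfz⟩
  have hzA : IsIntegral A z := hzV
  -- values
  have hinjz : ∀ p : (kt (k := k) t)[X], p ≠ 0 → aeval z p ≠ 0 := fun p hp h0 =>
    hp ((transcendental_iff.1 hz) p h0)
  have hh' : derivative h ≠ 0 := by
    intro h0
    have h1 := derivative_eq_zero.1 h0
    omega
  have hh0 : h ≠ 0 := by
    rintro rfl
    rw [natDegree_zero] at hd
    omega
  have hl0 : ((h.leadingCoeff : kt (k := k) t) : Ω) ≠ 0 := by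
    intro h0
    exact hh0 (leadingCoeff_eq_zero.1 (Subtype.ext h0))
  have hD : (∏ c ∈ C₀, (w - (c : Ω))) ^ N = aeval z s * aeval z (derivative h) * aeval z q := by
    have h1 := congrArg (aeval z) hq
    rw [map_pow, map_prod, map_mul, map_mul] at h1
    rw [← h1]
    congr 1
    refine Finset.prod_congr rfl fun c _ => ?_
    rw [map_sub, aeval_C]
    rfl
  have hwc : ∀ c ∈ C₀, w - (c : Ω) ≠ 0 := by
    intro c _
    have h1 : h - Polynomial.C c ≠ 0 := by
      intro h0
      rw [sub_eq_zero.1 h0, natDegree_C] at hd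
      omega
    have h2 := hinjz _ h1
    rw [map_sub, aeval_C] at h2
    exact h2
  have hDne : (∏ c ∈ C₀, (w - (c : Ω))) ^ N ≠ 0 :=
    pow_ne_zero _ (Finset.prod_ne_zero_iff.2 hwc)
  have hDi : ((∏ c ∈ C₀, (w - (c : Ω))) ^ N)⁻¹ ∈ A := by
    rw [← inv_pow, ← Finset.prod_inv_distrib]
    exact A.pow_mem (A.prod_mem fun c hc => hAc _ (Finset.mem_image_of_mem _ hc)) _
  have hDI : IsIntegral A ((∏ c ∈ C₀, (w - (c : Ω))) ^ N)⁻¹ :=
    isIntegral_algebraMap (R := A) (x := (⟨_, hDi⟩ : A))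
  have hs1 := A0_aeval hzA s hAs
  have hd1 := A0_aeval hzA _ hAd
  have hq1 := A0_aeval hzA q hAq
  have hsz : aeval z s ≠ 0 := hinjz s hs0
  have hdz : aeval z (derivative h) ≠ 0 := hinjz _ hh'
  have hsi : IsIntegral A (aeval z s)⁻¹ := by
    have h1 : (aeval z s)⁻¹ =
        aeval z (derivative h) * aeval z q * ((∏ c ∈ C₀, (w - (c : Ω))) ^ N)⁻¹ := by
      rw [eq_mul_inv_iff_mul_eq₀ hDne, hD, mul_assoc, inv_mul_cancel_left₀ hsz]
    rw [h1]
    exact (hd1.mul hq1).mul hDI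
  have hdi : IsIntegral A (aeval z (derivative h))⁻¹ := by
    have h1 : (aeval z (derivative h))⁻¹ =
        aeval z s * aeval z q * ((∏ c ∈ C₀, (w - (c : Ω))) ^ N)⁻¹ := by
      rw [eq_mul_inv_iff_mul_eq₀ hDne, hD, mul_comm (aeval z s), mul_assoc,
        inv_mul_cancel_left₀ hdz]
    rw [h1]
    exact (hs1.mul hq1).mul hDI
  -- the elements `θ`, `f' (θ)⁻¹`, `φ`
  have hU := hg₂A A hAt (hB A hAt hAg).2 hzA
  have hθA : IsIntegral A θ := hU θ (Finset.mem_union_left _ (Finset.mem_insert_self _ _))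
  have hθd : IsIntegral A (aeval θ (derivative (minpoly
      (IntermediateField.adjoin k ((kt (k := k) t : Set Ω) ∪ {z})) θ)))⁻¹ := by
    have h1 := hsi.mul (hU _ (Finset.mem_union_left _ (Finset.mem_insert_of_mem
      (Finset.mem_singleton_self _))))
    rwa [inv_mul_cancel_left₀ hsz] at h1
  have hφA : ∀ φ ∈ Φ ∪ Φ.image (fun a => a⁻¹), IsIntegral A φ := by
    intro φ hφ'
    have h1 := hsi.mul (hU _ (Finset.mem_union_right _ (Finset.mem_image_of_mem _ hφ')))
    rwa [inv_mul_cancel_left₀ hsz] at h1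
  -- the fields
  have hwz : w ∈ IntermediateField.adjoin k ((kt (k := k) t : Set Ω) ∪ {z}) := by
    rw [hw, aeval_eq_sum_range]
    refine sum_mem fun i _ => ?_
    rw [Algebra.smul_def]
    have h1 : z ∈ IntermediateField.adjoin k ((kt (k := k) t : Set Ω) ∪ {z}) :=
      IntermediateField.subset_adjoin k _ (Or.inr rfl)
    exact mul_mem (IntermediateField.subset_adjoin k _ (Or.inl (h.coeff i).2)) (pow_mem h1 _)
  have hle : IntermediateField.adjoin k ((kt (k := k) t : Set Ω) ∪ {w}) ≤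
      IntermediateField.adjoin k ((kt (k := k) t : Set Ω) ∪ {z}) := by
    rw [IntermediateField.adjoin_le_iff]
    rintro x (hx | hx)
    · exact IntermediateField.subset_adjoin k _ (Or.inl hx)
    · rw [Set.mem_singleton_iff.1 hx]
      exact hwz
  have heq : IntermediateField.adjoin k (((IntermediateField.adjoin k
      ((kt (k := k) t : Set Ω) ∪ {w}) : IntermediateField k Ω) : Set Ω) ∪ {z}) =
      IntermediateField.adjoin k ((kt (k := k) t : Set Ω) ∪ {z}) := by
    refine le_antisymm ?_ ?_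
    · rw [IntermediateField.adjoin_le_iff]
      rintro x (hx | hx)
      · exact hle hx
      · exact IntermediateField.subset_adjoin k _ (Or.inr hx)
    · rw [IntermediateField.adjoin_le_iff]
      rintro x (hx | hx)
      · exact IntermediateField.subset_adjoin k _ (Or.inl (hKw x hx))
      · exact IntermediateField.subset_adjoin k _ (Or.inr hx)
  have hAEV : ∀ a ∈ A.toSubring,
      a ∈ IntermediateField.adjoin k ((kt (k := k) t : Set Ω) ∪ {w}) := fun a ha => hAE a ha
  have hzE : IsIntegral (IntermediateField.adjoin k ((kt (k := k) t : Set Ω) ∪ {w})) z :=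
    IsIntegral.map_of_comp_eq (A.toSubring.subtype.codRestrict
      (IntermediateField.adjoin k ((kt (k := k) t : Set Ω) ∪ {w})) (fun x => hAEV x x.2))
      (RingHom.id Ω) rfl hzV
  have hF1 : Fext (IntermediateField.adjoin k ((kt (k := k) t : Set Ω) ∪ {w}))
      (IntermediateField.adjoin k ((kt (k := k) t : Set Ω) ∪ {z})) := by
    refine ⟨hle, {z}, fun a ha => ?_, ?_⟩
    · rw [Finset.mem_singleton.1 ha]
      exact hzE.isAlgebraic
    · rw [Finset.coe_singleton, heq]
  have hstep1 : Unr A.toSubring (IntermediateField.adjoin k ((kt (k := k) t : Set Ω) ∪ {w}))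
      (IntermediateField.adjoin k ((kt (k := k) t : Set Ω) ∪ {z})) := by
    have h1 := Unr.step (E := IntermediateField.adjoin k ((kt (k := k) t : Set Ω) ∪ {w})) z
      Unr.refl hzV (inv_der hAEV z f hf hfz (by
        rw [hf1]
        exact mul_ne_zero (inv_ne_zero hl0) hdz) (by
        rw [hf1, mul_inv, inv_inv]
        have h2 : IsIntegral A ((h.leadingCoeff : kt (k := k) t) : Ω) :=
          isIntegral_algebraMap (R := A) (x := (⟨_, hAh h.natDegree⟩ : A))
        exact A0_sub (h2.mul hdi)))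
    rwa [heq] at h1
  refine ⟨h, C, g₁ * g₂, hd, ?_, hCK, mul_mem hg₁ hg₂, hg0, ?_, ?_, ?_, hF1.trans hL, ?_, hzA,
    fun φ hφ' => ⟨?_, ?_⟩⟩
  · exact Finset.mem_image.2 ⟨0, hC0, map_zero _⟩
  · exact Transcendental.aeval hz h (by omega)
      (mem_nonZeroDivisors_of_ne_zero (leadingCoeff_ne_zero.2 hh0))
  · intro c hc
    refine hg₁A _ (fun i => Algebra.subset_adjoin (Or.inl ⟨i, rfl⟩)) (hB _
      (fun i => Algebra.subset_adjoin (Or.inl ⟨i, rfl⟩)) (Algebra.subset_adjoin (Or.inr rfl))).1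
      c (Or.inl (Or.inl (Or.inl (Or.inl (Or.inl hc)))))
  · intro i
    exact hg₁A _ (fun i => Algebra.subset_adjoin (Or.inl ⟨i, rfl⟩)) (hB _
      (fun i => Algebra.subset_adjoin (Or.inl ⟨i, rfl⟩)) (Algebra.subset_adjoin (Or.inr rfl))).1
      _ (Or.inl (Or.inl (Or.inl (Or.inl (Or.inr (hCh' i))))))
  · have h1 := Unr.step θ hstep1 (A0_sub hθA) (A0_sub hθd)
    rwa [hLθ] at h1
  · exact hφA φ (Finset.mem_union_left _ hφ')
  · exact hφA φ⁻¹ (Finset.mem_union_right _ (Finset.mem_image_of_mem _ hφ'))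

end Pool.Agent.KMR
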