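import Pool.Agent.Lib.MP_732f67_ag.R.PsiB

/-!
Equivariance: it is enough to check one half.
-/

namespace Pool.Agent.KMR

variable {k Ω : Type} [Field k] [Field Ω] [Algebra k Ω]

namespace Mdl

variable {G : Subgroup (Ω ≃ₐ[k] Ω)} {M : Mdl k Ω G} {n : ℕ}

/-- the half of the equivariance which has to be checked -/
def EqH (M : Mdl k Ω G) : Prop :=
  ∀ g : G, ∀ c (φ : M.R c →ₐ[k] k), ∃ c', ∃ φ' : M.R c' →ₐ[k] k,
    (∀ a ∈ M.O c' φ', ((g : Ω ≃ₐ[k] Ω)).symm a ∈ M.O c φ) ∧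
      ∀ j, M.At c φ j → M.At c' φ' (M.π g j)

/-- PROOF. Apply `EqH` to `g` and then to `g⁻¹`: `O c'' φ'' ≤ g⁻¹ O c' φ' ≤ O c φ`, equalities by
`eq_of_le`; the labels: `π g` and `π g⁻¹` are inverse to each other, and `at_iff`. -/
theorem Ok0.eqP [IsAlgClosed k] [CharZero k] (h : M.Ok0 n) (h1 : M.EqH) : M.EqP := by
  intro g c φ
  obtain ⟨c', φ', h2, h3⟩ := h1 g c φ
  obtain ⟨c'', φ'', h4, h5⟩ := h1 g⁻¹ c' φ'
  have hs : ∀ a : Ω, ((g : Ω ≃ₐ[k] Ω)).symm ((g : Ω ≃ₐ[k] Ω) a) = a := fun a =>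
    AlgEquiv.symm_apply_apply _ a
  have hi : ∀ a : Ω, (((g⁻¹ : G) : Ω ≃ₐ[k] Ω)).symm a = (g : Ω ≃ₐ[k] Ω) a := fun a => rfl
  have hle : M.O c'' φ'' ≤ M.O c φ := by
    intro a ha
    have h6 := h4 a ha
    rw [hi] at h6
    have h7 := h2 _ h6
    rwa [hs] at h7
  have heq : M.O c'' φ'' = M.O c φ := h.eq_of_le c'' c φ'' φ hle
  refine ⟨c', φ', fun a => ⟨fun ha => ?_, fun ha => ?_⟩, fun j => ⟨h3 j, fun hj => ?_⟩⟩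
  · rw [← heq] at ha
    have h6 := h4 a ha
    rwa [hi] at h6
  · have h7 := h2 _ ha
    rwa [hs] at h7
  · have h6 := h5 _ hj
    have h7 : M.π g⁻¹ (M.π g j) = j := by
      rw [← Equiv.Perm.mul_apply, ← map_mul, inv_mul_cancel, map_one, Equiv.Perm.one_apply]
    rw [h7] at h6
    exact (h.at_iff c'' c φ'' φ heq j).1 h6

/-- `g (x c j)` is a local equation of `g B_j` -/
theorem OkV.g_x (hV : M.OkV) (hJ : M.EqJ) (g : G) (c c' : M.ι)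
    (φ : M.R c →ₐ[k] k) (φ' : M.R c' →ₐ[k] k)
    (he : ∀ a, a ∈ M.O c φ ↔ (g : Ω ≃ₐ[k] Ω) a ∈ M.O c' φ')
    (hj' : ∀ j, M.At c φ j ↔ M.At c' φ' (M.π g j)) (j : M.J) (hj : M.At c φ j) :
    Un (M.O c' φ') ((g : Ω ≃ₐ[k] Ω) (M.x c j : Ω) / M.x c' (M.π g j)) := by
  have hS : j ∈ M.S c := hj.1
  have hS' : M.π g j ∈ M.S c' := ((hj' j).1 hj).1
  have hx : M.x c j ∈ M.Ψ := hV.x_Ψ c j hS
  have hgx : ga (g : Ω ≃ₐ[k] Ω) (M.x c j) ∈ M.Ψ := hJ.Ψ_g g _ hx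
  have hx' : M.x c' (M.π g j) ∈ M.Ψ := hV.x_Ψ c' _ hS'
  have hxi : (M.x c' (M.π g j))⁻¹ ∈ M.Ψ := M.Ψ.inv_mem hx'
  have h1 : Un (M.O c' φ')
      ((ga (g : Ω ≃ₐ[k] Ω) (M.x c j) * (M.x c' (M.π g j))⁻¹ : Ωˣ) : Ω) := by
    refine hV.un_O c' φ' _ (M.Ψ.mul_mem hgx hxi) fun j' hj'' => ?_
    obtain ⟨i, rfl⟩ := (M.π g).surjective j'
    have hi : M.At c φ i := (hj' i).2 hj''
    rw [hV.v_mul _ _ hgx _ hxi, hV.v_inv _ _ hx', hJ.v_g g _ hx]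
    by_cases hij : i = j
    · subst hij
      rw [hV.v_x c i hS, hV.v_x c' _ hS']
      ring
    · rw [hV.v_x' c i hi.1 j hS hij, hV.v_x' c' _ hj''.1 _ hS' fun e => hij ((M.π g).injective e)]
      ring
  have h2 : ((ga (g : Ω ≃ₐ[k] Ω) (M.x c j) * (M.x c' (M.π g j))⁻¹ : Ωˣ) : Ω) =
      (g : Ω ≃ₐ[k] Ω) (M.x c j : Ω) / M.x c' (M.π g j) := by
    rw [Units.val_mul, Units.val_inv_eq_inv_val, div_eq_mul_inv]
    rfl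
  rw [← h2]
  exact h1

end Mdl

end Pool.Agent.KMR
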