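import Pool.Agent.Lib.MP_732f67_ag.R.Lab
import Pool.Agent.Lib.MP_732f67_ag.R.PsiC

/-!
Enlarging `Ψ` by a function with divisor supported on the boundary.
-/

namespace Pool.Agent.KMR

variable {k Ω : Type} [Field k] [Field Ω] [Algebra k Ω]

namespace Mdl

variable {G : Subgroup (Ω ≃ₐ[k] Ω)} {M : Mdl k Ω G} {n : ℕ}

/-- the order of a monomial -/
theorem OkV.labF_v (h : M.OkV) (c : M.ι) (β : M.J → ℤ) (j : M.J) (hj : j ∈ M.S c) :
    M.v j (∏ i ∈ M.S c, M.x c i ^ β i) = β j := by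
  classical
  have hx : ∀ i ∈ M.S c, M.x c i ^ β i ∈ M.Ψ := fun i hi => zpow_mem (h.x_Ψ c i hi) _
  rw [h.v_prod j _ _ hx, Finset.sum_eq_single j]
  · rw [h.v_zpow j _ (h.x_Ψ c j hj), h.v_x c j hj]
    ring
  · intro i hi hij
    rw [h.v_zpow j _ (h.x_Ψ c i hi), h.v_x' c j hj i hi hij.symm, mul_zero]
  · intro hc
    exact absurd hj hc

theorem OkV.labF_mem (h : M.OkV) (c : M.ι) (β : M.J → ℤ) :
    (∏ i ∈ M.S c, M.x c i ^ β i) ∈ M.Ψ := prod_mem fun i hi => zpow_mem (h.x_Ψ c i hi) _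

theorem labF_zpow {O : Subalgebra k Ω} {a : Ωˣ} (ha : Un O (a : Ω)) (e : ℤ) :
    Un O ((a ^ e : Ωˣ) : Ω) := by
  rw [Units.val_zpow_eq_zpow_val]
  exact ha.zpow e

/-- the orders of the powers of `y` -/
theorem labF_y [IsAlgClosed k] [CharZero k] (h : M.Good n) (ho : ∀ j, M.Occ j) (y : Ωˣ)
    (β : M.J → ℤ) (hb : ∀ c, Un (M.R c) (y * (∏ j ∈ M.S c, M.x c j ^ β j)⁻¹ : Ωˣ)) (j : M.J)
    (e : ℤ) (he : y ^ e ∈ M.Ψ) : M.v j (y ^ e) = e * β j := by
  obtain ⟨c, hc⟩ := ho j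
  have hp := h.toOkV.labF_mem c β
  have h1 := labF_zpow (hb c) e
  have h2 : (y * (∏ j ∈ M.S c, M.x c j ^ β j)⁻¹) ^ e =
      y ^ e * ((∏ j ∈ M.S c, M.x c j ^ β j) ^ e)⁻¹ := by
    rw [mul_zpow, inv_zpow]
  rw [h2] at h1
  have h3 := (h.toOk.un_R_iff c _ (mul_mem he (inv_mem (zpow_mem hp e)))).1 h1 j hc
  rw [h.v_mul j _ he _ (inv_mem (zpow_mem hp e)), h.toOkV.v_inv j _ (zpow_mem hp e),
    h.toOkV.v_zpow j _ hp, h.toOkV.labF_v c β j hc] at h3
  omega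

/-- PROOF. `vx_eq` applies: if `y ^ e ∈ Ψ` then `v j (y ^ e) = e * β j` because `j` occurs in some
chart `c`, with a deep point (`un_R_iff`). -/
theorem addf_good [IsAlgClosed k] [CharZero k] (h : M.Good n) (ho : ∀ j, M.Occ j) (y : Ωˣ)
    (hy : (y : Ω) ∈ M.F) (β : M.J → ℤ)
    (hb : ∀ c, Un (M.R c) (y * (∏ j ∈ M.S c, M.x c j ^ β j)⁻¹ : Ωˣ))
    (hg : ∀ g : G, (g : Ω ≃ₐ[k] Ω) (y : Ω) = y)
    (hβ : ∀ (g : G) j, β (M.π g j) = β j) : (M.addf y β).Good n := by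
  have hvx : ∀ j a (_ : a ∈ M.Ψ) (e : ℤ), (M.addf y β).v j (a * y ^ e) = M.v j a + e * β j :=
    fun j a ha e => vx_eq (h.v_mul j) (labF_y h ho y β hb j) a ha e
  have hv0 : ∀ j a (_ : a ∈ M.Ψ), (M.addf y β).v j a = M.v j a := by
    intro j a ha
    have h1 := hvx j a ha 0
    rwa [zpow_zero, mul_one, zero_mul, add_zero] at h1
  have hle : ∀ a ∈ M.Ψ, a ∈ adj M.Ψ y := fun a ha =>
    mem_adj.2 ⟨a, ha, 0, by rw [zpow_zero, mul_one]⟩
  have hR : (M.addf y β).OkR n :=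
    { fin := h.fin
      trd := h.trd
      fg := h.fg
      le := h.le
      frac := h.frac
      complete := h.complete }
  have hV : (M.addf y β).OkV :=
    { Ψ_fg := adj_fg h.Ψ_fg y
      Ψ_F := by
        intro a ha
        obtain ⟨b, hb', e, rfl⟩ := mem_adj.1 ha
        show ((b * y ^ e : Ωˣ) : Ω) ∈ M.F
        rw [Units.val_mul, Units.val_zpow_eq_zpow_val]
        exact mul_mem (h.Ψ_F b hb') (zpow_mem hy e)
      x_Ψ := fun c j hj => hle _ (h.x_Ψ c j hj)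
      x_R := h.x_R
      v_mul := fun j a ha b hb' => vx_mul (h.v_mul j) (labF_y h ho y β hb j) a b ha hb'
      v_x := fun c j hj => (hv0 j _ (h.x_Ψ c j hj)).trans (h.v_x c j hj)
      v_x' := fun c i hi j hj hij => (hv0 i _ (h.x_Ψ c j hj)).trans (h.v_x' c i hi j hj hij)
      unit := by
        intro c a ha hv
        obtain ⟨b, hb', e, rfl⟩ := mem_adj.1 ha
        have hp := h.toOkV.labF_mem c β
        have h1 : b * y ^ e = (b * (∏ j ∈ M.S c, M.x c j ^ β j) ^ e) *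
            (y * (∏ j ∈ M.S c, M.x c j ^ β j)⁻¹) ^ e := by
          rw [mul_zpow, inv_zpow]
          rw [mul_assoc b, mul_comm (y ^ e), ← mul_assoc ((∏ j ∈ M.S c, M.x c j ^ β j) ^ e),
            mul_inv_cancel, one_mul]
        have h2 : Un (M.R c) ((b * (∏ j ∈ M.S c, M.x c j ^ β j) ^ e : Ωˣ) : Ω) := by
          refine h.unit c _ (mul_mem hb' (zpow_mem hp e)) fun j hj => ?_
          have h3 : M.v j b + e * β j = 0 := (hvx j b hb' e).symm.trans (hv j hj)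
          rw [h.v_mul j _ hb' _ (zpow_mem hp e), h.toOkV.v_zpow j _ hp, h.toOkV.labF_v c β j hj]
          exact h3
        show Un (M.R c) ((b * y ^ e : Ωˣ) : Ω)
        rw [h1, Units.val_mul]
        exact h2.mul (labF_zpow (hb c) e) }
  have hP : (M.addf y β).OkP n := { par := h.par }
  have hS : (M.addf y β).OkS :=
    { s_mem := h.s_mem
      s_loc := h.s_loc
      s_x := h.s_x
      m_Ψ := fun c => hle _ (h.m_Ψ c)
      m_s := h.m_s
      m_v := fun c j hj => (hv0 j _ (h.m_Ψ c)).trans (h.m_v c j hj) }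
  have hgy : ∀ g : G, ga (g : Ω ≃ₐ[k] Ω) y = y := fun g => Units.ext (hg g)
  have hJ : (M.addf y β).EqJ :=
    { Ψ_g := by
        intro g a ha
        obtain ⟨b, hb', e, rfl⟩ := mem_adj.1 ha
        refine mem_adj.2 ⟨ga (g : Ω ≃ₐ[k] Ω) b, h.Ψ_g g b hb', e, ?_⟩
        rw [map_mul, map_zpow, hgy]
      v_g := by
        intro g a ha j
        obtain ⟨b, hb', e, rfl⟩ := mem_adj.1 ha
        rw [map_mul, map_zpow, hgy]
        have h1 : M.v (M.π g j) (ga (g : Ω ≃ₐ[k] Ω) b) + e * β (M.π g j) =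
            M.v j b + e * β j := by
          rw [h.v_g g b hb' j, hβ]
        exact (hvx _ _ (h.Ψ_g g b hb') e).trans (h1.trans (hvx j b hb' e).symm)
      strict := h.strict }
  exact ⟨⟨⟨hR, hV, hP, hS⟩, h.deep⟩, hJ, h.eqP, h.eqF⟩

theorem addf_v [IsAlgClosed k] [CharZero k] (h : M.Good n) (ho : ∀ j, M.Occ j) (y : Ωˣ)
    (β : M.J → ℤ) (hb : ∀ c, Un (M.R c) (y * (∏ j ∈ M.S c, M.x c j ^ β j)⁻¹ : Ωˣ)) (j : M.J) :
    (∀ a ∈ M.Ψ, (M.addf y β).v j a = M.v j a) ∧ (M.addf y β).v j y = β j := by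
  have hvx : ∀ j a (_ : a ∈ M.Ψ) (e : ℤ), (M.addf y β).v j (a * y ^ e) = M.v j a + e * β j :=
    fun j a ha e => vx_eq (h.v_mul j) (labF_y h ho y β hb j) a ha e
  constructor
  · intro a ha
    have h1 := hvx j a ha 0
    rwa [zpow_zero, mul_one, zero_mul, add_zero] at h1
  · have h1 := hvx j 1 (one_mem _) 1
    rwa [zpow_one, one_mul, one_mul, h.toOkV.v_one, zero_add] at h1

end Mdl

end Pool.Agent.KMR
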