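import Pool.Agent.Lib.MP_732f67_ag.R.Lab
import Pool.Agent.Lib.MP_732f67_ag.R.PsiC

/-!
Dropping the labels which do not occur.
-/

namespace Pool.Agent.KMR

variable {k Ω : Type} [Field k] [Field Ω] [Algebra k Ω]

namespace Mdl

variable {G : Subgroup (Ω ≃ₐ[k] Ω)} (M : Mdl k Ω G) {n : ℕ}

/-- the labels which occur are stable under the group -/
theorem Good.occ (h : M.Good n) (g : G) (j : M.J) (hj : M.Occ j) : M.Occ (M.π g j) := by
  obtain ⟨c, hc⟩ := hj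
  obtain ⟨φ, hφ⟩ := h.deep c
  obtain ⟨c', φ', -, h2⟩ := h.eqP g c φ
  exact ⟨c', ((h2 j).1 (hφ j hc)).1⟩

theorem trim_mem (ho : ∀ g : G, ∀ j, M.Occ j → M.Occ (M.π g j)) (c : M.ι)
    (j : {j // M.Occ j}) : j ∈ (M.trim ho).S c ↔ j.1 ∈ M.S c := by
  classical
  show j ∈ (M.S c).subtype M.Occ ↔ _
  rw [Finset.mem_subtype]

theorem trim_at (ho : ∀ g : G, ∀ j, M.Occ j → M.Occ (M.π g j)) (c : M.ι)
    (φ : M.R c →ₐ[k] k) (j : {j // M.Occ j}) : (M.trim ho).At c φ j ↔ M.At c φ j.1 :=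
  and_congr (M.trim_mem ho c j) Iff.rfl

theorem trim_good (ho : ∀ g : G, ∀ j, M.Occ j → M.Occ (M.π g j)) (h : M.Good n) :
    (M.trim ho).Good n ∧ ∀ j, (M.trim ho).Occ j := by
  have hR : (M.trim ho).OkR n :=
    { fin := h.fin
      trd := h.trd
      fg := h.fg
      le := h.le
      frac := h.frac
      complete := h.complete }
  have hV : (M.trim ho).OkV :=
    { Ψ_fg := h.Ψ_fg
      Ψ_F := h.Ψ_F
      x_Ψ := fun c j hj => h.x_Ψ c j.1 ((M.trim_mem ho c j).1 hj)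
      x_R := fun c j hj => h.x_R c j.1 ((M.trim_mem ho c j).1 hj)
      v_mul := fun j => h.v_mul j.1
      v_x := fun c j hj => h.v_x c j.1 ((M.trim_mem ho c j).1 hj)
      v_x' := fun c i hi j hj hij => h.v_x' c i.1 ((M.trim_mem ho c i).1 hi) j.1
        ((M.trim_mem ho c j).1 hj) fun e => hij (Subtype.ext e)
      unit := fun c a ha hv => h.unit c a ha fun j hj =>
        hv ⟨j, c, hj⟩ ((M.trim_mem ho c ⟨j, c, hj⟩).2 hj) }
  have hP : (M.trim ho).OkP n :=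
    { par := fun c φ => by
        obtain ⟨z, hz, h1⟩ := h.par c φ
        exact ⟨z, hz, fun j hj => h1 j.1 ((M.trim_at ho c φ j).1 hj)⟩ }
  have hS : (M.trim ho).OkS :=
    { s_mem := h.s_mem
      s_loc := h.s_loc
      s_x := fun c c' j hj hj' => h.s_x c c' j.1 ((M.trim_mem ho c j).1 hj)
        fun h1 => hj' ((M.trim_mem ho c' j).2 h1)
      m_Ψ := h.m_Ψ
      m_s := h.m_s
      m_v := fun c j hj => h.m_v c j.1 ((M.trim_mem ho c j).1 hj) }
  have hJ : (M.trim ho).EqJ :=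
    { Ψ_g := h.Ψ_g
      v_g := fun g a ha j => h.v_g g a ha j.1
      strict := fun g c j hj hj' => Subtype.ext (h.strict g c j.1 ((M.trim_mem ho c j).1 hj)
        ((M.trim_mem ho c _).1 hj')) }
  refine ⟨⟨⟨⟨hR, hV, hP, hS⟩, ?_⟩, hJ, ?_, h.eqF⟩, ?_⟩
  · intro c
    obtain ⟨φ, hφ⟩ := h.deep c
    exact ⟨φ, fun j hj => (M.trim_at ho c φ j).2 (hφ j.1 ((M.trim_mem ho c j).1 hj))⟩
  · intro g c φ
    obtain ⟨c', φ', h1, h2⟩ := h.eqP g c φ
    refine ⟨c', φ', h1, fun j => ?_⟩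
    exact (M.trim_at ho c φ j).trans ((h2 j.1).trans
      (M.trim_at ho c' φ' ⟨M.π g j.1, ho g j.1 j.2⟩).symm)
  · rintro ⟨j, c, hc⟩
    exact ⟨c, (M.trim_mem ho c ⟨j, c, hc⟩).2 hc⟩

end Mdl

end Pool.Agent.KMR
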