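import Pool.Agent.Lib.MP_732f67_ag.R.Loop

/-!
The orbit of a bad pair.
-/

namespace Pool.Agent.KMR

variable {k Ω : Type} [Field k] [Field Ω] [Algebra k Ω]

namespace Mdl

variable {G : Subgroup (Ω ≃ₐ[k] Ω)} {n : ℕ}

theorem bad_finite {M : Mdl k Ω G} (h : M.OkR n) (a : Ωˣ) : (M.Bad a).Finite := by
  have := h.fin
  refine (Set.finite_iUnion fun c : M.ι =>
    ((M.S c).finite_toSet.prod (M.S c).finite_toSet)).subset ?_
  rintro ⟨i, j⟩ ⟨⟨c, h1, h2⟩, -⟩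
  exact Set.mem_iUnion.2 ⟨c, h1, h2⟩

theorem cmp_of_bad {M : Mdl k Ω G} (a : Ωˣ) (h : M.Bad a = ∅) : M.Cmp a := by
  intro c
  by_contra hc
  push Not at hc
  obtain ⟨⟨i, hi, h1⟩, ⟨j, hj, h2⟩⟩ := hc
  have h3 : (j, i) ∈ M.Bad a := ⟨⟨c, hj, hi⟩, h2, h1⟩
  rw [h] at h3
  exact h3

/-- the orbit of a bad pair of `a`, `a` fixed by `G`, is a centre.
PROOF. `P` = the pairs `(π g i, π g j)`; it is contained in `Bad a` (orders: `v_g` and `ga g a = a`;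
charts: `EqP` and the deep points). `disj`: `strict`. -/
theorem orbit_ctr [IsAlgClosed k] [CharZero k] {M : Mdl k Ω G} (h : M.Good n) (a : Ωˣ)
    (ha : a ∈ M.Ψ) (hg : ∀ g : G, (g : Ω ≃ₐ[k] Ω) (a : Ω) = a) (q : M.J × M.J)
    (hq : q ∈ M.Bad a) :
    ∃ P : Finset (M.J × M.J), M.Ctr P ∧ q ∈ P ∧ (∀ p ∈ P, p ∈ M.Bad a) ∧
      ∀ p ∈ P, M.v p.1 a = M.v q.1 a ∧ M.v p.2 a = M.v q.2 a := by
  have hga : ∀ g : G, ga (g : Ω ≃ₐ[k] Ω) a = a := fun g => Units.ext (hg g)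
  have hv : ∀ (g : G) j, M.v (M.π g j) a = M.v j a := by
    intro g j
    have h1 := h.v_g g a ha j
    rwa [hga] at h1
  have hbad : ∀ g : G, (M.π g q.1, M.π g q.2) ∈ M.Bad a := by
    intro g
    obtain ⟨⟨c, h1, h2⟩, h3, h4⟩ := hq
    obtain ⟨φ, hφ⟩ := h.deep c
    obtain ⟨c', φ', -, h5⟩ := h.eqP g c φ
    refine ⟨⟨c', ((h5 _).1 (hφ _ h1)).1, ((h5 _).1 (hφ _ h2)).1⟩, ?_, ?_⟩
    · show 0 < M.v (M.π g q.1) a
      rw [hv]
      exact h3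
    · show M.v (M.π g q.2) a < 0
      rw [hv]
      exact h4
  have hfin : (Set.range fun g : G => (M.π g q.1, M.π g q.2)).Finite := by
    refine (bad_finite h.toOkR a).subset ?_
    rintro _ ⟨g, rfl⟩
    exact hbad g
  refine ⟨hfin.toFinset, ⟨?_, ?_, ?_⟩, ?_, ?_, ?_⟩
  · intro p hp
    obtain ⟨g, rfl⟩ := hfin.mem_toFinset.1 hp
    intro h1
    have h2 := hbad g
    have h3 : 0 < M.v (M.π g q.1) a := h2.2.1
    have h4 : M.v (M.π g q.2) a < 0 := h2.2.2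
    have h1 : M.π g q.1 = M.π g q.2 := h1
    rw [h1] at h3
    omega
  · intro c p hp p' hp' h1 h2 h3 h4
    obtain ⟨g, rfl⟩ := hfin.mem_toFinset.1 hp
    obtain ⟨g', rfl⟩ := hfin.mem_toFinset.1 hp'
    have key : ∀ j, M.π g j ∈ M.S c → M.π g' j ∈ M.S c → M.π g j = M.π g' j := by
      intro j k1 k2
      have k3 : M.π (g' * g⁻¹) (M.π g j) = M.π g' j := by
        rw [← Equiv.Perm.mul_apply, ← map_mul, inv_mul_cancel_right]
      have k4 := h.strict (g' * g⁻¹) c _ k1 (by rw [k3]; exact k2)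
      rw [k3] at k4
      exact k4.symm
    exact Prod.ext (key _ h1 h3) (key _ h2 h4)
  · intro g p hp
    obtain ⟨g', rfl⟩ := hfin.mem_toFinset.1 hp
    refine hfin.mem_toFinset.2 ⟨g * g', ?_⟩
    show (M.π (g * g') q.1, M.π (g * g') q.2) = (M.π g (M.π g' q.1), M.π g (M.π g' q.2))
    rw [map_mul]
    rfl
  · refine hfin.mem_toFinset.2 ⟨1, ?_⟩
    show (M.π 1 q.1, M.π 1 q.2) = q
    rw [map_one]
    rfl
  · intro p hp
    obtain ⟨g, rfl⟩ := hfin.mem_toFinset.1 hp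
    exact hbad g
  · intro p hp
    obtain ⟨g, rfl⟩ := hfin.mem_toFinset.1 hp
    exact ⟨hv g q.1, hv g q.2⟩

end Mdl

end Pool.Agent.KMR
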