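import Pool.Agent.Lib.MP_732f67_ag.R.Bl

/-!
The blow-up: equivariance of the labels, comparable functions, derivations.
-/

namespace Pool.Agent.KMR

variable {k Ω : Type} [Field k] [Field Ω] [Algebra k Ω]

namespace Mdl

variable {G : Subgroup (Ω ≃ₐ[k] Ω)} {M : Mdl k Ω G} {n : ℕ} {P : Finset (M.J × M.J)}

theorem blD_some (c : M.ι) (p : {p // p ∈ P}) (h : M.pr P c = some p) :
    p.1.1 ∈ M.S c ∧ p.1.2 ∈ M.S c := by
  classical
  unfold pr at h
  split at h
  · rename_i h1
    rw [← Option.some.inj h]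
    exact h1.choose_spec
  · exact absurd h (by simp)

theorem blD_lo (c : M.ι) (p : {p // p ∈ P}) (h : M.pr P c = some p) (ε : Bool) :
    lo p ε ∈ M.S c ∧ hi p ε ∈ M.S c := by
  have h1 := blD_some c p h
  cases ε
  · exact ⟨h1.2, h1.1⟩
  · exact ⟨h1.1, h1.2⟩

variable (hP : M.Ctr P) (N : ℕ)

theorem blD_inl (c : M.ι) (ε : Bool) (i : M.J) (h : Sum.inl i ∈ (M.bl P hP.stab N).S (c, ε)) :
    i ∈ M.S c := by
  classical
  change Sum.inl i ∈ (M.pr P c).elim ((M.S c).map Function.Embedding.inl) (fun p =>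
    ((M.S c).erase (lo p ε)).map Function.Embedding.inl ∪ {Sum.inr p}) at h
  rcases hp : M.pr P c with _ | p
  · rw [hp] at h
    simpa using h
  · rw [hp] at h
    simp only [Option.elim_some, Finset.mem_union, Finset.mem_map, Finset.mem_erase,
      Function.Embedding.inl_apply, Sum.inl.injEq, exists_eq_right, Finset.mem_singleton,
      reduceCtorEq, or_false] at h
    exact h.2

theorem blD_inr (c : M.ι) (ε : Bool) (p : {p // p ∈ P})
    (h : Sum.inr p ∈ (M.bl P hP.stab N).S (c, ε)) : M.pr P c = some p := by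
  classical
  change Sum.inr p ∈ (M.pr P c).elim ((M.S c).map Function.Embedding.inl) (fun p =>
    ((M.S c).erase (lo p ε)).map Function.Embedding.inl ∪ {Sum.inr p}) at h
  rcases hp : M.pr P c with _ | q
  · rw [hp] at h
    simp at h
  · rw [hp] at h
    simp only [Option.elim_some, Finset.mem_union, Finset.mem_map, Finset.mem_erase,
      Function.Embedding.inl_apply, reduceCtorEq, and_false, exists_false, false_or,
      Finset.mem_singleton, Sum.inr.injEq] at h
    rw [h]

theorem bl_eqJ (h : M.OkV) (hJ : M.EqJ) : (M.bl P hP.stab N).EqJ := by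
  refine ⟨hJ.Ψ_g, ?_, ?_⟩
  · intro g a ha j
    rcases j with j | p
    · exact hJ.v_g g a ha j
    · show M.v (M.π g p.1.1) _ + M.v (M.π g p.1.2) _ = M.v p.1.1 a + M.v p.1.2 a
      rw [hJ.v_g g a ha, hJ.v_g g a ha]
  · rintro g ⟨c, ε⟩ j hj hj'
    rcases j with j | p
    · have h1 := blD_inl hP N c ε j hj
      have h2 := blD_inl hP N c ε (M.π g j) hj'
      exact congrArg Sum.inl (hJ.strict g c j h1 h2)
    · have h1 := blD_inr hP N c ε p hj
      have h2 := blD_inr hP N c ε (prPerm hP.stab g p) hj'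
      rw [h1] at h2
      exact congrArg Sum.inr (Option.some.inj h2).symm

/-- comparable functions stay comparable -/
theorem bl_cmp (a : Ωˣ) (h : M.Cmp a) : (M.bl P hP.stab N).Cmp a := by
  rintro ⟨c, ε⟩
  refine (h c).imp ?_ ?_
  · intro h1 j hj
    rcases j with j | p
    · exact h1 j (blD_inl hP N c ε j hj)
    · have h2 := blD_some c p (blD_inr hP N c ε p hj)
      exact add_nonneg (h1 _ h2.1) (h1 _ h2.2)
  · intro h1 j hj
    rcases j with j | p
    · exact h1 j (blD_inl hP N c ε j hj)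
    · have h2 := blD_some c p (blD_inr hP N c ε p hj)
      exact add_nonpos (h1 _ h2.1) (h1 _ h2.2)

/-- a derivation preserving `R c`, logarithmic along the boundary -/
theorem bl_der (h : M.OkV) (c : M.ι) (D : Derivation k Ω Ω) (hD : ∀ a ∈ M.R c, D a ∈ M.R c)
    (hx : ∀ a ∈ M.Ψ, (D (a : Ω) / a : Ω) ∈ M.R c) (ε : Bool) :
    ∀ a ∈ (M.bl P hP.stab N).R (c, ε), D a ∈ (M.bl P hP.stab N).R (c, ε) := by
  intro a ha
  change a ∈ (M.pr P c).elim (M.R c) (fun p =>
    M.R c ⊔ Algebra.adjoin k {(M.x c (hi p ε) / M.x c (lo p ε) : Ω)}) at ha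
  change D a ∈ (M.pr P c).elim (M.R c) (fun p =>
    M.R c ⊔ Algebra.adjoin k {(M.x c (hi p ε) / M.x c (lo p ε) : Ω)})
  rcases hp : M.pr P c with _ | p
  · rw [hp] at ha
    exact hD a ha
  · rw [hp] at ha
    obtain ⟨h1, h2⟩ := blD_lo c p hp ε
    simp only [Option.elim_some] at ha ⊢
    have hu : (M.x c (hi p ε) / M.x c (lo p ε) : Ω) ∈
        M.R c ⊔ Algebra.adjoin k {(M.x c (hi p ε) / M.x c (lo p ε) : Ω)} :=
      (le_sup_right : _ ≤ M.R c ⊔ _) (Algebra.subset_adjoin rfl)
    have hle : M.R c ≤ M.R c ⊔ Algebra.adjoin k {(M.x c (hi p ε) / M.x c (lo p ε) : Ω)} :=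
      le_sup_left
    have hDu : D (M.x c (hi p ε) / M.x c (lo p ε) : Ω) ∈
        M.R c ⊔ Algebra.adjoin k {(M.x c (hi p ε) / M.x c (lo p ε) : Ω)} := by
      have h3 := hx _ (h.x_Ψ c _ h2)
      have h4 := hx _ (h.x_Ψ c _ h1)
      have h5 : D (M.x c (hi p ε) / M.x c (lo p ε) : Ω) =
          (M.x c (hi p ε) / M.x c (lo p ε) : Ω) *
            (D (M.x c (hi p ε) : Ω) / M.x c (hi p ε) - D (M.x c (lo p ε) : Ω) / M.x c (lo p ε)) := by
        have e1 := (M.x c (hi p ε)).ne_zero
        have e2 := (M.x c (lo p ε)).ne_zero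
        have e3 : (M.x c (hi p ε) : Ω) = (M.x c (hi p ε) / M.x c (lo p ε) : Ω) * M.x c (lo p ε) := by
          rw [div_mul_cancel₀ _ e2]
        have e4 := congrArg D e3
        rw [Derivation.leibniz, smul_eq_mul, smul_eq_mul] at e4
        rw [e4]
        field_simp
        ring
      rw [h5]
      exact mul_mem hu (sub_mem (hle h3) (hle h4))
    have hsup : M.R c ⊔ Algebra.adjoin k {(M.x c (hi p ε) / M.x c (lo p ε) : Ω)} =
        Algebra.adjoin k ((M.R c : Set Ω) ∪ {(M.x c (hi p ε) / M.x c (lo p ε) : Ω)}) := by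
      rw [Algebra.adjoin_union, Algebra.adjoin_eq]
    have ha' := ha
    rw [hsup] at ha'
    generalize M.R c ⊔ Algebra.adjoin k {(M.x c (hi p ε) / M.x c (lo p ε) : Ω)} = R' at *
    subst hsup
    refine Algebra.adjoin_induction (p := fun a _ => D a ∈
      Algebra.adjoin k ((M.R c : Set Ω) ∪ {(M.x c (hi p ε) / M.x c (lo p ε) : Ω)}))
      ?_ ?_ ?_ ?_ ha'
    · rintro x (hx' | hx')
      · exact hle (hD x hx')
      · rw [Set.mem_singleton_iff] at hx'
        rw [hx']
        exact hDu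
    · intro r
      rw [Derivation.map_algebraMap]
      exact zero_mem _
    · intro x y _ _ hx' hy'
      rw [map_add]
      exact add_mem hx' hy'
    · intro x y hx1 hy1 hx' hy'
      rw [Derivation.leibniz, smul_eq_mul, smul_eq_mul]
      exact add_mem (mul_mem hx1 hy') (mul_mem hy1 hx')

end Mdl

end Pool.Agent.KMR
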