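import Pool.Agent.Lib.MP_732f67_ag.R.Inv

/-!
Consequences of the Nullstellensatz for finitely generated subalgebras `R` of `Ω`, `k`
algebraically closed.
-/

namespace Pool.Agent.KMR

variable {k Ω : Type} [Field k] [Field Ω] [Algebra k Ω]

variable [IsAlgClosed k]

/-- a proper ideal has a zero -/
theorem exists_zero {R : Subalgebra k Ω} (h : R.FG) (I : Ideal R) (hI : I ≠ ⊤) :
    ∃ φ : R →ₐ[k] k, ∀ a ∈ I, φ a = 0 := by
  have hft : Algebra.FiniteType k R := (Subalgebra.fg_iff_finiteType R).1 h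
  obtain ⟨m, hm, hIm⟩ := Ideal.exists_le_maximal I hI
  let _ := Ideal.Quotient.field m
  have hft2 : Algebra.FiniteType k (R ⧸ m) :=
    Algebra.FiniteType.of_surjective (Ideal.Quotient.mkₐ k m) (Ideal.Quotient.mkₐ_surjective k m)
  have hfin : Module.Finite k (R ⧸ m) := finite_of_finite_type_of_isJacobsonRing k (R ⧸ m)
  have hbij := IsAlgClosed.algebraMap_bijective_of_isIntegral (k := k) (K := R ⧸ m)
  let e : k ≃ₐ[k] (R ⧸ m) := AlgEquiv.ofBijective (Algebra.ofId k (R ⧸ m)) hbij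
  refine ⟨(e.symm : (R ⧸ m) →ₐ[k] k).comp (Ideal.Quotient.mkₐ k m), fun a ha => ?_⟩
  have h1 : Ideal.Quotient.mkₐ k m a = 0 := Ideal.Quotient.eq_zero_iff_mem.2 (hIm ha)
  rw [AlgHom.comp_apply, h1, map_zero]

/-- `f` vanishes at all the zeros of the ideal `I`: a power of `f` is in `I` -/
theorem exists_pow_mem {R : Subalgebra k Ω} (h : R.FG) (I : Ideal R) (f : R)
    (hf : ∀ φ : R →ₐ[k] k, (∀ a ∈ I, φ a = 0) → φ f = 0) : ∃ N : ℕ, f ^ N ∈ I := by
  have hft : Algebra.FiniteType k R := (Subalgebra.fg_iff_finiteType R).1 h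
  have hJ : IsJacobsonRing R := isJacobsonRing_of_finiteType (A := k)
  have h1 : f ∈ I.radical.jacobson := by
    rw [Ideal.jacobson, Submodule.mem_sInf]
    rintro m ⟨hIm, hm⟩
    obtain ⟨φ, hφ⟩ := exists_zero h m hm.ne_top
    have h2 := hf φ fun a ha => hφ a (hIm (Ideal.le_radical ha))
    have h3 : m = RingHom.ker φ := hm.eq_of_le (RingHom.ker_ne_top _) fun a ha => hφ a ha
    rw [h3]
    exact h2
  rw [IsJacobsonRing.out hJ (Ideal.radical_isRadical I)] at h1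
  exact h1

/-- an element of `R` which is a unit at every point is a unit of `R` -/
theorem un_of_pt {R : Subalgebra k Ω} (h : R.FG) (a : Ω) (ha : a ∈ R)
    (h1 : ∀ φ : R →ₐ[k] k, Un (Loc R φ) a) : Un R a := by
  have h2 : Ideal.span {(⟨a, ha⟩ : R)} = ⊤ := by
    by_contra hne
    obtain ⟨φ, hφ⟩ := exists_zero h _ hne
    exact (un_loc φ ⟨a, ha⟩).1 (h1 φ) (hφ _ (Ideal.subset_span rfl))
  obtain ⟨b, hb⟩ := Ideal.mem_span_singleton'.1 ((Ideal.eq_top_iff_one _).1 h2)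
  have h3 : (b : Ω) * a = 1 := congrArg Subtype.val hb
  refine ⟨right_ne_zero_of_mul_eq_one h3, ha, ?_⟩
  rw [← eq_inv_of_mul_eq_one_left h3]
  exact b.2

/-- the ideal of denominators -/
def nstDen (R : Subalgebra k Ω) (a : Ω) : Ideal R where
  carrier := {c | (c : Ω) * a ∈ R}
  add_mem' := by
    intro x y hx hy
    show ((x + y : R) : Ω) * a ∈ R
    rw [AddMemClass.coe_add, add_mul]
    exact R.add_mem hx hy
  zero_mem' := by
    show ((0 : R) : Ω) * a ∈ R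
    rw [ZeroMemClass.coe_zero, zero_mul]
    exact R.zero_mem
  smul_mem' := by
    intro c x hx
    show ((c * x : R) : Ω) * a ∈ R
    rw [MulMemClass.coe_mul, mul_assoc]
    exact R.mul_mem c.2 hx

omit [IsAlgClosed k] in
theorem mem_nstDen {R : Subalgebra k Ω} {a : Ω} {c : R} : c ∈ nstDen R a ↔ (c : Ω) * a ∈ R :=
  Iff.rfl

omit [IsAlgClosed k] in
theorem nst_loc {R : Subalgebra k Ω} {a : Ω} {φ : R →ₐ[k] k} (h : a ∈ Loc R φ) :
    ∃ c ∈ nstDen R a, φ c ≠ 0 := by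
  obtain ⟨b, c, hc, rfl⟩ := h
  refine ⟨c, ?_, hc⟩
  have hc0 : (c : Ω) ≠ 0 := fun h0 => hc (by rw [show c = 0 from Subtype.ext h0, map_zero])
  rw [mem_nstDen, mul_div_cancel₀ _ hc0]
  exact b.2

/-- an element of the field which belongs to all the local rings belongs to `R` -/
theorem mem_of_pt {R : Subalgebra k Ω} (h : R.FG) (a : Ω)
    (h1 : ∀ φ : R →ₐ[k] k, a ∈ Loc R φ) : a ∈ R := by
  have h2 : nstDen R a = ⊤ := by
    by_contra hne
    obtain ⟨φ, hφ⟩ := exists_zero h _ hne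
    obtain ⟨c, hc, hc0⟩ := nst_loc (h1 φ)
    exact hc0 (hφ c hc)
  have h3 := (Ideal.eq_top_iff_one _).1 h2
  rw [mem_nstDen, OneMemClass.coe_one, one_mul] at h3
  exact h3

/-- `x` is a unit at all points where `f` is: `x` divides a power of `f` -/
theorem exists_pow_div {R : Subalgebra k Ω} (h : R.FG) (x f : Ω) (hx : x ∈ R) (hf : f ∈ R)
    (h1 : ∀ φ : R →ₐ[k] k, Un (Loc R φ) f → Un (Loc R φ) x) : ∃ N : ℕ, f ^ N / x ∈ R := by
  by_cases hx0 : x = 0
  · refine ⟨0, ?_⟩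
    rw [hx0, div_zero]
    exact R.zero_mem
  obtain ⟨N, hN⟩ := exists_pow_mem h (Ideal.span {(⟨x, hx⟩ : R)}) ⟨f, hf⟩ (fun φ hφ => by
    by_contra h2
    exact (un_loc φ ⟨x, hx⟩).1 (h1 φ ((un_loc φ ⟨f, hf⟩).2 h2)) (hφ _ (Ideal.subset_span rfl)))
  obtain ⟨b, hb⟩ := Ideal.mem_span_singleton'.1 hN
  refine ⟨N, ?_⟩
  have h3 : (b : Ω) * x = f ^ N := congrArg Subtype.val hb
  rw [← h3, mul_div_cancel_right₀ _ hx0]
  exact b.2

/-- `a ∈ Ω` belongs to the local rings at all the points where `f` is a unit: `a f ^ N ∈ R` -/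
theorem exists_pow_mul {R : Subalgebra k Ω} (h : R.FG) (a f : Ω) (hf : f ∈ R) (h0 : f ≠ 0)
    (h1 : ∀ φ : R →ₐ[k] k, Un (Loc R φ) f → a ∈ Loc R φ) : ∃ N : ℕ, a * f ^ N ∈ R := by
  have _ := h0
  obtain ⟨N, hN⟩ := exists_pow_mem h (nstDen R a) ⟨f, hf⟩ (fun φ hφ => by
    by_contra h2
    obtain ⟨c, hc, hc0⟩ := nst_loc (h1 φ ((un_loc φ ⟨f, hf⟩).2 h2))
    exact hc0 (hφ c hc))
  refine ⟨N, ?_⟩
  rw [mul_comm]
  exact hN

/-- the elements generate the unit ideal if at every point one of them is a unit -/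
theorem nst_one {R : Subalgebra k Ω} (h : R.FG) {ι : Type*} (g : ι → Ω)
    (hg : ∀ i, g i ∈ R) (h1 : ∀ φ : R →ₐ[k] k, ∃ i, Un (Loc R φ) (g i)) :
    ∃ (s : Finset ι) (c : ι → R), ∑ i ∈ s, c i * ⟨g i, hg i⟩ = 1 := by
  have h2 : Ideal.span (Set.range fun i => (⟨g i, hg i⟩ : R)) = ⊤ := by
    by_contra hne
    obtain ⟨φ, hφ⟩ := exists_zero h _ hne
    obtain ⟨i, hi⟩ := h1 φ
    exact (un_loc φ ⟨g i, hg i⟩).1 hi (hφ _ (Ideal.subset_span ⟨i, rfl⟩))
  obtain ⟨c, hc⟩ := Finsupp.mem_ideal_span_range_iff_exists_finsupp.1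
    ((Ideal.eq_top_iff_one _).1 h2)
  exact ⟨c.support, c, hc⟩

/-- quasi-compactness: finitely many of the `g i` generate the unit ideal if at every point one
of them is a unit -/
theorem exists_finset {R : Subalgebra k Ω} (h : R.FG) {ι : Type*} (g : ι → Ω)
    (hg : ∀ i, g i ∈ R) (h1 : ∀ φ : R →ₐ[k] k, ∃ i, Un (Loc R φ) (g i)) :
    ∃ s : Finset ι, ∀ φ : R →ₐ[k] k, ∃ i ∈ s, Un (Loc R φ) (g i) := by
  obtain ⟨s, c, hc⟩ := nst_one h g hg h1
  refine ⟨s, fun φ => ?_⟩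
  by_contra hcon
  push Not at hcon
  have h2 := congrArg φ hc
  rw [map_sum, map_one, Finset.sum_eq_zero] at h2
  · exact zero_ne_one h2
  · intro i hi
    rw [map_mul]
    have h3 : φ ⟨g i, hg i⟩ = 0 := by
      by_contra h4
      exact hcon i hi ((un_loc φ ⟨g i, hg i⟩).2 h4)
    rw [h3, mul_zero]

/-- if at every point of `R` one of the elements `g i ∈ R`, `i ∈ s`, is a unit, then in every
valuation ring `V ≥ R` one of them is a unit -/
theorem exists_val {R : Subalgebra k Ω} (h : R.FG) {ι : Type*} (s : Finset ι) (g : ι → Ω)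
    (hg : ∀ i ∈ s, g i ∈ R) (h1 : ∀ φ : R →ₐ[k] k, ∃ i ∈ s, Un (Loc R φ) (g i))
    (V : ValuationSubring Ω) (hV : ∀ a ∈ R, a ∈ V) : ∃ i ∈ s, g i ≠ 0 ∧ (g i)⁻¹ ∈ V := by
  obtain ⟨t, c, hc⟩ := nst_one h (fun i : s => g i) (fun i => hg i i.2) (fun φ => by
    obtain ⟨i, hi, hu⟩ := h1 φ
    exact ⟨⟨i, hi⟩, hu⟩)
  by_contra hcon
  push Not at hcon
  have h2 : ∑ i ∈ t, (c i : Ω) * g i = 1 := by
    have h3 := congrArg (fun x : R => (x : Ω)) hc
    simpa using h3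
  have h3 : V.valuation (∑ i ∈ t, (c i : Ω) * g i) < 1 := by
    refine Valuation.map_sum_lt _ one_ne_zero fun i _ => ?_
    rw [map_mul]
    have h4 : V.valuation (c i : Ω) ≤ 1 := (V.valuation_le_one_iff _).2 (hV _ (c i).2)
    have h5 : V.valuation (g i) < 1 := by
      by_contra h6
      rw [not_lt] at h6
      have h7 : g i ≠ 0 := by
        intro h8
        rw [h8, map_zero] at h6
        exact absurd h6 (not_le.2 zero_lt_one)
      refine hcon i i.2 h7 ?_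
      rw [← V.valuation_le_one_iff, map_inv₀]
      exact inv_le_one_of_one_le₀ h6
    calc V.valuation (c i : Ω) * V.valuation (g i) ≤ 1 * V.valuation (g i) := by gcongr
      _ < 1 := by rwa [one_mul]
  rw [h2, map_one] at h3
  exact lt_irrefl _ h3

/-- an integral extension: every point lifts -/
theorem exists_lift {R R' : Subalgebra k Ω} (hR : R ≤ R')
    (hint : ∀ a ∈ R', IsIntegral R a) (φ : R →ₐ[k] k) :
    ∃ φ' : R' →ₐ[k] k, ∀ (a : Ω) (h : a ∈ R) (h' : a ∈ R'), φ ⟨a, h⟩ = φ' ⟨a, h'⟩ := by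
  let _ : Algebra R R' := (Subalgebra.inclusion hR).toRingHom.toAlgebra
  have hmap : ∀ r : R, algebraMap R R' r = ⟨r, hR r.2⟩ := fun r => rfl
  have hI : Algebra.IsIntegral R R' := by
    refine ⟨fun x => ?_⟩
    obtain ⟨p, hp, hp0⟩ := hint x x.2
    refine ⟨p, hp, Subtype.ext ?_⟩
    have h1 : R'.val (Polynomial.eval₂ (algebraMap R R') x p) =
        Polynomial.eval₂ (algebraMap R Ω) (x : Ω) p := by
      have h2 := Polynomial.hom_eval₂ p (algebraMap R R') (R'.val : R' →+* Ω) x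
      exact h2
    exact h1.trans hp0
  have hker : (RingHom.ker φ).IsMaximal :=
    RingHom.ker_isMaximal_of_surjective φ fun c => ⟨algebraMap k R c, φ.commutes c⟩
  obtain ⟨Q, hQ, hQ'⟩ := Ideal.exists_ideal_over_maximal_of_isIntegral (S := R')
    (RingHom.ker φ) (by
      intro r hr
      have h1 : algebraMap R R' r = 0 := hr
      have h1' : (r : Ω) = 0 := congrArg (fun x : R' => (x : Ω)) h1
      have h2 : r = 0 := Subtype.ext h1'
      rw [h2]
      exact Ideal.zero_mem _)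
  let _ := Ideal.Quotient.field Q
  have hred : ∀ r : R, Ideal.Quotient.mk Q (algebraMap R R' r) = algebraMap k (R' ⧸ Q) (φ r) := by
    intro r
    have h1 : r - algebraMap k R (φ r) ∈ Q.comap (algebraMap R R') := by
      rw [hQ', RingHom.mem_ker, map_sub, φ.commutes]
      exact sub_self _
    rw [Ideal.mem_comap, map_sub] at h1
    exact Ideal.Quotient.eq.2 h1
  have hint2 : Algebra.IsIntegral k (R' ⧸ Q) := by
    refine ⟨fun y => ?_⟩
    obtain ⟨x, rfl⟩ := Ideal.Quotient.mk_surjective y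
    obtain ⟨p, hp, hp0⟩ := hI.isIntegral x
    refine ⟨p.map (φ : R →+* k), hp.map _, ?_⟩
    rw [Polynomial.eval₂_map]
    have h1 := congrArg (Ideal.Quotient.mk Q) hp0
    rw [Polynomial.hom_eval₂, map_zero] at h1
    have h2 : (algebraMap k (R' ⧸ Q)).comp (φ : R →+* k) =
        (Ideal.Quotient.mk Q).comp (algebraMap R R') := RingHom.ext fun r => (hred r).symm
    rw [h2]
    exact h1
  have hbij := IsAlgClosed.algebraMap_bijective_of_isIntegral (k := k) (K := R' ⧸ Q)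
  let e : k ≃ₐ[k] (R' ⧸ Q) := AlgEquiv.ofBijective (Algebra.ofId k (R' ⧸ Q)) hbij
  refine ⟨(e.symm : (R' ⧸ Q) →ₐ[k] k).comp (Ideal.Quotient.mkₐ k Q), fun a h h' => ?_⟩
  have h1 : Ideal.Quotient.mkₐ k Q ⟨a, h'⟩ = e (φ ⟨a, h⟩) := hred ⟨a, h⟩
  rw [AlgHom.comp_apply, h1]
  exact (e.symm_apply_apply _).symm

end Pool.Agent.KMR
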