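import Pool.Agent.Lib.MP_732f67_ag.R.BlA2
import Pool.Agent.Lib.MP_732f67_ag.R.Nst

/-!
The blow-up: deep points.
-/

namespace Pool.Agent.KMR

variable {k Ω : Type} [Field k] [Field Ω] [Algebra k Ω]

/-- the elements `r` with `r l ^ N ∈ h O + l ^ N O` for some `N`: a subalgebra -/
def blQ (O : Subalgebra k Ω) (l h : Ω) (hl : l ∈ O) (hh : h ∈ O) : Subalgebra k Ω where
  carrier := {r | ∃ (N : ℕ) (a s : Ω), a ∈ O ∧ s ∈ O ∧ r * l ^ N = h * a + s * l ^ N}
  mul_mem' := by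
    rintro r r' ⟨N, a, s, ha, hs, he⟩ ⟨N', a', s', ha', hs', he'⟩
    refine ⟨N + N', a * (h * a' + s' * l ^ N') + s * l ^ N * a', s * s', ?_, O.mul_mem hs hs', ?_⟩
    · exact O.add_mem (O.mul_mem ha (O.add_mem (O.mul_mem hh ha') (O.mul_mem hs' (O.pow_mem hl _))))
        (O.mul_mem (O.mul_mem hs (O.pow_mem hl _)) ha')
    · have h1 : r * r' * l ^ (N + N') = (r * l ^ N) * (r' * l ^ N') := by ring
      rw [h1, he, he']
      ring
  add_mem' := by
    rintro r r' ⟨N, a, s, ha, hs, he⟩ ⟨N', a', s', ha', hs', he'⟩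
    refine ⟨N + N', a * l ^ N' + a' * l ^ N, s + s', ?_, O.add_mem hs hs', ?_⟩
    · exact O.add_mem (O.mul_mem ha (O.pow_mem hl _)) (O.mul_mem ha' (O.pow_mem hl _))
    · have h1 : (r + r') * l ^ (N + N') = (r * l ^ N) * l ^ N' + (r' * l ^ N') * l ^ N := by ring
      rw [h1, he, he']
      ring
  algebraMap_mem' e := ⟨0, 0, algebraMap k Ω e, O.zero_mem, O.algebraMap_mem e, by simp⟩

/-- the ideal of the elements `r` with `r l ^ N ∈ h O + l ^ N 𝔪` for some `N` -/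
def blJ {O : Subalgebra k Ω} (hO : IsPt O) (l h : Ω) (hl : l ∈ O) (hh : h ∈ O)
    (R : Subalgebra k Ω) (hR : R ≤ blQ O l h hl hh) : Ideal R where
  carrier := {r | ∃ (N : ℕ) (a s : Ω), a ∈ O ∧ (s ∈ O ∧ ¬ Un O s) ∧
    (r : Ω) * l ^ N = h * a + s * l ^ N}
  add_mem' := by
    rintro r r' ⟨N, a, s, ha, hs, he⟩ ⟨N', a', s', ha', hs', he'⟩
    refine ⟨N + N', a * l ^ N' + a' * l ^ N, s + s', ?_,
      ⟨O.add_mem hs.1 hs'.1, hO.add _ _ hs.1 hs'.1 hs.2 hs'.2⟩, ?_⟩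
    · exact O.add_mem (O.mul_mem ha (O.pow_mem hl _)) (O.mul_mem ha' (O.pow_mem hl _))
    · have h1 : ((r + r' : R) : Ω) * l ^ (N + N') =
          ((r : Ω) * l ^ N) * l ^ N' + ((r' : Ω) * l ^ N') * l ^ N := by
        rw [AddMemClass.coe_add]
        ring
      rw [h1, he, he']
      ring
  zero_mem' := ⟨0, 0, 0, O.zero_mem, ⟨O.zero_mem, fun hu => hu.1 rfl⟩, by simp⟩
  smul_mem' := by
    rintro r r' ⟨N', a', s', ha', hs', he'⟩
    obtain ⟨N, a, s, ha, hs, he⟩ := hR r.2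
    refine ⟨N + N', a * (h * a' + s' * l ^ N') + s * l ^ N * a', s' * s, ?_,
      ⟨O.mul_mem hs'.1 hs, hO.mul _ _ hs'.1 hs hs'.2⟩, ?_⟩
    · exact O.add_mem (O.mul_mem ha (O.add_mem (O.mul_mem hh ha')
        (O.mul_mem hs'.1 (O.pow_mem hl _)))) (O.mul_mem (O.mul_mem hs (O.pow_mem hl _)) ha')
    · have h1 : ((r • r' : R) : Ω) * l ^ (N + N') = ((r : Ω) * l ^ N) * ((r' : Ω) * l ^ N') := by
        change (r : Ω) * (r' : Ω) * l ^ (N + N') = _
        ring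
      rw [h1, he, he']
      ring

/-- it does not contain `1` -/
theorem blJ_ne {O : Subalgebra k Ω} (hO : IsPt O) (l h : Ω) (hl : l ∈ O) (hh : h ∈ O)
    (R : Subalgebra k Ω) (hR : R ≤ blQ O l h hl hh) (h0 : h ≠ 0) (hnu : ¬ Un O h)
    (hpr : ∀ a ∈ O, ∀ b ∈ O, a * b / h ∈ O → a / h ∈ O ∨ b / h ∈ O) (hlh : l / h ∉ O) :
    blJ hO l h hl hh R hR ≠ ⊤ := by
  intro htop
  obtain ⟨N, a, s, ha, hs, he⟩ := (Ideal.eq_top_iff_one _).1 htop
  rw [OneMemClass.coe_one, one_mul] at he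
  have h1 : Un O (1 + -s) := hO.one_add _ (O.neg_mem hs.1) fun hu => hs.2 (by
    have h2 := hu.mul (un_algebraMap O (e := (-1 : k)) (neg_ne_zero.2 one_ne_zero))
    rwa [map_neg, map_one, mul_neg, mul_one, neg_neg] at h2)
  have h2 : l ^ N / h = a * (1 + -s)⁻¹ := by
    have h3 : l ^ N * (1 + -s) = h * a := by linear_combination he
    have h4 : l ^ N = h * a * (1 + -s)⁻¹ := by
      rw [← h3, mul_assoc, mul_inv_cancel₀ h1.1, mul_one]
    rw [div_eq_iff h0, h4]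
    ring
  have h3 : l ^ N / h ∈ O := by
    rw [h2]
    exact O.mul_mem ha h1.2.2
  have key : ∀ m : ℕ, l ^ m / h ∉ O := by
    intro m
    induction m with
    | zero =>
      rw [pow_zero, one_div]
      exact fun hm => hnu ⟨h0, hh, hm⟩
    | succ m ih =>
      rw [pow_succ]
      intro hm
      rcases hpr _ (O.pow_mem hl m) _ hl hm with h4 | h4
      · exact ih h4
      · exact hlh h4
  exact key N h3

namespace Mdl

variable {G : Subgroup (Ω ≃ₐ[k] Ω)} {M : Mdl k Ω G} {n : ℕ} {P : Finset (M.J × M.J)}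

variable (hP : M.Ctr P) (N : ℕ)

/-- PROOF. A deep point of `R c [x hi / x lo]`, `pr c = some p`. Let `φ` be the deep point of `c`,
`O` its local ring, `l = x lo`, `h = x hi`. The elements `r` of `R c [h / l]` with
`r l ^ N ∈ h O + l ^ N 𝔪` for some `N` form a proper ideal, containing `h / l` and the
functions vanishing at `φ`. Nullstellensatz. -/
theorem bl_deep [IsAlgClosed k] [CharZero k] (h : M.Ok n) (c : (M.bl P hP.stab N).ι) :
    ∃ φ : (M.bl P hP.stab N).R c →ₐ[k] k, ∀ j ∈ (M.bl P hP.stab N).S c,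
      (M.bl P hP.stab N).At c φ j := by
  obtain ⟨c, ε⟩ := c
  obtain ⟨ψ, hψ⟩ := h.deep c
  cases hc : M.pr P c with
  | none =>
    have hle : (M.bl P hP.stab N).R (c, ε) ≤ M.R c := (bl_R_none hP.stab N c ε hc).le
    refine ⟨ψ.comp (Subalgebra.inclusion hle), fun j hj => ⟨hj, ?_⟩⟩
    rcases j with i | q
    · have hi' := (bl_S_none_inl hP.stab N c ε hc i).1 hj
      rw [bl_x_none hP.stab N c ε hc]
      intro hu
      have hx := h.x_R c i hi'
      have h1 := (un_loc (ψ.comp (Subalgebra.inclusion hle)) ⟨_, bl_le hP N c ε hx⟩).1 hu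
      exact (hψ i hi').2 ((un_loc ψ ⟨_, hx⟩).2 h1)
    · exact absurd hj (bl_S_none_inr hP.stab N c ε hc q)
  | some p =>
    have hlS := lo_S c p hc ε
    have hhS := hi_S c p hc ε
    obtain ⟨z, hz, hr, hzx⟩ := h.toOk0.exists_reg c ψ
    obtain ⟨j0, hj0⟩ := hzx _ (hψ _ hhS)
    obtain ⟨i0, hi0⟩ := hzx _ (hψ _ hlS)
    have hne : j0 ≠ i0 := by
      intro e0
      rw [e0, hi0] at hj0
      have h1 := h.v_x c _ hhS
      rw [← Units.ext hj0, h.v_x' c _ hhS _ hlS (hi_ne hP p ε)] at h1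
      exact zero_ne_one h1
    have hl : (M.x c (lo p ε) : Ω) ∈ M.O c ψ := le_loc ψ (h.x_R c _ hlS)
    have hh : (M.x c (hi p ε) : Ω) ∈ M.O c ψ := le_loc ψ (h.x_R c _ hhS)
    have hR : (M.bl P hP.stab N).R (c, ε) ≤ blQ (M.O c ψ) _ _ hl hh := by
      refine bl_R_le hP.stab N c ε _ (fun r hr => ?_) fun q hq => ?_
      · exact ⟨0, 0, r, (M.O c ψ).zero_mem, le_loc ψ hr, by simp⟩
      · rw [hc] at hq
        rw [← Option.some.inj hq]
        refine ⟨1, 1, 0, (M.O c ψ).one_mem, (M.O c ψ).zero_mem, ?_⟩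
        rw [pow_one, div_mul_cancel₀ _ (M.x c (lo p ε)).ne_zero]
        ring
    have hfg : ((M.bl P hP.stab N).R (c, ε)).FG := (bl_okR hP N h.toOkR h.toOkV).fg (c, ε)
    obtain ⟨φ, hφ⟩ := exists_zero hfg _ (blJ_ne (isPt_loc ψ) _ _ hl hh _ hR
      (M.x c (hi p ε)).ne_zero (hψ _ hhS).2
      (fun a ha b hb hab => by
        rw [← hj0] at hab ⊢
        exact hr.prime j0 a ha b hb hab)
      (by
        rw [← hj0, ← hi0]
        exact hr.indep j0 i0 hne))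
    refine ⟨φ, fun j hj => ⟨hj, ?_⟩⟩
    -- the functions vanishing at `ψ` vanish at `φ`
    have key : ∀ i ∈ M.S c, ¬ Un ((M.bl P hP.stab N).O (c, ε) φ) (M.x c i) := by
      intro i hiS hun
      have hx := h.x_R c i hiS
      refine (un_loc φ ⟨_, bl_le hP N c ε hx⟩).1 hun (hφ _ ?_)
      refine ⟨0, 0, M.x c i, (M.O c ψ).zero_mem, ⟨le_loc ψ hx, (hψ i hiS).2⟩, ?_⟩
      simp
    rcases j with i | q
    · obtain ⟨hil, hiS⟩ := (bl_S_some_inl hP.stab N c ε hc i).1 hj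
      by_cases hi' : i = hi p ε
      · rw [hi', bl_x_hi hP.stab N c ε hc, Units.val_div_eq_div_val]
        intro hun
        refine (un_loc φ ⟨_, bl_div_mem hP.stab N c ε hc⟩).1 hun (hφ _ ?_)
        refine ⟨1, 1, 0, (M.O c ψ).one_mem, ⟨(M.O c ψ).zero_mem, fun hu => hu.1 rfl⟩, ?_⟩
        change (M.x c (hi p ε) / M.x c (lo p ε) : Ω) * _ = _
        rw [pow_one, div_mul_cancel₀ _ (M.x c (lo p ε)).ne_zero]
        ring
      · rw [bl_x_ne hP.stab N c ε hc i hi']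
        exact key i hiS
    · rw [bl_x_inr hP.stab N c ε hc]
      exact key _ hlS

end Mdl

end Pool.Agent.KMR
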