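import Pool.Agent.Lib.MP_732f67_ag.R.BlP
import Pool.Agent.Lib.MP_732f67_ag.R.BlQ
import Pool.Agent.Lib.MP_732f67_ag.R.BlD

/-!
The blow-up: rings, orders, parameters, deep points, derivations. See the files which are imported.
-/
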