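import Pool.Agent.Lib.MP_732f67_ag.R.Loop
import Pool.Agent.Lib.MP_732f67_ag.R.BlA

/-!
The measure decreases.
-/

namespace Pool.Agent.KMR

variable {k Ω : Type} [Field k] [Field Ω] [Algebra k Ω]

namespace Mdl

variable {G : Subgroup (Ω ≃ₐ[k] Ω)} {n : ℕ}

theorem loopB_inl {M : Mdl k Ω G} {P : Finset (M.J × M.J)}
    (hP : ∀ g : G, ∀ p ∈ P, (M.π g p.1, M.π g p.2) ∈ P) (N : ℕ) (c : M.ι × Bool) (i : M.J)
    (h : (Sum.inl i : (M.bl P hP N).J) ∈ (M.bl P hP N).S c) :
    i ∈ M.S c.1 ∧ ∀ p, M.pr P c.1 = some p → i ≠ lo p c.2 := by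
  classical
  have h' : (Sum.inl i : M.J ⊕ {p // p ∈ P}) ∈ (M.pr P c.1).elim
      ((M.S c.1).map Function.Embedding.inl) (fun p =>
      ((M.S c.1).erase (lo p c.2)).map Function.Embedding.inl ∪ {Sum.inr p}) := h
  cases hp : M.pr P c.1 with
  | none =>
    rw [hp] at h'
    simp only [Option.elim_none, Finset.mem_map, Function.Embedding.inl_apply,
      Sum.inl.injEq, exists_eq_right] at h'
    exact ⟨h', fun p h => by cases h⟩
  | some p =>
    rw [hp] at h'
    simp only [Option.elim_some, Finset.mem_union, Finset.mem_map, Function.Embedding.inl_apply,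
      Sum.inl.injEq, exists_eq_right, Finset.mem_singleton, reduceCtorEq, or_false,
      Finset.mem_erase] at h'
    refine ⟨h'.2, fun p' h => ?_⟩
    cases h
    exact h'.1

theorem loopB_inr {M : Mdl k Ω G} {P : Finset (M.J × M.J)}
    (hP : ∀ g : G, ∀ p ∈ P, (M.π g p.1, M.π g p.2) ∈ P) (N : ℕ) (c : M.ι × Bool)
    (p : {p // p ∈ P}) (h : (Sum.inr p : (M.bl P hP N).J) ∈ (M.bl P hP N).S c) :
    M.pr P c.1 = some p := by
  classical
  have h' : (Sum.inr p : M.J ⊕ {p // p ∈ P}) ∈ (M.pr P c.1).elim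
      ((M.S c.1).map Function.Embedding.inl) (fun p =>
      ((M.S c.1).erase (lo p c.2)).map Function.Embedding.inl ∪ {Sum.inr p}) := h
  cases hp : M.pr P c.1 with
  | none =>
    rw [hp] at h'
    simp at h'
  | some p' =>
    rw [hp] at h'
    simp at h'
    rw [h']

theorem loopB_sup {M : Mdl k Ω G} {a : Ωˣ} {q : M.J × M.J} (hq : q ∈ M.Bad a)
    (hm : ∀ q' ∈ M.Bad a, M.v q'.1 a - M.v q'.2 a ≤ M.v q.1 a - M.v q.2 a) :
    sSup ((fun q : M.J × M.J => (M.v q.1 a - M.v q.2 a).toNat) '' M.Bad a) =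
      (M.v q.1 a - M.v q.2 a).toNat := by
  refine IsGreatest.csSup_eq ⟨⟨q, hq, rfl⟩, ?_⟩
  rintro _ ⟨q', hq', rfl⟩
  exact Int.toNat_le_toNat (hm q' hq')

/-- blowing up bad pairs of maximal weight.
PROOF. A bad pair of the blow-up is either a bad pair of `M` not in `P`, or `(inr p, inl j)` with
`v p.1 + v p.2 > 0 > v j`, where `(p.1, j)` is a bad pair of `M` (both are labels of one chart), so
its weight is `≤ s + v p.2 < s`; or `(inl i, inr p)`, in the same way. -/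
theorem mea_lt {M : Mdl k Ω G} (h : M.OkR n) {P : Finset (M.J × M.J)} (hP : M.Ctr P) (N : ℕ)
    (a : Ωˣ) (q : M.J × M.J) (hq : q ∈ P) (hb : ∀ p ∈ P, p ∈ M.Bad a)
    (hm : ∀ p ∈ P, ∀ q' ∈ M.Bad a, M.v q'.1 a - M.v q'.2 a ≤ M.v p.1 a - M.v p.2 a) :
    (M.bl P hP.stab N).mea a < M.mea a := by
  classical
  set s : ℕ := (M.v q.1 a - M.v q.2 a).toNat with hs
  have hqb := hb q hq
  have hsup : sSup ((fun q : M.J × M.J => (M.v q.1 a - M.v q.2 a).toNat) '' M.Bad a) = s :=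
    loopB_sup hqb (hm q hq)
  have hspos : 0 < s := by
    have h1 := hqb.2.1
    have h2 := hqb.2.2
    omega
  have hle : ∀ q' ∈ M.Bad a, (M.v q'.1 a - M.v q'.2 a).toNat ≤ s := fun q' hq' =>
    Int.toNat_le_toNat (hm q hq q' hq')
  -- the bad pairs of `M` are finite in number
  have hfin : (M.Bad a).Finite := by
    have := h.fin
    refine Set.Finite.subset (Set.finite_iUnion fun c : M.ι =>
      ((M.S c) ×ˢ (M.S c) : Finset (M.J × M.J)).finite_toSet) ?_
    rintro ⟨i, j⟩ ⟨⟨c, h1, h2⟩, -⟩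
    exact Set.mem_iUnion.2 ⟨c, Finset.mem_coe.2 (Finset.mem_product.2 ⟨h1, h2⟩)⟩
  -- the bad pairs of the blow-up
  have key : ∀ q' ∈ (M.bl P hP.stab N).Bad a,
      (∃ r ∈ M.Bad a, r ∉ P ∧ q' = (Sum.inl r.1, Sum.inl r.2)) ∨
      ((M.bl P hP.stab N).v q'.1 a - (M.bl P hP.stab N).v q'.2 a).toNat < s := by
    rintro ⟨i | p, j | p'⟩ ⟨⟨c, h1, h2⟩, h3, h4⟩
    · obtain ⟨hi, hi'⟩ := loopB_inl hP.stab N c i h1
      obtain ⟨hj, hj'⟩ := loopB_inl hP.stab N c j h2
      refine Or.inl ⟨(i, j), ⟨⟨c.1, hi, hj⟩, h3, h4⟩, fun hmem => ?_, rfl⟩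
      have h5 := pr_eq hP c.1 ⟨(i, j), hmem⟩ hi hj
      have h6 := hi' _ h5
      have h7 := hj' _ h5
      unfold lo at h6 h7
      cases hc : c.2 with
      | true =>
        rw [hc] at h6
        exact h6 rfl
      | false =>
        rw [hc] at h7
        exact h7 rfl
    · right
      obtain ⟨hi, -⟩ := loopB_inl hP.stab N c i h1
      have h5 := loopB_inr hP.stab N c p' h2
      obtain ⟨h6, h7⟩ := pr_some c.1 p' h5
      replace h3 : 0 < M.v i a := h3
      replace h4 : M.v p'.1.1 a + M.v p'.1.2 a < 0 := h4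
      show (M.v i a - (M.v p'.1.1 a + M.v p'.1.2 a)).toNat < s
      have h8 := hb p'.1 p'.2
      have h9 := h8.2.1
      have h10 := h8.2.2
      have h11 : (i, p'.1.2) ∈ M.Bad a := ⟨⟨c.1, hi, h7⟩, h3, h10⟩
      have h12 := hm q hq _ h11
      simp only at h12
      omega
    · right
      have h5 := loopB_inr hP.stab N c p h1
      obtain ⟨hj, -⟩ := loopB_inl hP.stab N c j h2
      obtain ⟨h6, h7⟩ := pr_some c.1 p h5
      replace h3 : 0 < M.v p.1.1 a + M.v p.1.2 a := h3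
      replace h4 : M.v j a < 0 := h4
      show ((M.v p.1.1 a + M.v p.1.2 a) - M.v j a).toNat < s
      have h8 := hb p.1 p.2
      have h9 := h8.2.1
      have h10 := h8.2.2
      have h11 : (p.1.1, j) ∈ M.Bad a := ⟨⟨c.1, h6, hj⟩, h9, h4⟩
      have h12 := hm q hq _ h11
      simp only at h12
      omega
    · exfalso
      have h5 := loopB_inr hP.stab N c p h1
      have h6 := loopB_inr hP.stab N c p' h2
      rw [h5] at h6
      cases h6
      replace h3 : 0 < M.v p.1.1 a + M.v p.1.2 a := h3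
      replace h4 : M.v p.1.1 a + M.v p.1.2 a < 0 := h4
      omega
  have hle' : ∀ q' ∈ (M.bl P hP.stab N).Bad a,
      ((M.bl P hP.stab N).v q'.1 a - (M.bl P hP.stab N).v q'.2 a).toNat ≤ s := by
    intro q' hq'
    rcases key q' hq' with ⟨r, hr, -, rfl⟩ | h1
    · exact hle r hr
    · exact h1.le
  unfold mea
  simp only [hsup]
  rw [Prod.Lex.toLex_lt_toLex]
  have hsle : sSup ((fun q : (M.bl P hP.stab N).J × (M.bl P hP.stab N).J =>
      ((M.bl P hP.stab N).v q.1 a - (M.bl P hP.stab N).v q.2 a).toNat) ''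
        (M.bl P hP.stab N).Bad a) ≤ s := by
    refine csSup_le' ?_
    rintro _ ⟨q', hq', rfl⟩
    exact hle' q' hq'
  rcases hsle.lt_or_eq with h1 | h1
  · exact Or.inl h1
  · refine Or.inr ⟨h1, ?_⟩
    simp only [h1]
    have hfs : ({q ∈ M.Bad a | (M.v q.1 a - M.v q.2 a).toNat = s}).Finite :=
      hfin.subset fun x hx => hx.1
    have hsub : {q' ∈ (M.bl P hP.stab N).Bad a |
        ((M.bl P hP.stab N).v q'.1 a - (M.bl P hP.stab N).v q'.2 a).toNat = s} ⊆
        (fun r : M.J × M.J => ((Sum.inl r.1, Sum.inl r.2) :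
          (M.bl P hP.stab N).J × (M.bl P hP.stab N).J)) ''
          ({q ∈ M.Bad a | (M.v q.1 a - M.v q.2 a).toNat = s} \ {q}) := by
      rintro q' ⟨hq', hw⟩
      rcases key q' hq' with ⟨r, hr, hrP, rfl⟩ | h2
      · refine ⟨r, ⟨⟨hr, hw⟩, fun h3 => hrP ?_⟩, rfl⟩
        rw [Set.mem_singleton_iff] at h3
        rw [h3]
        exact hq
      · omega
    refine (Set.ncard_le_ncard hsub ((hfs.subset Set.sdiff_subset).image _)).trans_lt ?_
    refine (Set.ncard_image_le (hfs.subset Set.sdiff_subset)).trans_lt ?_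
    exact Set.ncard_sdiff_singleton_lt_of_mem ⟨hqb, hs.symm⟩ hfs

end Mdl

end Pool.Agent.KMR
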