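import Pool.Agent.Lib.MP_732f67_ag.R.LoopS
import Pool.Agent.Lib.MP_732f67_ag.R.LoopA
import Pool.Agent.Lib.MP_732f67_ag.R.LoopB

/-!
Finitely many blow-ups make elements of `Ψ`, fixed by `G`, comparable.
-/

namespace Pool.Agent.KMR

variable {k Ω : Type} [Field k] [Field Ω] [Algebra k Ω]

namespace Mdl

variable {G : Subgroup (Ω ≃ₐ[k] Ω)} {n : ℕ}

/-- PROOF. Well-founded induction on `mea`. -/
theorem exists_cmp [IsAlgClosed k] [CharZero k] {M : Mdl k Ω G} (h : M.Good n) (a : Ωˣ)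
    (ha : a ∈ M.Ψ) (hg : ∀ g : G, (g : Ω ≃ₐ[k] Ω) (a : Ω) = a) :
    ∃ M' : Mdl k Ω G, Relation.ReflTransGen (Step n) M M' ∧ M'.Good n ∧ M'.Cmp a := by
  have key : ∀ m : ℕ ×ₗ ℕ, ∀ M : Mdl k Ω G, M.mea a = m → M.Good n → a ∈ M.Ψ →
      ∃ M' : Mdl k Ω G, Relation.ReflTransGen (Step n) M M' ∧ M'.Good n ∧ M'.Cmp a := by
    intro m
    induction m using WellFoundedLT.induction with
    | ind m ih =>
      intro M hm h ha
      rcases Set.eq_empty_or_nonempty (M.Bad a) with h0 | h0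
      · exact ⟨M, Relation.ReflTransGen.refl, h, cmp_of_bad a h0⟩
      · obtain ⟨q, hq, hmax⟩ := Set.exists_max_image (M.Bad a) (fun q => M.v q.1 a - M.v q.2 a)
          (bad_finite h.toOkR a) h0
        obtain ⟨P, hP, hqP, hPb, hPv⟩ := orbit_ctr h a ha hg q hq
        obtain ⟨N, hN⟩ := exists_step h hP
        have hlt := mea_lt h.toOkR hP N a q hqP hPb (fun p hp q' hq' => by
          rw [(hPv p hp).1, (hPv p hp).2]
          exact hmax q' hq')
        rw [hm] at hlt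
        obtain ⟨-, -, -, -, hg'⟩ := hN
        obtain ⟨M', h1, h2, h3⟩ := ih _ hlt (M.bl P hP.stab N) rfl hg' ha
        exact ⟨M', Relation.ReflTransGen.head ⟨P, hP, N, rfl, hg'⟩ h1, h2, h3⟩
  exact key _ M rfl h ha

/-- what is preserved by finitely many blow-ups -/
theorem loopC_keep [IsAlgClosed k] [CharZero k] {M M' : Mdl k Ω G} (h : M.Good n)
    (hs : Relation.ReflTransGen (Step n) M M') : M'.Good n ∧
    M'.Ψ = M.Ψ ∧ M'.F = M.F ∧ M.Over M' ∧ ∀ a, M.Cmp a → M'.Cmp a := by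
  induction hs with
  | refl => exact ⟨h, rfl, rfl, Over.refl M, fun _ h => h⟩
  | tail _ h2 ih =>
    obtain ⟨h3, h4, h5, h6, h7⟩ := ih
    obtain ⟨k4, k5, k6, k7⟩ := h2.keep h3
    obtain ⟨P, hP, N, -, hg⟩ := h2
    exact ⟨hg, k4.trans h4, k5.trans h5, h6.trans k6, fun a ha => k7 a (h7 a ha)⟩

/-- finitely many elements at once -/
theorem exists_cmps [IsAlgClosed k] [CharZero k] {M : Mdl k Ω G} (h : M.Good n) (A : Finset Ωˣ)
    (ha : ∀ a ∈ A, a ∈ M.Ψ) (hg : ∀ g : G, ∀ a ∈ A, (g : Ω ≃ₐ[k] Ω) (a : Ω) = a) :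
    ∃ M' : Mdl k Ω G, Relation.ReflTransGen (Step n) M M' ∧ M'.Good n ∧ M'.Ψ = M.Ψ ∧
      M'.F = M.F ∧ M.Over M' ∧ (∀ a, M.Cmp a → M'.Cmp a) ∧ ∀ a ∈ A, M'.Cmp a := by
  classical
  induction A using Finset.induction_on with
  | empty =>
    exact ⟨M, Relation.ReflTransGen.refl, h, rfl, rfl, Over.refl M, fun _ h => h, by simp⟩
  | insert a A _ ih =>
    obtain ⟨M', h1, h2, h3, h4, h5, h6, h7⟩ := ih
      (fun b hb => ha b (Finset.mem_insert_of_mem hb))
      (fun g b hb => hg g b (Finset.mem_insert_of_mem hb))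
    obtain ⟨M'', k1, k2, k3⟩ := exists_cmp h2 a (by
      rw [h3]
      exact ha a (Finset.mem_insert_self a A)) (fun g => hg g a (Finset.mem_insert_self a A))
    obtain ⟨-, k4, k5, k6, k7⟩ := loopC_keep h2 k1
    refine ⟨M'', h1.trans k1, k2, k4.trans h3, k5.trans h4, h5.trans k6,
      fun b hb => k7 b (h6 b hb), fun b hb => ?_⟩
    rcases Finset.mem_insert.1 hb with rfl | hb
    · exact k3
    · exact k7 b (h7 b hb)

end Mdl

end Pool.Agent.KMR
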