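import Pool.Agent.Lib.MP_732f67_ag.R.SpqR
import Pool.Agent.Lib.MP_732f67_ag.R.LabT
import Pool.Agent.Lib.MP_732f67_ag.R.LabF
import Pool.Agent.Lib.MP_732f67_ag.R.LoopC

/-!
Invariant divisors supported on the boundary: refine the charts and split the labels, such that
the local equations are monomials with exponents depending only on the label.
-/

namespace Pool.Agent.KMR

variable {k Ω : Type} [Field k] [Field Ω] [Algebra k Ω]

namespace Mdl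

variable {G : Subgroup (Ω ≃ₐ[k] Ω)} {M : Mdl k Ω G} {n : ℕ}

theorem Same.refl (M : Mdl k Ω G) : M.Same M :=
  ⟨fun c φ => ⟨c, φ, rfl, Iff.rfl⟩, fun c φ => ⟨c, φ, rfl, Iff.rfl⟩⟩

theorem Same.trans {M' M'' : Mdl k Ω G} (h : M.Same M') (h' : M'.Same M'') : M.Same M'' := by
  constructor
  · intro c'' φ''
    obtain ⟨c', φ', h1, h2⟩ := h'.1 c'' φ''
    obtain ⟨c, φ, h3, h4⟩ := h.1 c' φ'
    exact ⟨c, φ, h3.trans h1, h4.trans h2⟩
  · intro c φ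
    obtain ⟨c', φ', h1, h2⟩ := h.2 c φ
    obtain ⟨c'', φ'', h3, h4⟩ := h'.2 c' φ'
    exact ⟨c'', φ'', h1.trans h3, h2.trans h4⟩

/-- refinements have the same points -/
theorem spq_ref (h : M.OkV) {r : M.Rf} (hr : r.Ok) (N : ℕ) : M.Same (M.ref r N) := by
  constructor
  · intro i φ
    obtain ⟨ψ, h1, h2⟩ := ref_pt N h hr i φ
    exact ⟨_, ψ, h1, forall_congr' fun j => not_congr (h2 j)⟩
  · intro c φ
    obtain ⟨i, rfl, hu⟩ := hr.cov c φ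
    obtain ⟨φ', h1, h2⟩ := pt_ref N h hr i φ hu
    exact ⟨i, φ', h1, forall_congr' fun j => not_congr (h2 j)⟩

/-- PROOF. `exists_rfy`, `ref_good`, `spl_good`, `trim_good`; the new label `(j, a)` has `β = a`. -/
theorem exists_spl [IsAlgClosed k] [CharZero k] (h : M.Good n)
    {Q : Subalgebra k Ω → Ω → Prop} (hQ : M.Lq Q) :
    ∃ M' : Mdl k Ω G, M'.Good n ∧ M'.F = M.F ∧ M'.Ψ = M.Ψ ∧ (∀ j, M'.Occ j) ∧ M.Same M' ∧
      (∀ a, M.Cmp a → M'.Cmp a) ∧ ∃ (f : M'.ι → Ωˣ) (β : M'.J → ℤ),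
        (∀ (g : G) j, β (M'.π g j) = β j) ∧ (∀ c φ, Q (M'.O c φ) (f c)) ∧
        ∀ c, Un (M'.R c) ((f c * (∏ j ∈ M'.S c, M'.x c j ^ β j)⁻¹ : Ωˣ) : Ω) := by
  classical
  obtain ⟨r, f, α, hr, hrd, hrQ, hru⟩ := exists_rfy h.toOk0 hQ
  obtain ⟨N, hN⟩ := ref_good h.toOk0 h.toEqJ h.eqP h.eqF hr hrd
  have h1 := hN N le_rfl
  -- the equations
  have hQ1 : ∀ i (φ : (M.ref r N).R i →ₐ[k] k), ∃ ψ : M.R (r.idx i) →ₐ[k] k,
      M.O (r.idx i) ψ = (M.ref r N).O i φ ∧ Q (M.O (r.idx i) ψ) (f i) := by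
    intro i φ
    obtain ⟨ψ, h2, -⟩ := ref_pt N h.toOkV hr i φ
    refine ⟨ψ, h2, hrQ i ψ ?_⟩
    rw [h2]
    exact (show Un ((M.ref r N).R i) (r.g i : Ω) from
      ⟨Units.ne_zero _, le_inv _ _ (hr.g_mem i), inv_mem_inv _ _⟩).mono (le_loc φ)
  have hspl : (M.ref r N).SplOk f α := by
    refine ⟨fun i => hru i, fun i i' φ φ' he => ?_, fun g i i' φ φ' he => ?_⟩
    · obtain ⟨ψ, h2, h3⟩ := hQ1 i φ
      obtain ⟨ψ', h4, h5⟩ := hQ1 i' φ'
      rw [← h2]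
      refine hQ.ov _ ψ _ _ h3 ?_
      rw [h2, he, ← h4]
      exact h5
    · obtain ⟨ψ, h2, h3⟩ := hQ1 i φ
      obtain ⟨ψ', h4, h5⟩ := hQ1 i' φ'
      rw [← h4]
      refine hQ.inv g _ _ ψ ψ' _ _ (fun a => ?_) h3 h5
      rw [h2, h4]
      exact he a
  have h2 := spl_good h1 hspl
  have ho := Good.occ _ h2
  obtain ⟨h3, h4⟩ := trim_good _ ho h2
  have hS : ∀ (i : r.I) (j : {j // ((M.ref r N).spl α).Occ j}),
      j ∈ (((M.ref r N).spl α).trim ho).S i ↔ j.1.1 ∈ r.T i ∧ j.1.2 = α i j.1.1 := by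
    intro i j
    exact (trim_mem _ ho i j).trans (spl_mem_S (M := M.ref r N) α i j.1)
  have hat : ∀ (i : r.I) (φ : (M.ref r N).R i →ₐ[k] k),
      ((M.ref r N).Off i φ ↔ (((M.ref r N).spl α).trim ho).Off i φ) := by
    intro i φ
    constructor
    · intro h5 j hj
      have h6 := (trim_at _ ho i φ j).1 hj
      exact h5 _ ((spl_at (M := M.ref r N) α i φ j.1).1 h6).1
    · intro h5 j hj
      have h6 : ((M.ref r N).spl α).At i φ (j, α i j) := 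
        (spl_at (M := M.ref r N) α i φ (j, α i j)).2 ⟨hj, rfl⟩
      exact h5 ⟨(j, α i j), i, h6.1⟩ ((trim_at _ ho i φ _).2 h6)
  refine ⟨((M.ref r N).spl α).trim ho, h3, rfl, rfl, h4, ?_, ?_, f, fun j => j.1.2,
    fun g j => rfl, ?_, ?_⟩
  · refine Same.trans (spq_ref h.toOkV hr N) ⟨fun i φ => ⟨i, φ, rfl, hat i φ⟩,
      fun i φ => ⟨i, φ, rfl, hat i φ⟩⟩
  · intro a ha i
    have hmem : ∀ j : {j // ((M.ref r N).spl α).Occ j},
        j ∈ (((M.ref r N).spl α).trim ho).S i → j.1.1 ∈ r.T i := fun j hj =>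
      ((hS i j).1 hj).1
    rcases ref_cmp N hr a ha i with h5 | h5
    · exact Or.inl fun j hj => h5 _ (hmem j hj)
    · exact Or.inr fun j hj => h5 _ (hmem j hj)
  · intro i φ
    obtain ⟨ψ, h5, h6⟩ := hQ1 i φ
    rw [h5] at h6
    exact h6
  · intro i
    have h5 := hru i
    have h6 : ∏ j ∈ (((M.ref r N).spl α).trim ho).S i,
        (((M.ref r N).spl α).trim ho).x i j ^ j.1.2 = ∏ j ∈ r.T i, M.x (r.idx i) j ^ α i j := by
      refine Finset.prod_bij (fun j _ => j.1.1) (fun j hj => ?_) (fun j hj j' hj' he => ?_)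
        (fun j hj => ?_) (fun j hj => ?_)
      · exact ((hS i j).1 hj).1
      · have h7 := (hS i j).1 hj
        have h8 := (hS i j').1 hj'
        have he' : j.1.1 = j'.1.1 := he
        refine Subtype.ext (Prod.ext he' ?_)
        rw [h7.2, h8.2, he']
      · have h7 : ((j, α i j) : M.J × ℤ) ∈ ((M.ref r N).spl α).S i :=
          (spl_mem_S (M := M.ref r N) α i (j, α i j)).2 ⟨hj, rfl⟩
        exact ⟨⟨(j, α i j), i, h7⟩, (trim_mem _ ho i _).2 h7, rfl⟩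
      · have h7 := (hS i j).1 hj
        show M.x (r.idx i) j.1.1 ^ j.1.2 = M.x (r.idx i) j.1.1 ^ α i j.1.1
        rw [h7.2]
    rw [h6]
    exact h5

/-- adding a function which is a unit off the boundary to `Ψ`.
PROOF. `exists_spl` with `Q O f = (f = y)`, then `addf_good`, `addf_v`. -/
theorem exists_addf [IsAlgClosed k] [CharZero k] (h : M.Good n) (y : Ωˣ)
    (hy : (y : Ω) ∈ M.F) (hg : ∀ g : G, (g : Ω ≃ₐ[k] Ω) (y : Ω) = y)
    (hu : ∀ c φ, M.Off c φ → Un (M.O c φ) (y : Ω)) :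
    ∃ M' : Mdl k Ω G, M'.Good n ∧ M'.F = M.F ∧ M'.Ψ = adj M.Ψ y ∧ M.Same M' ∧
      ∀ a ∈ M.Ψ, M.Cmp a → M'.Cmp a := by
  have hQ : M.Lq fun _ f => f = (y : Ω) :=
    { ex := fun c φ => ⟨y, 1, by rw [map_one]; exact one_ne_zero, fun _ _ => rfl⟩
      off := fun c φ f h1 h2 => by
        rw [h2]
        exact hu c φ h1
      ov := fun c φ f f' h1 h2 => by
        rw [h1, h2, div_self y.ne_zero]
        exact Un.one _
      inv := fun g c c' φ φ' f f' _ h1 h2 => by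
        rw [h1, h2, hg g, div_self y.ne_zero]
        exact Un.one _ }
  obtain ⟨M', h1, h2, h3, h4, h5, h6, f, β, h7, h8, h9⟩ := exists_spl h hQ
  have hf : ∀ c, f c = y := fun c => by
    obtain ⟨φ, -⟩ := h1.deep c
    exact Units.ext (h8 c φ)
  have hb : ∀ c, Un (M'.R c) (y * (∏ j ∈ M'.S c, M'.x c j ^ β j)⁻¹ : Ωˣ) := fun c => by
    rw [← hf c]
    exact h9 c
  have k1 := addf_good h1 h4 y (by rw [h2]; exact hy) β hb hg h7
  refine ⟨M'.addf y β, k1, h2, by rw [← h3]; rfl, Same.trans h5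
    ⟨fun c φ => ⟨c, φ, rfl, Iff.rfl⟩, fun c φ => ⟨c, φ, rfl, Iff.rfl⟩⟩, fun a ha hc => ?_⟩
  have ha' : a ∈ M'.Ψ := by
    rw [h3]
    exact ha
  have hv : ∀ j, (M'.addf y β).v j a = M'.v j a := fun j => (addf_v h1 h4 y β hb j).1 a ha'
  intro c
  rcases h6 a hc c with k2 | k2
  · left
    intro j hj
    rw [hv]
    exact k2 j hj
  · right
    intro j hj
    rw [hv]
    exact k2 j hj

/-- finitely many functions -/
theorem exists_adds [IsAlgClosed k] [CharZero k] (h : M.Good n) (A : Finset Ωˣ)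
    (hy : ∀ y ∈ A, (y : Ω) ∈ M.F) (hg : ∀ y ∈ A, ∀ g : G, (g : Ω ≃ₐ[k] Ω) (y : Ω) = y)
    (hu : ∀ y ∈ A, ∀ c φ, M.Off c φ → Un (M.O c φ) (y : Ω)) :
    ∃ M' : Mdl k Ω G, M'.Good n ∧ M'.F = M.F ∧ M.Ψ ≤ M'.Ψ ∧ (∀ y ∈ A, y ∈ M'.Ψ) ∧ M.Same M' ∧
      ∀ a ∈ M.Ψ, M.Cmp a → M'.Cmp a := by
  classical
  induction A using Finset.induction_on with
  | empty => exact ⟨M, h, rfl, le_rfl, by simp, Same.refl M, fun _ _ h => h⟩
  | insert y A _ ih =>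
    obtain ⟨M₁, h1, h2, h3, h4, h5, h6⟩ := ih (fun z hz => hy z (Finset.mem_insert_of_mem hz))
      (fun z hz => hg z (Finset.mem_insert_of_mem hz))
      (fun z hz => hu z (Finset.mem_insert_of_mem hz))
    obtain ⟨M₂, k1, k2, k3, k4, k5⟩ := exists_addf h1 y
      (by rw [h2]; exact hy y (Finset.mem_insert_self y A))
      (hg y (Finset.mem_insert_self y A)) (fun c φ hoff => by
        obtain ⟨c₀, φ₀, e1, e2⟩ := h5.1 c φ
        rw [← e1]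
        exact hu y (Finset.mem_insert_self y A) c₀ φ₀ (e2.2 hoff))
    have hle : M₁.Ψ ≤ M₂.Ψ := by
      rw [k3]
      exact le_sup_left
    refine ⟨M₂, k1, k2.trans h2, h3.trans hle, fun z hz => ?_, Same.trans h5 k4,
      fun a ha hc => k5 a (h3 ha) (h6 a ha hc)⟩
    rcases Finset.mem_insert.1 hz with rfl | hz
    · rw [k3]
      exact mem_adj.2 ⟨1, one_mem _, 1, by rw [one_mul, zpow_one]⟩
    · exact hle (h4 z hz)

/-- finitely many functions which are units off the boundary are added to `Ψ`, and made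
comparable: `exists_adds`, `exists_cmps`. -/
theorem exists_phi [IsAlgClosed k] [CharZero k] (h : M.Good n) (A : Finset Ωˣ)
    (hy : ∀ y ∈ A, (y : Ω) ∈ M.F) (hg : ∀ y ∈ A, ∀ g : G, (g : Ω ≃ₐ[k] Ω) (y : Ω) = y)
    (hu : ∀ y ∈ A, ∀ c φ, M.Off c φ → Un (M.O c φ) (y : Ω)) :
    ∃ M' : Mdl k Ω G, M'.Good n ∧ M'.F = M.F ∧ M.Ψ ≤ M'.Ψ ∧ (∀ y ∈ A, y ∈ M'.Ψ) ∧
      (∀ y ∈ A, M'.Cmp y) ∧ (∀ a ∈ M.Ψ, M.Cmp a → M'.Cmp a) ∧
      ∀ c' (φ' : M'.R c' →ₐ[k] k), ∃ c, ∃ φ : M.R c →ₐ[k] k, M.O c φ ≤ M'.O c' φ' ∧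
        (M.Off c φ ↔ M'.Off c' φ') ∧ (M.Off c φ → M.O c φ = M'.O c' φ') := by
  obtain ⟨M₁, h1, h2, h3, h4, h5, h6⟩ := exists_adds h A hy hg hu
  obtain ⟨M₂, -, k1, k2, k3, k4, k5, k6⟩ := exists_cmps h1 A h4 (fun g a ha => hg a ha g)
  have hle : M₁.Ψ ≤ M₂.Ψ := k2.ge
  refine ⟨M₂, k1, k3.trans h2, h3.trans hle, fun y hy => hle (h4 y hy), k6,
    fun a ha hc => k5 a (h6 a ha hc), fun c' φ' => ?_⟩
  obtain ⟨c₁, φ₁, e1, e2⟩ := k4 c' φ'
  obtain ⟨c, φ, e3, e4⟩ := h5.1 c₁ φ₁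
  have hback : M₂.Off c' φ' → M₁.Off c₁ φ₁ := by
    intro h7 j hj
    have h8 := (k1.toOk0.off_iff c' φ').1 h7 _ (hle (h1.x_Ψ c₁ j hj.1))
    exact hj.2 (IsPt.dom (isPt_loc φ₁) (isPt_loc φ') e1 _ (le_loc φ₁ (h1.x_R c₁ j hj.1)) h8)
  refine ⟨c, φ, e3.le.trans e1, ⟨fun h7 => (e2 (e4.1 h7)).1, fun h7 => e4.2 (hback h7)⟩,
    fun h7 => e3.trans (e2 (e4.1 h7)).2⟩

end Mdl

end Pool.Agent.KMR
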