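import Pool.Agent.Lib.MP_732f67_ag.R.Jac
import Pool.Agent.Lib.MP_732f67_ag.R.Spq

/-!
The canonical divisor: split the labels by the exponents of the Jacobian determinant.
-/

namespace Pool.Agent.KMR

variable {k Ω : Type} [Field k] [Field Ω] [Algebra k Ω]

/-- `n` algebraically independent elements of a field of transcendence degree `n` -/
theorem can_alg0 {n : ℕ} (F : IntermediateField k Ω) (t : Fin n → Ω) (ht : ∀ i, t i ∈ F)
    (hta : AlgebraicIndependent k t)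
    (htr : ∀ a ∈ F, IsAlgebraic (Algebra.adjoin k (Set.range t)) a) (x : Fin n → Ω)
    (hx : ∀ i, x i ∈ F) (hi : AlgebraicIndependent k x) (a : Ω) (ha : a ∈ F) :
    IsAlgebraic (Algebra.adjoin k (Set.range x)) a := by
  let t' : Fin n → F := fun i => ⟨t i, ht i⟩
  let x' : Fin n → F := fun i => ⟨x i, hx i⟩
  have hx' : AlgebraicIndependent k x' := AlgebraicIndependent.of_comp F.val hi
  -- the ring generated by `s' : Fin n → F` and its image
  have hmap : ∀ (s : Fin n → Ω) (hs : ∀ i, s i ∈ F),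
      (Algebra.adjoin k (Set.range (fun i => (⟨s i, hs i⟩ : F)))).map F.val =
        Algebra.adjoin k (Set.range s) := by
    intro s hs
    rw [AlgHom.map_adjoin, ← Set.range_comp]
    rfl
  have hf : ∀ (s : Fin n → Ω) (hs : ∀ i, s i ∈ F),
      ∃ f : Algebra.adjoin k (Set.range (fun i => (⟨s i, hs i⟩ : F))) →ₐ[k]
        Algebra.adjoin k (Set.range s), Function.Bijective f ∧ ∀ y, (f y : Ω) = (y : F) := by
    intro s hs
    refine ⟨AlgHom.codRestrict
      (F.val.comp (Algebra.adjoin k (Set.range (fun i => (⟨s i, hs i⟩ : F)))).val) _ fun y => ?_,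
      ⟨fun y y' h => ?_, ?_⟩, fun y => rfl⟩
    · rw [← hmap s hs]
      exact ⟨y.1, y.2, rfl⟩
    · have h1 := congrArg (fun z : Algebra.adjoin k (Set.range s) => (z : Ω)) h
      exact Subtype.ext (Subtype.ext h1)
    · rintro ⟨y, hy⟩
      have hy' := hy
      rw [← hmap s hs] at hy'
      obtain ⟨e, he, rfl⟩ := hy'
      exact ⟨⟨e, he⟩, rfl⟩
  have h1 : Algebra.IsAlgebraic (Algebra.adjoin k (Set.range t')) F := by
    obtain ⟨f, hf1, hf2⟩ := hf t ht
    refine ⟨fun e => ?_⟩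
    exact IsAlgebraic.of_ringHom_of_comp_eq (S := Algebra.adjoin k (Set.range t)) (B := Ω)
      f F.val (a := e) (htr _ e.2) hf1.2 Subtype.val_injective (RingHom.ext fun y => hf2 y)
  have h2 : Algebra.trdeg k F ≤ Cardinal.mk (Fin n) := by
    refine (Algebra.IsAlgebraic.trdeg_le_cardinalMk k (Set.range t')).trans ?_
    exact Cardinal.mk_range_le
  have h3 : IsTranscendenceBasis k x' :=
    hx'.isTranscendenceBasis_of_trdeg_le_of_finite h2
  have h4 := h3.isAlgebraic.isAlgebraic (⟨a, ha⟩ : F)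
  obtain ⟨f, hf1, hf2⟩ := hf x hx
  exact IsAlgebraic.ringHom_of_comp_eq (R := Algebra.adjoin k (Set.range x')) (A := F)
    f F.val (a := ⟨a, ha⟩) h4 hf1.1 (RingHom.ext fun y => hf2 y)

namespace Mdl

variable {G : Subgroup (Ω ≃ₐ[k] Ω)} {M : Mdl k Ω G} {n : ℕ}

theorem can_alg (h : M.OkR n) (x : Fin n → Ω) (hx : ∀ i, x i ∈ M.F)
    (hi : AlgebraicIndependent k x) (a : Ω) (ha : a ∈ M.F) :
    IsAlgebraic (Algebra.adjoin k (Set.range x)) a := by
  obtain ⟨t, ht, hta, htr⟩ := h.trd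
  exact can_alg0 M.F t ht hta htr x hx hi a ha

/-- the local rings are in the field -/
theorem can_F (h : M.OkR n) (c : M.ι) (φ : M.R c →ₐ[k] k) (a : Ω) (ha : a ∈ M.O c φ) :
    a ∈ M.F := by
  obtain ⟨b, d, -, rfl⟩ := ha
  exact div_mem (h.le c _ b.2) (h.le c _ d.2)

/-- off the boundary the functions `x i` are parameters, up to constants -/
def CoordP (M : Mdl k Ω G) (x : Fin n → Ω) : Prop :=
  ∀ c (φ : M.R c →ₐ[k] k), M.Off c φ →
    ∃ e : Fin n → k, Par (M.O c φ) (fun i => x i - algebraMap k Ω (e i))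

/-- local equations of the canonical divisor (the inverse) -/
def Qc (D : Fin n → Derivation k Ω Ω) (O : Subalgebra k Ω) (f : Ω) : Prop :=
  ∃ z : Fin n → Ω, Par O z ∧ f = jac D z

theorem can_jac (x : Fin n → Ω) (D : Fin n → Derivation k Ω Ω)
    (hD : ∀ i j, D i (x j) = if i = j then 1 else 0) : jac D x = 1 := by
  have h1 : (Matrix.of fun i j => D i (x j)) = (1 : Matrix (Fin n) (Fin n) Ω) := by
    ext i j
    rw [Matrix.of_apply, hD, Matrix.one_apply]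
  rw [jac, h1, Matrix.det_one]

theorem can_ne [IsAlgClosed k] [CharZero k] (h : M.OkR n) (x : Fin n → Ω)
    (hx : ∀ i, x i ∈ M.F) (D : Fin n → Derivation k Ω Ω)
    (hD : ∀ i j, D i (x j) = if i = j then 1 else 0) (c : M.ι) (φ : M.R c →ₐ[k] k)
    (z : Fin n → Ω) (hz : Par (M.O c φ) z) : jac D z ≠ 0 :=
  jac_ne (h.dim c) φ D x (fun i => h.frac c _ (hx i)) hD z hz

/-- PROOF. `ex`: `exists_coord`, `jac_sub`. `off`: `jac_unit` and `jac D x = 1`. `ov`: `jac_unit`.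
`inv`: `jac_map`, and `g z` are parameters of `g O`. -/
theorem can_lq [IsAlgClosed k] [CharZero k] (h : M.Good n) (x : Fin n → Ω)
    (hx : ∀ i, x i ∈ M.F) (hi : AlgebraicIndependent k x)
    (hxg : ∀ (g : G) i, (g : Ω ≃ₐ[k] Ω) (x i) = x i) (D : Fin n → Derivation k Ω Ω)
    (hD : ∀ i j, D i (x j) = if i = j then 1 else 0) (hc : M.CoordP x) : M.Lq (Qc D) where
  ex := fun c φ => by
    obtain ⟨z, hz, -⟩ := h.par c φ
    obtain ⟨g, hg, hg'⟩ := exists_coord (h.toOkR.dim c) φ z hz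
    refine ⟨Units.mk0 _ (can_ne h.toOkR x hx D hD c φ z hz), g, hg, fun ψ hψ => ?_⟩
    obtain ⟨e, he⟩ := hg' ψ hψ
    exact ⟨_, he, (jac_sub D z e).symm⟩
  off := fun c φ f hoff hf => by
    obtain ⟨z, hz, hfz⟩ := hf
    obtain ⟨e, he⟩ := hc c φ hoff
    obtain ⟨u, hu, hu'⟩ := jac_unit (h.toOkR.dim c) φ D _ z he hz
    rw [jac_sub, can_jac x D hD, mul_one] at hu'
    rw [hfz, hu']
    exact hu
  ov := fun c φ f f' hf hf' => by
    obtain ⟨z, hz, hfz⟩ := hf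
    obtain ⟨z', hz', hfz'⟩ := hf'
    obtain ⟨u, hu, hu'⟩ := jac_unit (h.toOkR.dim c) φ D z' z hz' hz
    rw [hfz, hfz', hu', mul_div_assoc, div_self (can_ne h.toOkR x hx D hD c φ z' hz'), mul_one]
    exact hu
  inv := fun g c c' φ φ' f f' he hf hf' => by
    obtain ⟨z, hz, hfz⟩ := hf
    obtain ⟨z', hz', hfz'⟩ := hf'
    have h1 := jac_map D x hD (g : Ω ≃ₐ[k] Ω) (hxg g) z fun i =>
      can_alg h.toOkR x hx hi _ (can_F h.toOkR c φ _ (hz.1 i).1)
    have h2 := hz.map (g : Ω ≃ₐ[k] Ω)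
    have h3 : (M.O c φ).map ((g : Ω ≃ₐ[k] Ω) : Ω →ₐ[k] Ω) = M.O c' φ' := by
      ext a
      have h4 : (g : Ω ≃ₐ[k] Ω) (((g : Ω ≃ₐ[k] Ω)).symm a) = a := AlgEquiv.apply_symm_apply _ a
      rw [← h4, mem_map_iff]
      exact he _
    rw [h3] at h2
    obtain ⟨u, hu, hu'⟩ := jac_unit (h.toOkR.dim c') φ' D z' _ hz' h2
    rw [hfz, h1, hfz', hu', mul_div_assoc, div_self (can_ne h.toOkR x hx D hD c' φ' z' hz'),
      mul_one]
    exact hu

/-- the final model: the canonical exponents `κ`.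
PROOF. `exists_spl` with `can_lq`; `κ = 1 - β`; `jac_unit` to pass to arbitrary parameters. -/
theorem exists_can [IsAlgClosed k] [CharZero k] (h : M.Good n) (x : Fin n → Ω)
    (hx : ∀ i, x i ∈ M.F) (hi : AlgebraicIndependent k x)
    (hxg : ∀ (g : G) i, (g : Ω ≃ₐ[k] Ω) (x i) = x i) (D : Fin n → Derivation k Ω Ω)
    (hD : ∀ i j, D i (x j) = if i = j then 1 else 0) (hc : M.CoordP x) :
    ∃ M' : Mdl k Ω G, M'.Good n ∧ M'.F = M.F ∧ M'.Ψ = M.Ψ ∧ (∀ j, M'.Occ j) ∧ M.Same M' ∧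
      (∀ a, M.Cmp a → M'.Cmp a) ∧ ∃ κ : M'.J → ℤ, (∀ (g : G) j, κ (M'.π g j) = κ j) ∧
        ∀ c (φ : M'.R c →ₐ[k] k) (z : Fin n → Ω), Par (M'.O c φ) z →
          Un (M'.O c φ) (jac D z *
            ((∏ j ∈ M'.S c, M'.x c j ^ (1 - κ j) : Ωˣ) : Ω)⁻¹) := by
  obtain ⟨M', h1, h2, h3, h4, h5, h6, f, β, h7, h8, h9⟩ :=
    exists_spl h (can_lq h x hx hi hxg D hD hc)
  refine ⟨M', h1, h2, h3, h4, h5, h6, fun j => 1 - β j, fun g j => by
    show 1 - β (M'.π g j) = 1 - β j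
    rw [h7], ?_⟩
  intro c φ z hz
  have e1 : ∏ j ∈ M'.S c, M'.x c j ^ (1 - (1 - β j)) = ∏ j ∈ M'.S c, M'.x c j ^ β j :=
    Finset.prod_congr rfl fun j _ => by rw [sub_sub_cancel]
  rw [e1]
  obtain ⟨z', hz', hfz'⟩ := h8 c φ
  obtain ⟨u, hu, hu'⟩ := jac_unit (h1.toOkR.dim c) φ D z' z hz' hz
  have h10 := (h9 c).mono (le_loc φ)
  rw [Units.val_mul, Units.val_inv_eq_inv_val, hfz'] at h10
  rw [hu', mul_assoc]
  exact hu.mul h10

end Mdl

end Pool.Agent.KMR
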