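import Pool.Agent.Lib.MP_732f67_ag.R.Prd
import Pool.Agent.Lib.MP_732f67_ag.R.PsiC

/-!
Operation: the normalisation in a finite extension of the function field which is unramified at
all points.
-/

namespace Pool.Agent.KMR

variable {k Ω : Type} [Field k] [Field Ω] [Algebra k Ω]

/-- integrality over a smaller ring -/
theorem cov_mono {R R' : Subalgebra k Ω} (hle : R ≤ R') {a : Ω} (h : IsIntegral R a) :
    IsIntegral R' a := by
  obtain ⟨p, hp, hp0⟩ := h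
  refine ⟨p.map (Subalgebra.inclusion hle : R →+* R'), hp.map _, ?_⟩
  rw [Polynomial.eval₂_map]
  exact hp0

/-- a monic equation with coefficients in `R` -/
theorem cov_int {R : Subalgebra k Ω} (q : Polynomial Ω) (hq : q.Monic)
    (h : ∀ i, q.coeff i ∈ R) (a : Ω) (ha : q.eval a = 0) : IsIntegral R a := by
  have h1 : q ∈ Polynomial.lifts (algebraMap R Ω) := by
    rw [Polynomial.lifts_iff_coeff_lifts]
    intro i
    exact ⟨⟨q.coeff i, h i⟩, rfl⟩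
  obtain ⟨p, hp, -, hpm⟩ := Polynomial.lifts_and_degree_eq_and_monic h1 hq
  refine ⟨p, hpm, ?_⟩
  rw [← Polynomial.eval_map, hp, ha]

/-- integrality over the image of a ring under an automorphism -/
theorem cov_map {R R' : Subalgebra k Ω} (g : Ω ≃ₐ[k] Ω) (hg : ∀ a ∈ R, g a ∈ R') {a : Ω}
    (h : IsIntegral R a) : IsIntegral R' (g a) := by
  obtain ⟨p, hp, hp0⟩ := h
  refine cov_int (p.map ((g : Ω →+* Ω).comp (algebraMap R Ω))) (hp.map _) (fun i => ?_) _ ?_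
  · rw [Polynomial.coeff_map]
    exact hg _ (p.coeff i).2
  · have h1 := congrArg (g : Ω →+* Ω) hp0
    rw [Polynomial.hom_eval₂, map_zero] at h1
    rw [Polynomial.eval_map]
    exact h1

/-- `a` integral over `R`, `r ∈ R'`, every element of `R` becomes an element of `R'` after
multiplication by a power of `r`: a multiple of `a` by a power of `r` is integral over `R'` -/
theorem cov_scale {R R' : Subalgebra k Ω} {r : Ω} (hr : r ∈ R')
    (hR : ∀ b ∈ R, ∃ m : ℕ, b * r ^ m ∈ R') {a : Ω} (h : IsIntegral R a) :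
    ∃ m : ℕ, IsIntegral R' (a * r ^ m) := by
  obtain ⟨p, hp, hp0⟩ := h
  have hc : ∀ i, ∃ m : ℕ, (p.coeff i : Ω) * r ^ m ∈ R' := fun i => hR _ (p.coeff i).2
  choose m hm using hc
  let m₀ := ∑ i ∈ Finset.range p.natDegree, m i
  have hm₀ : ∀ i ∈ Finset.range p.natDegree, m i ≤ m₀ := fun i hi =>
    Finset.single_le_sum (f := m) (fun _ _ => Nat.zero_le _) hi
  let q : Polynomial Ω := p.map (algebraMap R Ω)
  have hq : q.Monic := hp.map _
  have hqd : q.natDegree = p.natDegree := hp.natDegree_map _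
  have hqc : ∀ i, q.coeff i = (p.coeff i : Ω) := fun i => Polynomial.coeff_map _ _
  have hq0 : q.eval a = 0 := by
    rw [Polynomial.eval_map]
    exact hp0
  refine ⟨m₀, cov_int (q.scaleRoots (r ^ m₀)) ?_ (fun i => ?_) _ ?_⟩
  · exact (Polynomial.monic_scaleRoots_iff _).2 hq
  · rw [Polynomial.coeff_scaleRoots, hqc, hqd]
    rcases lt_trichotomy i p.natDegree with hi | hi | hi
    · have h1 : m i ≤ m₀ * (p.natDegree - i) :=
        (hm₀ i (Finset.mem_range.2 hi)).trans (Nat.le_mul_of_pos_right _ (by omega))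
      rw [← pow_mul, ← Nat.add_sub_cancel' h1, pow_add, ← mul_assoc]
      exact R'.mul_mem (hm i) (R'.pow_mem hr _)
    · rw [hi, Nat.sub_self, pow_zero, mul_one, hp.coeff_natDegree]
      exact R'.one_mem
    · rw [Polynomial.coeff_eq_zero_of_natDegree_lt hi, ZeroMemClass.coe_zero, zero_mul]
      exact R'.zero_mem
  · rw [mul_comm]
    have h1 := Polynomial.scaleRoots_eval₂_mul (p := q) (f := RingHom.id Ω) (r := a)
      (s := r ^ m₀)
    simp only [RingHom.id_apply] at h1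
    change Polynomial.eval₂ (RingHom.id Ω) _ _ = 0
    rw [h1]
    change _ * q.eval a = 0
    rw [hq0, mul_zero]

/-- the integral closure is integrally closed, in the form `Nrm` -/
theorem cov_nrm {R : Subalgebra k Ω} {F N : IntermediateField k Ω} (hF : Frc R F)
    (h : Fext F N) : Nrm (icl R N) := fun _ ha _ hb _ hi =>
  icl_nrm hF h _ (N.div_mem (mem_icl.1 ha).2 (mem_icl.1 hb).2) hi

namespace Mdl

variable {G : Subgroup (Ω ≃ₐ[k] Ω)} (M : Mdl k Ω G) {n : ℕ} {N : IntermediateField k Ω}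

/-- the normalisation in `N` -/
def cov (N : IntermediateField k Ω) : Mdl k Ω G where
  F := N
  ι := M.ι
  J := M.J
  R c := icl (M.R c) N
  S := M.S
  x := M.x
  s := M.s
  m := M.m
  Ψ := M.Ψ
  v := M.v
  h := M.h
  π := M.π

variable {M}

theorem OkR.frc (h : M.OkR n) (c : M.ι) : Frc (M.R c) M.F := ⟨h.le c, h.frac c⟩

/-- the rings of a model are integrally closed (`mem_of_pt`, `Reg.normal`) -/
theorem Ok0.nrm [IsAlgClosed k] [CharZero k] (h : M.Ok0 n) (c : M.ι) : Nrm (M.R c) := by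
  intro a ha b hb hb0 hi
  refine mem_of_pt (h.fg c) _ fun φ => ?_
  obtain ⟨z, -, hr, -⟩ := h.exists_reg c φ
  exact hr.normal a (le_loc φ ha) b (le_loc φ hb) hb0 (cov_mono (le_loc φ) hi)

theorem cov_okR [IsAlgClosed k] [CharZero k] (h : M.Ok0 n) (hN : Fext M.F N) :
    (M.cov N).OkR n where
  fin := h.fin
  trd := by
    obtain ⟨t, ht, hi, ha⟩ := h.trd
    refine ⟨t, fun i => hN.le (ht i), hi, fun a haN => ?_⟩
    have hle : Algebra.adjoin k (Set.range t) ≤ M.F.toSubalgebra :=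
      Algebra.adjoin_le (by
        rintro _ ⟨i, rfl⟩
        exact ht i)
    let _ : Algebra (Algebra.adjoin k (Set.range t)) M.F :=
      (Subalgebra.inclusion hle).toRingHom.toAlgebra
    have hst : IsScalarTower (Algebra.adjoin k (Set.range t)) M.F Ω :=
      IsScalarTower.of_algebraMap_eq fun x => rfl
    have halg : Algebra.IsAlgebraic (Algebra.adjoin k (Set.range t)) M.F := by
      refine ⟨fun x => ?_⟩
      have h1 := ha (x : Ω) x.2
      exact (isAlgebraic_algebraMap_iff (A := Ω) (algebraMap M.F Ω).injective).1 h1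
    exact IsAlgebraic.restrictScalars _ (hN.alg a haN)
  fg c := icl_fg (h.fg c) (h.nrm c) (h.toOkR.frc c) hN
  le c a ha := (mem_icl.1 ha).2
  frac c a ha := (icl_frc (h.toOkR.frc c) hN).frac a ha
  complete V hV := by
    obtain ⟨c, hc⟩ := h.complete V hV
    refine ⟨c, fun a ha => ?_⟩
    obtain ⟨⟨p, hp, hp0⟩, -⟩ := mem_icl.1 ha
    have h1 : p.map (algebraMap (M.R c) Ω) ∈ Polynomial.lifts (algebraMap V Ω) := by
      rw [Polynomial.lifts_iff_coeff_lifts]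
      intro i
      rw [Polynomial.coeff_map]
      exact ⟨⟨(p.coeff i : Ω), hc _ (p.coeff i).2⟩, rfl⟩
    obtain ⟨q, hq, -, hqm⟩ := Polynomial.lifts_and_degree_eq_and_monic h1 (hp.map _)
    have h2 : IsIntegral V a := by
      refine ⟨q, hqm, ?_⟩
      rw [← Polynomial.eval_map, hq, Polynomial.eval_map]
      exact hp0
    obtain ⟨y, hy⟩ := IsIntegrallyClosed.isIntegral_iff.1 h2
    rw [← hy]
    exact y.2

theorem cov_okV (h : M.OkR n) (hv : M.OkV) (hN : Fext M.F N) : (M.cov N).OkV where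
  Ψ_fg := hv.Ψ_fg
  Ψ_F a ha := hN.le (hv.Ψ_F a ha)
  x_Ψ := hv.x_Ψ
  x_R c j hj := le_icl (h.frc c) hN (hv.x_R c j hj)
  v_mul := hv.v_mul
  v_x := hv.v_x
  v_x' := hv.v_x'
  unit c a ha hj := (hv.unit c a ha hj).mono (le_icl (h.frc c) hN)

/-- the point under a point, with the same labels -/
theorem cov_pt (h : M.OkR n) (hv : M.OkV) (hN : Fext M.F N) (c : M.ι)
    (φ : (M.cov N).R c →ₐ[k] k) :
    ∃ ψ : M.R c →ₐ[k] k, (∀ (a : M.R c) (a' : (M.cov N).R c), (a : Ω) = a' → ψ a = φ a') ∧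
      M.O c ψ ≤ (M.cov N).O c φ ∧
      (∀ a ∈ M.O c ψ, Un (M.O c ψ) a ↔ Un ((M.cov N).O c φ) a) ∧
      ∀ j, M.At c ψ j ↔ (M.cov N).At c φ j := by
  have hle : M.R c ≤ (M.cov N).R c := le_icl (h.frc c) hN
  let ψ : M.R c →ₐ[k] k := φ.comp (Subalgebra.inclusion hle)
  have h1 : ∀ (a : M.R c) (a' : (M.cov N).R c), (a : Ω) = a' → ψ a = φ a' := by
    intro a a' haa
    have h2 : Subalgebra.inclusion hle a = a' := Subtype.ext haa
    show φ (Subalgebra.inclusion hle a) = φ a'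
    rw [h2]
  have h2 : M.O c ψ ≤ (M.cov N).O c φ := by
    rintro _ ⟨b, d, hd, rfl⟩
    exact ⟨Subalgebra.inclusion hle b, Subalgebra.inclusion hle d, hd, rfl⟩
  have h3 : ∀ a ∈ M.O c ψ, Un (M.O c ψ) a ↔ Un ((M.cov N).O c φ) a := fun a ha =>
    ⟨fun hu => hu.mono h2, fun hu => IsPt.dom (isPt_loc ψ) (isPt_loc φ) h2 a ha hu⟩
  refine ⟨ψ, h1, h2, h3, fun j => ?_⟩
  constructor
  · rintro ⟨hj, hu⟩
    exact ⟨hj, fun hu' => hu ((h3 _ (le_loc ψ (hv.x_R c j hj))).2 hu')⟩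
  · rintro ⟨hj, hu⟩
    exact ⟨hj, fun hu' => hu (hu'.mono h2)⟩

/-- unramified at all points: parameters remain parameters -/
def CovU (M : Mdl k Ω G) (N : IntermediateField k Ω) (n : ℕ) : Prop :=
  ∀ c (ψ : M.R c →ₐ[k] k) (φ : icl (M.R c) N →ₐ[k] k),
    (∀ (a : M.R c) (a' : icl (M.R c) N), (a : Ω) = a' → ψ a = φ a') →
      ∀ z : Fin n → Ω, Par (Loc (M.R c) ψ) z → Par (Loc (icl (M.R c) N) φ) z

theorem cov_okP (h : M.OkR n) (hv : M.OkV) (hp : M.OkP n) (hN : Fext M.F N)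
    (hU : CovU M N n) : (M.cov N).OkP n := by
  refine ⟨fun c φ => ?_⟩
  obtain ⟨ψ, h1, -, -, h4⟩ := cov_pt h hv hN c φ
  obtain ⟨z, hz, hx⟩ := hp.par c ψ
  exact ⟨z, hU c ψ φ h1 z hz, fun j hj => hx j ((h4 j).2 hj)⟩

/-- `exists_lift` -/
theorem cov_deep [IsAlgClosed k] (h : M.OkR n) (hv : M.OkV) (hN : Fext M.F N)
    (hd : ∀ c, ∃ φ : M.R c →ₐ[k] k, ∀ j ∈ M.S c, M.At c φ j) (c : (M.cov N).ι) :
    ∃ φ : (M.cov N).R c →ₐ[k] k, ∀ j ∈ (M.cov N).S c, (M.cov N).At c φ j := by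
  obtain ⟨φ, hφ⟩ := hd c
  have hle : M.R c ≤ (M.cov N).R c := le_icl (h.frc c) hN
  obtain ⟨φ', hφ'⟩ := exists_lift hle (fun a ha => (mem_icl.1 ha).1) φ
  obtain ⟨ψ, h1, -, -, h4⟩ := cov_pt h hv hN c φ'
  have h5 : ψ = φ := by
    refine AlgHom.ext fun a => ?_
    rw [h1 a ⟨a, hle a.2⟩ rfl]
    exact (hφ' a a.2 _).symm
  rw [← h5] at hφ
  exact ⟨φ', fun j hj => (h4 j).1 (hφ j hj)⟩

/-- PROOF of `s_loc`: `a` integral over `R c`, coefficients `b i`; `b i * (s c / s c') ^ N₀ ∈ R c'`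
for all `i`; then `a * (s c / s c') ^ N₀` is integral over `R c'`. -/
theorem cov_okS (h : M.OkR n) (hS : M.OkS) (hN : Fext M.F N) : (M.cov N).OkS where
  s_mem c c' := le_icl (h.frc c) hN (hS.s_mem c c')
  s_loc c c' a ha := by
    obtain ⟨hi, haN⟩ := mem_icl.1 ha
    have hr : (M.s c / M.s c' : Ω) ∈ M.R c' := hS.s_mem c' c
    obtain ⟨m, hm⟩ := cov_scale hr (hS.s_loc c c') hi
    exact ⟨m, mem_icl.2 ⟨hm, N.mul_mem haN (pow_mem (hN.le (h.le c' _ hr)) m)⟩⟩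
  s_x c c' j hj hj' := by
    obtain ⟨m, hm⟩ := hS.s_x c c' j hj hj'
    exact ⟨m, le_icl (h.frc c) hN hm⟩
  m_Ψ := hS.m_Ψ
  m_s c := (hS.m_s c).mono (le_icl (h.frc c) hN)
  m_v := hS.m_v

theorem cov_eqJ (h : M.EqJ) : (M.cov N).EqJ := ⟨h.Ψ_g, h.v_g, h.strict⟩

/-- PROOF. `g O c φ = O c₁ φ₁`. The ring `g O'` contains `R c₁` and is integrally closed (`nrm_loc`,
`icl_frc`), so it contains `R' c₁`; take the point under `g O'`. -/
theorem cov_eqH [IsAlgClosed k] [CharZero k] (h : M.Good n) (hN : Fext M.F N)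
    (hG : ∀ g : G, ∀ a ∈ N, (g : Ω ≃ₐ[k] Ω) a ∈ N) : (M.cov N).EqH := by
  intro g c φ
  obtain ⟨ψ, -, h2, h3, h4⟩ := cov_pt h.toOkR h.toOkV hN c φ
  obtain ⟨c', ψ', h5, h6⟩ := h.eqP g c ψ
  have hF := h.toOkR.frc c
  -- `g⁻¹`
  have hgi : ∀ a ∈ N, ((g : Ω ≃ₐ[k] Ω)).symm a ∈ N := fun a ha => hG g⁻¹ a ha
  have hsymm : ∀ a : Ω, (g : Ω ≃ₐ[k] Ω) (((g : Ω ≃ₐ[k] Ω)).symm a) = a := fun a =>
    AlgEquiv.apply_symm_apply _ a
  have h7 : ∀ a ∈ M.O c' ψ', ((g : Ω ≃ₐ[k] Ω)).symm a ∈ M.O c ψ := fun a ha =>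
    (h5 _).2 (by rwa [hsymm])
  -- the chart `c'` is contained in the image of the local ring
  have h8 : ∀ a ∈ (M.cov N).R c', ((g : Ω ≃ₐ[k] Ω)).symm a ∈ (M.cov N).O c φ := by
    intro a ha
    obtain ⟨hi, haN⟩ := mem_icl.1 ha
    have h9 : IsIntegral ((M.cov N).O c φ) (((g : Ω ≃ₐ[k] Ω)).symm a) :=
      cov_map _ (fun b hb => h2 (h7 b (le_loc ψ' hb))) hi
    obtain ⟨p, hp, q, hq, hq0, hpq⟩ := (frc_loc (icl_frc hF hN) φ).frac _ (hgi a haN)
    rw [hpq] at h9 ⊢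
    exact nrm_loc (cov_nrm hF hN) φ p hp q hq hq0 h9
  have hle : (M.cov N).R c' ≤ ((M.cov N).O c φ).map ((g : Ω ≃ₐ[k] Ω) : Ω →ₐ[k] Ω) := fun a ha =>
    ⟨_, h8 a ha, hsymm a⟩
  obtain ⟨φ', h10, h11⟩ := ((isPt_loc φ).map (g : Ω ≃ₐ[k] Ω)).exists_loc _ hle
  refine ⟨c', φ', fun a ha => ?_, fun j hj => ?_⟩
  · obtain ⟨b, hb, hba⟩ := h11 ha
    have h12 : (g : Ω ≃ₐ[k] Ω) b = a := hba
    rw [← h12, AlgEquiv.symm_apply_apply]
    exact hb
  · obtain ⟨hjS, hju⟩ := (h6 j).1 ((h4 j).2 hj)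
    refine ⟨hjS, fun hu => hju ?_⟩
    have hxO : (M.x c' (M.π g j) : Ω) ∈ M.O c' ψ' := le_loc ψ' (h.x_R c' _ hjS)
    have h12 : Un ((M.cov N).O c φ) (((g : Ω ≃ₐ[k] Ω)).symm (M.x c' (M.π g j) : Ω)) := by
      rw [← un_map_iff ((M.cov N).O c φ) (g : Ω ≃ₐ[k] Ω), hsymm]
      exact hu.mono h11
    have h13 := (h3 _ (h7 _ hxO)).2 h12
    have h14 := (h5 _).1 h13.2.2
    rw [map_inv₀, hsymm] at h14
    exact ⟨(M.x c' (M.π g j)).ne_zero, hxO, h14⟩

theorem cov_good [IsAlgClosed k] [CharZero k] (h : M.Good n) (hN : Fext M.F N)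
    (hG : ∀ g : G, ∀ a ∈ N, (g : Ω ≃ₐ[k] Ω) a ∈ N) (hU : CovU M N n) : (M.cov N).Good n := by
  have h0 : (M.cov N).Ok0 n :=
    { toOkR := cov_okR h.toOk0 hN
      toOkV := cov_okV h.toOkR h.toOkV hN
      toOkP := cov_okP h.toOkR h.toOkV h.toOkP hN hU
      toOkS := cov_okS h.toOkR h.toOkS hN }
  exact
    { toOk0 := h0
      deep := cov_deep h.toOkR h.toOkV hN h.deep
      toEqJ := cov_eqJ h.toEqJ
      eqP := h0.eqP (cov_eqH h hN hG)
      eqF := hG }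

end Mdl

end Pool.Agent.KMR
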