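import Pool.Agent.Lib.MP_732f67_ag.R.Kum

/-!
Adjoining the `m`-th roots: the points.
-/

namespace Pool.Agent.KMR

variable {k Ω : Type} [Field k] [Field Ω] [Algebra k Ω]

namespace Mdl

variable {G : Subgroup (Ω ≃ₐ[k] Ω)} {M : Mdl k Ω G} {n : ℕ} {m : ℕ}

theorem kumB_root (c : M.ι) (u : Ωˣ) (hu : u ^ m ∈ M.Ψ)
    (hv : ∀ j ∈ M.S c, 0 ≤ M.v j (u ^ m)) : (u : Ω) ∈ (M.kum m).R c :=
  (le_sup_right : _ ≤ M.R c ⊔ Algebra.adjoin k
    {y | ∃ u : Ωˣ, u ^ m ∈ M.Ψ ∧ (∀ j ∈ M.S c, 0 ≤ M.v j (u ^ m)) ∧ y = u})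
    (Algebra.subset_adjoin ⟨u, hu, hv, rfl⟩)

theorem kumB_R_le (c : M.ι) (A : Subalgebra k Ω) (h1 : M.R c ≤ A)
    (h2 : ∀ u : Ωˣ, u ^ m ∈ M.Ψ → (∀ j ∈ M.S c, 0 ≤ M.v j (u ^ m)) → (u : Ω) ∈ A) :
    (M.kum m).R c ≤ A := by
  show M.R c ⊔ Algebra.adjoin k
    {y | ∃ u : Ωˣ, u ^ m ∈ M.Ψ ∧ (∀ j ∈ M.S c, 0 ≤ M.v j (u ^ m)) ∧ y = u} ≤ A
  refine sup_le h1 (Algebra.adjoin_le ?_)
  rintro _ ⟨u, hu, hv, rfl⟩
  exact h2 u hu hv

theorem kumB_v (h : M.OkV) (c : M.ι) (j : M.J) (hj : j ∈ M.S c) (i : M.J) (hi : i ∈ M.S c) :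
    0 ≤ M.v i (M.x c j) := by
  by_cases hij : i = j
  · rw [hij, h.v_x c j hj]
    exact zero_le_one
  · rw [h.v_x' c i hi j hj hij]

theorem kumB_x [IsAlgClosed Ω] (hm : m ≠ 0) (h : M.OkV) (c : M.ι) (j : M.J) (hj : j ∈ M.S c) :
    (rt m (M.x c j) : Ω) ∈ (M.kum m).R c := by
  refine kumB_root (M := M) c _ ?_ fun i hi => ?_
  · rw [rt_pow hm]
    exact h.x_Ψ c j hj
  · rw [rt_pow hm]
    exact kumB_v h c j hj i hi

theorem un_pow_iff {O : Subalgebra k Ω} (hm : m ≠ 0) (a : Ω) (ha : a ∈ O) :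
    Un O (a ^ m) ↔ Un O a := by
  constructor
  · intro h
    obtain ⟨d, rfl⟩ := Nat.exists_eq_succ_of_ne_zero hm
    rw [pow_succ] at h
    exact (Un.of_mul (pow_mem ha d) ha h).2
  · exact fun h => h.pow m

/-- the point under a point, with the values -/
theorem kum_pt' [IsAlgClosed Ω] (hm : m ≠ 0) (h : M.OkV) (c : M.ι)
    (φ : (M.kum m).R c →ₐ[k] k) :
    ∃ ψ : M.R c →ₐ[k] k, M.O c ψ ≤ (M.kum m).O c φ ∧
      (∀ a ∈ M.O c ψ, Un (M.O c ψ) a ↔ Un ((M.kum m).O c φ) a) ∧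
      (∀ j, M.At c ψ j ↔ (M.kum m).At c φ j) ∧
      ∀ (a : Ω) (h : a ∈ M.R c), ψ ⟨a, h⟩ = φ ⟨a, kum_le (M := M) c h⟩ := by
  let ψ : M.R c →ₐ[k] k := φ.comp (Subalgebra.inclusion (kum_le (M := M) c))
  have hle : M.O c ψ ≤ (M.kum m).O c φ := by
    rintro _ ⟨x, y, hy, rfl⟩
    exact ⟨⟨x, kum_le (M := M) c x.2⟩, ⟨y, kum_le (M := M) c y.2⟩, hy, rfl⟩
  have hun : ∀ a ∈ M.O c ψ, Un (M.O c ψ) a ↔ Un ((M.kum m).O c φ) a := fun a ha =>
    ⟨fun h => h.mono hle, fun h => IsPt.dom (isPt_loc ψ) (isPt_loc φ) hle a ha h⟩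
  refine ⟨ψ, hle, hun, fun j => ?_, fun a h => rfl⟩
  have key : ∀ j ∈ M.S c, (Un (M.O c ψ) (M.x c j : Ω) ↔
      Un ((M.kum m).O c φ) ((rt m (M.x c j) : Ωˣ) : Ω)) := by
    intro j hj
    rw [hun _ (le_loc ψ (h.x_R c j hj)), ← un_pow_iff hm _ (le_loc φ (kumB_x (M := M) hm h c j hj)),
      ← Units.val_pow_eq_pow_val, rt_pow hm]
  constructor
  · rintro ⟨h1, h2⟩
    exact ⟨h1, fun h3 => h2 ((key j h1).2 h3)⟩
  · rintro ⟨h1, h2⟩
    exact ⟨h1, fun h3 => h2 ((key j h1).1 h3)⟩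

/-- the point under a point, with the same labels -/
theorem kum_pt [IsAlgClosed Ω] (hm : m ≠ 0) (h : M.OkV) (c : M.ι)
    (φ : (M.kum m).R c →ₐ[k] k) :
    ∃ ψ : M.R c →ₐ[k] k, M.O c ψ ≤ (M.kum m).O c φ ∧
      (∀ a ∈ M.O c ψ, Un (M.O c ψ) a ↔ Un ((M.kum m).O c φ) a) ∧
      ∀ j, M.At c ψ j ↔ (M.kum m).At c φ j := by
  obtain ⟨ψ, h1, h2, h3, -⟩ := kum_pt' hm h c φ
  exact ⟨ψ, h1, h2, h3⟩

/-- the ideal generated by the new parameters -/
def kid (O : Subalgebra k Ω) {n : ℕ} (z : Fin n → Ω) (r : Ω) : Prop :=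
  ∃ a : Fin n → Ω, (∀ i, a i ∈ O) ∧ r = ∑ i, a i * z i

theorem kid.add {O : Subalgebra k Ω} {z : Fin n → Ω} {r s : Ω} (hr : kid O z r)
    (hs : kid O z s) : kid O z (r + s) := by
  obtain ⟨a, ha, rfl⟩ := hr
  obtain ⟨b, hb, rfl⟩ := hs
  refine ⟨fun i => a i + b i, fun i => add_mem (ha i) (hb i), ?_⟩
  rw [← Finset.sum_add_distrib]
  exact Finset.sum_congr rfl fun i _ => (add_mul _ _ _).symm

theorem kid.mul {O : Subalgebra k Ω} {z : Fin n → Ω} {r : Ω} (hr : kid O z r) {s : Ω}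
    (hs : s ∈ O) : kid O z (s * r) := by
  obtain ⟨a, ha, rfl⟩ := hr
  refine ⟨fun i => s * a i, fun i => mul_mem hs (ha i), ?_⟩
  rw [Finset.mul_sum]
  exact Finset.sum_congr rfl fun i _ => (mul_assoc _ _ _).symm

theorem kid.zero {O : Subalgebra k Ω} {z : Fin n → Ω} : kid O z 0 :=
  ⟨fun _ => 0, fun _ => zero_mem _, by simp⟩

theorem kid.gen {O : Subalgebra k Ω} {z : Fin n → Ω} (i : Fin n) : kid O z (z i) := by
  classical
  refine ⟨fun j => if j = i then 1 else 0, fun j => ?_, ?_⟩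
  · show (if j = i then (1 : Ω) else 0) ∈ O
    split_ifs
    · exact one_mem _
    · exact zero_mem _
  · simp

theorem kid.sum {O : Subalgebra k Ω} {z : Fin n → Ω} {κ : Type} (s : Finset κ) (f : κ → Ω)
    (hf : ∀ i ∈ s, kid O z (f i)) : kid O z (∑ i ∈ s, f i) :=
  Finset.sum_induction f (kid O z) (fun _ _ ha hb => ha.add hb) kid.zero hf

/-- PROOF. Let `z` be parameters at the point `ψ` below, containing the `x c j` through `ψ`.
Replace `x c j` by its root. Let `u` be a generator of the ring, `u ^ m = a ∈ Ψ`. If `a` is a unit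
of `M.O c ψ` and `e` is the value of `u`, then `u ^ m - e ^ m` is a non-unit of `M.O c ψ`, so it is
in the ideal of the `z i`, and `u ^ m - e ^ m = (u - e) * (unit)` (the other factor has the value
`m e ^ (m - 1)`). If not, then `u` is a unit times a monomial in the roots of the `x c j`. So every
element of the ring is congruent to an element of `M.R c` modulo the ideal of the new parameters. -/
theorem kum_okP [IsAlgClosed k] [IsAlgClosed Ω] [CharZero k] (hm : m ≠ 0) (h : M.OkV)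
    (hp : M.OkP n) : (M.kum m).OkP n := by
  classical
  refine ⟨fun c φ => ?_⟩
  obtain ⟨ψ, h1, h2, h3, h4⟩ := kum_pt' (M := M) hm h c φ
  obtain ⟨z, ⟨hz1, hz2⟩, hz3⟩ := hp.par c ψ
  let O' := (M.kum m).O c φ
  have hO' : IsPt O' := isPt_loc φ
  -- the new parameters
  let z' : Fin n → Ω := fun i =>
    if hi : ∃ j, M.At c ψ j ∧ z i = M.x c j then ((rt m (M.x c hi.choose) : Ωˣ) : Ω) else z i
  have hzj : ∀ i, (∃ j, M.At c ψ j ∧ z i = M.x c j ∧ z' i = ((rt m (M.x c j) : Ωˣ) : Ω)) ∨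
      (¬ ∃ j, M.At c ψ j ∧ z i = M.x c j) ∧ z' i = z i := by
    intro i
    by_cases hi : ∃ j, M.At c ψ j ∧ z i = M.x c j
    · left
      refine ⟨hi.choose, hi.choose_spec.1, hi.choose_spec.2, ?_⟩
      show dite _ _ _ = _
      rw [dif_pos hi]
    · right
      refine ⟨hi, ?_⟩
      show dite _ _ _ = _
      rw [dif_neg hi]
  have hzi : ∀ j i, M.At c ψ j → z i = M.x c j → z' i = ((rt m (M.x c j) : Ωˣ) : Ω) := by
    intro j i hj hi
    rcases hzj i with ⟨j', hj', hij, hij'⟩ | ⟨hn, -⟩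
    · have : M.x c j' = M.x c j := Units.ext (hij.symm.trans hi)
      rw [hij', this]
    · exact absurd ⟨j, hj, hi⟩ hn
  have hrt : ∀ j, j ∈ M.S c → ((rt m (M.x c j) : Ωˣ) : Ω) ^ m = M.x c j := by
    intro j _
    rw [← Units.val_pow_eq_pow_val, rt_pow hm]
  -- `z i` is in the ideal of the new parameters
  have hkz : ∀ i, kid O' z' (z i) := by
    intro i
    rcases hzj i with ⟨j, hj, hij, hij'⟩ | ⟨-, hi⟩
    · have h5 : z i = ((rt m (M.x c j) : Ωˣ) : Ω) ^ (m - 1) * z' i := by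
        rw [hij', hij, ← pow_succ, Nat.sub_add_cancel (Nat.pos_of_ne_zero hm), hrt j hj.1]
      rw [h5]
      exact (kid.gen i).mul (pow_mem (le_loc φ (kumB_x (M := M) hm h c j hj.1)) _)
    · rw [← hi]
      exact kid.gen i
  -- non-units of the ring below
  have hkψ : ∀ r ∈ M.O c ψ, ¬ Un (M.O c ψ) r → kid O' z' r := by
    intro r hr hn
    obtain ⟨a, ha, rfl⟩ := hz2 r hr hn
    exact kid.sum _ _ fun i _ => (hkz i).mul (h1 (ha i))
  -- the main claim
  have key : ∀ r : (M.kum m).R c, kid O' z' ((r : Ω) - algebraMap k Ω (φ r)) := by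
    let A : Subalgebra k Ω :=
      { carrier := {r | ∃ hr : r ∈ (M.kum m).R c, kid O' z' (r - algebraMap k Ω (φ ⟨r, hr⟩))}
        mul_mem' := by
          rintro x y ⟨hx, hx'⟩ ⟨hy, hy'⟩
          refine ⟨mul_mem hx hy, ?_⟩
          have e1 : φ ⟨x * y, mul_mem hx hy⟩ = φ ⟨x, hx⟩ * φ ⟨y, hy⟩ := by
            rw [← map_mul]
            rfl
          have e2 : x * y - algebraMap k Ω (φ ⟨x * y, mul_mem hx hy⟩) =
              x * (y - algebraMap k Ω (φ ⟨y, hy⟩)) +
                algebraMap k Ω (φ ⟨y, hy⟩) * (x - algebraMap k Ω (φ ⟨x, hx⟩)) := by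
            rw [e1, map_mul]
            ring
          rw [e2]
          exact (hy'.mul (le_loc φ hx)).add (hx'.mul (Subalgebra.algebraMap_mem _ _))
        add_mem' := by
          rintro x y ⟨hx, hx'⟩ ⟨hy, hy'⟩
          refine ⟨add_mem hx hy, ?_⟩
          have e1 : φ ⟨x + y, add_mem hx hy⟩ = φ ⟨x, hx⟩ + φ ⟨y, hy⟩ := by
            rw [← map_add]
            rfl
          have e2 : x + y - algebraMap k Ω (φ ⟨x + y, add_mem hx hy⟩) =
              (x - algebraMap k Ω (φ ⟨x, hx⟩)) + (y - algebraMap k Ω (φ ⟨y, hy⟩)) := by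
            rw [e1, map_add]
            ring
          rw [e2]
          exact hx'.add hy'
        algebraMap_mem' := fun r => by
          refine ⟨Subalgebra.algebraMap_mem _ r, ?_⟩
          have e1 : φ ⟨algebraMap k Ω r, Subalgebra.algebraMap_mem _ r⟩ = r := φ.commutes r
          rw [e1, sub_self]
          exact kid.zero }
    have hA : (M.kum m).R c ≤ A := by
      refine kumB_R_le (M := M) (m := m) c A (fun a ha => ?_) (fun u hu hv => ?_)
      · refine ⟨kum_le (M := M) c ha, ?_⟩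
        have e1 : φ ⟨a, kum_le (M := M) c ha⟩ = ψ ⟨a, ha⟩ := (h4 a ha).symm
        rw [e1]
        let b : M.R c := ⟨a, ha⟩ - algebraMap k _ (ψ ⟨a, ha⟩)
        have e2 : ψ b = 0 := by
          show ψ (⟨a, ha⟩ - algebraMap k _ (ψ ⟨a, ha⟩)) = 0
          rw [map_sub, AlgHom.commutes]
          exact sub_self _
        exact hkψ (b : Ω) (le_loc ψ b.2) fun hn => (un_loc ψ b).1 hn e2
      · have huR : (u : Ω) ∈ (M.kum m).R c := kumB_root (M := M) c u hu hv
        refine ⟨huR, ?_⟩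
        have haR : ((u ^ m : Ωˣ) : Ω) ∈ M.R c := h.mem_R c _ hu hv
        by_cases hun : Un (M.O c ψ) ((u ^ m : Ωˣ) : Ω)
        · -- the value `e` of `u` is not zero
          set e := φ ⟨(u : Ω), huR⟩ with he
          have e1 : ψ ⟨((u ^ m : Ωˣ) : Ω), haR⟩ = e ^ m := by
            rw [h4, he, ← map_pow]
            rfl
          have e0 : e ^ m ≠ 0 := by
            rw [← e1]
            exact (un_loc ψ ⟨_, haR⟩).1 hun
          have e0' : e ≠ 0 := fun h0 => e0 (by rw [h0, zero_pow hm])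
          let g : (M.kum m).R c := ∑ i ∈ Finset.range m,
            ⟨(u : Ω), huR⟩ ^ i * (algebraMap k _ e) ^ (m - 1 - i)
          have hg : φ g = m * e ^ (m - 1) := by
            show φ (∑ i ∈ Finset.range m, _) = _
            rw [map_sum]
            have e2 : ∀ i ∈ Finset.range m, φ (⟨(u : Ω), huR⟩ ^ i *
                (algebraMap k ((M.kum m).R c) e) ^ (m - 1 - i)) = e ^ (m - 1) := by
              intro i hi
              rw [map_mul, map_pow, map_pow, AlgHom.commutes, ← he]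
              rw [Algebra.algebraMap_self_apply, ← pow_add]
              congr 1
              have := Finset.mem_range.1 hi
              omega
            rw [Finset.sum_congr rfl e2, Finset.sum_const, Finset.card_range, nsmul_eq_mul]
          have hgu : Un O' (g : Ω) := by
            refine (un_loc φ g).2 ?_
            rw [hg]
            exact mul_ne_zero (Nat.cast_ne_zero.2 hm) (pow_ne_zero _ e0')
          have hgv : (g : Ω) = ∑ i ∈ Finset.range m,
              (u : Ω) ^ i * (algebraMap k Ω e) ^ (m - 1 - i) := by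
            show ((∑ i ∈ Finset.range m, _ : (M.kum m).R c) : Ω) = _
            rw [AddSubmonoidClass.coe_finsetSum]
            rfl
          have hfac : (g : Ω) * ((u : Ω) - algebraMap k Ω e) =
              (u : Ω) ^ m - (algebraMap k Ω e) ^ m := by
            rw [hgv]
            exact Commute.geom_sum₂_mul (Commute.all _ _) m
          have hid : kid O' z' ((u : Ω) ^ m - (algebraMap k Ω e) ^ m) := by
            let b : M.R c := ⟨((u ^ m : Ωˣ) : Ω), haR⟩ - algebraMap k _ (e ^ m)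
            have e2 : ψ b = 0 := by
              show ψ (⟨((u ^ m : Ωˣ) : Ω), haR⟩ - algebraMap k _ (e ^ m)) = 0
              rw [map_sub, AlgHom.commutes, e1]
              exact sub_self _
            have e3 : (b : Ω) = (u : Ω) ^ m - (algebraMap k Ω e) ^ m := by
              rw [← map_pow, ← Units.val_pow_eq_pow_val]
              rfl
            rw [← e3]
            exact hkψ (b : Ω) (le_loc ψ b.2) fun hn => (un_loc ψ b).1 hn e2
          have hfin : (u : Ω) - algebraMap k Ω e =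
              (g : Ω)⁻¹ * ((u : Ω) ^ m - (algebraMap k Ω e) ^ m) := by
            rw [← hfac, ← mul_assoc, inv_mul_cancel₀ hgu.1, one_mul]
          rw [hfin]
          exact hid.mul hgu.2.2
        · -- a divisor of `u`
          obtain ⟨j, hj, hj0⟩ : ∃ j, M.At c ψ j ∧ M.v j (u ^ m) ≠ 0 := by
            by_contra hcon
            push Not at hcon
            exact hun (h.un_O c ψ _ hu hcon)
          have hj1 : 1 ≤ M.v j (u ^ m) := by
            have := hv j hj.1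
            omega
          obtain ⟨i, hi⟩ := hz3 j hj
          -- the parameter is the root of `x c j`
          have hi' : z' i = ((rt m (M.x c j) : Ωˣ) : Ω) := hzi j i hj hi
          have hw : ((u * (rt m (M.x c j))⁻¹ : Ωˣ) : Ω) ∈ (M.kum m).R c := by
            have hpw : (u * (rt m (M.x c j))⁻¹) ^ m = u ^ m * (M.x c j)⁻¹ := by
              rw [mul_pow, inv_pow, rt_pow hm]
            refine kumB_root (M := M) c _ ?_ fun i hi => ?_
            · rw [hpw]
              exact mul_mem hu (inv_mem (h.x_Ψ c j hj.1))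
            · rw [hpw, h.v_mul i _ hu _ (inv_mem (h.x_Ψ c j hj.1)),
                h.v_inv i _ (h.x_Ψ c j hj.1)]
              by_cases hij : i = j
              · rw [hij, h.v_x c j hj.1]
                omega
              · rw [h.v_x' c i hi j hj.1 hij]
                have := hv i hi
                omega
          have hue : (u : Ω) = ((u * (rt m (M.x c j))⁻¹ : Ωˣ) : Ω) * z' i := by
            rw [hi', ← Units.val_mul, inv_mul_cancel_right]
          have hφ0 : φ ⟨(u : Ω), huR⟩ = 0 := by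
            by_contra h0
            have h5 : Un O' (u : Ω) := (un_loc φ ⟨(u : Ω), huR⟩).2 h0
            have h6 : Un O' ((u ^ m : Ωˣ) : Ω) := by
              rw [Units.val_pow_eq_pow_val]
              exact h5.pow m
            exact hun ((h2 _ (le_loc ψ haR)).2 h6)
          rw [hφ0, map_zero, sub_zero, hue]
          exact (kid.gen i).mul (le_loc φ hw)
    intro r
    obtain ⟨_, h5⟩ := hA r.2
    exact h5
  refine ⟨z', par_of_loc φ (fun i => ?_) (fun r hr => ?_), fun j hj => ?_⟩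
  · rcases hzj i with ⟨j, hj, hij, hij'⟩ | ⟨-, hi⟩
    · rw [hij']
      exact ⟨le_loc φ (kumB_x (M := M) hm h c j hj.1), ((h3 j).1 hj).2⟩
    · rw [hi]
      exact ⟨h1 (hz1 i).1, fun hn => (hz1 i).2 ((h2 _ (hz1 i).1).2 hn)⟩
  · have h5 := key r
    rw [hr, map_zero, sub_zero] at h5
    exact h5
  · have hj' := (h3 j).2 hj
    obtain ⟨i, hi⟩ := hz3 j hj'
    exact ⟨i, hzi j i hj' hi⟩

theorem kum_deep [IsAlgClosed k] [IsAlgClosed Ω] (hm : m ≠ 0) (h : M.OkV)
    (hd : ∀ c, ∃ φ : M.R c →ₐ[k] k, ∀ j ∈ M.S c, M.At c φ j) (c : (M.kum m).ι) :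
    ∃ φ : (M.kum m).R c →ₐ[k] k, ∀ j ∈ (M.kum m).S c, (M.kum m).At c φ j := by
  obtain ⟨φ, hφ⟩ := hd c
  obtain ⟨φ', hφ'⟩ := exists_lift (kum_le (M := M) (m := m) c)
    (fun a ha => kum_int (M := M) hm h c a ha) φ
  refine ⟨φ', fun j hj => ⟨hj, fun hn => ?_⟩⟩
  have hj' : j ∈ M.S c := hj
  have h0 : Un ((M.kum m).O c φ') ((rt m (M.x c j) : Ωˣ) : Ω) := hn
  have h1 : Un ((M.kum m).O c φ') (M.x c j : Ω) := by
    have h2 := h0.pow m
    rwa [← Units.val_pow_eq_pow_val, rt_pow hm] at h2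
  have hR := h.x_R c j hj'
  have h2 := (un_loc φ' ⟨(M.x c j : Ω), kum_le (M := M) c hR⟩).1 h1
  rw [← hφ' _ hR] at h2
  exact (hφ j hj').2 ((un_loc φ ⟨(M.x c j : Ω), hR⟩).2 h2)

end Mdl

end Pool.Agent.KMR
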