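import Pool.Agent.Lib.MP_732f67_ag.R.Psi

/-!
Elements of `Ψ` on the overlap of two charts.
-/

namespace Pool.Agent.KMR

variable {k Ω : Type} [Field k] [Field Ω] [Algebra k Ω]

namespace Mdl

variable {G : Subgroup (Ω ≃ₐ[k] Ω)} {M : Mdl k Ω G} {n : ℕ}

/-- products of an element regular on the overlap with high powers of `s c' / s c`, uniformly -/
theorem loc_mono (hs : M.OkS) (c c' : M.ι) (a : Ω) (N N' : ℕ) (hN : N ≤ N')
    (h : a * (M.s c' / M.s c : Ω) ^ N ∈ M.R c) : a * (M.s c' / M.s c : Ω) ^ N' ∈ M.R c := by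
  obtain ⟨d, rfl⟩ := Nat.exists_eq_add_of_le hN
  rw [pow_add, ← mul_assoc]
  exact (M.R c).mul_mem h ((M.R c).pow_mem (hs.s_mem c c') d)

theorem loc_mul (c c' : M.ι) (a b : Ω)
    (ha : ∃ N : ℕ, a * (M.s c' / M.s c : Ω) ^ N ∈ M.R c)
    (hb : ∃ N : ℕ, b * (M.s c' / M.s c : Ω) ^ N ∈ M.R c) :
    ∃ N : ℕ, a * b * (M.s c' / M.s c : Ω) ^ N ∈ M.R c := by
  obtain ⟨N, hN⟩ := ha
  obtain ⟨N', hN'⟩ := hb
  refine ⟨N + N', ?_⟩
  have h1 : a * b * (M.s c' / M.s c : Ω) ^ (N + N') =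
      (a * (M.s c' / M.s c : Ω) ^ N) * (b * (M.s c' / M.s c : Ω) ^ N') := by
    rw [pow_add]
    ring
  rw [h1]
  exact (M.R c).mul_mem hN hN'

theorem loc_prod (c c' : M.ι) {κ : Type*} (T : Finset κ) (f : κ → Ω)
    (hf : ∀ i ∈ T, ∃ N : ℕ, f i * (M.s c' / M.s c : Ω) ^ N ∈ M.R c) :
    ∃ N : ℕ, (∏ i ∈ T, f i) * (M.s c' / M.s c : Ω) ^ N ∈ M.R c := by
  refine Finset.prod_induction f
    (fun a => ∃ N : ℕ, a * (M.s c' / M.s c : Ω) ^ N ∈ M.R c)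
    (fun a b ha hb => loc_mul c c' a b ha hb) ⟨0, ?_⟩ hf
  rw [pow_zero, mul_one]
  exact (M.R c).one_mem

theorem loc_pow (c c' : M.ι) (a : Ω)
    (ha : ∃ N : ℕ, a * (M.s c' / M.s c : Ω) ^ N ∈ M.R c) (d : ℕ) :
    ∃ N : ℕ, a ^ d * (M.s c' / M.s c : Ω) ^ N ∈ M.R c := by
  obtain ⟨N, hN⟩ := ha
  refine ⟨N * d, ?_⟩
  rw [pow_mul, ← mul_pow]
  exact (M.R c).pow_mem hN d

/-- an element of `Ψ` of order `≥ 0` along the labels common to `c` and `c'` is regular on the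
overlap of the charts.
PROOF. `a = e * ∏ j ∈ S c, x c j ^ v j a`; for `j ∈ S c`, `j ∉ S c'` use `s_x`. -/
theorem psi_loc (h : M.OkV) (hs : M.OkS) (c c' : M.ι) (a : Ωˣ) (ha : a ∈ M.Ψ)
    (hv : ∀ j ∈ M.S c, j ∈ M.S c' → 0 ≤ M.v j a) :
    ∃ N : ℕ, (a : Ω) * (M.s c' / M.s c : Ω) ^ N ∈ M.R c := by
  obtain ⟨e, -, hu, hea⟩ := h.eq_monomial c a ha
  have h1 : (a : Ω) = (e : Ω) * ∏ j ∈ M.S c, (M.x c j : Ω) ^ M.v j a := by
    conv_lhs => rw [hea]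
    rw [Units.val_mul, Units.coe_prod]
    congr 1
    exact Finset.prod_congr rfl fun j _ => Units.val_zpow_eq_zpow_val _ _
  rw [h1]
  refine loc_mul c c' _ _ ⟨0, ?_⟩ (loc_prod c c' _ _ fun j hj => ?_)
  · rw [pow_zero, mul_one]
    exact hu.2.1
  · by_cases h0 : 0 ≤ M.v j a
    · refine ⟨0, ?_⟩
      rw [pow_zero, mul_one]
      obtain ⟨m, hm⟩ := Int.eq_ofNat_of_zero_le h0
      rw [hm, zpow_natCast]
      exact (M.R c).pow_mem (h.x_R c j hj) m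
    · have hj' : j ∉ M.S c' := fun hj' => h0 (hv j hj hj')
      obtain ⟨m, hm⟩ := Int.eq_ofNat_of_zero_le (show 0 ≤ -M.v j a by omega)
      have hm' : M.v j a = -(m : ℤ) := by omega
      rw [hm', zpow_neg, zpow_natCast, ← inv_pow]
      refine loc_pow c c' _ ?_ m
      obtain ⟨N, hN⟩ := hs.s_x c c' j hj hj'
      refine ⟨N, ?_⟩
      rwa [mul_comm, ← div_eq_mul_inv]

/-- an element of `R c'` times an element of `Ψ` regular on the overlap -/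
theorem mul_loc (h : M.OkV) (hs : M.OkS) (c c' : M.ι) (a : Ωˣ) (ha : a ∈ M.Ψ)
    (hv : ∀ j ∈ M.S c, j ∈ M.S c' → 0 ≤ M.v j a) (b : Ω) (hb : b ∈ M.R c') :
    ∃ N : ℕ, ∀ N' ≥ N, b * a * (M.s c' / M.s c : Ω) ^ N' ∈ M.R c := by
  obtain ⟨N, hN⟩ := loc_mul c c' b a (hs.s_loc c' c b hb) (psi_loc h hs c c' a ha hv)
  exact ⟨N, fun N' hN' => loc_mono hs c c' _ N N' hN' hN⟩

/-- the elements `s c / m c` are units, so `m c' / m c` and `s c' / s c` agree up to units on the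
overlap -/
theorem m_loc (h : M.OkV) (hs : M.OkS) (c c' : M.ι) :
    ∃ N : ℕ, (M.m c / M.m c' : Ω) * (M.s c' / M.s c : Ω) ^ N ∈ M.R c := by
  have h1 := psi_loc h hs c c' (M.m c * (M.m c')⁻¹)
    (M.Ψ.mul_mem (hs.m_Ψ c) (M.Ψ.inv_mem (hs.m_Ψ c'))) (fun j hj hj' => by
      rw [h.v_mul j _ (hs.m_Ψ c) _ (M.Ψ.inv_mem (hs.m_Ψ c')), h.v_inv j _ (hs.m_Ψ c'),
        hs.m_v c j hj, hs.m_v c' j hj', neg_neg, neg_add_cancel])
  rwa [Units.val_mul, Units.val_inv_eq_inv_val, ← div_eq_mul_inv] at h1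

/-- at a point where `s c' / s c` is a unit: the corresponding point of the chart `c'` -/
theorem exists_pt' (hs : M.OkS) (c c' : M.ι) (φ : M.R c →ₐ[k] k)
    (hu : Un (M.O c φ) (M.s c' / M.s c : Ω)) :
    ∃ φ' : M.R c' →ₐ[k] k, M.O c' φ' = M.O c φ := by
  have hO : IsPt (M.O c φ) := isPt_loc φ
  have hu' : Un (M.O c φ) (M.s c / M.s c' : Ω) := by
    have := hu.inv
    rwa [inv_div] at this
  have hle : M.R c' ≤ M.O c φ := by
    intro b hb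
    obtain ⟨N, hN⟩ := hs.s_loc c' c b hb
    have h1 : b = b * (M.s c' / M.s c : Ω) ^ N * ((M.s c' / M.s c : Ω) ^ N)⁻¹ := by
      rw [mul_assoc, mul_inv_cancel₀ (pow_ne_zero _ hu.1), mul_one]
    rw [h1]
    exact (M.O c φ).mul_mem (le_loc φ hN) (hu.pow N).2.2
  obtain ⟨φ', -, h1⟩ := hO.exists_eq_loc (M.R c') hle (by
    rintro _ ⟨b, d, hd, rfl⟩
    obtain ⟨N, hN⟩ := hs.s_loc c c' b b.2
    obtain ⟨N', hN'⟩ := hs.s_loc c c' d d.2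
    have hb : (b : Ω) * (M.s c / M.s c' : Ω) ^ (N + N') ∈ M.R c' :=
      loc_mono hs c' c b N (N + N') (by omega) hN
    have hd' : (d : Ω) * (M.s c / M.s c' : Ω) ^ (N + N') ∈ M.R c' :=
      loc_mono hs c' c d N' (N + N') (by omega) hN'
    refine ⟨_, hb, _, hd', ((un_loc φ d).2 hd).mul (hu'.pow _), ?_⟩
    rw [mul_div_mul_right _ _ (pow_ne_zero _ hu'.1)])
  exact ⟨φ', h1⟩

end Mdl

end Pool.Agent.KMR
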