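import Pool.Agent.Lib.MP_732f67_ag.R.KumA
import Pool.Agent.Lib.MP_732f67_ag.R.KumB
import Pool.Agent.Lib.MP_732f67_ag.R.PsiS

/-!
Adjoining the `m`-th roots: projectivity, equivariance.
-/

namespace Pool.Agent.KMR

variable {k Ω : Type} [Field k] [Field Ω] [Algebra k Ω]

namespace Mdl

variable {G : Subgroup (Ω ≃ₐ[k] Ω)} {M : Mdl k Ω G} {n : ℕ} {m : ℕ}

/-- `psi_loc` from the condition `s_x` only -/
theorem kumC_psi_loc (h : M.OkV) (c c' : M.ι)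
    (hs : ∀ j ∈ M.S c, j ∉ M.S c' → ∃ N : ℕ, (M.s c' / M.s c : Ω) ^ N / M.x c j ∈ M.R c)
    (a : Ωˣ) (ha : a ∈ M.Ψ) (hv : ∀ j ∈ M.S c, j ∈ M.S c' → 0 ≤ M.v j a) :
    ∃ N : ℕ, (a : Ω) * (M.s c' / M.s c : Ω) ^ N ∈ M.R c := by
  obtain ⟨e, -, hu, hea⟩ := h.eq_monomial c a ha
  have h1 : (a : Ω) = (e : Ω) * ∏ j ∈ M.S c, (M.x c j : Ω) ^ M.v j a := by
    conv_lhs => rw [hea]
    rw [Units.val_mul, Units.coe_prod]
    congr 1
    exact Finset.prod_congr rfl fun j _ => Units.val_zpow_eq_zpow_val _ _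
  rw [h1]
  refine loc_mul c c' _ _ ⟨0, ?_⟩ (loc_prod c c' _ _ fun j hj => ?_)
  · rw [pow_zero, mul_one]
    exact hu.2.1
  · by_cases h0 : 0 ≤ M.v j a
    · refine ⟨0, ?_⟩
      rw [pow_zero, mul_one]
      obtain ⟨m, hm⟩ := Int.eq_ofNat_of_zero_le h0
      rw [hm, zpow_natCast]
      exact (M.R c).pow_mem (h.x_R c j hj) m
    · have hj' : j ∉ M.S c' := fun hj' => h0 (hv j hj hj')
      obtain ⟨m, hm⟩ := Int.eq_ofNat_of_zero_le (show 0 ≤ -M.v j a by omega)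
      have hm' : M.v j a = -(m : ℤ) := by omega
      rw [hm', zpow_neg, zpow_natCast, ← inv_pow]
      refine loc_pow c c' _ ?_ m
      obtain ⟨N, hN⟩ := hs j hj hj'
      refine ⟨N, ?_⟩
      rwa [mul_comm, ← div_eq_mul_inv]

theorem kumC_x [IsAlgClosed Ω] (hm : m ≠ 0) (c : M.ι) (j : M.J) :
    ((M.kum m).x c j : Ω) ^ m = M.x c j := by
  have h1 : (M.kum m).x c j ^ m = M.x c j := rt_pow hm (M.x c j)
  rw [← h1, Units.val_pow_eq_pow_val]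

theorem kumC_sx [IsAlgClosed Ω] (hm : m ≠ 0) (hv : M.OkV) (h : M.OkS) (c c' : M.ι) (j : M.J)
    (hj : j ∈ M.S c) (hj' : j ∉ M.S c') :
    ∃ N : ℕ, (M.s c' / M.s c : Ω) ^ N / (M.kum m).x c j ∈ (M.kum m).R c := by
  obtain ⟨N, hN⟩ := h.s_x c c' j hj hj'
  refine ⟨N, ?_⟩
  have h0 : ((M.kum m).x c j : Ω) ≠ 0 := ((M.kum m).x c j).ne_zero
  have h1 : (M.s c' / M.s c : Ω) ^ N / (M.kum m).x c j =
      (M.s c' / M.s c : Ω) ^ N / M.x c j * ((M.kum m).x c j : Ω) ^ (m - 1) := by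
    rw [← kumC_x hm c j]
    obtain ⟨l, rfl⟩ := Nat.exists_eq_succ_of_ne_zero hm
    rw [Nat.succ_sub_one, pow_succ]
    field_simp
  rw [h1]
  exact mul_mem (kum_le (M := M) (m := m) c hN) (pow_mem ((kum_okV hm hv).x_R c j hj) _)

theorem kum_okS [IsAlgClosed Ω] (hm : m ≠ 0) (hv : M.OkV) (h : M.OkS) : (M.kum m).OkS := by
  have hV : (M.kum m).OkV := kum_okV hm hv
  constructor
  · intro c c'
    exact kum_le (M := M) (m := m) c (h.s_mem c c')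
  · intro c c' a ha
    -- the elements with the property form a subalgebra
    let A : Subalgebra k Ω :=
      { carrier := {a | ∃ N : ℕ, a * (M.s c / M.s c' : Ω) ^ N ∈ (M.kum m).R c'}
        mul_mem' := fun {a b} h1 h2 => loc_mul (M := M.kum m) c' c a b h1 h2
        add_mem' := by
          rintro a b ⟨N, hN⟩ ⟨N', hN'⟩
          have h1 : (M.s c / M.s c' : Ω) ∈ (M.kum m).R c' :=
            kum_le (M := M) (m := m) c' (h.s_mem c' c)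
          refine ⟨N + N', ?_⟩
          have h2 : (a + b) * (M.s c / M.s c' : Ω) ^ (N + N') =
              a * (M.s c / M.s c' : Ω) ^ N * (M.s c / M.s c' : Ω) ^ N' +
                b * (M.s c / M.s c' : Ω) ^ N' * (M.s c / M.s c' : Ω) ^ N := by
            rw [pow_add]
            ring
          rw [h2]
          exact add_mem (mul_mem hN (pow_mem h1 _)) (mul_mem hN' (pow_mem h1 _))
        algebraMap_mem' := fun r => ⟨0, by
          rw [pow_zero, mul_one]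
          exact ((M.kum m).R c').algebraMap_mem r⟩ }
    have h1 : (M.kum m).R c ≤ A := by
      refine sup_le ?_ (Algebra.adjoin_le ?_)
      · intro b hb
        obtain ⟨N, hN⟩ := h.s_loc c c' b hb
        exact ⟨N, kum_le (M := M) (m := m) c' hN⟩
      · rintro _ ⟨u, hu, hu0, rfl⟩
        refine kumC_psi_loc hV c' c (fun j hj hj' => kumC_sx hm hv h c' c j hj hj') u hu ?_
        intro j _ hj
        exact hu0 j hj
    exact h1 ha
  · intro c c' j hj hj'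
    exact kumC_sx hm hv h c c' j hj hj'
  · intro c
    exact pow_mem (h.m_Ψ c) m
  · intro c
    exact (h.m_s c).mono (kum_le (M := M) (m := m) c)
  · intro c j hj
    show M.v j (M.m c ^ m) = -((m : ℤ) * M.h j)
    rw [← zpow_natCast, hv.v_zpow j _ (h.m_Ψ c), h.m_v c j hj]
    ring

theorem kum_eqJ (hv : M.OkV) (h : M.EqJ) : (M.kum m).EqJ := by
  constructor
  · intro g a ha
    have h1 : a ^ m ∈ M.Ψ := ha
    show ga (g : Ω ≃ₐ[k] Ω) a ^ m ∈ M.Ψ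
    rw [← map_pow]
    exact h.Ψ_g g _ h1
  · intro g a ha j
    have h1 : a ^ m ∈ M.Ψ := ha
    show M.v (M.π g j) (ga (g : Ω ≃ₐ[k] Ω) a ^ m) = M.v j (a ^ m)
    rw [← map_pow]
    exact h.v_g g _ h1 j
  · exact h.strict

/-- PROOF. `g O'` contains `g O c φ = O c₁ φ₁`, hence the elements of `Ψ'` of order `≥ 0` along
`S c₁`: such an element `u` is a unit times a monomial in the roots, and `g⁻¹ u ∈ O'` by
`mem_O` for `kum`. So `R' c₁ ≤ g O'`; take the point under `g O'`. -/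
theorem kum_eqH [IsAlgClosed k] [IsAlgClosed Ω] [CharZero k] (hm : m ≠ 0) (h : M.Good n) :
    (M.kum m).EqH := by
  intro g c φ
  have hV : (M.kum m).OkV := kum_okV hm h.toOkV
  obtain ⟨ψ, hle, hun, hat⟩ := kum_pt hm h.toOkV c φ
  obtain ⟨c₁, ψ₁, h1, h2⟩ := h.eqP g c ψ
  -- the image of the local ring
  let O' : Subalgebra k Ω := ((M.kum m).O c φ).comap ((g : Ω ≃ₐ[k] Ω).symm : Ω →ₐ[k] Ω)
  have hO' : ∀ a : Ω, a ∈ O' ↔ (g : Ω ≃ₐ[k] Ω).symm a ∈ (M.kum m).O c φ := fun a => Iff.rfl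
  have hU' : ∀ a : Ω, Un O' a ↔ Un ((M.kum m).O c φ) ((g : Ω ≃ₐ[k] Ω).symm a) := by
    intro a
    unfold Un
    rw [hO', hO', map_inv₀]
    refine and_congr ?_ Iff.rfl
    exact (map_ne_zero_iff _ (AlgEquiv.injective _)).symm
  have hpt : IsPt O' := by
    let f : O' →ₐ[k] (M.kum m).O c φ :=
      (((g : Ω ≃ₐ[k] Ω).symm : Ω →ₐ[k] Ω).comp O'.val).codRestrict _ fun a => a.2
    refine ⟨(locRes _ φ).comp f, fun a => ?_⟩
    rw [hU']
    exact locRes_ne φ (f a)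
  have hR : (M.kum m).R c₁ ≤ O' := by
    refine sup_le ?_ (Algebra.adjoin_le ?_)
    · intro a ha
      rw [hO']
      refine hle ((h1 _).2 ?_)
      rw [AlgEquiv.apply_symm_apply]
      exact le_loc ψ₁ ha
    · rintro _ ⟨u, hu, hu0, rfl⟩
      show (u : Ω) ∈ O'
      rw [hO']
      have hg : ∀ b : Ωˣ, ga (g : Ω ≃ₐ[k] Ω) (ga (g⁻¹ : Ω ≃ₐ[k] Ω) b) = b := fun b =>
        Units.ext (AlgEquiv.apply_symm_apply (g : Ω ≃ₐ[k] Ω) (b : Ω))
      have hgu : ga ((g⁻¹ : G) : Ω ≃ₐ[k] Ω) (u ^ m) ∈ M.Ψ := h.Ψ_g g⁻¹ _ hu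
      have hgu' : ga ((g⁻¹ : G) : Ω ≃ₐ[k] Ω) u ∈ (M.kum m).Ψ := by
        show ga ((g⁻¹ : G) : Ω ≃ₐ[k] Ω) u ^ m ∈ M.Ψ
        rw [← map_pow]
        exact hgu
      refine hV.mem_O c φ (ga ((g⁻¹ : G) : Ω ≃ₐ[k] Ω) u) hgu' fun j hj => ?_
      show 0 ≤ M.v j (ga ((g⁻¹ : G) : Ω ≃ₐ[k] Ω) u ^ m)
      rw [← map_pow, ← h.v_g g _ hgu j]
      have h3 : ga (g : Ω ≃ₐ[k] Ω) (ga ((g⁻¹ : G) : Ω ≃ₐ[k] Ω) (u ^ m)) = u ^ m := hg _
      rw [h3]
      exact hu0 _ ((h2 j).1 ((hat j).2 hj)).1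
  obtain ⟨φ', h3, h4⟩ := hpt.exists_loc _ hR
  refine ⟨c₁, φ', fun a ha => h4 ha, fun j hj => ?_⟩
  have hj1 : M.At c₁ ψ₁ (M.π g j) := (h2 j).1 ((hat j).2 hj)
  refine ⟨hj1.1, fun hu => hj1.2 ?_⟩
  have h5 : Un O' ((M.kum m).x c₁ (M.π g j) : Ω) := hu.mono h4
  have h6 := h5.pow m
  rw [kumC_x hm, hU'] at h6
  have h7 : (g : Ω ≃ₐ[k] Ω).symm (M.x c₁ (M.π g j) : Ω) ∈ M.O c ψ := by
    refine (h1 _).2 ?_
    rw [AlgEquiv.apply_symm_apply]
    exact le_loc ψ₁ (h.x_R c₁ _ hj1.1)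
  have h8 := (hun _ h7).2 h6
  refine ⟨(M.x c₁ (M.π g j)).ne_zero, ?_, ?_⟩
  · have h9 := (h1 _).1 h8.2.1
    rwa [AlgEquiv.apply_symm_apply] at h9
  · have h9 := (h1 _).1 h8.2.2
    rwa [map_inv₀, AlgEquiv.apply_symm_apply] at h9

theorem kumC_eqF (h : M.EqJ) (hF : M.EqF) : (M.kum m).EqF := by
  intro g a ha
  have h1 : (M.kum m).F ≤ ((M.kum m).F).comap ((g : Ω ≃ₐ[k] Ω) : Ω →ₐ[k] Ω) := by
    refine IntermediateField.adjoin_le_iff.2 ?_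
    rintro b (hb | ⟨u, hu, rfl⟩)
    · exact IntermediateField.subset_adjoin k _ (Or.inl (hF g b hb))
    · refine IntermediateField.subset_adjoin k _ (Or.inr ⟨ga (g : Ω ≃ₐ[k] Ω) u, ?_, rfl⟩)
      rw [← map_pow]
      exact h.Ψ_g g _ hu
  exact h1 ha

theorem kum_good [IsAlgClosed k] [IsAlgClosed Ω] [CharZero k] (hm : m ≠ 0) (h : M.Good n) :
    (M.kum m).Good n := by
  have h0 : (M.kum m).Ok0 n := ⟨kum_okR hm h.toOkR h.toOkV, kum_okV hm h.toOkV,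
    kum_okP hm h.toOkV h.toOkP, kum_okS hm h.toOkV h.toOkS⟩
  exact ⟨⟨h0, kum_deep hm h.toOkV h.deep⟩, kum_eqJ h.toOkV h.toEqJ, h0.eqP (kum_eqH hm h),
    kumC_eqF h.toEqJ h.eqF⟩

end Mdl

end Pool.Agent.KMR
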