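import Pool.Agent.Lib.MP_732f67_ag.R.AbhO
import Pool.Agent.Lib.MP_732f67_ag.R.KumC
import Pool.Agent.Lib.MP_732f67_ag.R.Cov

/-!
Prime divisors of the model with the roots.
-/

namespace Pool.Agent.KMR

variable {k Ω : Type} [Field k] [Field Ω] [Algebra k Ω]

/-- factorisation in a discrete valuation ring -/
theorem kumP_factor {V : Subalgebra k Ω} {π : Ω} (hV : Dv V π) {a : Ω} (ha : a ∈ V)
    (ha0 : a ≠ 0) : ∃ e : ℕ, Un V (a / π ^ e) := by
  classical
  obtain ⟨e, he⟩ : ∃ e, a / π ^ (e + 1) ∉ V ∧ a / π ^ e ∈ V := by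
    have hex : ∃ N : ℕ, a / π ^ N ∉ V := hV.fin a ha ha0
    have h0 : Nat.find hex ≠ 0 := by
      intro h0
      have h1 := Nat.find_spec hex
      rw [h0, pow_zero, div_one] at h1
      exact h1 ha
    obtain ⟨e, he⟩ := Nat.exists_eq_succ_of_ne_zero h0
    refine ⟨e, ?_, ?_⟩
    · have h1 := Nat.find_spec hex
      rw [he] at h1
      exact h1
    · have h1 := Nat.find_min hex (m := e) (by omega)
      exact not_not.1 h1
  refine ⟨e, div_ne_zero ha0 (pow_ne_zero _ hV.ne), he.2, ?_⟩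
  by_contra hc
  apply he.1
  have h1 := hV.dvd _ he.2 hc
  rw [div_div, ← pow_succ] at h1
  exact h1

/-- a prime divisor has height one -/
theorem kumP_le {R : Subalgebra k Ω} (hR : IsNoetherianRing R) {P : Ideal R} (hP : PrD R P)
    {Q : Ideal R} (hQ : Q.IsPrime) (hQP : Q ≤ P) {x : R} (hx : x ∈ Q) (hx0 : (x : Ω) ≠ 0) :
    P ≤ Q := by
  obtain ⟨π, hπ, hπ0, hgen⟩ := hP.gen
  have hV := hP.dv hR π hπ hπ0 hgen
  obtain ⟨e, hu⟩ := kumP_factor hV (le_locI hP.prime x.2) hx0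
  obtain ⟨b, c, hc, hbc⟩ := hu.2.1
  have hc0 : (c : Ω) ≠ 0 := locI_ne hc
  have hcu := (un_locI hP.prime c).2 hc
  have hb : b ∉ P := by
    rw [← un_locI hP.prime b]
    have h1 : (b : Ω) = (x : Ω) / (π : Ω) ^ e * c := by
      rw [hbc, div_mul_cancel₀ _ hc0]
    rw [h1]
    exact hu.mul hcu
  have h1 : π ^ e * b = x * c := by
    apply Subtype.ext
    rw [MulMemClass.coe_mul, MulMemClass.coe_mul, SubmonoidClass.coe_pow]
    have h2 := hbc
    have h3 : (π : Ω) ^ e ≠ 0 := pow_ne_zero _ hπ0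
    rw [div_eq_div_iff h3 hc0] at h2
    rw [h2, mul_comm]
  have h2 : π ^ e * b ∈ Q := by
    rw [h1]
    exact Q.mul_mem_right _ hx
  have h3 : π ∈ Q := by
    rcases hQ.mem_or_mem h2 with h3 | h3
    · exact hQ.mem_of_pow_mem e h3
    · exact absurd (hQP h3) hb
  intro a ha
  obtain ⟨p, q, hq, hpq⟩ := hgen a ha
  have h4 : a * q = π * p := by
    apply Subtype.ext
    rw [MulMemClass.coe_mul, MulMemClass.coe_mul]
    rw [div_eq_div_iff hπ0 (locI_ne hq)] at hpq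
    rw [hpq, mul_comm]
  have h5 : a * q ∈ Q := by
    rw [h4]
    exact Q.mul_mem_right _ h3
  rcases hQ.mem_or_mem h5 with h6 | h6
  · exact h6
  · exact absurd (hQP h6) hq

/-- the rings of a model are integrally closed -/
theorem kumP_closed {R : Subalgebra k Ω} {F : IntermediateField k Ω} (hn : Nrm R)
    (hF : Frc R F) : IsIntegrallyClosed R := by
  letI a1 : Algebra R F := (iclMap R F hF.le).toAlgebra
  haveI : IsFractionRing R F := icl_frac_inst hF
  rw [isIntegrallyClosed_iff F]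
  intro x hx
  obtain ⟨b, hb, d, hd, hd0, hbd⟩ := hF.frac x x.2
  haveI : IsScalarTower R F Ω := IsScalarTower.of_algebraMap_eq fun _ => rfl
  have h1 : IsIntegral R (x : Ω) := by
    have h2 := hx.map (IsScalarTower.toAlgHom R F Ω)
    exact h2
  rw [hbd] at h1
  have h3 := hn b hb d hd hd0 h1
  rw [← hbd] at h3
  exact ⟨⟨x, h3⟩, Subtype.ext rfl⟩

namespace Mdl

variable {G : Subgroup (Ω ≃ₐ[k] Ω)} {M : Mdl k Ω G} {n : ℕ} {m : ℕ}

/-- the prime ideal of a label, near a point -/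
theorem kumP_Q [IsAlgClosed k] [CharZero k] (h : M.Ok0 n) (c : M.ι) (φ : M.R c →ₐ[k] k)
    (j : M.J) (hj : M.At c φ j) (x : M.R c) (hx : (x : Ω) = M.x c j) :
    ∃ Q : Ideal (M.R c), Q.IsPrime ∧ ∀ a, a ∈ Q ↔ (a / x : Ω) ∈ M.O c φ := by
  obtain ⟨z, hz, hr, hzx⟩ := h.exists_reg c φ
  obtain ⟨i, hi⟩ := hzx j hj
  have hxz : (x : Ω) = z i := by rw [hx, hi]
  let Q : Ideal (M.R c) :=
    { carrier := {a | (a / x : Ω) ∈ M.O c φ}
      add_mem' := by
        intro a b ha hb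
        show ((a + b : M.R c) / x : Ω) ∈ M.O c φ
        rw [AddMemClass.coe_add, add_div]
        exact add_mem ha hb
      zero_mem' := by
        show ((0 : M.R c) / x : Ω) ∈ M.O c φ
        rw [ZeroMemClass.coe_zero, zero_div]
        exact zero_mem _
      smul_mem' := by
        intro a b hb
        show ((a * b : M.R c) / x : Ω) ∈ M.O c φ
        rw [MulMemClass.coe_mul, mul_div_assoc]
        exact mul_mem (le_loc φ a.2) hb }
  have hQ : ∀ a, a ∈ Q ↔ (a / x : Ω) ∈ M.O c φ := fun a => Iff.rfl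
  refine ⟨Q, ⟨?_, ?_⟩, hQ⟩
  · rw [Ne, Ideal.eq_top_iff_one, hQ, OneMemClass.coe_one, one_div]
    intro h1
    apply hj.2
    rw [← hx]
    refine ⟨?_, le_loc φ x.2, h1⟩
    rw [hx]
    exact Units.ne_zero _
  · intro a b hab
    rw [hQ, MulMemClass.coe_mul, hxz] at hab
    rw [hQ, hQ, hxz]
    exact hr.prime i a (le_loc φ a.2) b (le_loc φ b.2) hab

/-- a point of a prime ideal containing the equation of the label -/
theorem kumP_pt [IsAlgClosed k] [CharZero k] (h : M.Ok0 n) (c : M.ι) {P : Ideal (M.R c)}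
    (hP : P.IsPrime) (j : M.J) (hj : j ∈ M.S c) (x : M.R c) (hx : (x : Ω) = M.x c j)
    (hxP : x ∈ P) : ∃ Q : Ideal (M.R c), Q.IsPrime ∧ x ∈ Q ∧ Q ≤ P ∧
      ∀ a ∈ Q, (a / x : Ω) ∈ LocI (M.R c) P hP := by
  obtain ⟨φ, hφ⟩ := PrD.exists_pt (h.fg c) hP
  have hx0 : (x : Ω) ≠ 0 := by
    rw [hx]
    exact Units.ne_zero _
  have hat : M.At c φ j := by
    refine ⟨hj, ?_⟩
    rw [← hx]
    intro hu
    exact (un_loc φ x).1 hu (hφ x hxP)
  obtain ⟨Q, hQ, hQa⟩ := kumP_Q h c φ j hat x hx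
  have hle := loc_le_locI hP φ hφ
  refine ⟨Q, hQ, ?_, ?_, fun a ha => hle ((hQa a).1 ha)⟩
  · rw [hQa, div_self hx0]
    exact one_mem _
  · intro a ha
    obtain ⟨p, q, hq, hpq⟩ := hle ((hQa a).1 ha)
    have h4 : a * q = x * p := by
      apply Subtype.ext
      rw [MulMemClass.coe_mul, MulMemClass.coe_mul]
      rw [div_eq_div_iff hx0 (locI_ne hq)] at hpq
      rw [hpq, mul_comm]
    have h5 : a * q ∈ P := by
      rw [h4]
      exact P.mul_mem_right _ hxP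
    rcases hP.mem_or_mem h5 with h6 | h6
    · exact h6
    · exact absurd h6 hq

/-- PROOF. `P ≠ ⊤`: a point `φ` of `V (P)`; the label `j` passes through `φ`, and `x c j` is one of the
parameters `z i` of `O = Loc (R c) φ` (`exists_reg`), a prime element of `O`. The valuation ring
`V' = LocI (R c) P` has the uniformiser `π`; `x c j = π ^ e u`, `a = π ^ s u'` with units `u`, `u'`, `e ≥ 1`,
`s ≥ 1` (`a ≠ 0`). So `a ^ e t = x ^ s t'` with `t, t' ∉ P`. `x` divides `a` or `t` in `O`; it does not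
divide `t`, because `t ∉ P`. So `a / x ∈ O ≤ V'`. -/
theorem prd_x [IsAlgClosed k] [CharZero k] (h : M.Ok0 n) (c : M.ι) {P : Ideal (M.R c)}
    (hP : PrD (M.R c) P) (j : M.J) (hj : j ∈ M.S c) (x : M.R c) (hx : (x : Ω) = M.x c j)
    (hxP : x ∈ P) : ∀ a ∈ P, (a / x : Ω) ∈ LocI (M.R c) P hP.prime := by
  obtain ⟨Q, hQ, hxQ, hQP, hQV⟩ := kumP_pt h c hP.prime j hj x hx hxP
  have hle := kumP_le (isNoetherianRing_of_fg (h.fg c)) hP hQ hQP hxQ (by
    rw [hx]
    exact Units.ne_zero _)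
  exact fun a ha => hQV a (hle ha)

/-- the prime divisor under a prime divisor of the model with the roots.
PROOF. `P = P' ∩ R c` contains `x = x c j = y ^ m`, `y = x' c j`. Let `V' = LocI (R' c) P'`, a discrete
valuation ring with uniformiser `y` (`prd_x` for `kum`). Let `a ∈ P`, `a ≠ 0`: we show `a / x ∈ V`. In `V'`:
`a = y ^ s u`, `s ≥ 1`, so `b = a ^ m / x ^ s ∈ F` is a unit of `V'`. Let `I` be the ideal of all
`d ∈ R' c` with `d b ∈ R' c`; it is not contained in `P'`, nor in `g P'` for any automorphism `g`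
of `F' / F` (`g b = b`, `R' c` is stable under `g`). By prime avoidance there is `d₁ ∈ I` in none of
the `g P'` (finitely many). Let `d = ∏ g, g d₁`. Then `d`, `d b ∈ R' c ∩ F = R c` (`Nrm`, `kum_int`) and
`d ∉ P`. Take a point `φ` of `V (P)`; `x` is a prime element of `O = Loc (R c) φ` (`exists_reg`), and
`d a ^ m = x ^ s (d b)` in `O`, so `x` divides `d` or `a`; it does not divide `d ∉ P`. So
`a / x ∈ O ≤ LocI (R c) P`. -/
theorem prd_under [IsAlgClosed k] [IsAlgClosed Ω] [CharZero k] (hm : m ≠ 0) (h : M.Ok n)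
    (c : M.ι) {P' : Ideal ((M.kum m).R c)} (hP' : PrD ((M.kum m).R c) P') (j : M.J)
    (hj : j ∈ M.S c) (y : (M.kum m).R c) (hy : (y : Ω) = (M.kum m).x c j) (hyP : y ∈ P') :
    ∃ (P : Ideal (M.R c)) (hP : PrD (M.R c) P) (x : M.R c), (x : Ω) = M.x c j ∧ x ∈ P ∧
      Dv (LocI (M.R c) P hP.prime) (x : Ω) ∧
      Dv (LocI ((M.kum m).R c) P' hP'.prime) (y : Ω) ∧
      (∀ (a : M.R c) (a' : (M.kum m).R c), (a : Ω) = a' → (a ∈ P ↔ a' ∈ P')) := by
  have h' : (M.kum m).Ok0 n := ⟨kum_okR hm h.toOkR h.toOkV, kum_okV hm h.toOkV,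
    kum_okP hm h.toOkV h.toOkP, kum_okS hm h.toOkV h.toOkS⟩
  have hR' : IsNoetherianRing ((M.kum m).R c) := isNoetherianRing_of_fg (h'.fg c)
  have hR : IsNoetherianRing (M.R c) := isNoetherianRing_of_fg (h.fg c)
  have hyx := prd_x h' c hP' j hj y hy hyP
  have hym : (y : Ω) ^ m = M.x c j := by
    rw [hy]
    show ((rt m (M.x c j) : Ωˣ) : Ω) ^ m = M.x c j
    rw [← Units.val_pow_eq_pow_val, rt_pow hm]
  letI a1 : Algebra (M.R c) ((M.kum m).R c) :=
    (Subalgebra.inclusion (kum_le c)).toRingHom.toAlgebra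
  haveI : IsScalarTower (M.R c) ((M.kum m).R c) Ω := IsScalarTower.of_algebraMap_eq fun _ => rfl
  haveI : IsIntegrallyClosed (M.R c) := kumP_closed (h.toOk0.nrm c) (h.toOkR.frc c)
  haveI : FaithfulSMul (M.R c) ((M.kum m).R c) :=
    (faithfulSMul_iff_algebraMap_injective _ _).2 fun a b hab =>
      Subtype.ext (congrArg (fun z : (M.kum m).R c => (z : Ω)) hab)
  haveI : Algebra.IsIntegral (M.R c) ((M.kum m).R c) := ⟨fun a => by
    have h1 : IsIntegral (M.R c) (a : Ω) := kum_int hm h.toOkV c a a.2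
    exact (isIntegral_algebraMap_iff (A := (M.kum m).R c) (B := Ω) Subtype.val_injective).1 h1⟩
  obtain ⟨P, hPdef⟩ : ∃ P : Ideal (M.R c), P = P'.under (M.R c) := ⟨_, rfl⟩
  haveI hPp' : P'.IsPrime := hP'.prime
  have hPp : P.IsPrime := by
    rw [hPdef]
    infer_instance
  have hPmem : ∀ (a : M.R c) (a' : (M.kum m).R c), (a : Ω) = a' → (a ∈ P ↔ a' ∈ P') := by
    intro a a' haa
    rw [hPdef]
    have h1 : algebraMap (M.R c) ((M.kum m).R c) a = a' := Subtype.ext haa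
    rw [← h1]
    exact Iff.rfl
  obtain ⟨x, hx⟩ : ∃ x : M.R c, (x : Ω) = M.x c j := ⟨⟨_, h.x_R c j hj⟩, rfl⟩
  have hxy : (x : Ω) = ((y ^ m : (M.kum m).R c) : Ω) := by
    rw [hx, SubmonoidClass.coe_pow, hym]
  have hxP : x ∈ P := by
    rw [hPmem x (y ^ m) hxy]
    exact Ideal.pow_mem_of_mem _ hyP m (Nat.pos_of_ne_zero hm)
  have hx0 : (x : Ω) ≠ 0 := by
    rw [hx]
    exact Units.ne_zero _
  have hy0 : (y : Ω) ≠ 0 := by
    rw [hy]
    exact Units.ne_zero _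
  obtain ⟨Q, hQ, hxQ, hQP, hQV⟩ := kumP_pt h.toOk0 c hPp j hj x hx hxP
  haveI : P'.LiesOver P := ⟨hPdef⟩
  obtain ⟨Q', hQP', hQ', hQ''⟩ := Ideal.exists_ideal_le_liesOver_of_le (p := Q) (q := P) P' hQP
  have hQmem : ∀ (a : M.R c) (a' : (M.kum m).R c), (a : Ω) = a' → (a ∈ Q ↔ a' ∈ Q') := by
    intro a a' haa
    rw [hQ''.over]
    have h1 : algebraMap (M.R c) ((M.kum m).R c) a = a' := Subtype.ext haa
    rw [← h1]
    exact Iff.rfl
  have hyQ' : y ∈ Q' := by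
    have h1 := (hQmem x (y ^ m) hxy).1 hxQ
    exact hQ'.mem_of_pow_mem m h1
  have hle := kumP_le hR' hP' hQ' hQP' hyQ' hy0
  have hPQ : P ≤ Q := by
    intro a ha
    have h1 : (a : Ω) = (algebraMap (M.R c) ((M.kum m).R c) a : Ω) := rfl
    rw [hQmem a _ h1]
    exact hle ((hPmem a _ h1).1 ha)
  have hPx : ∀ a ∈ P, (a / x : Ω) ∈ LocI (M.R c) P hPp := fun a ha => hQV a (hPQ ha)
  have hPrD : PrD (M.R c) P := ⟨hPp, x, hxP, hx0, hPx⟩
  exact ⟨P, hPrD, x, hx, hxP, hPrD.dv hR x hxP hx0 hPx, hP'.dv hR' y hyP hy0 hyx,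
    hPmem⟩

end Mdl

end Pool.Agent.KMR
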