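import Pool.Agent.Lib.MP_732f67_ag.R.PsiC

/-!
Operation: adjoining the `m`-th roots of the elements of `Ψ`.
-/

namespace Pool.Agent.KMR

variable {k Ω : Type} [Field k] [Field Ω] [Algebra k Ω]

open Classical in
/-- an `m`-th root -/
noncomputable def rt (m : ℕ) (a : Ωˣ) : Ωˣ := if h : ∃ y : Ωˣ, y ^ m = a then h.choose else 1

theorem rt_pow [IsAlgClosed Ω] {m : ℕ} (hm : m ≠ 0) (a : Ωˣ) : rt m a ^ m = a := by
  obtain ⟨z, hz⟩ := IsAlgClosed.exists_pow_nat_eq (a : Ω) (Nat.pos_of_ne_zero hm)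
  have hz0 : z ≠ 0 := by
    intro h0
    rw [h0, zero_pow hm] at hz
    exact a.ne_zero hz.symm
  have h : ∃ y : Ωˣ, y ^ m = a := ⟨Units.mk0 z hz0, Units.ext (by
    rw [Units.val_pow_eq_pow_val, Units.val_mk0, hz])⟩
  rw [rt, dif_pos h]
  exact h.choose_spec

section fg

variable {A : Type*} [CommGroup A]

theorem kum_fg_iff (H : Subgroup A) :
    H.FG ↔ (AddSubgroup.toIntSubmodule (Subgroup.toAddSubgroup H)).FG := by
  rw [Subgroup.fg_iff_add_fg, Submodule.fg_iff_addSubgroup_fg,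
    AddSubgroup.toIntSubmodule_toAddSubgroup]

theorem kum_fg_of_le {H K : Subgroup A} (hH : H.FG) (hle : K ≤ H) : K.FG := by
  rw [kum_fg_iff] at hH ⊢
  have := isNoetherian_of_fg_of_noetherian _ hH
  exact isNoetherian_submodule.1 this _ hle

theorem kum_fg_comap {B : Type*} [CommGroup B] (f : A →* B) (hf : Finite f.ker) {H : Subgroup B}
    (hH : H.FG) : (H.comap f).FG := by
  rw [kum_fg_iff] at hH ⊢
  refine Submodule.fg_of_fg_map_of_fg_inf_ker (MonoidHom.toAdditive f).toIntLinearMap ?_ ?_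
  · have := isNoetherian_of_fg_of_noetherian _ hH
    refine isNoetherian_submodule.1 this _ ?_
    rintro _ ⟨a, ha, rfl⟩
    exact ha
  · have h1 : (f.ker : Set A).Finite := Set.toFinite _
    have h2 : ((AddSubgroup.toIntSubmodule (Subgroup.toAddSubgroup (H.comap f)) ⊓
        LinearMap.ker (MonoidHom.toAdditive f).toIntLinearMap :
          Submodule ℤ (Additive A)) : Set (Additive A)).Finite := by
      refine Set.Finite.subset (h1.image Additive.ofMul) ?_
      rintro a ⟨-, ha⟩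
      exact ⟨Additive.toMul a, ha, rfl⟩
    rw [← Submodule.span_eq (AddSubgroup.toIntSubmodule (Subgroup.toAddSubgroup (H.comap f)) ⊓
        LinearMap.ker (MonoidHom.toAdditive f).toIntLinearMap)]
    exact Submodule.fg_span h2

end fg

namespace Mdl

variable {G : Subgroup (Ω ≃ₐ[k] Ω)} (M : Mdl k Ω G) {n : ℕ}

/-- the model with all `m`-th roots of the elements of `Ψ` adjoined -/
noncomputable def kum (m : ℕ) : Mdl k Ω G where
  F := IntermediateField.adjoin k ((M.F : Set Ω) ∪ {y | ∃ u : Ωˣ, u ^ m ∈ M.Ψ ∧ y = u})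
  ι := M.ι
  J := M.J
  R c := M.R c ⊔ Algebra.adjoin k
    {y | ∃ u : Ωˣ, u ^ m ∈ M.Ψ ∧ (∀ j ∈ M.S c, 0 ≤ M.v j (u ^ m)) ∧ y = u}
  S := M.S
  x c j := rt m (M.x c j)
  s := M.s
  m := M.m
  Ψ := M.Ψ.comap (powMonoidHom m)
  v j u := M.v j (u ^ m)
  h j := m * M.h j
  π := M.π

variable {M} {m : ℕ}

/-- `{u | u ^ m ∈ Ψ}` is finitely generated: the roots of unity are finite in number -/
theorem kum_fg (hm : m ≠ 0) (h : M.Ψ.FG) : (M.Ψ.comap (powMonoidHom m)).FG := by
  refine kum_fg_comap _ ?_ h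
  have : NeZero m := ⟨hm⟩
  have h1 : Finite (rootsOfUnity m Ω) := inferInstance
  refine Finite.of_injective (fun u : (powMonoidHom m : Ωˣ →* Ωˣ).ker =>
    (⟨u.1, (mem_rootsOfUnity m _).2 u.2⟩ : rootsOfUnity m Ω)) ?_
  intro u v huv
  exact Subtype.ext (congrArg Subtype.val huv)

theorem kum_le (c : M.ι) : M.R c ≤ (M.kum m).R c := by
  exact le_sup_left (a := M.R c)

/-- the units of the chart `c` of the form `u`, `u ^ m ∈ Ψ` -/
def kumE (hv : M.OkV) (m : ℕ) (c : M.ι) : Subgroup Ωˣ where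
  carrier := {u | u ^ m ∈ M.Ψ ∧ ∀ j ∈ M.S c, M.v j (u ^ m) = 0}
  mul_mem' := by
    rintro a b ⟨ha, ha'⟩ ⟨hb, hb'⟩
    refine ⟨?_, fun j hj => ?_⟩
    · rw [mul_pow]
      exact mul_mem ha hb
    · rw [mul_pow, hv.v_mul j _ ha _ hb, ha' j hj, hb' j hj, add_zero]
  one_mem' := by
    refine ⟨?_, fun j hj => ?_⟩
    · rw [one_pow]
      exact one_mem _
    · rw [one_pow, hv.v_one]
  inv_mem' := by
    rintro a ⟨ha, ha'⟩
    refine ⟨?_, fun j hj => ?_⟩
    · rw [inv_pow]
      exact inv_mem ha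
    · rw [inv_pow, hv.v_inv j _ ha, ha' j hj, neg_zero]

/-- the ring of the chart is generated over `R c` by the roots of the `x c j` and by a finitely
generated group of units -/
theorem kum_R_fg [IsAlgClosed Ω] (hm : m ≠ 0) (h : M.OkR n) (hv : M.OkV) (c : M.ι) :
    ((M.kum m).R c).FG := by
  classical
  have hE : (kumE hv m c).FG :=
    kum_fg_of_le (kum_fg hm hv.Ψ_fg) fun u hu => hu.1
  obtain ⟨T0, hT0⟩ := (Subgroup.fg_iff_submonoid_fg _).1 hE
  set T : Set Ω := (fun u : Ωˣ => (u : Ω)) '' T0 ∪ (fun j => (rt m (M.x c j) : Ω)) '' (M.S c : Set M.J)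
    with hT
  have hTf : T.Finite := (T0.finite_toSet.image _).union ((M.S c).finite_toSet.image _)
  have hmem : ∀ t ∈ kumE hv m c, (t : Ω) ∈ Algebra.adjoin k T := by
    intro t ht
    have h1 : t ∈ Submonoid.closure (T0 : Set Ωˣ) := by
      rw [hT0]
      exact ht
    clear ht
    induction h1 using Submonoid.closure_induction with
    | mem x hx => exact Algebra.subset_adjoin (Or.inl ⟨x, hx, rfl⟩)
    | one =>
      rw [Units.val_one]
      exact one_mem _
    | mul x y _ _ hx hy =>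
      rw [Units.val_mul]
      exact mul_mem hx hy
  have hrt : ∀ j ∈ M.S c, (rt m (M.x c j) : Ω) ∈ Algebra.adjoin k T := fun j hj =>
    Algebra.subset_adjoin (Or.inr ⟨j, hj, rfl⟩)
  have heq : (M.kum m).R c = M.R c ⊔ Algebra.adjoin k T := by
    apply le_antisymm
    · refine sup_le (le_sup_left (a := M.R c)) ?_
      rw [Algebra.adjoin_le_iff]
      rintro _ ⟨u, hu, hvu, rfl⟩
      apply (le_sup_right (a := M.R c) : Algebra.adjoin k T ≤ _)
      -- `u` is a monomial times a unit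
      set p : Ωˣ := ∏ j ∈ M.S c, rt m (M.x c j) ^ (M.v j (u ^ m)).toNat with hp
      have hpm : p ^ m = ∏ j ∈ M.S c, M.x c j ^ M.v j (u ^ m) := by
        rw [hp, ← Finset.prod_pow]
        refine Finset.prod_congr rfl fun j hj => ?_
        rw [← pow_mul, mul_comm, pow_mul, rt_pow hm]
        conv_rhs => rw [← Int.toNat_of_nonneg (hvu j hj), zpow_natCast]
      obtain ⟨e, heΨ, heU, hue⟩ := hv.eq_monomial c (u ^ m) hu
      have he : e = (u * p⁻¹) ^ m := by
        rw [mul_pow, inv_pow, hpm]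
        exact eq_mul_inv_of_mul_eq hue.symm
      have hx : ∀ j ∈ M.S c, M.x c j ^ M.v j (u ^ m) ∈ M.Ψ := fun j hj =>
        zpow_mem (hv.x_Ψ c j hj) _
      have hxp : (∏ j ∈ M.S c, M.x c j ^ M.v j (u ^ m)) ∈ M.Ψ := prod_mem hx
      have hE' : u * p⁻¹ ∈ kumE hv m c := by
        refine ⟨?_, fun j hj => ?_⟩
        · rw [← he]
          exact heΨ
        · rw [mul_pow, inv_pow, hpm, hv.v_mul j _ hu _ (inv_mem hxp), hv.v_inv j _ hxp,
            hv.v_prod j _ _ hx, Finset.sum_eq_single j]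
          · rw [hv.v_zpow j _ (hv.x_Ψ c j hj), hv.v_x c j hj]
            ring
          · intro i hi hij
            rw [hv.v_zpow j _ (hv.x_Ψ c i hi), hv.v_x' c j hj i hi hij.symm, mul_zero]
          · intro hc
            exact absurd hj hc
      have hup : u = u * p⁻¹ * p := by rw [inv_mul_cancel_right]
      rw [hup, Units.val_mul]
      refine mul_mem (hmem _ hE') ?_
      rw [hp, Units.coe_prod]
      refine prod_mem fun j hj => ?_
      rw [Units.val_pow_eq_pow_val]
      exact pow_mem (hrt j hj) _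
    · refine sup_le_sup_left ?_ _
      apply Algebra.adjoin_mono
      rintro _ (⟨u, hu, rfl⟩ | ⟨j, hj, rfl⟩)
      · have h1 : u ∈ (kumE hv m c).toSubmonoid := by
          rw [← hT0]
          exact Submonoid.subset_closure hu
        exact ⟨u, h1.1, fun j hj => (h1.2 j hj).ge, rfl⟩
      · refine ⟨rt m (M.x c j), ?_, fun i hi => ?_, rfl⟩
        · rw [rt_pow hm]
          exact hv.x_Ψ c j hj
        · rw [rt_pow hm]
          by_cases hij : i = j
          · rw [hij, hv.v_x c j hj]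
            exact zero_le_one
          · rw [hv.v_x' c i hi j hj hij]
  rw [heq]
  exact (h.fg c).sup (Subalgebra.fg_def.2 ⟨T, hTf, rfl⟩)

theorem kum_int (hm : m ≠ 0) (hv : M.OkV) (c : M.ι) (a : Ω) (ha : a ∈ (M.kum m).R c) :
    IsIntegral (M.R c) a := by
  have hle : (M.kum m).R c ≤ (integralClosure (M.R c) Ω).restrictScalars k := by
    refine sup_le ?_ ?_
    · intro b hb
      exact isIntegral_algebraMap (R := M.R c) (A := Ω) (x := ⟨b, hb⟩)
    · rw [Algebra.adjoin_le_iff]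
      rintro _ ⟨u, hu, hvu, rfl⟩
      have h1 := hv.mem_R c (u ^ m) hu hvu
      refine IsIntegral.of_pow (Nat.pos_of_ne_zero hm) ?_
      rw [← Units.val_pow_eq_pow_val]
      exact isIntegral_algebraMap (R := M.R c) (A := Ω) (x := ⟨_, h1⟩)
  exact hle ha

end Mdl

end Pool.Agent.KMR
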