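import Pool.Agent.Lib.MP_732f67_ag.R.AbhO
import Pool.Agent.Lib.MP_732f67_ag.R.Kum

/-!
The field with the `m`-th roots adjoined is a finite extension, stable, of exponent `m`.
-/

namespace Pool.Agent.KMR

variable {k Ω : Type} [Field k] [Field Ω] [Algebra k Ω]

/-- if an automorphism maps generators into a field, it maps the field into it -/
theorem kumU_adjoin {S : Set Ω} {E : IntermediateField k Ω} (g : Ω ≃ₐ[k] Ω)
    (h : ∀ a ∈ S, g a ∈ E) : ∀ a ∈ IntermediateField.adjoin k S, g a ∈ E := by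
  intro a ha
  have h1 : IntermediateField.adjoin k S ≤ E.comap (g : Ω →ₐ[k] Ω) := by
    rw [IntermediateField.adjoin_le_iff]
    exact h
  exact h1 ha

/-- the elements fixed by an automorphism -/
theorem kumU_fix {S : Set Ω} (g : Ω ≃ₐ[k] Ω) (h : ∀ a ∈ S, g a = a) :
    ∀ a ∈ IntermediateField.adjoin k S, g a = a := by
  intro a ha
  induction ha using IntermediateField.adjoin_induction with
  | mem x hx => exact h x hx
  | algebraMap x => exact g.commutes x
  | add x y _ _ hx hy => rw [map_add, hx, hy]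
  | inv x _ hx => rw [map_inv₀, hx]
  | mul x y _ _ hx hy => rw [map_mul, hx, hy]

theorem kumU_sup_mem {E N E' : IntermediateField k Ω} (g : Ω ≃ₐ[k] Ω) (h : ∀ a ∈ E, g a ∈ E')
    (h' : ∀ a ∈ N, g a ∈ E') : ∀ a ∈ E ⊔ N, g a ∈ E' := by
  have h1 : E ⊔ N ≤ E'.comap (g : Ω →ₐ[k] Ω) := sup_le h h'
  exact fun a ha => h1 ha

theorem kumU_sup_fix {E N : IntermediateField k Ω} (g : Ω ≃ₐ[k] Ω) (h : ∀ a ∈ E, g a = a)
    (h' : ∀ a ∈ N, g a = a) : ∀ a ∈ E ⊔ N, g a = a := by
  have h1 : E ⊔ N ≤ IntermediateField.adjoin k ((E : Set Ω) ∪ N) :=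
    sup_le (fun x hx => IntermediateField.subset_adjoin _ _ (Or.inl hx))
      (fun x hx => IntermediateField.subset_adjoin _ _ (Or.inr hx))
  intro a ha
  refine kumU_fix g ?_ a (h1 ha)
  rintro x (hx | hx)
  · exact h x hx
  · exact h' x hx

namespace Mdl

variable {G : Subgroup (Ω ≃ₐ[k] Ω)} {M : Mdl k Ω G} {n : ℕ} {m : ℕ}

theorem kumU_le (M : Mdl k Ω G) (m : ℕ) : M.F ≤ (M.kum m).F :=
  fun _ ha => IntermediateField.subset_adjoin _ _ (Or.inl ha)

theorem kumU_root (M : Mdl k Ω G) (m : ℕ) (u : Ωˣ) (hu : u ^ m ∈ M.Ψ) : (u : Ω) ∈ (M.kum m).F :=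
  IntermediateField.subset_adjoin _ _ (Or.inr ⟨u, hu, rfl⟩)

theorem kumU_fext (hm : m ≠ 0) (h : M.OkV) : Fext M.F (M.kum m).F := by
  classical
  obtain ⟨T, hT⟩ := kum_fg hm h.Ψ_fg
  refine ⟨kumU_le M m, T.image (fun u : Ωˣ => (u : Ω)), ?_, ?_⟩
  · intro a ha
    obtain ⟨u, hu, rfl⟩ := Finset.mem_image.1 ha
    have hu' : u ^ m ∈ M.Ψ := by
      have h1 : u ∈ Subgroup.closure (T : Set Ωˣ) := Subgroup.subset_closure hu
      rw [hT] at h1
      exact h1
    have h2 : ((u : Ω) ^ m) ∈ M.F := by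
      rw [← Units.val_pow_eq_pow_val]
      exact h.Ψ_F _ hu'
    have h3 : IsAlgebraic M.F ((u : Ω) ^ m) := isAlgebraic_algebraMap (⟨_, h2⟩ : M.F)
    exact h3.of_pow (Nat.pos_of_ne_zero hm)
  · apply le_antisymm
    · refine IntermediateField.adjoin_le_iff.2 ?_
      rintro x (hx | ⟨u, hu, rfl⟩)
      · exact IntermediateField.subset_adjoin _ _ (Or.inl hx)
      · have h1 : u ∈ Subgroup.closure (T : Set Ωˣ) := by
          rw [hT]
          exact hu
        clear hu
        rw [SetLike.mem_coe]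
        induction h1 using Subgroup.closure_induction with
        | mem x hx =>
          exact IntermediateField.subset_adjoin _ _
            (Or.inr (Finset.mem_coe.2 (Finset.mem_image_of_mem _ hx)))
        | one =>
          rw [Units.val_one]
          exact one_mem _
        | mul x y _ _ hx hy =>
          rw [Units.val_mul]
          exact mul_mem hx hy
        | inv x _ hx =>
          rw [Units.val_inv_eq_inv_val]
          exact inv_mem hx
    · refine IntermediateField.adjoin_le_iff.2 ?_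
      rintro x (hx | hx)
      · exact kumU_le M m hx
      · obtain ⟨u, hu, rfl⟩ := Finset.mem_image.1 (Finset.mem_coe.1 hx)
        have h1 : u ∈ Subgroup.closure (T : Set Ωˣ) := Subgroup.subset_closure hu
        rw [hT] at h1
        exact kumU_root M m u h1

theorem kumU_exp [IsAlgClosed k] (hm : m ≠ 0) (h : M.OkV) (g : Ω ≃ₐ[k] Ω)
    (hg : ∀ a ∈ M.F, g a = a) :
    (∀ a ∈ (M.kum m).F, g a ∈ (M.kum m).F) ∧ ∀ a ∈ (M.kum m).F, (g ^ m) a = a := by
  -- the action on a root
  have hroot : ∀ u : Ωˣ, u ^ m ∈ M.Ψ → ∃ ζ : k, ζ ^ m = 1 ∧ g (u : Ω) = algebraMap k Ω ζ * u := by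
    intro u hu
    have h1 : g (u : Ω) ^ m = (u : Ω) ^ m := by
      rw [← map_pow, ← Units.val_pow_eq_pow_val, hg _ (h.Ψ_F _ hu)]
    have h2 : (g (u : Ω) / u) ^ m = 1 := by
      rw [div_pow, h1, div_self (pow_ne_zero _ u.ne_zero)]
    obtain ⟨ζ, hζ⟩ : ∃ ζ : k, algebraMap k Ω ζ = g (u : Ω) / u := by
      have hint : IsIntegral k (g (u : Ω) / u : Ω) := by
        refine IsIntegral.of_pow (Nat.pos_of_ne_zero hm) ?_
        rw [h2]
        exact isIntegral_one
      have hs : (minpoly k (g (u : Ω) / u : Ω)).Splits := IsAlgClosed.splits _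
      have hr := minpoly.mem_range_of_degree_eq_one k (g (u : Ω) / u : Ω)
        (IsAlgClosed.degree_eq_one_of_irreducible k (minpoly.irreducible hint))
      exact hr
    refine ⟨ζ, ?_, ?_⟩
    · apply (algebraMap k Ω).injective
      rw [map_pow, hζ, h2, map_one]
    · rw [hζ, div_mul_cancel₀ _ u.ne_zero]
  constructor
  · refine kumU_adjoin g ?_
    rintro a (ha | ⟨u, hu, rfl⟩)
    · rw [hg a ha]
      exact kumU_le M m ha
    · obtain ⟨ζ, -, hζ⟩ := hroot u hu
      rw [hζ]
      exact mul_mem (IntermediateField.algebraMap_mem _ _) (kumU_root M m u hu)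
  · refine kumU_fix (g ^ m) ?_
    rintro a (ha | ⟨u, hu, rfl⟩)
    · have h1 : ∀ i : ℕ, (g ^ i) a = a := by
        intro i
        induction i with
        | zero => rfl
        | succ i ih =>
          rw [pow_succ', AlgEquiv.mul_apply, ih]
          exact hg a ha
      exact h1 m
    · obtain ⟨ζ, hζm, hζ⟩ := hroot u hu
      have h1 : ∀ i : ℕ, (g ^ i) (u : Ω) = algebraMap k Ω (ζ ^ i) * u := by
        intro i
        induction i with
        | zero =>
          rw [pow_zero, pow_zero, map_one, one_mul]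
          rfl
        | succ i ih =>
          rw [pow_succ', AlgEquiv.mul_apply, ih, map_mul, AlgEquiv.commutes, hζ, ← mul_assoc,
            ← map_mul, ← pow_succ]
      rw [h1 m, hζm, map_one, one_mul]

end Mdl

end Pool.Agent.KMR
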