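import Pool.Agent.Lib.MP_732f67_ag.R.UnrC

/-!
Unramified extensions and derivations.
-/

namespace Pool.Agent.KMR

open Polynomial

variable {k Ω : Type} [Field k] [Field Ω] [Algebra k Ω]

/-- the integral closure of `V` in `E` -/
def unrB (V : Subring Ω) (E : IntermediateField k Ω) : Subring Ω where
  carrier := {b | b ∈ E ∧ IsIntegral V b}
  mul_mem' ha hb := ⟨E.mul_mem ha.1 hb.1, ha.2.mul hb.2⟩
  one_mem' := ⟨E.one_mem, isIntegral_one⟩
  add_mem' ha hb := ⟨E.add_mem ha.1 hb.1, ha.2.add hb.2⟩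
  zero_mem' := ⟨E.zero_mem, isIntegral_zero⟩
  neg_mem' ha := ⟨E.neg_mem ha.1, ha.2.neg⟩

theorem mem_unrB {V : Subring Ω} {E : IntermediateField k Ω} {b : Ω} :
    b ∈ unrB V E ↔ b ∈ E ∧ IsIntegral V b := Iff.rfl

theorem unr_isIntegral {V : Subring Ω} {b : Ω} (hb : b ∈ V) : IsIntegral V b :=
  isIntegral_algebraMap (R := V) (x := ⟨b, hb⟩)

/-- integral over the integral closure -/
theorem unrB_trans {V : Subring Ω} {E : IntermediateField k Ω} {b : Ω}
    (hb : IsIntegral (unrB V E) b) : IsIntegral V b := by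
  let φ : unrB V E →+* integralClosure V Ω :=
    (unrB V E).subtype.codRestrict (integralClosure V Ω) (fun x => x.2.2)
  have h1 : IsIntegral (integralClosure V Ω) b :=
    IsIntegral.map_of_comp_eq φ (RingHom.id Ω) rfl hb
  exact isIntegral_trans b h1

/-- integral over `V`, so integral over every larger ring -/
theorem unr_mono {V V' : Subring Ω} (hV : ∀ a ∈ V, a ∈ V') {b : Ω} (hb : IsIntegral V b) :
    IsIntegral V' b :=
  IsIntegral.map_of_comp_eq (V.subtype.codRestrict V' (fun x => hV x x.2)) (RingHom.id Ω) rfl hb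

/-- elements of `E'` are algebraic over `E` -/
theorem Unr.alg {V : Subring Ω} {E E' : IntermediateField k Ω} (h : Unr V E E')
    (hVE : ∀ a ∈ V, a ∈ E) (a : Ω) (ha : a ∈ E') : IsAlgebraic E a := by
  obtain ⟨s, hs, he⟩ := h.finite hVE
  let _ := unrAlg hVE
  let _ := unr_tower hVE
  have h1 : E' ≤ (algebraicClosure E Ω).restrictScalars k := by
    rw [he, IntermediateField.adjoin_le_iff]
    rintro x (hx | hx)
    · exact (algebraicClosure E Ω).algebraMap_mem ⟨x, hx⟩
    · exact (hs x hx).tower_top (A := E)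
  exact mem_algebraicClosure_iff.1 (h1 ha)

/-- `E'` is the field of fractions of the integral closure of `V` -/
theorem unrB_frac {V : Subring Ω} {E E' : IntermediateField k Ω}
    (hE : ∀ a ∈ E, ∃ b ∈ V, ∃ d ∈ V, d ≠ 0 ∧ a = b / d)
    (hVE : ∀ a ∈ V, a ∈ E) (h : Unr V E E') :
    ∀ a ∈ E', ∃ b ∈ unrB V E', ∃ d ∈ unrB V E', d ≠ 0 ∧ a = b / d := by
  intro a ha
  let _ := unrAlg hVE
  let _ := unr_tower hVE
  let _ := unr_frac hVE hE
  have h1 : IsAlgebraic V a := (IsFractionRing.isAlgebraic_iff V E Ω).2 (h.alg hVE a ha)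
  obtain ⟨y, hy0, hy⟩ := h1.exists_integral_multiple
  have hyE : (y : Ω) ∈ E' := h.le (hVE y y.2)
  have hy1 : (y : Ω) ≠ 0 := fun h0 => hy0 (Subtype.ext h0)
  refine ⟨y • a, ⟨E'.mul_mem hyE ha, hy⟩, y, ⟨hyE, unr_isIntegral y.2⟩, hy1, ?_⟩
  change a = (y : Ω) * a / y
  rw [mul_div_cancel_left₀ _ hy1]

theorem unr_aeval_mem {E : IntermediateField k Ω} (F : Subring Ω)
    (θ : Ω) (hθ : θ ∈ F) (p : Polynomial E) (hp : ∀ i, (p.coeff i : Ω) ∈ F) : aeval θ p ∈ F := by
  rw [aeval_eq_sum_range]
  refine F.sum_mem fun i _ => ?_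
  change (p.coeff i : Ω) * θ ^ i ∈ F
  exact F.mul_mem (hp i) (F.pow_mem hθ i)

/-- a derivation and a polynomial -/
theorem unr_der_eval (D : Derivation k Ω Ω) (F : Polynomial Ω) (x : Ω) :
    D (F.eval x) = ∑ i ∈ F.support, D (F.coeff i) * x ^ i + F.derivative.eval x * D x := by
  have key : D (F.eval x) = F.sum (fun i a => D a * x ^ i) + F.derivative.eval x * D x := by
    induction F using Polynomial.induction_on' with
    | add p q hp hq =>
      rw [eval_add, map_add, hp, hq, Polynomial.sum_add_index p q _ (by simp) (by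
        intro i a b
        rw [map_add]
        ring), derivative_add, eval_add]
      ring
    | monomial n a =>
      rw [eval_monomial, Polynomial.sum_monomial_index a _ (by simp), derivative_monomial,
        eval_monomial, Derivation.leibniz, Derivation.leibniz_pow]
      simp only [smul_eq_mul, nsmul_eq_mul]
      ring
  exact key

/-- the integral closure of `V` in an unramified extension is stable under the derivations which
preserve `V`.
PROOF. Induction: let `B` be the integral closure of `V` in `E'`, integrally closed, stable under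
`D`; `θ` as in `step`. The integral closure of `V` (of `B`) in `E' (θ)` is `B[θ]` (`conductor` for
`B`: `b = f' (θ) (f' (θ)⁻¹ b)`, `f = minpoly E' θ`), and `D θ = - f^D (θ) / f' (θ) ∈ B[θ]`. -/
theorem Unr.der {V : Subring Ω} {E E' : IntermediateField k Ω} [CharZero k]
    (hE : ∀ a ∈ E, ∃ b ∈ V, ∃ d ∈ V, d ≠ 0 ∧ a = b / d)
    (hV : ∀ a ∈ E, IsIntegral V a → a ∈ V) (hVE : ∀ a ∈ V, a ∈ E) (h : Unr V E E')
    (D : Derivation k Ω Ω) (hD : ∀ a ∈ V, D a ∈ V) (b : Ω) (hb : b ∈ E') (hi : IsIntegral V b) :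
    D b ∈ E' ∧ IsIntegral V (D b) := by
  induction h generalizing b with
  | refl =>
    have h1 := hD b (hV b hb hi)
    exact ⟨hVE _ h1, unr_isIntegral h1⟩
  | @step E' θ h hθ hg ih =>
    set F := IntermediateField.adjoin k ((E' : Set Ω) ∪ {θ}) with hF
    have hE'F : ∀ a ∈ E', a ∈ F := fun a ha => IntermediateField.subset_adjoin k _ (Or.inl ha)
    have hθF : θ ∈ F := IntermediateField.subset_adjoin k _ (Or.inr rfl)
    set B := unrB V E' with hB
    have hVB : ∀ a ∈ V, a ∈ B := fun a ha => ⟨h.le (hVE a ha), unr_isIntegral ha⟩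
    have hBE : ∀ a ∈ B, a ∈ E' := fun a ha => ha.1
    have hBfrac := unrB_frac hE hVE h
    have hBc : ∀ a ∈ E', IsIntegral B a → a ∈ B := fun a ha ha' => ⟨ha, unrB_trans ha'⟩
    have hθB : IsIntegral B θ := unr_mono hVB hθ
    have hmp := unr_minpoly hBE hBfrac hBc θ hθB
    have hcoef : ∀ i, ((minpoly E' θ).coeff i : Ω) ∈ B := by
      intro i
      have h1 := congrArg (fun p : Polynomial Ω => p.coeff i) hmp
      simp only [coeff_map] at h1
      change algebraMap E' Ω ((minpoly E' θ).coeff i) ∈ B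
      rw [h1]
      exact ((minpoly B θ).coeff i).2
    set g : Ω := aeval θ (derivative (minpoly E' θ)) with hgdef
    have hc : CharZero E' := charZero_of_injective_algebraMap (algebraMap k E').injective
    have hθE : IsIntegral E' θ := by
      let _ := unrAlg hBE
      let _ := unr_tower hBE
      exact hθB.tower_top (A := E')
    have hg0 : g ≠ 0 :=
      (minpoly.irreducible hθE).separable.aeval_derivative_ne_zero (minpoly.aeval _ _)
    have hgF : g ∈ F := by
      refine unr_aeval_mem F.toSubfield.toSubring θ hθF _ fun i => ?_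
      exact hE'F _ ((derivative (minpoly E' θ)).coeff i).2
    -- every integral element of `F` is in `B[θ]`
    have key : ∀ b ∈ F, IsIntegral V b → b ∈ Subring.closure ((B : Set Ω) ∪ {θ}) := by
      intro b hb hi
      have h1 := conductor hBfrac hBc hBE θ hθB (g⁻¹ * b) (F.mul_mem (F.inv_mem hgF) hb)
        (unr_mono hVB (hg.mul hi))
      rwa [← mul_assoc, mul_inv_cancel₀ hg0, one_mul] at h1
    -- the derivative of `θ`
    have hDθ : D θ ∈ F ∧ IsIntegral V (D θ) := by
      have h1 := unr_der_eval D ((minpoly E' θ).map (algebraMap E' Ω)) θ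
      rw [eval_map, ← aeval_def, minpoly.aeval, map_zero, derivative_map, eval_map,
        ← aeval_def, ← hgdef] at h1
      have h2 : D θ = g⁻¹ * -(∑ i ∈ ((minpoly E' θ).map (algebraMap E' Ω)).support,
          D (((minpoly E' θ).map (algebraMap E' Ω)).coeff i) * θ ^ i) := by
        rw [eq_inv_mul_iff_mul_eq₀ hg0]
        linear_combination -h1
      have h3 : ∀ i, D (((minpoly E' θ).map (algebraMap E' Ω)).coeff i) ∈ E' ∧
          IsIntegral V (D (((minpoly E' θ).map (algebraMap E' Ω)).coeff i)) := by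
        intro i
        rw [coeff_map]
        exact ih _ (hcoef i).1 (hcoef i).2
      rw [h2]
      refine ⟨F.mul_mem (F.inv_mem hgF) (F.neg_mem (F.sum_mem fun i _ =>
        F.mul_mem (hE'F _ (h3 i).1) (pow_mem hθF i))), hg.mul (IsIntegral.neg ?_)⟩
      exact IsIntegral.sum _ fun i _ => (h3 i).2.mul (hθ.pow i)
    have key2 : ∀ x ∈ Subring.closure ((B : Set Ω) ∪ {θ}),
        (x ∈ F ∧ IsIntegral V x) ∧ (D x ∈ F ∧ IsIntegral V (D x)) := by
      intro x hx
      induction hx using Subring.closure_induction with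
      | mem x hx =>
        rcases hx with hx | hx
        · have h1 := ih x hx.1 hx.2
          exact ⟨⟨hE'F x hx.1, hx.2⟩, hE'F _ h1.1, h1.2⟩
        · rw [Set.mem_singleton_iff.1 hx]
          exact ⟨⟨hθF, hθ⟩, hDθ⟩
      | zero => rw [map_zero]; exact ⟨⟨F.zero_mem, isIntegral_zero⟩, F.zero_mem, isIntegral_zero⟩
      | one =>
        rw [Derivation.map_one_eq_zero]
        exact ⟨⟨F.one_mem, isIntegral_one⟩, F.zero_mem, isIntegral_zero⟩
      | add x y _ _ hx hy =>
        rw [map_add]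
        exact ⟨⟨F.add_mem hx.1.1 hy.1.1, hx.1.2.add hy.1.2⟩, F.add_mem hx.2.1 hy.2.1,
          hx.2.2.add hy.2.2⟩
      | neg x _ hx =>
        rw [map_neg]
        exact ⟨⟨F.neg_mem hx.1.1, hx.1.2.neg⟩, F.neg_mem hx.2.1, hx.2.2.neg⟩
      | mul x y _ _ hx hy =>
        rw [Derivation.leibniz, smul_eq_mul, smul_eq_mul]
        exact ⟨⟨F.mul_mem hx.1.1 hy.1.1, hx.1.2.mul hy.1.2⟩,
          F.add_mem (F.mul_mem hx.1.1 hy.2.1) (F.mul_mem hy.1.1 hx.2.1),
          (hx.1.2.mul hy.2.2).add (hy.1.2.mul hx.2.2)⟩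
    exact (key2 b (key b hb hi)).2

end Pool.Agent.KMR
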