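import Pool.Agent.Lib.MP_732f67_ag.R.AbhI
import Pool.Agent.Lib.MP_732f67_ag.R.KumUF
import Pool.Agent.Lib.MP_732f67_ag.R.UnrD

/-!
At the boundary, after adjoining the `m`-th roots: unramified.
-/

namespace Pool.Agent.KMR

variable {k Ω : Type} [Field k] [Field Ω] [Algebra k Ω]

/-- a maximal ideal of the integral closure of a local ring contains all the elements of the local
ring which are not units -/
theorem kumU_max {V : Subalgebra k Ω} {F N : IntermediateField k Ω} (hF : Frc V F) (hN : Fext F N)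
    (hV : ∀ a ∈ V, ∀ b ∈ V, ¬ Un V a → ¬ Un V b → ¬ Un V (a + b)) (P : Ideal (icl V N))
    (hP : P.IsMaximal) (a : icl V N) (ha : (a : Ω) ∈ V) : a ∉ P → Un V (a : Ω) := by
  intro haP
  by_contra hu
  let _ : Algebra V (icl V N) := (Subalgebra.inclusion (le_icl hF hN)).toRingHom.toAlgebra
  have hmap : ∀ r : V, ((algebraMap V (icl V N) r : icl V N) : Ω) = r := fun r => rfl
  have _ : IsScalarTower V (icl V N) Ω := IsScalarTower.of_algebraMap_eq fun r => rfl
  have hint : Algebra.IsIntegral V (icl V N) := ⟨fun b => by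
    rw [← isIntegral_algebraMap_iff (R := V) (A := icl V N) (B := Ω) Subtype.val_injective]
    exact (mem_icl.1 b.2).1⟩
  have hmax : (P.comap (algebraMap V (icl V N))).IsMaximal :=
    Ideal.isMaximal_comap_of_isIntegral_of_isMaximal P
  -- the ideal is maximal, `a` is not in it
  have ha' : (⟨a, ha⟩ : V) ∉ P.comap (algebraMap V (icl V N)) := by
    intro h
    rw [Ideal.mem_comap] at h
    exact haP h
  obtain ⟨y, i, hi, hyi⟩ := hmax.exists_inv ha'
  have h0 : ((y * ⟨a, ha⟩ + i : V) : Ω) = 1 := by rw [hyi]; rfl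
  have h1 : ¬ Un V ((y : Ω) * a) := by
    intro h
    refine hu ⟨?_, ha, ?_⟩
    · intro h2
      apply h.1
      rw [h2, mul_zero]
    · have h3 : (a : Ω)⁻¹ = y * ((y : Ω) * a)⁻¹ := by
        have hy0 : (y : Ω) ≠ 0 := fun h2 => h.1 (by rw [h2, zero_mul])
        rw [mul_inv, ← mul_assoc, mul_inv_cancel₀ hy0, one_mul]
      rw [h3]
      exact V.mul_mem y.2 h.2.2
  have h2 : ¬ Un V (i : Ω) := by
    intro h
    rw [Ideal.mem_comap] at hi
    have h3 : P = ⊤ := by
      rw [Ideal.eq_top_iff_one]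
      have h4 : (1 : icl V N) = algebraMap V (icl V N) ⟨(i : Ω)⁻¹, h.2.2⟩ *
          algebraMap V (icl V N) i := by
        apply Subtype.ext
        rw [MulMemClass.coe_mul, hmap, hmap, OneMemClass.coe_one]
        exact (inv_mul_cancel₀ h.1).symm
      rw [h4]
      exact P.mul_mem_left _ hi
    exact hP.ne_top h3
  refine hV _ (V.mul_mem y.2 ha) _ i.2 h1 h2 ?_
  have h3 : (y : Ω) * a + i = 1 := h0
  rw [h3]
  exact ⟨one_ne_zero, V.one_mem, by rw [inv_one]; exact V.one_mem⟩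

/-- the localisation at a prime ideal is local -/
theorem kumU_local {R : Subalgebra k Ω} {P : Ideal R} (hP : P.IsPrime) :
    ∀ a ∈ LocI R P hP, ∀ b ∈ LocI R P hP, ¬ Un (LocI R P hP) a → ¬ Un (LocI R P hP) b →
      ¬ Un (LocI R P hP) (a + b) := by
  have key : ∀ b c : R, c ∉ P → (Un (LocI R P hP) ((b : Ω) / c) ↔ b ∉ P) := by
    intro b c hc
    have hcu : Un (LocI R P hP) (c : Ω) := (un_locI hP c).2 hc
    constructor
    · intro h hb
      have h1 := (un_locI hP b).1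
      refine h1 ⟨?_, le_locI hP b.2, ?_⟩ hb
      · intro h0
        apply h.1
        rw [h0, zero_div]
      · have h2 : (b : Ω)⁻¹ = ((b : Ω) / c)⁻¹ * (c : Ω)⁻¹ := by
          rw [inv_div, div_mul_eq_mul_div, mul_inv_cancel₀ hcu.1, one_div]
        rw [h2]
        exact (LocI R P hP).mul_mem h.2.2 hcu.2.2
    · intro hb
      have hbu : Un (LocI R P hP) (b : Ω) := (un_locI hP b).2 hb
      refine ⟨div_ne_zero hbu.1 hcu.1, ?_, ?_⟩
      · rw [div_eq_mul_inv]
        exact (LocI R P hP).mul_mem hbu.2.1 hcu.2.2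
      · rw [inv_div, div_eq_mul_inv]
        exact (LocI R P hP).mul_mem hcu.2.1 hbu.2.2
  rintro _ ⟨b, c, hc, rfl⟩ _ ⟨d, e, he, rfl⟩ h1 h2 h3
  rw [key b c hc, not_not] at h1
  rw [key d e he, not_not] at h2
  have h4 : (b : Ω) / c + d / e = ((b * e + c * d : R) : Ω) / (c * e : R) := by
    rw [div_add_div _ _ (locI_ne hc) (locI_ne he)]
    simp only [AddMemClass.coe_add, MulMemClass.coe_mul]
  rw [h4] at h3
  have hce : c * e ∉ P := fun h => (hP.mem_or_mem h).elim hc he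
  refine (key _ _ hce).1 h3 (P.add_mem (P.mul_mem_right _ h1) (P.mul_mem_left _ h2))

theorem kumU_bdry [IsAlgClosed k] [IsAlgClosed Ω] [CharZero k] {m : ℕ} (hm : 0 < m)
    {R R' : Subalgebra k Ω} {F F' N : IntermediateField k Ω} (hRR : R ≤ R') (hFr : Frc R F)
    (hFr' : Frc R' F') (hF : Fext F F') (hN : Fext F' N) (hst : Stb F N)
    (hexp : ∀ g : Ω ≃ₐ[k] Ω, (∀ a ∈ F, g a = a) → ∀ a ∈ N, (g ^ m) a = a)
    {P' : Ideal R'} (hP' : PrD R' P') {P : Ideal R} (hP : PrD R P) (x : R) (y : R')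
    (hyx : (y : Ω) ^ m = x) (hDx : Dv (LocI R P hP.prime) (x : Ω))
    (hDy : Dv (LocI R' P' hP'.prime) (y : Ω))
    (hPP : ∀ (a : R) (a' : R'), (a : Ω) = a' → (a ∈ P ↔ a' ∈ P')) :
    Unr (LocI R' P' hP'.prime).toSubring F' N := by
  have hVV : LocI R P hP.prime ≤ LocI R' P' hP'.prime := by
    rintro _ ⟨b, c, hc, rfl⟩
    exact ⟨⟨b, hRR b.2⟩, ⟨c, hRR c.2⟩, fun h => hc ((hPP c ⟨c, hRR c.2⟩ rfl).2 h), rfl⟩
  -- units
  have hUn : ∀ a ∈ LocI R P hP.prime, Un (LocI R' P' hP'.prime) a → Un (LocI R P hP.prime) a := by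
    rintro _ ⟨b, c, hc, rfl⟩ h
    have hc' : (⟨c, hRR c.2⟩ : R') ∉ P' := fun h1 => hc ((hPP c ⟨c, hRR c.2⟩ rfl).2 h1)
    have hcu' : Un (LocI R' P' hP'.prime) (c : Ω) :=
      (un_locI hP'.prime (⟨c, hRR c.2⟩ : R')).2 hc'
    have hcu : Un (LocI R P hP.prime) (c : Ω) := (un_locI hP.prime c).2 hc
    have hbu' : Un (LocI R' P' hP'.prime) (b : Ω) := by
      refine ⟨?_, le_locI hP'.prime (hRR b.2), ?_⟩
      · intro h0
        apply h.1
        rw [h0, zero_div]
      · have h2 : (b : Ω)⁻¹ = ((b : Ω) / c)⁻¹ * (c : Ω)⁻¹ := by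
          rw [inv_div, div_mul_eq_mul_div, mul_inv_cancel₀ hcu.1, one_div]
        rw [h2]
        exact (LocI R' P' hP'.prime).mul_mem h.2.2 hcu'.2.2
    have hb' : (⟨b, hRR b.2⟩ : R') ∉ P' := (un_locI hP'.prime (⟨b, hRR b.2⟩ : R')).1 hbu'
    have hb : b ∉ P := fun h1 => hb' ((hPP b ⟨b, hRR b.2⟩ rfl).1 h1)
    have hbu : Un (LocI R P hP.prime) (b : Ω) := (un_locI hP.prime b).2 hb
    refine ⟨div_ne_zero hbu.1 hcu.1, ?_, ?_⟩
    · rw [div_eq_mul_inv]
      exact (LocI R P hP.prime).mul_mem hbu.2.1 hcu.2.2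
    · rw [inv_div, div_eq_mul_inv]
      exact (LocI R P hP.prime).mul_mem hcu.2.1 hbu.2.2
  have hstN : Stb F' N := fun g hg a ha => hst g (fun b hb => hg b (hF.le hb)) a ha
  have hFN : Fext F N := hF.trans hN
  have hV := frc_locI hP.prime hFr
  have hV' := frc_locI hP'.prime hFr'
  refine unr_of_inertia hDy hV' hN hstN ?_
  intro g hg P'' hP'' hgP
  have hicl : icl (LocI R P hP.prime) N ≤ icl (LocI R' P' hP'.prime) N := by
    intro b hb
    obtain ⟨h1, h2⟩ := mem_icl.1 hb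
    refine mem_icl.2 ⟨?_, h2⟩
    exact unr_mono (V := (LocI R P hP.prime).toSubring) (V' := (LocI R' P' hP'.prime).toSubring)
      (fun a ha => hVV ha) h1
  have hgV : ∀ a ∈ LocI R P hP.prime, g a = a := fun a ha => hg a (hF.le (hV.le a ha))
  have hgF : ∀ a ∈ F, g a = a := fun a ha => hg a (hF.le ha)
  have hgi : ∀ b ∈ icl (LocI R P hP.prime) N, g b - b ∈ icl (LocI R P hP.prime) N := by
    intro b hb
    refine (icl (LocI R P hP.prime) N).sub_mem ?_ hb
    obtain ⟨h1, h2⟩ := mem_icl.1 hb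
    refine mem_icl.2 ⟨?_, hst g hgF b h2⟩
    obtain ⟨p, hp, hpb⟩ := h1
    refine ⟨p, hp, ?_⟩
    have h3 : g (Polynomial.eval₂ (algebraMap (LocI R P hP.prime) Ω) b p) = 0 := by
      rw [hpb, map_zero]
    rw [Polynomial.eval₂_eq_sum_range, map_sum] at h3
    rw [Polynomial.eval₂_eq_sum_range, ← h3]
    refine Finset.sum_congr rfl fun i _ => ?_
    rw [map_mul, map_pow]
    congr 1
    exact (hgV _ (p.coeff i).2).symm
  let ι : icl (LocI R P hP.prime) N →+* icl (LocI R' P' hP'.prime) N :=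
    (Subalgebra.inclusion hicl).toRingHom
  have hι : ∀ b, ((ι b : icl (LocI R' P' hP'.prime) N) : Ω) = b := fun b => rfl
  have hQp : (P''.comap ι).IsPrime := Ideal.comap_isPrime ι P''
  -- maximality
  have hQ : (P''.comap ι).IsMaximal := by
    let _ : Algebra (LocI R P hP.prime) (icl (LocI R P hP.prime) N) :=
      (Subalgebra.inclusion (le_icl hV hFN)).toRingHom.toAlgebra
    have _ : IsScalarTower (LocI R P hP.prime) (icl (LocI R P hP.prime) N) Ω :=
      IsScalarTower.of_algebraMap_eq fun r => rfl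
    have hint : Algebra.IsIntegral (LocI R P hP.prime) (icl (LocI R P hP.prime) N) := ⟨fun b => by
      rw [← isIntegral_algebraMap_iff (R := LocI R P hP.prime) (A := icl (LocI R P hP.prime) N)
        (B := Ω) Subtype.val_injective]
      exact (mem_icl.1 b.2).1⟩
    refine Ideal.isMaximal_of_isIntegral_of_isMaximal_comap (R := LocI R P hP.prime) _ ?_
    rw [Ideal.isMaximal_iff]
    constructor
    · intro h
      exact hQp.ne_top ((Ideal.eq_top_iff_one _).2 (by simpa using h))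
    · intro J a hJ haQ haJ
      have h1 : ι (algebraMap (LocI R P hP.prime) (icl (LocI R P hP.prime) N) a) ∉ P'' := haQ
      have h2 : Un (LocI R' P' hP'.prime) (a : Ω) :=
        kumU_max hV' hN (kumU_local hP'.prime) P'' hP'' _ (hVV a.2) h1
      have h3 := hUn a a.2 h2
      have h4 : (1 : LocI R P hP.prime) = ⟨(a : Ω)⁻¹, h3.2.2⟩ * a :=
        Subtype.ext (inv_mul_cancel₀ h3.1).symm
      rw [h4]
      exact J.mul_mem_left _ haJ
  refine abh_Ω hDx hV hFN hst hm hexp y (hN.le (hFr'.le y y.2)) hyx (P''.comap ι) hQ g hgF ?_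
    (hg y (hFr'.le y y.2))
  intro b
  obtain ⟨d, hd, hgd⟩ := hgP (ι b)
  refine ⟨⟨g (b : Ω) - b, hgi b b.2⟩, ?_, rfl⟩
  rw [Ideal.mem_comap]
  have h1 : ι ⟨g (b : Ω) - b, hgi b b.2⟩ = d := Subtype.ext hgd
  rw [h1]
  exact hd

end Pool.Agent.KMR
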