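import Pool.Agent.Lib.MP_732f67_ag.R.ConB

/-!
Finite extensions of a local ring with perfect trace form are unramified.
-/

namespace Pool.Agent.KMR

open IsLocalRing

/-- nilpotent modulo `𝔪 B`: the trace is in `𝔪` -/
theorem con_trace_nil {A B : Type} [CommRing A] [IsLocalRing A] [CommRing B] [Algebra A B]
    [Module.Finite A B] [Module.Free A B] (c : B) (m : ℕ)
    (hm : c ^ m ∈ (maximalIdeal A).map (algebraMap A B)) :
    Algebra.trace A B c ∈ maximalIdeal A := by
  have h2 : IsNilpotent (Ideal.Quotient.mk ((maximalIdeal A).map (algebraMap A B)) c) :=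
    ⟨m, by rw [← map_pow]; exact Ideal.Quotient.eq_zero_iff_mem.2 hm⟩
  have h3 := Algebra.isNilpotent_trace_of_isNilpotent (R := A ⧸ maximalIdeal A) h2
  rw [Algebra.trace_quotient_mk] at h3
  exact Ideal.Quotient.eq_zero_iff_mem.1 h3.eq_zero

/-- in a reduced artinian ring: an element outside a given prime ideal which kills it -/
theorem con_exists_kill {B : Type} [CommRing B] [IsArtinianRing B] [IsReduced B] (P : Ideal B)
    (hP : P.IsPrime) : ∃ t ∉ P, ∀ x ∈ P, t * x = 0 := by
  classical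
  have hfin : {Q : Ideal B | Q.IsPrime ∧ Q ≠ P}.Finite := by
    have h1 : (Set.range (PrimeSpectrum.asIdeal (R := B))).Finite := Set.finite_range _
    refine h1.subset ?_
    rintro Q ⟨hQ, -⟩
    exact ⟨⟨Q, hQ⟩, rfl⟩
  have h1 : ¬ hfin.toFinset.inf id ≤ P := by
    rw [hP.inf_le']
    rintro ⟨Q, hQ, hle⟩
    obtain ⟨hQp, hne⟩ := hfin.mem_toFinset.1 hQ
    have hQm : Q.IsMaximal := IsArtinianRing.isMaximal_of_isPrime Q
    exact hne (hQm.eq_of_le hP.ne_top hle)
  obtain ⟨t, ht, htP⟩ := SetLike.not_le_iff_exists.1 h1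
  refine ⟨t, htP, fun x hx => ?_⟩
  have h2 : IsNilpotent (t * x) := by
    rw [nilpotent_iff_mem_prime]
    intro Q hQ
    by_cases hQP : Q = P
    · rw [hQP]
      exact P.mul_mem_left _ hx
    · refine Q.mul_mem_right _ ?_
      have h3 : hfin.toFinset.inf id ≤ Q :=
        Finset.inf_le (f := id) (hfin.mem_toFinset.2 ⟨hQ, hQP⟩)
      exact h3 ht
  exact h2.eq_zero

/-- PROOF. First `B / 𝔪 B` is reduced: let `b ^ m ∈ 𝔪 B`, `e` a basis of `B`, `e'` the dual basis
(`Function.Bijective (Algebra.traceForm A B)`), `b = ∑ β i • e i`, `β i = tr (b e' i)`. The image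
of `b e' i` in `B / 𝔪 B` is nilpotent, so `tr (b e' i) ∈ 𝔪` (`Algebra.trace_quotient_mk`, or: the
matrix of a nilpotent element modulo `𝔪` is nilpotent, its trace is zero in the field `A / 𝔪`).
So `b ∈ 𝔪 B`. Then: `B` has finitely many maximal ideals; choose `t` in all of them but `P`,
`t ∉ P`. For `x ∈ P` the product `t * x` is in all maximal ideals, all of which contain `𝔪 B`, and
`B / 𝔪 B` is artinian, so `t * x` is nilpotent modulo `𝔪 B`, and `t * x ∈ 𝔪 B`. -/
theorem unram_of_perfect {A B : Type} [CommRing A] [IsLocalRing A] [CommRing B] [Algebra A B]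
    [Module.Finite A B] (hf : Module.Free A B) (hp : Function.Bijective (Algebra.traceForm A B))
    (P : Ideal B) (hP : P.IsMaximal) :
    ∃ t ∉ P, ∀ x ∈ P, t * x ∈ (maximalIdeal A).map (algebraMap A B) := by
  classical
  set I : Ideal B := (maximalIdeal A).map (algebraMap A B) with hI
  have h5 : ∀ b : B, (∃ m, b ^ m ∈ I) → b ∈ I := by
    rintro b ⟨m, hm⟩
    let e := Module.Free.chooseBasis A B
    rw [← e.sum_repr b]
    refine I.sum_mem fun i _ => ?_
    obtain ⟨c, hc⟩ := hp.2 (e.coord i)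
    have h6 : e.repr b i = Algebra.trace A B (c * b) := by
      have h7 := LinearMap.congr_fun hc b
      rw [Algebra.traceForm_apply] at h7
      exact h7.symm
    rw [Algebra.smul_def, h6]
    refine I.mul_mem_right _ (Ideal.mem_map_of_mem _ ?_)
    exact con_trace_nil _ m (by rw [mul_pow]; exact I.mul_mem_left _ hm)
  have hred : IsReduced (B ⧸ I) :=
    (Ideal.isRadical_iff_quotient_reduced I).1 fun b ⟨m, hm⟩ => h5 b ⟨m, hm⟩
  have hfin : Module.Finite (A ⧸ maximalIdeal A) (B ⧸ I) :=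
    Module.Finite.of_restrictScalars_finite A _ _
  let _ := Ideal.Quotient.field (maximalIdeal A)
  have hart : IsArtinianRing (B ⧸ I) := IsArtinianRing.of_finite (A ⧸ maximalIdeal A) (B ⧸ I)
  have hle : I ≤ P := by
    rw [hI, Ideal.map_le_iff_le_comap]
    have h1 : (P.comap (algebraMap A B)).IsMaximal :=
      Ideal.isMaximal_comap_of_isIntegral_of_isMaximal P
    exact (eq_maximalIdeal h1).ge
  have hker : RingHom.ker (Ideal.Quotient.mk I) ≤ P := by rwa [Ideal.mk_ker]
  have hPp : (P.map (Ideal.Quotient.mk I)).IsPrime :=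
    Ideal.map_isPrime_of_surjective Ideal.Quotient.mk_surjective hker
  obtain ⟨t', ht', hk⟩ := con_exists_kill _ hPp
  obtain ⟨t, rfl⟩ := Ideal.Quotient.mk_surjective t'
  refine ⟨t, fun ht => ht' (Ideal.mem_map_of_mem _ ht), fun x hx => ?_⟩
  have h8 := hk _ (Ideal.mem_map_of_mem (Ideal.Quotient.mk I) hx)
  rw [← map_mul] at h8
  exact Ideal.Quotient.eq_zero_iff_mem.1 h8

end Pool.Agent.KMR
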