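import Pool.Agent.Lib.MP_732f67_ag.R.Tay

/-!
Every non-zero element of a regular local ring has an iterated derivative which is a unit.
-/

namespace Pool.Agent.KMR

variable {k Ω : Type} [Field k] [Field Ω] [Algebra k Ω]

/-- the Taylor expansion together with its compatibility with the derivations (the first half of
the proof of `exists_tay`) -/
theorem exists_tay_der [IsAlgClosed k] [CharZero k] {R : Subalgebra k Ω} {n : ℕ} (h : Dim R n)
    (φ : R →ₐ[k] k) (z : Fin n → Ω) (hz : Par (Loc R φ) z) (D : Fin n → Derivation k Ω Ω)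
    (hD : ∀ i j, D i (z j) = if i = j then 1 else 0) :
    ∃ (hDO : ∀ i, ∀ a ∈ Loc R φ, D i a ∈ Loc R φ)
      (τ : Loc R φ →ₐ[k] MvPowerSeries (Fin n) k),
      (∀ a : Loc R φ, MvPowerSeries.constantCoeff (τ a) ≠ 0 ↔ Un (Loc R φ) (a : Ω)) ∧
      (∀ i (a : Loc R φ) α, MvPowerSeries.coeff α (τ ⟨D i a, hDO i a a.2⟩) =
        (α i + 1 : k) * MvPowerSeries.coeff (α + Finsupp.single i 1) (τ a)) ∧
      ∀ a : Loc R φ, τ a = 0 → a = 0 := by
  classical
  have hloc : IsLocalRing (Loc R φ) := isLocal_loc φ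
  have hno : IsNoetherianRing (Loc R φ) := noeth_loc h.fg φ
  obtain ⟨ψ, hψ⟩ := isPt_loc φ
  obtain ⟨hind, halg⟩ := par_ind h φ z hz
  have hδ : ∀ i j, D i (z j) ∈ Loc R φ := by
    intro i j
    rw [hD]
    split_ifs
    · exact one_mem _
    · exact zero_mem _
  have hDO : ∀ i, ∀ a ∈ Loc R φ, D i a ∈ Loc R φ := fun i a ha =>
    der_mem h.fg φ z hz (D i) (hδ i) a ha
  let E : Fin n → Derivation k (Loc R φ) (Loc R φ) := fun i =>
    Derivation.mk'
      { toFun := fun a => ⟨D i a, hDO i a a.2⟩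
        map_add' := fun a b => Subtype.ext (by
          change D i ((a : Ω) + b) = D i a + D i b
          rw [map_add])
        map_smul' := fun c a => Subtype.ext (by
          change D i (c • (a : Ω)) = c • D i a
          rw [Derivation.map_smul]) }
      (fun a b => Subtype.ext (by
        change D i ((a : Ω) * b) = (a : Ω) * D i b + (b : Ω) * D i a
        rw [Derivation.leibniz, smul_eq_mul, smul_eq_mul]))
  have hE : ∀ i a, ((E i a : Loc R φ) : Ω) = D i a := fun i a => rfl
  obtain ⟨τ, hτ0, hτ⟩ := exists_taylor ψ E (fun i j a => Subtype.ext (by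
    rw [hE, hE, hE, hE]
    exact der_comm z hind D hD i j a (halg a a.2)))
  have hpd : ∀ i a, MvPowerSeries.pderiv k i (τ a) = τ (E i a) := by
    intro i a
    ext α
    rw [MvPowerSeries.coeff_pderiv, hτ, mul_comm]
  have hzO : ∀ i, z i ∈ Loc R φ := fun i => (hz.1 i).1
  have hzψ : ∀ i, ψ ⟨z i, hzO i⟩ = 0 := by
    intro i
    by_contra h1
    exact (hz.1 i).2 ((hψ _).mp h1)
  have hzX : ∀ i, τ ⟨z i, hzO i⟩ = MvPowerSeries.X i := by
    intro i
    refine MvPowerSeries.pderiv.ext (fun j => ?_) ?_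
    · rw [hpd]
      by_cases hij : i = j
      · subst hij
        have h1 : E i ⟨z i, hzO i⟩ = 1 := Subtype.ext (by
          rw [hE, hD, if_pos rfl, OneMemClass.coe_one])
        rw [h1, map_one, MvPowerSeries.pderiv_X_self]
      · have h1 : E j ⟨z i, hzO i⟩ = 0 := Subtype.ext (by
          rw [hE, hD, if_neg (fun h => hij h.symm), ZeroMemClass.coe_zero])
        rw [h1, map_zero, MvPowerSeries.pderiv_X_of_ne hij]
    · rw [hτ0, hzψ, MvPowerSeries.constantCoeff_X]
  have hmax : ∀ x : Loc R φ, x ∈ IsLocalRing.maximalIdeal (Loc R φ) ↔ ψ x = 0 := by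
    intro x
    rw [IsLocalRing.mem_maximalIdeal, mem_nonunits_iff, isUnit_iff_un, ← hψ, not_not]
  refine ⟨hDO, τ, fun a => by rw [hτ0, hψ], fun i a α => hτ i a α, fun a ha => ?_⟩
  have h2 := tay_mem ψ (fun i => (⟨z i, hzO i⟩ : Loc R φ)) hmax (fun i => (hmax _).mpr (hzψ i))
    (fun x hx => by
      obtain ⟨c, hc, hc'⟩ := hz.2 x x.2 (by
        rw [← hψ, not_not]
        exact (hmax x).mp hx)
      refine ⟨fun i => ⟨c i, hc i⟩, Subtype.ext ?_⟩
      rw [hc', AddSubmonoidClass.coe_finsetSum]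
      rfl) τ hτ0 hzX ∅ a (fun α hα => absurd (by rw [ha, map_zero]) hα)
  rw [Finset.coe_empty, Set.image_empty, Ideal.span_empty] at h2
  exact (Submodule.mem_bot _).1 h2

/-- PROOF. See the proof of `exists_tay`: the coefficients of the Taylor expansion of `a` are the
values of the iterated derivatives of `a` divided by factorials. If all of them vanish, then
`a = 0` (`IsTay.mem` with `T = ∅`). -/
theorem exists_word [IsAlgClosed k] [CharZero k] {R : Subalgebra k Ω} {n : ℕ} (h : Dim R n)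
    (φ : R →ₐ[k] k) (z : Fin n → Ω) (hz : Par (Loc R φ) z) (D : Fin n → Derivation k Ω Ω)
    (hD : ∀ i j, D i (z j) = if i = j then 1 else 0) (a : Ω) (ha : a ∈ Loc R φ) (h0 : a ≠ 0) :
    ∃ l : List (Fin n), Un (Loc R φ) (l.foldr (fun i b => D i b) a) := by
  obtain ⟨hDO, τ, hu, hτ, hinj⟩ := exists_tay_der h φ z hz D hD
  by_contra hcon
  rw [not_exists] at hcon
  have hco : ∀ (N : ℕ) (α : Fin n →₀ ℕ), α.degree = N → ∀ (b : Ω) (hb : b ∈ Loc R φ),
      (∀ l : List (Fin n), ¬ Un (Loc R φ) (l.foldr (fun i b => D i b) b)) →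
        MvPowerSeries.coeff α (τ ⟨b, hb⟩) = 0 := by
    intro N
    induction N with
    | zero =>
      intro α hα b hb hl
      rw [Finsupp.degree_eq_zero_iff] at hα
      subst hα
      rw [MvPowerSeries.coeff_zero_eq_constantCoeff_apply]
      by_contra h1
      exact hl [] ((hu ⟨b, hb⟩).1 h1)
    | succ N ih =>
      intro α hα b hb hl
      have hne : α ≠ 0 := by
        rintro rfl
        simp at hα
      obtain ⟨i, hi⟩ := Finsupp.ne_iff.mp hne
      rw [Finsupp.coe_zero, Pi.zero_apply] at hi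
      have hle : Finsupp.single i 1 ≤ α := by
        rw [Finsupp.single_le_iff]
        omega
      obtain ⟨β, rfl⟩ : ∃ β, α = β + Finsupp.single i 1 := ⟨α - Finsupp.single i 1,
        (tsub_add_cancel_of_le hle).symm⟩
      have hβ : β.degree = N := by
        rw [map_add, Finsupp.degree_single] at hα
        omega
      have h3 : ((β i : k) + 1) ≠ 0 := by exact_mod_cast Nat.succ_ne_zero (β i)
      have h4 := hτ i ⟨b, hb⟩ β
      rw [ih β hβ (D i b) (hDO i b hb) (fun l hl' => hl (l ++ [i]) (by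
        rw [List.foldr_append]
        exact hl'))] at h4
      exact (mul_eq_zero.1 h4.symm).resolve_left h3
  have hτ0 : τ ⟨a, ha⟩ = 0 := by
    ext α
    rw [hco _ α rfl a ha hcon, map_zero]
  exact h0 (congrArg Subtype.val (hinj _ hτ0))

end Pool.Agent.KMR
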