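import Pool.Agent.Lib.MP_732f67_ag.R.Prd
import Pool.Agent.Lib.MP_732f67_ag.R.Rch
import Pool.Agent.Lib.MP_732f67_ag.R.UnrD
import Pool.Agent.Lib.MP_732f67_ag.R.ConC

/-!
Purity of the branch locus, over a regular local ring in characteristic zero.
-/

namespace Pool.Agent.KMR

variable {k Ω : Type} [Field k] [Field Ω] [Algebra k Ω]

variable {R : Subalgebra k Ω} {F N : IntermediateField k Ω} {n : ℕ}

/-- the extension `N / F` is unramified over all discrete valuation rings containing `Loc R φ` -/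
def UnrAt (R : Subalgebra k Ω) (F N : IntermediateField k Ω) (φ : R →ₐ[k] k) : Prop :=
  ∀ P (hP : PrD R P), (∀ a ∈ P, φ a = 0) → Unr (LocI R P hP.prime).toSubring F N

/-- the integral closure of the local ring in `N` is stable under the derivations which preserve
the local ring.
PROOF. `D` preserves `LocI R P` (quotients of elements of `R ≤ Loc R φ`), so by `Unr.der` the
derivative of `b` is integral over all the `LocI R P`; `isIntegral_of_prd`. -/
theorem pur_der [IsAlgClosed k] [CharZero k] (hR : R.FG) (hn : Nrm R) (hF : Frc R F)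
    (hN : Fext F N) (φ : R →ₐ[k] k) (hU : UnrAt R F N φ) (D : Derivation k Ω Ω)
    (hD : ∀ a ∈ Loc R φ, D a ∈ Loc R φ) (hDN : ∀ a ∈ N, D a ∈ N) (b : Ω)
    (hb : b ∈ icl (Loc R φ) N) : D b ∈ icl (Loc R φ) N := by
  have hft : Algebra.FiniteType k R := (Subalgebra.fg_iff_finiteType R).1 hR
  have hnR : IsNoetherianRing R := Algebra.FiniteType.isNoetherianRing k R
  have hcΩ : CharZero Ω := (RingHom.charZero_iff (algebraMap k Ω).injective).1 inferInstance
  obtain ⟨hbi, hbN⟩ := mem_icl.1 hb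
  refine mem_icl.2 ⟨?_, hDN b hbN⟩
  refine isIntegral_of_prd hnR hn hF hN φ (D b) (hDN b hbN) fun P hP hPφ => ?_
  have hle := loc_le_locI hP.prime φ hPφ
  have hfr := frc_locI hP.prime hF
  have hnl := nrm_locI hP.prime hn
  have h1 : IsIntegral (LocI R P hP.prime).toSubring b :=
    unr_mono (V := (Loc R φ).toSubring) (V' := (LocI R P hP.prime).toSubring)
      (fun a ha => hle ha) hbi
  have h2 := Unr.der (V := (LocI R P hP.prime).toSubring) (E := F) (E' := N)
    (fun a ha => hfr.frac a ha) (fun a ha hi => by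
      obtain ⟨b, hb, d, hd, hd0, rfl⟩ := hfr.frac a ha
      exact hnl b hb d hd hd0 hi) (fun a ha => hfr.le a ha) (hU P hP hPφ) D ?_ b hbN h1
  · exact h2.2
  · rintro _ ⟨b, c, hc, rfl⟩
    have hcu := (un_locI hP.prime c).2 hc
    have hb' : D (b : Ω) ∈ LocI R P hP.prime := hle (hD _ (le_loc φ b.2))
    have hc' : D (c : Ω) ∈ LocI R P hP.prime := hle (hD _ (le_loc φ c.2))
    have hbm := le_locI hP.prime b.2
    have hcm := le_locI hP.prime c.2
    rw [Derivation.leibniz_div]
    simp only [smul_eq_mul]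
    exact (LocI R P hP.prime).mul_mem ((LocI R P hP.prime).pow_mem hcu.2.2 2)
      ((LocI R P hP.prime).sub_mem ((LocI R P hP.prime).mul_mem hcm hb')
        ((LocI R P hP.prime).mul_mem hbm hc'))

/-- a derivation which preserves `F` preserves finite extensions (minimal polynomials;
characteristic zero) -/
theorem der_ext [CharZero k] (hN : Fext F N) (D : Derivation k Ω Ω) (hD : ∀ a ∈ F, D a ∈ F)
    (a : Ω) (ha : a ∈ N) : D a ∈ N := by
  have hc : CharZero F := charZero_of_injective_algebraMap (algebraMap k F).injective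
  have hint : IsIntegral F a := (hN.alg a ha).isIntegral
  have h0 := Polynomial.Separable.aeval_derivative_ne_zero
    (minpoly.irreducible hint).separable (minpoly.aeval F a)
  have h1 := unr_der_eval D ((minpoly F a).map (algebraMap F Ω)) a
  rw [Polynomial.eval_map, ← Polynomial.aeval_def, minpoly.aeval, map_zero,
    Polynomial.derivative_map, Polynomial.eval_map, ← Polynomial.aeval_def] at h1
  have hev : ∀ p : Polynomial F, Polynomial.aeval a p ∈ N := by
    intro p
    rw [Polynomial.aeval_eq_sum_range]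
    refine N.sum_mem fun i _ => ?_
    change (p.coeff i : Ω) * a ^ i ∈ N
    exact N.mul_mem (hN.le (p.coeff i).2) (pow_mem ha i)
  have h2 : D a = (Polynomial.aeval a (Polynomial.derivative (minpoly F a)))⁻¹ *
      -(∑ i ∈ ((minpoly F a).map (algebraMap F Ω)).support,
        D (((minpoly F a).map (algebraMap F Ω)).coeff i) * a ^ i) := by
    rw [eq_inv_mul_iff_mul_eq₀ h0]
    linear_combination -h1
  rw [h2]
  refine N.mul_mem (N.inv_mem (hev _)) (N.neg_mem (N.sum_mem fun i _ =>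
    N.mul_mem ?_ (pow_mem ha i)))
  rw [Polynomial.coeff_map]
  exact hN.le (hD _ ((minpoly F a).coeff i).2)

/-- the restriction of a derivation to a stable subring -/
def purRes (O : Subalgebra k Ω) (D : Derivation k Ω Ω) (hD : ∀ a ∈ O, D a ∈ O) :
    Derivation ℤ O O :=
  Derivation.mk' (AddMonoidHom.toIntLinearMap
    { toFun := fun a => (⟨D a, hD a a.2⟩ : O)
      map_zero' := Subtype.ext (map_zero D)
      map_add' := fun a b => Subtype.ext (map_add D _ _) }) (fun a b => Subtype.ext (by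
    change D ((a : Ω) * b) = a * D b + b * D a
    rw [Derivation.leibniz, smul_eq_mul, smul_eq_mul]))

theorem purRes_coe (O : Subalgebra k Ω) (D : Derivation k Ω Ω) (hD : ∀ a ∈ O, D a ∈ O) (a : O) :
    ((purRes O D hD a : O) : Ω) = D a := rfl

theorem purRes_foldr (O : Subalgebra k Ω) {n : ℕ} (D : Fin n → Derivation k Ω Ω)
    (hD : ∀ i, ∀ a ∈ O, D i a ∈ O) (l : List (Fin n)) (a : O) :
    ((l.foldr (fun i b => purRes O (D i) (hD i) b) a : O) : Ω) =
      l.foldr (fun i b => D i b) (a : Ω) := by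
  induction l with
  | nil => rfl
  | cons i l ih =>
    rw [List.foldr_cons, List.foldr_cons, purRes_coe, ih]

/-- PROOF. `A = Loc R φ`, `B = icl A N` is a finite `A`-module (`icl_finite`, `noeth_loc`,
`nrm_loc`), the derivations dual to `z` (`exists_der`) preserve `A` (`der_mem`) and `B` (`pur_der`,
`der_ext`); `Reaches` by `exists_word`; `perfect_of_conn`, `unram_of_perfect`; the maximal ideal
of `A` is generated by the `z i`. -/
theorem pur_unram [IsAlgClosed k] [CharZero k] (h : Dim R n) (hn : Nrm R) (hF : Frc R F)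
    (hN : Fext F N) (φ : R →ₐ[k] k) (z : Fin n → Ω) (hz : Par (Loc R φ) z)
    (hU : UnrAt R F N φ) (P : Ideal (icl (Loc R φ) N)) (hP : P.IsMaximal) :
    ∃ t ∉ P, ∀ x ∈ P, ∃ c : Fin n → Ω, (∀ i, c i ∈ icl (Loc R φ) N) ∧
      (t * x : Ω) = ∑ i, c i * z i := by
  classical
  have hFA := frc_loc hF φ
  have hnA := nrm_loc hn φ
  have hnoA : IsNoetherianRing (Loc R φ) := noeth_loc h.fg φ
  have hAB : Loc R φ ≤ icl (Loc R φ) N := le_icl hFA hN
  have hcΩ : CharZero Ω := (RingHom.charZero_iff (algebraMap k Ω).injective).1 inferInstance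
  -- the derivations
  obtain ⟨hind, -⟩ := par_ind h φ z hz
  obtain ⟨D, hD⟩ := exists_der z hind
  have hDA : ∀ i, ∀ a ∈ Loc R φ, D i a ∈ Loc R φ := by
    intro i a ha
    refine der_mem h.fg φ z hz (D i) (fun j => ?_) a ha
    rw [hD]
    split_ifs
    · exact (Loc R φ).one_mem
    · exact (Loc R φ).zero_mem
  have hDF : ∀ i, ∀ a ∈ F, D i a ∈ F := by
    intro i a ha
    obtain ⟨b, hb, d, hd, hd0, rfl⟩ := hFA.frac a ha
    rw [Derivation.leibniz_div]
    simp only [smul_eq_mul]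
    exact F.mul_mem (pow_mem (F.inv_mem (hFA.le d hd)) 2)
      (F.sub_mem (F.mul_mem (hFA.le d hd) (hFA.le _ (hDA i b hb)))
        (F.mul_mem (hFA.le b hb) (hFA.le _ (hDA i d hd))))
  have hDN : ∀ i, ∀ a ∈ N, D i a ∈ N := fun i a ha => der_ext hN (D i) (hDF i) a ha
  have hDB : ∀ i, ∀ a ∈ icl (Loc R φ) N, D i a ∈ icl (Loc R φ) N := fun i a ha =>
    pur_der h.fg hn hF hN φ hU (D i) (hDA i) (hDN i) a ha
  -- the algebra
  let _ : IsLocalRing (Loc R φ) := isLocal_loc φ
  have hcA : CharZero (Loc R φ) :=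
    charZero_of_injective_algebraMap (algebraMap k (Loc R φ)).injective
  let _ : Algebra (Loc R φ) (icl (Loc R φ) N) := (Subalgebra.inclusion hAB).toRingHom.toAlgebra
  have hmap : ∀ a : Loc R φ, ((algebraMap (Loc R φ) (icl (Loc R φ) N) a : icl (Loc R φ) N) : Ω) =
      a := fun _ => rfl
  have hFS : FaithfulSMul (Loc R φ) (icl (Loc R φ) N) := by
    rw [faithfulSMul_iff_algebraMap_injective]
    intro a b hab
    exact Subtype.ext (congrArg (fun x : icl (Loc R φ) N => (x : Ω)) hab)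
  have hfin : Module.Finite (Loc R φ) (icl (Loc R φ) N) := by
    obtain ⟨s, hs⟩ := icl_finite hnoA hnA hFA hN
    let S : Submodule (Loc R φ) Ω := Submodule.span (Loc R φ) (s : Set Ω)
    have hS : Module.Finite (Loc R φ) S := Module.Finite.span_finset (Loc R φ) s
    have hno : IsNoetherian (Loc R φ) S := isNoetherian_of_isNoetherianRing_of_finite _ _
    have hmem : ∀ a : icl (Loc R φ) N, (a : Ω) ∈ S := by
      intro a
      obtain ⟨c, hc, hac⟩ := hs a a.2
      rw [hac]
      exact Submodule.sum_mem _ fun i hi =>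
        Submodule.smul_mem S (⟨c i, hc i⟩ : Loc R φ) (Submodule.subset_span hi)
    let f : icl (Loc R φ) N →ₗ[Loc R φ] S :=
      { toFun := fun a => ⟨a, hmem a⟩
        map_add' := fun a b => rfl
        map_smul' := fun a b => rfl }
    refine Module.Finite.of_injective f fun a b hab => ?_
    exact Subtype.ext (congrArg (fun x : S => (x : Ω)) hab)
  have hreach : Reaches fun i => purRes (Loc R φ) (D i) (hDA i) := by
    intro a ha
    obtain ⟨l, hl⟩ := exists_word h φ z hz D hD a a.2 (fun h0 => ha (Subtype.ext h0))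
    refine ⟨l, ?_⟩
    rw [isUnit_iff_un, purRes_foldr]
    exact hl
  obtain ⟨hfree, hperf⟩ := perfect_of_conn (fun i => purRes (Loc R φ) (D i) (hDA i)) hreach
    (fun i => purRes (icl (Loc R φ) N) (D i) (hDB i)) (fun i a => Subtype.ext rfl)
  obtain ⟨t, ht, htP⟩ := unram_of_perfect hfree hperf P hP
  refine ⟨t, ht, fun x hx => ?_⟩
  -- elements of `𝔪 B`
  let I : Ideal (icl (Loc R φ) N) :=
    { carrier := {y | ∃ c : Fin n → Ω, (∀ i, c i ∈ icl (Loc R φ) N) ∧ (y : Ω) = ∑ i, c i * z i}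
      add_mem' := by
        rintro x y ⟨c, hc, hcx⟩ ⟨d, hd, hdy⟩
        refine ⟨fun i => c i + d i, fun i => (icl (Loc R φ) N).add_mem (hc i) (hd i), ?_⟩
        rw [AddMemClass.coe_add, hcx, hdy, ← Finset.sum_add_distrib]
        exact Finset.sum_congr rfl fun i _ => (add_mul _ _ _).symm
      zero_mem' := ⟨fun _ => 0, fun _ => (icl (Loc R φ) N).zero_mem, by simp⟩
      smul_mem' := by
        rintro b x ⟨c, hc, hcx⟩
        refine ⟨fun i => b * c i, fun i => (icl (Loc R φ) N).mul_mem b.2 (hc i), ?_⟩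
        rw [smul_eq_mul, MulMemClass.coe_mul, hcx, Finset.mul_sum]
        exact Finset.sum_congr rfl fun i _ => (mul_assoc _ _ _).symm }
  have hI : (IsLocalRing.maximalIdeal (Loc R φ)).map
      (algebraMap (Loc R φ) (icl (Loc R φ) N)) ≤ I := by
    rw [Ideal.map_le_iff_le_comap]
    intro a ha
    rw [IsLocalRing.mem_maximalIdeal, mem_nonunits_iff, isUnit_iff_un] at ha
    obtain ⟨c, hc, hac⟩ := hz.2 a a.2 ha
    exact ⟨c, fun i => hAB (hc i), hac⟩
  exact hI (htP x hx)

/-- PURITY. PROOF. `B = icl (Loc R φ) N` is contained in `O' = Loc (icl R N) φ'` (`icl_loc`); let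
`P` be the maximal ideal of the elements of `B` which are not units of `O'`; `pur_unram`; every
element of `O'` which is not a unit is an element of `P` divided by a unit. -/
theorem pur_par [IsAlgClosed k] [CharZero k] (h : Dim R n) (hn : Nrm R) (hF : Frc R F)
    (hN : Fext F N) (φ : R →ₐ[k] k) (z : Fin n → Ω) (hz : Par (Loc R φ) z)
    (hU : UnrAt R F N φ) (φ' : icl R N →ₐ[k] k)
    (hφ : ∀ (a : R) (a' : icl R N), (a : Ω) = a' → φ a = φ' a') :
    Par (Loc (icl R N) φ') z := by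
  have hFA := frc_loc hF φ
  have hRN : R ≤ icl R N := le_icl hF hN
  have hAB : Loc R φ ≤ icl (Loc R φ) N := le_icl hFA hN
  -- `B ≤ O'`
  have hBO : icl (Loc R φ) N ≤ Loc (icl R N) φ' := by
    intro b hb
    obtain ⟨c, hc, hcb⟩ := icl_loc φ b hb hF hN
    have hc0 := loc_ne φ hc
    refine ⟨⟨c * b, hcb⟩, ⟨c, hRN c.2⟩, ?_, ?_⟩
    · rw [← hφ c ⟨c, hRN c.2⟩ rfl]
      exact hc
    · change b = c * b / c
      rw [mul_div_cancel_left₀ _ hc0]
  have hRB : icl R N ≤ icl (Loc R φ) N := by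
    intro b hb
    obtain ⟨hbi, hbN⟩ := mem_icl.1 hb
    refine mem_icl.2 ⟨?_, hbN⟩
    exact unr_mono (V := R.toSubring) (V' := (Loc R φ).toSubring)
      (fun a ha => le_loc φ ha) hbi
  obtain ⟨ψ, hψ⟩ := isPt_loc φ'
  let χ : icl (Loc R φ) N →ₐ[k] k := ψ.comp (Subalgebra.inclusion hBO)
  have hχ : ∀ b : icl (Loc R φ) N, χ b ≠ 0 ↔ Un (Loc (icl R N) φ') (b : Ω) := fun b =>
    hψ (Subalgebra.inclusion hBO b)
  have hmax : (RingHom.ker χ).IsMaximal := RingHom.ker_isMaximal_of_surjective χ fun c =>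
    ⟨algebraMap k _ c, by rw [AlgHom.commutes]; rfl⟩
  obtain ⟨t, ht, htP⟩ := pur_unram h hn hF hN φ z hz hU (RingHom.ker χ) hmax
  have htu : Un (Loc (icl R N) φ') (t : Ω) := (hχ t).1 fun h0 => ht ((RingHom.mem_ker).2 h0)
  have hz1 : ∀ i, z i ∈ Loc (icl R N) φ' ∧ ¬ Un (Loc (icl R N) φ') (z i) := by
    intro i
    refine ⟨hBO (hAB (hz.1 i).1), fun hu => (hz.1 i).2 ?_⟩
    obtain ⟨b, c, hc, hbc⟩ := (hz.1 i).1
    have hc' : φ' ⟨c, hRN c.2⟩ ≠ 0 := by
      rw [← hφ c ⟨c, hRN c.2⟩ rfl]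
      exact hc
    have hcu : Un (Loc (icl R N) φ') (c : Ω) := (un_loc φ' ⟨c, hRN c.2⟩).2 hc'
    have hbu : Un (Loc (icl R N) φ') (b : Ω) := by
      have h1 := hu.mul hcu
      rwa [hbc, div_mul_cancel₀ _ (loc_ne φ hc)] at h1
    have hb' := (un_loc φ' ⟨b, hRN b.2⟩).1 hbu
    rw [← hφ b ⟨b, hRN b.2⟩ rfl] at hb'
    rw [hbc, div_eq_mul_inv]
    exact ((un_loc φ b).2 hb').mul ((un_loc φ c).2 hc).inv
  refine par_of_loc φ' hz1 fun r hr => ?_
  have hrB := hRB r.2
  have hr0 : χ ⟨r, hrB⟩ = 0 := by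
    by_contra h1
    exact (un_loc φ' r).1 ((hχ _).1 h1) hr
  obtain ⟨c, hc, hrc⟩ := htP ⟨r, hrB⟩ ((RingHom.mem_ker).2 hr0)
  refine ⟨fun i => (t : Ω)⁻¹ * c i, fun i => (Loc (icl R N) φ').mul_mem htu.2.2 (hBO (hc i)), ?_⟩
  have h1 : (r : Ω) = (t : Ω)⁻¹ * (t * r) := by
    rw [← mul_assoc, inv_mul_cancel₀ htu.1, one_mul]
  rw [h1, hrc, Finset.mul_sum]
  exact Finset.sum_congr rfl fun i _ => (mul_assoc _ _ _).symm

end Pool.Agent.KMR
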