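import Pool.Agent.Lib.MP_732f67_ag.R.AbhO
import Pool.Agent.Lib.MP_732f67_ag.R.KumC
import Pool.Agent.Lib.MP_732f67_ag.R.Cov
import Pool.Agent.Lib.MP_732f67_ag.R.Pur
import Pool.Agent.Lib.MP_732f67_ag.R.KumUG
import Pool.Agent.Lib.MP_732f67_ag.R.KumP

/-!
After adjoining the `m`-th roots the given extension is unramified.
-/

namespace Pool.Agent.KMR

variable {k Ω : Type} [Field k] [Field Ω] [Algebra k Ω]

namespace Mdl

variable {G : Subgroup (Ω ≃ₐ[k] Ω)} {M : Mdl k Ω G} {n : ℕ} {N : IntermediateField k Ω} {m : ℕ}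

/-- at the boundary: `abh_Ω` and `unr_of_inertia`.
PROOF. `V = LocI (R c) P`, `V' = LocI (R' c) P'`. Let `g` fix `F'`, and let `P''` be a maximal ideal
of `icl V' N` with `g b - b ∈ P''`. `icl V N ≤ icl V' N`, and `P'' ∩ icl V N` is maximal: `P'' ∩ V'` is
the maximal ideal of `V'`, and it lies over the maximal ideal of `V`. `abh_Ω` with
`y = rt m (x c j) ∈ F'`. -/
theorem kum_bdry [IsAlgClosed k] [IsAlgClosed Ω] [CharZero k] (hm : 0 < m) (h : M.Ok n)
    (hF : Fext M.F (M.kum m).F) (hN : Fext (M.kum m).F N) (hst : Stb M.F N)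
    (hexp : ∀ g : Ω ≃ₐ[k] Ω, (∀ a ∈ M.F, g a = a) → ∀ a ∈ N, (g ^ m) a = a)
    (c : M.ι) {P' : Ideal ((M.kum m).R c)} (hP' : PrD ((M.kum m).R c) P') (j : M.J)
    (hj : j ∈ M.S c) (y : (M.kum m).R c) (hy : (y : Ω) = (M.kum m).x c j) (hyP : y ∈ P') :
    Unr (LocI ((M.kum m).R c) P' hP'.prime).toSubring (M.kum m).F N := by
  obtain ⟨P, hP, x, hx, -, hDx, hDy, hPP⟩ := prd_under hm.ne' h c hP' j hj y hy hyP
  refine kumU_bdry hm (kum_le c) (h.toOkR.frc c) ((kum_okR hm.ne' h.toOkR h.toOkV).frc c) hF hN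
    hst hexp hP' hP x y ?_ hDx hDy hPP
  rw [hy, hx]
  have h1 : ((rt m (M.x c j) ^ m : Ωˣ) : Ω) = M.x c j := by rw [rt_pow hm.ne']
  rw [Units.val_pow_eq_pow_val] at h1
  exact h1

/-- the field with the roots adjoined is a finite extension -/
theorem kum_fext [IsAlgClosed Ω] (hm : m ≠ 0) (h : M.OkV) : Fext M.F (M.kum m).F :=
  kumU_fext hm h

/-- it is stable, of exponent `m` (the roots of unity are in `k`) -/
theorem kum_exp [IsAlgClosed k] (hm : m ≠ 0) (h : M.OkV) (g : Ω ≃ₐ[k] Ω)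
    (hg : ∀ a ∈ M.F, g a = a) :
    (∀ a ∈ (M.kum m).F, g a ∈ (M.kum m).F) ∧ ∀ a ∈ (M.kum m).F, (g ^ m) a = a :=
  kumU_exp hm h g hg

/-- THE COVER. Let `N₀` be a finite Galois extension of `E ≤ M.F` of exponent dividing `m`, unramified
over the ring `A₀`, which is contained in the localisation of `R' c` at every prime ideal not
containing the equations of the boundary. Then the normalisation of the model with the roots
in `F' ⊔ N₀` is a good model. PROOF. `kum_good`, `cov_good`, `pur_par`; the prime divisors of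
`R' c` without boundary equations by `Unr.base`, the others by `kum_bdry`. -/
theorem cov_kum [IsAlgClosed k] [IsAlgClosed Ω] [CharZero k] (hm : 0 < m) (h : M.Good n)
    {E N₀ : IntermediateField k Ω} (hE : E ≤ M.F) (hN₀ : Fext E N₀) (hst : Stb E N₀)
    (hexp : ∀ g : Ω ≃ₐ[k] Ω, (∀ a ∈ E, g a = a) → ∀ a ∈ N₀, (g ^ m) a = a)
    (hG : ∀ g : G, ∀ a ∈ E, (g : Ω ≃ₐ[k] Ω) a = a) (A₀ : Subring Ω) (hA₀ : ∀ a ∈ A₀, a ∈ E)
    (hU : Unr A₀ E N₀)
    (hA : ∀ c (P : Ideal ((M.kum m).R c)) (hP : P.IsPrime),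
      (∀ j ∈ M.S c, ∀ y : (M.kum m).R c, (y : Ω) = (M.kum m).x c j → y ∉ P) →
      ∀ a ∈ A₀, a ∈ LocI ((M.kum m).R c) P hP) :
    ((M.kum m).cov ((M.kum m).F ⊔ N₀)).Good n := by
  have hm0 := hm.ne'
  have hK := kum_good hm0 h
  have hEF : E ≤ (M.kum m).F := hE.trans (kumU_le M m)
  have hN : Fext (M.kum m).F ((M.kum m).F ⊔ N₀) := hN₀.base hEF
  refine cov_good hK hN ?_ ?_
  · intro g
    refine kumU_sup_mem _ (fun a ha => ?_) (fun a ha => ?_)
    · exact (le_sup_left : (M.kum m).F ≤ (M.kum m).F ⊔ N₀) (hK.eqF g a ha)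
    · exact (le_sup_right : N₀ ≤ (M.kum m).F ⊔ N₀) (hst _ (hG g) a ha)
  · intro c ψ φ hφ z hz
    refine pur_par (hK.toOkR.dim c) (hK.toOk0.nrm c) (hK.toOkR.frc c) hN ψ z hz ?_ φ hφ
    intro P' hP' hψ
    by_cases hb : ∃ j ∈ M.S c, ∃ y : (M.kum m).R c, (y : Ω) = (M.kum m).x c j ∧ y ∈ P'
    · obtain ⟨j, hj, y, hy, hyP⟩ := hb
      have hstM : Stb M.F ((M.kum m).F ⊔ N₀) := by
        intro g hg
        refine kumU_sup_mem _ (fun a ha => ?_) (fun a ha => ?_)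
        · exact (le_sup_left : (M.kum m).F ≤ (M.kum m).F ⊔ N₀)
            ((kum_exp hm0 h.toOkV g hg).1 a ha)
        · exact (le_sup_right : N₀ ≤ (M.kum m).F ⊔ N₀)
            (hst g (fun b hb => hg b (hE hb)) a ha)
      have hexpM : ∀ g : Ω ≃ₐ[k] Ω, (∀ a ∈ M.F, g a = a) →
          ∀ a ∈ (M.kum m).F ⊔ N₀, (g ^ m) a = a := by
        intro g hg
        refine kumU_sup_fix _ (fun a ha => ?_) (fun a ha => ?_)
        · exact (kum_exp hm0 h.toOkV g hg).2 a ha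
        · exact hexp g (fun b hb => hg b (hE hb)) a ha
      exact kum_bdry hm h.toOk (kum_fext hm0 h.toOkV) hN hstM hexpM c hP' j hj y hy hyP
    · refine Unr.base (V := A₀) (V' := (LocI ((M.kum m).R c) P' hP'.prime).toSubring) ?_ hA₀ hU hEF
      intro a ha
      refine hA c P' hP'.prime ?_ a ha
      intro j hj y hy hyP
      exact hb ⟨j, hj, y, hy, hyP⟩

end Mdl

end Pool.Agent.KMR
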