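import Pool.Agent.Lib.MP_732f67_ag.R.SecB
import Pool.Agent.Lib.MP_732f67_ag.R.Can
import Pool.Agent.Lib.MP_732f67_ag.R.KumU
import Pool.Agent.Lib.MP_732f67_ag.R.A0

/-!
Coordinates off the boundary in the tower of the models; the ring `A₀` off the boundary.
-/

namespace Pool.Agent.KMR

open Polynomial

variable {k Ω : Type} [Field k] [Field Ω] [Algebra k Ω]

section towA

variable {O : Subalgebra k Ω} {n : ℕ}

/-- the ideal generated by the `y i`, inside `Ω` -/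
def towI (O : Subalgebra k Ω) {n : ℕ} (y : Fin n → Ω) : Submodule O Ω :=
  Submodule.span O (Set.range y)

theorem mem_towI {y : Fin n → Ω} {a : Ω} :
    a ∈ towI O y ↔ ∃ b : Fin n → Ω, (∀ i, b i ∈ O) ∧ a = ∑ i, b i * y i := by
  rw [towI, Submodule.mem_span_range_iff_exists_fun]
  constructor
  · rintro ⟨c, hc⟩
    exact ⟨fun i => c i, fun i => (c i).2, hc.symm⟩
  · rintro ⟨b, hb, rfl⟩
    exact ⟨fun i => ⟨b i, hb i⟩, rfl⟩

theorem towI_mul {y : Fin n → Ω} {a b : Ω} (hb : b ∈ O) (ha : a ∈ towI O y) :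
    b * a ∈ towI O y := (towI O y).smul_mem (⟨b, hb⟩ : O) ha

theorem towI_self (y : Fin n → Ω) (i : Fin n) : y i ∈ towI O y :=
  Submodule.subset_span ⟨i, rfl⟩

theorem towI_nu (hO : IsPt O) {y : Fin n → Ω} (hy : ∀ i, y i ∈ O ∧ ¬ Un O (y i)) {a : Ω}
    (ha : a ∈ towI O y) : a ∈ O ∧ ¬ Un O a := by
  obtain ⟨b, hb, rfl⟩ := mem_towI.1 ha
  refine ⟨O.sum_mem fun i _ => O.mul_mem (hb i) (hy i).1, ?_⟩
  refine hO.sum _ _ fun i _ => ⟨O.mul_mem (hb i) (hy i).1, ?_⟩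
  rw [mul_comm]
  exact hO.mul _ _ (hy i).1 (hb i) (hy i).2

/-- the elements which are congruent to a constant modulo the ideal of the `y i` -/
def towA (O : Subalgebra k Ω) {n : ℕ} (y : Fin n → Ω) : Subalgebra k Ω where
  carrier := {a | a ∈ O ∧ ∃ e : k, a - algebraMap k Ω e ∈ towI O y}
  mul_mem' := by
    rintro a b ⟨ha, e, he⟩ ⟨hb, f, hf⟩
    refine ⟨O.mul_mem ha hb, e * f, ?_⟩
    have h1 : a * b - algebraMap k Ω (e * f) =
        b * (a - algebraMap k Ω e) + algebraMap k Ω e * (b - algebraMap k Ω f) := by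
      rw [map_mul]
      ring
    rw [h1]
    exact add_mem (towI_mul hb he) (towI_mul (O.algebraMap_mem e) hf)
  add_mem' := by
    rintro a b ⟨ha, e, he⟩ ⟨hb, f, hf⟩
    refine ⟨O.add_mem ha hb, e + f, ?_⟩
    have h1 : a + b - algebraMap k Ω (e + f) =
        (a - algebraMap k Ω e) + (b - algebraMap k Ω f) := by
      rw [map_add]
      ring
    rw [h1]
    exact add_mem he hf
  algebraMap_mem' r := ⟨O.algebraMap_mem r, r, by rw [sub_self]; exact zero_mem _⟩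

theorem mem_towA {y : Fin n → Ω} {a : Ω} :
    a ∈ towA O y ↔ a ∈ O ∧ ∃ e : k, a - algebraMap k Ω e ∈ towI O y := Iff.rfl

/-- a non-unit in `towA` is in the ideal -/
theorem towA_nu (hO : IsPt O) {y : Fin n → Ω} (hy : ∀ i, y i ∈ O ∧ ¬ Un O (y i)) {a : Ω} {e : k}
    (ha : a ∈ towA O y) (hu : ¬ Un O (a - algebraMap k Ω e)) :
    a - algebraMap k Ω e ∈ towI O y := by
  obtain ⟨ha1, f, hf⟩ := ha
  have h1 := hO.res_unique a f e ha1 (towI_nu hO hy hf).2 hu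
  rwa [h1] at hf

/-- inverses -/
theorem towA_inv (hO : IsPt O) {y : Fin n → Ω} (hy : ∀ i, y i ∈ O ∧ ¬ Un O (y i)) {a : Ω}
    (ha : a ∈ towA O y) (hu : Un O a) : a⁻¹ ∈ towA O y := by
  obtain ⟨ha1, f, hf⟩ := ha
  have hf0 : f ≠ 0 := by
    rintro rfl
    rw [map_zero, sub_zero] at hf
    exact (towI_nu hO hy hf).2 hu
  have hf1 : algebraMap k Ω f ≠ 0 := (_root_.map_ne_zero _).2 hf0
  refine ⟨hu.2.2, f⁻¹, ?_⟩
  have h1 : a⁻¹ - algebraMap k Ω f⁻¹ =
      (-(a⁻¹ * (algebraMap k Ω f⁻¹))) * (a - algebraMap k Ω f) := by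
    rw [map_inv₀]
    have := hu.1
    field_simp
    ring
  rw [h1]
  exact towI_mul (neg_mem (O.mul_mem hu.2.2 (O.algebraMap_mem _))) hf

theorem par_tow {R : Subalgebra k Ω} (φ : R →ₐ[k] k) {y : Fin n → Ω}
    (hy : ∀ i, y i ∈ Loc R φ ∧ ¬ Un (Loc R φ) (y i)) (h : R ≤ towA (Loc R φ) y) :
    Par (Loc R φ) y := by
  refine par_of_loc φ hy fun r hr => ?_
  have h1 := towA_nu (isPt_loc φ) hy (h r.2) (e := 0) (by
    rw [map_zero, sub_zero]
    exact fun hu => (un_loc φ r).1 hu hr)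
  rw [map_zero, sub_zero] at h1
  exact mem_towI.1 h1

/-- the local ring below -/
theorem tow_le {O₀ : Subalgebra k Ω} (h0 : IsPt O₀) (hle : O₀ ≤ O) {n' : ℕ} {z : Fin n' → Ω}
    (hz : Par O₀ z) {y : Fin n → Ω} (hzy : ∀ i, z i ∈ towI O y) : O₀ ≤ towA O y := by
  intro a ha
  obtain ⟨e, he⟩ := h0.res a ha
  obtain ⟨b, hb, hab⟩ := hz.2 _ (O₀.sub_mem ha (O₀.algebraMap_mem e)) he
  refine ⟨hle ha, e, ?_⟩
  rw [hab]
  exact Submodule.sum_mem _ fun i _ => towI_mul (hle (hb i)) (hzy i)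

end towA

namespace Mdl

variable {G : Subgroup (Ω ≃ₐ[k] Ω)} {M : Mdl k Ω G} {n : ℕ} {N : IntermediateField k Ω} {m : ℕ}

/-- PROOF. Compare `prod_okP`. Off the boundary `w` is a unit; on the charts with `w⁻¹` use
`w⁻¹ - e⁻¹ = - (w - e) / (e w)`. -/
theorem CoordP.prod [IsAlgClosed k] [CharZero k] {t : Fin n → Ω} (h : M.Good n)
    (hc : M.CoordP t) (w : Ωˣ) (hw : Transcendental M.F (w : Ω)) :
    (M.prod w).CoordP (Fin.snoc t (w : Ω) : Fin (n + 1) → Ω) := by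
  rintro ⟨c, b⟩ φ ho
  obtain ⟨ψ, h1, h2, h3⟩ := prod_pt' w c b φ
  have hoff : M.Off c ψ := by
    intro j hj
    refine ho (Sum.inl j) ⟨(prod_mem_inl w c b j).2 hj.1, fun hu => hj.2 ?_⟩
    exact (h2 _ (le_loc ψ (h.toOkV.x_R c j hj.1))).2 hu
  obtain ⟨e, he⟩ := hc c ψ hoff
  have hpwu : Un ((M.prod w).O (c, b) φ) (pw w b : Ω) := by
    by_contra hu
    exact ho (Sum.inr b) ⟨(prod_mem_inr w c b b).2 rfl, hu⟩
  have hO := isPt_loc φ
  obtain ⟨ε, hε⟩ := hO.res (pw w b : Ω) hpwu.2.1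
  have hε0 : ε ≠ 0 := by
    rintro rfl
    rw [map_zero, sub_zero] at hε
    exact hε hpwu
  have hε1 : algebraMap k Ω ε ≠ 0 := (_root_.map_ne_zero _).2 hε0
  -- the last coordinate
  obtain ⟨ε', u, hu, hwu⟩ : ∃ (ε' : k) (u : Ω), Un ((M.prod w).O (c, b) φ) u ∧
      (w : Ω) - algebraMap k Ω ε' = u * ((pw w b : Ω) - algebraMap k Ω ε) := by
    cases b with
    | true => exact ⟨ε, 1, Un.one _, by rw [one_mul]; rfl⟩
    | false =>
      have hpw : (pw w false : Ω) = (w : Ω)⁻¹ := by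
        rw [← Units.val_inv_eq_inv_val]
        rfl
      have hwu : Un ((M.prod w).O (c, false) φ) (w : Ω) := by
        have h4 := hpwu.inv
        rwa [hpw, inv_inv] at h4
      refine ⟨ε⁻¹, algebraMap k Ω (-ε⁻¹) * w, (un_algebraMap _ (neg_ne_zero.2
        (inv_ne_zero hε0))).mul hwu, ?_⟩
      rw [hpw, map_neg, map_inv₀]
      have := hwu.1
      field_simp
      ring
  obtain ⟨y, hy⟩ : ∃ y : Fin (n + 1) → Ω, y = Fin.snoc (fun i => t i - algebraMap k Ω (e i))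
    ((pw w b : Ω) - algebraMap k Ω ε) := ⟨_, rfl⟩
  have hyl : y (Fin.last n) = (pw w b : Ω) - algebraMap k Ω ε := by
    rw [hy, Fin.snoc_last]
  have hyc : ∀ i : Fin n, y i.castSucc = t i - algebraMap k Ω (e i) := by
    intro i
    rw [hy, Fin.snoc_castSucc]
  have hyn : ∀ i, y i ∈ (M.prod w).O (c, b) φ ∧ ¬ Un ((M.prod w).O (c, b) φ) (y i) := by
    intro i
    refine Fin.lastCases ?_ (fun i => ?_) i
    · rw [hyl]
      exact ⟨sub_mem hpwu.2.1 (Subalgebra.algebraMap_mem _ _), hε⟩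
    · rw [hyc]
      exact ⟨h1 (he.1 i).1, fun hn => (he.1 i).2 ((h2 _ (he.1 i).1).2 hn)⟩
  have hpar : Par ((M.prod w).O (c, b) φ) y := by
    refine par_tow φ hyn (prod_R_le w c b _ (fun a ha => ?_) ?_)
    · exact tow_le (isPt_loc ψ) h1 he (fun i => by rw [← hyc]; exact towI_self y _)
        (le_loc ψ ha)
    · exact ⟨hpwu.2.1, ε, by rw [← hyl]; exact towI_self y _⟩
  refine ⟨Fin.snoc e ε', ?_⟩
  have h5 := Par.smul hO hpar (Fin.snoc (fun _ => 1) u : Fin (n + 1) → Ω) (fun i => by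
    refine Fin.lastCases ?_ (fun i => ?_) i
    · rw [Fin.snoc_last]
      exact hu
    · rw [Fin.snoc_castSucc]
      exact Un.one _)
  convert h5 using 1
  funext i
  refine Fin.lastCases ?_ (fun i => ?_) i
  · rw [Fin.snoc_last, Fin.snoc_last, Fin.snoc_last, hyl, hwu]
  · rw [Fin.snoc_castSucc, Fin.snoc_castSucc, Fin.snoc_castSucc, hyc, one_mul]

/-- PROOF. `Lie`: the local ring at a point of `M'` off the boundary is a local ring of `M` in which
all the elements of `M'.Ψ`, hence of `M.Ψ`, are units; `off_iff`. -/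
theorem CoordP.lie [IsAlgClosed k] [CharZero k] {M' : Mdl k Ω G} {x : Fin n → Ω}
    (h : M.Ok0 n) (h' : M'.Ok0 n) (hΨ : M.Ψ ≤ M'.Ψ) (hl : M.Lie M') (hc : M.CoordP x) :
    M'.CoordP x := by
  intro c' φ' ho
  obtain ⟨c, φ, -, h2⟩ := hl c' φ'
  have h3 := h2 ho
  have hoff : M.Off c φ := by
    rw [h.off_iff]
    intro a ha
    rw [h3]
    exact (h'.off_iff c' φ').1 ho a (hΨ ha)
  obtain ⟨e, he⟩ := hc c φ hoff
  exact ⟨e, h3 ▸ he⟩

/-- PROOF. See `kum_okP`: off the boundary the elements `u` with `u ^ m ∈ Ψ` are units with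
`u - (value)` in the ideal generated by the parameters below. -/
theorem kum_par_off [IsAlgClosed k] [IsAlgClosed Ω] [CharZero k] (hm : m ≠ 0) (h : M.Ok0 n)
    (c : M.ι) (φ : (M.kum m).R c →ₐ[k] k) (ho : (M.kum m).Off c φ) (ψ : M.R c →ₐ[k] k)
    (hψ : M.O c ψ ≤ (M.kum m).O c φ) (z : Fin n → Ω) (hz : Par (M.O c ψ) z) :
    Par ((M.kum m).O c φ) z := by
  have hO := isPt_loc φ
  have hO₀ := isPt_loc ψ
  have hv := h.toOkV
  have hzn : ∀ i, z i ∈ (M.kum m).O c φ ∧ ¬ Un ((M.kum m).O c φ) (z i) := fun i =>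
    ⟨hψ (hz.1 i).1, fun hu => (hz.1 i).2 (IsPt.dom hO₀ hO hψ _ (hz.1 i).1 hu)⟩
  have hle : M.O c ψ ≤ towA ((M.kum m).O c φ) z :=
    tow_le hO₀ hψ hz fun i => towI_self z i
  refine par_tow φ hzn (sup_le (fun a ha => hle (le_loc ψ ha)) ?_)
  rw [Algebra.adjoin_le_iff]
  rintro _ ⟨u, hu, hvu, rfl⟩
  have huu : Un ((M.kum m).O c φ) (u : Ω) :=
    (kum_okV hm hv).un_O c φ u hu fun j hj => absurd hj (ho j)
  obtain ⟨e, he⟩ := hO.res (u : Ω) huu.2.1
  have he0 : e ≠ 0 := by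
    rintro rfl
    rw [map_zero, sub_zero] at he
    exact he huu
  have ha : (u : Ω) ^ m ∈ M.R c := by
    rw [← Units.val_pow_eq_pow_val]
    exact hv.mem_R c _ hu hvu
  -- the cofactor
  have hfac : (u : Ω) ^ m - algebraMap k Ω (e ^ m) =
      (∑ i ∈ Finset.range m, (u : Ω) ^ i * (algebraMap k Ω e) ^ (m - 1 - i)) *
        ((u : Ω) - algebraMap k Ω e) := by
    rw [map_pow, (Commute.all (u : Ω) (algebraMap k Ω e)).geom_sum₂_mul]
  have hsum : Un ((M.kum m).O c φ)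
      (∑ i ∈ Finset.range m, (u : Ω) ^ i * (algebraMap k Ω e) ^ (m - 1 - i)) := by
    obtain ⟨χ, hχ⟩ := hO
    have hue : χ ⟨u, huu.2.1⟩ = e := by
      by_contra h3
      apply he
      have h4 := (hχ (⟨u, huu.2.1⟩ - algebraMap k _ e)).1 (by
        rw [map_sub, AlgHom.commutes]
        exact sub_ne_zero.2 h3)
      exact h4
    have h5 := (hχ (∑ i ∈ Finset.range m, (⟨u, huu.2.1⟩ : (M.kum m).O c φ) ^ i *
      (algebraMap k _ e) ^ (m - 1 - i))).1 (by
        rw [map_sum]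
        have h6 : ∀ i ∈ Finset.range m, χ ((⟨u, huu.2.1⟩ : (M.kum m).O c φ) ^ i *
            (algebraMap k _ e) ^ (m - 1 - i)) = e ^ (m - 1) := by
          intro i hi
          rw [map_mul, map_pow, map_pow, hue, AlgHom.commutes, Algebra.algebraMap_self,
            RingHom.id_apply, ← pow_add]
          congr 1
          have := Finset.mem_range.1 hi
          omega
        rw [Finset.sum_congr rfl h6, Finset.sum_const, Finset.card_range, nsmul_eq_mul]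
        exact mul_ne_zero (Nat.cast_ne_zero.2 hm) (pow_ne_zero _ he0))
    have h7 : ((∑ i ∈ Finset.range m, (⟨u, huu.2.1⟩ : (M.kum m).O c φ) ^ i *
        (algebraMap k _ e) ^ (m - 1 - i) : (M.kum m).O c φ) : Ω) =
        ∑ i ∈ Finset.range m, (u : Ω) ^ i * (algebraMap k Ω e) ^ (m - 1 - i) := by
      rw [AddSubmonoidClass.coe_finset_sum]
      rfl
    rwa [h7] at h5
  refine ⟨huu.2.1, e, ?_⟩
  have hnu : ¬ Un ((M.kum m).O c φ) ((u : Ω) ^ m - algebraMap k Ω (e ^ m)) := by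
    rw [hfac, mul_comm]
    exact hO.mul _ _ (sub_mem huu.2.1 (Subalgebra.algebraMap_mem _ _)) hsum.2.1 he
  have h8 := towA_nu hO hzn (hle (le_loc ψ ha)) hnu
  have h9 : (u : Ω) - algebraMap k Ω e =
      (∑ i ∈ Finset.range m, (u : Ω) ^ i * (algebraMap k Ω e) ^ (m - 1 - i))⁻¹ *
        ((u : Ω) ^ m - algebraMap k Ω (e ^ m)) := by
    rw [hfac, inv_mul_cancel_left₀ hsum.1]
  rw [h9]
  exact towI_mul hsum.2.2 h8

theorem CoordP.kum [IsAlgClosed k] [IsAlgClosed Ω] [CharZero k] {x : Fin n → Ω} (hm : m ≠ 0)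
    (h : M.Ok0 n) (hc : M.CoordP x) : (M.kum m).CoordP x := by
  intro c φ ho
  obtain ⟨ψ, h1, -, h3⟩ := kum_pt hm h.toOkV c φ
  obtain ⟨e, he⟩ := hc c ψ fun j hj => ho j ((h3 j).1 hj)
  exact ⟨e, kum_par_off hm h c φ ho ψ h1 _ he⟩

theorem CoordP.cov [IsAlgClosed k] [CharZero k] {x : Fin n → Ω} (h : M.Ok0 n)
    (hN : Fext M.F N) (hU : CovU M N n) (hc : M.CoordP x) : (M.cov N).CoordP x := by
  intro c φ ho
  obtain ⟨ψ, h0, -, -, h3⟩ := cov_pt h.toOkR h.toOkV hN c φ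
  obtain ⟨e, he⟩ := hc c ψ fun j hj => ho j ((h3 j).1 hj)
  exact ⟨e, hU c ψ φ h0 _ he⟩

/-- change of the last coordinate, `w = h (z)`.
PROOF. At a point off the boundary let `z₀` be the value of `z`, `t i - e i`, `w - e` parameters. The
coefficients `a j` of `h` are in `O`, and `a j - ā j` is in the ideal of the `t i - e i`, `ā j ∈ k` the
value (`k[t, g⁻¹]` is generated by the `t i` and `g⁻¹`). So `w - e` is congruent to
`∑ ā j (z ^ j - z₀ ^ j) + constant`, the constant is zero, hence `w - e` is in the ideal of the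
`t i - e i` and `z - z₀`. -/
theorem CoordP.change [IsAlgClosed k] {t : Fin n → Ω} {z w g : Ω}
    (h : (kt (k := k) t)[X]) (hw : w = aeval z h)
    (hh : ∀ i, (h.coeff i : Ω) ∈ Algebra.adjoin k (Set.range t ∪ {g⁻¹}))
    (hg : g ∈ Algebra.adjoin k (Set.range t))
    (hgu : ∀ c (φ : M.R c →ₐ[k] k), M.Off c φ → Un (M.O c φ) g)
    (hz : ∀ c (φ : M.R c →ₐ[k] k), M.Off c φ → z ∈ M.O c φ)
    (hc : M.CoordP (Fin.snoc t w : Fin (n + 1) → Ω)) :
    M.CoordP (Fin.snoc t z : Fin (n + 1) → Ω) := by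
  intro c φ ho
  have hO := isPt_loc φ
  obtain ⟨e, he⟩ := hc c φ ho
  have hzO := hz c φ ho
  have hgU := hgu c φ ho
  obtain ⟨z₀, hz₀⟩ := hO.res z hzO
  have hel : ∀ i : Fin n, (Fin.snoc t w : Fin (n + 1) → Ω) i.castSucc = t i := fun i =>
    Fin.snoc_castSucc (α := fun _ => Ω) _ _ _
  have heL : (Fin.snoc t w : Fin (n + 1) → Ω) (Fin.last n) = w := Fin.snoc_last (α := fun _ => Ω) _ _
  obtain ⟨y, hy⟩ : ∃ y : Fin (n + 1) → Ω, y = Fin.snoc
    (fun i => t i - algebraMap k Ω (e i.castSucc)) (z - algebraMap k Ω z₀) := ⟨_, rfl⟩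
  have hyl : y (Fin.last n) = z - algebraMap k Ω z₀ := by
    rw [hy, Fin.snoc_last]
  have hyc : ∀ i : Fin n, y i.castSucc = t i - algebraMap k Ω (e i.castSucc) := by
    intro i
    rw [hy, Fin.snoc_castSucc]
  have hte : ∀ i : Fin n, t i - algebraMap k Ω (e i.castSucc) ∈ M.O c φ ∧
      ¬ Un (M.O c φ) (t i - algebraMap k Ω (e i.castSucc)) := by
    intro i
    have h1 := he.1 i.castSucc
    dsimp only at h1
    rw [hel] at h1
    exact h1
  have hyn : ∀ i, y i ∈ M.O c φ ∧ ¬ Un (M.O c φ) (y i) := by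
    intro i
    refine Fin.lastCases ?_ (fun i => ?_) i
    · rw [hyl]
      exact ⟨sub_mem hzO (Subalgebra.algebraMap_mem _ _), hz₀⟩
    · rw [hyc]
      exact hte i
  have htA : ∀ i, t i ∈ towA (M.O c φ) y := by
    intro i
    refine ⟨?_, e i.castSucc, by rw [← hyc]; exact towI_self y _⟩
    have h1 := add_mem (hte i).1 (Subalgebra.algebraMap_mem (M.O c φ) (e i.castSucc))
    rwa [sub_add_cancel] at h1
  have hzA : z ∈ towA (M.O c φ) y := ⟨hzO, z₀, by rw [← hyl]; exact towI_self y _⟩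
  have htR : Algebra.adjoin k (Set.range t) ≤ towA (M.O c φ) y := by
    rw [Algebra.adjoin_le_iff]
    rintro _ ⟨i, rfl⟩
    exact htA i
  have hgA : g⁻¹ ∈ towA (M.O c φ) y := towA_inv hO hyn (htR hg) hgU
  have hcA : Algebra.adjoin k (Set.range t ∪ {g⁻¹}) ≤ towA (M.O c φ) y := by
    rw [Algebra.adjoin_le_iff]
    rintro _ (⟨i, rfl⟩ | h1)
    · exact htA i
    · rw [Set.mem_singleton_iff.1 h1]
      exact hgA
  have hwA : w ∈ towA (M.O c φ) y := by
    rw [hw, aeval_eq_sum_range]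
    refine Subalgebra.sum_mem _ fun i _ => ?_
    rw [Algebra.smul_def]
    exact Subalgebra.mul_mem _ (hcA (hh i)) (Subalgebra.pow_mem _ hzA _)
  have hwe := he.1 (Fin.last n)
  dsimp only at hwe
  rw [heL] at hwe
  have hwI := towA_nu hO hyn hwA hwe.2
  refine ⟨Fin.snoc (fun i => e i.castSucc) z₀, ?_⟩
  have hfun : (fun i => (Fin.snoc t z : Fin (n + 1) → Ω) i -
      algebraMap k Ω ((Fin.snoc (fun i => e i.castSucc) z₀ : Fin (n + 1) → k) i)) = y := by
    funext i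
    refine Fin.lastCases ?_ (fun i => ?_) i
    · rw [Fin.snoc_last, Fin.snoc_last, hyl]
    · rw [Fin.snoc_castSucc, Fin.snoc_castSucc, hyc]
  rw [hfun]
  refine ⟨hyn, fun r hr hnr => ?_⟩
  obtain ⟨a, ha, hra⟩ := he.2 r hr hnr
  rw [← mem_towI, hra]
  refine Submodule.sum_mem _ fun i _ => towI_mul (ha i) ?_
  dsimp only
  refine Fin.lastCases ?_ (fun i => ?_) i
  · rw [heL]
    exact hwI
  · rw [hel, ← hyc]
    exact towI_self y _

end Mdl

end Pool.Agent.KMR
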