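import Pool.Agent.Lib.MP_732f67_ag.R.Over
import Pool.Agent.Lib.MP_732f67_ag.R.KumU
import Pool.Agent.Lib.MP_732f67_ag.R.A0

/-!
The ring `A₀` off the boundary.
-/

namespace Pool.Agent.KMR

open Polynomial

variable {k Ω : Type} [Field k] [Field Ω] [Algebra k Ω]

namespace Mdl

variable {G : Subgroup (Ω ≃ₐ[k] Ω)} {M : Mdl k Ω G} {n : ℕ} {N : IntermediateField k Ω} {m : ℕ}

/-- the data which force `A₀` into the rings -/
structure HasA0 (M : Mdl k Ω G) {l : ℕ} (t : Fin l → Ω) (g : Ω) (w : Ω) (C : Finset Ω) : Prop where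
  t_Ψ : ∀ i, ∃ a ∈ M.Ψ, (a : Ω) = t i
  g_Ψ : ∃ a ∈ M.Ψ, (a : Ω) = g
  w_Ψ : ∃ a ∈ M.Ψ, (a : Ω) = w
  wl_Ψ : ∀ l ∈ C, ∃ a ∈ M.Ψ, (a : Ω) = w - l

theorem HasA0.mono {M' : Mdl k Ω G} {l : ℕ} {t : Fin l → Ω} {g w : Ω} {C : Finset Ω}
    (h : M.HasA0 t g w C) (hΨ : M.Ψ ≤ M'.Ψ) : M'.HasA0 t g w C := by
  refine ⟨fun i => ?_, ?_, ?_, fun l hl => ?_⟩
  · obtain ⟨a, ha, h1⟩ := h.t_Ψ i
    exact ⟨a, hΨ ha, h1⟩
  · obtain ⟨a, ha, h1⟩ := h.g_Ψ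
    exact ⟨a, hΨ ha, h1⟩
  · obtain ⟨a, ha, h1⟩ := h.w_Ψ
    exact ⟨a, hΨ ha, h1⟩
  · obtain ⟨a, ha, h1⟩ := h.wl_Ψ l hl
    exact ⟨a, hΨ ha, h1⟩

/-- a ring in which the elements of `Ψ` are units contains `A₀` -/
theorem HasA0.sub {l : ℕ} {t : Fin l → Ω} {g w : Ω} {C : Finset Ω} (h : M.HasA0 t g w C)
    (O : Subalgebra k Ω) (hO : ∀ a ∈ M.Ψ, Un O (a : Ω)) : A0 t g w C ≤ O := by
  refine Algebra.adjoin_le ?_
  rintro a ((⟨i, rfl⟩ | (ha | ha)) | ⟨l, hl, ha⟩)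
  · obtain ⟨b, hb, h1⟩ := h.t_Ψ i
    rw [← h1]
    exact (hO b hb).2.1
  · obtain ⟨b, hb, h1⟩ := h.g_Ψ
    rw [ha, ← h1]
    exact (hO b hb).2.2
  · obtain ⟨b, hb, h1⟩ := h.w_Ψ
    rw [Set.mem_singleton_iff.1 ha, ← h1]
    exact (hO b hb).2.1
  · obtain ⟨b, hb, h1⟩ := h.wl_Ψ l hl
    rw [ha, ← h1]
    exact (hO b hb).2.2

/-- off the boundary `A₀` is contained in the local rings -/
theorem HasA0.le [IsAlgClosed k] [CharZero k] {l : ℕ} {t : Fin l → Ω} {g w : Ω} {C : Finset Ω}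
    (h : M.HasA0 t g w C) (hM : M.Ok0 n) (c : M.ι) (φ : M.R c →ₐ[k] k) (ho : M.Off c φ) :
    A0 t g w C ≤ M.O c φ :=
  h.sub _ ((hM.off_iff c φ).1 ho)

/-- and off the boundary elements of `F` integral over `A₀` are in the local rings -/
theorem HasA0.mem [IsAlgClosed k] [CharZero k] {l : ℕ} {t : Fin l → Ω} {g w : Ω}
    {C : Finset Ω} (h : M.HasA0 t g w C) (hM : M.Ok0 n) (c : M.ι) (φ : M.R c →ₐ[k] k)
    (ho : M.Off c φ) (a : Ω) (ha : a ∈ M.F) (hi : IsIntegral (A0 (k := k) t g w C) a) :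
    a ∈ M.O c φ := by
  obtain ⟨b, hb, d, hd, hd0, hab⟩ := hM.frac c a ha
  have h1 : IsIntegral (M.O c φ) (b / d) := hab ▸ cov_mono (h.le hM c φ ho) hi
  rw [hab]
  exact nrm_loc (hM.nrm c) φ b (le_loc φ hb) d (le_loc φ hd) hd0 h1

/-- at a prime ideal which does not contain the equations of the boundary -/
theorem HasA0.locI [IsAlgClosed Ω] {l : ℕ} {t : Fin l → Ω} {g w : Ω}
    {C : Finset Ω} (h : M.HasA0 t g w C) (hM : M.OkV) (hm : m ≠ 0) (c : M.ι)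
    (P : Ideal ((M.kum m).R c)) (hP : P.IsPrime)
    (hn : ∀ j ∈ M.S c, ∀ y : (M.kum m).R c, (y : Ω) = (M.kum m).x c j → y ∉ P) :
    A0 t g w C ≤ LocI ((M.kum m).R c) P hP := by
  refine h.sub _ fun a ha => ?_
  have hx : ∀ j ∈ M.S c, Un (LocI ((M.kum m).R c) P hP) (M.x c j : Ω) := by
    intro j hj
    have h1 : ((M.kum m).x c j : Ω) ∈ (M.kum m).R c := (kum_okV hm hM).x_R c j hj
    have h2 : Un (LocI ((M.kum m).R c) P hP) ((M.kum m).x c j : Ω) :=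
      (un_locI hP ⟨_, h1⟩).2 (hn j hj ⟨_, h1⟩ rfl)
    have h3 : (M.x c j : Ω) = ((M.kum m).x c j : Ω) ^ m := by
      rw [← Units.val_pow_eq_pow_val]
      exact congrArg Units.val (rt_pow hm (M.x c j)).symm
    rw [h3]
    exact h2.pow m
  obtain ⟨e, -, he, hae⟩ := hM.eq_monomial c a ha
  rw [hae, Units.val_mul, Units.coe_prod]
  refine (he.mono ((kum_le c).trans (le_locI hP))).mul (Un.prod _ _ fun j hj => ?_)
  rw [Units.val_zpow_eq_zpow_val]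
  exact (hx j hj).zpow _

end Mdl

end Pool.Agent.KMR
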