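import Pool.Agent.Lib.MP_732f67_ag.R.Unr

/-!
The normal closure of an unramified extension is unramified.
-/

namespace Pool.Agent.KMR

open Polynomial

variable {k Ω : Type} [Field k] [Field Ω] [Algebra k Ω]

/-- the conjugates of a field generated by finitely many integral elements: a finite set -/
theorem unr_conj_finite {E E' : IntermediateField k Ω} (s : Finset Ω)
    (hs : ∀ a ∈ s, IsIntegral E a) (he : E' = IntermediateField.adjoin k ((E : Set Ω) ∪ s)) :
    {L : IntermediateField k Ω | ∃ g : Ω ≃ₐ[k] Ω, (∀ a ∈ E, g a = a) ∧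
      L = E'.map (g : Ω →ₐ[k] Ω)}.Finite := by
  have hR : (⋃ a ∈ s, (minpoly E a).rootSet Ω).Finite :=
    s.finite_toSet.biUnion fun a _ => rootSet_finite _ _
  refine (hR.finite_subsets.image fun t : Set Ω =>
    IntermediateField.adjoin k ((E : Set Ω) ∪ t)).subset ?_
  rintro L ⟨g, hg, rfl⟩
  refine ⟨(g : Ω →ₐ[k] Ω) '' (s : Set Ω), ?_, ?_⟩
  · rintro _ ⟨a, ha, rfl⟩
    refine Set.mem_iUnion₂.2 ⟨a, ha, ?_⟩
    rw [mem_rootSet]
    refine ⟨minpoly.ne_zero (hs a ha), ?_⟩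
    let g' : Ω →ₐ[E] Ω := { (g : Ω →+* Ω) with commutes' := fun r => hg r r.2 }
    have h1 : aeval (g' a) (minpoly E a) = 0 := by
      rw [aeval_algHom_apply, minpoly.aeval, map_zero]
    exact h1
  · change IntermediateField.adjoin k ((E : Set Ω) ∪ (g : Ω →ₐ[k] Ω) '' (s : Set Ω)) = _
    rw [he, IntermediateField.adjoin_map, Set.image_union]
    congr 2
    ext x
    constructor
    · intro hx
      exact ⟨x, hx, hg x hx⟩
    · rintro ⟨y, hy, rfl⟩
      have h1 : g y = y := hg y hy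
      change g y ∈ (E : Set Ω)
      rw [h1]
      exact hy

/-- THE NORMAL CLOSURE is unramified: it is the compositum of finitely many conjugates, `Ω`
algebraically closed, characteristic zero. Here `N` is stable under all automorphisms of `Ω` which
fix `E`. -/
theorem Unr.normal [IsAlgClosed Ω] [CharZero k] {V : Subring Ω} {E E' : IntermediateField k Ω}
    (hVE : ∀ a ∈ V, a ∈ E) (h : Unr V E E') :
    ∃ N : IntermediateField k Ω, E' ≤ N ∧ Unr V E N ∧
      ∀ g : Ω ≃ₐ[k] Ω, (∀ a ∈ E, g a = a) → ∀ a ∈ N, g a ∈ N := by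
  obtain ⟨s, hs, he⟩ := h.finite hVE
  have hsE : ∀ a ∈ s, IsIntegral E a := fun a ha =>
    IsIntegral.map_of_comp_eq (V.subtype.codRestrict E (fun x => hVE x x.2)) (RingHom.id Ω) rfl
      (hs a ha)
  have hfin := unr_conj_finite s hsE he
  let T : Finset (IntermediateField k Ω) := hfin.toFinset
  have hT : ∀ L, L ∈ T ↔ ∃ g : Ω ≃ₐ[k] Ω, (∀ a ∈ E, g a = a) ∧
      L = E'.map (g : Ω →ₐ[k] Ω) := fun L => hfin.mem_toFinset
  have hle : ∀ L ∈ T, L ≤ E ⊔ T.sup id := fun L hL =>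
    (Finset.le_sup (f := id) hL).trans le_sup_right
  refine ⟨E ⊔ T.sup id, ?_, Unr.sup hVE T id fun L hL => ?_, fun g hg => ?_⟩
  · refine le_trans ?_ (hle (E'.map ((AlgEquiv.refl : Ω ≃ₐ[k] Ω) : Ω →ₐ[k] Ω))
      ((hT _).2 ⟨AlgEquiv.refl, fun _ _ => rfl, rfl⟩))
    intro a ha
    exact ⟨a, ha, rfl⟩
  · obtain ⟨g, hg, rfl⟩ := (hT L).1 hL
    exact h.map hVE g hg
  · have key : E ⊔ T.sup id ≤ (E ⊔ T.sup id).comap (g : Ω →ₐ[k] Ω) := by
      refine sup_le ?_ (Finset.sup_le fun L hL => ?_)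
      · intro a ha
        change g a ∈ E ⊔ T.sup id
        rw [hg a ha]
        exact (le_sup_left : E ≤ E ⊔ T.sup id) ha
      · obtain ⟨g', hg', rfl⟩ := (hT L).1 hL
        rintro _ ⟨a, ha, rfl⟩
        change g (g' a) ∈ E ⊔ T.sup id
        refine hle (E'.map ((g'.trans g : Ω ≃ₐ[k] Ω) : Ω →ₐ[k] Ω))
          ((hT _).2 ⟨g'.trans g, fun b hb => ?_, rfl⟩) ⟨a, ha, rfl⟩
        rw [AlgEquiv.trans_apply, hg' b hb, hg b hb]
    exact fun a ha => key ha

end Pool.Agent.KMR
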