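import Pool.Agent.Lib.MP_732f67_ag.R.MainDef
import Pool.Agent.Lib.MP_732f67_ag.R.Tow
import Pool.Agent.Lib.MP_732f67_ag.R.TowA
import Pool.Agent.Lib.MP_732f67_ag.R.UnrN

/-!
The unramified cover.
-/

namespace Pool.Agent.KMR

open Polynomial

variable {k Ω : Type} [Field k] [Field Ω] [Algebra k Ω]

/-- an unramified extension is finite -/
theorem mainC_fext {V : Subring Ω} {E N : IntermediateField k Ω} (hV : ∀ a ∈ V, a ∈ E)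
    (h : Unr V E N) : Fext E N := by
  obtain ⟨s, hs, hN⟩ := h.finite hV
  refine ⟨h.le, s, fun a ha => ?_, hN⟩
  have h1 : IsIntegral E a :=
    IsIntegral.map_of_comp_eq (V.subtype.codRestrict E (fun x => hV x x.2)) (RingHom.id Ω) rfl
      (hs a ha)
  exact h1.isAlgebraic

namespace Mdl

variable {G : Subgroup (Ω ≃ₐ[k] Ω)} {M : Mdl k Ω G} {n : ℕ} {m : ℕ}

/-- the cover with the roots adjoined is unramified at all points (see `cov_kum`) -/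
theorem mainC_covU [IsAlgClosed k] [IsAlgClosed Ω] [CharZero k] (hm : 0 < m) (h : M.Good n)
    {E N₀ : IntermediateField k Ω} (hE : E ≤ M.F) (hN₀ : Fext E N₀) (hst : Stb E N₀)
    (hexp : ∀ g : Ω ≃ₐ[k] Ω, (∀ a ∈ E, g a = a) → ∀ a ∈ N₀, (g ^ m) a = a)
    (A₀ : Subring Ω) (hA₀ : ∀ a ∈ A₀, a ∈ E) (hU : Unr A₀ E N₀)
    (hA : ∀ c (P : Ideal ((M.kum m).R c)) (hP : P.IsPrime),
      (∀ j ∈ M.S c, ∀ y : (M.kum m).R c, (y : Ω) = (M.kum m).x c j → y ∉ P) →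
      ∀ a ∈ A₀, a ∈ LocI ((M.kum m).R c) P hP) :
    CovU (M.kum m) ((M.kum m).F ⊔ N₀) n := by
  have hm0 := hm.ne'
  have hK := kum_good hm0 h
  have hEF : E ≤ (M.kum m).F := hE.trans (kumU_le M m)
  have hN : Fext (M.kum m).F ((M.kum m).F ⊔ N₀) := hN₀.base hEF
  intro c ψ φ hφ z hz
  refine pur_par (hK.toOkR.dim c) (hK.toOk0.nrm c) (hK.toOkR.frc c) hN ψ z hz ?_ φ hφ
  intro P' hP' hψ
  by_cases hb : ∃ j ∈ M.S c, ∃ y : (M.kum m).R c, (y : Ω) = (M.kum m).x c j ∧ y ∈ P'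
  · obtain ⟨j, hj, y, hy, hyP⟩ := hb
    have hstM : Stb M.F ((M.kum m).F ⊔ N₀) := by
      intro g hg
      refine kumU_sup_mem _ (fun a ha => ?_) (fun a ha => ?_)
      · exact (le_sup_left : (M.kum m).F ≤ (M.kum m).F ⊔ N₀)
          ((kum_exp hm0 h.toOkV g hg).1 a ha)
      · exact (le_sup_right : N₀ ≤ (M.kum m).F ⊔ N₀)
          (hst g (fun b hb => hg b (hE hb)) a ha)
    have hexpM : ∀ g : Ω ≃ₐ[k] Ω, (∀ a ∈ M.F, g a = a) →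
        ∀ a ∈ (M.kum m).F ⊔ N₀, (g ^ m) a = a := by
      intro g hg
      refine kumU_sup_fix _ (fun a ha => ?_) (fun a ha => ?_)
      · exact (kum_exp hm0 h.toOkV g hg).2 a ha
      · exact hexp g (fun b hb => hg b (hE hb)) a ha
    exact kum_bdry hm h.toOk (kum_fext hm0 h.toOkV) hN hstM hexpM c hP' j hj y hy hyP
  · refine Unr.base (V := A₀) (V' := (LocI ((M.kum m).R c) P' hP'.prime).toSubring) ?_ hA₀ hU hEF
    intro a ha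
    refine hA c P' hP'.prime ?_ a ha
    intro j hj y hy hyP
    exact hb ⟨j, hj, y, hy, hyP⟩

/-- the point of `M` under a point of the cover -/
theorem mainC_pt [IsAlgClosed k] [IsAlgClosed Ω] [CharZero k] (hm : m ≠ 0) (h : M.Good n)
    {N : IntermediateField k Ω} (hN : Fext (M.kum m).F N) (c : ((M.kum m).cov N).ι)
    (φ : ((M.kum m).cov N).R c →ₐ[k] k) : ∃ c₀, ∃ φ₀ : M.R c₀ →ₐ[k] k,
      M.O c₀ φ₀ ≤ ((M.kum m).cov N).O c φ ∧ (M.Off c₀ φ₀ ↔ ((M.kum m).cov N).Off c φ) := by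
  have hK := kum_good hm h
  obtain ⟨ψ, -, h1, -, h2⟩ := cov_pt hK.toOkR hK.toOkV hN c φ
  obtain ⟨φ₀, h3, -, h4⟩ := kum_pt hm h.toOkV c ψ
  refine ⟨c, φ₀, h3.trans h1, ?_⟩
  constructor
  · exact fun h5 j hj => h5 j ((h4 j).2 ((h2 j).2 hj))
  · exact fun h5 j hj => h5 j ((h2 j).1 ((h4 j).1 hj))

theorem mainC_cov [IsAlgClosed k] [IsAlgClosed Ω] [CharZero k] (hm : m ≠ 0) (h : M.Good n)
    {N : IntermediateField k Ω} (hN : Fext (M.kum m).F N) (hU : CovU (M.kum m) N n)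
    {x : Fin n → Ω} (hc : M.CoordP x) : ((M.kum m).cov N).CoordP x := by
  have hK := kum_good hm h
  have h1 := CoordP.kum hm h.toOk0 hc
  exact CoordP.cov hK.toOk0 hN hU h1

/-- the cover as a model: all properties -/
theorem mainC_ex [IsAlgClosed k] [IsAlgClosed Ω] [CharZero k] (hm : m ≠ 0) (h : M.Good n)
    {N : IntermediateField k Ω} (hN : Fext (M.kum m).F N) (hU : CovU (M.kum m) N n)
    (hg : ((M.kum m).cov N).Good n) {x : Fin n → Ω} (hc : M.CoordP x) :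
    ∃ M' : Mdl k Ω G, M'.Good n ∧ M'.F = N ∧ M.Ψ ≤ M'.Ψ ∧ M'.CoordP x ∧
      ∀ c (φ : M'.R c →ₐ[k] k), ∃ c₀, ∃ φ₀ : M.R c₀ →ₐ[k] k, M.O c₀ φ₀ ≤ M'.O c φ ∧
        (M.Off c₀ φ₀ ↔ M'.Off c φ) := by
  refine ⟨(M.kum m).cov N, hg, rfl, ?_, mainC_cov hm h hN hU hc, mainC_pt hm h hN⟩
  intro u hu
  exact (kum_Ψ (M := M) u).2 (pow_mem hu m)

/-- the same for a smaller group -/
theorem mainC_rst {G' : Subgroup (Ω ≃ₐ[k] Ω)} (hG : G' ≤ G) (M' : Mdl k Ω G) {x : Fin n → Ω}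
    (hg : M'.Good n) (hc : M'.CoordP x) (hΨ : M.Ψ ≤ M'.Ψ)
    (hp : ∀ c (φ : M'.R c →ₐ[k] k), ∃ c₀, ∃ φ₀ : M.R c₀ →ₐ[k] k, M.O c₀ φ₀ ≤ M'.O c φ ∧
      (M.Off c₀ φ₀ ↔ M'.Off c φ)) :
    ∃ M₃ : Mdl k Ω G', M₃.Good n ∧ M₃.F = M'.F ∧ M.Ψ ≤ M₃.Ψ ∧ M₃.CoordP x ∧
      ∀ c (φ : M₃.R c →ₐ[k] k), ∃ c₀, ∃ φ₀ : M.R c₀ →ₐ[k] k, M.O c₀ φ₀ ≤ M₃.O c φ ∧
        (M.Off c₀ φ₀ ↔ M₃.Off c φ) :=
  ⟨M'.rst hG, M'.rst_good hG hg, rfl, hΨ, hc, hp⟩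

end Mdl

/-- the cover.
PROOF. `Unr.normal` gives `N₀ ≥ L'`, unramified over `A₀`, `Stb E N₀`; `Unr.finite`; `exists_exp`
gives `m`; `cov_kum` (`HasA0.locI`); `rst` to `L.fixingSubgroup ≤ E.fixingSubgroup`; `CoordP.kum`,
`CoordP.cov`; `kum_pt`, `cov_pt` for the last statement; `kum_fext`, `Fext.base`, `Fext.of_le`. -/
theorem main_cov [IsAlgClosed k] [IsAlgClosed Ω] [CharZero k] {n l : ℕ} {t : Fin l → Ω}
    {g w : Ω} {C : Finset Ω} {E L L' : IntermediateField k Ω}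
    (M₂ : Mdl k Ω E.fixingSubgroup) (h : M₂.Good n) (hF : Fext E M₂.F)
    (hA : M₂.HasA0 t g w C) (hAE : ∀ a ∈ A0 (k := k) t g w C, a ∈ E) (hEL : E ≤ L) (hLL : L ≤ L')
    (hL : Fext E L') (hU : Unr (A0 (k := k) t g w C).toSubring E L') (x : Fin n → Ω)
    (hc : M₂.CoordP x) :
    ∃ M₃ : Mdl k Ω L.fixingSubgroup, M₃.Good n ∧ Fext L M₃.F ∧ L' ≤ M₃.F ∧ M₂.Ψ ≤ M₃.Ψ ∧
      M₃.CoordP x ∧
      ∀ c (φ : M₃.R c →ₐ[k] k), ∃ c₀, ∃ φ₀ : M₂.R c₀ →ₐ[k] k, M₂.O c₀ φ₀ ≤ M₃.O c φ ∧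
        (M₂.Off c₀ φ₀ ↔ M₃.Off c φ) := by
  have _ := hL
  have hVE : ∀ a ∈ (A0 (k := k) t g w C).toSubring, a ∈ E := hAE
  obtain ⟨N₀, hLN, hUN, hst⟩ := Unr.normal hVE hU
  have hN₀ : Fext E N₀ := mainC_fext hVE hUN
  obtain ⟨m, hm, hexp⟩ := exists_exp hN₀ hst
  have hm0 : m ≠ 0 := hm.ne'
  have hloc : ∀ c (P : Ideal ((M₂.kum m).R c)) (hP : P.IsPrime),
      (∀ j ∈ M₂.S c, ∀ y : (M₂.kum m).R c, (y : Ω) = (M₂.kum m).x c j → y ∉ P) →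
      ∀ a ∈ (A0 (k := k) t g w C).toSubring, a ∈ LocI ((M₂.kum m).R c) P hP :=
    fun c P hP hn a ha => hA.locI h.toOkV hm0 c P hP hn ha
  have hG : ∀ g : E.fixingSubgroup, ∀ a ∈ E, (g : Ω ≃ₐ[k] Ω) a = a := fun g a ha =>
    (IntermediateField.mem_fixingSubgroup_iff E g).1 g.2 a ha
  have hgood := Mdl.cov_kum hm h hF.le hN₀ hst hexp hG _ hVE hUN hloc
  have hcov := Mdl.mainC_covU hm h hF.le hN₀ hst hexp _ hVE hUN hloc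
  have hK := Mdl.kum_good hm0 h
  have hEK : E ≤ (M₂.kum m).F := hF.le.trans (Mdl.kumU_le M₂ m)
  have hN : Fext (M₂.kum m).F ((M₂.kum m).F ⊔ N₀) := hN₀.base hEK
  have hfix : L.fixingSubgroup ≤ E.fixingSubgroup := by
    intro g hg
    rw [IntermediateField.mem_fixingSubgroup_iff] at hg ⊢
    exact fun a ha => hg a (hEL ha)
  obtain ⟨M', hg', hF', hΨ', hc', hp'⟩ := Mdl.mainC_ex hm0 h hN hcov hgood hc
  obtain ⟨M₃, hg₃, hF₃, hΨ₃, hc₃, hp₃⟩ := Mdl.mainC_rst (M := M₂) hfix M' hg' hc' hΨ' hp'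
  have h1 : Fext E ((M₂.kum m).F ⊔ N₀) :=
    (hF.trans (Mdl.kum_fext hm0 h.toOkV)).trans hN
  have h2 : L' ≤ (M₂.kum m).F ⊔ N₀ := hLN.trans le_sup_right
  refine ⟨M₃, hg₃, ?_, ?_, hΨ₃, hc₃, hp₃⟩
  · rw [hF₃, hF']
    exact (h1.of_le hEL (hLL.trans h2)).2
  · rw [hF₃, hF']
    exact h2

end Pool.Agent.KMR
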