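import Pool.Agent.Lib.MP_732f67_ag.R.MainDef
import Pool.Agent.Lib.MP_732f67_ag.R.Tow

/-!
The fibration over a good model of the base.
-/

namespace Pool.Agent.KMR

open Polynomial

variable {k Ω : Type} [Field k] [Field Ω] [Algebra k Ω]

/-- the units of a ring as a subgroup -/
def mainFU (O : Subalgebra k Ω) : Subgroup Ωˣ where
  carrier := {a | Un O (a : Ω)}
  mul_mem' ha hb := by
    show Un O ((_ * _ : Ωˣ) : Ω)
    rw [Units.val_mul]
    exact Un.mul ha hb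
  one_mem' := by
    show Un O ((1 : Ωˣ) : Ω)
    rw [Units.val_one]
    exact Un.one O
  inv_mem' ha := by
    show Un O ((_⁻¹ : Ωˣ) : Ω)
    rw [Units.val_inv_eq_inv_val]
    exact Un.inv ha

/-- an element transcendental over `F` is transcendental over finite extensions of `F` -/
theorem mainF_tr {F N : IntermediateField k Ω} (h : Fext F N) {w : Ω}
    (hw : Transcendental F w) : Transcendental N w := by
  have := icl_fd h
  intro h1
  apply hw
  have h2 : IsAlgebraic (IntermediateField.extendScalars h.le : IntermediateField F Ω) w := h1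
  exact h2.restrictScalars F

/-- the fibration.
PROOF. `M₁ = M₀.rst _` (`E ≥ kt t`), `exists_dw` (`w` is transcendental over `M₀.F`, which is
algebraic over `kt t`), `exists_fib` for `M₁`; `CoordP.prod`, `CoordP.lie`. The last statement: the
point of `M₀` under the point of the product under the point of `M₂` (`Lie`, `prod_pt`); if it is off the
boundary, the elements of `M₀.Ψ` are units there, and those of `M₂.Ψ` are products of elements of
`M₀.Ψ` and of powers of the `w - l` (conclusion of `exists_fib`); `off_iff`. -/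
theorem main_fib [IsAlgClosed k] [CharZero k] {n : ℕ} (t : Fin n → Ω)
    (M₀ : Mdl k Ω (kt (k := k) t).fixingSubgroup) (h : M₀.Good n) (hF : Fext (kt (k := k) t) M₀.F)
    (hc : M₀.CoordP t) (w : Ωˣ) (hw : Transcendental (kt (k := k) t) (w : Ω))
    (E : IntermediateField k Ω) (hE : E = IntermediateField.adjoin k ((kt (k := k) t : Set Ω) ∪
      {(w : Ω)})) (C : Finset Ω) (h0 : 0 ∈ C) (hC : ∀ l ∈ C, l ∈ kt (k := k) t)
    (hCΨ : ∀ l ∈ C, ∀ l' ∈ C, l ≠ l' → sb l l' ∈ M₀.Ψ) :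
    ∃ M₂ : Mdl k Ω E.fixingSubgroup, M₂.Good (n + 1) ∧ Fext E M₂.F ∧ M₀.Ψ ≤ M₂.Ψ ∧
      (∀ l ∈ C, sb (w : Ω) l ∈ M₂.Ψ ∧ M₂.Cmp (sb (w : Ω) l)) ∧
      M₂.CoordP (Fin.snoc t (w : Ω) : Fin (n + 1) → Ω) ∧
      ∀ c (φ : M₂.R c →ₐ[k] k), ∃ c₀, ∃ φ₀ : M₀.R c₀ →ₐ[k] k, M₀.O c₀ φ₀ ≤ M₂.O c φ ∧
        (M₀.Off c₀ φ₀ → (∀ l ∈ C, Un (M₂.O c φ) ((w : Ω) - l)) → M₂.Off c φ) := by
  classical
  have hle : kt (k := k) t ≤ E := by
    rw [hE]
    exact fun x hx => IntermediateField.subset_adjoin _ _ (Or.inl hx)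
  have hwE : (w : Ω) ∈ E := by
    rw [hE]
    exact IntermediateField.subset_adjoin _ _ (Or.inr rfl)
  have hG : E.fixingSubgroup ≤ (kt (k := k) t).fixingSubgroup := by
    intro σ hσ
    rw [IntermediateField.mem_fixingSubgroup_iff] at hσ ⊢
    exact fun x hx => hσ x (hle hx)
  have hfix : ∀ (g : E.fixingSubgroup) (x : Ω), x ∈ E → (g : Ω ≃ₐ[k] Ω) x = x := fun g x hx =>
    (IntermediateField.mem_fixingSubgroup_iff E (g : Ω ≃ₐ[k] Ω)).1 g.2 x hx
  have hM₁ : (M₀.rst hG).Good n := M₀.rst_good hG h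
  have hF₁ : (M₀.rst hG).F = M₀.F := rfl
  have htr : Transcendental M₀.F (w : Ω) := mainF_tr hF hw
  obtain ⟨D, hD1, hD2⟩ := exists_dw M₀.F (w : Ω) htr
  have hd : FibD (M₀.rst hG).F w D := ⟨htr, hD1, hD2⟩
  obtain ⟨M₂, k1, k2, k3, k4, k5, k6⟩ := Mdl.exists_fib hM₁ hd (fun g => hfix g _ hwE) C h0
    (fun l hl => hF.le (hC l hl)) (fun l hl g => hfix g l (hle (hC l hl))) hCΨ
  have hprod : ((M₀.rst hG).prod w).Good (n + 1) :=
    Mdl.prod_good w htr hM₁ fun g => hfix g _ hwE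
  have hwl : ∀ l ∈ C, (w : Ω) ≠ l := fun l hl h1 => htr (h1 ▸
    isAlgebraic_algebraMap (⟨l, hF.le (hC l hl)⟩ : M₀.F))
  have hΨ : ((M₀.rst hG).prod w).Ψ ≤ M₂.Ψ := by
    show adj M₀.Ψ w ≤ M₂.Ψ
    refine sup_le k3 ?_
    rw [Subgroup.zpowers_le]
    have h1 : sb (w : Ω) 0 = w := Units.ext (by rw [sb_val w.ne_zero, sub_zero])
    rw [← h1]
    exact k2.C_Ψ 0 h0
  refine ⟨M₂, k1, ?_, k3, fun l hl => ⟨k2.C_Ψ l hl, k5 l hl⟩, ?_, ?_⟩
  · have h1 : M₂.F = E ⊔ M₀.F := by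
      rw [k2.F_eq]
      apply le_antisymm
      · rw [IntermediateField.adjoin_le_iff]
        rintro x (hx | hx)
        · exact (le_sup_right : M₀.F ≤ E ⊔ M₀.F) hx
        · rw [Set.mem_singleton_iff.1 hx]
          exact (le_sup_left : E ≤ E ⊔ M₀.F) hwE
      · refine sup_le (hE.le.trans (IntermediateField.adjoin.mono k _ _
          (Set.union_subset_union_left _ hF.le))) ?_
        exact fun x hx => IntermediateField.subset_adjoin _ _ (Or.inl hx)
    rw [h1]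
    exact hF.base hle
  · have h1 : (M₀.rst hG).CoordP t := hc
    exact Mdl.CoordP.lie hprod.toOk0 k1.toOk0 hΨ k4 (Mdl.CoordP.prod hM₁ h1 w htr)
  · intro c φ
    obtain ⟨c', φ', h1, -⟩ := k4 c φ
    obtain ⟨ψ, h2, -⟩ := Mdl.prod_pt w c'.1 c'.2 φ'
    refine ⟨c'.1, ψ, h2.trans h1, fun h3 h4 => ?_⟩
    rw [k1.toOk0.off_iff]
    have h5 : M₂.Ψ ≤ mainFU (M₂.O c φ) := by
      refine k6.trans (sup_le ?_ ?_)
      · intro a ha
        exact Un.mono (h2.trans h1) ((h.toOk0.off_iff c'.1 ψ).1 h3 a ha)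
      · rw [Subgroup.closure_le]
        rintro _ ⟨l, hl, rfl⟩
        show Un (M₂.O c φ) (sb (w : Ω) l : Ω)
        rw [sb_val (hwl l hl)]
        exact h4 l hl
    exact fun a ha => h5 ha

end Pool.Agent.KMR
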