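import Pool.Agent.Lib.MP_732f67_ag.R.Main0
import Pool.Agent.Lib.MP_732f67_ag.R.MainF
import Pool.Agent.Lib.MP_732f67_ag.R.MainC
import Pool.Agent.Lib.MP_732f67_ag.R.MainA

/-!
THE MAIN THEOREM OF PART R: existence of good models.
-/

namespace Pool.Agent.KMR

open Polynomial

variable {k Ω : Type} [Field k] [Field Ω] [Algebra k Ω]

/-- `A₀` is contained in `K (w)` -/
theorem main_AE {n : ℕ} (t : Fin n → Ω) (g w : Ω) (C : Finset Ω)
    (hC : ∀ c ∈ C, c ∈ kt (k := k) t) (hg : g ∈ Algebra.adjoin k (Set.range t)) :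
    ∀ a ∈ A0 (k := k) t g w C,
      a ∈ IntermediateField.adjoin k ((kt (k := k) t : Set Ω) ∪ {w}) := by
  have hadj : ∀ a ∈ Algebra.adjoin k (Set.range t), a ∈ kt (k := k) t := fun a ha =>
    IntermediateField.algebra_adjoin_le_adjoin k _ ha
  have hKw : ∀ a ∈ kt (k := k) t,
      a ∈ IntermediateField.adjoin k ((kt (k := k) t : Set Ω) ∪ {w}) := fun a ha =>
    IntermediateField.subset_adjoin k _ (Or.inl ha)
  have hww : w ∈ IntermediateField.adjoin k ((kt (k := k) t : Set Ω) ∪ {w}) :=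
    IntermediateField.subset_adjoin k _ (Or.inr rfl)
  have h1 : A0 (k := k) t g w C ≤
      (IntermediateField.adjoin k ((kt (k := k) t : Set Ω) ∪ {w})).toSubalgebra := by
    refine Algebra.adjoin_le ?_
    rintro a ((ha | (ha | ha)) | ⟨c, hc, ha⟩)
    · exact hKw _ (hadj _ (Algebra.subset_adjoin ha))
    · rw [ha]
      exact hKw _ ((kt (k := k) t).inv_mem (hadj _ hg))
    · rw [Set.mem_singleton_iff.1 ha]
      exact hww
    · rw [ha]
      exact IntermediateField.inv_mem _ (IntermediateField.sub_mem _ hww (hKw _ (hC c hc)))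
  exact fun a ha => h1 ha

theorem main_un_prod {O : Subalgebra k Ω} {ι : Type} (s : Finset ι) (a : ι → Ω)
    (ha : ∀ i ∈ s, a i ∈ O) (h : Un O (∏ i ∈ s, a i)) : ∀ i ∈ s, Un O (a i) := by
  classical
  intro i hi
  rw [← Finset.mul_prod_erase s a hi] at h
  exact (Un.of_mul (ha i hi) (O.prod_mem fun j hj => ha j (Finset.mem_of_mem_erase hj)) h).1

/-- PROOF. `t = Fin.init x`, `z = x (Fin.last n)`; `exists_A0` for `L'` and `Φ ∪ {z}`: `h`, `C`, `g`, `w = h (z)`,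
`E = K (w)`. `MainR k Ω n` for `t`, `L = L' = kt t`, `Φ₀ = {g} ∪ {l - l'}`: `M₀`, `f₀`. `main_fib`: `M₂`.
`main_cov`: `M₃`. `HasA0.mem` for `z` and for the elements of `Φ` and their inverses;
`CoordP.change`: the `x i` are coordinates off the boundary of `M₃`. Let `N` be large,
`f = f₀ * g * ∏ l ∈ C, g ^ N (w - l)`, all the factors in `k[x]` (the coefficients of `h` and the `l ∈ C`
are in `k[t, g⁻¹]`). `exists_phi` for `M₃` and `A = Φ ∪ {x i} ∪ {f}`: `M₅`. At a point of `M₅` with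
`x i ∈ O₅`, `f` a unit of `O₅`: the factors `f₀`, `g`, `w - l` are units of `O₅`. Let `O₀ ≤ O₂ ≤ O₃ ≤ O₅` be the
points below. `f₀`, `t i` comparable in `M₀`: `f₀` is a unit of `O₀`, `t i ∈ O₀` (`cmp_mem`), so `O₀` is off the
boundary; the `w - l` are comparable in `M₂`, so they are units of `O₂` (`cmp_mem`); so `O₂` is off the boundary
(`main_fib`), hence `O₃`, hence `O₅`. -/
theorem main_step [IsAlgClosed k] [IsAlgClosed Ω] [CharZero k] {n : ℕ} (h : MainR k Ω n) :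
    MainR k Ω (n + 1) := by
  classical
  intro x hx L L' hxL' hLL hL Φ hΦ
  obtain ⟨ht, hz⟩ := mainA_tr x hx
  set t : Fin n → Ω := Fin.init x with htdef
  set z : Ω := x (Fin.last n) with hzdef
  have hx' : (Fin.snoc t z : Fin (n + 1) → Ω) = x := Fin.snoc_init_self x
  have hL' : Fext (IntermediateField.adjoin k ((kt (k := k) t : Set Ω) ∪ {z})) L' := by
    rw [htdef, hzdef, ← mainA_kt x]
    exact hL
  have hxL : ∀ i, x i ∈ L := fun i =>
    hxL' (IntermediateField.subset_adjoin k _ ⟨i, rfl⟩)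
  have hx0 : ∀ i, x i ≠ 0 := fun i => hx.ne_zero i
  obtain ⟨H, C, g, hd, h0C, hCK, hg, hg0, hwtr, hCg, hHg, hEL, hU, hzI, hΦI⟩ :=
    exists_A0 t z hz hL' (insert z (Φ.image (fun φ : Ωˣ => (φ : Ω)))) (by
      intro φ hφ
      rcases Finset.mem_insert.1 hφ with rfl | hφ
      · exact ⟨hLL (hxL _), hx0 _⟩
      · obtain ⟨u, hu, rfl⟩ := Finset.mem_image.1 hφ
        exact ⟨hLL (hΦ u hu), u.ne_zero⟩)
  set w : Ω := aeval z H with hw
  have hwl : ∀ l ∈ kt (k := k) t, w ≠ l := by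
    intro l hl he
    refine hwtr ?_
    rw [he]
    exact isAlgebraic_algebraMap (⟨l, hl⟩ : kt (k := k) t)
  have hw0 : w ≠ 0 := hwl 0 (zero_mem _)
  let wu : Ωˣ := Units.mk0 w hw0
  let gu : Ωˣ := Units.mk0 g hg0
  have hadjt : ∀ a ∈ Algebra.adjoin k (Set.range t), a ∈ kt (k := k) t := fun a ha =>
    IntermediateField.algebra_adjoin_le_adjoin k _ ha
  -- the model of the base
  obtain ⟨M₀, hM₀, hF₀, -, hΦ₀, hc₀, ht₀, f₀, hf₀x, hf₀Ψ, hf₀c, hoff₀⟩ :=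
    h t ht (kt (k := k) t) (kt (k := k) t) le_rfl le_rfl ⟨le_rfl, ∅, fun a ha => absurd ha (Finset.notMem_empty a), by
      rw [Finset.coe_empty, Set.union_empty, IntermediateField.adjoin_self]⟩
      (insert gu ((C ×ˢ C).image fun p => sb p.1 p.2)) (by
      intro φ hφ
      rcases Finset.mem_insert.1 hφ with rfl | hφ
      · exact hadjt g hg
      · obtain ⟨p, hp, rfl⟩ := Finset.mem_image.1 hφ
        rw [Finset.mem_product] at hp
        by_cases he : p.1 = p.2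
        · have h1 : sb p.1 p.2 = 1 := by
            unfold sb
            rw [dif_pos (by rw [he, sub_self])]
          rw [h1, Units.val_one]
          exact one_mem _
        · rw [sb_val he]
          exact sub_mem (hCK _ hp.1) (hCK _ hp.2))
  have hguΨ : gu ∈ M₀.Ψ := (hΦ₀ gu (Finset.mem_insert_self _ _)).1
  -- the fibration
  obtain ⟨M₂, hM₂, hF₂, hΨ₂, hwl₂, hc₂, hpt₂⟩ := main_fib t M₀ hM₀ hF₀ hc₀ wu hwtr
    (IntermediateField.adjoin k ((kt (k := k) t : Set Ω) ∪ {(wu : Ω)})) rfl C h0C hCK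
    (fun l hl l' hl' _ => (hΦ₀ _ (Finset.mem_insert_of_mem (Finset.mem_image.2
      ⟨(l, l'), Finset.mem_product.2 ⟨hl, hl'⟩, rfl⟩))).1)
  have hA₂ : M₂.HasA0 t g w C := by
    refine ⟨fun i => ?_, ⟨gu, hΨ₂ hguΨ, rfl⟩, ?_, fun l hl => ?_⟩
    · obtain ⟨a, ha, hae, -⟩ := ht₀ i
      exact ⟨a, hΨ₂ ha, hae⟩
    · refine ⟨sb w 0, (hwl₂ 0 h0C).1, ?_⟩
      rw [sb_val hw0, sub_zero]
    · exact ⟨sb w l, (hwl₂ l hl).1, sb_val (hwl l (hCK l hl))⟩
  -- the cover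
  have hKL : kt (k := k) t ≤ L := by
    change IntermediateField.adjoin k _ ≤ _
    rw [IntermediateField.adjoin_le_iff]
    rintro _ ⟨i, rfl⟩
    exact hxL i.castSucc
  have hwL : w ∈ L := by
    rw [hw, aeval_eq_sum_range]
    refine sum_mem fun i _ => ?_
    rw [Algebra.smul_def]
    exact mul_mem (hKL (H.coeff i).2) (pow_mem (hxL _) _)
  have hEL' : IntermediateField.adjoin k ((kt (k := k) t : Set Ω) ∪ {(wu : Ω)}) ≤ L := by
    rw [IntermediateField.adjoin_le_iff]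
    rintro y (hy | hy)
    · exact hKL hy
    · rw [Set.mem_singleton_iff.1 hy]
      exact hwL
  obtain ⟨M₃, hM₃, hF₃, hL₃, hΨ₃, hc₃, hpt₃⟩ := main_cov M₂ hM₂ hF₂ hA₂
    (main_AE t g w C hCK hg) hEL' hLL hEL hU _ hc₂
  have hA₃ : M₃.HasA0 t g w C := by
    have hup : ∀ y : Ω, (∃ a ∈ M₂.Ψ, (a : Ω) = y) → ∃ a ∈ M₃.Ψ, (a : Ω) = y :=
      fun y ⟨a, ha, he⟩ => ⟨a, hΨ₃ ha, he⟩
    exact ⟨fun i => hup _ (hA₂.t_Ψ i), hup _ hA₂.g_Ψ, hup _ hA₂.w_Ψ,
      fun l hl => hup _ (hA₂.wl_Ψ l hl)⟩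
  have hmem₃ : ∀ a ∈ L, IsIntegral (A0 (k := k) t g w C) a → ∀ c (φ : M₃.R c →ₐ[k] k),
      M₃.Off c φ → a ∈ M₃.O c φ := fun a ha hi c φ ho =>
    hA₃.mem hM₃.toOk0 c φ ho a (hF₃.le ha) hi
  have hgΨ₃ : gu ∈ M₃.Ψ := hΨ₃ (hΨ₂ hguΨ)
  have hc₃' : M₃.CoordP x := by
    rw [← hx']
    refine Mdl.CoordP.change H hw hHg hg (fun c φ ho => ?_) (fun c φ ho => ?_) hc₃
    · exact (hM₃.toOk0.off_iff c φ).1 ho gu hgΨ₃
    · exact hmem₃ z (hxL _) hzI c φ ho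
  -- the function `f`
  obtain ⟨N, hN⟩ := mainA_exp (Algebra.adjoin k (Set.range x)) g (C.image fun l => w - l) (by
    intro a ha
    obtain ⟨l, hl, rfl⟩ := Finset.mem_image.1 ha
    exact mainA_w x H g hg hg0 hHg l (hCg l hl))
  have hNl : ∀ l ∈ C, g ^ N * (w - l) ∈ Algebra.adjoin k (Set.range x) := fun l hl =>
    hN _ (Finset.mem_image_of_mem _ hl)
  have htx : Algebra.adjoin k (Set.range t) ≤ Algebra.adjoin k (Set.range x) :=
    Algebra.adjoin_mono (by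
      rintro _ ⟨i, rfl⟩
      exact ⟨i.castSucc, rfl⟩)
  let f : Ωˣ := f₀ * gu * ∏ l ∈ C, (gu ^ N * sb w l)
  have hfv : (f : Ω) = (f₀ : Ω) * g * ∏ l ∈ C, (g ^ N * (w - l)) := by
    change ((f₀ * gu * ∏ l ∈ C, (gu ^ N * sb w l) : Ωˣ) : Ω) = _
    rw [Units.val_mul, Units.val_mul, Units.coe_prod]
    congr 1
    refine Finset.prod_congr rfl fun l hl => ?_
    rw [Units.val_mul, Units.val_pow_eq_pow_val, sb_val (hwl l (hCK l hl))]
    rfl
  have hfx : (f : Ω) ∈ Algebra.adjoin k (Set.range x) := by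
    rw [hfv]
    exact Subalgebra.mul_mem _ (Subalgebra.mul_mem _ (htx hf₀x) (htx hg))
      (Subalgebra.prod_mem _ hNl)
  have hfΨ : f ∈ M₃.Ψ :=
    mul_mem (mul_mem (hΨ₃ (hΨ₂ hf₀Ψ)) hgΨ₃) (Subgroup.prod_mem _ fun l hl =>
      mul_mem (Subgroup.pow_mem _ hgΨ₃ N) (hΨ₃ (hwl₂ l hl).1))
  have hadjL : ∀ a ∈ Algebra.adjoin k (Set.range x), a ∈ L := fun a ha =>
    hxL' (IntermediateField.algebra_adjoin_le_adjoin k _ ha)
  let xu : Fin (n + 1) → Ωˣ := fun i => Units.mk0 (x i) (hx0 i)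
  have hAL : ∀ y ∈ Φ ∪ Finset.univ.image xu ∪ {f}, (y : Ω) ∈ L := by
    intro y hy
    rcases Finset.mem_union.1 hy with hy | hy
    · rcases Finset.mem_union.1 hy with hy | hy
      · exact hΦ y hy
      · obtain ⟨i, -, rfl⟩ := Finset.mem_image.1 hy
        exact hxL i
    · rw [Finset.mem_singleton.1 hy]
      exact hadjL _ hfx
  have hun : ∀ y : Ωˣ, (y : Ω) ∈ insert z (Φ.image (fun φ : Ωˣ => (φ : Ω))) → (y : Ω) ∈ L →
      ∀ c (φ : M₃.R c →ₐ[k] k), M₃.Off c φ → Un (M₃.O c φ) (y : Ω) := by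
    intro y hy hyL c φ ho
    obtain ⟨h1, h2⟩ := hΦI y hy
    exact ⟨y.ne_zero, hmem₃ y hyL h1 c φ ho, hmem₃ _ (L.inv_mem hyL) h2 c φ ho⟩
  obtain ⟨M₅, hM₅, hF₅, hΨ₅, hAΨ₅, hAc₅, -, hpt₅⟩ :=
    Mdl.exists_phi hM₃ (Φ ∪ Finset.univ.image xu ∪ {f}) (fun y hy => hF₃.le (hAL y hy))
      (fun y hy g' => (IntermediateField.mem_fixingSubgroup_iff L (g' : Ω ≃ₐ[k] Ω)).1 g'.2 y
        (hAL y hy)) (by
      intro y hy c φ ho
      have hyL := hAL y hy
      rcases Finset.mem_union.1 hy with hy | hy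
      · rcases Finset.mem_union.1 hy with hy | hy
        · exact hun y (Finset.mem_insert_of_mem (Finset.mem_image_of_mem _ hy)) hyL c φ ho
        · obtain ⟨i, -, rfl⟩ := Finset.mem_image.1 hy
          revert hyL
          refine Fin.lastCases (fun hyL => ?_) (fun i hyL => ?_) i
          · exact hun (xu (Fin.last n)) (Finset.mem_insert_self _ _) hyL c φ ho
          · obtain ⟨a, ha, hae, -⟩ := ht₀ i
            have h1 := (hM₃.toOk0.off_iff c φ).1 ho a (hΨ₃ (hΨ₂ ha))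
            rw [hae] at h1
            exact h1
      · rw [Finset.mem_singleton.1 hy]
        exact (hM₃.toOk0.off_iff c φ).1 ho f hfΨ)
  refine ⟨M₅, hM₅, by rw [hF₅]; exact hF₃, by rw [hF₅]; exact hL₃, fun φ hφ => ?_, ?_,
    fun i => ?_, f, hfx, ?_, ?_, ?_⟩
  · have h1 : φ ∈ Φ ∪ Finset.univ.image xu ∪ {f} :=
      Finset.mem_union_left _ (Finset.mem_union_left _ hφ)
    exact ⟨hAΨ₅ φ h1, hAc₅ φ h1⟩
  · intro c φ ho
    obtain ⟨c₃, φ₃, -, h2, h3⟩ := hpt₅ c φ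
    obtain ⟨e, he⟩ := hc₃' c₃ φ₃ (h2.2 ho)
    rw [h3 (h2.2 ho)] at he
    exact ⟨e, he⟩
  · have h1 : xu i ∈ Φ ∪ Finset.univ.image xu ∪ {f} :=
      Finset.mem_union_left _ (Finset.mem_union_right _ (Finset.mem_image_of_mem _
        (Finset.mem_univ i)))
    exact ⟨xu i, hAΨ₅ _ h1, rfl, hAc₅ _ h1⟩
  · exact hAΨ₅ f (Finset.mem_union_right _ (Finset.mem_singleton_self _))
  · exact hAc₅ f (Finset.mem_union_right _ (Finset.mem_singleton_self _))
  · intro c φ hxi hfu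
    obtain ⟨c₃, φ₃, h35, hoff35, -⟩ := hpt₅ c φ
    obtain ⟨c₂, φ₂, h23, hoff23⟩ := hpt₃ c₃ φ₃
    obtain ⟨c₀, φ₀, h02, hoff02⟩ := hpt₂ c₂ φ₂
    have hle25 : M₂.O c₂ φ₂ ≤ M₅.O c φ := h23.trans h35
    have hle05 : M₀.O c₀ φ₀ ≤ M₅.O c φ := h02.trans hle25
    have hxO : Algebra.adjoin k (Set.range x) ≤ M₅.O c φ := Algebra.adjoin_le (by
      rintro _ ⟨i, rfl⟩
      exact hxi i)
    rw [hfv] at hfu
    have hP : ∀ l ∈ C, g ^ N * (w - l) ∈ M₅.O c φ := fun l hl => hxO (hNl l hl)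
    have hf₀O : (f₀ : Ω) ∈ M₅.O c φ := hxO (htx hf₀x)
    have hgO : g ∈ M₅.O c φ := hxO (htx hg)
    obtain ⟨h1, h2⟩ := Un.of_mul (Subalgebra.mul_mem _ hf₀O hgO) (Subalgebra.prod_mem _ hP) hfu
    obtain ⟨h3, h4⟩ := Un.of_mul hf₀O hgO h1
    have h5 := main_un_prod C (fun l => g ^ N * (w - l)) hP h2
    have e1 := (hM₀.toOk0.cmp_mem f₀ hf₀Ψ hf₀c c₀ φ₀ _ (isPt_loc φ) hle05).2 h3
    have e2 : ∀ i, t i ∈ M₀.O c₀ φ₀ := by
      intro i
      obtain ⟨a, ha, hae, hac⟩ := ht₀ i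
      have h6 := (hM₀.toOk0.cmp_mem a ha hac c₀ φ₀ _ (isPt_loc φ) hle05).1
      rw [hae] at h6
      exact h6 (hxi i.castSucc)
    have e3 : M₀.Off c₀ φ₀ := hoff₀ c₀ φ₀ e2 e1
    have e4 : ∀ l ∈ C, Un (M₂.O c₂ φ₂) ((wu : Ω) - l) := by
      intro l hl
      have h6 := (hM₂.toOk0.cmp_mem (sb w l) (hwl₂ l hl).1 (hwl₂ l hl).2 c₂ φ₂ _
        (isPt_loc φ) hle25).2
      rw [sb_val (hwl l (hCK l hl))] at h6
      refine h6 ?_
      have h7 := h5 l hl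
      have h8 : (w - l) = (g ^ N)⁻¹ * (g ^ N * (w - l)) := by
        rw [inv_mul_cancel_left₀ (pow_ne_zero N hg0)]
      have h9 : (w - l)⁻¹ = g ^ N * (g ^ N * (w - l))⁻¹ := by
        rw [mul_inv, mul_inv_cancel_left₀ (pow_ne_zero N hg0)]
      refine ⟨sub_ne_zero.2 (hwl l (hCK l hl)), ?_, ?_⟩
      · rw [h8]
        refine Subalgebra.mul_mem _ ?_ h7.2.1
        rw [← inv_pow]
        exact Subalgebra.pow_mem _ h4.2.2 _
      · rw [h9]
        exact Subalgebra.mul_mem _ (Subalgebra.pow_mem _ hgO _) h7.2.2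
    exact hoff35.1 (hoff23.1 (hoff02 e3 e4))

theorem main_R [IsAlgClosed k] [IsAlgClosed Ω] [CharZero k] (n : ℕ) : MainR k Ω n := by
  induction n with
  | zero => exact main_zero
  | succ n ih => exact main_step ih

end Pool.Agent.KMR
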