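import Mathlib

/-!
Taylor expansion by commuting derivations (only Mathlib).
-/

namespace Pool.Agent.KMR

variable {k : Type} [Field k]

/-- the composites of commuting endomorphisms -/
theorem exists_multi {M : Type} [Monoid M] {n : ℕ} (d : Fin n → M) (hd : ∀ i j, Commute (d i) (d j)) :
    ∃ P : (Fin n → ℕ) → M, P 0 = 1 ∧ ∀ (i : Fin n) (α : Fin n → ℕ),
      P (α + Pi.single i 1) = P α * d i := by
  classical
  have hc : Pairwise fun i j => ∀ (x y : Multiplicative ℕ),
      Commute (powersHom M (d i) x) (powersHom M (d j) y) := by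
    intro i j _ x y
    rw [powersHom_apply, powersHom_apply]
    exact (hd i j).pow_pow _ _
  refine ⟨fun α => MonoidHom.noncommPiCoprod (fun i => powersHom M (d i)) hc
    (fun i => Multiplicative.ofAdd (α i)), ?_, ?_⟩
  · exact map_one _
  · intro i α
    have h : (fun j => Multiplicative.ofAdd ((α + Pi.single i 1 : Fin n → ℕ) j)) =
        (fun j => Multiplicative.ofAdd (α j)) *
          (Pi.mulSingle i (Multiplicative.ofAdd 1) : Fin n → Multiplicative ℕ) := by
      funext j
      by_cases hj : j = i
      · subst hj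
        simp
      · simp [Pi.mulSingle_eq_of_ne hj, Pi.single_eq_of_ne hj]
    change MonoidHom.noncommPiCoprod (fun i => powersHom M (d i)) hc
      (fun j => Multiplicative.ofAdd ((α + Pi.single i 1 : Fin n → ℕ) j)) = _
    rw [h, map_mul, MonoidHom.noncommPiCoprod_mulSingle, powersHom_apply, toAdd_ofAdd, pow_one]

/-- Taylor expansion, abstract form: `O` a commutative `k`-algebra, `φ : O → k` an algebra
homomorphism, `D i` commuting derivations of `O`.
PROOF. `τ a = ∑ α, (φ (D^α a) / α!) X^α`, `D^α = ∏ D_i^(α_i)`; multiplicativity: for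
`T_α = D^α / α!` show `T_α (a b) = ∑_(β + γ = α) T_β a * T_γ b` by induction on the degree of `α`
(apply `D_i`: `D_i T_α = (α_i + 1) T_(α + e_i)`). -/
theorem exists_taylor {O : Type} [CommRing O] [Algebra k O] [CharZero k] {n : ℕ} (φ : O →ₐ[k] k)
    (D : Fin n → Derivation k O O) (hD : ∀ i j a, D i (D j a) = D j (D i a)) :
    ∃ τ : O →ₐ[k] MvPowerSeries (Fin n) k, (∀ a, MvPowerSeries.constantCoeff (τ a) = φ a) ∧
      ∀ i a α, MvPowerSeries.coeff α (τ (D i a)) =
        (α i + 1 : k) * MvPowerSeries.coeff (α + Finsupp.single i 1) (τ a) := by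
  classical
  obtain ⟨P, hP0, hP⟩ := exists_multi (M := Module.End k O) (fun i => (D i : O →ₗ[k] O))
    (fun i j => by
      ext a
      exact hD i j a)
  -- the linear map
  let τ : O →ₗ[k] MvPowerSeries (Fin n) k :=
    { toFun := fun a α => (∏ i, ((α i).factorial : k))⁻¹ * φ (P α a)
      map_add' := fun a b => by
        funext α
        change _ * φ (P α (a + b)) = _ * φ (P α a) + _ * φ (P α b)
        rw [map_add, map_add, mul_add]
      map_smul' := fun c a => by
        funext α
        change _ * φ (P α (c • a)) = c * (_ * φ (P α a))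
        rw [map_smul, map_smul, smul_eq_mul]
        ring }
  have hτ : ∀ a α, MvPowerSeries.coeff α (τ a) = (∏ i, ((α i).factorial : k))⁻¹ * φ (P α a) :=
    fun a α => rfl
  have h0 : ∀ a, MvPowerSeries.constantCoeff (τ a) = φ a := by
    intro a
    rw [← MvPowerSeries.coeff_zero_eq_constantCoeff_apply, hτ]
    have : P ((0 : Fin n →₀ ℕ) : Fin n → ℕ) = 1 := by
      rw [Finsupp.coe_zero, hP0]
    rw [this]
    simp
  have hpd : ∀ i a, MvPowerSeries.pderiv k i (τ a) = τ (D i a) := by
    intro i a
    ext α
    rw [MvPowerSeries.coeff_pderiv, hτ, hτ]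
    have h1 : P ((α + Finsupp.single i 1 : Fin n →₀ ℕ) : Fin n → ℕ) a = P α (D i a) := by
      rw [Finsupp.coe_add, Finsupp.single_eq_pi_single, hP]
      rfl
    have h2 : (∏ j, (((α + Finsupp.single i 1 : Fin n →₀ ℕ) j).factorial : k)) =
        (α i + 1 : k) * ∏ j, ((α j).factorial : k) := by
      rw [← Finset.mul_prod_erase _ _ (Finset.mem_univ i),
        ← Finset.mul_prod_erase Finset.univ (fun j => ((α j).factorial : k)) (Finset.mem_univ i),
        ← mul_assoc]
      congr 1
      · rw [Finsupp.add_apply, Finsupp.single_eq_same, Nat.factorial_succ]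
        push_cast
        ring
      · refine Finset.prod_congr rfl fun j hj => ?_
        rw [Finsupp.add_apply, Finsupp.single_eq_of_ne (Finset.ne_of_mem_erase hj), add_zero]
    have h3 : (α i + 1 : k) ≠ 0 := by exact_mod_cast Nat.succ_ne_zero (α i)
    rw [h1, h2, mul_inv]
    field_simp
  have hmul : ∀ (N : ℕ) (α : Fin n →₀ ℕ), α.degree = N → ∀ a b,
      MvPowerSeries.coeff α (τ (a * b)) = MvPowerSeries.coeff α (τ a * τ b) := by
    intro N
    induction N with
    | zero =>
      intro α hα a b
      rw [Finsupp.degree_eq_zero_iff] at hα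
      subst hα
      rw [MvPowerSeries.coeff_zero_eq_constantCoeff_apply,
        MvPowerSeries.coeff_zero_eq_constantCoeff_apply, h0, map_mul φ,
        map_mul MvPowerSeries.constantCoeff, h0, h0]
    | succ N ih =>
      intro α hα a b
      have hne : α ≠ 0 := by
        rintro rfl
        simp at hα
      obtain ⟨i, hi⟩ := Finsupp.ne_iff.mp hne
      rw [Finsupp.coe_zero, Pi.zero_apply] at hi
      have hle : Finsupp.single i 1 ≤ α := by
        rw [Finsupp.single_le_iff]
        omega
      obtain ⟨β, rfl⟩ : ∃ β, α = β + Finsupp.single i 1 := ⟨α - Finsupp.single i 1,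
        (tsub_add_cancel_of_le hle).symm⟩
      have hβ : β.degree = N := by
        rw [map_add, Finsupp.degree_single] at hα
        omega
      have h3 : ((β i : k) + 1) ≠ 0 := by exact_mod_cast Nat.succ_ne_zero (β i)
      refine mul_right_cancel₀ h3 ?_
      rw [← MvPowerSeries.coeff_pderiv, ← MvPowerSeries.coeff_pderiv, hpd, Derivation.leibniz,
        Derivation.leibniz, hpd, hpd, smul_eq_mul, smul_eq_mul, smul_eq_mul, smul_eq_mul, map_add,
        map_add, map_add, ih β hβ, ih β hβ]
  have h1 : τ 1 = 1 := by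
    ext α
    rw [MvPowerSeries.coeff_one]
    split_ifs with h
    · subst h
      rw [MvPowerSeries.coeff_zero_eq_constantCoeff_apply, h0, map_one]
    · obtain ⟨i, hi⟩ := Finsupp.ne_iff.mp h
      rw [Finsupp.coe_zero, Pi.zero_apply] at hi
      have hle : Finsupp.single i 1 ≤ α := by
        rw [Finsupp.single_le_iff]
        omega
      obtain ⟨β, rfl⟩ : ∃ β, α = β + Finsupp.single i 1 := ⟨α - Finsupp.single i 1,
        (tsub_add_cancel_of_le hle).symm⟩
      have h3 : ((β i : k) + 1) ≠ 0 := by exact_mod_cast Nat.succ_ne_zero (β i)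
      refine mul_right_cancel₀ h3 ?_
      rw [← MvPowerSeries.coeff_pderiv, hpd, Derivation.map_one_eq_zero, map_zero, map_zero,
        zero_mul]
  refine ⟨AlgHom.ofLinearMap τ h1 (fun a b => ?_), fun a => ?_, fun i a α => ?_⟩
  · ext α
    exact hmul _ α rfl a b
  · exact h0 a
  · rw [AlgHom.ofLinearMap_apply, AlgHom.ofLinearMap_apply, ← hpd, MvPowerSeries.coeff_pderiv,
      mul_comm]

end Pool.Agent.KMR
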