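import Mathlib

/-!
Taylor expansions and Krull's intersection theorem, abstract form (only Mathlib).
-/

namespace Pool.Agent.KMR

variable {k : Type} [Field k]

theorem krull_aux {O : Type} [CommRing O] [IsLocalRing O] [IsNoetherianRing O] (I : Ideal O) (a : O)
    (h : ∀ N : ℕ, a ∈ I ⊔ (IsLocalRing.maximalIdeal O) ^ N) : a ∈ I := by
  have h1 := Ideal.iInf_pow_smul_eq_bot_of_isLocalRing (M := O ⧸ I) (IsLocalRing.maximalIdeal O)
    (Ideal.IsPrime.ne_top inferInstance)
  have h2 : (Ideal.Quotient.mk I a) ∈ (⊥ : Submodule O (O ⧸ I)) := by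
    rw [← h1, Submodule.mem_iInf]
    intro N
    obtain ⟨x, hx, y, hy, rfl⟩ := Submodule.mem_sup.mp (h N)
    have h3 : Ideal.Quotient.mk I (x + y) = y • (1 : O ⧸ I) := by
      rw [map_add, Ideal.Quotient.eq_zero_iff_mem.mpr hx, zero_add, Algebra.smul_def, mul_one]
      rfl
    rw [h3]
    exact Submodule.smul_mem_smul hy trivial
  exact Ideal.Quotient.eq_zero_iff_mem.mp ((Submodule.mem_bot O).mp h2)

section

variable {O : Type} [CommRing O] [Algebra k O] [IsLocalRing O] {n : ℕ}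

open IsLocalRing

/-- elements of `𝔪^N` are polynomials in `z` modulo `𝔪^(N+1)` -/
theorem pow_poly (ψ : O →ₐ[k] k) (z : Fin n → O)
    (hψ : ∀ x, x ∈ maximalIdeal O ↔ ψ x = 0) (hzm : ∀ i, z i ∈ maximalIdeal O)
    (hz : ∀ x ∈ maximalIdeal O, ∃ a : Fin n → O, x = ∑ i, a i * z i) (N : ℕ) :
    ∀ x ∈ (maximalIdeal O) ^ N, ∃ q : MvPolynomial (Fin n) k,
      x - MvPolynomial.aeval z q ∈ (maximalIdeal O) ^ (N + 1) := by
  induction N with
  | zero =>
    intro x _
    refine ⟨MvPolynomial.C (ψ x), ?_⟩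
    rw [zero_add, pow_one, MvPolynomial.aeval_C, hψ, map_sub, AlgHom.commutes, Algebra.algebraMap_self,
      RingHom.id_apply, sub_self]
  | succ N ih =>
    intro x hx
    rw [pow_succ'] at hx
    refine Submodule.mul_induction_on hx ?_ ?_
    · intro m hm y hy
      obtain ⟨q, hq⟩ := ih y hy
      obtain ⟨a, ha⟩ := hz m hm
      have hqN : MvPolynomial.aeval z q ∈ (maximalIdeal O) ^ N := by
        have h1 : MvPolynomial.aeval z q = y - (y - MvPolynomial.aeval z q) := by ring
        rw [h1]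
        exact Ideal.sub_mem _ hy (Ideal.pow_le_pow_right (Nat.le_succ N) hq)
      refine ⟨∑ i, MvPolynomial.C (ψ (a i)) * MvPolynomial.X i * q, ?_⟩
      have h2 : m * y - MvPolynomial.aeval z (∑ i, MvPolynomial.C (ψ (a i)) * MvPolynomial.X i * q) =
          m * (y - MvPolynomial.aeval z q) +
            ∑ i, (a i - algebraMap k O (ψ (a i))) * z i * MvPolynomial.aeval z q := by
        rw [map_sum]
        simp only [map_mul, MvPolynomial.aeval_C, MvPolynomial.aeval_X]
        rw [mul_sub]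
        conv_lhs => rw [show m * y = m * y - m * MvPolynomial.aeval z q +
          m * MvPolynomial.aeval z q by ring]
        rw [add_sub_assoc]
        congr 1
        conv_lhs => rw [ha]
        rw [Finset.sum_mul, ← Finset.sum_sub_distrib]
        refine Finset.sum_congr rfl fun i _ => ?_
        ring
      rw [h2]
      refine Ideal.add_mem _ ?_ (Ideal.sum_mem _ fun i _ => ?_)
      · rw [pow_succ' _ (N + 1)]
        exact Ideal.mul_mem_mul hm hq
      · rw [pow_succ' _ (N + 1), pow_succ' _ N, mul_assoc]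
        refine Ideal.mul_mem_mul ?_ (Ideal.mul_mem_mul (hzm i) hqN)
        rw [hψ, map_sub, AlgHom.commutes, Algebra.algebraMap_self, RingHom.id_apply, sub_self]
    · rintro x y ⟨p, hp⟩ ⟨q, hq⟩
      refine ⟨p + q, ?_⟩
      rw [map_add, add_sub_add_comm]
      exact Ideal.add_mem _ hp hq

theorem exists_poly (ψ : O →ₐ[k] k) (z : Fin n → O)
    (hψ : ∀ x, x ∈ maximalIdeal O ↔ ψ x = 0) (hzm : ∀ i, z i ∈ maximalIdeal O)
    (hz : ∀ x ∈ maximalIdeal O, ∃ a : Fin n → O, x = ∑ i, a i * z i) (N : ℕ) (x : O) :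
    ∃ q : MvPolynomial (Fin n) k, x - MvPolynomial.aeval z q ∈ (maximalIdeal O) ^ N := by
  induction N with
  | zero => exact ⟨0, by rw [pow_zero, Ideal.one_eq_top]; trivial⟩
  | succ N ih =>
    obtain ⟨q, hq⟩ := ih
    obtain ⟨r, hr⟩ := pow_poly ψ z hψ hzm hz N _ hq
    exact ⟨q + r, by rw [map_add, ← sub_sub]; exact hr⟩

theorem order_pow (ψ : O →ₐ[k] k) (hψ : ∀ x, x ∈ maximalIdeal O ↔ ψ x = 0)
    (τ : O →ₐ[k] MvPowerSeries (Fin n) k) (h0 : ∀ a, MvPowerSeries.constantCoeff (τ a) = ψ a)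
    (N : ℕ) : ∀ x ∈ (maximalIdeal O) ^ N, (N : ℕ∞) ≤ (τ x).order := by
  induction N with
  | zero =>
    intro x _
    simp
  | succ N ih =>
    intro x hx
    rw [pow_succ'] at hx
    refine Submodule.mul_induction_on hx ?_ ?_
    · intro m hm y hy
      rw [map_mul]
      refine le_trans ?_ MvPowerSeries.le_order_mul
      have h1 : (1 : ℕ∞) ≤ (τ m).order := by
        refine MvPowerSeries.le_order fun d hd => ?_
        have hd' : d = 0 := by
          rw [← Finsupp.degree_eq_zero_iff]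
          have : (Finsupp.degree d) < 1 := by exact_mod_cast hd
          omega
        rw [hd', MvPowerSeries.coeff_zero_eq_constantCoeff_apply, h0, ← hψ]
        exact hm
      calc ((N + 1 : ℕ) : ℕ∞) = 1 + (N : ℕ∞) := by rw [Nat.cast_add, Nat.cast_one, add_comm]
        _ ≤ _ := add_le_add h1 (ih y hy)
    · intro x y hx hy
      rw [map_add]
      exact le_trans (le_min hx hy) MvPowerSeries.min_order_le_add

theorem tay_mem [IsNoetherianRing O] (ψ : O →ₐ[k] k) (z : Fin n → O)
    (hψ : ∀ x, x ∈ maximalIdeal O ↔ ψ x = 0) (hzm : ∀ i, z i ∈ maximalIdeal O)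
    (hz : ∀ x ∈ maximalIdeal O, ∃ a : Fin n → O, x = ∑ i, a i * z i)
    (τ : O →ₐ[k] MvPowerSeries (Fin n) k) (h0 : ∀ a, MvPowerSeries.constantCoeff (τ a) = ψ a)
    (hτz : ∀ i, τ (z i) = MvPowerSeries.X i) (T : Finset (Fin n)) (a : O)
    (h : ∀ α : Fin n →₀ ℕ, MvPowerSeries.coeff α (τ a) ≠ 0 → ∃ i ∈ T, α i ≠ 0) :
    a ∈ Ideal.span (z '' (T : Set (Fin n))) := by
  have hτp : ∀ p : MvPolynomial (Fin n) k, ∀ α,
      MvPowerSeries.coeff α (τ (MvPolynomial.aeval z p)) = MvPolynomial.coeff α p := by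
    intro p α
    have h1 : τ.comp (MvPolynomial.aeval z) = MvPolynomial.coeToMvPowerSeries.algHom k := by
      refine MvPolynomial.algHom_ext fun i => ?_
      rw [AlgHom.comp_apply, MvPolynomial.aeval_X, hτz, MvPolynomial.coeToMvPowerSeries.algHom_apply,
        MvPolynomial.coe_X, MvPowerSeries.map_X]
    have h2 := congrArg (fun f => f p) h1
    simp only [AlgHom.comp_apply, MvPolynomial.coeToMvPowerSeries.algHom_apply] at h2
    rw [h2, MvPowerSeries.coeff_map, MvPolynomial.coeff_coe, Algebra.algebraMap_self, RingHom.id_apply]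
  refine krull_aux _ _ fun N => ?_
  obtain ⟨p, hp⟩ := exists_poly ψ z hψ hzm hz N a
  have h3 : a = MvPolynomial.aeval z p + (a - MvPolynomial.aeval z p) := by ring
  rw [h3]
  refine Ideal.add_mem _ ?_ (Ideal.mem_sup_right hp)
  rw [MvPolynomial.aeval_def, MvPolynomial.eval₂_eq']
  refine Ideal.sum_mem _ fun α hα => Ideal.mul_mem_left _ _ ?_
  by_cases hd : α.degree < N
  · have h4 : MvPowerSeries.coeff α (τ (a - MvPolynomial.aeval z p)) = 0 := by
      refine MvPowerSeries.coeff_of_lt_order (lt_of_lt_of_le ?_ (order_pow ψ hψ τ h0 N _ hp))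
      exact_mod_cast hd
    rw [map_sub, map_sub, hτp, sub_eq_zero] at h4
    obtain ⟨i, hi, hi'⟩ := h α (by rw [h4]; exact MvPolynomial.mem_support_iff.mp hα)
    refine Ideal.mem_sup_left ?_
    rw [← Finset.mul_prod_erase Finset.univ (fun i => z i ^ α i) (Finset.mem_univ i)]
    refine Ideal.mul_mem_right _ _ ?_
    have hzi : z i ∈ Ideal.span (z '' (T : Set (Fin n))) :=
      Ideal.subset_span (Set.mem_image_of_mem z (Finset.mem_coe.mpr hi))
    exact Ideal.pow_mem_of_mem _ hzi _ (Nat.pos_of_ne_zero hi')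
  · refine Ideal.mem_sup_right ?_
    have h5 : ∏ i, z i ^ α i ∈ (maximalIdeal O) ^ (∑ i, α i) := by
      rw [← Finset.prod_pow_eq_pow_sum]
      exact Ideal.prod_mem_prod fun i _ => Ideal.pow_mem_pow (hzm i) _
    have h6 : (∑ i, α i) = α.degree := by
      rw [Finsupp.degree_eq_sum]
    rw [h6] at h5
    exact Ideal.pow_le_pow_right (not_lt.mp hd) h5

end

end Pool.Agent.KMR
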