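import Pool.Agent.Lib.MP_732f67_ag.R.DerO
import Pool.Agent.Lib.MP_732f67_ag.R.TayH
import Pool.Agent.Lib.MP_732f67_ag.R.TayK

/-!
The Taylor expansion of the elements of a local ring with parameters.
-/

namespace Pool.Agent.KMR

variable {k Ω : Type} [Field k] [Field Ω] [Algebra k Ω]

theorem isUnit_iff_un {O : Subalgebra k Ω} (a : O) : IsUnit a ↔ Un O (a : Ω) := by
  constructor
  · rintro ⟨u, rfl⟩
    have h : ((u : O) : Ω) * (((u⁻¹ : Oˣ) : O) : Ω) = 1 := by
      rw [← MulMemClass.coe_mul, u.mul_inv, OneMemClass.coe_one]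
    refine ⟨?_, (u : O).2, ?_⟩
    · intro h0
      rw [h0, zero_mul] at h
      exact zero_ne_one h
    · rw [← eq_inv_of_mul_eq_one_right h]
      exact ((u⁻¹ : Oˣ) : O).2
  · rintro ⟨h0, _, h1⟩
    exact IsUnit.of_mul_eq_one ⟨_, h1⟩ (Subtype.ext (mul_inv_cancel₀ h0))

/-- the local ring of a finitely generated algebra is noetherian -/
theorem noeth_loc {R : Subalgebra k Ω} (h : R.FG) (φ : R →ₐ[k] k) :
    IsNoetherianRing (Loc R φ) := by
  have hft : Algebra.FiniteType k R := (Subalgebra.fg_iff_finiteType R).mp h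
  have hR : IsNoetherianRing R := Algebra.FiniteType.isNoetherianRing k R
  rw [isNoetherianRing_iff_ideal_fg]
  intro I
  let f : R →+* Loc R φ := (Subalgebra.inclusion (le_loc φ)).toRingHom
  have h1 : (I.comap f).FG := (isNoetherianRing_iff_ideal_fg R).mp hR _
  have h2 : (I.comap f).map f = I := by
    refine le_antisymm Ideal.map_comap_le ?_
    rintro ⟨a, b, c, hc, rfl⟩ ha
    have hcu : Un (Loc R φ) (c : Ω) := (un_loc φ c).mpr hc
    have hb : f b ∈ I := by
      have : f b = f c * ⟨(b : Ω) / c, ⟨b, c, hc, rfl⟩⟩ := by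
        refine Subtype.ext ?_
        change (b : Ω) = (c : Ω) * ((b : Ω) / c)
        rw [mul_div_cancel₀ _ hcu.1]
      rw [this]
      exact Ideal.mul_mem_left _ _ ha
    have h3 : (⟨(b : Ω) / c, ⟨b, c, hc, rfl⟩⟩ : Loc R φ) = ⟨(c : Ω)⁻¹, hcu.2.2⟩ * f b := by
      refine Subtype.ext ?_
      change (b : Ω) / c = (c : Ω)⁻¹ * b
      rw [div_eq_mul_inv, mul_comm]
    rw [h3]
    exact Ideal.mul_mem_left _ _ (Ideal.mem_map_of_mem f hb)
  rw [← h2]
  exact h1.map f

theorem isLocal_loc {R : Subalgebra k Ω} (φ : R →ₐ[k] k) : IsLocalRing (Loc R φ) := by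
  refine IsLocalRing.of_nonunits_add fun a b ha hb => ?_
  rw [mem_nonunits_iff, isUnit_iff_un] at ha hb ⊢
  exact (isPt_loc φ).add a b a.2 b.2 ha hb

/-- `O` is a regular local ring with parameters `z`: the Taylor expansion `τ` -/
structure IsTay (O : Subalgebra k Ω) {n : ℕ} (z : Fin n → Ω) (τ : O →ₐ[k] MvPowerSeries (Fin n) k) :
    Prop where
  z_O : ∀ i, z i ∈ O
  z_X : ∀ i, τ ⟨z i, z_O i⟩ = MvPowerSeries.X i
  unit : ∀ a : O, MvPowerSeries.constantCoeff (τ a) ≠ 0 ↔ Un O (a : Ω)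
  /-- if the expansion of `a` is in the ideal of the `X i`, `i ∈ T`, then `a` is in the ideal of
  the `z i`, `i ∈ T`; in particular `τ` is injective (`T = ∅`) -/
  mem : ∀ (T : Finset (Fin n)) (a : O),
    (∀ α : Fin n →₀ ℕ, MvPowerSeries.coeff α (τ a) ≠ 0 → ∃ i ∈ T, α i ≠ 0) →
      ∃ b : Fin n → Ω, (∀ i, b i ∈ O) ∧ (a : Ω) = ∑ i ∈ T, b i * z i

/-- PROOF. `par_ind`, `exists_der`, `der_mem`, `der_comm` give commuting derivations `D i` of
`O = Loc R φ` with `D i (z j) = δ_ij`; `exists_taylor` for the residue map; `τ (z j) = X j` by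
comparing coefficients. `mem`: let `𝔪` be the maximal ideal, `I = (z i, i ∈ T)`. `O = k + 𝔪` and
`𝔪 = (z)` give: every `a ∈ O` is congruent mod `𝔪^N` to `p (z)` for a polynomial `p` of degree `< N`
over `k`; `τ (𝔪^N)` has no terms of degree `< N`, so the coefficients of `p` are those of `τ a`:
`a ∈ I + 𝔪^N` for all `N`. Krull's intersection theorem in the noetherian local ring `O / I`. -/
theorem exists_tay [IsAlgClosed k] [CharZero k] {R : Subalgebra k Ω} {n : ℕ} (h : Dim R n)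
    (φ : R →ₐ[k] k) (z : Fin n → Ω) (hz : Par (Loc R φ) z) : ∃ τ, IsTay (Loc R φ) z τ := by
  classical
  have hloc : IsLocalRing (Loc R φ) := isLocal_loc φ
  have hno : IsNoetherianRing (Loc R φ) := noeth_loc h.fg φ
  obtain ⟨ψ, hψ⟩ := isPt_loc φ
  obtain ⟨hind, halg⟩ := par_ind h φ z hz
  obtain ⟨D, hD⟩ := exists_der z hind
  have hδ : ∀ i j, D i (z j) ∈ Loc R φ := by
    intro i j
    rw [hD]
    split_ifs
    · exact one_mem _
    · exact zero_mem _
  have hDO : ∀ i, ∀ a ∈ Loc R φ, D i a ∈ Loc R φ := fun i a ha =>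
    der_mem h.fg φ z hz (D i) (hδ i) a ha
  let E : Fin n → Derivation k (Loc R φ) (Loc R φ) := fun i =>
    Derivation.mk'
      { toFun := fun a => ⟨D i a, hDO i a a.2⟩
        map_add' := fun a b => Subtype.ext (by
          change D i ((a : Ω) + b) = D i a + D i b
          rw [map_add])
        map_smul' := fun c a => Subtype.ext (by
          change D i (c • (a : Ω)) = c • D i a
          rw [Derivation.map_smul]) }
      (fun a b => Subtype.ext (by
        change D i ((a : Ω) * b) = (a : Ω) * D i b + (b : Ω) * D i a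
        rw [Derivation.leibniz, smul_eq_mul, smul_eq_mul]))
  have hE : ∀ i a, ((E i a : Loc R φ) : Ω) = D i a := fun i a => rfl
  obtain ⟨τ, hτ0, hτ⟩ := exists_taylor ψ E (fun i j a => Subtype.ext (by
    rw [hE, hE, hE, hE]
    exact der_comm z hind D hD i j a (halg a a.2)))
  have hpd : ∀ i a, MvPowerSeries.pderiv k i (τ a) = τ (E i a) := by
    intro i a
    ext α
    rw [MvPowerSeries.coeff_pderiv, hτ, mul_comm]
  have hzO : ∀ i, z i ∈ Loc R φ := fun i => (hz.1 i).1
  have hzψ : ∀ i, ψ ⟨z i, hzO i⟩ = 0 := by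
    intro i
    by_contra h1
    exact (hz.1 i).2 ((hψ _).mp h1)
  have hzX : ∀ i, τ ⟨z i, hzO i⟩ = MvPowerSeries.X i := by
    intro i
    refine MvPowerSeries.pderiv.ext (fun j => ?_) ?_
    · rw [hpd]
      by_cases hij : i = j
      · subst hij
        have h1 : E i ⟨z i, hzO i⟩ = 1 := Subtype.ext (by
          rw [hE, hD, if_pos rfl, OneMemClass.coe_one])
        rw [h1, map_one, MvPowerSeries.pderiv_X_self]
      · have h1 : E j ⟨z i, hzO i⟩ = 0 := Subtype.ext (by
          rw [hE, hD, if_neg (fun h => hij h.symm), ZeroMemClass.coe_zero])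
        rw [h1, map_zero, MvPowerSeries.pderiv_X_of_ne hij]
    · rw [hτ0, hzψ, MvPowerSeries.constantCoeff_X]
  have hmax : ∀ x : Loc R φ, x ∈ IsLocalRing.maximalIdeal (Loc R φ) ↔ ψ x = 0 := by
    intro x
    rw [IsLocalRing.mem_maximalIdeal, mem_nonunits_iff, isUnit_iff_un, ← hψ, not_not]
  refine ⟨τ, hzO, hzX, fun a => by rw [hτ0, hψ], fun T a ha => ?_⟩
  have h2 := tay_mem ψ (fun i => (⟨z i, hzO i⟩ : Loc R φ)) hmax (fun i => (hmax _).mpr (hzψ i))
    (fun x hx => by
      obtain ⟨c, hc, hc'⟩ := hz.2 x x.2 (by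
        rw [← hψ, not_not]
        exact (hmax x).mp hx)
      refine ⟨fun i => ⟨c i, hc i⟩, Subtype.ext ?_⟩
      rw [hc', AddSubmonoidClass.coe_finsetSum]
      rfl) τ hτ0 hzX T a ha
  rw [Ideal.span, Submodule.mem_span_image_finset_iff_exists_fun'] at h2
  obtain ⟨c, hc⟩ := h2
  refine ⟨fun i => c i, fun i => (c i).2, ?_⟩
  rw [← hc, AddSubmonoidClass.coe_finsetSum]
  rfl

end Pool.Agent.KMR
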