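import Mathlib

/-!
Automorphisms of a discrete valuation ring of residue characteristic zero which act trivially on
the residue field. Only Mathlib.
-/

namespace Pool.Agent.KMR

open IsLocalRing

/-- An automorphism which is trivial modulo `𝔪` and fixes `π` modulo `𝔪 ^ 2` is trivial on the
graded ring. -/
theorem abha_gr {B : Type} [CommRing B] [IsDomain B] [IsDiscreteValuationRing B]
    (σ : B ≃+* B) (h1 : ∀ b, σ b - b ∈ maximalIdeal B) (π : B) (hπ : Irreducible π)
    (h2 : σ π - π ∈ maximalIdeal B ^ 2) (i : ℕ) :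
    ∀ x ∈ maximalIdeal B ^ i, σ x - x ∈ maximalIdeal B ^ (i + 1) := by
  have hm : maximalIdeal B = Ideal.span {π} := hπ.maximalIdeal_eq
  have hπm : π ∈ maximalIdeal B := by
    rw [hm]
    exact Ideal.mem_span_singleton_self π
  have hσπ : σ π ∈ maximalIdeal B := by
    have h3 := add_mem (h1 π) hπm
    rwa [sub_add_cancel] at h3
  induction i with
  | zero =>
    intro x _
    rw [zero_add, pow_one]
    exact h1 x
  | succ i ih =>
    intro x hx
    rw [hm, Ideal.span_singleton_pow, Ideal.mem_span_singleton] at hx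
    obtain ⟨c, rfl⟩ := hx
    have hz : π ^ i * c ∈ maximalIdeal B ^ i := by
      rw [hm, Ideal.span_singleton_pow, Ideal.mem_span_singleton]
      exact ⟨c, rfl⟩
    have e : σ (π ^ (i + 1) * c) - π ^ (i + 1) * c =
        σ π * (σ (π ^ i * c) - π ^ i * c) + (σ π - π) * (π ^ i * c) := by
      rw [pow_succ', mul_assoc, map_mul σ π]
      ring
    rw [e]
    refine add_mem ?_ ?_
    · rw [pow_succ' (maximalIdeal B) (i + 1)]
      exact Ideal.mul_mem_mul hσπ (ih _ hz)
    · have h3 := Ideal.mul_mem_mul h2 hz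
      rwa [← pow_add, show 2 + i = i + 1 + 1 by ring] at h3

/-- PROOF. Suppose not all `δ b = σ b - b` are zero. By `h1` and because `⋂ 𝔪 ^ i = 0`, there is a
maximal `i ≥ 1` with `δ b ∈ 𝔪 ^ i` for all `b`. If `δ b = π ^ i c` then `δ (δ b) = π ^ i ((σ π / π) ^ i
σ c - c) ∈ 𝔪 ^ (i + 1)`, because `σ π / π ≡ 1` and `σ c ≡ c` modulo `𝔪`. So `σ ^ N b ≡ b + N δ b` modulo
`𝔪 ^ (i + 1)` (induction on `N`), hence `N δ b ∈ 𝔪 ^ (i + 1)` and `δ b ∈ 𝔪 ^ (i + 1)` for all `b`, a
contradiction. -/
theorem dvr_aut {B : Type} [CommRing B] [IsDomain B] [IsDiscreteValuationRing B] [Algebra ℚ B]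
    (σ : B ≃+* B) (N : ℕ) (hN : 0 < N) (hσ : σ ^ N = 1)
    (h1 : ∀ b, σ b - b ∈ maximalIdeal B) (π : B) (hπ : Irreducible π)
    (h2 : σ π - π ∈ maximalIdeal B ^ 2) : σ = 1 := by
  have key : ∀ i : ℕ, ∀ b, σ b - b ∈ maximalIdeal B ^ (i + 1) := by
    intro i
    induction i with
    | zero =>
      intro b
      rw [zero_add, pow_one]
      exact h1 b
    | succ i ih =>
      have h3 : ∀ (k : ℕ) (b : B), (σ ^ k) b - b - (k : B) * (σ b - b) ∈
          maximalIdeal B ^ (i + 1 + 1) := by
        intro k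
        induction k with
        | zero =>
          intro b
          simp
        | succ k ihk =>
          intro b
          have h4 : (σ ^ k) b - b ∈ maximalIdeal B ^ (i + 1) := by
            have h5 := add_mem (Ideal.pow_le_pow_right (Nat.le_succ (i + 1)) (ihk b))
              (Ideal.mul_mem_left _ (k : B) (ih b))
            rwa [sub_add_cancel] at h5
          have h5 := add_mem (abha_gr σ h1 π hπ h2 (i + 1) _ h4) (ihk b)
          have e1 : (σ ^ (k + 1)) b = σ ((σ ^ k) b) := by
            rw [pow_succ']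
            rfl
          have e : (σ ^ (k + 1)) b - b - ((k + 1 : ℕ) : B) * (σ b - b) =
              σ ((σ ^ k) b - b) - ((σ ^ k) b - b) + ((σ ^ k) b - b - (k : B) * (σ b - b)) := by
            rw [e1, map_sub]
            push_cast
            ring
          rw [e]
          exact h5
      intro b
      have h4 := h3 N b
      rw [hσ] at h4
      have e : (1 : B ≃+* B) b - b - (N : B) * (σ b - b) = -((N : B) * (σ b - b)) := by
        have : (1 : B ≃+* B) b = b := rfl
        rw [this]
        ring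
      rw [e, neg_mem_iff] at h4
      have hu : (algebraMap ℚ B (N : ℚ)⁻¹) * (N : B) = 1 := by
        have : (N : B) = algebraMap ℚ B (N : ℚ) := by simp
        rw [this, ← map_mul, inv_mul_cancel₀ (by exact_mod_cast hN.ne'), map_one]
      have h5 := Ideal.mul_mem_left _ (algebraMap ℚ B (N : ℚ)⁻¹) h4
      rwa [← mul_assoc, hu, one_mul] at h5
  have hI : (⨅ i : ℕ, maximalIdeal B ^ i) = ⊥ :=
    Ideal.iInf_pow_eq_bot_of_isLocalRing _ (maximalIdeal.isMaximal B).ne_top
  refine RingEquiv.ext fun b => ?_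
  have h3 : σ b - b ∈ (⨅ i : ℕ, maximalIdeal B ^ i) := by
    rw [Submodule.mem_iInf]
    intro i
    exact Ideal.pow_le_pow_right (Nat.le_succ i) (key i b)
  rw [hI, Ideal.mem_bot, sub_eq_zero] at h3
  exact h3

/-- PROOF. `σ ↦ σ π / π` modulo `𝔪` is a homomorphism from `I` to the units of the residue field
(`τ (σ π / π) ≡ σ π / π`), injective by `dvr_aut`; finite subgroups of the units of a field are
cyclic. -/
theorem dvr_cyclic {B : Type} [CommRing B] [IsDomain B] [IsDiscreteValuationRing B] [Algebra ℚ B]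
    (I : Subgroup (B ≃+* B)) [Finite I] (h1 : ∀ σ ∈ I, ∀ b, σ b - b ∈ maximalIdeal B) :
    IsCyclic I := by
  obtain ⟨π, hπ⟩ := IsDiscreteValuationRing.exists_irreducible B
  have hm : maximalIdeal B = Ideal.span {π} := hπ.maximalIdeal_eq
  have hπ0 : π ≠ 0 := hπ.ne_zero
  have hex : ∀ σ : I, ∃ u : B, (σ : B ≃+* B) π = π * u := by
    intro σ
    have h2 : (σ : B ≃+* B) π ∈ maximalIdeal B := by
      have h3 := add_mem (h1 σ.1 σ.2 π) (by rw [hm]; exact Ideal.mem_span_singleton_self π :
        π ∈ maximalIdeal B)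
      rwa [sub_add_cancel] at h3
    rw [hm, Ideal.mem_span_singleton] at h2
    exact h2
  choose u hu using hex
  have hr : ∀ (σ : I) (b : B), residue B ((σ : B ≃+* B) b) = residue B b := by
    intro σ b
    have := (residue_eq_zero_iff _).2 (h1 σ.1 σ.2 b)
    rwa [map_sub, sub_eq_zero] at this
  let f : I →* ResidueField B :=
    { toFun := fun σ => residue B (u σ)
      map_one' := by
        have h2 := hu 1
        have h3 : ((1 : I) : B ≃+* B) π = π := rfl
        rw [h3] at h2
        have h4 : u 1 = 1 := (mul_left_cancel₀ hπ0 (by rw [← h2, mul_one]))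
        rw [h4, map_one]
      map_mul' := by
        intro σ τ
        have h2 : ((σ * τ : I) : B ≃+* B) π = (σ : B ≃+* B) ((τ : B ≃+* B) π) := rfl
        rw [hu τ, map_mul, hu σ, hu (σ * τ), mul_assoc] at h2
        rw [mul_left_cancel₀ hπ0 h2, map_mul, hr] }
  refine isCyclic_of_injective_ringHom f ?_
  have hinj : ∀ σ : I, f σ = 1 → σ = 1 := by
    intro σ hσ
    have h2 : residue B (u σ - 1) = 0 := by
      rw [map_sub, map_one, sub_eq_zero]
      exact hσ
    rw [residue_eq_zero_iff] at h2
    have h3 : (σ : B ≃+* B) π - π ∈ maximalIdeal B ^ 2 := by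
      have e : (σ : B ≃+* B) π - π = π * (u σ - 1) := by
        rw [hu σ]
        ring
      rw [e, pow_two]
      exact Ideal.mul_mem_mul (by rw [hm]; exact Ideal.mem_span_singleton_self π) h2
    have h4 : (σ : B ≃+* B) ^ orderOf σ = 1 := by
      have h5 := pow_orderOf_eq_one σ
      have h6 := congrArg (Subtype.val) h5
      rwa [SubgroupClass.coe_pow] at h6
    exact Subtype.ext (dvr_aut _ (orderOf σ) (orderOf_pos σ) h4 (h1 σ.1 σ.2) π hπ h3)
  exact (injective_iff_map_eq_one' (f : I →* ResidueField B)).2 fun σ =>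
    ⟨hinj σ, fun h => by rw [h, map_one]⟩

end Pool.Agent.KMR
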