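import Pool.Agent.Lib.MP_732f67_ag.R.AbhA

/-!
Abhyankar's lemma for inertia groups. Only Mathlib.
-/

namespace Pool.Agent.KMR

open IsLocalRing

/-- A finite group of automorphisms of the fraction field of a discrete valuation ring of residue
characteristic zero, which acts trivially on the residue field, of exponent `m`: its order divides
`m`, and the elements which fix a uniformiser are trivial. -/
theorem abhB_dvr {K L : Type} [Field K] [Field L] [Algebra K L] {V : Type} [CommRing V]
    [IsDomain V] [IsDiscreteValuationRing V] [Algebra ℚ V] [Algebra V L] [IsFractionRing V L]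
    (H : Subgroup (L ≃ₐ[K] L)) [Finite H]
    (hV : ∀ τ ∈ H, ∀ z : V, ∃ z' : V, algebraMap V L z' = τ (algebraMap V L z) ∧
      z' - z ∈ maximalIdeal V) {m : ℕ} (hm : 0 < m) (hexp : ∀ τ ∈ H, τ ^ m = 1) :
    Nat.card H ∣ m ∧ ∀ τ ∈ H, ∀ π : V, Irreducible π →
      τ (algebraMap V L π) = algebraMap V L π → τ = 1 := by
  classical
  have hinj : Function.Injective (algebraMap V L) := IsFractionRing.injective V L
  choose r hr hr' using hV
  obtain ⟨R, hR, hR'⟩ : ∃ R : H → V → V,
      (∀ (τ : H) z, algebraMap V L (R τ z) = (τ : L ≃ₐ[K] L) (algebraMap V L z)) ∧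
      ∀ (τ : H) z, R τ z - z ∈ maximalIdeal V :=
    ⟨fun τ z => r τ.1 τ.2 z, fun τ z => hr _ _ _, fun τ z => hr' _ _ _⟩
  have hmul : ∀ (τ υ : H) z, R (τ * υ) z = R τ (R υ z) := fun τ υ z => hinj (by
    rw [hR, hR, hR]; rfl)
  have hone : ∀ z, R 1 z = z := fun z => hinj (by rw [hR]; rfl)
  let f : H →* (V ≃+* V) :=
    { toFun := fun τ =>
        { toFun := R τ
          invFun := R τ⁻¹
          left_inv := fun z => by rw [← hmul, inv_mul_cancel, hone]
          right_inv := fun z => by rw [← hmul, mul_inv_cancel, hone]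
          map_mul' := fun a b => hinj (by rw [hR, map_mul, map_mul, map_mul, hR, hR])
          map_add' := fun a b => hinj (by rw [hR, map_add, map_add, map_add, hR, hR]) }
      map_one' := RingEquiv.ext fun z => hone z
      map_mul' := fun τ υ => RingEquiv.ext fun z => hmul τ υ z }
  have hf : ∀ τ z, f τ z = R τ z := fun _ _ => rfl
  have hfi : Function.Injective f := by
    intro τ υ h
    apply Subtype.ext
    apply AlgEquiv.ext
    intro z
    obtain ⟨a, b, hb, rfl⟩ := IsFractionRing.div_surjective (A := V) z
    rw [map_div₀, map_div₀, ← hR, ← hR, ← hR, ← hR, ← hf, ← hf, ← hf, ← hf, h]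
  have h1 : ∀ σ ∈ f.range, ∀ b, σ b - b ∈ maximalIdeal V := by
    rintro _ ⟨τ, rfl⟩ b
    exact hR' τ b
  have hpow : ∀ τ : H, τ ^ m = 1 := fun τ => Subtype.ext (hexp τ.1 τ.2)
  constructor
  · have : Finite f.range := Finite.of_surjective f.rangeRestrict f.rangeRestrict_surjective
    have hc : IsCyclic f.range := dvr_cyclic f.range h1
    have e : Nat.card H = Nat.card f.range := Nat.card_congr (MonoidHom.ofInjective hfi).toEquiv
    rw [e, ← IsCyclic.exponent_eq_card]
    refine Monoid.exponent_dvd_of_forall_pow_eq_one ?_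
    rintro ⟨_, τ, rfl⟩
    apply Subtype.ext
    show (f τ) ^ m = 1
    rw [← map_pow, hpow, map_one]
  · intro τ hτ π hπ hfix
    have h2 : f ⟨τ, hτ⟩ = 1 := by
      refine dvr_aut _ m hm (by rw [← map_pow, hpow, map_one]) (h1 _ ⟨_, rfl⟩) π hπ ?_
      have h3 : f ⟨τ, hτ⟩ π = π := hinj (by rw [hf, hR]; exact hfix)
      rw [h3, sub_self]
      exact Ideal.zero_mem _
    have h3 := hfi (h2.trans (map_one f).symm)
    exact congrArg Subtype.val h3

/-- Let `L / K` be a finite Galois extension of exponent `m`, and let `y ∈ L` be an `m`-th root of the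
uniformiser `x` of `A`. Then an element of the inertia group of `P` fixing `y` is trivial.
PROOF. Let `B` be the integral closure of `A` in `L` (a Dedekind domain), `B'` its localisation at
`P`, a discrete valuation ring with uniformiser `π`, `I` the inertia group of `P`; it acts on `B'`,
trivially on the residue field (`a / b`, `b ∉ P`). By `dvr_cyclic` `I` is cyclic, so its order `e` divides
`m`. By `Ideal.card_inertia_eq_ramificationIdxIn` (and `Ideal.ramificationIdxIn_eq_ramificationIdx`)
`e` is the ramification index, the order of `x` at `P`. So `m * ord y = ord x = e ≤ m`: `ord y = 1`, we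
can take `π = y`, and `σ y = y`, so `σ = 1` by `dvr_aut`. -/
theorem abh {A K L : Type} [CommRing A] [IsDomain A] [IsDiscreteValuationRing A] [Algebra ℚ A]
    [Field K] [Algebra A K] [IsFractionRing A K] [Field L] [Algebra K L] [Algebra A L]
    [IsScalarTower A K L] [FiniteDimensional K L] [IsGalois K L] {m : ℕ} (hm : 0 < m)
    (hexp : ∀ σ : L ≃ₐ[K] L, σ ^ m = 1) (x : A) (hx : Irreducible x) (y : L)
    (hy : y ^ m = algebraMap A L x) (P : Ideal (integralClosure A L)) (hP : P.IsMaximal)
    (σ : L ≃ₐ[K] L) (hσ : ∀ b : integralClosure A L, ∃ d ∈ P, σ (b : L) - b = (d : L))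
    (hσy : σ y = y) : σ = 1 := by
  classical
  have hDed : IsDedekindDomain (integralClosure A L) := integralClosure.isDedekindDomain A K L
  have hfr : IsFractionRing (integralClosure A L) L :=
    integralClosure.isFractionRing_of_finite_extension K L
  have hfin : Module.Finite A (integralClosure A L) :=
    IsIntegralClosure.finite A K L (integralClosure A L)
  let act : MulSemiringAction (L ≃ₐ[K] L) (integralClosure A L) :=
    IsIntegralClosure.MulSemiringAction A K L (integralClosure A L)
  have hgal : IsGaloisGroup (L ≃ₐ[K] L) A (integralClosure A L) :=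
    IsGaloisGroup.of_isFractionRing _ _ _ K L
  have hact : ∀ (τ : L ≃ₐ[K] L) (b : integralClosure A L), ((τ • b : integralClosure A L) : L) =
      τ (b : L) := fun τ b => algebraMap_galRestrict_apply A τ b
  have hinA : Function.Injective (algebraMap A L) := by
    rw [IsScalarTower.algebraMap_eq A K L]
    exact (algebraMap K L).injective.comp (IsFractionRing.injective A K)
  -- the root of the uniformiser
  have hyi : IsIntegral A y := IsIntegral.of_pow hm (hy ▸ isIntegral_algebraMap)
  obtain ⟨Y, hY⟩ : ∃ Y : integralClosure A L, (Y : L) = y := ⟨⟨y, hyi⟩, rfl⟩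
  have hYm : Y ^ m = algebraMap A (integralClosure A L) x := by
    apply Subtype.ext
    show (Y : L) ^ m = _
    rw [hY, hy]
    rfl
  -- the prime below
  have hpm : (P.under A).IsMaximal := Ideal.isMaximal_comap_of_isIntegral_of_isMaximal P
  have hpe : maximalIdeal A = P.under A := (eq_maximalIdeal hpm).symm
  have hlo : P.LiesOver (maximalIdeal A) := ⟨hpe⟩
  have hxP : algebraMap A (integralClosure A L) x ∈ P := by
    have h1 : x ∈ P.under A := by
      rw [← hpe, hx.maximalIdeal_eq]
      exact Ideal.mem_span_singleton_self x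
    exact h1
  have hx0 : algebraMap A (integralClosure A L) x ≠ 0 := by
    intro h
    have h1 : algebraMap A L x = 0 := congrArg Subtype.val h
    exact hx.ne_zero ((map_eq_zero_iff _ hinA).1 h1)
  have hY0 : Y ≠ 0 := by
    rintro rfl
    rw [zero_pow hm.ne'] at hYm
    exact hx0 hYm.symm
  have hYP : Y ∈ P := hP.isPrime.mem_of_pow_mem m (hYm ▸ hxP)
  have hPb : P ≠ ⊥ := by
    rintro rfl
    exact hY0 (Ideal.mem_bot.1 hYP)
  have hper : PerfectField (maximalIdeal A).ResidueField := by
    have : CharZero (maximalIdeal A).ResidueField := charZero_of_injective_ringHom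
      ((algebraMap A (maximalIdeal A).ResidueField).comp (algebraMap ℚ A)).injective
    infer_instance
  -- the ramification index
  have hmap : (maximalIdeal A).map (algebraMap A (integralClosure A L)) =
      Ideal.span {Y} ^ m := by
    rw [hx.maximalIdeal_eq, Ideal.map_span, Set.image_singleton, Ideal.span_singleton_pow, hYm]
  have hmap0 : (maximalIdeal A).map (algebraMap A (integralClosure A L)) ≠ ⊥ := by
    rw [hmap, ← Ideal.zero_eq_bot]
    refine pow_ne_zero m ?_
    rw [Ideal.zero_eq_bot, Ne, Ideal.span_singleton_eq_bot]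
    exact hY0
  have htf : Module.IsTorsionFree A (integralClosure A L) := by
    rw [Module.isTorsionFree_iff_algebraMap_injective]
    intro a b hab
    exact hinA (congrArg Subtype.val hab)
  have hYs : Ideal.span {Y} ≠ ⊥ := by
    rw [Ne, Ideal.span_singleton_eq_bot]
    exact hY0
  have hPp : Prime P := Ideal.prime_of_isPrime hPb hP.isPrime
  have hfm : FiniteMultiplicity P (Ideal.span {Y}) := FiniteMultiplicity.of_prime_left hPp hYs
  have hcard : Nat.card (P.inertia (L ≃ₐ[K] L)) = m * multiplicity P (Ideal.span {Y}) := by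
    rw [Ideal.card_inertia_eq_ramificationIdxIn (maximalIdeal A) P,
      Ideal.ramificationIdxIn_eq_ramificationIdx (maximalIdeal A) P (L ≃ₐ[K] L),
      Ideal.IsDedekindDomain.ramificationIdx_eq_multiplicity (maximalIdeal A) P hmap0, hmap,
      FiniteMultiplicity.multiplicity_pow hPp hfm]
  -- the local ring of `P`
  let V := Localization.subalgebra.ofField L P.primeCompl P.primeCompl_le_nonZeroDivisors
  have hloc : IsLocalization.AtPrime V P :=
    Localization.subalgebra.isLocalization_ofField L P.primeCompl P.primeCompl_le_nonZeroDivisors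
  have hdvr : IsDiscreteValuationRing V :=
    IsLocalization.AtPrime.isDiscreteValuationRing_of_dedekind_domain (integralClosure A L) hPb V
  have hfrV : IsFractionRing V L :=
    Localization.subalgebra.isFractionRing_ofField L P.primeCompl P.primeCompl_le_nonZeroDivisors
  let algV : Algebra ℚ V :=
    ((algebraMap (integralClosure A L) V).comp ((algebraMap A (integralClosure A L)).comp
      (algebraMap ℚ A))).toAlgebra
  have hmemV : ∀ z : L, z ∈ V ↔ ∃ (a s : integralClosure A L) (_ : s ∈ P.primeCompl),
      z = algebraMap (integralClosure A L) L a * (algebraMap (integralClosure A L) L s)⁻¹ :=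
    fun z => Iff.rfl
  have hH : ∀ τ ∈ P.inertia (L ≃ₐ[K] L), ∀ b : integralClosure A L, τ • b - b ∈ P :=
    fun τ hτ b => hτ b
  have hs0 : ∀ s ∈ P.primeCompl, (s : L) ≠ 0 := by
    intro s hs h
    apply hs
    have : s = 0 := Subtype.ext h
    rw [this]
    exact P.zero_mem
  have hV : ∀ τ ∈ P.inertia (L ≃ₐ[K] L), ∀ z : V, ∃ z' : V, algebraMap V L z' =
      τ (algebraMap V L z) ∧ z' - z ∈ maximalIdeal V := by
    intro τ hτ z
    obtain ⟨a, s, hs, hz⟩ := (hmemV z).1 z.2
    have hs' : τ • s ∈ P.primeCompl := by
      intro h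
      apply hs
      have h1 := P.sub_mem h (hH τ hτ s)
      rwa [sub_sub_cancel] at h1
    have hτz : τ (z : L) = ((τ • a : integralClosure A L) : L) *
        ((τ • s : integralClosure A L) : L)⁻¹ := by
      rw [hz, map_mul, map_inv₀, hact, hact]
      rfl
    refine ⟨⟨τ (z : L), (hmemV _).2 ⟨τ • a, τ • s, hs', hτz⟩⟩, rfl, ?_⟩
    have hmem : (τ • a - a) * s - a * (τ • s - s) ∈ P :=
      P.sub_mem (P.mul_mem_right _ (hH τ hτ a)) (P.mul_mem_left _ (hH τ hτ s))
    have h1 := (IsLocalization.AtPrime.to_map_mem_maximal_iff V P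
      ((τ • a - a) * s - a * (τ • s - s))).2 hmem
    have h2 : algebraMap (integralClosure A L) V ((τ • a - a) * s - a * (τ • s - s)) =
        (⟨τ (z : L), (hmemV _).2 ⟨τ • a, τ • s, hs', hτz⟩⟩ - z) *
          algebraMap (integralClosure A L) V (s * τ • s) := by
      apply Subtype.ext
      show ((((τ • a - a) * s - a * (τ • s - s) : integralClosure A L)) : L) =
        (τ (z : L) - (z : L)) * ((s * τ • s : integralClosure A L) : L)
      rw [hτz, hz]
      have k1 := hs0 s hs
      have k2 := hs0 _ hs'
      push_cast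
      show _ = (((τ • a : integralClosure A L) : L) * ((τ • s : integralClosure A L) : L)⁻¹ -
        (a : L) * (s : L)⁻¹) * ((s : L) * ((τ • s : integralClosure A L) : L))
      field_simp
      ring
    rw [h2] at h1
    refine ((maximalIdeal.isMaximal V).isPrime.mem_or_mem h1).resolve_right fun h3 => ?_
    have h4 := (IsLocalization.AtPrime.to_map_mem_maximal_iff V P (s * τ • s)).1 h3
    rcases hP.isPrime.mem_or_mem h4 with h5 | h5
    · exact hs h5
    · exact hs' h5
  obtain ⟨hdvd, hfix⟩ := abhB_dvr (V := V) (P.inertia (L ≃ₐ[K] L)) hV hm fun τ _ => hexp τ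
  rw [hcard] at hdvd
  have hle : P ∣ Ideal.span {Y} := by
    rw [Ideal.dvd_iff_le, Ideal.span_singleton_le_iff_mem]
    exact hYP
  have hmul1 : multiplicity P (Ideal.span {Y}) = 1 := by
    have h1 : m * multiplicity P (Ideal.span {Y}) ≤ m * 1 := by
      rw [mul_one]
      exact Nat.le_of_dvd hm hdvd
    have h2 := Nat.le_of_mul_le_mul_left h1 hm
    have h3 : 1 ≤ multiplicity P (Ideal.span {Y}) := by
      refine hfm.le_multiplicity_of_pow_dvd ?_
      rwa [pow_one]
    omega
  obtain ⟨J, hJ⟩ := hle
  have hJP : ¬ J ≤ P := by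
    intro h
    rw [← Ideal.dvd_iff_le] at h
    have h1 : P ^ 2 ∣ Ideal.span {Y} := by
      rw [hJ, pow_two]
      exact mul_dvd_mul_left P h
    have h2 := hfm.le_multiplicity_of_pow_dvd h1
    omega
  have hirr : Irreducible (algebraMap (integralClosure A L) V Y) := by
    rw [IsDiscreteValuationRing.irreducible_iff_uniformizer, ← Set.image_singleton,
      ← Ideal.map_span, hJ, Ideal.map_mul, IsLocalization.AtPrime.map_eq_maximalIdeal P V,
      IsLocalization.AtPrime.map_eq_top_of_not_le V hJP, Ideal.mul_top]
  refine hfix σ ?_ _ hirr ?_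
  · intro b
    obtain ⟨d, hd, hbd⟩ := hσ b
    have h1 : σ • b - b = d := Subtype.ext (by
      show ((σ • b : integralClosure A L) : L) - (b : L) = d
      rw [hact, hbd])
    rw [h1]
    exact hd
  · have h1 : algebraMap V L (algebraMap (integralClosure A L) V Y) = y := hY
    rw [h1, hσy]

end Pool.Agent.KMR
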