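import Pool.Agent.Lib.MP_732f67_ag.R.AbhO

/-!
All inertia groups trivial: unramified.
-/

namespace Pool.Agent.KMR

open Polynomial

variable {k Ω : Type} [Field k] [Field Ω] [Algebra k Ω]

variable {V : Subalgebra k Ω} {F N : IntermediateField k Ω}

/-- an element of `V` is a power of `x` times a unit -/
theorem Dv.pow {x : Ω} (hV : Dv V x) (a : Ω) (ha : a ∈ V) (ha0 : a ≠ 0) :
    ∃ (n : ℕ) (u : Ω), u ∈ V ∧ u⁻¹ ∈ V ∧ a = x ^ n * u := by
  classical
  have h1 := hV.fin a ha ha0
  have h2 : a / x ^ Nat.find h1 ∉ V := Nat.find_spec h1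
  have h3 : Nat.find h1 ≠ 0 := by
    intro h0
    rw [h0, pow_zero, div_one] at h2
    exact h2 ha
  obtain ⟨n, hn⟩ := Nat.exists_eq_succ_of_ne_zero h3
  have h4 : a / x ^ n ∈ V := by
    by_contra h4
    have h5 := Nat.find_min' h1 h4
    omega
  have hxn : x ^ n ≠ 0 := pow_ne_zero _ hV.ne
  refine ⟨n, a / x ^ n, h4, ?_, ?_⟩
  · by_contra h5
    have h6 := hV.dvd _ h4 h5
    apply h2
    rw [hn, pow_succ, ← div_div]
    exact h6
  · rw [mul_div_cancel₀ _ hxn]

/-- `V` is a valuation ring -/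
theorem Dv.val {x : Ω} (hV : Dv V x) (hF : Frc V F) (a : Ω) (ha : a ∈ F) :
    a ∈ V ∨ a⁻¹ ∈ V := by
  obtain ⟨b, hb, d, hd, hd0, rfl⟩ := hF.frac a ha
  by_cases hb0 : b = 0
  · left
    rw [hb0, zero_div]
    exact V.zero_mem
  obtain ⟨n, u, hu, hu', rfl⟩ := hV.pow b hb hb0
  obtain ⟨m, w, hw, hw', rfl⟩ := hV.pow d hd hd0
  have hx := hV.ne
  have hu0 : u ≠ 0 := fun h0 => hb0 (by rw [h0, mul_zero])
  have hw0 : w ≠ 0 := fun h0 => hd0 (by rw [h0, mul_zero])
  rcases le_total m n with h | h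
  · left
    obtain ⟨c, rfl⟩ := Nat.exists_eq_add_of_le h
    have h1 : x ^ (m + c) * u / (x ^ m * w) = x ^ c * u * w⁻¹ := by
      rw [pow_add]
      field_simp
    rw [h1]
    exact V.mul_mem (V.mul_mem (V.pow_mem hV.mem _) hu) hw'
  · right
    obtain ⟨c, rfl⟩ := Nat.exists_eq_add_of_le h
    have h1 : (x ^ n * u / (x ^ (n + c) * w))⁻¹ = x ^ c * w * u⁻¹ := by
      rw [pow_add]
      field_simp
    rw [h1]
    exact V.mul_mem (V.mul_mem (V.pow_mem hV.mem _) hw) hu'

/-- the uniformiser is in every maximal ideal of the integral closure -/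
theorem Dv.mem_max {x : Ω} (hV : Dv V x) (hF : Frc V F) (hN : Fext F N)
    (P : Ideal (icl V N)) (hP : P.IsMaximal) (z : icl V N) (hz : (z : Ω) = x) : z ∈ P := by
  let _ : Algebra V (icl V N) := (iclMap V (icl V N) fun a ha => le_icl hF hN ha).toAlgebra
  have : IsScalarTower V (icl V N) Ω := IsScalarTower.of_algebraMap_eq fun _ => rfl
  have : Algebra.IsIntegral V (icl V N) := ⟨fun b => by
    have h1 : IsIntegral V (b : Ω) := b.2.1
    exact (isIntegral_algebraMap_iff (A := icl V N) (B := Ω) Subtype.val_injective).1 h1⟩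
  have hmax : (P.comap (algebraMap V (icl V N))).IsMaximal :=
    Ideal.isMaximal_comap_of_isIntegral_of_isMaximal P
  by_contra hzP
  have hx : (⟨x, hV.mem⟩ : V) ∉ P.comap (algebraMap V (icl V N)) := by
    intro h
    have h1 : algebraMap V (icl V N) ⟨x, hV.mem⟩ = z := Subtype.ext hz.symm
    rw [Ideal.mem_comap, h1] at h
    exact hzP h
  obtain ⟨c, p, hp, hcp⟩ := hmax.exists_inv hx
  have h2 : (p : Ω)⁻¹ ∈ V := by
    by_contra h
    have h3 := hV.dvd _ p.2 h
    apply hV.nu
    have h4 : x⁻¹ = c + (p : Ω) / x := by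
      have h5 : (c : Ω) * x + p = 1 := congrArg (fun a : V => (a : Ω)) hcp
      have hx0 := hV.ne
      field_simp
      linear_combination -h5
    rw [h4]
    exact V.add_mem c.2 h3
  have hp0 : (p : Ω) ≠ 0 := by
    intro h0
    have h5 : (c : Ω) * x + p = 1 := congrArg (fun a : V => (a : Ω)) hcp
    rw [h0, add_zero] at h5
    apply hV.nu
    rw [← eq_inv_of_mul_eq_one_left h5]
    exact c.2
  apply hmax.ne_top
  rw [Ideal.eq_top_iff_one]
  have h6 : (1 : V) = ⟨(p : Ω)⁻¹, h2⟩ * p := Subtype.ext (inv_mul_cancel₀ hp0).symm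
  rw [h6]
  exact Ideal.mul_mem_left _ _ hp

/-- the inverse of a product -/
theorem abh_prod_inv {A : Subring Ω} {κ : Type} (f : κ → Ω) (s : Multiset κ)
    (h : ∀ a ∈ s, IsIntegral A (f a)⁻¹) : IsIntegral A ((s.map f).prod)⁻¹ := by
  induction s using Multiset.induction_on with
  | empty =>
    rw [Multiset.map_zero, Multiset.prod_zero, inv_one]
    exact isIntegral_one
  | cons a s ih =>
    rw [Multiset.map_cons, Multiset.prod_cons, mul_inv]
    exact (h a (Multiset.mem_cons_self a s)).mul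
      (ih fun b hb => h b (Multiset.mem_cons_of_mem hb))

/-- a generic element: no difference of two conjugates is in `P` -/
theorem abh_generic [CharZero k] {κ : Type} [Finite κ] (P : Ideal (icl V N))
    (g : κ → Ω ≃ₐ[k] Ω) (hg : ∀ i, ∀ b : icl V N, g i (b : Ω) ∈ icl V N)
    (h : ∀ i j, i ≠ j → ∃ b : icl V N, ¬ ∃ d ∈ P, g i (b : Ω) - g j b = (d : Ω)) :
    ∃ θ : icl V N, ∀ i j, i ≠ j → ¬ ∃ d ∈ P, g i (θ : Ω) - g j θ = (d : Ω) := by
  have _ := hg
  have : Infinite k := Infinite.of_injective (Nat.cast : ℕ → k) Nat.cast_injective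
  let S : {p : κ × κ // p.1 ≠ p.2} → Subspace k (icl V N) := fun p =>
    { carrier := {b | ∃ d ∈ P, g p.1.1 (b : Ω) - g p.1.2 b = (d : Ω)}
      zero_mem' := ⟨0, P.zero_mem, by simp⟩
      add_mem' := by
        rintro a b ⟨d, hd, hd'⟩ ⟨e, he, he'⟩
        refine ⟨d + e, P.add_mem hd he, ?_⟩
        rw [AddMemClass.coe_add, AddMemClass.coe_add, map_add, map_add, ← hd', ← he']
        ring
      smul_mem' := by
        rintro c a ⟨d, hd, hd'⟩
        refine ⟨c • d, ?_, ?_⟩
        · rw [Algebra.smul_def]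
          exact P.mul_mem_left _ hd
        · rw [SetLike.val_smul, SetLike.val_smul, map_smul, map_smul, ← smul_sub, hd'] }
  by_contra hcon
  push Not at hcon
  have hcov : ⋃ i, (S i : Set (icl V N)) = Set.univ := by
    refine Set.eq_univ_of_forall fun θ => ?_
    obtain ⟨i, j, hij, hd⟩ := hcon θ
    exact Set.mem_iUnion.2 ⟨⟨(i, j), hij⟩, hd⟩
  obtain ⟨p, hp⟩ := Subspace.exists_eq_top_of_iUnion_eq_univ hcov
  obtain ⟨b, hb⟩ := h p.1.1 p.1.2 p.2
  apply hb
  have h1 : b ∈ S p := by
    rw [hp]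
    exact Submodule.mem_top
  exact h1

/-- all inertia groups trivial: unramified.
PROOF. `B = icl V N` has finitely many maximal ideals `P`; for `σ ≠ 1` in the (finite) Galois group
`{b | σ b - b ∈ P}` is a proper `k`-subspace of `B`; `k` is infinite, so there is `θ ∈ B` in none of
them (Mathlib: `Subspace.biUnion_ne_univ_of_top_notMem` or similar). Then all `θ - σ θ`, `σ ≠ 1`, are
units of `B`, the minimal polynomial of `θ` over `F` is `∏ σ, (X - σ θ)`, its derivative at `θ` is
`∏ σ ≠ 1, (θ - σ θ)`, and `N = F (θ)`: one `Unr.step`. -/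
theorem unr_of_inertia [IsAlgClosed Ω] [CharZero k] {x : Ω} (hV : Dv V x) (hF : Frc V F)
    (hN : Fext F N) (hst : Stb F N)
    (hI : ∀ g : Ω ≃ₐ[k] Ω, (∀ a ∈ F, g a = a) → ∀ P : Ideal (icl V N), P.IsMaximal →
      (∀ b : icl V N, ∃ d ∈ P, g (b : Ω) - b = (d : Ω)) → ∀ a ∈ N, g a = a) :
    Unr V.toSubring F N := by
  classical
  obtain ⟨iA, hsm, hG, hfd, hlift⟩ := Stb.galois hN hst
  let _ := iA
  have _ := hG
  have _ := hfd
  have : IsScalarTower F N Ω := ⟨fun a b c => by
    change ((a • b : N) : Ω) * c = (a : Ω) * ((b : Ω) * c)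
    rw [hsm, mul_assoc]⟩
  choose g hgF hgσ using hlift
  have hstab : ∀ (h : Ω ≃ₐ[k] Ω), (∀ a ∈ F, h a = a) → ∀ b : icl V N, h (b : Ω) ∈ icl V N := by
    intro h hh b
    refine ⟨?_, hst h hh _ b.2.2⟩
    exact unr_map_int (V := V.toSubring) h (fun a ha => hh a (hF.le a ha)) b.2.1
  have hsymm : ∀ h : Ω ≃ₐ[k] Ω, (∀ a ∈ F, h a = a) → ∀ a ∈ F, h.symm a = a := by
    intro h hh a ha
    rw [AlgEquiv.symm_apply_eq]
    exact (hh a ha).symm
  obtain ⟨P, hP⟩ := Ideal.exists_maximal (icl V N)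
  have hPp := hP.isPrime
  obtain ⟨θ, hθ⟩ := abh_generic P g (fun σ => hstab (g σ) (hgF σ)) (by
    intro σ τ hστ
    by_contra hcon
    push Not at hcon
    apply hστ
    have h1 := hI ((g τ).symm.trans (g σ)) (fun a ha => by
      rw [AlgEquiv.trans_apply, hsymm (g τ) (hgF τ) a ha, hgF σ a ha]) P hP (fun b => by
        obtain ⟨d, hd, hd'⟩ := hcon ⟨_, hstab _ (hsymm (g τ) (hgF τ)) b⟩
        refine ⟨d, hd, ?_⟩
        rw [← hd', AlgEquiv.trans_apply, AlgEquiv.apply_symm_apply])
    apply AlgEquiv.ext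
    intro a
    apply Subtype.ext
    rw [← hgσ σ a, ← hgσ τ a]
    have h2 := h1 (g τ a) (hst _ (hgF τ) _ a.2)
    rwa [AlgEquiv.trans_apply, AlgEquiv.symm_apply_apply] at h2)
  set t : N := ⟨(θ : Ω), θ.2.2⟩ with ht
  have htΩ : algebraMap N Ω t = (θ : Ω) := rfl
  -- the conjugates of `θ`, as elements of the integral closure
  let c : (N ≃ₐ[F] N) → icl V N := fun σ => ⟨g σ (θ : Ω), hstab _ (hgF σ) θ⟩
  have hc : ∀ σ, (c σ : Ω) = ((σ t : N) : Ω) := fun σ => hgσ σ t
  have hcP : ∀ σ τ, σ ≠ τ → c σ - c τ ∉ P := by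
    intro σ τ hστ h
    exact hθ σ τ hστ ⟨_, h, rfl⟩
  have hg1 : ((c 1 : icl V N) : Ω) = θ := hc 1
  -- the differences are units
  have hunit : ∀ σ : N ≃ₐ[F] N, σ ≠ 1 → IsIntegral V.toSubring ((t - σ t : N) : Ω)⁻¹ := by
    intro σ hσ
    set v : icl V N := ∏ τ : N ≃ₐ[F] N, (c τ - c (τ * σ)) with hv
    have hvP : v ∉ P := by
      rw [hv, Ideal.IsPrime.prod_mem_iff]
      rintro ⟨τ, -, hτ⟩
      refine hcP τ (τ * σ) ?_ hτ
      intro h
      exact hσ (mul_eq_left.1 h.symm)
    have hvF : (v : Ω) ∈ F := by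
      have h1 := Algebra.norm_eq_prod_automorphisms F (t - σ t)
      have h2 : (v : Ω) = algebraMap N Ω (algebraMap F N (Algebra.norm F (t - σ t))) := by
        rw [h1, map_prod, hv, SubmonoidClass.coe_finsetProd]
        refine Finset.prod_congr rfl fun τ _ => ?_
        rw [map_sub]
        change (c τ : Ω) - c (τ * σ) = ((τ t - τ (σ t) : N) : Ω)
        rw [hc, hc]
        rfl
      rw [h2, ← IsScalarTower.algebraMap_apply]
      exact (Algebra.norm F (t - σ t)).2
    have hv0 : (v : Ω) ≠ 0 := by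
      intro h0
      apply hvP
      have h1 : v = 0 := Subtype.ext h0
      rw [h1]
      exact P.zero_mem
    have hvV : (v : Ω)⁻¹ ∈ V := by
      by_contra h
      have h1 : (v : Ω) ∈ V := (hV.val hF _ hvF).resolve_right h
      have h2 := hV.dvd _ h1 h
      apply hvP
      have h3 : v = (⟨x, le_icl hF hN hV.mem⟩ : icl V N) *
          ⟨(v : Ω) / x, le_icl hF hN h2⟩ := Subtype.ext (mul_div_cancel₀ _ hV.ne).symm
      rw [h3]
      exact P.mul_mem_right _ (hV.mem_max hF hN P hP _ rfl)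
    have h4 : v = (c 1 - c (1 * σ)) * ∏ τ ∈ Finset.univ.erase (1 : N ≃ₐ[F] N),
        (c τ - c (τ * σ)) :=
      (Finset.mul_prod_erase Finset.univ (fun τ => c τ - c (τ * σ)) (Finset.mem_univ 1)).symm
    set w : icl V N := ∏ τ ∈ Finset.univ.erase (1 : N ≃ₐ[F] N), (c τ - c (τ * σ)) with hw
    have h5 : ((t - σ t : N) : Ω)⁻¹ = (w : Ω) * (v : Ω)⁻¹ := by
      have h6 : (v : Ω) = ((t - σ t : N) : Ω) * w := by
        have h7 := congrArg (fun a : icl V N => (a : Ω)) h4
        rw [one_mul] at h7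
        refine h7.trans ?_
        change ((c 1 : Ω) - c σ) * (w : Ω) = ((t : Ω) - σ t) * w
        rw [hg1, hc]
      have h8 : ((t - σ t : N) : Ω) ≠ 0 := fun h0 => hv0 (by rw [h6, h0, zero_mul])
      have h9 : (w : Ω) ≠ 0 := fun h0 => hv0 (by rw [h6, h0, mul_zero])
      rw [h6]
      field_simp
    rw [h5]
    exact IsIntegral.mul w.2.1 (isIntegral_algebraMap (R := V.toSubring) (x := ⟨_, hvV⟩))
  have hgal : ∀ σ : N ≃ₐ[F] N, σ t = t → σ = 1 := by
    intro σ hσ
    by_contra h
    have h1 : c σ - c 1 = 0 := by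
      apply Subtype.ext
      change (c σ : Ω) - c 1 = 0
      rw [hg1, hc, hσ]
      exact sub_self _
    have h2 := hcP σ 1 h
    rw [h1] at h2
    exact h2 P.zero_mem
  -- `N = F (θ)`
  have htop : IntermediateField.adjoin F {t} = (⊤ : IntermediateField F N) := by
    have h1 : (IntermediateField.adjoin F {t}).fixingSubgroup = ⊥ := by
      rw [eq_bot_iff]
      intro σ hσ
      rw [IntermediateField.mem_fixingSubgroup_iff] at hσ
      exact hgal σ (hσ t (IntermediateField.mem_adjoin_simple_self F t))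
    have h2 := IsGalois.fixedField_fixingSubgroup (IntermediateField.adjoin F {t})
    rw [h1, IntermediateField.fixedField_bot] at h2
    exact h2.symm
  have hadj : IntermediateField.adjoin k ((F : Set Ω) ∪ {(θ : Ω)}) = N := by
    refine le_antisymm ?_ ?_
    · rw [IntermediateField.adjoin_le_iff]
      rintro y (hy | hy)
      · exact hN.le hy
      · rw [Set.mem_singleton_iff.1 hy]
        exact θ.2.2
    · intro a ha
      have h1 : (⟨a, ha⟩ : N) ∈ IntermediateField.adjoin F {t} := by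
        rw [htop]
        exact IntermediateField.mem_top
      have h2 : ∀ b : N, b ∈ IntermediateField.adjoin F {t} →
          (b : Ω) ∈ IntermediateField.adjoin k ((F : Set Ω) ∪ {(θ : Ω)}) := by
        intro b hb
        induction hb using IntermediateField.adjoin_induction with
        | mem y hy =>
          rw [Set.mem_singleton_iff.1 hy]
          exact IntermediateField.subset_adjoin k _ (Or.inr rfl)
        | algebraMap f =>
          refine IntermediateField.subset_adjoin k _ (Or.inl ?_)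
          have h3 : ((algebraMap F N f : N) : Ω) = f := by
            have h4 := (IsScalarTower.algebraMap_apply F N Ω f).symm
            exact h4
          rw [h3]
          exact f.2
        | add y z _ _ hy hz => exact add_mem hy hz
        | inv y _ hy => exact inv_mem hy
        | mul y z _ _ hy hz => exact mul_mem hy hz
      exact h2 _ h1
  -- the derivative
  have hder : IsIntegral V.toSubring
      ((aeval (θ : Ω) (derivative (minpoly F (θ : Ω))))⁻¹) := by
    have h1 : minpoly F (θ : Ω) = minpoly F t := by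
      rw [← htΩ]
      exact minpoly.algebraMap_eq (algebraMap N Ω).injective t
    have h2 : aeval (θ : Ω) (derivative (minpoly F t)) =
        algebraMap N Ω (aeval t (derivative (minpoly F t))) := by
      rw [← htΩ, aeval_algebraMap_apply]
    have hti : IsIntegral F t := Algebra.IsIntegral.isIntegral t
    have hmon : ((minpoly F t).map (algebraMap F N)).Monic := (minpoly.monic hti).map _
    have hspl : ((minpoly F t).map (algebraMap F N)).Splits := IsGalois.splits F t
    have hroot : t ∈ ((minpoly F t).map (algebraMap F N)).roots := by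
      rw [mem_roots hmon.ne_zero, IsRoot.def, eval_map, ← aeval_def]
      exact minpoly.aeval F t
    have h3 := hspl.eval_root_derivative hmon hroot
    rw [derivative_map, eval_map, ← aeval_def] at h3
    have hsep : ((minpoly F t).map (algebraMap F N)).roots.Nodup :=
      nodup_roots (Polynomial.Separable.map (IsGalois.separable F t))
    rw [h1, h2, h3, map_multiset_prod, Multiset.map_map]
    refine abh_prod_inv _ _ fun a ha => ?_
    have ha1 : a ≠ t ∧ a ∈ ((minpoly F t).map (algebraMap F N)).roots :=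
      (Multiset.Nodup.mem_erase_iff hsep).1 ha
    have ha2 : aeval a (minpoly F t) = 0 := by
      have h4 := ha1.2
      rw [mem_roots hmon.ne_zero, IsRoot.def, eval_map, ← aeval_def] at h4
      exact h4
    obtain ⟨σ, hσ⟩ := minpoly.exists_algEquiv_of_root' hti.isAlgebraic ha2
    have h5 := hunit σ (by
      rintro rfl
      exact ha1.1 hσ.symm)
    rw [hσ] at h5
    exact h5
  have h6 := Unr.step (V := V.toSubring) (θ : Ω) (Unr.refl (E := F)) θ.2.1 hder
  rwa [hadj] at h6

end Pool.Agent.KMR
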