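import Pool.Agent.Lib.MP_732f67_ag.R.PrdA

/-!
Prime divisors.
-/

namespace Pool.Agent.KMR

variable {k Ω : Type} [Field k] [Field Ω] [Algebra k Ω]

variable {R : Subalgebra k Ω} {F N : IntermediateField k Ω}

/-- an element which multiplies the prime ideal into the non-units of the localisation is
integral over the localisation (determinant trick) -/
theorem isIntegral_locI {P : Ideal R} (hP : P.IsPrime) (hfg : P.FG) {d : R} (hd : d ∈ P)
    (hd0 : (d : Ω) ≠ 0) (g : Ω) (hg : ∀ a ∈ P, (a : Ω) * g ∈ LocI R P hP)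
    (hu : ∀ a ∈ P, ¬ Un (LocI R P hP) ((a : Ω) * g)) : IsIntegral (LocI R P hP) g := by
  classical
  obtain ⟨s, hs⟩ := hfg
  refine isIntegral_of_smul_mem_submodule (R := LocI R P hP) (M := Ω)
    (Submodule.span (LocI R P hP) ((fun a : R => (a : Ω)) '' P)) ?_ ?_ g ?_
  · intro h
    have h1 : (d : Ω) ∈ Submodule.span (LocI R P hP) ((fun a : R => (a : Ω)) '' P) :=
      Submodule.subset_span ⟨d, hd, rfl⟩
    rw [h, Submodule.mem_bot] at h1
    exact hd0 h1
  · refine ⟨s.image (fun a : R => (a : Ω)), le_antisymm ?_ ?_⟩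
    · refine Submodule.span_mono ?_
      rw [Finset.coe_image]
      refine Set.image_mono ?_
      rw [← hs]
      exact Submodule.subset_span
    · refine Submodule.span_le.2 ?_
      rintro _ ⟨a, ha, rfl⟩
      have ha' : a ∈ Ideal.span (s : Set R) := by
        rw [hs]
        exact ha
      refine Submodule.span_induction (p := fun (a : R) _ => (a : Ω) ∈
        Submodule.span (LocI R P hP) (((s.image (fun a : R => (a : Ω)) : Finset Ω)) : Set Ω))
        ?_ ?_ ?_ ?_ ha'
      · intro x hx
        refine Submodule.subset_span ?_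
        rw [Finset.coe_image]
        exact ⟨x, hx, rfl⟩
      · rw [ZeroMemClass.coe_zero]
        exact Submodule.zero_mem _
      · intro x y _ _ hx hy
        rw [AddMemClass.coe_add]
        exact Submodule.add_mem _ hx hy
      · intro r x _ hx
        rw [smul_eq_mul, MulMemClass.coe_mul]
        exact Submodule.smul_mem _ (⟨(r : Ω), le_locI hP r.2⟩ : LocI R P hP) hx
  · intro n hn
    refine Submodule.span_induction (p := fun (n : Ω) _ => g • n ∈
      Submodule.span (LocI R P hP) ((fun a : R => (a : Ω)) '' P)) ?_ ?_ ?_ ?_ hn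
    · rintro _ ⟨a, ha, rfl⟩
      have h1 := hu a ha
      obtain ⟨b, c, hc, hbc⟩ := hg a ha
      have hb : b ∈ P := by
        by_contra hb
        refine h1 ⟨?_, ?_, ?_⟩
        · rw [hbc]
          exact div_ne_zero (locI_ne hb) (locI_ne hc)
        · rw [hbc]
          exact ⟨b, c, hc, rfl⟩
        · rw [hbc, inv_div]
          exact ⟨c, b, hb, rfl⟩
      have h2 : g • (a : Ω) = (⟨(c : Ω)⁻¹, ((un_locI hP c).2 hc).2.2⟩ : LocI R P hP) • (b : Ω) := by
        change g * (a : Ω) = (c : Ω)⁻¹ * b
        rw [mul_comm g, hbc, div_eq_mul_inv, mul_comm]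
      change g • (a : Ω) ∈ _
      rw [h2]
      exact Submodule.smul_mem _ _ (Submodule.subset_span ⟨b, hb, rfl⟩)
    · rw [smul_zero]
      exact Submodule.zero_mem _
    · intro x y _ _ hx hy
      rw [smul_add]
      exact Submodule.add_mem _ hx hy
    · intro r x _ hx
      rw [smul_comm]
      exact Submodule.smul_mem _ r hx

theorem Nrm.mem {A : Subalgebra k Ω} (hn : Nrm A) (hF : Frc A F) (g : Ω) (hg : g ∈ F)
    (hi : IsIntegral A g) : g ∈ A := by
  obtain ⟨b, hb, d, hd, hd0, rfl⟩ := hF.frac g hg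
  exact hn b hb d hd hd0 hi

/-- A local ring of a noetherian integrally closed ring is the intersection of the discrete
valuation rings containing it.
PROOF. Let `O = Loc R φ`, `f ∉ O`. Among the ideals `{c ∈ R | c g ∈ O}` of `R`, for `g = c' f`,
`c' ∈ R`, `g ∉ O`, let `P` be a maximal one (noetherian), for `g`; `P` is prime (standard).
Let `O'` be the localisation of `R` at `P` and `P'` its maximal ideal.
If `P' g ⊆ P'` then `g` is integral over `O'` (`P'` is a finitely generated faithful module,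
determinant trick), so `g ∈ O'` and `c g ∈ R` for some `c ∉ P`, a contradiction. So there is
`q ∈ P` with `q g` a unit of `O'`, and `a / q = (a g) / (q g) ∈ O'` for `a ∈ P`.
`f ∉ O'`, because `g ∉ O'`. -/
theorem mem_loc_of_prd (hR : IsNoetherianRing R) (hn : Nrm R) (hF : Frc R F) (φ : R →ₐ[k] k)
    (f : Ω) (hf : f ∈ F) (h : ∀ P (hP : PrD R P), (∀ a ∈ P, φ a = 0) → f ∈ LocI R P hP.prime) :
    f ∈ Loc R φ := by
  by_contra hfO
  let I : Ω → Ideal R := fun g =>
    { carrier := {c | (c : Ω) * g ∈ Loc R φ}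
      add_mem' := fun {a b} ha hb => by
        change ((a + b : R) : Ω) * g ∈ Loc R φ
        rw [AddMemClass.coe_add, add_mul]
        exact (Loc R φ).add_mem ha hb
      zero_mem' := by
        change ((0 : R) : Ω) * g ∈ Loc R φ
        rw [ZeroMemClass.coe_zero, zero_mul]
        exact (Loc R φ).zero_mem
      smul_mem' := fun c a ha => by
        change ((c • a : R) : Ω) * g ∈ Loc R φ
        rw [smul_eq_mul, MulMemClass.coe_mul, mul_assoc]
        exact (Loc R φ).mul_mem (le_loc φ c.2) ha }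
  have hI : ∀ g c, c ∈ I g ↔ (c : Ω) * g ∈ Loc R φ := fun g c => Iff.rfl
  have hne : ({J | ∃ c : R, (c : Ω) * f ∉ Loc R φ ∧ J = I ((c : Ω) * f)} : Set (Ideal R)).Nonempty :=
    ⟨_, 1, by rw [OneMemClass.coe_one, one_mul]; exact hfO, rfl⟩
  obtain ⟨P, ⟨c₀, hc₀, rfl⟩, hmax⟩ := set_has_maximal_iff_noetherian.mpr hR _ hne
  set g : Ω := (c₀ : Ω) * f with hg
  have hgF : g ∈ F := F.mul_mem (hF.le _ c₀.2) hf
  have hprime : (I g).IsPrime := by
    constructor
    · intro h1
      have h2 : (1 : R) ∈ I g := by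
        rw [h1]
        trivial
      rw [hI, OneMemClass.coe_one, one_mul] at h2
      exact hc₀ h2
    · intro a b hab
      by_cases hb : b ∈ I g
      · exact Or.inr hb
      · left
        have h1 : (b : Ω) * g ∉ Loc R φ := hb
        have h2 : I g ≤ I ((b : Ω) * g) := by
          intro c hc
          rw [hI] at hc ⊢
          rw [mul_left_comm]
          exact (Loc R φ).mul_mem (le_loc φ b.2) hc
        have h3 : ¬ I g < I ((b : Ω) * g) := by
          refine hmax _ ⟨b * c₀, ?_, ?_⟩
          · rw [MulMemClass.coe_mul, mul_assoc]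
            exact h1
          · rw [MulMemClass.coe_mul, mul_assoc]
        have h4 : a ∈ I ((b : Ω) * g) := by
          rw [hI, ← mul_assoc, ← MulMemClass.coe_mul, ← hI]
          exact hab
        by_contra ha
        exact h3 (lt_of_le_of_ne h2 (fun he => ha (he ▸ h4)))
  have hker : ∀ a ∈ I g, φ a = 0 := by
    intro a ha
    by_contra h0
    have hu := (un_loc φ a).2 h0
    refine hc₀ ?_
    have h1 : g = (a : Ω)⁻¹ * ((a : Ω) * g) := by
      rw [← mul_assoc, inv_mul_cancel₀ hu.1, one_mul]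
    rw [h1]
    exact (Loc R φ).mul_mem hu.2.2 ha
  have hle : Loc R φ ≤ LocI R (I g) hprime := loc_le_locI hprime φ hker
  -- `g` is not in the localisation
  have hgn : g ∉ LocI R (I g) hprime := by
    rintro ⟨a, c, hc, hac⟩
    refine hc ((hI g c).2 ?_)
    rw [hac, mul_div_cancel₀ _ (locI_ne hc)]
    exact le_loc φ a.2
  obtain ⟨b, hb, d, hd, hd0, hbd⟩ := hF.frac g hgF
  have hdP : (⟨d, hd⟩ : R) ∈ I g := by
    rw [hI, hbd]
    change d * (b / d) ∈ _
    rw [mul_div_cancel₀ _ hd0]
    exact le_loc φ hb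
  have hex : ∃ q ∈ I g, Un (LocI R (I g) hprime) ((q : Ω) * g) := by
    by_contra hcon
    have hcon' : ∀ a ∈ I g, ¬ Un (LocI R (I g) hprime) ((a : Ω) * g) :=
      fun a ha hu => hcon ⟨a, ha, hu⟩
    have h1 := isIntegral_locI hprime ((isNoetherianRing_iff_ideal_fg R).mp hR _)
      (d := ⟨d, hd⟩) hdP hd0 g (fun a ha => hle ha) hcon'
    exact hgn ((nrm_locI hprime hn).mem (frc_locI hprime hF) g hgF h1)
  obtain ⟨q, hq, hqu⟩ := hex
  have hq0 : (q : Ω) ≠ 0 := fun h0 => hqu.1 (by rw [h0, zero_mul])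
  have hg0 : g ≠ 0 := fun h0 => hqu.1 (by rw [h0, mul_zero])
  have hprd : PrD R (I g) := by
    refine ⟨hprime, q, hq, hq0, fun a ha => ?_⟩
    have h1 : (a / q : Ω) = ((a : Ω) * g) * ((q : Ω) * g)⁻¹ := by
      field_simp
    rw [h1]
    exact mul_mem (hle ha) hqu.2.2
  exact hgn (mul_mem (le_locI hprime c₀.2) (h _ hprd hker))

/-- the minimal polynomial over the field of fractions of an element which is integral over an
integrally closed domain has coefficients in the domain -/
theorem coeff_minpoly_mem {A : Subalgebra k Ω} (hF : Frc A F) (hn : Nrm A) (b : Ω)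
    (hb : IsIntegral A b) (i : ℕ) : (((minpoly F b).coeff i : F) : Ω) ∈ A := by
  let _ : Algebra A F :=
    RingHom.toAlgebra
      { toFun := fun a => ⟨(a : Ω), hF.le a a.2⟩
        map_one' := rfl
        map_mul' := fun _ _ => rfl
        map_zero' := rfl
        map_add' := fun _ _ => rfl }
  have hmap : ∀ a : A, ((algebraMap A F a : F) : Ω) = a := fun a => rfl
  have _ : IsScalarTower A F Ω := IsScalarTower.of_algebraMap_eq fun a => rfl
  have _ : IsFractionRing A F := by
    refine ⟨⟨fun y => ?_, fun z => ?_, fun {x y} hxy => ?_⟩⟩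
    · have hy : ((y : A) : Ω) ≠ 0 := fun h0 => nonZeroDivisors.ne_zero y.2 (Subtype.ext h0)
      exact isUnit_iff_ne_zero.2 fun h0 => hy (by rw [← hmap, h0, ZeroMemClass.coe_zero])
    · obtain ⟨b, hb, d, hd, h0, hz⟩ := hF.frac z z.2
      refine ⟨(⟨b, hb⟩, ⟨⟨d, hd⟩, mem_nonZeroDivisors_of_ne_zero fun h1 =>
        h0 (congrArg Subtype.val h1)⟩), Subtype.ext ?_⟩
      change (z : Ω) * d = b
      rw [hz, div_mul_cancel₀ _ h0]
    · have hxy' : x = y := Subtype.ext (by rw [← hmap x, ← hmap y, hxy])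
      exact ⟨1, by rw [hxy']⟩
  have _ : IsIntegrallyClosed A := by
    refine (isIntegrallyClosed_iff F).2 fun {x} hx => ?_
    obtain ⟨b, hb, d, hd, h0, hz⟩ := hF.frac x x.2
    have h1 : IsIntegral A (x : Ω) := hx.map (IsScalarTower.toAlgHom A F Ω)
    rw [hz] at h1
    exact ⟨⟨b / d, hn b hb d hd h0 h1⟩, Subtype.ext hz.symm⟩
  rw [minpoly.isIntegrallyClosed_eq_field_fractions' F hb, Polynomial.coeff_map, hmap]
  exact Subtype.property _

/-- an element of a finite extension which is integral over all these valuation rings is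
integral over the local ring: look at the minimal polynomial over `F` -/
theorem isIntegral_of_prd (hR : IsNoetherianRing R) (hn : Nrm R) (hF : Frc R F)
    (hN : Fext F N) (φ : R →ₐ[k] k) (b : Ω) (hb : b ∈ N)
    (h : ∀ P (hP : PrD R P), (∀ a ∈ P, φ a = 0) → IsIntegral (LocI R P hP.prime) b) :
    IsIntegral (Loc R φ) b := by
  have hbi : IsIntegral F b := (hN.alg b hb).isIntegral
  have hco : ∀ i, (((minpoly F b).coeff i : F) : Ω) ∈ Loc R φ := fun i =>
    mem_loc_of_prd hR hn hF φ _ (Subtype.property _) fun P hP hPφ =>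
      coeff_minpoly_mem (frc_locI hP.prime hF) (nrm_locI hP.prime hn) b (h P hP hPφ) i
  let p : Polynomial Ω := (minpoly F b).map (algebraMap F Ω)
  have hp : (p.coeffs : Set Ω) ⊆ (Loc R φ).toSubring := by
    intro x hx
    obtain ⟨i, -, rfl⟩ := Polynomial.mem_coeffs_iff.1 (Finset.mem_coe.1 hx)
    change p.coeff i ∈ Loc R φ
    rw [Polynomial.coeff_map]
    exact hco i
  have hpm : p.Monic := (minpoly.monic hbi).map _
  refine ⟨p.toSubring (Loc R φ).toSubring hp, (Polynomial.monic_toSubring _ _ _).2 hpm, ?_⟩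
  have h1 : Polynomial.eval₂ (Subring.subtype (Loc R φ).toSubring) b
      (p.toSubring (Loc R φ).toSubring hp) = 0 := by
    rw [← Polynomial.eval_map, Polynomial.map_toSubring, Polynomial.eval_map_algebraMap]
    exact minpoly.aeval F b
  exact h1

end Pool.Agent.KMR
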