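import Pool.Agent.Lib.MP_732f67_ag.R.AbhB
import Pool.Agent.Lib.MP_732f67_ag.R.Prd
import Pool.Agent.Lib.MP_732f67_ag.R.Unr

/-!
Abhyankar's lemma and inertia groups, inside `Ω`.
-/

namespace Pool.Agent.KMR

variable {k Ω : Type} [Field k] [Field Ω] [Algebra k Ω]

/-- `V` is a discrete valuation ring with uniformiser `x` -/
structure Dv (V : Subalgebra k Ω) (x : Ω) : Prop where
  mem : x ∈ V
  ne : x ≠ 0
  nu : x⁻¹ ∉ V
  dvd : ∀ a ∈ V, a⁻¹ ∉ V → a / x ∈ V
  fin : ∀ a ∈ V, a ≠ 0 → ∃ N : ℕ, a / x ^ N ∉ V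

/-- `N` is stable under all automorphisms of `Ω` which fix `F` -/
def Stb (F N : IntermediateField k Ω) : Prop :=
  ∀ g : Ω ≃ₐ[k] Ω, (∀ a ∈ F, g a = a) → ∀ a ∈ N, g a ∈ N

theorem abho_noeth {R : Subalgebra k Ω} (hR : IsNoetherianRing R) {P : Ideal R} (hP : P.IsPrime) :
    IsNoetherianRing (LocI R P hP) := by
  let _ : Algebra R (LocI R P hP) := (Subalgebra.inclusion (le_locI hP)).toRingHom.toAlgebra
  have _ : IsLocalization P.primeCompl (LocI R P hP) := by
    refine ⟨⟨fun y => ?_, fun z => ?_, fun {x y} hxy => ?_⟩⟩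
    · have hy : (y : R) ∉ P := y.2
      refine isUnit_iff_exists_inv.2 ⟨⟨(y : R)⁻¹, 1, y, hy, ?_⟩, Subtype.ext ?_⟩
      · rw [OneMemClass.coe_one, inv_eq_one_div]
      · have hy0 : ((y : R) : Ω) ≠ 0 := locI_ne hy
        exact mul_inv_cancel₀ hy0
    · obtain ⟨z, u, v, hv, rfl⟩ := z
      refine ⟨(u, ⟨v, hv⟩), Subtype.ext ?_⟩
      exact div_mul_cancel₀ _ (locI_ne hv)
    · have hxy' : x = y := Subtype.ext (congrArg (fun t : LocI R P hP => (t : Ω)) hxy)
      exact ⟨1, by rw [hxy']⟩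
  exact IsLocalization.isNoetherianRing P.primeCompl _ hR

/-- the localisation at a prime divisor is a discrete valuation ring (`fin`: Krull's intersection
theorem in a noetherian domain) -/
theorem PrD.dv {R : Subalgebra k Ω} (hR : IsNoetherianRing R) {P : Ideal R} (hP : PrD R P)
    (x : R) (hx : x ∈ P) (hx0 : (x : Ω) ≠ 0) (h : ∀ a ∈ P, (a / x : Ω) ∈ LocI R P hP.prime) :
    Dv (LocI R P hP.prime) (x : Ω) := by
  have hnu : (x : Ω)⁻¹ ∉ LocI R P hP.prime := fun hi =>
    (un_locI hP.prime x).1 ⟨hx0, le_locI hP.prime x.2, hi⟩ hx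
  refine ⟨le_locI hP.prime x.2, hx0, hnu, ?_, ?_⟩
  · rintro _ ⟨b, c, hc, rfl⟩ hn
    by_cases hb : b ∈ P
    · have h1 := h b hb
      have h2 : ((c : Ω))⁻¹ ∈ LocI R P hP.prime := ((un_locI hP.prime c).2 hc).2.2
      have h3 : (b : Ω) / c / x = (b / x) * (c : Ω)⁻¹ := by
        rw [div_right_comm, div_eq_mul_inv ((b : Ω) / x)]
      rw [h3]
      exact mul_mem h1 h2
    · refine absurd ?_ hn
      rw [inv_div]
      exact ⟨c, b, hb, rfl⟩
  · intro a ha ha0
    by_contra hcon
    have hcon' : ∀ n : ℕ, a / (x : Ω) ^ n ∈ LocI R P hP.prime := fun n => by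
      by_contra hn
      exact hcon ⟨n, hn⟩
    have _ := abho_noeth hR hP.prime
    let X : LocI R P hP.prime := ⟨x, le_locI hP.prime x.2⟩
    have hX : Ideal.span {X} ≠ ⊤ := by
      intro h1
      rw [Ideal.span_singleton_eq_top] at h1
      obtain ⟨u, hu⟩ := isUnit_iff_exists_inv.1 h1
      have h2 : (x : Ω) * u = 1 := congrArg (fun t : LocI R P hP.prime => (t : Ω)) hu
      have h3 : (x : Ω)⁻¹ = u := inv_eq_of_mul_eq_one_right h2
      exact hnu (h3 ▸ u.2)
    have h2 := Ideal.iInf_pow_eq_bot_of_isDomain _ hX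
    have h3 : (⟨a, ha⟩ : LocI R P hP.prime) ∈ (⨅ i : ℕ, Ideal.span {X} ^ i) := by
      rw [Ideal.mem_iInf]
      intro i
      rw [Ideal.span_singleton_pow, Ideal.mem_span_singleton]
      refine ⟨⟨_, hcon' i⟩, Subtype.ext ?_⟩
      show a = (x : Ω) ^ i * (a / (x : Ω) ^ i)
      rw [mul_div_cancel₀ _ (pow_ne_zero _ hx0)]
    rw [h2, Ideal.mem_bot] at h3
    exact ha0 (congrArg (fun t : LocI R P hP.prime => (t : Ω)) h3)

variable {V : Subalgebra k Ω} {F N : IntermediateField k Ω}

/-- an automorphism of a subfield extends to an automorphism of `Ω` -/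
theorem abho_ext [IsAlgClosed Ω] {E : Type} [Field E] [Algebra E Ω] (e : E ≃+* E) :
    ∃ σ : Ω ≃+* Ω, ∀ x : E, σ (algebraMap E Ω x) = algebraMap E Ω (e x) := by
  obtain ⟨s, hs⟩ := exists_isTranscendenceBasis E Ω
  have hvb : IsTranscendenceBasis E (fun x : s => (x : Ω)) := hs
  generalize (fun x : s => (x : Ω)) = v at hvb
  have := IsAlgClosed.isAlgClosure_of_transcendence_basis v hvb
  let i : Algebra.adjoin E (Set.range v) ≃+* Algebra.adjoin E (Set.range v) :=
    hvb.1.aevalEquiv.symm.toRingEquiv.trans ((MvPolynomial.mapEquiv s e).trans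
      hvb.1.aevalEquiv.toRingEquiv)
  refine ⟨IsAlgClosure.equivOfEquiv Ω Ω i, fun x => ?_⟩
  rw [IsScalarTower.algebraMap_apply E (Algebra.adjoin E (Set.range v)) Ω,
    IsAlgClosure.equivOfEquiv_algebraMap]
  have h1 : i (algebraMap E (Algebra.adjoin E (Set.range v)) x) =
      algebraMap E (Algebra.adjoin E (Set.range v)) (e x) := by
    change hvb.1.aevalEquiv (MvPolynomial.mapEquiv s e
      (hvb.1.aevalEquiv.symm (algebraMap E _ x))) = _
    rw [AlgEquiv.commutes, MvPolynomial.algebraMap_eq, MvPolynomial.mapEquiv_apply,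
      MvPolynomial.map_C, ← MvPolynomial.algebraMap_eq, AlgEquiv.commutes]
    rfl
  rw [h1]
  rfl

/-- an automorphism over `F` of an intermediate field extends to `Ω` -/
theorem abho_ext' [IsAlgClosed Ω] {F : IntermediateField k Ω} {E : Type} [Field E] [Algebra E Ω]
    [Algebra F E] [IsScalarTower F E Ω] (e : E ≃ₐ[F] E) :
    ∃ g : Ω ≃ₐ[k] Ω, (∀ a ∈ F, g a = a) ∧ ∀ x : E, g (algebraMap E Ω x) = algebraMap E Ω (e x) := by
  obtain ⟨σ, hσ⟩ := abho_ext (Ω := Ω) e.toRingEquiv
  have hF : ∀ a ∈ F, σ a = a := by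
    intro a ha
    have h1 := hσ (algebraMap F E ⟨a, ha⟩)
    have h2 : algebraMap E Ω (algebraMap F E ⟨a, ha⟩) = a :=
      (IsScalarTower.algebraMap_apply F E Ω ⟨a, ha⟩).symm
    have h3 : e.toRingEquiv (algebraMap F E ⟨a, ha⟩) = algebraMap F E ⟨a, ha⟩ := e.commutes _
    rwa [h3, h2] at h1
  exact ⟨AlgEquiv.ofRingEquiv (f := σ) fun c => hF _ (F.algebraMap_mem c), hF, hσ⟩

/-- conjugate elements are conjugate under an automorphism of `Ω` -/
theorem abho_conj [IsAlgClosed Ω] {F : IntermediateField k Ω} {a b : Ω} (ha : IsAlgebraic F a)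
    (hb : Polynomial.aeval b (minpoly F a) = 0) :
    ∃ g : Ω ≃ₐ[k] Ω, (∀ c ∈ F, g c = c) ∧ g a = b := by
  have hb' : IsAlgebraic F b := ⟨minpoly F a, minpoly.ne_zero ha.isIntegral, hb⟩
  let a' : algebraicClosure F Ω := ⟨a, mem_algebraicClosure_iff.2 ha⟩
  let b' : algebraicClosure F Ω := ⟨b, mem_algebraicClosure_iff.2 hb'⟩
  have hn : Normal F (algebraicClosure F Ω) := IsAlgClosure.normal F _
  have hab : IsConjRoot F b' a' := by
    have h1 : IsConjRoot F a b := by
      rw [isConjRoot_iff_aeval_eq_zero ha.isIntegral]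
      exact hb
    have h2 : minpoly F a' = minpoly F a := (minpoly.algebraMap_eq
      (algebraMap (algebraicClosure F Ω) Ω).injective a').symm
    have h3 : minpoly F b' = minpoly F b := (minpoly.algebraMap_eq
      (algebraMap (algebraicClosure F Ω) Ω).injective b').symm
    show minpoly F b' = minpoly F a'
    rw [h2, h3]
    exact h1.symm
  obtain ⟨τ, hτ⟩ := isConjRoot_iff_exists_algEquiv.1 hab
  obtain ⟨g, hg1, hg2⟩ := abho_ext' (k := k) (F := F) τ
  refine ⟨g, hg1, ?_⟩
  have h1 := hg2 a'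
  rw [hτ] at h1
  exact h1

theorem abho_fd (hN : Fext F N) :
    letI : Algebra F N := (iclMap F N fun _ hx => hN.le hx).toAlgebra
    FiniteDimensional F N := by
  letI : Algebra F N := (iclMap F N fun _ hx => hN.le hx).toAlgebra
  have h1 := icl_fd hN
  let f : (IntermediateField.extendScalars hN.le : IntermediateField F Ω) →ₗ[F] N :=
    { toFun := fun x => ⟨x, x.2⟩
      map_add' := fun _ _ => rfl
      map_smul' := fun _ _ => rfl }
  exact Module.Finite.of_surjective f fun x => ⟨⟨x, x.2⟩, rfl⟩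

/-- `N / F` is a Galois extension, for the inclusion -/
theorem abho_gal [IsAlgClosed Ω] [CharZero k] (hN : Fext F N) (hst : Stb F N) :
    letI : Algebra F N := (iclMap F N fun _ hx => hN.le hx).toAlgebra
    IsGalois F N := by
  letI : Algebra F N := (iclMap F N fun _ hx => hN.le hx).toAlgebra
  haveI : FiniteDimensional F N := abho_fd hN
  haveI : IsScalarTower F N Ω := IsScalarTower.of_algebraMap_eq fun _ => rfl
  haveI : CharZero F := charZero_of_injective_algebraMap (algebraMap k F).injective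
  haveI : Normal F N := by
    rw [normal_iff]
    intro x
    have hx : IsIntegral F x := Algebra.IsIntegral.isIntegral x
    refine ⟨hx, ?_⟩
    have hx' : IsAlgebraic F (x : Ω) := hN.alg x x.2
    have e : minpoly F x = minpoly F (x : Ω) :=
      (minpoly.algebraMap_eq (algebraMap N Ω).injective x).symm
    rw [e]
    have h1 : ((minpoly F (x : Ω)).map (algebraMap F Ω)).Splits := IsAlgClosed.splits _
    refine Polynomial.Splits.of_splits_map (f := (minpoly F (x : Ω)).map (algebraMap F N))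
      (algebraMap N Ω) ?_ ?_
    · rw [Polynomial.map_map, ← IsScalarTower.algebraMap_eq]
      exact h1
    · intro y hy
      rw [Polynomial.map_map, ← IsScalarTower.algebraMap_eq] at hy
      have hy2 : Polynomial.aeval y (minpoly F (x : Ω)) = 0 := by
        have h2 := (Polynomial.mem_roots'.1 hy).2
        rwa [Polynomial.IsRoot.def, Polynomial.eval_map_algebraMap] at h2
      obtain ⟨g, hg1, hg2⟩ := abho_conj hx' hy2
      have h3 := hst g hg1 _ x.2
      rw [hg2] at h3
      exact ⟨⟨y, h3⟩, rfl⟩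
  exact {}

/-- `N / F` is a Galois extension; every automorphism of `N / F` comes from an automorphism of `Ω`.
Since the algebraically closed field `Ω` need not be algebraic over `N`: extend to the algebraic
closure of `N` in `Ω`, then by a transcendence basis -/
theorem Stb.galois [IsAlgClosed Ω] [CharZero k] (hN : Fext F N) (hst : Stb F N) :
    ∃ _ : Algebra F N, (∀ (a : F) (b : N), ((a • b : N) : Ω) = a * b) ∧ IsGalois F N ∧
      FiniteDimensional F N ∧ ∀ σ : N ≃ₐ[F] N, ∃ g : Ω ≃ₐ[k] Ω, (∀ a ∈ F, g a = a) ∧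
        ∀ a : N, g (a : Ω) = (σ a : Ω) := by
  letI : Algebra F N := (iclMap F N fun _ hx => hN.le hx).toAlgebra
  haveI : IsScalarTower F N Ω := IsScalarTower.of_algebraMap_eq fun _ => rfl
  refine ⟨inferInstance, fun a b => rfl, abho_gal hN hst, abho_fd hN, fun σ => ?_⟩
  exact abho_ext' (k := k) (F := F) σ

theorem abho_irr {x : Ω} (hV : Dv V x) : Irreducible (⟨x, hV.mem⟩ : V) := by
  have hnu : ∀ a : V, (a : Ω)⁻¹ ∈ V → a ≠ 0 → IsUnit a := by
    intro a ha h0
    refine isUnit_iff_exists_inv.2 ⟨⟨_, ha⟩, Subtype.ext ?_⟩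
    exact mul_inv_cancel₀ fun h => h0 (Subtype.ext h)
  constructor
  · intro h1
    obtain ⟨u, hu⟩ := isUnit_iff_exists_inv.1 h1
    have h2 : (x : Ω) * u = 1 := congrArg (fun t : V => (t : Ω)) hu
    have h3 : (x : Ω)⁻¹ = u := inv_eq_of_mul_eq_one_right h2
    exact hV.nu (h3 ▸ u.2)
  · intro a b hab
    have hab' : x = a * b := congrArg (fun t : V => (t : Ω)) hab
    have ha0 : (a : Ω) ≠ 0 := fun h0 => hV.ne (by rw [hab', h0, zero_mul])
    have hb0 : (b : Ω) ≠ 0 := fun h0 => hV.ne (by rw [hab', h0, mul_zero])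
    by_cases ha : (a : Ω)⁻¹ ∈ V
    · exact Or.inl (hnu a ha fun h0 => ha0 (by rw [h0]; rfl))
    · refine Or.inr (hnu b ?_ fun h0 => hb0 (by rw [h0]; rfl))
      have h1 := hV.dvd a a.2 ha
      have h2 : (a : Ω) / x = (b : Ω)⁻¹ := by
        rw [hab']
        field_simp
      rw [← h2]
      exact h1

/-- `V` is a discrete valuation ring -/
theorem abho_dvr {x : Ω} (hV : Dv V x) : IsDiscreteValuationRing V := by
  refine IsDiscreteValuationRing.ofHasUnitMulPowIrreducibleFactorization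
    ⟨⟨x, hV.mem⟩, abho_irr hV, fun {a} ha => ?_⟩
  classical
  have ha0 : (a : Ω) ≠ 0 := fun h => ha (Subtype.ext h)
  have hex := hV.fin a a.2 ha0
  obtain ⟨n, hn1, hn2⟩ : ∃ n : ℕ, (a : Ω) / x ^ n ∈ V ∧ (a : Ω) / x ^ (n + 1) ∉ V := by
    by_contra hcon
    have hall : ∀ n : ℕ, (a : Ω) / x ^ n ∈ V := by
      intro n
      induction n with
      | zero =>
        rw [pow_zero, div_one]
        exact a.2
      | succ n ih =>
        by_contra h1
        exact hcon ⟨n, ih, h1⟩
    obtain ⟨N, hN⟩ := hex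
    exact hN (hall N)
  have hx0 := pow_ne_zero n hV.ne
  have hu : ((a : Ω) / x ^ n)⁻¹ ∈ V := by
    by_contra h1
    have h2 := hV.dvd _ hn1 h1
    rw [div_div, ← pow_succ] at h2
    exact hn2 h2
  refine ⟨n, ?_⟩
  let u : Vˣ := ⟨⟨_, hn1⟩, ⟨_, hu⟩, Subtype.ext (mul_inv_cancel₀ (div_ne_zero ha0 hx0)),
    Subtype.ext (inv_mul_cancel₀ (div_ne_zero ha0 hx0))⟩
  refine ⟨u, Subtype.ext ?_⟩
  show x ^ n * ((a : Ω) / x ^ n) = a
  rw [mul_div_cancel₀ _ hx0]

/-- the restriction of an automorphism to a stable subfield -/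
def abhoRes (hle : F ≤ N) (hst : Stb F N) (g : Ω ≃ₐ[k] Ω) (hg : ∀ a ∈ F, g a = a) :
    letI : Algebra F N := (iclMap F N fun _ hx => hle hx).toAlgebra
    N ≃ₐ[F] N :=
  letI : Algebra F N := (iclMap F N fun _ hx => hle hx).toAlgebra
  { toFun := fun a => ⟨g a, hst g hg a a.2⟩
    invFun := fun a => ⟨g.symm a, hst g.symm (fun c hc => by
      rw [AlgEquiv.symm_apply_eq, hg c hc]) a a.2⟩
    left_inv := fun a => Subtype.ext (g.symm_apply_apply _)
    right_inv := fun a => Subtype.ext (g.apply_symm_apply _)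
    map_mul' := fun a b => Subtype.ext (map_mul g _ _)
    map_add' := fun a b => Subtype.ext (map_add g _ _)
    commutes' := fun a => Subtype.ext (hg a a.2) }

/-- PROOF. `abh` for `A = V`, `K = F`, `L = N`. -/
theorem abh_Ω [IsAlgClosed Ω] [CharZero k] {x : Ω} (hV : Dv V x) (hF : Frc V F)
    (hN : Fext F N) (hst : Stb F N) {m : ℕ} (hm : 0 < m)
    (hexp : ∀ g : Ω ≃ₐ[k] Ω, (∀ a ∈ F, g a = a) → ∀ a ∈ N, (g ^ m) a = a) (y : Ω) (hy : y ∈ N)
    (hyx : y ^ m = x) (P : Ideal (icl V N)) (hP : P.IsMaximal) (g : Ω ≃ₐ[k] Ω)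
    (hg : ∀ a ∈ F, g a = a) (hgP : ∀ b : icl V N, ∃ d ∈ P, g (b : Ω) - b = (d : Ω))
    (hgy : g y = y) : ∀ a ∈ N, g a = a := by
  have i1 : IsDiscreteValuationRing V := abho_dvr hV
  let i2 : Algebra ℚ V := ((algebraMap k V).comp (algebraMap ℚ k)).toAlgebra
  let a1 : Algebra V F := (iclMap V F hF.le).toAlgebra
  have i3 : IsFractionRing V F := icl_frac_inst hF
  let a2 : Algebra F N := (iclMap F N fun _ hx => hN.le hx).toAlgebra
  let a3 : Algebra V N := (iclMap V N fun _ hx => hN.le (hF.le _ hx)).toAlgebra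
  have i4 : IsScalarTower V F N := IsScalarTower.of_algebraMap_eq fun _ => rfl
  have i5 : FiniteDimensional F N := abho_fd hN
  have i6 : IsGalois F N := abho_gal hN hst
  have i7 : IsScalarTower F N Ω := IsScalarTower.of_algebraMap_eq fun _ => rfl
  have i8 : IsScalarTower V N Ω := IsScalarTower.of_algebraMap_eq fun _ => rfl
  let e : integralClosure V N ≃+* icl V N :=
    { toFun := fun b => ⟨(b : N), b.2.algebraMap (B := Ω), (b : N).2⟩
      invFun := fun b => ⟨⟨b, b.2.2⟩,
        (isIntegral_algebraMap_iff (A := N) (B := Ω) Subtype.val_injective).1 b.2.1⟩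
      left_inv := fun b => rfl
      right_inv := fun b => rfl
      map_mul' := fun a b => rfl
      map_add' := fun a b => rfl }
  have h1 := abh (A := V) (K := F) (L := N) hm ?_ ⟨x, hV.mem⟩ (abho_irr hV) ⟨y, hy⟩
    (Subtype.ext hyx) (P.comap (e : integralClosure V N →+* icl V N)) ?_
    (abhoRes hN.le hst g hg) ?_ (Subtype.ext hgy)
  · intro a ha
    have h2 := congrArg (fun s : N ≃ₐ[F] N => ((s ⟨a, ha⟩ : N) : Ω)) h1
    exact h2
  · intro σ
    obtain ⟨s, hs1, hs2⟩ := abho_ext' (k := k) (F := F) σ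
    have h2 : ∀ (n : ℕ) (a : N), (s ^ n) (a : Ω) = ((σ ^ n) a : N) := by
      intro n
      induction n with
      | zero => exact fun a => rfl
      | succ n ih =>
        intro a
        rw [pow_succ, pow_succ]
        show (s ^ n) (s (a : Ω)) = _
        rw [show s (a : Ω) = (σ a : N) from hs2 a]
        exact ih (σ a)
    refine AlgEquiv.ext fun a => Subtype.ext ?_
    rw [← h2 m a]
    exact hexp s hs1 a a.2
  · exact Ideal.comap_isMaximal_of_equiv e
  · intro b
    obtain ⟨d, hd, hd'⟩ := hgP (e b)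
    refine ⟨e.symm d, ?_, ?_⟩
    · rw [Ideal.mem_comap]
      have h3 : (e : integralClosure V N →+* icl V N) (e.symm d) = d := e.apply_symm_apply d
      rw [h3]
      exact hd
    · exact Subtype.ext hd'

/-- the elements fixed by an automorphism -/
def abhoFix (g : Ω ≃ₐ[k] Ω) : IntermediateField k Ω where
  carrier := {x | g x = x}
  mul_mem' := by
    intro a b ha hb
    show g (a * b) = a * b
    rw [map_mul, ha, hb]
  add_mem' := by
    intro a b ha hb
    show g (a + b) = a + b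
    rw [map_add, ha, hb]
  algebraMap_mem' := g.commutes
  inv_mem' := by
    intro a ha
    show g a⁻¹ = a⁻¹
    rw [map_inv₀, ha]

theorem abho_pow (g : Ω ≃ₐ[k] Ω) {a : Ω} (h : g a = a) (m : ℕ) : (g ^ m) a = a := by
  induction m with
  | zero => rfl
  | succ m ih =>
    rw [pow_succ]
    show (g ^ m) (g a) = a
    rw [h, ih]

/-- the exponent of the Galois group: `g` permutes the finite set of the conjugates of generators
of `N`; take the factorial of its cardinality -/
theorem exists_exp [CharZero k] (hN : Fext F N) (hst : Stb F N) : ∃ m : ℕ, 0 < m ∧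
    ∀ g : Ω ≃ₐ[k] Ω, (∀ a ∈ F, g a = a) → ∀ a ∈ N, (g ^ m) a = a := by
  classical
  have _ := hst
  obtain ⟨s, hs, hN'⟩ := hN.fin
  -- the conjugates of the generators
  obtain ⟨T, hT⟩ : ∃ T : Finset Ω,
      T = s.biUnion fun a => ((minpoly F a).map (algebraMap F Ω)).roots.toFinset := ⟨_, rfl⟩
  have hmem : ∀ b, b ∈ T ↔ ∃ a ∈ s, Polynomial.aeval b (minpoly F a) = 0 := by
    intro b
    rw [hT, Finset.mem_biUnion]
    constructor
    · rintro ⟨a, ha, hb⟩
      rw [Multiset.mem_toFinset, Polynomial.mem_roots', Polynomial.IsRoot.def,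
        Polynomial.eval_map_algebraMap] at hb
      exact ⟨a, ha, hb.2⟩
    · rintro ⟨a, ha, hb⟩
      refine ⟨a, ha, ?_⟩
      rw [Multiset.mem_toFinset, Polynomial.mem_roots', Polynomial.IsRoot.def,
        Polynomial.eval_map_algebraMap]
      exact ⟨Polynomial.map_ne_zero (minpoly.ne_zero (hs a ha).isIntegral), hb⟩
  refine ⟨Fintype.card (Equiv.Perm T), Fintype.card_pos, fun g hg => ?_⟩
  let g' : Ω →ₐ[F] Ω :=
    { toFun := g
      map_one' := map_one g
      map_mul' := map_mul g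
      map_zero' := map_zero g
      map_add' := map_add g
      commutes' := fun a => hg a a.2 }
  have hgT : ∀ b, b ∈ T → g b ∈ T := by
    intro b hb
    rw [hmem] at hb ⊢
    obtain ⟨a, ha, hb⟩ := hb
    refine ⟨a, ha, ?_⟩
    have h1 : Polynomial.aeval (g' b) (minpoly F a) = g' (Polynomial.aeval b (minpoly F a)) :=
      Polynomial.aeval_algHom_apply _ _ _
    rw [hb, map_zero] at h1
    exact h1
  let f : T → T := fun b => ⟨g b, hgT b b.2⟩
  have hf : Function.Injective f := fun x y hxy =>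
    Subtype.ext (g.injective (congrArg (fun z : T => (z : Ω)) hxy))
  let π : Equiv.Perm T := Equiv.ofBijective f (Finite.injective_iff_bijective.1 hf)
  have hπ : ∀ (m : ℕ) (b : T), (((π ^ m) b : T) : Ω) = (g ^ m) b := by
    intro m
    induction m with
    | zero => exact fun b => rfl
    | succ m ih =>
      intro b
      rw [pow_succ, pow_succ]
      exact ih (π b)
  have h1 : ∀ b ∈ T, (g ^ Fintype.card (Equiv.Perm T)) b = b := by
    intro b hb
    rw [← hπ _ ⟨b, hb⟩, pow_card_eq_one]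
    rfl
  have h2 : N ≤ abhoFix (g ^ Fintype.card (Equiv.Perm T)) := by
    rw [hN', IntermediateField.adjoin_le_iff]
    rintro x (hx | hx)
    · exact abho_pow g (hg x hx) _
    · exact h1 x ((hmem x).2 ⟨x, hx, minpoly.aeval F x⟩)
  exact fun a ha => h2 ha

end Pool.Agent.KMR
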