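import Mathlib

/-!
Belyi's trick over a field `K` of characteristic zero: a polynomial which maps the roots of a
given polynomial and its own critical points into `K`. Only Mathlib.
-/

namespace Pool.Agent.KMR

open Polynomial

/-- there is a polynomial with the roots `P (η)`, `η` a root of `Q`, and no others.
PROOF. The product over the roots `η` of `Q` in the algebraic closure of the minimal polynomials
of `P (η)`; the conjugates of `P (η)` are `P (σ η)`. -/
theorem exists_image_roots {K : Type} [Field K] (P Q : K[X]) (hQ : Q ≠ 0) :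
    ∃ T : K[X], T ≠ 0 ∧ ∀ r : AlgebraicClosure K, aeval r T = 0 ↔
      ∃ η : AlgebraicClosure K, aeval η Q = 0 ∧ r = aeval η P := by
  classical
  have hint : ∀ x : AlgebraicClosure K, IsIntegral K x := fun x =>
    Algebra.IsIntegral.isIntegral x
  refine ⟨∏ η ∈ (Q.aroots (AlgebraicClosure K)).toFinset, minpoly K (aeval η P), ?_, fun r => ?_⟩
  · exact Finset.prod_ne_zero_iff.2 fun η _ => minpoly.ne_zero (hint _)
  · rw [map_prod, Finset.prod_eq_zero_iff]
    constructor
    · rintro ⟨η, hη, h⟩
      rw [Multiset.mem_toFinset, mem_aroots] at hη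
      have h1 := (isConjRoot_iff_aeval_eq_zero (hint (aeval η P))).2 h
      obtain ⟨τ, hτ⟩ := isConjRoot_iff_exists_algEquiv.1 h1.symm
      refine ⟨τ η, ?_, ?_⟩
      · have h2 : aeval (τ η) Q = τ (aeval η Q) := aeval_algHom_apply τ.toAlgHom η Q
        rw [h2, hη.2, map_zero]
      · have h2 : aeval (τ η) P = τ (aeval η P) := aeval_algHom_apply τ.toAlgHom η P
        rw [h2, hτ]
    · rintro ⟨η, hη, rfl⟩
      refine ⟨η, ?_, minpoly.aeval K _⟩
      rw [Multiset.mem_toFinset, mem_aroots]
      exact ⟨hQ, hη⟩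

/-- the roots of `s` which are not in `K` -/
private noncomputable def belyB {K : Type} [Field K] (s : K[X]) :
    Finset (AlgebraicClosure K) := by
  classical
  exact (s.aroots (AlgebraicClosure K)).toFinset.filter
    (fun r => r ∉ Set.range (algebraMap K (AlgebraicClosure K)))

private theorem mem_belyB {K : Type} [Field K] {s : K[X]} (hs : s ≠ 0)
    {r : AlgebraicClosure K} : r ∈ belyB s ↔
      aeval r s = 0 ∧ r ∉ Set.range (algebraMap K (AlgebraicClosure K)) := by
  classical
  rw [belyB, Finset.mem_filter, Multiset.mem_toFinset, mem_aroots]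
  exact ⟨fun h => ⟨h.1.2, h.2⟩, fun h => ⟨⟨hs, h.1⟩, h.2⟩⟩

/-- the polynomial whose roots are the bad roots -/
private theorem bely_P {K : Type} [Field K] [CharZero K] (s : K[X]) (hs : s ≠ 0) :
    ∃ P : K[X], P ≠ 0 ∧ P.natDegree = (belyB s).card ∧
      ∀ r : AlgebraicClosure K, aeval r P = 0 ↔ r ∈ belyB s := by
  classical
  have hint : ∀ x : AlgebraicClosure K, IsIntegral K x := fun x =>
    Algebra.IsIntegral.isIntegral x
  obtain ⟨I, hI⟩ : ∃ I, I = (belyB s).image (minpoly K) := ⟨_, rfl⟩
  have hmin : ∀ m ∈ I, ∃ x ∈ belyB s, m = minpoly K x := by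
    intro m hm
    rw [hI, Finset.mem_image] at hm
    obtain ⟨x, hx, rfl⟩ := hm
    exact ⟨x, hx, rfl⟩
  have hne : ∏ m ∈ I, m ≠ 0 := Finset.prod_ne_zero_iff.2 fun m hm => by
    obtain ⟨x, _, rfl⟩ := hmin m hm
    exact minpoly.ne_zero (hint x)
  have hsep : (∏ m ∈ I, m).Separable := by
    refine separable_prod' (f := fun m : K[X] => m) ?_ ?_
    · intro m hm m' hm' hmm
      obtain ⟨x, _, rfl⟩ := hmin m hm
      obtain ⟨x', _, rfl⟩ := hmin m' hm'
      rw [(minpoly.irreducible (hint x)).coprime_iff_not_dvd]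
      intro hd
      exact hmm (eq_of_monic_of_associated (minpoly.monic (hint x)) (minpoly.monic (hint x'))
        ((minpoly.irreducible (hint x)).associated_of_dvd (minpoly.irreducible (hint x')) hd))
    · intro m hm
      obtain ⟨x, _, rfl⟩ := hmin m hm
      exact (minpoly.irreducible (hint x)).separable
  have hroot : ∀ r : AlgebraicClosure K, aeval r (∏ m ∈ I, m) = 0 ↔ r ∈ belyB s := by
    intro r
    rw [map_prod, Finset.prod_eq_zero_iff]
    constructor
    · rintro ⟨m, hm, h⟩
      obtain ⟨x, hx, rfl⟩ := hmin m hm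
      rw [mem_belyB hs] at hx ⊢
      have h1 := (isConjRoot_iff_aeval_eq_zero (hint x)).2 h
      obtain ⟨τ, hτ⟩ := isConjRoot_iff_exists_algEquiv.1 h1.symm
      constructor
      · have h2 : aeval (τ x) s = τ (aeval x s) := aeval_algHom_apply τ.toAlgHom x s
        rw [← hτ, h2, hx.1, map_zero]
      · rintro ⟨c, hc⟩
        apply hx.2
        refine ⟨c, τ.injective ?_⟩
        rw [hτ, ← hc]
        exact τ.commutes c
    · intro h
      exact ⟨minpoly K r, by rw [hI]; exact Finset.mem_image_of_mem _ h, minpoly.aeval K r⟩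
  refine ⟨∏ m ∈ I, m, hne, ?_, hroot⟩
  rw [← card_rootSet_eq_natDegree (K := AlgebraicClosure K) hsep (IsAlgClosed.splits _)]
  have h1 : (∏ m ∈ I, m).rootSet (AlgebraicClosure K) = (belyB s : Set (AlgebraicClosure K)) := by
    ext r
    rw [mem_rootSet, Finset.mem_coe, ← hroot]
    exact ⟨fun h => h.2, fun h => ⟨hne, h⟩⟩
  rw [← Nat.card_eq_fintype_card, h1, Nat.card_coe_set_eq, Set.ncard_coe_finset]

private theorem bely_ind {K : Type} [Field K] [CharZero K] (n : ℕ) : ∀ (s : K[X]), s ≠ 0 →
    (belyB s).card ≤ n →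
    ∃ (h : K[X]) (C : Finset K), 0 < h.natDegree ∧ 0 ∈ C ∧
      ∀ r : AlgebraicClosure K, aeval r (s * derivative h) = 0 →
        ∃ c ∈ C, aeval r h = algebraMap K (AlgebraicClosure K) c := by
  classical
  induction n with
  | zero =>
    intro s hs hn
    refine ⟨X, insert 0 s.roots.toFinset, ?_, Finset.mem_insert_self _ _, fun r hr => ?_⟩
    · rw [natDegree_X]
      exact one_pos
    · rw [derivative_X, mul_one] at hr
      have h1 : r ∉ belyB s := by
        rw [Finset.card_eq_zero.1 (Nat.le_zero.1 hn)]
        exact Finset.notMem_empty r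
      rw [mem_belyB hs, not_and, not_not] at h1
      obtain ⟨c, rfl⟩ := h1 hr
      refine ⟨c, Finset.mem_insert_of_mem ?_, aeval_X _⟩
      rw [Multiset.mem_toFinset, mem_roots hs, IsRoot.def]
      rw [aeval_algebraMap_apply, coe_aeval_eq_eval, map_eq_zero] at hr
      exact hr
  | succ n ih =>
    intro s hs hn
    by_cases h0 : (belyB s).card = 0
    · -- as before
      refine ⟨X, insert 0 s.roots.toFinset, ?_, Finset.mem_insert_self _ _, fun r hr => ?_⟩
      · rw [natDegree_X]
        exact one_pos
      · rw [derivative_X, mul_one] at hr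
        have h1 : r ∉ belyB s := by
          rw [Finset.card_eq_zero.1 h0]
          exact Finset.notMem_empty r
        rw [mem_belyB hs, not_and, not_not] at h1
        obtain ⟨c, rfl⟩ := h1 hr
        refine ⟨c, Finset.mem_insert_of_mem ?_, aeval_X _⟩
        rw [Multiset.mem_toFinset, mem_roots hs, IsRoot.def]
        rw [aeval_algebraMap_apply, coe_aeval_eq_eval, map_eq_zero] at hr
        exact hr
    obtain ⟨P, hP0, hPd, hPr⟩ := bely_P s hs
    have hPpos : 0 < P.natDegree := by
      rw [hPd]
      exact Nat.pos_of_ne_zero h0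
    have hP' : derivative P ≠ 0 := by
      intro h
      have := derivative_eq_zero.1 h
      omega
    obtain ⟨T₁, hT₁, hT₁r⟩ := exists_image_roots P s hs
    obtain ⟨T₂, hT₂, hT₂r⟩ := exists_image_roots P (derivative P) hP'
    have hcard : (belyB (T₁ * T₂)).card ≤ n := by
      have h1 : belyB (T₁ * T₂) ⊆ ((derivative P).aroots (AlgebraicClosure K)).toFinset.image
          (fun η => aeval η P) := by
        intro r hr
        rw [mem_belyB (mul_ne_zero hT₁ hT₂), map_mul, mul_eq_zero] at hr
        obtain ⟨hr | hr, hr'⟩ := hr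
        · exfalso
          obtain ⟨η, hη, rfl⟩ := (hT₁r r).1 hr
          by_cases hb : η ∈ belyB s
          · apply hr'
            exact ⟨0, by rw [map_zero, (hPr η).2 hb]⟩
          · rw [mem_belyB hs, not_and, not_not] at hb
            obtain ⟨c, rfl⟩ := hb hη
            apply hr'
            exact ⟨aeval c P, (aeval_algebraMap_apply _ c P).symm⟩
        · obtain ⟨η, hη, rfl⟩ := (hT₂r r).1 hr
          refine Finset.mem_image_of_mem _ ?_
          rw [Multiset.mem_toFinset, mem_aroots]
          exact ⟨hP', hη⟩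
      have h2 := (Finset.card_le_card h1).trans Finset.card_image_le
      have h3 : ((derivative P).aroots (AlgebraicClosure K)).toFinset.card ≤
          (derivative P).natDegree := by
        refine (Multiset.toFinset_card_le _).trans ((card_roots' _).trans ?_)
        exact natDegree_map_le
      have h4 := natDegree_derivative_lt hPpos.ne'
      omega
    obtain ⟨h₁, C, hd, hC0, hC⟩ := ih (T₁ * T₂) (mul_ne_zero hT₁ hT₂) hcard
    refine ⟨h₁.comp P, C, ?_, hC0, fun r hr => ?_⟩
    · rw [natDegree_comp]
      exact Nat.mul_pos hd hPpos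
    · rw [aeval_comp]
      apply hC
      rw [derivative_comp, map_mul, map_mul, mul_eq_zero, mul_eq_zero, aeval_comp] at hr
      rw [map_mul, map_mul]
      rcases hr with hr | hr | hr
      · rw [(hT₁r _).2 ⟨r, hr, rfl⟩, zero_mul, zero_mul]
      · rw [(hT₂r _).2 ⟨r, hr, rfl⟩, mul_zero, zero_mul]
      · rw [hr, mul_zero]

/-- PROOF. Induction on the number of the roots of `s` (in the algebraic closure) which are not in
`K`. None: `h = X`, `C` = the roots of `s` and `0`. Otherwise let `P` be the product of the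
`X - r` over the bad roots `r`, a polynomial over `K` (a product of minimal polynomials), of degree
the number of bad roots. `s₁ = X * T₁ * T₂`, where the roots of `T₁` are the values of `P` at the
good roots of `s` (they are in `K`), and those of `T₂` the values of `P` at the roots of `P'`, at
most `deg P - 1` of them. By induction there are `h₁`, `C` for `s₁`; `h = h₁ ∘ P`,
`h' = (h₁' ∘ P) P'`. A bad root of `s` is mapped by `P` to `0`, a root of `s₁`; a good one to a root of
`T₁`; a root of `P'` to a root of `T₂`; a root `η` of `h₁' ∘ P` to a root of `h₁'`. -/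
theorem belyi_root {K : Type} [Field K] [CharZero K] (s : K[X]) (hs : s ≠ 0) :
    ∃ (h : K[X]) (C : Finset K), 0 < h.natDegree ∧ 0 ∈ C ∧
      ∀ r : AlgebraicClosure K, aeval r (s * derivative h) = 0 →
        ∃ c ∈ C, aeval r h = algebraMap K (AlgebraicClosure K) c :=
  bely_ind _ s hs le_rfl

/-- PROOF. Over the algebraically closed field a polynomial all of whose roots are roots of `g`
divides a power of `g`; divisibility descends to `K` (`Polynomial.map_dvd_map'`). -/
theorem belyi {K : Type} [Field K] [CharZero K] (s : K[X]) (hs : s ≠ 0) :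
    ∃ (h : K[X]) (C : Finset K) (N : ℕ), 0 < h.natDegree ∧ 0 ∈ C ∧
      s * derivative h ∣ (∏ c ∈ C, (h - Polynomial.C c)) ^ N := by
  classical
  obtain ⟨h, C, hd, hC0, hC⟩ := belyi_root s hs
  have hh' : derivative h ≠ 0 := by
    intro h0
    have := derivative_eq_zero.1 h0
    omega
  have hg : s * derivative h ≠ 0 := mul_ne_zero hs hh'
  have hF : ∏ c ∈ C, (h - Polynomial.C c) ≠ 0 := Finset.prod_ne_zero_iff.2 fun c _ h0 => by
    rw [sub_eq_zero] at h0
    rw [h0, natDegree_C] at hd
    exact lt_irrefl 0 hd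
  obtain ⟨G, hG⟩ : ∃ G, G = (s * derivative h).map (algebraMap K (AlgebraicClosure K)) := ⟨_, rfl⟩
  obtain ⟨F, hFd⟩ : ∃ F, F = (∏ c ∈ C, (h - Polynomial.C c)).map
      (algebraMap K (AlgebraicClosure K)) := ⟨_, rfl⟩
  have hG0 : G ≠ 0 := by
    rw [hG]
    exact (Polynomial.map_ne_zero_iff (algebraMap K (AlgebraicClosure K)).injective).2 hg
  have hF0 : F ≠ 0 := by
    rw [hFd]
    exact (Polynomial.map_ne_zero_iff (algebraMap K (AlgebraicClosure K)).injective).2 hF
  refine ⟨h, C, Multiset.card G.roots, hd, hC0, ?_⟩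
  rw [← map_dvd_map' (algebraMap K (AlgebraicClosure K)), Polynomial.map_pow, ← hG, ← hFd]
  rw [IsAlgClosed.dvd_iff_roots_le_roots hG0 (pow_ne_zero _ hF0), roots_pow,
    Multiset.le_iff_count]
  intro r
  rw [Multiset.count_nsmul]
  by_cases hr : r ∈ G.roots
  · have h1 : r ∈ F.roots := by
      rw [mem_roots hF0, IsRoot.def, hFd, eval_map_algebraMap, map_prod]
      rw [mem_roots hG0, IsRoot.def, hG, eval_map_algebraMap] at hr
      obtain ⟨c, hc, hrc⟩ := hC r hr
      refine Finset.prod_eq_zero hc ?_
      rw [map_sub, hrc, aeval_C, sub_self]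
    have h2 := Multiset.one_le_count_iff_mem.2 h1
    calc Multiset.count r G.roots ≤ Multiset.card G.roots := Multiset.count_le_card r _
      _ = Multiset.card G.roots * 1 := (mul_one _).symm
      _ ≤ Multiset.card G.roots * Multiset.count r F.roots := Nat.mul_le_mul_left _ h2
  · rw [Multiset.count_eq_zero_of_notMem hr]
    exact Nat.zero_le _

end Pool.Agent.KMR
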