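import Pool.Agent.Lib.MP_732f67_ag.R.PsiC
import Pool.Agent.Lib.MP_732f67_ag.R.PsiS

/-!
Operation: blowing up intersections of two boundary divisors.
-/

namespace Pool.Agent.KMR

variable {k Ω : Type} [Field k] [Field Ω] [Algebra k Ω]

namespace Mdl

variable {G : Subgroup (Ω ≃ₐ[k] Ω)} (M : Mdl k Ω G) {n : ℕ}

/-- `P` is a set of pairs of labels, stable under `G`, at most one pair on every chart -/
structure Ctr (P : Finset (M.J × M.J)) : Prop where
  ne : ∀ p ∈ P, p.1 ≠ p.2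
  disj : ∀ c, ∀ p ∈ P, ∀ q ∈ P, p.1 ∈ M.S c → p.2 ∈ M.S c → q.1 ∈ M.S c → q.2 ∈ M.S c → p = q
  stab : ∀ g : G, ∀ p ∈ P, (M.π g p.1, M.π g p.2) ∈ P

variable (P : Finset (M.J × M.J))

open Classical in
/-- the pair on the chart `c` -/
noncomputable def pr (c : M.ι) : Option {p // p ∈ P} :=
  if h : ∃ p : {p // p ∈ P}, p.1.1 ∈ M.S c ∧ p.1.2 ∈ M.S c then some h.choose else none

variable {M P}

/-- on the chart `(c, ε)` of the blow-up the ideal of the centre is generated by the local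
equation of the label `lo` -/
def lo (p : {p // p ∈ P}) (ε : Bool) : M.J := if ε then p.1.1 else p.1.2

def hi (p : {p // p ∈ P}) (ε : Bool) : M.J := if ε then p.1.2 else p.1.1

/-- the action on the pairs -/
def prPerm (hP : ∀ g : G, ∀ p ∈ P, (M.π g p.1, M.π g p.2) ∈ P) (g : G) :
    Equiv.Perm {p // p ∈ P} where
  toFun p := ⟨(M.π g p.1.1, M.π g p.1.2), hP g p.1 p.2⟩
  invFun p := ⟨(M.π g⁻¹ p.1.1, M.π g⁻¹ p.1.2), hP g⁻¹ p.1 p.2⟩
  left_inv p := Subtype.ext (by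
    change (M.π g⁻¹ (M.π g p.1.1), M.π g⁻¹ (M.π g p.1.2)) = p.1
    rw [← Equiv.Perm.mul_apply, ← Equiv.Perm.mul_apply, ← map_mul, inv_mul_cancel, map_one]; rfl)
  right_inv p := Subtype.ext (by
    change (M.π g (M.π g⁻¹ p.1.1), M.π g (M.π g⁻¹ p.1.2)) = p.1
    rw [← Equiv.Perm.mul_apply, ← Equiv.Perm.mul_apply, ← map_mul, mul_inv_cancel, map_one]; rfl)

variable (M P)

open Classical in
/-- the blow-up: the chart `c` with the pair `p` is replaced by the two charts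
`R c [x hi / x lo]`; the other charts are repeated -/
noncomputable def bl (hP : ∀ g : G, ∀ p ∈ P, (M.π g p.1, M.π g p.2) ∈ P) (N : ℕ) :
    Mdl k Ω G where
  F := M.F
  ι := M.ι × Bool
  J := M.J ⊕ {p // p ∈ P}
  R c := (M.pr P c.1).elim (M.R c.1) (fun p =>
    M.R c.1 ⊔ Algebra.adjoin k {(M.x c.1 (hi p c.2) / M.x c.1 (lo p c.2) : Ω)})
  S c := (M.pr P c.1).elim ((M.S c.1).map Function.Embedding.inl) (fun p =>
    ((M.S c.1).erase (lo p c.2)).map Function.Embedding.inl ∪ {Sum.inr p})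
  x c j := (M.pr P c.1).elim (j.elim (M.x c.1) (fun _ => 1)) (fun p => j.elim
    (fun i => if i = hi p c.2 then M.x c.1 (hi p c.2) / M.x c.1 (lo p c.2) else M.x c.1 i)
    (fun _ => M.x c.1 (lo p c.2)))
  s c := M.s c.1 ^ N * (M.pr P c.1).elim 1 (fun p => M.x c.1 (lo p c.2))
  m c := M.m c.1 ^ N * (M.pr P c.1).elim 1 (fun p => M.x c.1 (lo p c.2))
  Ψ := M.Ψ
  v j := j.elim M.v (fun p a => M.v p.1.1 a + M.v p.1.2 a)
  h j := j.elim (fun i => N * M.h i) (fun p => N * (M.h p.1.1 + M.h p.1.2) - 1)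
  π := MonoidHom.mk' (fun g => Equiv.sumCongr (M.π g) (prPerm hP g)) (fun g g' => by
    ext j : 1
    rcases j with j | p
    · simp
    · simp [prPerm])

end Mdl

end Pool.Agent.KMR
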