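import Pool.Agent.Lib.MP_732f67_ag.R.Bl

/-!
The blow-up: the two cases of the definition, rings and orders.
-/

namespace Pool.Agent.KMR

variable {k Ω : Type} [Field k] [Field Ω] [Algebra k Ω]

/-- two local rings of points, `O ≤ O'`, the ring of the second contained in `O`: they are equal -/
theorem loc_eq_of_le {R R' : Subalgebra k Ω} (φ : R →ₐ[k] k) (φ' : R' →ₐ[k] k)
    (h1 : Loc R φ ≤ Loc R' φ') (h2 : R' ≤ Loc R φ) : Loc R' φ' = Loc R φ := by
  refine le_antisymm ?_ h1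
  rintro _ ⟨b, c, hc, rfl⟩
  have hu : Un (Loc R φ) (c : Ω) :=
    (isPt_loc φ).dom (isPt_loc φ') h1 _ (h2 c.2) ((un_loc φ' c).2 hc)
  rw [div_eq_mul_inv]
  exact (Loc R φ).mul_mem (h2 b.2) hu.2.2

namespace Mdl

variable {G : Subgroup (Ω ≃ₐ[k] Ω)} {M : Mdl k Ω G} {n : ℕ} {P : Finset (M.J × M.J)}

theorem pr_some (c : M.ι) (p : {p // p ∈ P}) (h : M.pr P c = some p) :
    p.1.1 ∈ M.S c ∧ p.1.2 ∈ M.S c := by
  unfold pr at h
  split_ifs at h with h1
  have h2 := h1.choose_spec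
  have h3 : h1.choose = p := Option.some.inj h
  rw [h3] at h2
  exact h2

theorem pr_eq (hP : M.Ctr P) (c : M.ι) (p : {p // p ∈ P}) (h1 : p.1.1 ∈ M.S c)
    (h2 : p.1.2 ∈ M.S c) : M.pr P c = some p := by
  have h3 : ∃ p : {p // p ∈ P}, p.1.1 ∈ M.S c ∧ p.1.2 ∈ M.S c := ⟨p, h1, h2⟩
  unfold pr
  rw [dif_pos h3]
  have h4 := h3.choose_spec
  have h5 := hP.disj c _ h3.choose.2 _ p.2 h4.1 h4.2 h1 h2
  rw [show h3.choose = p from Subtype.ext h5]

theorem lo_S (c : M.ι) (p : {p // p ∈ P}) (h : M.pr P c = some p) (ε : Bool) :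
    lo p ε ∈ M.S c := by
  have h1 := pr_some c p h
  cases ε
  · exact h1.2
  · exact h1.1

theorem hi_S (c : M.ι) (p : {p // p ∈ P}) (h : M.pr P c = some p) (ε : Bool) :
    hi p ε ∈ M.S c := by
  have h1 := pr_some c p h
  cases ε
  · exact h1.1
  · exact h1.2

theorem hi_ne (hP : M.Ctr P) (p : {p // p ∈ P}) (ε : Bool) : hi p ε ≠ lo p ε := by
  have h1 := hP.ne p.1 p.2
  cases ε
  · exact h1
  · exact h1.symm

theorem lo_not (p : {p // p ∈ P}) (ε : Bool) : lo p (!ε) = hi p ε := by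
  cases ε <;> rfl

theorem hi_not (p : {p // p ∈ P}) (ε : Bool) : hi p (!ε) = lo p ε := by
  cases ε <;> rfl

theorem lohi (p : {p // p ∈ P}) (ε : Bool) : (lo p ε = p.1.1 ∧ hi p ε = p.1.2) ∨
    (lo p ε = p.1.2 ∧ hi p ε = p.1.1) := by
  cases ε
  · exact Or.inr ⟨rfl, rfl⟩
  · exact Or.inl ⟨rfl, rfl⟩

section cases

variable (hs : ∀ g : G, ∀ p ∈ P, (M.π g p.1, M.π g p.2) ∈ P) (N : ℕ) (c : M.ι) (ε : Bool)

theorem bl_R_none (h : M.pr P c = none) : (M.bl P hs N).R (c, ε) = M.R c := by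
  change (M.pr P c).elim _ _ = _
  rw [h]
  rfl

theorem bl_R_some {p : {p // p ∈ P}} (h : M.pr P c = some p) : (M.bl P hs N).R (c, ε) =
    M.R c ⊔ Algebra.adjoin k {(M.x c (hi p ε) / M.x c (lo p ε) : Ω)} := by
  change (M.pr P c).elim _ _ = _
  rw [h]
  rfl

theorem bl_S_none_inl (h : M.pr P c = none) (i : M.J) :
    Sum.inl i ∈ (M.bl P hs N).S (c, ε) ↔ i ∈ M.S c := by
  classical
  change (Sum.inl i : M.J ⊕ {p // p ∈ P}) ∈ (M.pr P c).elim
    ((M.S c).map Function.Embedding.inl) (fun p =>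
    ((M.S c).erase (lo p ε)).map Function.Embedding.inl ∪ {Sum.inr p}) ↔ _
  rw [h]
  change (Sum.inl i : M.J ⊕ {p // p ∈ P}) ∈ (M.S c).map Function.Embedding.inl ↔ _
  simp

theorem bl_S_none_inr (h : M.pr P c = none) (q : {p // p ∈ P}) :
    Sum.inr q ∉ (M.bl P hs N).S (c, ε) := by
  classical
  change ¬ (Sum.inr q : M.J ⊕ {p // p ∈ P}) ∈ (M.pr P c).elim
    ((M.S c).map Function.Embedding.inl) (fun p =>
    ((M.S c).erase (lo p ε)).map Function.Embedding.inl ∪ {Sum.inr p})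
  rw [h]
  change ¬ (Sum.inr q : M.J ⊕ {p // p ∈ P}) ∈ (M.S c).map Function.Embedding.inl
  simp

theorem bl_S_some_inl {p : {p // p ∈ P}} (h : M.pr P c = some p) (i : M.J) :
    Sum.inl i ∈ (M.bl P hs N).S (c, ε) ↔ i ≠ lo p ε ∧ i ∈ M.S c := by
  classical
  change (Sum.inl i : M.J ⊕ {p // p ∈ P}) ∈ (M.pr P c).elim
    ((M.S c).map Function.Embedding.inl) (fun p =>
    ((M.S c).erase (lo p ε)).map Function.Embedding.inl ∪ {Sum.inr p}) ↔ _
  rw [h]
  change (Sum.inl i : M.J ⊕ {p // p ∈ P}) ∈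
    ((M.S c).erase (lo p ε)).map Function.Embedding.inl ∪ {Sum.inr p} ↔ _
  simp

theorem bl_S_some_inr {p : {p // p ∈ P}} (h : M.pr P c = some p) (q : {p // p ∈ P}) :
    Sum.inr q ∈ (M.bl P hs N).S (c, ε) ↔ q = p := by
  classical
  change (Sum.inr q : M.J ⊕ {p // p ∈ P}) ∈ (M.pr P c).elim
    ((M.S c).map Function.Embedding.inl) (fun p =>
    ((M.S c).erase (lo p ε)).map Function.Embedding.inl ∪ {Sum.inr p}) ↔ _
  rw [h]
  change (Sum.inr q : M.J ⊕ {p // p ∈ P}) ∈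
    ((M.S c).erase (lo p ε)).map Function.Embedding.inl ∪ {Sum.inr p} ↔ _
  simp

theorem bl_x_none (h : M.pr P c = none) (i : M.J) :
    (M.bl P hs N).x (c, ε) (Sum.inl i) = M.x c i := by
  change (M.pr P c).elim _ _ = _
  rw [h]
  rfl

theorem bl_x_hi {p : {p // p ∈ P}} (h : M.pr P c = some p) :
    (M.bl P hs N).x (c, ε) (Sum.inl (hi p ε)) = M.x c (hi p ε) / M.x c (lo p ε) := by
  classical
  change (M.pr P c).elim _ _ = _
  rw [h]
  change (if hi p ε = hi p ε then _ else _) = _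
  rw [if_pos rfl]

theorem bl_x_ne {p : {p // p ∈ P}} (h : M.pr P c = some p) (i : M.J) (hi' : i ≠ hi p ε) :
    (M.bl P hs N).x (c, ε) (Sum.inl i) = M.x c i := by
  classical
  change (M.pr P c).elim _ _ = _
  rw [h]
  change (if i = hi p ε then _ else _) = _
  rw [if_neg hi']

theorem bl_x_inr {p : {p // p ∈ P}} (h : M.pr P c = some p) (q : {p // p ∈ P}) :
    (M.bl P hs N).x (c, ε) (Sum.inr q) = M.x c (lo p ε) := by
  change (M.pr P c).elim _ _ = _
  rw [h]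
  rfl

theorem bl_s_none (h : M.pr P c = none) : (M.bl P hs N).s (c, ε) = M.s c ^ N := by
  change M.s c ^ N * (M.pr P c).elim _ _ = _
  rw [h]
  exact mul_one _

theorem bl_s_some {p : {p // p ∈ P}} (h : M.pr P c = some p) :
    (M.bl P hs N).s (c, ε) = M.s c ^ N * M.x c (lo p ε) := by
  change M.s c ^ N * (M.pr P c).elim _ _ = _
  rw [h]
  rfl

theorem bl_m_none (h : M.pr P c = none) : (M.bl P hs N).m (c, ε) = M.m c ^ N := by
  change M.m c ^ N * (M.pr P c).elim _ _ = _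
  rw [h]
  exact mul_one _

theorem bl_m_some {p : {p // p ∈ P}} (h : M.pr P c = some p) :
    (M.bl P hs N).m (c, ε) = M.m c ^ N * M.x c (lo p ε) := by
  change M.m c ^ N * (M.pr P c).elim _ _ = _
  rw [h]
  rfl

theorem bl_le0 : M.R c ≤ (M.bl P hs N).R (c, ε) := by
  cases h : M.pr P c with
  | none => rw [bl_R_none hs N c ε h]
  | some p =>
    rw [bl_R_some hs N c ε h]
    exact le_sup_left

theorem bl_div_mem {p : {p // p ∈ P}} (h : M.pr P c = some p) :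
    (M.x c (hi p ε) / M.x c (lo p ε) : Ω) ∈ (M.bl P hs N).R (c, ε) := by
  rw [bl_R_some hs N c ε h]
  exact (le_sup_right : Algebra.adjoin k {(M.x c (hi p ε) / M.x c (lo p ε) : Ω)} ≤ _)
    (Algebra.subset_adjoin (Set.mem_singleton _))

/-- what contains `R c` and the quotient contains the ring of the chart `(c, ε)` -/
theorem bl_R_le (O : Subalgebra k Ω) (h1 : M.R c ≤ O)
    (h2 : ∀ p, M.pr P c = some p → (M.x c (hi p ε) / M.x c (lo p ε) : Ω) ∈ O) :
    (M.bl P hs N).R (c, ε) ≤ O := by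
  cases h : M.pr P c with
  | none =>
    rw [bl_R_none hs N c ε h]
    exact h1
  | some p =>
    rw [bl_R_some hs N c ε h]
    refine sup_le h1 (Algebra.adjoin_le ?_)
    rintro _ rfl
    exact h2 p h

end cases

end Mdl

end Pool.Agent.KMR
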