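import Pool.Agent.Lib.MP_732f67_ag.R.BlA1

/-!
The blow-up: rings, orders, points.
-/

namespace Pool.Agent.KMR

variable {k Ω : Type} [Field k] [Field Ω] [Algebra k Ω]

namespace Mdl

variable {G : Subgroup (Ω ≃ₐ[k] Ω)} {M : Mdl k Ω G} {n : ℕ} {P : Finset (M.J × M.J)}

variable (hP : M.Ctr P) (N : ℕ)

theorem bl_le (c : M.ι) (ε : Bool) : M.R c ≤ (M.bl P hP.stab N).R (c, ε) :=
  bl_le0 hP.stab N c ε

/-- PROOF of `complete`: in a valuation ring `x hi / x lo` or its inverse is integral; the two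
charts over `c` exchange `hi` and `lo` -/
theorem bl_okR (h : M.OkR n) (hv : M.OkV) : (M.bl P hP.stab N).OkR n where
  fin := by
    have h1 := h.fin
    exact (inferInstance : Finite (M.ι × Bool))
  trd := h.trd
  fg := by
    rintro ⟨c, ε⟩
    cases hc : M.pr P c with
    | none =>
      rw [bl_R_none hP.stab N c ε hc]
      exact h.fg c
    | some p =>
      rw [bl_R_some hP.stab N c ε hc]
      classical
      obtain ⟨s, hs⟩ := h.fg c
      refine ⟨s ∪ {(M.x c (hi p ε) / M.x c (lo p ε) : Ω)}, ?_⟩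
      rw [Finset.coe_union, Finset.coe_singleton, Algebra.adjoin_union, hs]
  le := by
    rintro ⟨c, ε⟩ a ha
    refine bl_R_le hP.stab N c ε M.F.toSubalgebra (h.le c) (fun p hp => ?_) ha
    exact M.F.div_mem (hv.Ψ_F _ (hv.x_Ψ c _ (hi_S c p hp ε)))
      (hv.Ψ_F _ (hv.x_Ψ c _ (lo_S c p hp ε)))
  frac := by
    rintro ⟨c, ε⟩ a ha
    obtain ⟨b, hb, d, hd, hd0, he⟩ := h.frac c a ha
    exact ⟨b, bl_le hP N c ε hb, d, bl_le hP N c ε hd, hd0, he⟩
  complete := by
    intro V hV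
    obtain ⟨c, hc⟩ := h.complete V hV
    let O : Subalgebra k Ω := { V.toSubring with algebraMap_mem' := hV }
    have hO : ∀ ε, (∀ p, M.pr P c = some p → (M.x c (hi p ε) / M.x c (lo p ε) : Ω) ∈ V) →
        ∃ c', ∀ a ∈ (M.bl P hP.stab N).R c', a ∈ V := fun ε h1 =>
      ⟨(c, ε), fun a ha => bl_R_le hP.stab N c ε O hc h1 ha⟩
    cases hc : M.pr P c with
    | none => exact hO true fun p hp => by rw [hc] at hp; exact absurd hp (by simp)
    | some p =>
      rcases V.mem_or_inv_mem (M.x c (hi p true) / M.x c (lo p true) : Ω) with h1 | h1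
      · refine hO true fun q hq => ?_
        rw [hc] at hq
        rw [← Option.some.inj hq]
        exact h1
      · refine hO false fun q hq => ?_
        rw [hc] at hq
        rw [← Option.some.inj hq, ← lo_not p true, ← hi_not p true] at *
        rw [inv_div] at h1
        exact h1

theorem bl_v_inl (a : Ωˣ) (i : M.J) : (M.bl P hP.stab N).v (Sum.inl i) a = M.v i a := rfl

theorem bl_v_inr (a : Ωˣ) (p : {p // p ∈ P}) (ε : Bool) :
    (M.bl P hP.stab N).v (Sum.inr p) a = M.v (lo p ε) a + M.v (hi p ε) a := by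
  change M.v p.1.1 a + M.v p.1.2 a = _
  rcases lohi p ε with ⟨h1, h2⟩ | ⟨h1, h2⟩
  · rw [h1, h2]
  · rw [h1, h2, add_comm]

theorem OkV.v_div (h : M.OkV) (j : M.J) (a b : Ωˣ) (ha : a ∈ M.Ψ) (hb : b ∈ M.Ψ) :
    M.v j (a / b) = M.v j a - M.v j b := by
  rw [div_eq_mul_inv, h.v_mul j a ha _ (inv_mem hb), h.v_inv j b hb, sub_eq_add_neg]

theorem bl_okV (h : M.OkV) : (M.bl P hP.stab N).OkV where
  Ψ_fg := h.Ψ_fg
  Ψ_F := h.Ψ_F
  x_Ψ := by
    rintro ⟨c, ε⟩ j hj
    change (M.bl P hP.stab N).x (c, ε) j ∈ M.Ψ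
    cases hc : M.pr P c with
    | none =>
      rcases j with i | q
      · rw [bl_x_none hP.stab N c ε hc]
        exact h.x_Ψ c i ((bl_S_none_inl hP.stab N c ε hc i).1 hj)
      · exact absurd hj (bl_S_none_inr hP.stab N c ε hc q)
    | some p =>
      rcases j with i | q
      · by_cases hi' : i = hi p ε
        · rw [hi', bl_x_hi hP.stab N c ε hc]
          exact M.Ψ.div_mem (h.x_Ψ c _ (hi_S c p hc ε)) (h.x_Ψ c _ (lo_S c p hc ε))
        · rw [bl_x_ne hP.stab N c ε hc i hi']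
          exact h.x_Ψ c i ((bl_S_some_inl hP.stab N c ε hc i).1 hj).2
      · rw [bl_x_inr hP.stab N c ε hc]
        exact h.x_Ψ c _ (lo_S c p hc ε)
  x_R := by
    rintro ⟨c, ε⟩ j hj
    cases hc : M.pr P c with
    | none =>
      rcases j with i | q
      · rw [bl_x_none hP.stab N c ε hc]
        exact bl_le hP N c ε (h.x_R c i ((bl_S_none_inl hP.stab N c ε hc i).1 hj))
      · exact absurd hj (bl_S_none_inr hP.stab N c ε hc q)
    | some p =>
      rcases j with i | q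
      · by_cases hi' : i = hi p ε
        · rw [hi', bl_x_hi hP.stab N c ε hc, Units.val_div_eq_div_val]
          exact bl_div_mem hP.stab N c ε hc
        · rw [bl_x_ne hP.stab N c ε hc i hi']
          exact bl_le hP N c ε (h.x_R c i ((bl_S_some_inl hP.stab N c ε hc i).1 hj).2)
      · rw [bl_x_inr hP.stab N c ε hc]
        exact bl_le hP N c ε (h.x_R c _ (lo_S c p hc ε))
  v_mul := by
    rintro (i | q) a ha b hb
    · exact h.v_mul i a ha b hb
    · rw [bl_v_inr hP N _ q true, bl_v_inr hP N _ q true, bl_v_inr hP N _ q true,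
        h.v_mul _ a ha b hb, h.v_mul _ a ha b hb]
      ring
  v_x := by
    rintro ⟨c, ε⟩ j hj
    cases hc : M.pr P c with
    | none =>
      rcases j with i | q
      · rw [bl_x_none hP.stab N c ε hc, bl_v_inl hP]
        exact h.v_x c i ((bl_S_none_inl hP.stab N c ε hc i).1 hj)
      · exact absurd hj (bl_S_none_inr hP.stab N c ε hc q)
    | some p =>
      have hl := lo_S c p hc ε
      have hh := hi_S c p hc ε
      rcases j with i | q
      · by_cases hi' : i = hi p ε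
        · rw [hi', bl_x_hi hP.stab N c ε hc, bl_v_inl hP,
            h.v_div _ _ _ (h.x_Ψ c _ hh) (h.x_Ψ c _ hl), h.v_x c _ hh,
            h.v_x' c _ hh _ hl (hi_ne hP p ε), sub_zero]
        · rw [bl_x_ne hP.stab N c ε hc i hi', bl_v_inl hP]
          exact h.v_x c i ((bl_S_some_inl hP.stab N c ε hc i).1 hj).2
      · rw [(bl_S_some_inr hP.stab N c ε hc q).1 hj, bl_x_inr hP.stab N c ε hc,
          bl_v_inr hP N _ p ε, h.v_x c _ hl, h.v_x' c _ hh _ hl (hi_ne hP p ε), add_zero]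
  v_x' := by
    rintro ⟨c, ε⟩ i hi' j hj hij
    cases hc : M.pr P c with
    | none =>
      rcases i with i | q
      · rcases j with j | q
        · rw [bl_x_none hP.stab N c ε hc, bl_v_inl hP]
          exact h.v_x' c i ((bl_S_none_inl hP.stab N c ε hc i).1 hi') j
            ((bl_S_none_inl hP.stab N c ε hc j).1 hj) fun e => hij (by rw [e])
        · exact absurd hj (bl_S_none_inr hP.stab N c ε hc q)
      · exact absurd hi' (bl_S_none_inr hP.stab N c ε hc q)
    | some p =>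
      have hl := lo_S c p hc ε
      have hh := hi_S c p hc ε
      have hlh := hi_ne hP p ε
      rcases i with i | q
      · obtain ⟨h1, h2⟩ := (bl_S_some_inl hP.stab N c ε hc i).1 hi'
        rcases j with j | q
        · obtain ⟨h3, h4⟩ := (bl_S_some_inl hP.stab N c ε hc j).1 hj
          have hne : i ≠ j := fun e => hij (by rw [e])
          by_cases hj' : j = hi p ε
          · rw [hj', bl_x_hi hP.stab N c ε hc, bl_v_inl hP,
              h.v_div _ _ _ (h.x_Ψ c _ hh) (h.x_Ψ c _ hl), h.v_x' c i h2 _ hh (hj' ▸ hne),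
              h.v_x' c i h2 _ hl h1, sub_zero]
          · rw [bl_x_ne hP.stab N c ε hc j hj', bl_v_inl hP]
            exact h.v_x' c i h2 j h4 hne
        · rw [bl_x_inr hP.stab N c ε hc, bl_v_inl hP]
          exact h.v_x' c i h2 _ hl h1
      · rw [(bl_S_some_inr hP.stab N c ε hc q).1 hi', bl_v_inr hP N _ p ε]
        rcases j with j | q'
        · obtain ⟨h3, h4⟩ := (bl_S_some_inl hP.stab N c ε hc j).1 hj
          by_cases hj' : j = hi p ε
          · rw [hj', bl_x_hi hP.stab N c ε hc,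
              h.v_div _ _ _ (h.x_Ψ c _ hh) (h.x_Ψ c _ hl),
              h.v_div _ _ _ (h.x_Ψ c _ hh) (h.x_Ψ c _ hl), h.v_x c _ hh, h.v_x c _ hl,
              h.v_x' c _ hh _ hl hlh, h.v_x' c _ hl _ hh hlh.symm]
            ring
          · rw [bl_x_ne hP.stab N c ε hc j hj', h.v_x' c _ hl _ h4 (Ne.symm h3),
              h.v_x' c _ hh _ h4 (Ne.symm hj'), add_zero]
        · exact absurd (((bl_S_some_inr hP.stab N c ε hc q).1 hi').trans
            ((bl_S_some_inr hP.stab N c ε hc q').1 hj).symm) fun e => hij (by rw [e])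
  unit := by
    rintro ⟨c, ε⟩ a ha hv
    refine (h.unit c a ha fun j hj => ?_).mono (bl_le hP N c ε)
    cases hc : M.pr P c with
    | none => exact hv (Sum.inl j) ((bl_S_none_inl hP.stab N c ε hc j).2 hj)
    | some p =>
      by_cases hj' : j = lo p ε
      · have h1 := hv (Sum.inr p) ((bl_S_some_inr hP.stab N c ε hc p).2 rfl)
        have h2 := hv (Sum.inl (hi p ε))
          ((bl_S_some_inl hP.stab N c ε hc _).2 ⟨hi_ne hP p ε, hi_S c p hc ε⟩)
        rw [bl_v_inr hP N _ p ε] at h1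
        rw [bl_v_inl hP] at h2
        rw [hj']
        omega
      · exact hv (Sum.inl j) ((bl_S_some_inl hP.stab N c ε hc j).2 ⟨hj', hj⟩)

/-- the point under a point of the blow-up -/
theorem bl_pt (c : M.ι) (ε : Bool) (φ : (M.bl P hP.stab N).R (c, ε) →ₐ[k] k) :
    ∃ ψ : M.R c →ₐ[k] k, M.O c ψ ≤ (M.bl P hP.stab N).O (c, ε) φ ∧
      ∀ a ∈ M.O c ψ, Un (M.O c ψ) a ↔ Un ((M.bl P hP.stab N).O (c, ε) φ) a := by
  obtain ⟨ψ, -, h2⟩ := (isPt_loc φ).exists_loc (M.R c) ((bl_le hP N c ε).trans (le_loc φ))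
  exact ⟨ψ, h2, fun a ha => ⟨fun hu => hu.mono h2, fun hu =>
    (isPt_loc ψ).dom (isPt_loc φ) h2 a ha hu⟩⟩

/-- if the point under it is not on the centre, the local rings are equal, and `x lo` is a unit -/
theorem bl_pt_eq (h : M.OkV) (c : M.ι) (ε : Bool) (φ : (M.bl P hP.stab N).R (c, ε) →ₐ[k] k)
    (ψ : M.R c →ₐ[k] k) (h1 : M.O c ψ ≤ (M.bl P hP.stab N).O (c, ε) φ)
    (h2 : ∀ p, M.pr P c = some p → ¬ (M.At c ψ p.1.1 ∧ M.At c ψ p.1.2)) :
    (M.bl P hP.stab N).O (c, ε) φ = M.O c ψ ∧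
      ∀ p, M.pr P c = some p → Un (M.O c ψ) (M.x c (lo p ε) : Ω) := by
  have key : ∀ p, M.pr P c = some p → Un (M.O c ψ) (M.x c (lo p ε) : Ω) := by
    intro p hp
    by_contra hn
    have hl := lo_S c p hp ε
    have hh := hi_S c p hp ε
    have hn2 : Un (M.O c ψ) (M.x c (hi p ε) : Ω) := by
      by_contra hn3
      apply h2 p hp
      rcases lohi p ε with ⟨e1, e2⟩ | ⟨e1, e2⟩
      · rw [← e1, ← e2]
        exact ⟨⟨hl, hn⟩, ⟨hh, hn3⟩⟩
      · rw [← e1, ← e2]
        exact ⟨⟨hh, hn3⟩, ⟨hl, hn⟩⟩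
    have h3 : (M.x c (hi p ε) / M.x c (lo p ε) : Ω) ∈ (M.bl P hP.stab N).O (c, ε) φ :=
      le_loc φ (bl_div_mem hP.stab N c ε hp)
    have h4 : (M.x c (lo p ε) : Ω) ∈ M.O c ψ := le_loc ψ (h.x_R c _ hl)
    have h5 : Un ((M.bl P hP.stab N).O (c, ε) φ)
        ((M.x c (hi p ε) / M.x c (lo p ε) : Ω) * (M.x c (lo p ε) : Ω)) := by
      rw [div_mul_cancel₀ _ (M.x c (lo p ε)).ne_zero]
      exact hn2.mono h1
    exact hn ((isPt_loc ψ).dom (isPt_loc φ) h1 _ h4 (Un.of_mul h3 (h1 h4) h5).2)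
  refine ⟨loc_eq_of_le ψ φ h1 (bl_R_le hP.stab N c ε _ (le_loc ψ) fun p hp => ?_), key⟩
  rw [div_eq_mul_inv]
  exact (M.O c ψ).mul_mem (le_loc ψ (h.x_R c _ (hi_S c p hp ε))) (key p hp).2.2

end Mdl

end Pool.Agent.KMR
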