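import Pool.Agent.Lib.MP_732f67_ag.R.BlA

/-!
The blow-up: equivariance.
-/

namespace Pool.Agent.KMR

variable {k Ω : Type} [Field k] [Field Ω] [Algebra k Ω]

namespace Mdl

variable {G : Subgroup (Ω ≃ₐ[k] Ω)} {M : Mdl k Ω G} {n : ℕ} {P : Finset (M.J × M.J)}
  (hP : M.Ctr P) (N : ℕ)

section aux

theorem BlE_R_none (c : M.ι) (ε : Bool) (h : M.pr P c = none) :
    (M.bl P hP.stab N).R (c, ε) = M.R c := by
  show (M.pr P c).elim _ _ = _
  rw [h]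
  rfl

theorem BlE_R_some (c : M.ι) (ε : Bool) (p : {p // p ∈ P}) (h : M.pr P c = some p) :
    (M.bl P hP.stab N).R (c, ε) =
      M.R c ⊔ Algebra.adjoin k {(M.x c (hi p ε) / M.x c (lo p ε) : Ω)} := by
  show (M.pr P c).elim _ _ = _
  rw [h]
  rfl

open Classical in
theorem BlE_S_none (c : M.ι) (ε : Bool) (h : M.pr P c = none) (i : M.J) :
    (Sum.inl i : M.J ⊕ {p // p ∈ P}) ∈ (M.bl P hP.stab N).S (c, ε) ↔ i ∈ M.S c := by
  show (Sum.inl i : M.J ⊕ {p // p ∈ P}) ∈ ((M.pr P c).elim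
    ((M.S c).map Function.Embedding.inl) (fun p =>
      ((M.S c).erase (lo p ε)).map Function.Embedding.inl ∪ {Sum.inr p}) :
      Finset (M.J ⊕ {p // p ∈ P})) ↔ _
  rw [h]
  simp

open Classical in
theorem BlE_S_none' (c : M.ι) (ε : Bool) (h : M.pr P c = none) (q : {p // p ∈ P}) :
    (Sum.inr q : M.J ⊕ {p // p ∈ P}) ∉ (M.bl P hP.stab N).S (c, ε) := by
  show (Sum.inr q : M.J ⊕ {p // p ∈ P}) ∉ ((M.pr P c).elim
    ((M.S c).map Function.Embedding.inl) (fun p =>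
      ((M.S c).erase (lo p ε)).map Function.Embedding.inl ∪ {Sum.inr p}) :
      Finset (M.J ⊕ {p // p ∈ P}))
  rw [h]
  simp

open Classical in
theorem BlE_S_some (c : M.ι) (ε : Bool) (p : {p // p ∈ P}) (h : M.pr P c = some p) (i : M.J) :
    (Sum.inl i : M.J ⊕ {p // p ∈ P}) ∈ (M.bl P hP.stab N).S (c, ε) ↔
      i ≠ lo p ε ∧ i ∈ M.S c := by
  show (Sum.inl i : M.J ⊕ {p // p ∈ P}) ∈ ((M.pr P c).elim
    ((M.S c).map Function.Embedding.inl) (fun p =>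
      ((M.S c).erase (lo p ε)).map Function.Embedding.inl ∪ {Sum.inr p}) :
      Finset (M.J ⊕ {p // p ∈ P})) ↔ _
  rw [h]
  simp

open Classical in
theorem BlE_S_some' (c : M.ι) (ε : Bool) (p : {p // p ∈ P}) (h : M.pr P c = some p)
    (q : {p // p ∈ P}) :
    (Sum.inr q : M.J ⊕ {p // p ∈ P}) ∈ (M.bl P hP.stab N).S (c, ε) ↔ q = p := by
  show (Sum.inr q : M.J ⊕ {p // p ∈ P}) ∈ ((M.pr P c).elim
    ((M.S c).map Function.Embedding.inl) (fun p =>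
      ((M.S c).erase (lo p ε)).map Function.Embedding.inl ∪ {Sum.inr p}) :
      Finset (M.J ⊕ {p // p ∈ P})) ↔ _
  rw [h]
  simp

theorem BlE_x_none (c : M.ι) (ε : Bool) (h : M.pr P c = none) (i : M.J) :
    (M.bl P hP.stab N).x (c, ε) (Sum.inl i : M.J ⊕ {p // p ∈ P}) = M.x c i := by
  show (M.pr P c).elim _ _ = _
  rw [h]
  rfl

theorem BlE_x_hi (c : M.ι) (ε : Bool) (p : {p // p ∈ P}) (h : M.pr P c = some p) :
    (M.bl P hP.stab N).x (c, ε) (Sum.inl (hi p ε) : M.J ⊕ {p // p ∈ P}) =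
      M.x c (hi p ε) / M.x c (lo p ε) := by
  show (M.pr P c).elim _ _ = _
  rw [h]
  simp

theorem BlE_x_ne (c : M.ι) (ε : Bool) (p : {p // p ∈ P}) (h : M.pr P c = some p) (i : M.J)
    (hi' : i ≠ hi p ε) :
    (M.bl P hP.stab N).x (c, ε) (Sum.inl i : M.J ⊕ {p // p ∈ P}) = M.x c i := by
  show (M.pr P c).elim _ _ = _
  rw [h]
  simp [hi']

theorem BlE_x_inr (c : M.ι) (ε : Bool) (p : {p // p ∈ P}) (h : M.pr P c = some p)
    (q : {p // p ∈ P}) :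
    (M.bl P hP.stab N).x (c, ε) (Sum.inr q : M.J ⊕ {p // p ∈ P}) = M.x c (lo p ε) := by
  show (M.pr P c).elim _ _ = _
  rw [h]
  simp

theorem BlE_lo (g : G) (p : {p // p ∈ P}) (ε : Bool) :
    lo (prPerm hP.stab g p) ε = M.π g (lo p ε) := by
  cases ε <;> rfl

theorem BlE_hi (g : G) (p : {p // p ∈ P}) (ε : Bool) :
    hi (prPerm hP.stab g p) ε = M.π g (hi p ε) := by
  cases ε <;> rfl

theorem BlE_un_div {O : Subalgebra k Ω} {a b : Ω} (h : Un O (a / b)) : Un O a ↔ Un O b := by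
  have ha : a ≠ 0 := fun h0 => h.1 (by rw [h0, zero_div])
  have hb : b ≠ 0 := fun h0 => h.1 (by rw [h0, div_zero])
  constructor
  · intro hu
    have h1 : b = (a / b)⁻¹ * a := by field_simp
    rw [h1]
    exact h.inv.mul hu
  · intro hu
    have h1 : a = a / b * b := by field_simp
    rw [h1]
    exact h.mul hu

theorem BlE_symm (g : Ω ≃ₐ[k] Ω) (O : Subalgebra k Ω) (a : Ω) :
    Un (O.comap (g.symm : Ω →ₐ[k] Ω)) a ↔ Un O (g.symm a) := by
  have h0 : a ≠ 0 ↔ g.symm a ≠ 0 := (map_ne_zero g.symm).symm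
  have h1 : a⁻¹ ∈ O.comap (g.symm : Ω →ₐ[k] Ω) ↔ (g.symm a)⁻¹ ∈ O := by
    rw [Subalgebra.mem_comap, ← map_inv₀]
    rfl
  have h2 : a ∈ O.comap (g.symm : Ω →ₐ[k] Ω) ↔ g.symm a ∈ O := Iff.rfl
  unfold Un
  rw [h0, h1, h2]

theorem BlE_isPt (g : Ω ≃ₐ[k] Ω) (O : Subalgebra k Ω) (h : IsPt O) :
    IsPt (O.comap (g.symm : Ω →ₐ[k] Ω)) := by
  obtain ⟨χ, hχ⟩ := h
  refine ⟨χ.comp (((g.symm : Ω →ₐ[k] Ω).comp (O.comap (g.symm : Ω →ₐ[k] Ω)).val).codRestrict O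
    (fun a => a.2)), fun a => ?_⟩
  rw [BlE_symm, AlgHom.comp_apply, hχ]
  rfl

/-- it is enough to find a chart under the image of the local ring -/
theorem BlE_key (g : G) (c c₁ : M.ι) (ε ε₁ : Bool) (φ : (M.bl P hP.stab N).R (c, ε) →ₐ[k] k)
    (h1 : (M.bl P hP.stab N).R (c₁, ε₁) ≤
      ((M.bl P hP.stab N).O (c, ε) φ).comap ((g : Ω ≃ₐ[k] Ω).symm : Ω →ₐ[k] Ω))
    (h2 : ∀ j, (M.bl P hP.stab N).At (c, ε) φ j →
      (M.bl P hP.stab N).π g j ∈ (M.bl P hP.stab N).S (c₁, ε₁) ∧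
      ¬ Un ((M.bl P hP.stab N).O (c, ε) φ)
        ((g : Ω ≃ₐ[k] Ω).symm ((M.bl P hP.stab N).x (c₁, ε₁) ((M.bl P hP.stab N).π g j) : Ω))) :
    ∃ c', ∃ φ' : (M.bl P hP.stab N).R c' →ₐ[k] k,
      (∀ a ∈ (M.bl P hP.stab N).O c' φ',
        ((g : Ω ≃ₐ[k] Ω)).symm a ∈ (M.bl P hP.stab N).O (c, ε) φ) ∧
      ∀ j, (M.bl P hP.stab N).At (c, ε) φ j →
        (M.bl P hP.stab N).At c' φ' ((M.bl P hP.stab N).π g j) := by
  obtain ⟨φ', -, h4⟩ := (BlE_isPt (g : Ω ≃ₐ[k] Ω) _ (isPt_loc φ)).exists_loc _ h1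
  refine ⟨(c₁, ε₁), φ', fun a ha => h4 ha, fun j hj => ⟨(h2 j hj).1, fun hu => ?_⟩⟩
  exact (h2 j hj).2 ((BlE_symm _ _ _).1 (hu.mono h4))

end aux

/-- PROOF. Let `φ'` be a point of the chart `(c, ε)`, with local ring `O'`, `φ` the point of `c`
under it, `(c₁, φ₁)` a point of `M` with local ring `O₁ = g O c φ`. `g O'` is a local ring with
residue field `k`, containing `O₁`.
Case 1: `pr c = some p` and both labels of `p` pass through `φ`. Then `g p = (π g p.1, π g p.2)` is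
the pair on `c₁`, and `x c₁ (g hi) / x c₁ (g lo)` is a unit of `O₁` times `g (x c hi / x c lo)`
(`g_x`), so `R' (c₁, ε) ≤ g O'`; take the point under `g O'` (`exists_loc`).
Case 2: otherwise `O' = O c φ` (`bl_pt_eq`), `g O' = O₁`; if `pr c₁ = some q` then the labels of
`q` do not both pass through `φ₁` (otherwise those of `g⁻¹ q` both pass through `φ`, so they are in
`S c`, so `g⁻¹ q = p`): choose `ε₁` such that `x c₁ lo` is a unit of `O₁`; then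
`R' (c₁, ε₁) ≤ O₁`, and the point under `O₁` has local ring `≤ O₁`. -/
theorem bl_eqH [IsAlgClosed k] [CharZero k] (h : M.Ok0 n) (hJ : M.EqJ) (he : M.EqP) :
    (M.bl P hP.stab N).EqH := by
  classical
  rintro g ⟨c, ε⟩ φ
  obtain ⟨ψ, hψ1, hψ2⟩ := bl_pt hP N c ε φ
  obtain ⟨c₁, φ₁, h1, h2⟩ := he g c ψ
  have hO'pt : IsPt ((M.bl P hP.stab N).O (c, ε) φ) := isPt_loc φ
  have hO1 : ∀ a ∈ M.O c₁ φ₁, (g : Ω ≃ₐ[k] Ω).symm a ∈ (M.bl P hP.stab N).O (c, ε) φ := by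
    intro a ha
    refine hψ1 ((h1 _).2 ?_)
    rwa [AlgEquiv.apply_symm_apply]
  have hU1 : ∀ a, Un (M.O c₁ φ₁) a →
      Un ((M.bl P hP.stab N).O (c, ε) φ) ((g : Ω ≃ₐ[k] Ω).symm a) := by
    intro a ha
    refine ⟨(map_ne_zero _).2 ha.1, hO1 a ha.2.1, ?_⟩
    rw [← map_inv₀]
    exact hO1 _ ha.2.2
  -- local equations
  have hx : ∀ j, M.At c ψ j → Un ((M.bl P hP.stab N).O (c, ε) φ)
      ((M.x c j : Ω) / (g : Ω ≃ₐ[k] Ω).symm (M.x c₁ (M.π g j) : Ω)) := by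
    intro j hj
    have h3 := hU1 _ (h.toOkV.g_x hJ g c c₁ ψ φ₁ h1 h2 j hj)
    rwa [map_div₀, AlgEquiv.symm_apply_apply] at h3
  have hR1 : M.R c₁ ≤
      ((M.bl P hP.stab N).O (c, ε) φ).comap ((g : Ω ≃ₐ[k] Ω).symm : Ω →ₐ[k] Ω) :=
    fun a ha => hO1 a (le_loc φ₁ ha)
  by_cases hc : ∃ p, M.pr P c = some p ∧ M.At c ψ p.1.1 ∧ M.At c ψ p.1.2
  · obtain ⟨p, hp, hp1, hp2⟩ := hc
    have hpr : M.pr P c₁ = some (prPerm hP.stab g p) :=
      pr_eq hP c₁ (prPerm hP.stab g p) ((h2 _).1 hp1).1 ((h2 _).1 hp2).1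
    have hlo : M.At c ψ (lo p ε) := by
      cases ε
      · exact hp2
      · exact hp1
    have hhi : M.At c ψ (hi p ε) := by
      cases ε
      · exact hp1
      · exact hp2
    -- the function `u`
    have hu0 : (M.x c (hi p ε) / M.x c (lo p ε) : Ω) ∈ (M.bl P hP.stab N).O (c, ε) φ := by
      refine le_loc φ ?_
      rw [BlE_R_some hP N c ε p hp]
      exact (le_sup_right : Algebra.adjoin k {(M.x c (hi p ε) / M.x c (lo p ε) : Ω)} ≤ _)
        (Algebra.subset_adjoin (Set.mem_singleton _))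
    have hu1 : Un ((M.bl P hP.stab N).O (c, ε) φ) ((M.x c (hi p ε) / M.x c (lo p ε) : Ω) /
        (g : Ω ≃ₐ[k] Ω).symm (M.x c₁ (M.π g (hi p ε)) / M.x c₁ (M.π g (lo p ε)) : Ω)) := by
      have h3 := (hx _ hhi).mul (hx _ hlo).inv
      rw [map_div₀]
      have h4 : (g : Ω ≃ₐ[k] Ω).symm (M.x c₁ (M.π g (hi p ε)) : Ω) ≠ 0 :=
        (map_ne_zero _).2 (M.x c₁ (M.π g (hi p ε))).ne_zero
      have h5 : (g : Ω ≃ₐ[k] Ω).symm (M.x c₁ (M.π g (lo p ε)) : Ω) ≠ 0 :=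
        (map_ne_zero _).2 (M.x c₁ (M.π g (lo p ε))).ne_zero
      have h6 := (M.x c (hi p ε)).ne_zero
      have h7 := (M.x c (lo p ε)).ne_zero
      have h8 : (M.x c (hi p ε) / M.x c (lo p ε) : Ω) /
          ((g : Ω ≃ₐ[k] Ω).symm (M.x c₁ (M.π g (hi p ε)) : Ω) /
            (g : Ω ≃ₐ[k] Ω).symm (M.x c₁ (M.π g (lo p ε)) : Ω)) =
          (M.x c (hi p ε) : Ω) / (g : Ω ≃ₐ[k] Ω).symm (M.x c₁ (M.π g (hi p ε)) : Ω) *
          ((M.x c (lo p ε) : Ω) / (g : Ω ≃ₐ[k] Ω).symm (M.x c₁ (M.π g (lo p ε)) : Ω))⁻¹ := by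
        field_simp
      rw [h8]
      exact h3
    have hu2 : (g : Ω ≃ₐ[k] Ω).symm (M.x c₁ (M.π g (hi p ε)) / M.x c₁ (M.π g (lo p ε)) : Ω) ∈
        (M.bl P hP.stab N).O (c, ε) φ := by
      have h3 : (g : Ω ≃ₐ[k] Ω).symm (M.x c₁ (M.π g (hi p ε)) / M.x c₁ (M.π g (lo p ε)) : Ω) =
          (M.x c (hi p ε) / M.x c (lo p ε) : Ω) * ((M.x c (hi p ε) / M.x c (lo p ε) : Ω) /
          (g : Ω ≃ₐ[k] Ω).symm (M.x c₁ (M.π g (hi p ε)) / M.x c₁ (M.π g (lo p ε)) : Ω))⁻¹ := by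
        have h4 := (M.x c (hi p ε)).ne_zero
        have h5 := (M.x c (lo p ε)).ne_zero
        rw [inv_div, mul_div_cancel₀ _ (div_ne_zero h4 h5)]
      rw [h3]
      exact mul_mem hu0 hu1.2.2
    refine BlE_key hP N g c c₁ ε ε φ ?_ ?_
    · rw [BlE_R_some hP N c₁ ε _ hpr]
      refine sup_le hR1 (Algebra.adjoin_le (Set.singleton_subset_iff.2 ?_))
      rw [BlE_lo hP, BlE_hi hP]
      exact hu2
    · rintro (i | q) hj
      · show (Sum.inl (M.π g i) : M.J ⊕ {p // p ∈ P}) ∈ (M.bl P hP.stab N).S (c₁, ε) ∧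
          ¬ Un ((M.bl P hP.stab N).O (c, ε) φ) ((g : Ω ≃ₐ[k] Ω).symm
            ((M.bl P hP.stab N).x (c₁, ε) (Sum.inl (M.π g i) : M.J ⊕ {p // p ∈ P}) : Ω))
        have hj1 := (BlE_S_some hP N c ε p hp i).1 hj.1
        have hj2 : ¬ Un ((M.bl P hP.stab N).O (c, ε) φ)
          ((M.bl P hP.stab N).x (c, ε) (Sum.inl i : M.J ⊕ {p // p ∈ P}) : Ω) := hj.2
        by_cases hih : i = hi p ε
        · subst hih
          refine ⟨?_, ?_⟩
          · rw [BlE_S_some hP N c₁ ε _ hpr, BlE_lo hP]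
            exact ⟨fun h3 => hj1.1 ((M.π g).injective h3), ((h2 _).1 hhi).1⟩
          · have h3 := BlE_x_hi hP N c₁ ε _ hpr
            rw [BlE_lo hP, BlE_hi hP] at h3
            rw [h3, Units.val_div_eq_div_val, ← BlE_un_div hu1]
            rw [BlE_x_hi hP N c ε p hp, Units.val_div_eq_div_val] at hj2
            exact hj2
        · rw [BlE_x_ne hP N c ε p hp i hih] at hj2
          have hat : M.At c ψ i := ⟨hj1.2, fun hu => hj2 (hu.mono hψ1)⟩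
          refine ⟨?_, ?_⟩
          · rw [BlE_S_some hP N c₁ ε _ hpr, BlE_lo hP]
            exact ⟨fun h3 => hj1.1 ((M.π g).injective h3), ((h2 _).1 hat).1⟩
          · rw [BlE_x_ne hP N c₁ ε _ hpr _ (by
              rw [BlE_hi hP]
              exact fun h3 => hih ((M.π g).injective h3)), ← BlE_un_div (hx _ hat)]
            exact hj2
      · show (Sum.inr (prPerm hP.stab g q) : M.J ⊕ {p // p ∈ P}) ∈
            (M.bl P hP.stab N).S (c₁, ε) ∧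
          ¬ Un ((M.bl P hP.stab N).O (c, ε) φ) ((g : Ω ≃ₐ[k] Ω).symm
            ((M.bl P hP.stab N).x (c₁, ε)
              (Sum.inr (prPerm hP.stab g q) : M.J ⊕ {p // p ∈ P}) : Ω))
        have hj1 := (BlE_S_some' hP N c ε p hp q).1 hj.1
        have hj2 : ¬ Un ((M.bl P hP.stab N).O (c, ε) φ)
          ((M.bl P hP.stab N).x (c, ε) (Sum.inr q : M.J ⊕ {p // p ∈ P}) : Ω) := hj.2
        subst hj1
        rw [BlE_x_inr hP N c ε q hp] at hj2
        refine ⟨(BlE_S_some' hP N c₁ ε _ hpr _).2 rfl, ?_⟩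
        rw [BlE_x_inr hP N c₁ ε _ hpr, BlE_lo hP, ← BlE_un_div (hx _ hlo)]
        exact hj2
  · have hc' : ∀ p, M.pr P c = some p → ¬ (M.At c ψ p.1.1 ∧ M.At c ψ p.1.2) :=
      fun p hp h3 => hc ⟨p, hp, h3⟩
    obtain ⟨heq, hlo⟩ := bl_pt_eq hP N h.toOkV c ε φ ψ hψ1 hc'
    -- the labels through the point
    have hlab : ∀ j, (M.bl P hP.stab N).At (c, ε) φ j → ∃ i, j = Sum.inl i ∧ M.At c ψ i := by
      rintro (i | q) hj
      · refine ⟨i, rfl, ?_⟩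
        have hj2 : ¬ Un ((M.bl P hP.stab N).O (c, ε) φ)
          ((M.bl P hP.stab N).x (c, ε) (Sum.inl i : M.J ⊕ {p // p ∈ P}) : Ω) := hj.2
        rcases hpc : M.pr P c with _ | p
        · rw [BlE_x_none hP N c ε hpc, heq] at hj2
          exact ⟨(BlE_S_none hP N c ε hpc i).1 hj.1, hj2⟩
        · have hj1 := (BlE_S_some hP N c ε p hpc i).1 hj.1
          refine ⟨hj1.2, fun hu => hj2 ?_⟩
          rw [heq]
          by_cases hih : i = hi p ε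
          · subst hih
            rw [BlE_x_hi hP N c ε p hpc, Units.val_div_eq_div_val, div_eq_mul_inv]
            exact hu.mul (hlo p hpc).inv
          · rw [BlE_x_ne hP N c ε p hpc i hih]
            exact hu
      · exfalso
        have hj2 : ¬ Un ((M.bl P hP.stab N).O (c, ε) φ)
          ((M.bl P hP.stab N).x (c, ε) (Sum.inr q : M.J ⊕ {p // p ∈ P}) : Ω) := hj.2
        rcases hpc : M.pr P c with _ | p
        · exact BlE_S_none' hP N c ε hpc q hj.1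
        · apply hj2
          rw [BlE_x_inr hP N c ε p hpc, heq]
          exact hlo p hpc
    rcases hpc : M.pr P c₁ with _ | q
    · refine BlE_key hP N g c c₁ ε ε φ ?_ ?_
      · rw [BlE_R_none hP N c₁ ε hpc]
        exact hR1
      · intro j hj
        obtain ⟨i, rfl, hi1⟩ := hlab j hj
        show (Sum.inl (M.π g i) : M.J ⊕ {p // p ∈ P}) ∈ (M.bl P hP.stab N).S (c₁, ε) ∧
          ¬ Un ((M.bl P hP.stab N).O (c, ε) φ) ((g : Ω ≃ₐ[k] Ω).symm
            ((M.bl P hP.stab N).x (c₁, ε) (Sum.inl (M.π g i) : M.J ⊕ {p // p ∈ P}) : Ω))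
        rw [BlE_S_none hP N c₁ ε hpc, BlE_x_none hP N c₁ ε hpc, ← BlE_un_div (hx _ hi1), heq]
        exact ⟨((h2 i).1 hi1).1, hi1.2⟩
    · -- choose the chart
      have hq : ∃ ε₁ : Bool, Un (M.O c₁ φ₁) (M.x c₁ (lo q ε₁) : Ω) := by
        obtain ⟨hq1, hq2⟩ := pr_some c₁ q hpc
        by_contra hne
        push Not at hne
        have h3 : M.At c₁ φ₁ q.1.1 := ⟨hq1, hne true⟩
        have h4 : M.At c₁ φ₁ q.1.2 := ⟨hq2, hne false⟩
        have e1 : M.π g (M.π g⁻¹ q.1.1) = q.1.1 := by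
          rw [← Equiv.Perm.mul_apply, ← map_mul, mul_inv_cancel, map_one, Equiv.Perm.one_apply]
        have e2 : M.π g (M.π g⁻¹ q.1.2) = q.1.2 := by
          rw [← Equiv.Perm.mul_apply, ← map_mul, mul_inv_cancel, map_one, Equiv.Perm.one_apply]
        have h5 : M.At c ψ (M.π g⁻¹ q.1.1) := (h2 _).2 (by rw [e1]; exact h3)
        have h6 : M.At c ψ (M.π g⁻¹ q.1.2) := (h2 _).2 (by rw [e2]; exact h4)
        exact hc' (prPerm hP.stab g⁻¹ q) (pr_eq hP c (prPerm hP.stab g⁻¹ q) h5.1 h6.1) ⟨h5, h6⟩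
      obtain ⟨ε₁, hε₁⟩ := hq
      refine BlE_key hP N g c c₁ ε ε₁ φ ?_ ?_
      · rw [BlE_R_some hP N c₁ ε₁ q hpc]
        refine sup_le hR1 (Algebra.adjoin_le (Set.singleton_subset_iff.2 ?_))
        refine hO1 _ ?_
        have hq' : hi q ε₁ ∈ M.S c₁ := by
          cases ε₁
          · exact (pr_some c₁ q hpc).1
          · exact (pr_some c₁ q hpc).2
        rw [div_eq_mul_inv]
        exact mul_mem (le_loc φ₁ (h.x_R c₁ _ hq')) hε₁.2.2
      · intro j hj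
        obtain ⟨i, rfl, hi1⟩ := hlab j hj
        show (Sum.inl (M.π g i) : M.J ⊕ {p // p ∈ P}) ∈ (M.bl P hP.stab N).S (c₁, ε₁) ∧
          ¬ Un ((M.bl P hP.stab N).O (c, ε) φ) ((g : Ω ≃ₐ[k] Ω).symm
            ((M.bl P hP.stab N).x (c₁, ε₁) (Sum.inl (M.π g i) : M.J ⊕ {p // p ∈ P}) : Ω))
        have hat := (h2 i).1 hi1
        have hne : M.π g i ≠ lo q ε₁ := by
          intro h3
          apply hat.2
          rw [h3]
          exact hε₁
        refine ⟨(BlE_S_some hP N c₁ ε₁ q hpc _).2 ⟨hne, hat.1⟩, ?_⟩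
        have hnu : ¬ Un ((M.bl P hP.stab N).O (c, ε) φ)
            ((g : Ω ≃ₐ[k] Ω).symm (M.x c₁ (M.π g i) : Ω)) := by
          rw [← BlE_un_div (hx _ hi1), heq]
          exact hi1.2
        by_cases hih : M.π g i = hi q ε₁
        · rw [hih, BlE_x_hi hP N c₁ ε₁ q hpc, Units.val_div_eq_div_val, map_div₀]
          rw [hih] at hnu
          intro hu
          exact hnu ((BlE_un_div hu).2 (hU1 _ hε₁))
        · rw [BlE_x_ne hP N c₁ ε₁ q hpc _ hih]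
          exact hnu

end Mdl

end Pool.Agent.KMR
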