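import Pool.Agent.Lib.MP_732f67_ag.R.BlA2

/-!
The blow-up: parameters and deep points.
-/

namespace Pool.Agent.KMR

variable {k Ω : Type} [Field k] [Field Ω] [Algebra k Ω]

section ideal

variable {O : Subalgebra k Ω} {n : ℕ} (z : Fin n → Ω)

/-- the `O`-combinations of the `z i` -/
def blI (O : Subalgebra k Ω) (z : Fin n → Ω) (r : Ω) : Prop :=
  ∃ a : Fin n → Ω, (∀ i, a i ∈ O) ∧ r = ∑ i, a i * z i

variable {z}

theorem blI_add {r s : Ω} (hr : blI O z r) (hs : blI O z s) : blI O z (r + s) := by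
  obtain ⟨a, ha, rfl⟩ := hr
  obtain ⟨b, hb, rfl⟩ := hs
  refine ⟨fun i => a i + b i, fun i => O.add_mem (ha i) (hb i), ?_⟩
  rw [← Finset.sum_add_distrib]
  exact Finset.sum_congr rfl fun i _ => by ring

theorem blI_mul {r s : Ω} (hs : s ∈ O) (hr : blI O z r) : blI O z (s * r) := by
  obtain ⟨a, ha, rfl⟩ := hr
  refine ⟨fun i => s * a i, fun i => O.mul_mem hs (ha i), ?_⟩
  rw [Finset.mul_sum]
  exact Finset.sum_congr rfl fun i _ => by ring

theorem blI_gen (i : Fin n) : blI O z (z i) := by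
  classical
  refine ⟨fun l => if l = i then 1 else 0, fun l => ?_, ?_⟩
  · change (if l = i then (1 : Ω) else 0) ∈ O
    split_ifs
    · exact O.one_mem
    · exact O.zero_mem
  · simp

theorem blI_zero : blI O z 0 := ⟨fun _ => 0, fun _ => O.zero_mem, by simp⟩

theorem blI_sum {m : ℕ} (f : Fin m → Ω) (hf : ∀ i, blI O z (f i)) : blI O z (∑ i, f i) :=
  Finset.sum_induction f (blI O z) (fun _ _ => blI_add) blI_zero fun i _ => hf i

/-- the elements of `O` congruent to a constant modulo the `z i` -/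
def blA (O : Subalgebra k Ω) (z : Fin n → Ω) : Subalgebra k Ω where
  carrier := {a | a ∈ O ∧ ∃ s : k, blI O z (a - algebraMap k Ω s)}
  mul_mem' := by
    rintro a b ⟨ha, s, hs⟩ ⟨hb, t, ht⟩
    refine ⟨O.mul_mem ha hb, s * t, ?_⟩
    have h1 : a * b - algebraMap k Ω (s * t) =
        a * (b - algebraMap k Ω t) + algebraMap k Ω t * (a - algebraMap k Ω s) := by
      rw [map_mul]
      ring
    rw [h1]
    exact blI_add (blI_mul ha ht) (blI_mul (O.algebraMap_mem t) hs)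
  add_mem' := by
    rintro a b ⟨ha, s, hs⟩ ⟨hb, t, ht⟩
    refine ⟨O.add_mem ha hb, s + t, ?_⟩
    have h1 : a + b - algebraMap k Ω (s + t) =
        (a - algebraMap k Ω s) + (b - algebraMap k Ω t) := by
      rw [map_add]
      ring
    rw [h1]
    exact blI_add hs ht
  algebraMap_mem' s := ⟨O.algebraMap_mem s, s, by rw [sub_self]; exact blI_zero⟩

/-- parameters from a subalgebra -/
theorem blPar {R : Subalgebra k Ω} (φ : R →ₐ[k] k) {n : ℕ} {z : Fin n → Ω}
    (hz : ∀ i, z i ∈ Loc R φ ∧ ¬ Un (Loc R φ) (z i)) (h : R ≤ blA (Loc R φ) z) :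
    Par (Loc R φ) z := by
  refine par_of_loc φ hz fun r hr => ?_
  obtain ⟨hrO, s, a, ha, hs⟩ := h r.2
  have h1 : s = 0 := by
    by_contra hne
    have h2 : ¬ Un (Loc R φ) (∑ i, a i * z i) := by
      refine (isPt_loc φ).sum _ _ fun i _ => ⟨(Loc R φ).mul_mem (ha i) (hz i).1, ?_⟩
      rw [mul_comm]
      exact (isPt_loc φ).mul _ _ (hz i).1 (ha i) (hz i).2
    have h3 : φ (r - algebraMap k R s) ≠ 0 := by
      rw [map_sub, hr, AlgHom.commutes, zero_sub]
      exact neg_ne_zero.2 hne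
    rw [← hs] at h2
    exact h2 ((un_loc φ (r - algebraMap k R s)).2 h3)
  rw [h1, map_zero, sub_zero] at hs
  exact ⟨a, ha, hs⟩

end ideal

namespace Mdl

variable {G : Subgroup (Ω ≃ₐ[k] Ω)} {M : Mdl k Ω G} {n : ℕ} {P : Finset (M.J × M.J)}

theorem OkV.x_inj (h : M.OkV) (c : M.ι) (i j : M.J) (hi : i ∈ M.S c) (hj : j ∈ M.S c)
    (he : (M.x c i : Ω) = M.x c j) : i = j := by
  by_contra hne
  have h1 := h.v_x c i hi
  rw [Units.ext he, h.v_x' c i hi j hj hne] at h1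
  exact zero_ne_one h1

variable (hP : M.Ctr P) (N : ℕ)

theorem blP_off (h : M.OkV) (hp : M.OkP n) (c : M.ι) (ε : Bool)
    (φ : (M.bl P hP.stab N).R (c, ε) →ₐ[k] k) (ψ : M.R c →ₐ[k] k)
    (he : (M.bl P hP.stab N).O (c, ε) φ = M.O c ψ)
    (hu : ∀ p, M.pr P c = some p → Un (M.O c ψ) (M.x c (lo p ε) : Ω)) :
    ∃ z : Fin n → Ω, Par ((M.bl P hP.stab N).O (c, ε) φ) z ∧
      ∀ j, (M.bl P hP.stab N).At (c, ε) φ j → ∃ i, z i = (M.bl P hP.stab N).x (c, ε) j := by
  obtain ⟨z, hz, hzx⟩ := hp.par c ψ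
  rw [he]
  have hAt : ∀ j, (M.bl P hP.stab N).At (c, ε) φ j → j ∈ (M.bl P hP.stab N).S (c, ε) ∧
      ¬ Un (M.O c ψ) ((M.bl P hP.stab N).x (c, ε) j) := by
    intro j hj
    rw [← he]
    exact hj
  cases hc : M.pr P c with
  | none =>
    refine ⟨z, hz, fun j hj => ?_⟩
    obtain ⟨hj1, hj2⟩ := hAt j hj
    rcases j with i | q
    · rw [bl_x_none hP.stab N c ε hc] at hj2 ⊢
      exact hzx i ⟨(bl_S_none_inl hP.stab N c ε hc i).1 hj1, hj2⟩
    · exact absurd hj1 (bl_S_none_inr hP.stab N c ε hc q)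
  | some p =>
    have hul := hu p hc
    by_cases hh : M.At c ψ (hi p ε)
    · obtain ⟨i0, hi0⟩ := hzx _ hh
      classical
      let e : Fin n → Ω := fun i => if i = i0 then (M.x c (lo p ε) : Ω)⁻¹ else 1
      refine ⟨fun i => e i * z i, hz.smul (isPt_loc ψ) e fun i => ?_, fun j hj => ?_⟩
      · change Un _ (if i = i0 then (M.x c (lo p ε) : Ω)⁻¹ else 1)
        split_ifs
        · exact hul.inv
        · exact Un.one _
      · obtain ⟨hj1, hj2⟩ := hAt j hj
        rcases j with i | q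
        · by_cases hi' : i = hi p ε
          · refine ⟨i0, ?_⟩
            rw [hi', bl_x_hi hP.stab N c ε hc]
            change (if i0 = i0 then (M.x c (lo p ε) : Ω)⁻¹ else 1) * z i0 = _
            rw [if_pos rfl, hi0, Units.val_div_eq_div_val, div_eq_mul_inv, mul_comm]
          · rw [bl_x_ne hP.stab N c ε hc i hi'] at hj2 ⊢
            have hiS := ((bl_S_some_inl hP.stab N c ε hc i).1 hj1).2
            obtain ⟨l, hl⟩ := hzx i ⟨hiS, hj2⟩
            refine ⟨l, ?_⟩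
            have hne : l ≠ i0 := by
              intro e0
              apply hi'
              rw [e0, hi0] at hl
              exact h.x_inj c _ _ hiS hh.1 hl.symm
            change (if l = i0 then (M.x c (lo p ε) : Ω)⁻¹ else 1) * z l = _
            rw [if_neg hne, one_mul, hl]
        · rw [bl_x_inr hP.stab N c ε hc] at hj2
          exact absurd hul hj2
    · refine ⟨z, hz, fun j hj => ?_⟩
      obtain ⟨hj1, hj2⟩ := hAt j hj
      rcases j with i | q
      · by_cases hi' : i = hi p ε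
        · exfalso
          rw [hi', bl_x_hi hP.stab N c ε hc] at hj2
          apply hj2
          rw [Units.val_div_eq_div_val, div_eq_mul_inv]
          refine Un.mul ?_ hul.inv
          by_contra hn
          exact hh ⟨hi_S c p hc ε, hn⟩
        · rw [bl_x_ne hP.stab N c ε hc i hi'] at hj2 ⊢
          exact hzx i ⟨((bl_S_some_inl hP.stab N c ε hc i).1 hj1).2, hj2⟩
      · rw [bl_x_inr hP.stab N c ε hc] at hj2
        exact absurd hul hj2

theorem blP_on (h : M.OkV) (hp : M.OkP n) (c : M.ι) (ε : Bool)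
    (φ : (M.bl P hP.stab N).R (c, ε) →ₐ[k] k) (ψ : M.R c →ₐ[k] k)
    (hle : M.O c ψ ≤ (M.bl P hP.stab N).O (c, ε) φ) (p : {p // p ∈ P}) (hc : M.pr P c = some p)
    (hlo : M.At c ψ (lo p ε)) (hhi : M.At c ψ (hi p ε)) :
    ∃ z : Fin n → Ω, Par ((M.bl P hP.stab N).O (c, ε) φ) z ∧
      ∀ j, (M.bl P hP.stab N).At (c, ε) φ j → ∃ i, z i = (M.bl P hP.stab N).x (c, ε) j := by
  classical
  obtain ⟨z, hz, hzx⟩ := hp.par c ψ
  obtain ⟨i0, hi0⟩ := hzx _ hlo
  obtain ⟨j0, hj0⟩ := hzx _ hhi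
  have hne : i0 ≠ j0 := by
    intro e0
    rw [e0, hj0] at hi0
    exact hi_ne hP p ε (h.x_inj c _ _ hhi.1 hlo.1 hi0)
  have hdom := (isPt_loc ψ).dom (isPt_loc φ) hle
  set O' := (M.bl P hP.stab N).O (c, ε) φ with hO'
  set u : Ω := (M.x c (hi p ε) / M.x c (lo p ε) : Ω) with hu
  have huR : u ∈ (M.bl P hP.stab N).R (c, ε) := bl_div_mem hP.stab N c ε hc
  set e : k := φ ⟨u, huR⟩ with he
  have hux : z j0 = u * z i0 := by
    rw [hj0, hi0, hu, div_mul_cancel₀ _ (M.x c (lo p ε)).ne_zero]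
  have huO : u ∈ O' := le_loc φ huR
  have hue : ¬ Un O' (u - algebraMap k Ω e) := fun hun => by
    have h1 := (un_loc φ (⟨u, huR⟩ - algebraMap k _ e)).1 hun
    rw [map_sub, AlgHom.commutes] at h1
    exact h1 (sub_self _)
  let z' : Fin n → Ω := Function.update z j0 (u - algebraMap k Ω e)
  have hz'0 : z' j0 = u - algebraMap k Ω e := Function.update_self _ _ _
  have hz'1 : ∀ i, i ≠ j0 → z' i = z i := fun i hi => Function.update_of_ne hi _ _
  have hI : ∀ i, blI O' z' (z i) := by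
    intro i
    by_cases hi' : i = j0
    · rw [hi', hux, ← hz'1 i0 hne]
      exact blI_mul huO (blI_gen i0)
    · rw [← hz'1 i hi']
      exact blI_gen i
  refine ⟨z', blPar φ (fun i => ?_) (bl_R_le hP.stab N c ε _ ?_ ?_), ?_⟩
  · by_cases hi' : i = j0
    · rw [hi', hz'0]
      exact ⟨O'.sub_mem huO (O'.algebraMap_mem e), hue⟩
    · rw [hz'1 i hi']
      exact ⟨hle (hz.1 i).1, fun hun => (hz.1 i).2 (hdom _ (hz.1 i).1 hun)⟩
  · intro r hr
    have hrO : r ∈ M.O c ψ := le_loc ψ hr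
    obtain ⟨s, hs⟩ := (isPt_loc ψ).res r hrO
    obtain ⟨a, ha, hra⟩ := hz.2 _ ((M.O c ψ).sub_mem hrO ((M.O c ψ).algebraMap_mem s)) hs
    refine ⟨hle hrO, s, ?_⟩
    rw [hra]
    exact blI_sum _ fun i => blI_mul (hle (ha i)) (hI i)
  · intro q hq
    rw [hc] at hq
    rw [← Option.some.inj hq]
    refine ⟨huO, e, ?_⟩
    rw [← hz'0]
    exact blI_gen j0
  · rintro (i | q) ⟨hj1, hj2⟩
    · obtain ⟨hil, hiS⟩ := (bl_S_some_inl hP.stab N c ε hc i).1 hj1
      by_cases hi' : i = hi p ε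
      · refine ⟨j0, ?_⟩
        rw [hi', bl_x_hi hP.stab N c ε hc, Units.val_div_eq_div_val] at hj2 ⊢
        have h1 : e = 0 := by
          by_contra hne0
          exact hj2 ((un_loc φ ⟨u, huR⟩).2 hne0)
        rw [hz'0, h1, map_zero, sub_zero]
      · rw [bl_x_ne hP.stab N c ε hc i hi'] at hj2 ⊢
        obtain ⟨l, hl⟩ := hzx i ⟨hiS, fun hun => hj2 (hun.mono hle)⟩
        refine ⟨l, ?_⟩
        rw [hz'1 l, hl]
        intro e0
        apply hi'
        rw [e0, hj0] at hl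
        exact h.x_inj c _ _ hiS hhi.1 hl.symm
    · refine ⟨i0, ?_⟩
      rw [bl_x_inr hP.stab N c ε hc, hz'1 i0 hne, hi0]

theorem bl_okP (h : M.OkV) (hp : M.OkP n) : (M.bl P hP.stab N).OkP n := by
  refine ⟨?_⟩
  rintro ⟨c, ε⟩ φ
  obtain ⟨ψ, h1, h2⟩ := bl_pt hP N c ε φ
  by_cases h3 : ∀ p, M.pr P c = some p → ¬ (M.At c ψ p.1.1 ∧ M.At c ψ p.1.2)
  · obtain ⟨h4, h5⟩ := bl_pt_eq hP N h c ε φ ψ h1 h3
    exact blP_off hP N h hp c ε φ ψ h4 h5
  · push Not at h3
    obtain ⟨p, hc, h4, h5⟩ := h3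
    rcases lohi p ε with ⟨e1, e2⟩ | ⟨e1, e2⟩
    · exact blP_on hP N h hp c ε φ ψ h1 p hc (e1 ▸ h4) (e2 ▸ h5)
    · exact blP_on hP N h hp c ε φ ψ h1 p hc (e1 ▸ h5) (e2 ▸ h4)

end Mdl

end Pool.Agent.KMR
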