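import Pool.Agent.Lib.MP_732f67_ag.R.BlA

/-!
The blow-up: projectivity.
-/

namespace Pool.Agent.KMR

variable {k Ω : Type} [Field k] [Field Ω] [Algebra k Ω]

namespace Mdl

variable {G : Subgroup (Ω ≃ₐ[k] Ω)} {M : Mdl k Ω G} {n : ℕ} {P : Finset (M.J × M.J)}

/-- the ring of the chart `(c, ε)` of the blow-up -/
noncomputable def blR (M : Mdl k Ω G) (P : Finset (M.J × M.J)) (c : M.ι) (ε : Bool) :
    Subalgebra k Ω :=
  (M.pr P c).elim (M.R c) (fun p =>
    M.R c ⊔ Algebra.adjoin k {(M.x c (hi p ε) / M.x c (lo p ε) : Ω)})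

/-- the local equation of the exceptional divisor on the chart `(c, ε)` of the blow-up, or `1` -/
noncomputable def blT (M : Mdl k Ω G) (P : Finset (M.J × M.J)) (c : M.ι) (ε : Bool) : Ωˣ :=
  (M.pr P c).elim 1 (fun p => M.x c (lo p ε))

/-- `a` is regular on the part `s c' ≠ 0` of the chart `(c, ε)` of the blow-up -/
def BLo (M : Mdl k Ω G) (P : Finset (M.J × M.J)) (c : M.ι) (ε : Bool) (c' : M.ι) (a : Ω) : Prop :=
  ∃ K : ℕ, a * (M.s c' / M.s c : Ω) ^ K ∈ M.blR P c ε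

theorem blS_le (c : M.ι) (ε : Bool) : M.R c ≤ M.blR P c ε := by
  unfold blR
  cases M.pr P c with
  | none => exact le_rfl
  | some p => exact le_sup_left

theorem blS_gen {c : M.ι} {ε : Bool} {p : {p // p ∈ P}} (hp : M.pr P c = some p) :
    (M.x c (hi p ε) / M.x c (lo p ε) : Ω) ∈ M.blR P c ε := by
  unfold blR
  rw [hp]
  exact (le_sup_right : _ ≤ M.R c ⊔ Algebra.adjoin k {(M.x c (hi p ε) / M.x c (lo p ε) : Ω)})
    (Algebra.subset_adjoin rfl)

theorem blS_T_none {c : M.ι} {ε : Bool} (hp : M.pr P c = none) : M.blT P c ε = 1 := by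
  unfold blT
  rw [hp]
  rfl

theorem blS_T_some {c : M.ι} {ε : Bool} {p : {p // p ∈ P}} (hp : M.pr P c = some p) :
    M.blT P c ε = M.x c (lo p ε) := by
  unfold blT
  rw [hp]
  rfl

theorem blS_lo_mem {c : M.ι} {p : {p // p ∈ P}} (hp : M.pr P c = some p) (ε : Bool) :
    lo p ε ∈ M.S c := by
  obtain ⟨h1, h2⟩ := pr_some c p hp
  cases ε with
  | true => exact h1
  | false => exact h2

theorem blS_hi_mem {c : M.ι} {p : {p // p ∈ P}} (hp : M.pr P c = some p) (ε : Bool) :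
    hi p ε ∈ M.S c := by
  obtain ⟨h1, h2⟩ := pr_some c p hp
  cases ε with
  | true => exact h2
  | false => exact h1

theorem blS_hi_not (p : {p // p ∈ P}) (ε : Bool) : hi p (!ε) = lo p ε := by
  cases ε <;> rfl

theorem blS_lo_not (p : {p // p ∈ P}) (ε : Bool) : lo p (!ε) = hi p ε := by
  cases ε <;> rfl

theorem blS_eq_not (p : {p // p ∈ P}) {ε ε' : Bool} (h : lo p ε' ≠ lo p ε) : ε' = !ε := by
  cases ε with
  | true =>
    cases ε' with
    | true => exact absurd rfl h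
    | false => rfl
  | false =>
    cases ε' with
    | true => rfl
    | false => exact absurd rfl h

theorem blS_T_mem (h : M.OkV) (c : M.ι) (ε : Bool) : (M.blT P c ε : Ω) ∈ M.R c := by
  cases hp : M.pr P c with
  | none =>
    rw [blS_T_none hp, Units.val_one]
    exact (M.R c).one_mem
  | some p =>
    rw [blS_T_some hp]
    exact h.x_R c _ (blS_lo_mem hp ε)

theorem blS_T_Ψ (h : M.OkV) (c : M.ι) (ε : Bool) : M.blT P c ε ∈ M.Ψ := by
  cases hp : M.pr P c with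
  | none =>
    rw [blS_T_none hp]
    exact M.Ψ.one_mem
  | some p =>
    rw [blS_T_some hp]
    exact h.x_Ψ c _ (blS_lo_mem hp ε)

section lo

variable {c c' : M.ι} {ε : Bool}

theorem BLo.mono (hs : M.OkS) {a : Ω} {K K' : ℕ} (hK : K ≤ K')
    (h : a * (M.s c' / M.s c : Ω) ^ K ∈ M.blR P c ε) :
    a * (M.s c' / M.s c : Ω) ^ K' ∈ M.blR P c ε := by
  obtain ⟨d, rfl⟩ := Nat.exists_eq_add_of_le hK
  rw [pow_add, ← mul_assoc]
  exact (M.blR P c ε).mul_mem h ((M.blR P c ε).pow_mem (blS_le c ε (hs.s_mem c c')) d)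

theorem BLo.mul {a b : Ω} (ha : M.BLo P c ε c' a) (hb : M.BLo P c ε c' b) :
    M.BLo P c ε c' (a * b) := by
  obtain ⟨K, hK⟩ := ha
  obtain ⟨K', hK'⟩ := hb
  refine ⟨K + K', ?_⟩
  have h1 : a * b * (M.s c' / M.s c : Ω) ^ (K + K') =
      (a * (M.s c' / M.s c : Ω) ^ K) * (b * (M.s c' / M.s c : Ω) ^ K') := by
    rw [pow_add]
    ring
  rw [h1]
  exact (M.blR P c ε).mul_mem hK hK'

theorem BLo.of_mem {a : Ω} (ha : a ∈ M.blR P c ε) : M.BLo P c ε c' a :=
  ⟨0, by rwa [pow_zero, mul_one]⟩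

theorem BLo.of_loc {a : Ω} (ha : ∃ K : ℕ, a * (M.s c' / M.s c : Ω) ^ K ∈ M.R c) :
    M.BLo P c ε c' a := by
  obtain ⟨K, hK⟩ := ha
  exact ⟨K, blS_le c ε hK⟩

/-- local equations of a label on two charts -/
theorem BLo.quot (h : M.OkV) (hs : M.OkS) {i : M.J} (hi : i ∈ M.S c) (hi' : i ∈ M.S c') :
    M.BLo P c ε c' (M.x c' i / M.x c i : Ω) := by
  have h1 := h.x_Ψ c i hi
  have h2 := h.x_Ψ c' i hi'
  have h3 := psi_loc h hs c c' (M.x c' i * (M.x c i)⁻¹) (M.Ψ.mul_mem h2 (M.Ψ.inv_mem h1))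
    (fun j hj hj' => by
      rw [h.v_mul j _ h2 _ (M.Ψ.inv_mem h1), h.v_inv j _ h1]
      by_cases hij : j = i
      · rw [hij, h.v_x c i hi, h.v_x c' i hi']
        norm_num
      · rw [h.v_x' c j hj i hi hij, h.v_x' c' j hj' i hi' hij]
        norm_num)
  rw [Units.val_mul, Units.val_inv_eq_inv_val, ← div_eq_mul_inv] at h3
  exact BLo.of_loc h3

theorem BLo.inv_x (hs : M.OkS) {i : M.J} (hi : i ∈ M.S c) (hi' : i ∉ M.S c') :
    M.BLo P c ε c' (M.x c i : Ω)⁻¹ := by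
  obtain ⟨K, hK⟩ := hs.s_x c c' i hi hi'
  refine BLo.of_loc ⟨K, ?_⟩
  rwa [mul_comm, ← div_eq_mul_inv]

/-- the exceptional divisor does not meet the other chart -/
theorem BLo.inv_lo (hP : M.Ctr P) (hs : M.OkS) {p : {p // p ∈ P}}
    (hp : M.pr P c = some p) (hp' : M.pr P c' ≠ some p) :
    M.BLo P c ε c' (M.x c (lo p ε) : Ω)⁻¹ := by
  by_cases h1 : lo p ε ∈ M.S c'
  · have h2 : hi p ε ∉ M.S c' := by
      intro h2
      apply hp'
      cases ε with
      | true => exact pr_eq hP c' p h1 h2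
      | false => exact pr_eq hP c' p h2 h1
    have h3 := (BLo.inv_x (P := P) (ε := ε) hs (blS_hi_mem hp ε) h2).mul
      (BLo.of_mem (c' := c') (blS_gen (ε := ε) hp))
    have h4 : (M.x c (hi p ε) : Ω)⁻¹ * (M.x c (hi p ε) / M.x c (lo p ε)) =
        (M.x c (lo p ε) : Ω)⁻¹ := by
      have h5 := (M.x c (hi p ε)).ne_zero
      have h6 := (M.x c (lo p ε)).ne_zero
      field_simp
    rwa [h4] at h3
  · exact BLo.inv_x hs (blS_lo_mem hp ε) h1

/-- the sections `T` on two charts -/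
theorem BLo.aux (hP : M.Ctr P) (h : M.OkV) (hs : M.OkS) (ε' : Bool) :
    M.BLo P c ε c' ((M.blT P c' ε' : Ω) / M.blT P c ε) := by
  have h1 : M.BLo P c ε c' (M.blT P c' ε' : Ω) :=
    BLo.of_loc (hs.s_loc c' c _ (blS_T_mem h c' ε'))
  cases hp : M.pr P c with
  | none =>
    rw [blS_T_none hp, Units.val_one, div_one]
    exact h1
  | some p =>
    rw [blS_T_some hp]
    by_cases hp' : M.pr P c' = some p
    · rw [blS_T_some hp']
      by_cases hε : ε' = ε
      · rw [hε]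
        exact BLo.quot h hs (blS_lo_mem hp ε) (blS_lo_mem hp' ε)
      · have hε' : ε' = !ε := by
          cases ε <;> cases ε' <;> simp_all
        rw [hε', blS_lo_not]
        have h2 := (BLo.quot (P := P) (ε := ε) h hs (blS_hi_mem hp ε) (blS_hi_mem hp' ε)).mul
          (BLo.of_mem (c' := c') (blS_gen (ε := ε) hp))
        have h3 : (M.x c' (hi p ε) / M.x c (hi p ε) : Ω) * (M.x c (hi p ε) / M.x c (lo p ε)) =
            M.x c' (hi p ε) / M.x c (lo p ε) := div_mul_div_cancel₀ (M.x c (hi p ε)).ne_zero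
        rwa [h3] at h2
    · rw [div_eq_mul_inv]
      exact h1.mul (BLo.inv_lo hP hs hp hp')

end lo

variable (hP : M.Ctr P)

/-- Let `t c ε = x c lo` if `pr c = some p` and `1` otherwise, so `s' (c, ε) = s c ^ N * t c ε`.
For all charts `t c' ε' / t c ε * (s c' / s c) ^ N` is in `R' (c, ε)` for large `N`.
PROOF. Let `pr c = some p`, `p = (a, b)`, `lo = a`, `hi = b` (the other case is the same).
If `pr c' = some p`: `x c' a / x c a` is regular on the overlap (`psi_loc`), and if `ε' ≠ ε`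
`x c' b / x c a = (x c' b / x c b) * (x c b / x c a)`.
If `pr c' ≠ some p`: then `a ∉ S c'` or `b ∉ S c'`. If `a ∉ S c'`: `(s c' / s c)^N / x c a ∈ R c`
(`s_x`). If `b ∉ S c'`: `(s c' / s c)^N / x c b ∈ R c`, times `x c b / x c a`. In both cases
multiply by `t c' ε' ∈ R c'`, which is regular on the overlap (`s_loc`). If `pr c = none` only the
last remark is needed. -/
theorem bl_aux (h : M.OkV) (hs : M.OkS) (c c' : M.ι) (ε ε' : Bool) (M₀ : ℕ) :
    ∃ N₀ : ℕ, ∀ N ≥ N₀,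
      (((M.pr P c').elim 1 (fun p => M.x c' (lo p ε')) : Ωˣ) : Ω) /
        ((M.pr P c).elim 1 (fun p => M.x c (lo p ε)) : Ωˣ) * (M.s c' / M.s c : Ω) ^ N ∈
          (M.bl P hP.stab M₀).R (c, ε) := by
  obtain ⟨K, hK⟩ := BLo.aux (c := c) (c' := c') (ε := ε) hP h hs ε'
  exact ⟨K, fun N hN => BLo.mono hs hN hK⟩

/-- membership in the finite sets of labels of the blow-up -/
theorem blS_mem_inl (N : ℕ) (c : M.ι × Bool) (i : M.J) :
    (Sum.inl i : (M.bl P hP.stab N).J) ∈ (M.bl P hP.stab N).S c ↔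
      i ∈ M.S c.1 ∧ ∀ p, M.pr P c.1 = some p → i ≠ lo p c.2 := by
  classical
  have h' : (Sum.inl i : (M.bl P hP.stab N).J) ∈ (M.bl P hP.stab N).S c ↔
      (Sum.inl i : M.J ⊕ {p // p ∈ P}) ∈ (M.pr P c.1).elim
      ((M.S c.1).map Function.Embedding.inl) (fun p =>
      ((M.S c.1).erase (lo p c.2)).map Function.Embedding.inl ∪ {Sum.inr p}) := by
    unfold bl
    simp only
  rw [h']
  cases hp : M.pr P c.1 with
  | none => simp
  | some p =>
    simp only [Option.elim_some, Finset.mem_union, Finset.mem_map, Function.Embedding.inl_apply,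
      Sum.inl.injEq, exists_eq_right, Finset.mem_singleton, reduceCtorEq, or_false,
      Finset.mem_erase, Option.some.injEq, forall_eq']
    exact and_comm

theorem blS_mem_inr (N : ℕ) (c : M.ι × Bool) (p : {p // p ∈ P}) :
    (Sum.inr p : (M.bl P hP.stab N).J) ∈ (M.bl P hP.stab N).S c ↔ M.pr P c.1 = some p := by
  classical
  have h' : (Sum.inr p : (M.bl P hP.stab N).J) ∈ (M.bl P hP.stab N).S c ↔
      (Sum.inr p : M.J ⊕ {p // p ∈ P}) ∈ (M.pr P c.1).elim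
      ((M.S c.1).map Function.Embedding.inl) (fun p =>
      ((M.S c.1).erase (lo p c.2)).map Function.Embedding.inl ∪ {Sum.inr p}) := by
    unfold bl
    simp only
  rw [h']
  cases hp : M.pr P c.1 with
  | none => simp
  | some p' => simp [eq_comm]

theorem blS_x_inr (N : ℕ) (c : M.ι × Bool) (p : {p // p ∈ P}) (hp : M.pr P c.1 = some p) :
    (M.bl P hP.stab N).x c (Sum.inr p : M.J ⊕ {p // p ∈ P}) = M.x c.1 (lo p c.2) := by
  unfold bl
  simp only [hp]
  rfl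

theorem blS_x_hi (N : ℕ) (c : M.ι × Bool) (p : {p // p ∈ P}) (hp : M.pr P c.1 = some p) :
    (M.bl P hP.stab N).x c (Sum.inl (hi p c.2) : M.J ⊕ {p // p ∈ P}) =
      M.x c.1 (hi p c.2) / M.x c.1 (lo p c.2) := by
  classical
  unfold bl
  simp only [hp]
  exact if_pos rfl

/-- the local equations of the old labels, up to elements which do not matter -/
theorem blS_x_inl (N : ℕ) (c : M.ι × Bool) (i : M.J) :
    ((M.bl P hP.stab N).x c (Sum.inl i : M.J ⊕ {p // p ∈ P}) = M.x c.1 i) ∨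
      ∃ p, M.pr P c.1 = some p ∧ i = hi p c.2 ∧
        (M.bl P hP.stab N).x c (Sum.inl i : M.J ⊕ {p // p ∈ P}) =
          M.x c.1 (hi p c.2) / M.x c.1 (lo p c.2) := by
  classical
  cases hp : M.pr P c.1 with
  | none =>
    left
    unfold bl
    simp only [hp]
    rfl
  | some p =>
    by_cases hi' : i = hi p c.2
    · refine Or.inr ⟨p, rfl, hi', ?_⟩
      unfold bl
      simp only [hp]
      exact if_pos hi'
    · left
      unfold bl
      simp only [hp]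
      exact if_neg hi'

/-- PROOF. `s_mem`: `bl_aux`, for `N > N₀`, `N₀` good for all pairs of charts. `s_loc` with
`q = s' (c, ε) / s' (c', ε')`: for `a ∈ R c` write
`q ^ M = ((s c / s c') ^ (N - N₀)) ^ M * ((s c / s c') ^ N₀ t c ε / t c' ε') ^ M`; for the
generator `x c hi / x c lo = s' (c, not ε) / s' (c, ε)` of `R' (c, ε)`: its product with `q` is
`s' (c, not ε) / s' (c', ε')`, in `R' (c', ε')` by `s_mem`. `s_x`: label `inr p`, `x' = x c lo`:
`pr c' ≠ some p`, as in `bl_aux` with one more factor; label `hi`, `x' = x hi / x lo`: if `hi` is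
not in `S c'`: `(s c' / s c)^N / x c hi ∈ R c`; if it is, then `pr c' = some p`, `ε' ≠ ε` and
`s' (c', ε') / s' (c, ε) = ((s c' / s c)^N x c' hi / x c hi) * (x c hi / x c lo)`; the other labels
by `s_x` for `M`, or, if `i = lo p' ε'` with `pr c' = some p'`, by
`s' (c', ε') / s' (c, ε) / x c i = (s c' / s c)^N (x c' i / x c i) / t c ε`. -/
theorem bl_okS (hf : Finite M.ι) (h : M.OkV) (hs : M.OkS) :
    ∃ N₀ : ℕ, ∀ N ≥ N₀, (M.bl P hP.stab N).OkS := by
  classical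
  cases nonempty_fintype M.ι
  have h0 : ∀ q : (M.ι × Bool) × (M.ι × Bool), ∃ K : ℕ,
      ((M.blT P q.2.1 q.2.2 : Ω) / M.blT P q.1.1 q.1.2) *
        (M.s q.2.1 / M.s q.1.1 : Ω) ^ K ∈ M.blR P q.1.1 q.1.2 := fun q =>
    BLo.aux hP h hs q.2.2
  choose K hK using h0
  obtain ⟨K₀, hK₀⟩ : ∃ K₀, ∀ q, K q ≤ K₀ := ⟨Finset.univ.sup K, fun q =>
    Finset.le_sup (f := K) (Finset.mem_univ q)⟩
  refine ⟨K₀ + 1, fun N hN => ?_⟩
  obtain ⟨e, he1, rfl⟩ : ∃ e, 1 ≤ e ∧ N = K₀ + e := ⟨N - K₀, by omega, by omega⟩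
  clear hN
  -- the sections
  obtain ⟨s', hs'⟩ : ∃ s' : M.ι × Bool → Ω, ∀ c, s' c =
      (M.s c.1 : Ω) ^ (K₀ + e) * (M.blT P c.1 c.2 : Ω) := ⟨_, fun _ => rfl⟩
  have hs0 : ∀ c, s' c ≠ 0 := by
    intro c
    rw [hs']
    exact mul_ne_zero (pow_ne_zero _ (M.s c.1).ne_zero) (M.blT P c.1 c.2).ne_zero
  have hss : ∀ c : M.ι × Bool, ((M.bl P hP.stab (K₀ + e)).s c : Ω) = s' c := by
    intro c
    have h1 : (M.bl P hP.stab (K₀ + e)).s c = M.s c.1 ^ (K₀ + e) * M.blT P c.1 c.2 := rfl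
    rw [h1, hs', Units.val_mul, Units.val_pow_eq_pow_val]
  have hu : ∀ c c' : M.ι × Bool, ((M.blT P c'.1 c'.2 : Ω) / M.blT P c.1 c.2) *
        (M.s c'.1 / M.s c.1 : Ω) ^ K₀ ∈ M.blR P c.1 c.2 := fun c c' =>
    BLo.mono hs (hK₀ (c, c')) (hK (c, c'))
  have hQ : ∀ c c' : M.ι × Bool, s' c' / s' c = (M.s c'.1 / M.s c.1 : Ω) ^ e *
      (((M.blT P c'.1 c'.2 : Ω) / M.blT P c.1 c.2) * (M.s c'.1 / M.s c.1 : Ω) ^ K₀) := by
    intro c c'
    have h1 := (M.s c.1).ne_zero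
    have h2 := (M.blT P c.1 c.2).ne_zero
    rw [hs', hs', pow_add, pow_add, div_pow, div_pow]
    field_simp
  have hQm : ∀ c c' : M.ι × Bool, s' c' / s' c ∈ M.blR P c.1 c.2 := by
    intro c c'
    rw [hQ]
    exact (M.blR P c.1 c.2).mul_mem
      (blS_le c.1 c.2 ((M.R c.1).pow_mem (hs.s_mem c.1 c'.1) e)) (hu c c')
  have hB : ∀ (c c' : M.ι × Bool) (a : Ω), M.BLo P c.1 c.2 c'.1 a →
      ∃ L : ℕ, a * (s' c' / s' c) ^ L ∈ M.blR P c.1 c.2 := by
    rintro c c' a ⟨L, hL⟩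
    refine ⟨L, ?_⟩
    rw [hQ, mul_pow, ← mul_assoc, ← pow_mul]
    exact (M.blR P c.1 c.2).mul_mem (BLo.mono hs (Nat.le_mul_of_pos_left L he1) hL)
      ((M.blR P c.1 c.2).pow_mem (hu c c') L)
  have hmono : ∀ (c c' : M.ι × Bool) (a : Ω) (L L' : ℕ), L ≤ L' →
      a * (s' c' / s' c) ^ L ∈ M.blR P c.1 c.2 → a * (s' c' / s' c) ^ L' ∈ M.blR P c.1 c.2 := by
    intro c c' a L L' hLL ha
    obtain ⟨d, rfl⟩ := Nat.exists_eq_add_of_le hLL
    rw [pow_add, ← mul_assoc]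
    exact (M.blR P c.1 c.2).mul_mem ha ((M.blR P c.1 c.2).pow_mem (hQm c c') d)
  have hBmul : ∀ (c c' : M.ι × Bool) (a b : Ω),
      (∃ L : ℕ, a * (s' c' / s' c) ^ L ∈ M.blR P c.1 c.2) →
      (∃ L : ℕ, b * (s' c' / s' c) ^ L ∈ M.blR P c.1 c.2) →
      ∃ L : ℕ, a * b * (s' c' / s' c) ^ L ∈ M.blR P c.1 c.2 := by
    rintro c c' a b ⟨L, hL⟩ ⟨L', hL'⟩
    refine ⟨L + L', ?_⟩
    have h1 : a * b * (s' c' / s' c) ^ (L + L') =
        (a * (s' c' / s' c) ^ L) * (b * (s' c' / s' c) ^ L') := by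
      rw [pow_add]
      ring
    rw [h1]
    exact (M.blR P c.1 c.2).mul_mem hL hL'
  have kloc : ∀ (c c' : M.ι × Bool) (a : Ω), a ∈ M.blR P c.1 c.2 →
      ∃ L : ℕ, a * (s' c / s' c') ^ L ∈ M.blR P c'.1 c'.2 := by
    intro c c' a ha
    let T : Subalgebra k Ω :=
      { carrier := {a | ∃ L : ℕ, a * (s' c / s' c') ^ L ∈ M.blR P c'.1 c'.2}
        mul_mem' := fun {a b} ha hb => hBmul c' c a b ha hb
        add_mem' := by
          rintro a b ⟨L, hL⟩ ⟨L', hL'⟩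
          refine ⟨L + L', ?_⟩
          rw [add_mul]
          exact (M.blR P c'.1 c'.2).add_mem (hmono c' c a L _ (Nat.le_add_right _ _) hL)
            (hmono c' c b L' _ (Nat.le_add_left _ _) hL')
        algebraMap_mem' := fun r => ⟨0, by
          rw [pow_zero, mul_one]
          exact (M.blR P c'.1 c'.2).algebraMap_mem r⟩ }
    have h1 : M.R c.1 ≤ T := by
      intro b hb
      exact hB c' c b (BLo.of_loc (hs.s_loc c.1 c'.1 b hb))
    have h2 : M.blR P c.1 c.2 ≤ T := by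
      cases hp : M.pr P c.1 with
      | none =>
        unfold blR
        rw [hp]
        exact h1
      | some p =>
        have h3 : M.blR P c.1 c.2 = M.R c.1 ⊔
            Algebra.adjoin k {(M.x c.1 (hi p c.2) / M.x c.1 (lo p c.2) : Ω)} := by
          unfold blR
          rw [hp]
          rfl
        rw [h3]
        refine sup_le h1 (Algebra.adjoin_le ?_)
        rintro _ rfl
        refine ⟨1, ?_⟩
        have h4 : (M.x c.1 (hi p c.2) / M.x c.1 (lo p c.2) : Ω) = s' (c.1, !c.2) / s' c := by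
          rw [hs' (c.1, !c.2), hs' c, blS_T_some (c := c.1) hp, blS_T_some (c := c.1) hp,
            blS_lo_not, mul_div_mul_left _ _ (pow_ne_zero _ (M.s c.1).ne_zero)]
        rw [h4, pow_one, div_mul_div_cancel₀ (hs0 c)]
        exact hQm c' (c.1, !c.2)
    exact h2 ha
  have hσ : ∀ c c' : M.ι × Bool, (M.s c'.1 / M.s c.1 : Ω) ^ (K₀ + e) ∈ M.blR P c.1 c.2 :=
    fun c c' => blS_le c.1 c.2 ((M.R c.1).pow_mem (hs.s_mem c.1 c'.1) _)
  have hQ' : ∀ c c' : M.ι × Bool, s' c' / s' c = (M.s c'.1 / M.s c.1 : Ω) ^ (K₀ + e) *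
      ((M.blT P c'.1 c'.2 : Ω) / M.blT P c.1 c.2) := by
    intro c c'
    rw [hs' c', hs' c, div_pow, mul_div_mul_comm]
  -- `1 / (local equation)` on the overlaps
  have kx : ∀ (c c' : M.ι × Bool) (i : M.J), i ∈ M.S c.1 →
      (i ∉ M.S c'.1 ∨ ∃ p, M.pr P c'.1 = some p ∧ i = lo p c'.2 ∧ M.pr P c.1 ≠ some p) →
      ∃ L : ℕ, (M.x c.1 i : Ω)⁻¹ * (s' c' / s' c) ^ L ∈ M.blR P c.1 c.2 := by
    rintro c c' i hi (hi' | ⟨p, hp, hip, hpc⟩)
    · exact hB c c' _ (BLo.inv_x hs hi hi')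
    · have hi' : i ∈ M.S c'.1 := by
        rw [hip]
        exact blS_lo_mem hp c'.2
      have h1 : M.BLo P c.1 c.2 c'.1 (M.blT P c.1 c.2 : Ω)⁻¹ := by
        cases hq : M.pr P c.1 with
        | none =>
          rw [blS_T_none hq, Units.val_one, inv_one]
          exact BLo.of_mem (M.blR P c.1 c.2).one_mem
        | some q =>
          rw [blS_T_some hq]
          refine BLo.inv_lo hP hs hq fun h2 => hpc ?_
          rw [hq, ← h2, hp]
      have h2 : M.BLo P c.1 c.2 c'.1 (M.x c'.1 i / M.x c.1 i : Ω) := BLo.quot h hs hi hi'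
      obtain ⟨L, hL⟩ := hB c c' _ ((BLo.of_mem (hσ c c')).mul (h2.mul h1))
      refine ⟨L + 1, ?_⟩
      have h3 : (M.x c.1 i : Ω)⁻¹ * (s' c' / s' c) ^ (L + 1) =
          (M.s c'.1 / M.s c.1 : Ω) ^ (K₀ + e) * (M.x c'.1 i / M.x c.1 i *
            (M.blT P c.1 c.2 : Ω)⁻¹) * (s' c' / s' c) ^ L := by
        rw [pow_succ, hQ' c c', blS_T_some (c := c'.1) hp, hip]
        ring
      rw [h3]
      exact hL
  have kinr : ∀ (c c' : M.ι × Bool) (p : {p // p ∈ P}), M.pr P c.1 = some p →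
      M.pr P c'.1 ≠ some p →
      ∃ L : ℕ, (s' c' / s' c) ^ L / M.x c.1 (lo p c.2) ∈ M.blR P c.1 c.2 := by
    intro c c' p hp hp'
    obtain ⟨L, hL⟩ := hB c c' _ (BLo.inv_lo (ε := c.2) hP hs hp hp')
    refine ⟨L, ?_⟩
    rwa [div_eq_mul_inv, mul_comm]
  have kinl : ∀ (c c' : M.ι × Bool) (i : M.J), i ∈ M.S c.1 →
      (∀ p, M.pr P c.1 = some p → i ≠ lo p c.2) →
      (i ∉ M.S c'.1 ∨ ∃ p, M.pr P c'.1 = some p ∧ i = lo p c'.2) →
      ∃ L : ℕ, (s' c' / s' c) ^ L /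
        ((M.bl P hP.stab (K₀ + e)).x c (Sum.inl i : M.J ⊕ {p // p ∈ P}) : Ω) ∈
          M.blR P c.1 c.2 := by
    intro c c' i hi hi' h1
    by_cases h2 : i ∉ M.S c'.1 ∨ ∃ p, M.pr P c'.1 = some p ∧ i = lo p c'.2 ∧ M.pr P c.1 ≠ some p
    · have h3 := kx c c' i hi h2
      rcases blS_x_inl hP (K₀ + e) c i with h4 | ⟨p, hp, hip, h4⟩
      · rw [h4]
        obtain ⟨L, hL⟩ := h3
        refine ⟨L, ?_⟩
        rwa [div_eq_mul_inv, mul_comm]
      · obtain ⟨L, hL⟩ := hBmul c c' _ _ h3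
          ⟨0, by
            rw [pow_zero, mul_one]
            exact blS_le c.1 c.2 (h.x_R c.1 _ (blS_lo_mem hp c.2))⟩
        refine ⟨L, ?_⟩
        rw [h4, Units.val_div_eq_div_val, ← hip]
        have h5 : (s' c' / s' c) ^ L / ((M.x c.1 i : Ω) / M.x c.1 (lo p c.2)) =
            (M.x c.1 i : Ω)⁻¹ * (M.x c.1 (lo p c.2)) * (s' c' / s' c) ^ L := by
          rw [div_div_eq_mul_div, div_eq_mul_inv]
          ring
        rw [h5]
        exact hL
    · push Not at h2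
      obtain ⟨h2, h3⟩ := h2
      obtain ⟨p, hp, hip⟩ := h1.resolve_left (not_not.2 h2)
      have hpc := h3 p hp hip
      have hne := hi' p hpc
      have hε : c'.2 = !c.2 := by
        rw [hip] at hne
        exact blS_eq_not p hne
      rw [hε, blS_lo_not] at hip
      obtain ⟨L, hL⟩ := hB c c' _ ((BLo.of_mem (hσ c c')).mul
        (BLo.quot (P := P) (ε := c.2) h hs hi h2))
      refine ⟨L + 1, ?_⟩
      rw [hip, blS_x_hi hP _ c p hpc, Units.val_div_eq_div_val]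
      rw [hip] at hL
      have h5 : (s' c' / s' c) ^ (L + 1) /
          ((M.x c.1 (Mdl.hi p c.2) : Ω) / M.x c.1 (lo p c.2)) =
          (M.s c'.1 / M.s c.1 : Ω) ^ (K₀ + e) *
            (M.x c'.1 (Mdl.hi p c.2) / M.x c.1 (Mdl.hi p c.2)) * (s' c' / s' c) ^ L := by
        have h6 := (M.x c.1 (Mdl.hi p c.2)).ne_zero
        have h7 := (M.x c.1 (lo p c.2)).ne_zero
        rw [pow_succ, hQ' c c', blS_T_some (c := c'.1) hp, blS_T_some (c := c.1) hpc, hε,
          blS_lo_not]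
        field_simp
      rw [h5]
      exact hL
  refine ⟨fun c c' => ?_, fun c c' a ha => ?_, fun c c' j hj hj' => ?_, fun c => ?_,
    fun c => ?_, fun c j hj => ?_⟩
  · rw [hss c, hss c']
    exact hQm c c'
  · rw [hss c, hss c']
    exact kloc c c' a ha
  · rw [hss c, hss c']
    rcases j with i | p
    · have h1 := (blS_mem_inl hP _ c i).1 hj
      refine kinl c c' i h1.1 h1.2 ?_
      by_contra h2
      push Not at h2
      exact hj' ((blS_mem_inl hP _ c' i).2 ⟨h2.1, h2.2⟩)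
    · have h1 := (blS_mem_inr hP _ c p).1 hj
      have h2 : M.pr P c'.1 ≠ some p := fun h2 => hj' ((blS_mem_inr hP _ c' p).2 h2)
      obtain ⟨L, hL⟩ := kinr c c' p h1 h2
      refine ⟨L, ?_⟩
      have h3 := blS_x_inr hP (K₀ + e) c p h1
      erw [h3]
      exact hL
  · exact M.Ψ.mul_mem (M.Ψ.pow_mem (hs.m_Ψ c.1) _) (blS_T_Ψ h c.1 c.2)
  · have h1 : (M.bl P hP.stab (K₀ + e)).m c = M.m c.1 ^ (K₀ + e) * M.blT P c.1 c.2 := rfl
    rw [hss c, h1, hs' c, Units.val_mul, Units.val_pow_eq_pow_val,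
      mul_div_mul_right _ _ (M.blT P c.1 c.2).ne_zero, ← div_pow]
    exact ((hs.m_s c.1).pow _).mono (blS_le c.1 c.2)
  · have h1 : (M.bl P hP.stab (K₀ + e)).m c = M.m c.1 ^ (K₀ + e) * M.blT P c.1 c.2 := rfl
    rw [h1]
    have h2 : ∀ i ∈ M.S c.1, M.v i (M.m c.1 ^ (K₀ + e) * M.blT P c.1 c.2) =
        -((K₀ + e : ℕ) : ℤ) * M.h i + M.v i (M.blT P c.1 c.2) := by
      intro i hi
      have h3 := h.v_zpow i (M.m c.1) (hs.m_Ψ c.1) ((K₀ + e : ℕ) : ℤ)
      rw [zpow_natCast] at h3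
      rw [h.v_mul i _ (M.Ψ.pow_mem (hs.m_Ψ c.1) _) _ (blS_T_Ψ h c.1 c.2), h3, hs.m_v c.1 i hi]
      ring
    rcases j with i | p
    · obtain ⟨hi, hi'⟩ := (blS_mem_inl hP _ c i).1 hj
      show M.v i (M.m c.1 ^ (K₀ + e) * M.blT P c.1 c.2) = -(((K₀ + e : ℕ) : ℤ) * M.h i)
      have h3 : M.v i (M.blT P c.1 c.2) = 0 := by
        cases hp : M.pr P c.1 with
        | none =>
          rw [blS_T_none hp]
          exact h.v_one i
        | some p =>
          rw [blS_T_some hp]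
          exact h.v_x' c.1 i hi _ (blS_lo_mem hp c.2) (hi' p hp)
      rw [h2 i hi, h3]
      ring
    · have hp := (blS_mem_inr hP _ c p).1 hj
      obtain ⟨hp1, hp2⟩ := pr_some c.1 p hp
      show M.v p.1.1 (M.m c.1 ^ (K₀ + e) * M.blT P c.1 c.2) +
        M.v p.1.2 (M.m c.1 ^ (K₀ + e) * M.blT P c.1 c.2) =
          -(((K₀ + e : ℕ) : ℤ) * (M.h p.1.1 + M.h p.1.2) - 1)
      have hne := hP.ne p.1 p.2
      have h3 : M.v p.1.1 (M.blT P c.1 c.2) + M.v p.1.2 (M.blT P c.1 c.2) = 1 := by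
        rw [blS_T_some hp]
        cases hc : c.2 with
        | true =>
          have h4 : lo p true = p.1.1 := rfl
          rw [h4, h.v_x c.1 _ hp1, h.v_x' c.1 _ hp2 _ hp1 hne.symm, add_zero]
        | false =>
          have h4 : lo p false = p.1.2 := rfl
          rw [h4, h.v_x c.1 _ hp2, h.v_x' c.1 _ hp1 _ hp2 hne, zero_add]
      rw [h2 _ hp1, h2 _ hp2]
      linarith

end Mdl

end Pool.Agent.KMR
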