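import Mathlib

/-!
Modules with a connection over a local ring in which every non-zero element has an iterated
derivative which is a unit. Only Mathlib.
-/

namespace Pool.Agent.KMR

open IsLocalRing

/-- every non-zero element has an iterated derivative which is a unit -/
def Reaches {A : Type} [CommRing A] {n : ℕ} (D : Fin n → Derivation ℤ A A) : Prop :=
  ∀ a : A, a ≠ 0 → ∃ l : List (Fin n), IsUnit (l.foldr (fun i b => D i b) a)

/-- an iterated derivative is additive -/
theorem ConA_add {A : Type} [CommRing A] {n : ℕ} (D : Fin n → Derivation ℤ A A)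
    (l : List (Fin n)) (a b : A) : l.foldr (fun i b => D i b) (a + b) =
      l.foldr (fun i b => D i b) a + l.foldr (fun i b => D i b) b := by
  induction l with
  | nil => rfl
  | cons i l ih => rw [List.foldr_cons, List.foldr_cons, List.foldr_cons, ih, map_add]

/-- an iterated derivative as an additive map -/
def ConA_W {A : Type} [CommRing A] {n : ℕ} (D : Fin n → Derivation ℤ A A)
    (l : List (Fin n)) : A →+ A :=
  AddMonoidHom.mk' (fun a => l.foldr (fun i b => D i b) a) (ConA_add D l)

theorem ConA_W_append {A : Type} [CommRing A] {n : ℕ} (D : Fin n → Derivation ℤ A A)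
    (l : List (Fin n)) (i : Fin n) (a : A) : ConA_W D (l ++ [i]) a = ConA_W D l (D i a) := by
  show (l ++ [i]).foldr (fun i b => D i b) a = l.foldr (fun i b => D i b) (D i a)
  rw [List.foldr_append]
  rfl

theorem ConA_mul {A : Type} [CommRing A] [IsLocalRing A] {n : ℕ} (D : Fin n → Derivation ℤ A A)
    (w : List (Fin n)) : ∀ a c : A,
    (∀ u : List (Fin n), u.length ≤ w.length → ConA_W D u a ∈ maximalIdeal A) →
      ConA_W D w (a * c) ∈ maximalIdeal A := by
  induction w using List.reverseRecOn with
  | nil =>
    intro a c h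
    exact Ideal.mul_mem_right c _ (h [] le_rfl)
  | append_singleton w i ih =>
    intro a c h
    rw [ConA_W_append, (D i).leibniz, map_add, smul_eq_mul, smul_eq_mul, mul_comm c (D i a)]
    rw [List.length_append, List.length_singleton] at h
    refine Ideal.add_mem _ (ih a (D i c) fun u hu => h u (hu.trans (Nat.le_succ _)))
      (ih (D i a) c fun u hu => ?_)
    rw [← ConA_W_append]
    refine h _ ?_
    rw [List.length_append, List.length_singleton]
    exact Nat.succ_le_succ hu

/-- a minimal finite system of generators -/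
theorem ConA_min {A M : Type} [CommRing A] [AddCommGroup M] [Module A M]
    [Module.Finite A M] : ∃ s : Finset M, Submodule.span A (s : Set M) = ⊤ ∧
      ∀ a : M → A, ∑ x ∈ s, a x • x = 0 → ∀ x ∈ s, ¬ IsUnit (a x) := by
  classical
  have hne : ∃ m, ∃ s : Finset M, Submodule.span A (s : Set M) = ⊤ ∧ s.card = m := by
    obtain ⟨s, hs⟩ := (Module.Finite.fg_top : (⊤ : Submodule A M).FG)
    exact ⟨s.card, s, hs, rfl⟩
  obtain ⟨s, hs, hcard⟩ := Nat.find_spec hne
  refine ⟨s, hs, fun a ha x0 hx0 hu => ?_⟩
  obtain ⟨u, hu⟩ := hu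
  have h1 : a x0 • x0 = -∑ x ∈ s.erase x0, a x • x := by
    rw [← Finset.add_sum_erase s (fun x => a x • x) hx0] at ha
    exact eq_neg_of_add_eq_zero_left ha
  have h2 : x0 ∈ Submodule.span A ((s.erase x0 : Finset M) : Set M) := by
    have h3 : x0 = (↑u⁻¹ : A) • (-∑ x ∈ s.erase x0, a x • x) := by
      rw [← h1, ← hu, smul_smul, Units.inv_mul, one_smul]
    have h6 : (↑u⁻¹ : A) • (-∑ x ∈ s.erase x0, a x • x) ∈
        Submodule.span A ((s.erase x0 : Finset M) : Set M) := by
      refine Submodule.smul_mem _ _ (Submodule.neg_mem _ (Submodule.sum_mem _ fun x hx => ?_))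
      exact Submodule.smul_mem _ _ (Submodule.subset_span hx)
    rw [← h3] at h6
    exact h6
  have h4 : Submodule.span A ((s.erase x0 : Finset M) : Set M) = ⊤ := by
    rw [eq_top_iff, ← hs, Submodule.span_le]
    intro x hx
    by_cases hxx : x = x0
    · rw [hxx]
      exact h2
    · exact Submodule.subset_span (Finset.mem_coe.2 (Finset.mem_erase.2 ⟨hxx, hx⟩))
  have h5 := Nat.find_min' hne ⟨s.erase x0, h4, rfl⟩
  rw [← hcard] at h5
  exact absurd (Finset.card_erase_lt_of_mem hx0) (not_lt.2 h5)

/-- A finitely generated module with a connection is free.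
PROOF. Let `e 1, .., e r` be a minimal system of generators (a basis of `M / 𝔪 M` lifted,
Nakayama). For `ν : ℕ` let `I ν` be the ideal of all `a` such that `D i₁ (D i₂ (.. a)) ∈ 𝔪` for all
words of length `< ν` (an ideal: product rule; `D i (I (ν + 1)) ⊆ I ν`). Claim, by
induction on `ν`: if `∑ j, a j • e j = 0` and some `a j` has an iterated derivative of length `ν`
which is a unit, we get a contradiction. `ν = 0`: `a j` is a unit, contradiction with minimality.
`ν > 0`, all derivatives of length `< ν` of all the `a j` being non-units (otherwise use the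
induction hypothesis): the word is `w i` with last letter (applied first) `i`. Apply `N i` to the
relation, `N i (e j) = ∑ l, Γ j l • e l`: `∑ l, (D i (a l) + ∑ j, a j Γ j l) • e l = 0`, and
the word `w` of length `ν - 1` applied to `D i (a l) + ∑ j, a j Γ j l` is a unit for the `l` in
question, because `a j Γ j l ∈ I ν`. So all `a j` are zero. -/
theorem free_of_conn {A M : Type} [CommRing A] [IsLocalRing A] [AddCommGroup M] [Module A M]
    [Module.Finite A M] {n : ℕ} (D : Fin n → Derivation ℤ A A) (hD : Reaches D)
    (N : Fin n → M →+ M) (hN : ∀ i (a : A) (x : M), N i (a • x) = D i a • x + a • N i x) :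
    Module.Free A M := by
  classical
  obtain ⟨s, hs, hmin⟩ := ConA_min (A := A) (M := M)
  have hΓ : ∀ (i : Fin n) (x : M), ∃ c : M → A, ∑ y ∈ s, c y • y = N i x := by
    intro i x
    have h1 : N i x ∈ Submodule.span A (s : Set M) := by
      rw [hs]
      trivial
    obtain ⟨c, -, hc⟩ := Submodule.mem_span_finset.1 h1
    exact ⟨c, hc⟩
  choose Γ hΓ using hΓ
  have key : ∀ (ν : ℕ) (w : List (Fin n)), w.length = ν → ∀ a : M → A,
      ∑ x ∈ s, a x • x = 0 → ∀ x ∈ s, ConA_W D w (a x) ∈ maximalIdeal A := by
    intro ν
    induction ν using Nat.strong_induction_on with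
    | _ ν ih =>
      intro w hw a ha x hx
      rcases w.eq_nil_or_concat with rfl | ⟨w', i, rfl⟩
      · exact (mem_maximalIdeal _).2 (hmin a ha x hx)
      · rw [List.length_concat] at hw
        rw [List.concat_eq_append, ConA_W_append]
        have h1 : ∑ y ∈ s, (D i (a y) + ∑ z ∈ s, a z * Γ i z y) • y = 0 := by
          have h2 : N i (∑ z ∈ s, a z • z) = 0 := by rw [ha, map_zero]
          rw [map_sum] at h2
          rw [← h2]
          simp only [add_smul, Finset.sum_add_distrib, hN]
          congr 1
          simp only [Finset.sum_smul, mul_smul]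
          rw [Finset.sum_comm]
          refine Finset.sum_congr rfl fun z _ => ?_
          rw [← hΓ i z, Finset.smul_sum]
        have h3 := ih w'.length (by omega) w' rfl _ h1 x hx
        rw [map_add, map_sum] at h3
        have h4 : ∑ z ∈ s, ConA_W D w' (a z * Γ i z x) ∈ maximalIdeal A := by
          refine Ideal.sum_mem _ fun z hz => ConA_mul D w' _ _ fun u hu => ?_
          exact ih u.length (by omega) u rfl a ha z hz
        exact (Ideal.add_mem_iff_left _ h4).1 h3
  have hli : LinearIndependent A (fun x : s => (x : M)) := by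
    rw [Fintype.linearIndependent_iff]
    intro g hg x
    by_contra hne
    obtain ⟨l, hl⟩ := hD (g x) hne
    have h1 : ∑ y ∈ s, (if h : y ∈ s then g ⟨y, h⟩ else 0) • y = 0 := by
      rw [← hg, ← Finset.sum_coe_sort s (fun y => (if h : y ∈ s then g ⟨y, h⟩ else 0) • y)]
      refine Finset.sum_congr rfl fun y _ => ?_
      rw [dif_pos y.2]
    have h2 := key l.length l rfl (fun y => if h : y ∈ s then g ⟨y, h⟩ else 0) h1 x x.2
    simp only [Finset.coe_mem, dite_true] at h2
    exact (mem_maximalIdeal _).1 h2 hl
  refine Module.Free.of_basis (Module.Basis.mk hli ?_)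
  rw [Subtype.range_coe_subtype]
  exact hs.ge

end Pool.Agent.KMR
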