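import Pool.Agent.Lib.MP_732f67_ag.R.ConA

/-!
Finite extensions of a local ring with derivations: the trace form is perfect.
-/

namespace Pool.Agent.KMR

open IsLocalRing

theorem con_smul {A B : Type} [CommRing A] [CommRing B] [Algebra A B] (D : Derivation ℤ A A)
    (E : Derivation ℤ B B) (h : ∀ a, E (algebraMap A B a) = algebraMap A B (D a)) (a : A) (x : B) :
    E (a • x) = D a • x + a • E x := by
  rw [Algebra.smul_def, Derivation.leibniz, h, smul_eq_mul, smul_eq_mul, Algebra.smul_def,
    Algebra.smul_def]
  ring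

/-- the trace is horizontal.
PROOF. Let `e` be a basis, `E (e i) = ∑ Γ i j • e j`, `b * e i = ∑ m i j • e j`. Applying `E`:
the matrix of `E b` is `D m + [m, Γ]` (up to transposition), the trace of the commutator
vanishes. -/
theorem trace_conn {A B : Type} [CommRing A] [CommRing B] [Algebra A B] [Module.Free A B]
    [Module.Finite A B] (D : Derivation ℤ A A) (E : Derivation ℤ B B)
    (h : ∀ a, E (algebraMap A B a) = algebraMap A B (D a)) (b : B) :
    Algebra.trace A B (E b) = D (Algebra.trace A B b) := by
  classical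
  let e := Module.Free.chooseBasis A B
  let m := Algebra.leftMulMatrix e b
  let Γ : Matrix _ _ A := Matrix.of fun i j => e.repr (E (e j)) i
  have hE : ∀ j, E (e j) = ∑ i, Γ i j • e i := fun j => (e.sum_repr (E (e j))).symm
  have hm : ∀ j, b * e j = ∑ i, m i j • e i := by
    intro j
    rw [← e.sum_repr (b * e j)]
    refine Finset.sum_congr rfl fun i _ => ?_
    rw [← Algebra.leftMulMatrix_eq_repr_mul]
  have hrep : ∀ (f : _ → A) (l), e.repr (∑ i, f i • e i) l = f l := fun f l => by
    rw [Module.Basis.repr_sum_self]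
  have key : Algebra.leftMulMatrix e (E b) = m.map D + Γ * m - m * Γ := by
    ext l j
    have h1 : E b * e j = E (b * e j) - b * E (e j) := by
      rw [Derivation.leibniz, smul_eq_mul, smul_eq_mul]
      ring
    have h2 : E (b * e j) = ∑ i, (D (m i j) + ∑ l, Γ i l * m l j) • e i := by
      rw [hm, map_sum]
      simp only [con_smul D E h, hE, add_smul, Finset.sum_add_distrib, Finset.smul_sum,
        Finset.sum_smul, smul_smul]
      congr 1
      rw [Finset.sum_comm]
      refine Finset.sum_congr rfl fun i _ => Finset.sum_congr rfl fun l _ => ?_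
      rw [mul_comm]
    have h3 : b * E (e j) = ∑ i, (∑ l, m i l * Γ l j) • e i := by
      rw [hE, Finset.mul_sum]
      simp only [Algebra.mul_smul_comm, hm, Finset.smul_sum, Finset.sum_smul, smul_smul]
      rw [Finset.sum_comm]
      refine Finset.sum_congr rfl fun i _ => Finset.sum_congr rfl fun l _ => ?_
      rw [mul_comm]
    rw [Algebra.leftMulMatrix_eq_repr_mul, h1, h2, h3, map_sub, Finsupp.sub_apply, hrep, hrep]
    rfl
  rw [Algebra.trace_eq_matrix_trace e, Algebra.trace_eq_matrix_trace e, key, Matrix.trace_sub,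
    Matrix.trace_add, Matrix.trace_mul_comm Γ m, add_sub_cancel_right]
  simp only [Matrix.trace, Matrix.diag_apply, Matrix.map_apply, map_sum]
  rfl

/-- a connection on a quotient -/
theorem con_quot {A M : Type} [CommRing A] [AddCommGroup M] [Module A M] (S : Submodule A M)
    (D : Derivation ℤ A A) (N : M →+ M) (hN : ∀ (a : A) (x : M), N (a • x) = D a • x + a • N x)
    (hS : ∀ x ∈ S, N x ∈ S) :
    ∃ N' : (M ⧸ S) →+ (M ⧸ S), ∀ (a : A) (y : M ⧸ S), N' (a • y) = D a • y + a • N' y := by
  let N0 : M →+ M ⧸ S := S.mkQ.toAddMonoidHom.comp N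
  have hwd : ∀ x y : M, S.mkQ x = S.mkQ y → S.mkQ (N x) = S.mkQ (N y) := by
    intro x y hxy
    rw [← sub_eq_zero, ← map_sub, Submodule.mkQ_apply, Submodule.Quotient.mk_eq_zero] at hxy ⊢
    rw [← map_sub]
    exact hS _ hxy
  have hout : ∀ y : M ⧸ S, S.mkQ (Function.surjInv S.mkQ_surjective y) = y :=
    Function.surjInv_eq S.mkQ_surjective
  refine ⟨AddMonoidHom.mk' (fun y => S.mkQ (N (Function.surjInv S.mkQ_surjective y)))
    (fun y z => ?_), fun a y => ?_⟩
  · rw [← map_add, ← map_add]
    exact hwd _ _ (by rw [hout, map_add, hout, hout])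
  · change S.mkQ (N (Function.surjInv S.mkQ_surjective (a • y))) =
      D a • y + a • S.mkQ (N (Function.surjInv S.mkQ_surjective y))
    rw [hwd _ (a • Function.surjInv S.mkQ_surjective y) (by rw [hout, map_smul, hout]), hN,
      map_add, map_smul, map_smul, hout]

/-- the connection on the dual -/
def conDual {A B : Type} [CommRing A] [CommRing B] [Algebra A B] (D : Derivation ℤ A A)
    (E : Derivation ℤ B B) (h : ∀ a, E (algebraMap A B a) = algebraMap A B (D a)) :
    (B →ₗ[A] A) →+ (B →ₗ[A] A) where
  toFun l :=
    { toFun := fun b => D (l b) - l (E b)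
      map_add' := fun b c => by
        rw [map_add, map_add, map_add, map_add]
        ring
      map_smul' := fun a b => by
        rw [con_smul D E h, map_add, l.map_smul, l.map_smul, l.map_smul]
        change D (a * l b) - (D a * l b + a * l (E b)) = a * (D (l b) - l (E b))
        rw [Derivation.leibniz, smul_eq_mul, smul_eq_mul]
        ring }
  map_zero' := by
    ext b
    simp
  map_add' l l' := by
    ext b
    simp only [LinearMap.coe_mk, AddHom.coe_mk, LinearMap.add_apply, map_add]
    ring

/-- PROOF. `B` is free (`free_of_conn`). `b ↦ tr (b ·)` is injective: if `b ≠ 0` there is `b'`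
with `b b' = a ∈ A`, `a ≠ 0` (the constant term of an integral equation of minimal degree), and
`tr a = r a ≠ 0`. Let `C` be the cokernel of `B → Hom (B, A)`, finite over `A`. On `Hom (B, A)`
we have the connection `λ ↦ (b ↦ D (λ b) - λ (E b))`, and `B → Hom (B, A)` is horizontal by
`trace_conn`, so `C` has a connection and is free (`free_of_conn`). The ranks of `B` and `Hom (B, A)`
are equal, hence the rank of `C` is zero, `C = 0`. -/
theorem perfect_of_conn {A B : Type} [CommRing A] [IsDomain A] [IsLocalRing A] [CharZero A]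
    [CommRing B] [IsDomain B] [Algebra A B] [FaithfulSMul A B] [Module.Finite A B] {n : ℕ}
    (D : Fin n → Derivation ℤ A A) (hD : Reaches D) (E : Fin n → Derivation ℤ B B)
    (h : ∀ i a, E i (algebraMap A B a) = algebraMap A B (D i a)) :
    Module.Free A B ∧ Function.Bijective (Algebra.traceForm A B) := by
  have hfree : Module.Free A B := free_of_conn D hD (fun i => (E i : B →ₗ[ℤ] B).toAddMonoidHom)
    fun i a x => con_smul (D i) (E i) (h i) a x
  refine ⟨hfree, ?_⟩
  have hinj : Function.Injective (Algebra.traceForm A B) := by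
    rw [injective_iff_map_eq_zero]
    intro b hb
    by_contra hb0
    have hint : IsIntegral A b := Algebra.IsIntegral.isIntegral b
    obtain ⟨a, ha, c, hc⟩ :=
      hint.isAlgebraic.exists_nonzero_dvd (mem_nonZeroDivisors_of_ne_zero hb0)
    have h1 := LinearMap.congr_fun hb c
    rw [Algebra.traceForm_apply, ← hc, Algebra.trace_algebraMap, LinearMap.zero_apply,
      nsmul_eq_mul, mul_eq_zero] at h1
    rcases h1 with h1 | h1
    · rw [Nat.cast_eq_zero, Module.finrank_zero_iff] at h1
      exact hb0 (Subsingleton.elim _ _)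
    · exact ha h1
  refine ⟨hinj, ?_⟩
  set S : Submodule A (B →ₗ[A] A) := LinearMap.range (Algebra.traceForm A B) with hS
  have hN : ∀ i, ∃ N' : ((B →ₗ[A] A) ⧸ S) →+ ((B →ₗ[A] A) ⧸ S),
      ∀ (a : A) (y : (B →ₗ[A] A) ⧸ S), N' (a • y) = D i a • y + a • N' y := by
    intro i
    refine con_quot S (D i) (conDual (D i) (E i) (h i)) (fun a l => ?_) ?_
    · ext b
      change D i (a • l b) - a • l (E i b) = D i a • l b + a • (D i (l b) - l (E i b))
      rw [smul_eq_mul, Derivation.leibniz, smul_eq_mul, smul_eq_mul, smul_eq_mul, smul_eq_mul,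
        smul_eq_mul]
      ring
    · rintro _ ⟨b, rfl⟩
      refine ⟨E i b, ?_⟩
      ext c
      change Algebra.trace A B (E i b * c) =
        D i (Algebra.trace A B (b * c)) - Algebra.trace A B (b * E i c)
      rw [← trace_conn (D i) (E i) (h i), ← map_sub, Derivation.leibniz, smul_eq_mul,
        smul_eq_mul]
      congr 1
      ring
  choose N hN using hN
  have hCfree : Module.Free A ((B →ₗ[A] A) ⧸ S) := free_of_conn D hD N hN
  have h1 := Submodule.finrank_quotient_add_finrank S
  rw [Module.finrank_linearMap_self, hS, LinearMap.finrank_range_of_inj hinj, ← hS] at h1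
  have h2 : Module.finrank A ((B →ₗ[A] A) ⧸ S) = 0 := by omega
  rw [Module.finrank_zero_iff] at h2
  rw [← LinearMap.range_eq_top, ← hS]
  exact Submodule.Quotient.subsingleton_iff.1 h2

end Pool.Agent.KMR
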