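import Mathlib

/-!
Models of function fields: charts, local rings of closed points, local parameters, boundary
divisors cut out by the elements of a group of functions.

Everything is inside one field `Ω` (algebraically closed, of characteristic zero) over the
algebraically closed field `k`.
-/

namespace Pool.Agent.KMR

variable {k Ω : Type} [Field k] [Field Ω] [Algebra k Ω]

/-- `x` is a unit of the subring `O` -/
def Un (O : Subalgebra k Ω) (x : Ω) : Prop := x ≠ 0 ∧ x ∈ O ∧ x⁻¹ ∈ O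

/-- the local ring of `R` at the point `φ` -/
def Loc (R : Subalgebra k Ω) (φ : R →ₐ[k] k) : Subalgebra k Ω where
  carrier := {a | ∃ b c : R, φ c ≠ 0 ∧ a = b / c}
  mul_mem' := by
    rintro _ _ ⟨a, b, hb, rfl⟩ ⟨c, d, hd, rfl⟩
    refine ⟨a * c, b * d, ?_, ?_⟩
    · rw [map_mul]
      exact mul_ne_zero hb hd
    · rw [MulMemClass.coe_mul, MulMemClass.coe_mul, div_mul_div_comm]
  add_mem' := by
    rintro _ _ ⟨a, b, hb, rfl⟩ ⟨c, d, hd, rfl⟩
    have h : ∀ e : R, φ e ≠ 0 → (e : Ω) ≠ 0 := fun e he h0 =>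
      he (by rw [show e = 0 from Subtype.ext h0, map_zero])
    refine ⟨a * d + b * c, b * d, ?_, ?_⟩
    · rw [map_mul]
      exact mul_ne_zero hb hd
    · rw [div_add_div _ _ (h b hb) (h d hd)]
      simp only [AddMemClass.coe_add, MulMemClass.coe_mul]
  algebraMap_mem' r := ⟨algebraMap k R r, 1, by rw [map_one]; exact one_ne_zero, by
    rw [OneMemClass.coe_one, div_one]; rfl⟩

/-- `z` is a system of parameters of the local ring `O`: the elements `z i` generate the ideal of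
the elements which are not units -/
def Par (O : Subalgebra k Ω) {n : ℕ} (z : Fin n → Ω) : Prop :=
  (∀ i, z i ∈ O ∧ ¬ Un O (z i)) ∧
    ∀ r ∈ O, ¬ Un O r → ∃ a : Fin n → Ω, (∀ i, a i ∈ O) ∧ r = ∑ i, a i * z i

/-- `O` is a local ring with residue field `k` -/
def IsPt (O : Subalgebra k Ω) : Prop :=
  ∃ φ : O →ₐ[k] k, ∀ a : O, φ a ≠ 0 ↔ Un O a

/-- the action of an automorphism on the group of units -/
def ga (g : Ω ≃ₐ[k] Ω) : Ωˣ →* Ωˣ := Units.map (g : Ω →* Ω)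

/-- a (finite) model of the field `F`:
charts `R c`, defined by the sections `s c`; the boundary divisors are labelled by `J`, the
divisor `j` meets the chart `c` if `j ∈ S c`, and its local equation is `x c j`;
`Ψ` is a group of functions with divisors supported on the boundary, `v j` is the order along
the divisor `j` (a function on `Ψ`);
`m c` is a local equation of the ample divisor, `- h j` its order along the divisor `j`;
`G` acts on the labels by `π` -/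
structure Mdl (k Ω : Type) [Field k] [Field Ω] [Algebra k Ω] (G : Subgroup (Ω ≃ₐ[k] Ω)) where
  F : IntermediateField k Ω
  ι : Type
  J : Type
  R : ι → Subalgebra k Ω
  S : ι → Finset J
  x : ι → J → Ωˣ
  s : ι → Ωˣ
  m : ι → Ωˣ
  Ψ : Subgroup Ωˣ
  v : J → Ωˣ → ℤ
  h : J → ℤ
  π : G →* Equiv.Perm J

namespace Mdl

variable {G : Subgroup (Ω ≃ₐ[k] Ω)} (M : Mdl k Ω G)

/-- the local ring of the chart `c` at `φ` -/
abbrev O (c : M.ι) (φ : M.R c →ₐ[k] k) : Subalgebra k Ω := Loc (M.R c) φ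

/-- the label `j` passes through the point `(c, φ)` -/
def At (c : M.ι) (φ : M.R c →ₐ[k] k) (j : M.J) : Prop :=
  j ∈ M.S c ∧ ¬ Un (M.O c φ) (M.x c j)

/-- the element `a` of `Ψ` is regular, or its inverse is, on every chart -/
def Cmp (a : Ωˣ) : Prop :=
  ∀ c, (∀ j ∈ M.S c, 0 ≤ M.v j a) ∨ (∀ j ∈ M.S c, M.v j a ≤ 0)

/-- first group of properties: rings -/
structure OkR (n : ℕ) : Prop where
  fin : Finite M.ι
  /-- the transcendence degree of `F` is `n` -/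
  trd : ∃ t : Fin n → Ω, (∀ i, t i ∈ M.F) ∧ AlgebraicIndependent k t ∧
    ∀ a ∈ M.F, IsAlgebraic (Algebra.adjoin k (Set.range t)) a
  fg : ∀ c, (M.R c).FG
  le : ∀ c, ∀ a ∈ M.R c, a ∈ M.F
  frac : ∀ c, ∀ a ∈ M.F, ∃ b ∈ M.R c, ∃ d ∈ M.R c, d ≠ 0 ∧ a = b / d
  /-- every valuation ring of `Ω` contains a chart -/
  complete : ∀ V : ValuationSubring Ω, (∀ a : k, algebraMap k Ω a ∈ V) → ∃ c, ∀ a ∈ M.R c, a ∈ V

/-- second group of properties: the group `Ψ` and the orders -/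
structure OkV : Prop where
  Ψ_fg : M.Ψ.FG
  Ψ_F : ∀ a ∈ M.Ψ, (a : Ω) ∈ M.F
  x_Ψ : ∀ c, ∀ j ∈ M.S c, M.x c j ∈ M.Ψ
  x_R : ∀ c, ∀ j ∈ M.S c, (M.x c j : Ω) ∈ M.R c
  v_mul : ∀ j, ∀ a ∈ M.Ψ, ∀ b ∈ M.Ψ, M.v j (a * b) = M.v j a + M.v j b
  v_x : ∀ c, ∀ j ∈ M.S c, M.v j (M.x c j) = 1
  v_x' : ∀ c, ∀ i ∈ M.S c, ∀ j ∈ M.S c, i ≠ j → M.v i (M.x c j) = 0
  unit : ∀ c, ∀ a ∈ M.Ψ, (∀ j ∈ M.S c, M.v j a = 0) → Un (M.R c) (a : Ω)

/-- third group of properties: the local rings are regular, with normal crossings -/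
structure OkP (n : ℕ) : Prop where
  par : ∀ c (φ : M.R c →ₐ[k] k), ∃ z : Fin n → Ω, Par (M.O c φ) z ∧
    ∀ j, M.At c φ j → ∃ i, z i = M.x c j

/-- fourth group of properties: the model is projective -/
structure OkS : Prop where
  s_mem : ∀ c c', (M.s c' / M.s c : Ω) ∈ M.R c
  s_loc : ∀ c c', ∀ a ∈ M.R c, ∃ N : ℕ, a * (M.s c / M.s c' : Ω) ^ N ∈ M.R c'
  s_x : ∀ c c', ∀ j ∈ M.S c, j ∉ M.S c' → ∃ N : ℕ, (M.s c' / M.s c : Ω) ^ N / M.x c j ∈ M.R c
  m_Ψ : ∀ c, M.m c ∈ M.Ψ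
  m_s : ∀ c, Un (M.R c) (M.s c / M.m c : Ω)
  m_v : ∀ c, ∀ j ∈ M.S c, M.v j (M.m c) = -M.h j

/-- a smooth projective model of dimension `n` with a boundary with normal crossings -/
structure Ok0 (n : ℕ) : Prop extends M.OkR n, M.OkV, M.OkP n, M.OkS

/-- the same, and on every chart `c` there is a point on all the divisors `j ∈ S c` -/
structure Ok (n : ℕ) : Prop extends M.Ok0 n where
  deep : ∀ c, ∃ φ : M.R c →ₐ[k] k, ∀ j ∈ M.S c, M.At c φ j

/-- first part of the equivariance: labels. No orbit of labels meets itself -/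
structure EqJ : Prop where
  Ψ_g : ∀ g : G, ∀ a ∈ M.Ψ, ga (g : Ω ≃ₐ[k] Ω) a ∈ M.Ψ
  v_g : ∀ g : G, ∀ a ∈ M.Ψ, ∀ j, M.v (M.π g j) (ga (g : Ω ≃ₐ[k] Ω) a) = M.v j a
  strict : ∀ g : G, ∀ c, ∀ j ∈ M.S c, M.π g j ∈ M.S c → M.π g j = j

/-- second part of the equivariance: points -/
def EqP : Prop :=
  ∀ g : G, ∀ c (φ : M.R c →ₐ[k] k), ∃ c', ∃ φ' : M.R c' →ₐ[k] k,
    (∀ a, a ∈ M.O c φ ↔ (g : Ω ≃ₐ[k] Ω) a ∈ M.O c' φ') ∧
      ∀ j, M.At c φ j ↔ M.At c' φ' (M.π g j)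

/-- the field `F` is stable under `G` -/
def EqF : Prop := ∀ g : G, ∀ a ∈ M.F, (g : Ω ≃ₐ[k] Ω) a ∈ M.F

/-- all properties -/
structure Good (n : ℕ) : Prop extends M.Ok n, M.EqJ where
  eqP : M.EqP
  eqF : M.EqF

/-- the point `(c, φ)` is not on the boundary -/
def Off (c : M.ι) (φ : M.R c →ₐ[k] k) : Prop := ∀ j, ¬ M.At c φ j

end Mdl

end Pool.Agent.KMR
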