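import Pool.Agent.Lib.MP_732f67_ag.R.Defs

/-!
Derivations of `Ω`.
-/

namespace Pool.Agent.KMR

open TensorProduct
open scoped KaehlerDifferential

variable {k Ω : Type} [Field k] [Field Ω] [Algebra k Ω]

/-- the differentials of a transcendence basis are a basis in characteristic zero -/
theorem exists_kbasis_der [CharZero k] {ι : Type} {t : ι → Ω} (ht : IsTranscendenceBasis k t) :
    ∃ b : Module.Basis ι Ω Ω[Ω⁄k], ∀ i, b i = KaehlerDifferential.D k Ω (t i) := by
  set φ : MvPolynomial ι k →ₐ[k] Ω := MvPolynomial.aeval t
  have hinj : Function.Injective φ := ht.1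
  let _ : Algebra (MvPolynomial ι k) Ω := φ.toRingHom.toAlgebra
  have hst : IsScalarTower k (MvPolynomial ι k) Ω :=
    IsScalarTower.of_algebraMap_eq fun c => (φ.commutes c).symm
  have hf : FaithfulSMul (MvPolynomial ι k) Ω :=
    (faithfulSMul_iff_algebraMap_injective _ _).2 hinj
  let _ : Algebra (FractionRing (MvPolynomial ι k)) Ω := FractionRing.liftAlgebra _ _
  have halg0 : Algebra.IsAlgebraic (MvPolynomial ι k) Ω := by
    have h := ht.isAlgebraic
    exact Algebra.IsAlgebraic.of_ringHom_of_comp_eq
      (ht.1.aevalEquiv : MvPolynomial ι k →+* Algebra.adjoin k (Set.range t))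
      (RingHom.id Ω) ht.1.aevalEquiv.surjective Function.injective_id
      (RingHom.ext fun P => ht.1.algebraMap_aevalEquiv P)
  have halg : Algebra.IsAlgebraic (FractionRing (MvPolynomial ι k)) Ω :=
    IsFractionRing.comap_isAlgebraic_iff.1 halg0
  have hetale : Algebra.FormallyEtale (MvPolynomial ι k) Ω := by
    have h1 : Algebra.FormallyEtale (MvPolynomial ι k)
        (FractionRing (MvPolynomial ι k)) :=
      Algebra.FormallyEtale.of_isLocalization (nonZeroDivisors _)
    have h2 : Algebra.FormallyEtale (FractionRing (MvPolynomial ι k)) Ω :=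
      Algebra.FormallyEtale.of_isSeparable _ _
    exact Algebra.FormallyEtale.comp _ (FractionRing (MvPolynomial ι k)) _
  let b := (KaehlerDifferential.mvPolynomialBasis k ι).baseChange Ω
  let e := KaehlerDifferential.tensorKaehlerEquivOfFormallyEtale k (MvPolynomial ι k) Ω
  refine ⟨b.map e, fun i => ?_⟩
  rw [Module.Basis.map_apply, Module.Basis.baseChange_apply,
    KaehlerDifferential.mvPolynomialBasis_apply]
  have := KaehlerDifferential.tensorKaehlerEquivOfFormallyEtale_symm_D_algebraMap k
    (MvPolynomial ι k) Ω (MvPolynomial.X i)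
  rw [← this, LinearEquiv.apply_symm_apply]
  congr 1
  exact MvPolynomial.aeval_X t i

/-- derivations of `Ω` dual to algebraically independent elements (extend `z` to a transcendence
basis; characteristic zero) -/
theorem exists_der [CharZero k] {n : ℕ} (z : Fin n → Ω) (hz : AlgebraicIndependent k z) :
    ∃ D : Fin n → Derivation k Ω Ω, ∀ i j, D i (z j) = if i = j then 1 else 0 := by
  classical
  obtain ⟨t, hst, ht⟩ := exists_isTranscendenceBasis_superset (AlgebraicIndependent.coe_range hz)
  obtain ⟨b, hb⟩ := exists_kbasis_der ht
  let y : Fin n → t := fun i => ⟨z i, hst ⟨i, rfl⟩⟩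
  have hy : Function.Injective y := fun i j h => hz.injective (congrArg Subtype.val h)
  refine ⟨fun i => (b.coord (y i)).compDer (KaehlerDifferential.D k Ω), fun i j => ?_⟩
  show b.coord (y i) (KaehlerDifferential.D k Ω (z j)) = _
  have h1 : KaehlerDifferential.D k Ω (z j) = b (y j) := (hb (y j)).symm
  rw [h1, Module.Basis.coord_apply, Module.Basis.repr_self, Finsupp.single_apply]
  simp only [hy.eq_iff, eq_comm]

/-- a derivation which vanishes on the `z i` vanishes on everything algebraic over `k[z]` -/
theorem der_zero_alg [CharZero k] {n : ℕ} (z : Fin n → Ω) (E : Derivation k Ω Ω)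
    (h : ∀ i, E (z i) = 0) (a : Ω)
    (ha : IsAlgebraic (Algebra.adjoin k (Set.range z)) a) : E a = 0 := by
  have hc : CharZero Ω := (RingHom.charZero_iff (algebraMap k Ω).injective).1 inferInstance
  -- the field of constants
  let K : IntermediateField k Ω :=
    { carrier := {x | E x = 0}
      mul_mem' := by
        intro x y hx hy
        show E (x * y) = 0
        rw [Derivation.leibniz, show E x = 0 from hx, show E y = 0 from hy, smul_zero, smul_zero,
          add_zero]
      add_mem' := by
        intro x y hx hy
        show E (x + y) = 0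
        rw [map_add, show E x = 0 from hx, show E y = 0 from hy, add_zero]
      algebraMap_mem' := fun r => E.map_algebraMap r
      inv_mem' := by
        intro x hx
        show E x⁻¹ = 0
        rw [Derivation.leibniz_inv, show E x = 0 from hx, smul_zero] }
  have hle : Algebra.adjoin k (Set.range z) ≤ K.toSubalgebra := by
    rw [Algebra.adjoin_le_iff]
    rintro _ ⟨i, rfl⟩
    exact h i
  have haK : IsAlgebraic K a := by
    obtain ⟨P, hP0, hP⟩ := ha
    have hinj : Function.Injective (Subalgebra.inclusion hle) :=
      Subalgebra.inclusion_injective hle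
    refine ⟨P.map (Subalgebra.inclusion hle).toRingHom,
      (Polynomial.map_ne_zero_iff (f := (Subalgebra.inclusion hle).toRingHom) hinj).2 hP0, ?_⟩
    rw [Polynomial.aeval_def, Polynomial.eval₂_map]
    exact hP
  -- `E` is linear over the constants
  let E' : Derivation K Ω Ω :=
    { toLinearMap :=
        { toFun := E
          map_add' := fun x y => map_add E x y
          map_smul' := fun c x => by
            show E ((c : Ω) * x) = (c : Ω) * E x
            rw [Derivation.leibniz, show E (c : Ω) = 0 from c.2, smul_zero, add_zero, smul_eq_mul] }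
      map_one_eq_zero' := E.map_one_eq_zero
      leibniz' := fun x y => E.leibniz x y }
  have hint : IsIntegral K a := haK.isIntegral
  have hsep : (minpoly K a).Separable := (minpoly.irreducible hint).separable
  have h1 : E' (Polynomial.aeval a (minpoly K a)) =
      Polynomial.aeval a (Polynomial.derivative (minpoly K a)) • E' a := Derivation.map_aeval _ _ _
  rw [minpoly.aeval, map_zero, smul_eq_mul] at h1
  have h2 : Polynomial.aeval a (Polynomial.derivative (minpoly K a)) ≠ 0 :=
    hsep.aeval_derivative_ne_zero (minpoly.aeval K a)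
  exact (mul_eq_zero.1 h1.symm).resolve_left h2

/-- two derivations of `Ω` which agree on the `z i` agree on everything algebraic over `k[z]` -/
theorem der_unique [CharZero k] {n : ℕ} (z : Fin n → Ω) (D D' : Derivation k Ω Ω)
    (h : ∀ i, D (z i) = D' (z i)) (a : Ω)
    (ha : IsAlgebraic (Algebra.adjoin k (Set.range z)) a) : D a = D' a := by
  have h1 := der_zero_alg z (D - D') (fun i => by rw [Derivation.sub_apply, h, sub_self]) a ha
  rwa [Derivation.sub_apply, sub_eq_zero] at h1

/-- the derivations dual to `z` commute on everything algebraic over `k[z]` -/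
theorem der_comm [CharZero k] {n : ℕ} (z : Fin n → Ω) (hz : AlgebraicIndependent k z)
    (D : Fin n → Derivation k Ω Ω) (hD : ∀ i j, D i (z j) = if i = j then 1 else 0) (i j : Fin n)
    (a : Ω) (ha : IsAlgebraic (Algebra.adjoin k (Set.range z)) a) :
    D i (D j a) = D j (D i a) := by
  have h1 := der_zero_alg z ⁅D i, D j⁆ (fun l => by
    rw [Derivation.commutator_apply, hD, hD]
    split_ifs <;> simp only [Derivation.map_one_eq_zero, map_zero, sub_self]) a ha
  rwa [Derivation.commutator_apply, sub_eq_zero] at h1

end Pool.Agent.KMR
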