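import Pool.Agent.Lib.MP_732f67_ag.R.EtCh
import Pool.Agent.Lib.MP_732f67_ag.R.Der

/-!
Derivations preserve local rings.
-/

namespace Pool.Agent.KMR

variable {k Ω : Type} [Field k] [Field Ω] [Algebra k Ω]

/-- a derivation which maps generators into `O` maps the algebra generated by them into `O` -/
theorem der_adjoin {O : Subalgebra k Ω} (D : Derivation k Ω Ω) {s : Set Ω}
    (hs : ∀ a ∈ s, a ∈ O ∧ D a ∈ O) (a : Ω) (ha : a ∈ Algebra.adjoin k s) : a ∈ O ∧ D a ∈ O := by
  induction ha using Algebra.adjoin_induction with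
  | mem w hw => exact hs w hw
  | algebraMap r =>
    refine ⟨O.algebraMap_mem r, ?_⟩
    rw [Derivation.map_algebraMap]
    exact O.zero_mem
  | add z w _ _ hz hw =>
    refine ⟨O.add_mem hz.1 hw.1, ?_⟩
    rw [map_add]
    exact O.add_mem hz.2 hw.2
  | mul z w _ _ hz hw =>
    refine ⟨O.mul_mem hz.1 hw.1, ?_⟩
    rw [Derivation.leibniz, smul_eq_mul, smul_eq_mul]
    exact O.add_mem (O.mul_mem hz.1 hw.2) (O.mul_mem hw.1 hz.2)

/-- the derivative of the value of a polynomial -/
theorem der_ev {O : Subalgebra k Ω} (D : Derivation k Ω Ω) {n : ℕ} (z : Fin n → Ω)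
    (hz : ∀ i, z i ∈ O) (hD : ∀ i, D (z i) ∈ O) (y : Ω) (hy : y ∈ O)
    (f : Polynomial (MvPolynomial (Fin n) k)) :
    D (ev z y f) - ev z y f.derivative * D y ∈ O := by
  induction f using Polynomial.induction_on' with
  | add p q hp hq =>
    have h1 : D (ev z y (p + q)) - ev z y (p + q).derivative * D y =
        (D (ev z y p) - ev z y p.derivative * D y) + (D (ev z y q) - ev z y q.derivative * D y) := by
      simp only [ev, Polynomial.eval₂_add, map_add]
      ring
    rw [h1]
    exact O.add_mem hp hq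
  | monomial m a =>
    have ha : D (MvPolynomial.aeval z a) ∈ O := by
      refine (der_adjoin D (s := Set.range z) ?_ _ ?_).2
      · rintro _ ⟨i, rfl⟩
        exact ⟨hz i, hD i⟩
      · rw [Algebra.adjoin_range_eq_range_aeval]
        exact ⟨a, rfl⟩
    have h1 : D (ev z y (Polynomial.monomial m a)) -
        ev z y (Polynomial.monomial m a).derivative * D y = y ^ m * D (MvPolynomial.aeval z a) := by
      rw [Polynomial.derivative_monomial, ev, ev, Polynomial.eval₂_monomial,
        Polynomial.eval₂_monomial]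
      have h2 : (MvPolynomial.aeval z : MvPolynomial (Fin n) k →ₐ[k] Ω).toRingHom (a * (m : _)) =
          MvPolynomial.aeval z a * (m : Ω) := by
        rw [map_mul, map_natCast]
        rfl
      have h3 : (MvPolynomial.aeval z : MvPolynomial (Fin n) k →ₐ[k] Ω).toRingHom a =
          MvPolynomial.aeval z a := rfl
      rw [h2, h3, Derivation.leibniz, Derivation.leibniz_pow]
      simp only [smul_eq_mul, nsmul_eq_mul]
      ring
    rw [h1]
    exact O.mul_mem (O.pow_mem hy m) ha

/-- a derivation which maps the parameters into `O` preserves `O`.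
PROOF. On `A = k[z, y, u]` (`exists_ch_aux`): `D y = - f^D (y) / f' (y)`, `D u = - u ^ 2 D (u⁻¹)`;
every element of `O = Loc R φ` is a quotient of elements of `R ≤ A`. -/
theorem der_mem {R : Subalgebra k Ω} {n : ℕ} [IsAlgClosed k] [CharZero k] (h : R.FG)
    (φ : R →ₐ[k] k) (z : Fin n → Ω) (hz : Par (Loc R φ) z) (D : Derivation k Ω Ω)
    (hD : ∀ i, D (z i) ∈ Loc R φ) (a : Ω) (ha : a ∈ Loc R φ) : D a ∈ Loc R φ := by
  obtain ⟨A, y, u, f, hRA, hAO, -, hf0, hf', hfA, hu0, hu, hA⟩ := exists_ch_aux h φ z hz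
  set O := Loc R φ with hO
  have hyA : y ∈ A := by
    rw [hA]
    exact Algebra.subset_adjoin (Or.inr (Or.inl rfl))
  have huA : u ∈ A := by
    rw [hA]
    exact Algebra.subset_adjoin (Or.inr (Or.inr rfl))
  have hDy : D y ∈ O := by
    have h1 := der_ev (O := O) D z (fun i => (hz.1 i).1) hD y (hAO hyA) f
    rw [hf0, map_zero, zero_sub] at h1
    have h2 : D y = -((ev z y f.derivative)⁻¹ * -(ev z y f.derivative * D y)) := by
      field_simp
    rw [h2]
    exact O.neg_mem (O.mul_mem (hAO hfA) h1)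
  have hDu : D u ∈ O := by
    have h1 := (der_adjoin (O := O) D (s := Set.range z ∪ {y}) (by
      rintro w (⟨i, rfl⟩ | hw)
      · exact ⟨(hz.1 i).1, hD i⟩
      · rw [Set.mem_singleton_iff] at hw
        rw [hw]
        exact ⟨hAO hyA, hDy⟩) _ hu).2
    rw [Derivation.leibniz_inv, smul_eq_mul] at h1
    have h2 : D u = -(u * u * (-u⁻¹ ^ 2 * D u)) := by
      field_simp
    rw [h2]
    exact O.neg_mem (O.mul_mem (O.mul_mem (hAO huA) (hAO huA)) h1)
  have hDA : ∀ b ∈ A, D b ∈ O := by
    intro b hb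
    rw [hA] at hb
    refine (der_adjoin (O := O) D ?_ b hb).2
    rintro w (⟨i, rfl⟩ | hw | hw)
    · exact ⟨(hz.1 i).1, hD i⟩
    · rw [hw]
      exact ⟨hAO hyA, hDy⟩
    · rw [Set.mem_singleton_iff] at hw
      rw [hw]
      exact ⟨hAO huA, hDu⟩
  obtain ⟨b, c, hc, rfl⟩ := (mem_loc φ).1 ha
  have hc0 : (c : Ω) ≠ 0 := fun h0 => hc (by rw [show c = 0 from Subtype.ext h0, map_zero])
  have hcinv : (c : Ω)⁻¹ ∈ O := ((un_loc φ c).2 hc).2.2
  have h1 : D (b / c : Ω) = (c : Ω)⁻¹ * (D b - (b / c : Ω) * D c) := by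
    have h2 : (b : Ω) = (b / c : Ω) * c := by field_simp
    have h3 : D (b : Ω) = (b / c : Ω) * D c + c * D (b / c : Ω) := by
      conv_lhs => rw [h2]
      rw [Derivation.leibniz, smul_eq_mul, smul_eq_mul]
    rw [h3]
    field_simp
    ring
  rw [h1]
  exact O.mul_mem hcinv (O.sub_mem (hDA _ (hRA b.2)) (O.mul_mem ha (hDA _ (hRA c.2))))

end Pool.Agent.KMR
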