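import Mathlib

/-!
A criterion for unramified points.
-/

namespace Pool.Agent.KMR

open scoped KaehlerDifferential

/-- `S` is unramified over `S0` at the prime `q` if the residue classes mod `q` come from `S0` and
`q S_q` is generated by elements `z i` of `S0` -/
theorem isUnramifiedAt_of_gen {S0 S : Type*} [CommRing S0] [CommRing S] [Algebra S0 S]
    [Algebra.FiniteType S0 S] (q : Ideal S) [q.IsPrime] {ι : Type*} [Fintype ι] (z : ι → S0)
    (hz : ∀ i, algebraMap S0 S (z i) ∈ q) (h1 : ∀ s : S, ∃ c : S0, s - algebraMap S0 S c ∈ q)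
    (h2 : ∀ r ∈ q, ∃ c ∉ q, ∃ b : ι → S, c * r = ∑ i, b i * algebraMap S0 S (z i)) :
    Algebra.IsUnramifiedAt S0 q := by
  let Sq := Localization.AtPrime q
  have : Algebra.EssFiniteType S0 Sq := .comp S0 S Sq
  let m := IsLocalRing.maximalIdeal Sq
  let N : Submodule Sq (Ω[Sq⁄S0]) := m • ⊤
  let D := KaehlerDifferential.D S0 Sq
  have hmem : ∀ r ∈ q, algebraMap S Sq r ∈ m := fun r hr =>
    (IsLocalization.AtPrime.to_map_mem_maximal_iff Sq q r).2 hr
  have hunit : ∀ c ∉ q, IsUnit (algebraMap S Sq c) := fun c hc =>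
    (IsLocalization.AtPrime.isUnit_to_map_iff Sq q c).2 hc
  have hu : ∀ (c : Sq) (x : Ω[Sq⁄S0]), IsUnit c → c • x ∈ N → x ∈ N := by
    rintro _ x ⟨c, rfl⟩ hx
    have h := N.smul_mem (↑c⁻¹ : Sq) hx
    rwa [smul_smul, Units.inv_mul, one_smul] at h
  have hS0 : ∀ c : S0, D (algebraMap S Sq (algebraMap S0 S c)) = 0 := by
    intro c
    rw [← IsScalarTower.algebraMap_apply S0 S Sq]
    exact Derivation.map_algebraMap D c
  have hr : ∀ r ∈ q, D (algebraMap S Sq r) ∈ N := by
    intro r hr
    obtain ⟨c, hc, b, hb⟩ := h2 r hr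
    have h := congrArg (fun s => D (algebraMap S Sq s)) hb
    simp only [map_mul, map_sum, Derivation.leibniz, hS0, smul_zero, zero_add] at h
    apply hu _ _ (hunit c hc)
    have h3 : algebraMap S Sq c • D (algebraMap S Sq r) =
        ∑ i, algebraMap S Sq (algebraMap S0 S (z i)) • D (algebraMap S Sq (b i)) -
          algebraMap S Sq r • D (algebraMap S Sq c) := by
      rw [← h]
      abel
    rw [h3]
    refine N.sub_mem (N.sum_mem fun i _ => ?_) ?_
    · exact Submodule.smul_mem_smul (hmem _ (hz i)) trivial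
    · exact Submodule.smul_mem_smul (hmem _ hr) trivial
  have hs : ∀ s : S, D (algebraMap S Sq s) ∈ N := by
    intro s
    obtain ⟨c, hc⟩ := h1 s
    have h := hr _ hc
    rwa [map_sub, map_sub, hS0, sub_zero] at h
  have hx : ∀ x : Sq, D x ∈ N := by
    intro x
    obtain ⟨⟨r, s⟩, h⟩ := IsLocalization.surj q.primeCompl x
    have h' := congrArg D h
    simp only [Derivation.leibniz] at h'
    apply hu _ _ (hunit s.1 s.2)
    have h3 : algebraMap S Sq s.1 • D x = D (algebraMap S Sq r) - x • D (algebraMap S Sq s.1) := by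
      rw [← h']
      abel
    rw [h3]
    exact N.sub_mem (hs r) (N.smul_mem _ (hs _))
  have htop : (⊤ : Submodule Sq (Ω[Sq⁄S0])) ≤ m • ⊤ := by
    rw [← KaehlerDifferential.span_range_derivation S0 Sq, Submodule.span_le]
    rintro _ ⟨x, rfl⟩
    rw [KaehlerDifferential.span_range_derivation S0 Sq]
    exact hx x
  have hbot := Submodule.eq_bot_of_le_smul_of_le_jacobson_bot m ⊤ Module.Finite.fg_top htop
    (IsLocalRing.maximalIdeal_le_jacobson _)
  refine ⟨?_⟩
  exact (Submodule.subsingleton_iff Sq).1 (subsingleton_of_bot_eq_top hbot.symm)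

end Pool.Agent.KMR
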