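import Pool.Agent.Lib.MP_732f67_ag.R.Pt

/-!
Systems of parameters of a local ring of a point.
-/

namespace Pool.Agent.KMR

variable {k Ω : Type} [Field k] [Field Ω] [Algebra k Ω]

theorem mem_map_iff (O : Subalgebra k Ω) (g : Ω ≃ₐ[k] Ω) (a : Ω) :
    g a ∈ O.map (g : Ω →ₐ[k] Ω) ↔ a ∈ O := by
  constructor
  · rintro ⟨b, hb, hab⟩
    have h1 : b = a := g.injective hab
    rw [← h1]
    exact hb
  · intro ha
    exact ⟨a, ha, rfl⟩

theorem un_map_iff (O : Subalgebra k Ω) (g : Ω ≃ₐ[k] Ω) (a : Ω) :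
    Un (O.map (g : Ω →ₐ[k] Ω)) (g a) ↔ Un O a := by
  unfold Un
  rw [← map_inv₀, mem_map_iff, mem_map_iff, map_ne_zero_iff g g.injective]

/-- the image of `O` under an automorphism is again such a ring -/
theorem IsPt.map {O : Subalgebra k Ω} (h : IsPt O) (g : Ω ≃ₐ[k] Ω) :
    IsPt (O.map (g : Ω →ₐ[k] Ω)) := by
  obtain ⟨φ, hφ⟩ := h
  let e := O.equivMapOfInjective (g : Ω →ₐ[k] Ω) g.injective
  refine ⟨φ.comp (e.symm : O.map (g : Ω →ₐ[k] Ω) →ₐ[k] O), fun b => ?_⟩
  have h1 : (b : Ω) = g ((e.symm b : O) : Ω) := by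
    have h2 := congrArg (Subtype.val) (e.apply_symm_apply b)
    exact h2.symm
  rw [h1, un_map_iff]
  exact hφ (e.symm b)

/-- the image of a system of parameters under an automorphism -/
theorem Par.map {O : Subalgebra k Ω} {n : ℕ} {z : Fin n → Ω} (hz : Par O z) (g : Ω ≃ₐ[k] Ω) :
    Par (O.map (g : Ω →ₐ[k] Ω)) (fun i => g (z i)) := by
  refine ⟨fun i => ⟨(mem_map_iff O g _).2 (hz.1 i).1, fun hu =>
    (hz.1 i).2 ((un_map_iff O g _).1 hu)⟩, ?_⟩
  rintro _ ⟨r, hr, rfl⟩ hu
  obtain ⟨a, ha, hra⟩ := hz.2 r hr (fun h => hu ((un_map_iff O g r).2 h))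
  refine ⟨fun i => g (a i), fun i => (mem_map_iff O g _).2 (ha i), ?_⟩
  change g r = _
  rw [hra, map_sum]
  exact Finset.sum_congr rfl fun i _ => map_mul g _ _

/-- parameters can be changed by an invertible matrix; here only: replace `z i₀` by
`y = ∑ a i * z i` with `a i₀` a unit -/
theorem Par.replace {O : Subalgebra k Ω} (h : IsPt O) {n : ℕ} {z : Fin n → Ω} (hz : Par O z)
    (a : Fin n → Ω) (ha : ∀ i, a i ∈ O) (i₀ : Fin n) (hu : Un O (a i₀)) :
    Par O (Function.update z i₀ (∑ i, a i * z i)) := by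
  have hsum : (∑ i, a i * z i) ∈ O := O.sum_mem fun i _ => O.mul_mem (ha i) (hz.1 i).1
  have hnu : ¬ Un O (∑ i, a i * z i) := by
    refine h.sum _ _ fun i _ => ⟨O.mul_mem (ha i) (hz.1 i).1, ?_⟩
    rw [mul_comm]
    exact h.mul _ _ (hz.1 i).1 (ha i) (hz.1 i).2
  constructor
  · intro i
    by_cases hi : i = i₀
    · subst hi
      rw [Function.update_self]
      exact ⟨hsum, hnu⟩
    · rw [Function.update_of_ne hi]
      exact hz.1 i
  · intro r hr hnr
    obtain ⟨b, hb, hrb⟩ := hz.2 r hr hnr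
    set c := b i₀ * (a i₀)⁻¹ with hc
    have hcO : c ∈ O := O.mul_mem (hb i₀) hu.2.2
    refine ⟨Function.update (fun i => b i - c * a i) i₀ c, ?_, ?_⟩
    · intro i
      by_cases hi : i = i₀
      · subst hi
        rw [Function.update_self]
        exact hcO
      · rw [Function.update_of_ne hi]
        exact O.sub_mem (hb i) (O.mul_mem hcO (ha i))
    · rw [hrb]
      have h1 : ∀ (f w : Fin n → Ω) (x y : Ω),
          ∑ i, Function.update f i₀ x i * Function.update w i₀ y i =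
            x * y + ∑ i ∈ Finset.univ.erase i₀, f i * w i := by
        intro f w x y
        rw [← Finset.add_sum_erase _ _ (Finset.mem_univ i₀), Function.update_self,
          Function.update_self]
        congr 1
        refine Finset.sum_congr rfl fun i hi => ?_
        rw [Function.update_of_ne (Finset.ne_of_mem_erase hi),
          Function.update_of_ne (Finset.ne_of_mem_erase hi)]
      rw [h1, ← Finset.add_sum_erase _ _ (Finset.mem_univ i₀),
        ← Finset.add_sum_erase Finset.univ (fun i => a i * z i) (Finset.mem_univ i₀)]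
      have h2 : ∑ i ∈ Finset.univ.erase i₀, (b i - c * a i) * z i =
          ∑ i ∈ Finset.univ.erase i₀, b i * z i -
            c * ∑ i ∈ Finset.univ.erase i₀, a i * z i := by
        rw [Finset.mul_sum, ← Finset.sum_sub_distrib]
        exact Finset.sum_congr rfl fun i _ => by ring
      have h3 : c * a i₀ = b i₀ := by
        rw [hc, mul_assoc, inv_mul_cancel₀ hu.1, mul_one]
      rw [h2, mul_add, ← mul_assoc, h3]
      ring

/-- multiplying parameters by units -/
theorem Par.smul {O : Subalgebra k Ω} (h : IsPt O) {n : ℕ} {z : Fin n → Ω} (hz : Par O z)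
    (e : Fin n → Ω) (he : ∀ i, Un O (e i)) : Par O (fun i => e i * z i) := by
  constructor
  · intro i
    refine ⟨O.mul_mem (he i).2.1 (hz.1 i).1, ?_⟩
    change ¬ Un O (e i * z i)
    rw [mul_comm]
    exact h.mul _ _ (hz.1 i).1 (he i).2.1 (hz.1 i).2
  · intro r hr hnr
    obtain ⟨b, hb, hrb⟩ := hz.2 r hr hnr
    refine ⟨fun i => b i * (e i)⁻¹, fun i => O.mul_mem (hb i) (he i).2.2, ?_⟩
    rw [hrb]
    refine Finset.sum_congr rfl fun i _ => ?_
    rw [← mul_assoc, mul_assoc (b i), inv_mul_cancel₀ (he i).1, mul_one]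

/-- reindexing parameters -/
theorem Par.reindex {O : Subalgebra k Ω} {n : ℕ} {z : Fin n → Ω} (hz : Par O z)
    (σ : Equiv.Perm (Fin n)) : Par O (z ∘ σ) := by
  constructor
  · intro i
    exact hz.1 (σ i)
  · intro r hr hnr
    obtain ⟨b, hb, hrb⟩ := hz.2 r hr hnr
    refine ⟨b ∘ σ, fun i => hb (σ i), ?_⟩
    rw [hrb]
    exact (Equiv.sum_comp σ (fun i => b i * z i)).symm

/-- It is enough to write the elements of `R` which vanish at the point: if `R ≤ O`, `O` is the
local ring of `R` at a point, and every non-unit `r ∈ R` becomes an `O`-combination of the `z i`,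
then the `z i` are parameters -/
theorem par_of_loc {R : Subalgebra k Ω} (φ : R →ₐ[k] k) {n : ℕ} {z : Fin n → Ω}
    (hz : ∀ i, z i ∈ Loc R φ ∧ ¬ Un (Loc R φ) (z i))
    (h : ∀ r : R, φ r = 0 → ∃ a : Fin n → Ω, (∀ i, a i ∈ Loc R φ) ∧ (r : Ω) = ∑ i, a i * z i) :
    Par (Loc R φ) z := by
  refine ⟨hz, ?_⟩
  rintro _ ⟨b, c, hc, rfl⟩ hnu
  have hcu : Un (Loc R φ) (c : Ω) := (un_loc φ c).2 hc
  have hb : φ b = 0 := by
    by_contra hb
    apply hnu
    rw [div_eq_mul_inv]
    exact ((un_loc φ b).2 hb).mul hcu.inv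
  obtain ⟨a, ha, hba⟩ := h b hb
  refine ⟨fun i => a i * (c : Ω)⁻¹, fun i => (Loc R φ).mul_mem (ha i) hcu.2.2, ?_⟩
  rw [hba, div_eq_mul_inv, Finset.sum_mul]
  refine Finset.sum_congr rfl fun i _ => ?_
  ring

end Pool.Agent.KMR
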