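import Pool.Agent.Lib.MP_732f67_ag.R.Nst
import Pool.Agent.Lib.MP_732f67_ag.R.Par
import Pool.Agent.Lib.MP_732f67_ag.R.EtA

/-!
Standard étale charts from parameters (Zariski's main theorem, Mathlib
`RingTheory/Unramified/LocalStructure`).
-/

namespace Pool.Agent.KMR

open Polynomial

variable {k Ω : Type} [Field k] [Field Ω] [Algebra k Ω]

/-- `R` is finitely generated, its field of fractions has transcendence degree `n` -/
structure Dim (R : Subalgebra k Ω) (n : ℕ) : Prop where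
  fg : R.FG
  trd : ∃ t : Fin n → Ω, (∀ i, ∃ b ∈ R, ∃ d ∈ R, d ≠ 0 ∧ t i = b / d) ∧
    AlgebraicIndependent k t ∧ ∀ a ∈ R, IsAlgebraic (Algebra.adjoin k (Set.range t)) a

/-- the value of `f` at `x`, `y` -/
noncomputable def ev {n : ℕ} (x : Fin n → Ω) (y : Ω) (f : (MvPolynomial (Fin n) k)[X]) : Ω :=
  f.eval₂ (MvPolynomial.aeval x : MvPolynomial (Fin n) k →ₐ[k] Ω).toRingHom y

/-- `A = k[z, y, u]` is a standard étale chart over `k[z]`: `y` is a root of an irreducible
polynomial, monic in `Y`, whose derivative at `y` is invertible in `A`, and `u` is the inverse of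
an element of `k[z, y]` -/
structure Ch (A : Subalgebra k Ω) {n : ℕ} (z : Fin n → Ω) (y u : Ω) : Prop where
  ind : AlgebraicIndependent k z
  pol : ∃ f : (MvPolynomial (Fin n) k)[X], f.Monic ∧ Irreducible f ∧ ev z y f = 0 ∧
    ev z y f.derivative ≠ 0 ∧ (ev z y f.derivative)⁻¹ ∈ A
  u_ne : u ≠ 0
  u_inv : u⁻¹ ∈ Algebra.adjoin k (Set.range z ∪ {y})
  A_eq : A = Algebra.adjoin k (Set.range z ∪ {y, u})

/-- `ev z y g` is a polynomial in the `z i` and `y` -/
theorem ev_mem {n : ℕ} (z : Fin n → Ω) (y : Ω) (g : (MvPolynomial (Fin n) k)[X]) :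
    ev z y g ∈ Algebra.adjoin k (Set.range z ∪ {y}) := by
  rw [ev, eval₂_eq_sum, Polynomial.sum]
  refine Subalgebra.sum_mem _ fun i _ => Subalgebra.mul_mem _ ?_ (Subalgebra.pow_mem _ ?_ i)
  · have h1 : (MvPolynomial.aeval z : MvPolynomial (Fin n) k →ₐ[k] Ω) (g.coeff i) ∈
        Algebra.adjoin k (Set.range z) := by
      rw [Algebra.adjoin_range_eq_range_aeval]
      exact ⟨_, rfl⟩
    exact Algebra.adjoin_mono Set.subset_union_left h1
  · exact Algebra.subset_adjoin (Or.inr rfl)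

/-- the elements of the maximal ideal of `Loc R ψ` with a common denominator -/
theorem exists_common {R : Subalgebra k Ω} (ψ : R →ₐ[k] k) {n : ℕ} (z : Fin n → R) (r : R)
    (a : Fin n → Ω) (ha : ∀ i, a i ∈ Loc R ψ) (hr : (r : Ω) = ∑ i, a i * z i) :
    ∃ c ∉ RingHom.ker ψ, ∃ b : Fin n → R, c * r = ∑ i, b i * z i := by
  classical
  choose b c hc hbc using fun i => (mem_loc ψ).1 (ha i)
  have hc0 : ∀ i, (c i : Ω) ≠ 0 := fun i h0 =>
    hc i (by rw [show c i = 0 from Subtype.ext h0, map_zero])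
  refine ⟨∏ i, c i, ?_, fun i => b i * ∏ j ∈ Finset.univ.erase i, c j, ?_⟩
  · rw [RingHom.mem_ker, map_prod]
    exact Finset.prod_ne_zero_iff.2 fun i _ => hc i
  · apply Subtype.ext
    simp only [MulMemClass.coe_mul, AddSubmonoidClass.coe_finsetSum, SubmonoidClass.coe_finsetProd]
    rw [hr, Finset.mul_sum]
    refine Finset.sum_congr rfl fun i _ => ?_
    rw [hbc i, ← Finset.mul_prod_erase Finset.univ (fun j => (c j : Ω)) (Finset.mem_univ i)]
    field_simp [hc0 i]

/-- A finitely generated `R` with parameters `z` at `φ` (`par`: the maximal ideal at `φ` is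
generated by the `z i`): there are `y`, `u` and a monic polynomial `f ∈ k[z][Y]`, not assumed
irreducible, with `f (y) = 0`, `f' (y)` invertible in `A = k[z, y, u]`, `u⁻¹ ∈ k[z, y]` and
`R ≤ A ≤ Loc R φ`.
PROOF. Replace `R` by `R' = R[z]`. `R'` is an
algebra of finite type over `P = MvPolynomial (Fin n) k` by `aeval z`; at `q = ker φ`, which lies
over `p = (X_1, .., X_n)`, we have `p R'_q = q R'_q` (`Par`) and equal residue fields `k`: `R'` is
unramified over `P` at `q` (`isUnramifiedAt_of_gen`). Mathlib's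
`Algebra.exists_hasStandardEtaleSurjectionOn` gives `f₀ ∉ q` and a surjection from a standard étale
`P`-algebra onto `R'[1/f₀]`; take `A = R'[1/f₀]`, `y` = the image of the standard generator, `u` the
inverse of the image of `g`. -/
theorem exists_ch_aux {R : Subalgebra k Ω} {n : ℕ} [IsAlgClosed k] [CharZero k] (h : R.FG)
    (φ : R →ₐ[k] k) (z : Fin n → Ω) (hz : Par (Loc R φ) z) :
    ∃ (A : Subalgebra k Ω) (y u : Ω) (f : (MvPolynomial (Fin n) k)[X]), R ≤ A ∧ A ≤ Loc R φ ∧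
      f.Monic ∧ ev z y f = 0 ∧ ev z y f.derivative ≠ 0 ∧ (ev z y f.derivative)⁻¹ ∈ A ∧ u ≠ 0 ∧
      u⁻¹ ∈ Algebra.adjoin k (Set.range z ∪ {y}) ∧ A = Algebra.adjoin k (Set.range z ∪ {y, u}) := by
  classical
  let R' : Subalgebra k Ω := R ⊔ Algebra.adjoin k (Set.range z)
  have hR'fg : R'.FG := h.sup ⟨Finset.univ.image z, by simp⟩
  have hRR' : R ≤ R' := le_sup_left
  have hzR' : ∀ i, z i ∈ R' := fun i =>
    (le_sup_right : Algebra.adjoin k (Set.range z) ≤ R') (Algebra.subset_adjoin ⟨i, rfl⟩)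
  have hR'L : R' ≤ Loc R φ := sup_le (le_loc φ) (Algebra.adjoin_le (by
    rintro _ ⟨i, rfl⟩
    exact (hz.1 i).1))
  obtain ⟨ψ, hψ1, hψ2⟩ := (isPt_loc φ).exists_eq_loc R' hR'L (by
    intro a ha
    obtain ⟨b, c, hc, rfl⟩ := (mem_loc φ).1 ha
    exact ⟨b, hRR' b.2, c, hRR' c.2, (un_loc φ c).2 hc, rfl⟩)
  let S0 := MvPolynomial (Fin n) k
  let z' : Fin n → R' := fun i => ⟨z i, hzR' i⟩
  let _ : Algebra S0 R' := (MvPolynomial.aeval z' : S0 →ₐ[k] R').toRingHom.toAlgebra
  have : IsScalarTower k S0 R' := IsScalarTower.of_algebraMap_eq fun c =>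
    ((MvPolynomial.aeval z' : S0 →ₐ[k] R').commutes c).symm
  let _ : Algebra S0 Ω := (MvPolynomial.aeval z : S0 →ₐ[k] Ω).toRingHom.toAlgebra
  have hcomp : R'.val.comp (MvPolynomial.aeval z' : S0 →ₐ[k] R') = MvPolynomial.aeval z := by
    apply MvPolynomial.algHom_ext
    intro i
    simp [z']
  have : IsScalarTower S0 R' Ω := IsScalarTower.of_algebraMap_eq fun p =>
    (DFunLike.congr_fun hcomp p).symm
  have : Algebra.FiniteType k R' := R'.fg_iff_finiteType.1 hR'fg
  have : Algebra.FiniteType S0 R' := .of_restrictScalars_finiteType k S0 R'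
  let q : Ideal R' := RingHom.ker ψ
  have : q.IsPrime := RingHom.ker_isPrime _
  have hX : ∀ i, algebraMap S0 R' (MvPolynomial.X i) = z' i := fun i =>
    MvPolynomial.aeval_X z' i
  have hun : Algebra.IsUnramifiedAt S0 q := by
    refine isUnramifiedAt_of_gen q (fun i => MvPolynomial.X i) ?_ ?_ ?_
    · intro i
      rw [hX, RingHom.mem_ker]
      by_contra h0
      exact (hz.1 i).2 ((hψ1 (z' i)).1 h0)
    · intro s
      refine ⟨MvPolynomial.C (ψ s), ?_⟩
      have h1 : algebraMap S0 R' (MvPolynomial.C (ψ s)) = algebraMap k R' (ψ s) :=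
        (MvPolynomial.aeval z' : S0 →ₐ[k] R').commutes _
      rw [h1, RingHom.mem_ker, map_sub, AlgHom.commutes]
      exact sub_self _
    · intro r hr
      have hr0 : ¬ Un (Loc R φ) (r : Ω) := fun h0 => ((hψ1 r).2 h0) hr
      obtain ⟨a, ha, hsum⟩ := hz.2 r (hR'L r.2) hr0
      obtain ⟨c, hc, b, hb⟩ := exists_common ψ z' r a (fun i => hψ2 ▸ ha i) hsum
      refine ⟨c, hc, b, ?_⟩
      rw [hb]
      exact Finset.sum_congr rfl fun i _ => by rw [hX]
  obtain ⟨f₀, hf₀, P, ψ', hψ'⟩ :=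
    Algebra.IsUnramifiedAt.exists_hasStandardEtaleSurjectionOn (R := S0) q
  have hf₀' : ψ f₀ ≠ 0 := hf₀
  have hf₀0 : (f₀ : Ω) ≠ 0 := fun h0 =>
    hf₀' (by rw [show f₀ = 0 from Subtype.ext h0, map_zero])
  let Lf := Localization.Away f₀
  let ι : R' →ₐ[S0] Ω := IsScalarTower.toAlgHom S0 R' Ω
  have hι : IsUnit (ι f₀) := isUnit_iff_ne_zero.2 hf₀0
  let g : Lf →ₐ[S0] Ω := IsLocalization.Away.liftAlgHom f₀ (f := ι) hι
  have hg : ∀ r : R', g (algebraMap R' Lf r) = r := fun r =>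
    IsLocalization.Away.lift_eq f₀ hι r
  have hgL : ∀ x : Lf, g x ∈ Loc R φ := by
    intro x
    obtain ⟨⟨r, s⟩, hx⟩ := IsLocalization.surj (Submonoid.powers f₀) x
    obtain ⟨N, hN⟩ := s.2
    have h1 := congrArg g hx
    rw [map_mul, hg, hg] at h1
    rw [← hψ2, mem_loc]
    have hs : ψ s.1 ≠ 0 := by
      rw [← hN, map_pow]
      exact pow_ne_zero N hf₀'
    refine ⟨r, s.1, hs, ?_⟩
    have hs0 : ((s.1 : R') : Ω) ≠ 0 := fun h0 =>
      hs (by rw [show s.1 = 0 from Subtype.ext h0, map_zero])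
    rw [eq_div_iff hs0]
    exact h1
  let G : P.Ring →ₐ[S0] Ω := g.comp ψ'
  let y : Ω := G P.X
  let u : Ω := (aeval y P.g)⁻¹
  have hmap : P.HasMap y := P.hasMap_X.map G
  have hu0 : aeval y P.g ≠ 0 := hmap.2.ne_zero
  let A : Subalgebra k Ω := Algebra.adjoin k (Set.range z ∪ {y, u})
  let A' : Subalgebra S0 Ω := Algebra.adjoin S0 {y, u}
  have hyA : y ∈ A' := Algebra.subset_adjoin (Or.inl rfl)
  have huA : u ∈ A' := Algebra.subset_adjoin (Or.inr rfl)
  have hA'A : ∀ b ∈ A', b ∈ A := by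
    intro b hb
    induction hb using Algebra.adjoin_induction with
    | mem w hw => exact Algebra.subset_adjoin (Or.inr hw)
    | algebraMap r =>
      have h1 : (MvPolynomial.aeval z : S0 →ₐ[k] Ω) r ∈ Algebra.adjoin k (Set.range z) := by
        rw [Algebra.adjoin_range_eq_range_aeval]
        exact ⟨r, rfl⟩
      exact Algebra.adjoin_mono Set.subset_union_left h1
    | add z w _ _ hz hw => exact Subalgebra.add_mem _ hz hw
    | mul z w _ _ hz hw => exact Subalgebra.mul_mem _ hz hw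
  have hGA : ∀ p, G p ∈ A := by
    let y' : A' := ⟨y, hyA⟩
    have h1 : ∀ f : S0[X], ((aeval y' f : A') : Ω) = aeval y f := fun f =>
      (aeval_algHom_apply A'.val y' f).symm
    have h2 : P.HasMap y' := by
      refine ⟨Subtype.ext ?_, IsUnit.of_mul_eq_one ⟨u, huA⟩ (Subtype.ext ?_)⟩
      · rw [h1]
        exact hmap.1
      · rw [MulMemClass.coe_mul, h1]
        exact mul_inv_cancel₀ hu0
    have h3 : G = A'.val.comp (P.lift y' h2) := P.hom_ext (by simp [y', y])
    intro p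
    apply hA'A
    rw [h3]
    exact (P.lift y' h2 p).2
  have hinv : ∀ p w : P.Ring, p * w = 1 → (G p)⁻¹ = G w := by
    intro p w hpw
    exact inv_eq_of_mul_eq_one_right (by rw [← map_mul, hpw, map_one])
  have huG : ∃ w, u = G w := by
    obtain ⟨w, hw⟩ := P.hasMap_X.2.exists_right_inv
    refine ⟨w, ?_⟩
    rw [← hinv _ _ hw, ← aeval_algHom_apply]
  refine ⟨A, y, u, P.f, ?_, ?_, P.monic_f, hmap.1, hmap.isUnit_derivative_f.ne_zero, ?_,
    inv_ne_zero hu0, ?_, rfl⟩
  · intro r hr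
    obtain ⟨p, hp⟩ := hψ' (algebraMap R' Lf ⟨r, hRR' hr⟩)
    have h1 : G p = r := by
      change g (ψ' p) = r
      rw [hp, hg]
    rw [← h1]
    exact hGA p
  · refine Algebra.adjoin_le ?_
    rintro _ (⟨i, rfl⟩ | hw | hw)
    · exact (hz.1 i).1
    · rw [hw]
      exact hgL _
    · obtain ⟨w, hw'⟩ := huG
      rw [Set.mem_singleton_iff] at hw
      rw [hw, hw']
      exact hgL _
  · obtain ⟨w, hw⟩ := P.hasMap_X.isUnit_derivative_f.exists_right_inv
    have h1 : ev z y P.f.derivative = G (aeval P.X P.f.derivative) :=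
      aeval_algHom_apply G P.X _
    rw [h1, hinv _ _ hw]
    exact hGA w
  · rw [inv_inv]
    exact ev_mem z y P.g

end Pool.Agent.KMR
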