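import Mathlib

/-!
Transcendence bases inside a field: exchange.
-/

namespace Pool.Agent.KMR

variable {k Ω : Type} [Field k] [Field Ω] [Algebra k Ω]

/-- `n` elements over which `n` algebraically independent elements are algebraic are algebraically
independent -/
theorem ind_of_alg {n : ℕ} {t z : Fin n → Ω} (ht : AlgebraicIndependent k t)
    (halg : ∀ i, IsAlgebraic (Algebra.adjoin k (Set.range z)) (t i)) :
    AlgebraicIndependent k z := by
  let Z := Algebra.adjoin k (Set.range z)
  let E : Subalgebra k Ω := (Subalgebra.algebraicClosure Z Ω).restrictScalars k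
  have hzE : ∀ i, z i ∈ E := fun i =>
    isAlgebraic_algebraMap (⟨z i, Algebra.subset_adjoin ⟨i, rfl⟩⟩ : Z)
  let z' : Fin n → E := fun i => ⟨z i, hzE i⟩
  let t' : Fin n → E := fun i => ⟨t i, halg i⟩
  have ht' : AlgebraicIndependent k t' := AlgebraicIndependent.of_comp E.val ht
  have hle := ht'.cardinalMk_le_trdeg
  have hmap : (Algebra.adjoin k (Set.range z')).map E.val = Z := by
    rw [AlgHom.map_adjoin, ← Set.range_comp]
    rfl
  let f : Algebra.adjoin k (Set.range z') →ₐ[k] Z :=
    AlgHom.codRestrict (E.val.comp (Algebra.adjoin k (Set.range z')).val) Z fun x => by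
      rw [← hmap]
      exact ⟨x.1, x.2, rfl⟩
  have hf : Function.Surjective f := by
    rintro ⟨w, hw⟩
    rw [← hmap] at hw
    obtain ⟨e, he, rfl⟩ := hw
    exact ⟨⟨e, he⟩, rfl⟩
  have : Algebra.IsAlgebraic (Algebra.adjoin k (Set.range z')) E := by
    refine ⟨fun e => ?_⟩
    exact IsAlgebraic.of_ringHom_of_comp_eq (S := Z) (B := Ω) f E.val (a := e) e.2 hf
      Subtype.val_injective rfl
  have hb : IsTranscendenceBasis k z' :=
    Algebra.IsAlgebraic.isTranscendenceBasis_of_le_trdeg_of_finite k z' hle
  exact hb.1.map' (f := E.val) Subtype.val_injective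

/-- the subalgebra generated by `z`, by an element `y` integral over it and by an element `u` with
`u⁻¹ ∈ k[z, y]` is algebraic over `k[z]` -/
theorem alg_of_ch {Z : Subalgebra k Ω} {s : Set Ω} {y u : Ω} (hs : s ⊆ Z)
    (hy : IsAlgebraic Z y) (hu : u⁻¹ ∈ Algebra.adjoin k (s ∪ {y})) :
    ∀ a ∈ Algebra.adjoin k (s ∪ {y, u}), IsAlgebraic Z a := by
  have h1 : ∀ a ∈ Algebra.adjoin k (s ∪ {y}), IsAlgebraic Z a := by
    intro a ha
    induction ha using Algebra.adjoin_induction with
    | mem w hw =>
      rcases hw with hw | hw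
      · exact isAlgebraic_algebraMap (⟨w, hs hw⟩ : Z)
      · rw [Set.mem_singleton_iff] at hw
        rw [hw]
        exact hy
    | algebraMap r => exact isAlgebraic_algebraMap (algebraMap k Z r)
    | add z w _ _ hz hw => exact hz.add hw
    | mul z w _ _ hz hw => exact hz.mul hw
  intro a ha
  induction ha using Algebra.adjoin_induction with
  | mem w hw =>
    rcases hw with hw | hw | hw
    · exact isAlgebraic_algebraMap (⟨w, hs hw⟩ : Z)
    · rw [hw]
      exact hy
    · rw [Set.mem_singleton_iff] at hw
      rw [hw, ← inv_inv u]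
      exact (h1 _ hu).inv
  | algebraMap r => exact isAlgebraic_algebraMap (algebraMap k Z r)
  | add z w _ _ hz hw => exact hz.add hw
  | mul z w _ _ hz hw => exact hz.mul hw

end Pool.Agent.KMR
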