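import Pool.Agent.Lib.MP_732f67_ag.R.Et
import Pool.Agent.Lib.MP_732f67_ag.R.EtChA

/-!
Parameters are a transcendence basis; the standard étale chart.
-/

namespace Pool.Agent.KMR

open Polynomial

variable {k Ω : Type} [Field k] [Field Ω] [Algebra k Ω]

/-- a local ring of `R` is the local ring of `A`, if `R ≤ A ≤ Loc R φ`; and every element of
`Loc R φ` can be put into `A` -/
theorem loc_between {R A : Subalgebra k Ω} (φ : R →ₐ[k] k) (h1 : R ≤ A) (h2 : A ≤ Loc R φ) :
    ∃ ψ : A →ₐ[k] k, Loc A ψ = Loc R φ := by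
  obtain ⟨ψ, -, hψ⟩ := (isPt_loc φ).exists_eq_loc A h2 (by
    intro a ha
    obtain ⟨b, c, hc, rfl⟩ := (mem_loc φ).1 ha
    exact ⟨b, h1 b.2, c, h1 c.2, (un_loc φ c).2 hc, rfl⟩)
  exact ⟨ψ, hψ⟩

/-- the ring `k[z]` acts on `Ω`: roots of monic polynomials are integral over `k[z]` -/
theorem isIntegral_of_ev {n : ℕ} {z : Fin n → Ω} {y : Ω} {f : (MvPolynomial (Fin n) k)[X]}
    (hf : f.Monic) (h0 : ev z y f = 0) : IsIntegral (Algebra.adjoin k (Set.range z)) y := by
  let g : MvPolynomial (Fin n) k →ₐ[k] Algebra.adjoin k (Set.range z) :=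
    MvPolynomial.aeval fun i => ⟨z i, Algebra.subset_adjoin ⟨i, rfl⟩⟩
  have hg : (Algebra.adjoin k (Set.range z)).val.comp g = MvPolynomial.aeval z := by
    apply MvPolynomial.algHom_ext
    intro i
    simp [g]
  refine ⟨f.map g.toRingHom, hf.map _, ?_⟩
  rw [eval₂_map]
  have h1 : (algebraMap (Algebra.adjoin k (Set.range z)) Ω).comp g.toRingHom =
      (MvPolynomial.aeval z : MvPolynomial (Fin n) k →ₐ[k] Ω).toRingHom := by
    rw [← hg]
    rfl
  rw [h1]
  exact h0

/-- parameters are algebraically independent, and everything is algebraic over them.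
PROOF. By `exists_ch_aux` `R` is algebraic over `k[z]` (it is contained in `k[z, y, u]`), so
the transcendence degree `n` of its field of fractions is at most the one of `k(z)`. -/
theorem par_ind {R : Subalgebra k Ω} {n : ℕ} [IsAlgClosed k] [CharZero k] (h : Dim R n)
    (φ : R →ₐ[k] k) (z : Fin n → Ω) (hz : Par (Loc R φ) z) :
    AlgebraicIndependent k z ∧ ∀ a ∈ Loc R φ, IsAlgebraic (Algebra.adjoin k (Set.range z)) a := by
  obtain ⟨A, y, u, f, hRA, -, hf, hfy, -, -, -, huinv, hA⟩ := exists_ch_aux h.fg φ z hz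
  have hy := (isIntegral_of_ev hf hfy).isAlgebraic
  have hAalg : ∀ a ∈ A, IsAlgebraic (Algebra.adjoin k (Set.range z)) a := by
    intro a ha
    rw [hA] at ha
    exact alg_of_ch Algebra.subset_adjoin hy huinv a ha
  have hdiv : ∀ b ∈ R, ∀ c ∈ R, IsAlgebraic (Algebra.adjoin k (Set.range z)) (b / c) := by
    intro b hb c hc
    rw [div_eq_mul_inv]
    exact (hAalg b (hRA hb)).mul (hAalg c (hRA hc)).inv
  constructor
  · obtain ⟨t, htR, ht, -⟩ := h.trd
    refine ind_of_alg ht fun i => ?_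
    obtain ⟨b, hb, d, hd, -, h1⟩ := htR i
    rw [h1]
    exact hdiv b hb d hd
  · intro a ha
    obtain ⟨b, c, -, rfl⟩ := (mem_loc φ).1 ha
    exact hdiv b b.2 c c.2

/-- the standard étale chart at a point with parameters `z`, containing finitely many prescribed
elements of the local ring.
PROOF. `exists_ch_aux` for `R` enlarged by the elements of `s`; `par_ind`; the minimal polynomial
`f₀` of `y` over `k(z)` has coefficients in the normal ring `k[z]` and divides `f`, `f = f₀ q`, so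
`f' (y) = f₀' (y) q (y)`, all in `A`, hence `f₀' (y)` is invertible in `A`. -/
theorem exists_ch {R : Subalgebra k Ω} {n : ℕ} [IsAlgClosed k] [CharZero k] (h : Dim R n)
    (φ : R →ₐ[k] k) (z : Fin n → Ω) (hz : Par (Loc R φ) z) (s : Finset Ω)
    (hs : ∀ a ∈ s, a ∈ Loc R φ) :
    ∃ (A : Subalgebra k Ω) (y u : Ω), R ≤ A ∧ A ≤ Loc R φ ∧ (∀ a ∈ s, a ∈ A) ∧ Ch A z y u := by
  let R' : Subalgebra k Ω := R ⊔ Algebra.adjoin k (s : Set Ω)
  have hR' : R'.FG := h.fg.sup ⟨s, rfl⟩
  have hRR' : R ≤ R' := le_sup_left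
  have hR'L : R' ≤ Loc R φ := sup_le (le_loc φ) (Algebra.adjoin_le fun a ha => hs a ha)
  obtain ⟨ψ, hψ⟩ := loc_between φ hRR' hR'L
  obtain ⟨A, y, u, f, hRA, hAL, hf, hfy, hfne, hfA, hu, huinv, hA⟩ :=
    exists_ch_aux hR' ψ z (hψ ▸ hz)
  have hind := (par_ind h φ z hz).1
  refine ⟨A, y, u, hRR'.trans hRA, hψ ▸ hAL, fun a ha => hRA ?_, hind, ?_, hu, huinv, hA⟩
  · exact (le_sup_right : Algebra.adjoin k (s : Set Ω) ≤ R') (Algebra.subset_adjoin ha)
  let S0 := MvPolynomial (Fin n) k
  let _ : Algebra S0 Ω := (MvPolynomial.aeval z : S0 →ₐ[k] Ω).toRingHom.toAlgebra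
  have hinj : Function.Injective (algebraMap S0 Ω) := hind
  have : FaithfulSMul S0 Ω := (faithfulSMul_iff_algebraMap_injective _ _).2 hinj
  have hint : IsIntegral S0 y := ⟨f, hf, hfy⟩
  have hfy' : aeval y f = 0 := hfy
  obtain ⟨q, hq⟩ := minpoly.isIntegrallyClosed_dvd hint hfy'
  have h2 := congrArg (fun g => aeval y (derivative g)) hq
  have hm : aeval y (minpoly S0 y) = 0 := minpoly.aeval S0 y
  simp only [derivative_mul, map_add, map_mul] at h2
  rw [hm, zero_mul, add_zero] at h2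
  have h3 : ev z y f.derivative = ev z y (minpoly S0 y).derivative * ev z y q := h2
  have hqA : ev z y q ∈ A := by
    have h4 : aeval y q ∈ Algebra.adjoin S0 {y} := aeval_mem_adjoin_singleton S0 y
    have h5 : ∀ b ∈ Algebra.adjoin S0 {y}, b ∈ A := by
      intro b hb
      induction hb using Algebra.adjoin_induction with
      | mem w hw =>
        rw [Set.mem_singleton_iff] at hw
        rw [hw, hA]
        exact Algebra.subset_adjoin (Or.inr (Or.inl rfl))
      | algebraMap r =>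
        have h1 : (MvPolynomial.aeval z : S0 →ₐ[k] Ω) r ∈ Algebra.adjoin k (Set.range z) := by
          rw [Algebra.adjoin_range_eq_range_aeval]
          exact ⟨r, rfl⟩
        rw [hA]
        exact Algebra.adjoin_mono Set.subset_union_left h1
      | add z w _ _ hz hw => exact Subalgebra.add_mem _ hz hw
      | mul z w _ _ hz hw => exact Subalgebra.mul_mem _ hz hw
    exact h5 _ h4
  have hq0 : ev z y q ≠ 0 := fun h0 => hfne (by rw [h3, h0, mul_zero])
  have hm0 : ev z y (minpoly S0 y).derivative ≠ 0 := fun h0 => hfne (by rw [h3, h0, zero_mul])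
  refine ⟨minpoly S0 y, minpoly.monic hint, minpoly.irreducible hint, minpoly.aeval S0 y, hm0, ?_⟩
  have h6 : (ev z y (minpoly S0 y).derivative)⁻¹ = (ev z y f.derivative)⁻¹ * ev z y q := by
    rw [h3, mul_inv, mul_assoc, inv_mul_cancel₀ hq0, mul_one]
  rw [h6]
  exact A.mul_mem hfA hqA

end Pool.Agent.KMR
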