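import Pool.Agent.Lib.MP_732f67_ag.R.Vx

/-!
Operations on the labels and on the group `Ψ`; charts and local rings do not change.
`trim`: drop the labels which do not occur; `spl`: split the labels by the exponents of a
Cartier divisor supported on the boundary; `addf`: enlarge `Ψ` by a function with divisor
supported on the boundary; `addd`: enlarge the boundary by a divisor.
-/

namespace Pool.Agent.KMR

variable {k Ω : Type} [Field k] [Field Ω] [Algebra k Ω]

namespace Mdl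

variable {G : Subgroup (Ω ≃ₐ[k] Ω)} (M : Mdl k Ω G) {n : ℕ}

/-- the label `j` occurs -/
def Occ (j : M.J) : Prop := ∃ c, j ∈ M.S c

/-- the permutation of the labels which occur -/
def occPerm (ho : ∀ g : G, ∀ j, M.Occ j → M.Occ (M.π g j)) (g : G) :
    Equiv.Perm {j // M.Occ j} where
  toFun j := ⟨M.π g j, ho g j j.2⟩
  invFun j := ⟨M.π g⁻¹ j, ho g⁻¹ j j.2⟩
  left_inv j := Subtype.ext (by
    change M.π g⁻¹ (M.π g j) = j
    rw [← Equiv.Perm.mul_apply, ← map_mul, inv_mul_cancel, map_one]; rfl)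
  right_inv j := Subtype.ext (by
    change M.π g (M.π g⁻¹ j) = j
    rw [← Equiv.Perm.mul_apply, ← map_mul, mul_inv_cancel, map_one]; rfl)

open Classical in
/-- drop the labels which do not occur -/
noncomputable def trim (ho : ∀ g : G, ∀ j, M.Occ j → M.Occ (M.π g j)) : Mdl k Ω G where
  F := M.F
  ι := M.ι
  J := {j // M.Occ j}
  R := M.R
  S c := (M.S c).subtype M.Occ
  x c j := M.x c j
  s := M.s
  m := M.m
  Ψ := M.Ψ
  v j := M.v j
  h j := M.h j
  π := MonoidHom.mk' (M.occPerm ho) (fun g g' => Equiv.ext fun j => Subtype.ext (by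
    change M.π (g * g') j = M.π g (M.π g' j)
    rw [map_mul]; rfl))

/-- split the label `j` by the exponents `α c j`: the new labels are pairs `(j, a)` -/
def spl (α : M.ι → M.J → ℤ) : Mdl k Ω G where
  F := M.F
  ι := M.ι
  J := M.J × ℤ
  R := M.R
  S c := (M.S c).map ⟨fun j => (j, α c j), fun a b h => congrArg Prod.fst h⟩
  x c j := M.x c j.1
  s := M.s
  m := M.m
  Ψ := M.Ψ
  v j := M.v j.1
  h j := M.h j.1
  π := MonoidHom.mk' (fun g => Equiv.prodCongr (M.π g) (Equiv.refl ℤ)) (fun g g' => by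
    ext j : 1
    simp [Prod.ext_iff])

/-- the conditions: `f c` are local equations of a divisor supported on the boundary, invariant
under `G` -/
structure SplOk (f : M.ι → Ωˣ) (α : M.ι → M.J → ℤ) : Prop where
  eq : ∀ c, Un (M.R c) (f c * (∏ j ∈ M.S c, M.x c j ^ α c j)⁻¹ : Ωˣ)
  ov : ∀ c c' φ φ', M.O c φ = M.O c' φ' → Un (M.O c φ) (f c / f c' : Ω)
  inv : ∀ (g : G) c c' φ φ', (∀ a, a ∈ M.O c φ ↔ (g : Ω ≃ₐ[k] Ω) a ∈ M.O c' φ') →
    Un (M.O c' φ') ((g : Ω ≃ₐ[k] Ω) (f c : Ω) / f c')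

/-- enlarge `Ψ` by `y`, of order `β j` along the label `j` -/
noncomputable def addf (y : Ωˣ) (β : M.J → ℤ) : Mdl k Ω G where
  F := M.F
  ι := M.ι
  J := M.J
  R := M.R
  S := M.S
  x := M.x
  s := M.s
  m := M.m
  Ψ := adj M.Ψ y
  v j := vx M.Ψ y (M.v j) (β j)
  h := M.h
  π := M.π

open Classical in
/-- enlarge the boundary by the divisor `{q c = 0}`, on the charts with `mk c`; `y / q c` is in
`Ψ`, of order `μ j` along `j` -/
noncomputable def addd (y : Ωˣ) (q : M.ι → Ωˣ) (mk : M.ι → Prop) (μ : M.J → ℤ) : Mdl k Ω G where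
  F := M.F
  ι := M.ι
  J := Option M.J
  R := M.R
  S c := (M.S c).map Function.Embedding.some ∪ (if mk c then {none} else ∅)
  x c j := j.elim (q c) (M.x c)
  s := M.s
  m := M.m
  Ψ := adj M.Ψ y
  v j := j.elim (vx M.Ψ y (fun _ => 0) 1) (fun i => vx M.Ψ y (M.v i) (μ i))
  h j := j.elim 0 M.h
  π := MonoidHom.mk' (fun g => Equiv.optionCongr (M.π g)) (fun g g' => by
    ext j : 1
    cases j <;> simp)

/-- the conditions for `addd` -/
structure AdddOk (n : ℕ) (y : Ωˣ) (q : M.ι → Ωˣ) (mk : M.ι → Prop) (μ : M.J → ℤ) : Prop where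
  y_F : (y : Ω) ∈ M.F
  q_R : ∀ c, (q c : Ω) ∈ M.R c
  q_Ψ : ∀ c, y * (q c)⁻¹ ∈ M.Ψ
  q_v : ∀ c, ∀ j ∈ M.S c, M.v j (y * (q c)⁻¹) = μ j
  /-- on the charts which are not marked the divisor is empty -/
  un : ∀ c, ¬ mk c → Un (M.R c) (q c : Ω)
  /-- on the marked charts it is transversal to the boundary -/
  tr : ∀ c, mk c → ∀ φ : M.R c →ₐ[k] k, ¬ Un (M.O c φ) (q c : Ω) → ∃ z : Fin n → Ω,
    Par (M.O c φ) z ∧ (∀ j, M.At c φ j → ∃ i, z i = M.x c j) ∧ ∃ i, z i = q c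
  free : ∀ e : ℤ, y ^ e ∈ M.Ψ → e = 0
  inv : ∀ g : G, (g : Ω ≃ₐ[k] Ω) (y : Ω) = y
  μ_g : ∀ (g : G) j, μ (M.π g j) = μ j

end Mdl

end Pool.Agent.KMR
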