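import Pool.Agent.Lib.MP_732f67_ag.R.Bl

/-!
Blow-ups which make an element of `Ψ` comparable: definitions.
-/

namespace Pool.Agent.KMR

variable {k Ω : Type} [Field k] [Field Ω] [Algebra k Ω]

namespace Mdl

variable {G : Subgroup (Ω ≃ₐ[k] Ω)} {n : ℕ}

/-- one blow-up -/
def Step (n : ℕ) (M M' : Mdl k Ω G) : Prop :=
  ∃ (P : Finset (M.J × M.J)) (hP : M.Ctr P) (N : ℕ), M' = M.bl P hP.stab N ∧ M'.Good n

/-- the pairs of labels which meet, with orders of `a` of opposite signs -/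
def Bad (M : Mdl k Ω G) (a : Ωˣ) : Set (M.J × M.J) :=
  {q | (∃ c, q.1 ∈ M.S c ∧ q.2 ∈ M.S c) ∧ 0 < M.v q.1 a ∧ M.v q.2 a < 0}

/-- the measure: the maximal weight `v i a - v j a` of the bad pairs, and their number -/
noncomputable def mea (M : Mdl k Ω G) (a : Ωˣ) : ℕ ×ₗ ℕ :=
  let s : ℕ := sSup ((fun q : M.J × M.J => (M.v q.1 a - M.v q.2 a).toNat) '' M.Bad a)
  toLex (s, {q ∈ M.Bad a | (M.v q.1 a - M.v q.2 a).toNat = s}.ncard)

end Mdl

end Pool.Agent.KMR
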