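import Pool.Agent.Lib.MP_732f67_ag.R.PsiC

/-!
Models over each other.
-/

namespace Pool.Agent.KMR

variable {k Ω : Type} [Field k] [Field Ω] [Algebra k Ω]

namespace Mdl

variable {G G' G'' : Subgroup (Ω ≃ₐ[k] Ω)}

/-- every point of `M'` lies over a point of `M`; if the latter is not on the boundary, the former
is not on the boundary either and has the same local ring -/
def Over (M : Mdl k Ω G) (M' : Mdl k Ω G') : Prop :=
  ∀ c' (φ' : M'.R c' →ₐ[k] k), ∃ c, ∃ φ : M.R c →ₐ[k] k, M.O c φ ≤ M'.O c' φ' ∧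
    (M.Off c φ → M'.Off c' φ' ∧ M.O c φ = M'.O c' φ')

theorem Over.refl (M : Mdl k Ω G) : M.Over M := fun c φ => ⟨c, φ, le_refl _, fun h => ⟨h, rfl⟩⟩

theorem Over.trans {M : Mdl k Ω G} {M' : Mdl k Ω G'} {M'' : Mdl k Ω G''} (h : M.Over M')
    (h' : M'.Over M'') : M.Over M'' := by
  intro c'' φ''
  obtain ⟨c', φ', h1, h2⟩ := h' c'' φ''
  obtain ⟨c, φ, h3, h4⟩ := h c' φ'
  refine ⟨c, φ, h3.trans h1, fun h5 => ?_⟩
  obtain ⟨h6, h7⟩ := h4 h5
  obtain ⟨h8, h9⟩ := h2 h6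
  exact ⟨h8, h7.trans h9⟩

variable {M : Mdl k Ω G} {n : ℕ}

/-- a point is off the boundary iff all the elements of `Ψ` are units there -/
theorem Ok0.off_iff [IsAlgClosed k] [CharZero k] (h : M.Ok0 n) (c : M.ι) (φ : M.R c →ₐ[k] k) :
    M.Off c φ ↔ ∀ a ∈ M.Ψ, Un (M.O c φ) (a : Ω) := by
  constructor
  · intro h1 a ha
    exact h.toOkV.un_O c φ a ha fun j hj => absurd hj (h1 j)
  · intro h1 j hj
    exact hj.2 (h1 _ (h.x_Ψ c j hj.1))

/-- comparable elements of `Ψ`: if `a` is in a local ring `O'` over the point, it is in the local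
ring of the point; if it is a unit there it is a unit below -/
theorem Ok0.cmp_mem [IsAlgClosed k] [CharZero k] (h : M.Ok0 n) (a : Ωˣ) (ha : a ∈ M.Ψ)
    (hc : M.Cmp a) (c : M.ι) (φ : M.R c →ₐ[k] k) (O' : Subalgebra k Ω) (hO : IsPt O')
    (hle : M.O c φ ≤ O') :
    ((a : Ω) ∈ O' → (a : Ω) ∈ M.O c φ) ∧ (Un O' (a : Ω) → Un (M.O c φ) (a : Ω)) := by
  have hdom := IsPt.dom (isPt_loc φ) hO hle
  rcases hc c with h1 | h1
  · have h2 : (a : Ω) ∈ M.O c φ := h.toOkV.mem_O c φ a ha fun j hj => h1 j hj.1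
    exact ⟨fun _ => h2, fun h3 => hdom _ h2 h3⟩
  · have h2 : ((a⁻¹ : Ωˣ) : Ω) ∈ M.O c φ := h.toOkV.mem_O c φ a⁻¹ (inv_mem ha) fun j hj => by
      rw [h.toOkV.v_inv j a ha]
      have := h1 j hj.1
      omega
    have h3 : (a : Ω) ∈ O' → Un (M.O c φ) (a : Ω) := by
      intro h4
      have h5 : Un O' ((a⁻¹ : Ωˣ) : Ω) := by
        refine ⟨Units.ne_zero _, hle h2, ?_⟩
        rw [Units.val_inv_eq_inv_val, inv_inv]
        exact h4
      have h6 := (hdom _ h2 h5).inv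
      rwa [Units.val_inv_eq_inv_val, inv_inv] at h6
    exact ⟨fun h4 => (h3 h4).2.1, fun h4 => h3 h4.2.1⟩

end Mdl

end Pool.Agent.KMR
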