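import Pool.Agent.Lib.MP_732f67_ag.R.Psi

/-!
Operation: refinement of the charts. Operation: restriction of the group.
-/

namespace Pool.Agent.KMR

variable {k Ω : Type} [Field k] [Field Ω] [Algebra k Ω]

namespace Mdl

variable {G : Subgroup (Ω ≃ₐ[k] Ω)} (M : Mdl k Ω G) {n : ℕ}

/-- restriction to a smaller group -/
def rst {G' : Subgroup (Ω ≃ₐ[k] Ω)} (hG : G' ≤ G) : Mdl k Ω G' where
  F := M.F
  ι := M.ι
  J := M.J
  R := M.R
  S := M.S
  x := M.x
  s := M.s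
  m := M.m
  Ψ := M.Ψ
  v := M.v
  h := M.h
  π := M.π.comp (Subgroup.inclusion hG)

theorem rst_good {G' : Subgroup (Ω ≃ₐ[k] Ω)} (hG : G' ≤ G) (h : M.Good n) :
    (M.rst hG).Good n :=
  { fin := h.fin
    trd := h.trd
    fg := h.fg
    le := h.le
    frac := h.frac
    complete := h.complete
    Ψ_fg := h.Ψ_fg
    Ψ_F := h.Ψ_F
    x_Ψ := h.x_Ψ
    x_R := h.x_R
    v_mul := h.v_mul
    v_x := h.v_x
    v_x' := h.v_x'
    unit := h.unit
    par := h.par
    s_mem := h.s_mem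
    s_loc := h.s_loc
    s_x := h.s_x
    m_Ψ := h.m_Ψ
    m_s := h.m_s
    m_v := h.m_v
    deep := h.deep
    Ψ_g := fun g a ha => h.Ψ_g ⟨g, hG g.2⟩ a ha
    v_g := fun g a ha j => h.v_g ⟨g, hG g.2⟩ a ha j
    strict := fun g c j hj hj' => h.strict ⟨g, hG g.2⟩ c j hj hj'
    eqP := fun g c φ => h.eqP ⟨g, hG g.2⟩ c φ
    eqF := fun g a ha => h.eqF ⟨g, hG g.2⟩ a ha }

/-- the data of a refinement: for `i : I` a chart `idx i` of `M`, an element `g i` of its ring,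
and the set `T i` of the labels which are kept -/
structure Rf where
  I : Type
  idx : I → M.ι
  g : I → Ωˣ
  T : I → Finset M.J

/-- the conditions: at every point of `M` one of the `g i` is a unit; the labels which are not
kept do not meet the new chart -/
structure Rf.Ok (r : M.Rf) : Prop where
  fin : Finite r.I
  g_mem : ∀ i, (r.g i : Ω) ∈ M.R (r.idx i)
  sub : ∀ i, r.T i ⊆ M.S (r.idx i)
  cov : ∀ c (φ : M.R c →ₐ[k] k), ∃ i, r.idx i = c ∧ Un (M.O c φ) (r.g i : Ω)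
  off : ∀ i, ∀ j ∈ M.S (r.idx i), j ∉ r.T i → ∃ N : ℕ,
    (r.g i : Ω) ^ N / M.x (r.idx i) j ∈ M.R (r.idx i)

/-- there are points of the new charts on all their divisors -/
def Rf.Deep (r : M.Rf) : Prop :=
  ∀ i, ∃ φ : M.R (r.idx i) →ₐ[k] k, Un (M.O (r.idx i) φ) (r.g i : Ω) ∧
    ∀ j ∈ r.T i, M.At (r.idx i) φ j

/-- the refined model; `N` is large -/
def ref (r : M.Rf) (N : ℕ) : Mdl k Ω G where
  F := M.F
  ι := r.I
  J := M.J
  R i := Inv (M.R (r.idx i)) (r.g i)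
  S := r.T
  x i j := M.x (r.idx i) j
  s i := M.s (r.idx i) ^ N * r.g i
  m i := M.m (r.idx i) ^ N
  Ψ := M.Ψ
  v := M.v
  h j := N * M.h j
  π := M.π

end Mdl

end Pool.Agent.KMR
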