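import Pool.Agent.Lib.MP_732f67_ag.R.ProdP
import Pool.Agent.Lib.MP_732f67_ag.R.Lab
import Pool.Agent.Lib.MP_732f67_ag.R.Ref
import Pool.Agent.Lib.MP_732f67_ag.R.Loop
import Pool.Agent.Lib.MP_732f67_ag.R.Over
import Pool.Agent.Lib.MP_732f67_ag.R.Der
import Pool.Agent.Lib.MP_732f67_ag.R.BlD

/-!
Fibrations in projective lines with finitely many sections `w = l`, `l ∈ C`.
-/

namespace Pool.Agent.KMR

variable {k Ω : Type} [Field k] [Field Ω] [Algebra k Ω]

open Classical in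
/-- `a - b` as a unit (`1` if it is zero) -/
noncomputable def sb (a b : Ω) : Ωˣ := if h : a - b = 0 then 1 else Units.mk0 (a - b) h

theorem sb_val {a b : Ω} (h : a ≠ b) : (sb a b : Ω) = a - b := by
  unfold sb
  rw [dif_neg (sub_ne_zero.2 h)]
  rfl

/-- the derivation `∂ / ∂ w`, zero on `B` -/
theorem exists_dw [CharZero k] (B : IntermediateField k Ω) (w : Ω) (hw : Transcendental B w) :
    ∃ D : Derivation k Ω Ω, D w = 1 ∧ ∀ a ∈ B, D a = 0 := by
  have hB : CharZero B := charZero_of_injective_algebraMap (algebraMap k B).injective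
  have hz : AlgebraicIndependent B (fun _ : Fin 1 => w) :=
    algebraicIndependent_unique_type_iff.2 hw
  obtain ⟨D, hD⟩ := exists_der (k := B) (fun _ : Fin 1 => w) hz
  refine ⟨(D 0).restrictScalars k, ?_, fun a ha => ?_⟩
  · have h1 := hD 0 0
    rw [if_pos rfl] at h1
    exact h1
  · exact (D 0).map_algebraMap (⟨a, ha⟩ : B)

/-- the data of a fibration: the field `B` of the base, the coordinate `w`, `D = ∂ / ∂ w` -/
structure FibD (B : IntermediateField k Ω) (w : Ωˣ) (D : Derivation k Ω Ω) : Prop where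
  tr : Transcendental B (w : Ω)
  D_w : D (w : Ω) = 1
  D_B : ∀ a ∈ B, D a = 0

/-- the units with logarithmic derivative in `O` -/
def fibL (O : Subalgebra k Ω) (D : Derivation k Ω Ω) : Subgroup Ωˣ where
  carrier := {a | D (a : Ω) / a ∈ O}
  mul_mem' := by
    intro a b ha hb
    have h1 : D ((a * b : Ωˣ) : Ω) / ((a * b : Ωˣ) : Ω) = D (a : Ω) / a + D (b : Ω) / b := by
      rw [Units.val_mul, Derivation.leibniz, smul_eq_mul, smul_eq_mul]
      have e1 := a.ne_zero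
      have e2 := b.ne_zero
      field_simp
      ring
    show D ((a * b : Ωˣ) : Ω) / ((a * b : Ωˣ) : Ω) ∈ O
    rw [h1]
    exact add_mem ha hb
  one_mem' := by
    show D ((1 : Ωˣ) : Ω) / ((1 : Ωˣ) : Ω) ∈ O
    rw [Units.val_one, Derivation.map_one_eq_zero, zero_div]
    exact O.zero_mem
  inv_mem' := by
    intro a ha
    have h1 : D ((a⁻¹ : Ωˣ) : Ω) / ((a⁻¹ : Ωˣ) : Ω) = -(D (a : Ω) / a) := by
      rw [Units.val_inv_eq_inv_val, Derivation.leibniz_inv, smul_eq_mul]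
      have e1 := a.ne_zero
      field_simp
    show D ((a⁻¹ : Ωˣ) : Ω) / ((a⁻¹ : Ωˣ) : Ω) ∈ O
    rw [h1]
    exact neg_mem ha

theorem mem_fibL {O : Subalgebra k Ω} {D : Derivation k Ω Ω} {a : Ωˣ} :
    a ∈ fibL O D ↔ D (a : Ω) / a ∈ O := Iff.rfl

/-- a derivation preserves `R ⊔ k[g]` if it maps `R` and `g` into it -/
theorem fib_sup {R : Subalgebra k Ω} {g : Ω} (D : Derivation k Ω Ω)
    (hR : ∀ a ∈ R, D a ∈ R ⊔ Algebra.adjoin k {g}) (hg : D g ∈ R ⊔ Algebra.adjoin k {g}) :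
    ∀ a ∈ R ⊔ Algebra.adjoin k {g}, D a ∈ R ⊔ Algebra.adjoin k {g} := by
  intro a ha
  have h1 : R ⊔ Algebra.adjoin k {g} = Algebra.adjoin k ((R : Set Ω) ∪ {g}) := by
    rw [Algebra.adjoin_union, Algebra.adjoin_eq]
  have ha' := ha
  rw [h1] at ha'
  have hle : R ≤ R ⊔ Algebra.adjoin k {g} := le_sup_left
  have hg' : g ∈ R ⊔ Algebra.adjoin k {g} :=
    (le_sup_right : _ ≤ R ⊔ Algebra.adjoin k {g}) (Algebra.subset_adjoin rfl)
  have key : a ∈ R ⊔ Algebra.adjoin k {g} ∧ D a ∈ R ⊔ Algebra.adjoin k {g} := by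
    induction ha' using Algebra.adjoin_induction with
    | mem z hz =>
      rcases hz with hz | hz
      · exact ⟨hle hz, hR z hz⟩
      · rw [Set.mem_singleton_iff] at hz
        rw [hz]
        exact ⟨hg', hg⟩
    | algebraMap r =>
      refine ⟨Subalgebra.algebraMap_mem _ r, ?_⟩
      rw [Derivation.map_algebraMap]
      exact zero_mem _
    | add z z' h2 h3 hz hz' =>
      have i1 := hz (by rw [h1]; exact h2)
      have i2 := hz' (by rw [h1]; exact h3)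
      refine ⟨add_mem i1.1 i2.1, ?_⟩
      rw [map_add]
      exact add_mem i1.2 i2.2
    | mul z z' h2 h3 hz hz' =>
      have i1 := hz (by rw [h1]; exact h2)
      have i2 := hz' (by rw [h1]; exact h3)
      refine ⟨mul_mem i1.1 i2.1, ?_⟩
      rw [Derivation.leibniz, smul_eq_mul, smul_eq_mul]
      exact add_mem (mul_mem i1.1 i2.2) (mul_mem i2.1 i1.2)
  exact key.2

namespace Mdl

variable {G : Subgroup (Ω ≃ₐ[k] Ω)} {n : ℕ}

/-- `l` is a section nearest to the chart `c`, and the logarithmic derivation `(w - l) ∂ / ∂ w`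
preserves the ring of the chart -/
def Near (M : Mdl k Ω G) (w : Ωˣ) (D : Derivation k Ω Ω) (C : Finset Ω) (c : M.ι) (l : Ω) : Prop :=
  l ∈ C ∧ (∀ l' ∈ C, ∀ j ∈ M.S c, M.v j (sb (w : Ω) l') ≤ M.v j (sb (w : Ω) l)) ∧
    ∀ a ∈ M.R c, ((w : Ω) - l) * D a ∈ M.R c

/-- a fibration over a model with function field `B`, with the sections `w = l`, `l ∈ C`, and the
section at infinity -/
structure Fib (M : Mdl k Ω G) (B : IntermediateField k Ω) (w : Ωˣ) (D : Derivation k Ω Ω)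
    (C : Finset Ω) : Prop where
  F_eq : M.F = IntermediateField.adjoin k ((B : Set Ω) ∪ {(w : Ω)})
  C_B : ∀ l ∈ C, l ∈ B
  C_G : ∀ l ∈ C, ∀ g : G, (g : Ω ≃ₐ[k] Ω) l = l
  w_G : ∀ g : G, (g : Ω ≃ₐ[k] Ω) (w : Ω) = w
  C_Ψ : ∀ l ∈ C, sb (w : Ω) l ∈ M.Ψ
  C_C : ∀ l ∈ C, ∀ l' ∈ C, l ≠ l' → sb l l' ∈ M.Ψ
  psi : ∀ a ∈ M.Ψ, ∃ b : Ωˣ, (b : Ω) ∈ B ∧ ∃ e : Ω → ℤ, a = b * ∏ l ∈ C, sb (w : Ω) l ^ e l
  near : ∀ c, ∃ l, M.Near w D C c l

variable {B : IntermediateField k Ω} {w : Ωˣ} {D : Derivation k Ω Ω} {C : Finset Ω}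

theorem Fib.ne {M : Mdl k Ω G} (hf : M.Fib B w D C) (hd : FibD B w D) (l : Ω) (hl : l ∈ B) :
    (w : Ω) ≠ l := by
  intro h
  apply hd.tr
  rw [h]
  exact isAlgebraic_algebraMap (⟨l, hl⟩ : B)

/-- the logarithmic derivatives of the elements of `Ψ`.
PROOF. `θ b = 0` for `b ∈ B`, `θ (w - l') / (w - l') = (w - l) / (w - l')`, which is in `R c` by
`near` and `mem_R`. -/
theorem Fib.log {M : Mdl k Ω G} (hf : M.Fib B w D C) (hd : FibD B w D) (h : M.OkV) (c : M.ι)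
    (l : Ω) (hl : M.Near w D C c l) (a : Ωˣ) (ha : a ∈ M.Ψ) :
    ((w : Ω) - l) * D (a : Ω) / a ∈ M.R c := by
  have key : a ∈ fibL (M.R c) (((w : Ω) - l) • D) := by
    obtain ⟨b, hb, e, rfl⟩ := hf.psi a ha
    refine mul_mem ?_ (prod_mem fun l' hl' => zpow_mem ?_ _)
    · rw [mem_fibL, Derivation.smul_apply, hd.D_B _ hb, smul_zero, zero_div]
      exact zero_mem _
    · have hne := hf.ne hd l' (hf.C_B l' hl')
      have hne2 := hf.ne hd l (hf.C_B l hl.1)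
      have hD : D ((w : Ω) - l') = 1 := by
        rw [map_sub, hd.D_w, hd.D_B _ (hf.C_B l' hl'), sub_zero]
      rw [mem_fibL, Derivation.smul_apply, sb_val hne, hD, smul_eq_mul, mul_one]
      have h1 : sb (w : Ω) l * (sb (w : Ω) l')⁻¹ ∈ M.Ψ :=
        mul_mem (hf.C_Ψ l hl.1) (inv_mem (hf.C_Ψ l' hl'))
      have h2 := h.mem_R c _ h1 fun j hj => by
        rw [h.v_mul j _ (hf.C_Ψ l hl.1) _ (inv_mem (hf.C_Ψ l' hl')),
          h.v_inv j _ (hf.C_Ψ l' hl')]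
        have := hl.2.1 l' hl' j hj
        omega
      rw [Units.val_mul, Units.val_inv_eq_inv_val, sb_val hne, sb_val hne2, ← div_eq_mul_inv] at h2
      exact h2
  exact key

/-- the product is a fibration with the section `w = 0` -/
theorem fib_prod {M : Mdl k Ω G} (h : M.Good n) (hd : FibD M.F w D)
    (hg : ∀ g : G, (g : Ω ≃ₐ[k] Ω) (w : Ω) = w) : (M.prod w).Fib M.F w D {0} := by
  have hw0 : sb (w : Ω) 0 = w := by
    apply Units.ext
    rw [sb_val w.ne_zero, sub_zero]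
  refine ⟨rfl, ?_, ?_, hg, ?_, ?_, ?_, ?_⟩
  · intro l hl
    rw [Finset.mem_singleton.1 hl]
    exact M.F.zero_mem
  · intro l hl g
    rw [Finset.mem_singleton.1 hl]
    exact map_zero _
  · intro l hl
    rw [Finset.mem_singleton.1 hl, hw0]
    exact mem_adj.2 ⟨1, one_mem _, 1, by rw [one_mul, zpow_one]⟩
  · intro l hl l' hl' hne
    rw [Finset.mem_singleton.1 hl, Finset.mem_singleton.1 hl'] at hne
    exact absurd rfl hne
  · intro a ha
    obtain ⟨b, hb, e, rfl⟩ := mem_adj.1 ha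
    exact ⟨b, h.Ψ_F b hb, fun _ => e, by rw [Finset.prod_singleton, hw0]⟩
  · rintro ⟨c, b⟩
    refine ⟨0, Finset.mem_singleton_self _, fun l' hl' j _ => by rw [Finset.mem_singleton.1 hl'],
      ?_⟩
    have h1 : ∀ a ∈ (M.prod w).R (c, b), (((w : Ω) - 0) • D) a ∈ (M.prod w).R (c, b) := by
      rw [prod_R]
      refine fib_sup _ ?_ ?_
      · intro a ha
        rw [Derivation.smul_apply, hd.D_B a (h.le c a ha), smul_zero]
        exact zero_mem _
      · have hm := prod_pw (M := M) w c b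
        rw [prod_R] at hm
        cases b
        · have h2 : (((w : Ω) - 0) • D) (pw w false : Ω) = -(pw w false : Ω) := by
            show (((w : Ω) - 0) • D) ((w⁻¹ : Ωˣ) : Ω) = -((w⁻¹ : Ωˣ) : Ω)
            rw [Derivation.smul_apply, sub_zero, Units.val_inv_eq_inv_val, Derivation.leibniz_inv,
              hd.D_w, smul_eq_mul, smul_eq_mul, mul_one]
            have := w.ne_zero
            field_simp
          rw [h2]
          exact neg_mem hm
        · have h2 : (((w : Ω) - 0) • D) (pw w true : Ω) = (pw w true : Ω) := by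
            show (((w : Ω) - 0) • D) (w : Ω) = (w : Ω)
            rw [Derivation.smul_apply, sub_zero, hd.D_w, smul_eq_mul, mul_one]
          rw [h2]
          exact hm
    exact h1

/-- blow-ups; `bl_der` for the derivation `(w - l) • D` -/
theorem fib_step {M M' : Mdl k Ω G} (hf : M.Fib B w D C) (hd : FibD B w D) (h : M.OkV)
    (hs : Step n M M') : M'.Fib B w D C := by
  obtain ⟨P, hP, N, rfl, -⟩ := hs
  refine ⟨hf.F_eq, hf.C_B, hf.C_G, hf.w_G, hf.C_Ψ, hf.C_C, hf.psi, ?_⟩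
  rintro ⟨c, ε⟩
  obtain ⟨l, hl⟩ := hf.near c
  refine ⟨l, hl.1, fun l' hl' j hj => ?_, ?_⟩
  · rcases j with j | p
    · exact hl.2.1 l' hl' j (blD_inl hP N c ε j hj)
    · have h2 := blD_some c p (blD_inr hP N c ε p hj)
      exact add_le_add (hl.2.1 l' hl' _ h2.1) (hl.2.1 l' hl' _ h2.2)
  · exact bl_der hP N h c (((w : Ω) - l) • D) (fun a ha => hl.2.2 a ha)
      (fun a ha => hf.log hd h c l hl a ha) ε

/-- refinements -/
theorem fib_ref {M : Mdl k Ω G} (hf : M.Fib B w D C) (hd : FibD B w D) (h : M.OkV)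
    {r : M.Rf} (hr : r.Ok) (N : ℕ) : (M.ref r N).Fib B w D C := by
  refine ⟨hf.F_eq, hf.C_B, hf.C_G, hf.w_G, hf.C_Ψ, hf.C_C, hf.psi, ?_⟩
  intro i
  obtain ⟨l, hl⟩ := hf.near (r.idx i)
  refine ⟨l, hl.1, fun l' hl' j hj => hl.2.1 l' hl' j (hr.sub i hj), ?_⟩
  have h1 : ∀ a ∈ Inv (M.R (r.idx i)) (r.g i : Ω), (((w : Ω) - l) • D) a ∈
      Inv (M.R (r.idx i)) (r.g i : Ω) := by
    refine fib_sup _ (fun a ha => le_inv _ _ (hl.2.2 a ha)) ?_
    rw [Derivation.leibniz_inv, smul_eq_mul]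
    have h2 := inv_mem_inv (M.R (r.idx i)) (r.g i : Ω)
    have h3 := le_inv _ (r.g i : Ω) (hl.2.2 _ (hr.g_mem i))
    exact mul_mem (neg_mem (pow_mem h2 2)) h3
  exact h1

/-- every point of `M'` lies over a point of `M`, with the same local ring if it is not on the
boundary -/
def Lie {G' : Subgroup (Ω ≃ₐ[k] Ω)} (M : Mdl k Ω G) (M' : Mdl k Ω G') : Prop :=
  ∀ c' (φ' : M'.R c' →ₐ[k] k), ∃ c, ∃ φ : M.R c →ₐ[k] k, M.O c φ ≤ M'.O c' φ' ∧
    (M'.Off c' φ' → M.O c φ = M'.O c' φ')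

theorem Lie.trans {G' G'' : Subgroup (Ω ≃ₐ[k] Ω)} [IsAlgClosed k] [CharZero k] {M : Mdl k Ω G}
    {M' : Mdl k Ω G'} {M'' : Mdl k Ω G''} {n' : ℕ} (h0 : M'.Ok0 n)
    (h0' : M''.Ok0 n')
    (hΨ : M'.Ψ ≤ M''.Ψ) (h : M.Lie M') (h' : M'.Lie M'') : M.Lie M'' := by
  intro c'' φ''
  obtain ⟨c', φ', h1, h2⟩ := h' c'' φ''
  obtain ⟨c, φ, h3, h4⟩ := h c' φ'
  refine ⟨c, φ, h3.trans h1, fun h5 => ?_⟩
  have h6 := h2 h5
  have h7 : M'.Off c' φ' := (h0.off_iff c' φ').2 fun a ha => by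
    rw [h6]
    exact (h0'.off_iff c'' φ'').1 h5 a (hΨ ha)
  rw [h4 h7, h6]

end Mdl

end Pool.Agent.KMR
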