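import Pool.Agent.Lib.MP_732f67_ag.R.Nst

/-!
Finite extensions, integral closure.
-/

namespace Pool.Agent.KMR

variable {k Ω : Type} [Field k] [Field Ω] [Algebra k Ω]

/-- `N` is a finite extension of `F` -/
structure Fext (F N : IntermediateField k Ω) : Prop where
  le : F ≤ N
  fin : ∃ s : Finset Ω, (∀ a ∈ s, IsAlgebraic F a) ∧
    N = IntermediateField.adjoin k ((F : Set Ω) ∪ s)

/-- `F` is the field of fractions of `R` -/
structure Frc (R : Subalgebra k Ω) (F : IntermediateField k Ω) : Prop where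
  le : ∀ a ∈ R, a ∈ F
  frac : ∀ a ∈ F, ∃ b ∈ R, ∃ d ∈ R, d ≠ 0 ∧ a = b / d

/-- `R` is integrally closed in its field of fractions -/
def Nrm (R : Subalgebra k Ω) : Prop :=
  ∀ a ∈ R, ∀ b ∈ R, b ≠ 0 → IsIntegral R (a / b) → a / b ∈ R

/-- the integral closure of `R` in `N` -/
def icl (R : Subalgebra k Ω) (N : IntermediateField k Ω) : Subalgebra k Ω :=
  (integralClosure R Ω).restrictScalars k ⊓ N.toSubalgebra

variable {R : Subalgebra k Ω} {F N : IntermediateField k Ω}

theorem mem_icl {a : Ω} : a ∈ icl R N ↔ IsIntegral R a ∧ a ∈ N := by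
  exact Iff.rfl

theorem le_icl (hF : Frc R F) (h : Fext F N) : R ≤ icl R N := by
  intro a ha
  exact ⟨isIntegral_algebraMap (R := R) (A := Ω) (x := ⟨a, ha⟩), h.le (hF.le a ha)⟩

theorem icl_fd (h : Fext F N) :
    FiniteDimensional F (IntermediateField.extendScalars h.le : IntermediateField F Ω) := by
  obtain ⟨s, hs, hN⟩ := h.fin
  have h1 : (IntermediateField.extendScalars h.le : IntermediateField F Ω) =
      IntermediateField.adjoin F (s : Set Ω) := by
    apply SetLike.ext
    intro x
    rw [IntermediateField.mem_extendScalars, hN, ← IntermediateField.restrictScalars_adjoin]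
    exact Iff.rfl
  rw [h1]
  exact IntermediateField.finiteDimensional_adjoin fun x hx => (hs x hx).isIntegral

theorem icl_span (E : IntermediateField F Ω) [FiniteDimensional F E] :
    ∃ (d : ℕ) (e : Fin d → Ω), (∀ i, e i ∈ E) ∧
    ∀ a ∈ E, ∃ c : Fin d → Ω, (∀ i, c i ∈ F) ∧ a = ∑ i, c i * e i := by
  let b := Module.finBasis F E
  refine ⟨Module.finrank F E, fun i => (b i : Ω), fun i => (b i).2, fun a ha => ?_⟩
  refine ⟨fun i => (b.repr ⟨a, ha⟩ i : Ω), fun i => (b.repr ⟨a, ha⟩ i).2, ?_⟩
  have h1 := congrArg (fun x : E => (x : Ω)) (b.sum_repr ⟨a, ha⟩)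
  rw [AddSubmonoidClass.coe_finset_sum] at h1
  exact h1.symm

theorem Fext.alg (h : Fext F N) (a : Ω) (ha : a ∈ N) : IsAlgebraic F a := by
  have := icl_fd h
  have h1 : IsAlgebraic F (⟨a, ha⟩ :
      (IntermediateField.extendScalars h.le : IntermediateField F Ω)) :=
    Algebra.IsAlgebraic.isAlgebraic _
  exact h1.algebraMap (A := Ω)

/-- `N` is a finite dimensional vector space over `F` -/
theorem Fext.finite (h : Fext F N) : ∃ (d : ℕ) (e : Fin d → Ω), (∀ i, e i ∈ N) ∧
    ∀ a ∈ N, ∃ c : Fin d → Ω, (∀ i, c i ∈ F) ∧ a = ∑ i, c i * e i := by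
  have := icl_fd h
  exact icl_span (IntermediateField.extendScalars h.le : IntermediateField F Ω)

theorem Fext.trans {N' : IntermediateField k Ω} (h : Fext F N) (h' : Fext N N') : Fext F N' := by
  classical
  have hFN' : F ≤ N' := h.le.trans h'.le
  obtain ⟨s, hs, hN⟩ := h.fin
  obtain ⟨s', hs', hN'⟩ := h'.fin
  refine ⟨hFN', s ∪ s', fun a ha => ?_, ?_⟩
  · rcases Finset.mem_union.1 ha with ha | ha
    · exact hs a ha
    · have := icl_fd h
      have h1 : IsAlgebraic (IntermediateField.extendScalars h.le : IntermediateField F Ω) a :=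
        hs' a ha
      exact h1.restrictScalars F
  · apply le_antisymm
    · rw [hN', IntermediateField.adjoin_le_iff]
      rintro x (hx | hx)
      · rw [SetLike.mem_coe, hN] at hx
        refine IntermediateField.adjoin.mono k _ _ ?_ hx
        rw [Finset.coe_union, ← Set.union_assoc]
        exact Set.subset_union_left
      · apply IntermediateField.subset_adjoin
        rw [Finset.coe_union, ← Set.union_assoc]
        exact Or.inr hx
    · rw [IntermediateField.adjoin_le_iff]
      rintro x (hx | hx)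
      · exact hFN' hx
      · rcases Finset.mem_union.1 (Finset.mem_coe.1 hx) with hx | hx
        · apply h'.le
          rw [hN]
          exact IntermediateField.subset_adjoin _ _ (Or.inr hx)
        · rw [SetLike.mem_coe, hN']
          exact IntermediateField.subset_adjoin _ _ (Or.inr hx)

theorem icl_fext {d : ℕ} (hle : F ≤ N) (halg : ∀ a ∈ N, IsAlgebraic F a) (e : Fin d → Ω)
    (he : ∀ i, e i ∈ N) (hs : ∀ a ∈ N, ∃ c : Fin d → Ω, (∀ i, c i ∈ F) ∧ a = ∑ i, c i * e i) :
    Fext F N := by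
  classical
  refine ⟨hle, Finset.univ.image e, fun a ha => ?_, ?_⟩
  · obtain ⟨i, -, rfl⟩ := Finset.mem_image.1 ha
    exact halg _ (he i)
  · apply le_antisymm
    · intro a ha
      obtain ⟨c, hc, rfl⟩ := hs a ha
      refine sum_mem fun i _ => mul_mem ?_ ?_
      · exact IntermediateField.subset_adjoin _ _ (Or.inl (hc i))
      · exact IntermediateField.subset_adjoin _ _
          (Or.inr (Finset.mem_coe.2 (Finset.mem_image_of_mem e (Finset.mem_univ i))))
    · rw [IntermediateField.adjoin_le_iff]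
      rintro x (hx | hx)
      · exact hle hx
      · obtain ⟨i, -, rfl⟩ := Finset.mem_image.1 (Finset.mem_coe.1 hx)
        exact he i

/-- intermediate fields -/
theorem Fext.of_le {N' : IntermediateField k Ω} (h : Fext F N) (h1 : F ≤ N') (h2 : N' ≤ N) :
    Fext F N' ∧ Fext N' N := by
  constructor
  · have := icl_fd h
    have hle : (IntermediateField.extendScalars h1 : IntermediateField F Ω) ≤
        IntermediateField.extendScalars h.le := h2
    have hfd : FiniteDimensional F
        (IntermediateField.extendScalars h1 : IntermediateField F Ω) :=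
      FiniteDimensional.of_injective (IntermediateField.inclusion hle).toLinearMap
        (IntermediateField.inclusion_injective hle)
    obtain ⟨d, e, he, hs⟩ :=
      icl_span (IntermediateField.extendScalars h1 : IntermediateField F Ω)
    exact icl_fext h1 (fun a ha => h.alg a (h2 ha)) e he hs
  · obtain ⟨s, hs, hN⟩ := h.fin
    refine ⟨h2, s, fun a ha => ?_, ?_⟩
    · have h3 := hs a ha
      have h4 : IsAlgebraic (IntermediateField.extendScalars h1 : IntermediateField F Ω) a :=
        h3.tower_top _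
      exact h4
    · apply le_antisymm
      · rw [hN]
        exact IntermediateField.adjoin.mono k _ _ (Set.union_subset_union_left _ h1)
      · rw [IntermediateField.adjoin_le_iff]
        rintro x (hx | hx)
        · exact h2 hx
        · rw [SetLike.mem_coe, hN]
          exact IntermediateField.subset_adjoin _ _ (Or.inr hx)

/-- base change -/
theorem Fext.base {F' : IntermediateField k Ω} (h : Fext F N) (h1 : F ≤ F') :
    Fext F' (F' ⊔ N) := by
  obtain ⟨s, hs, hN⟩ := h.fin
  refine ⟨le_sup_left, s, fun a ha => ?_, ?_⟩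
  · have h3 := hs a ha
    have h4 : IsAlgebraic (IntermediateField.extendScalars h1 : IntermediateField F Ω) a :=
      h3.tower_top _
    exact h4
  · apply le_antisymm
    · refine sup_le ?_ ?_
      · intro x hx
        exact IntermediateField.subset_adjoin _ _ (Or.inl hx)
      · rw [hN]
        exact IntermediateField.adjoin.mono k _ _ (Set.union_subset_union_left _ h1)
    · rw [IntermediateField.adjoin_le_iff]
      rintro x (hx | hx)
      · exact (le_sup_left : F' ≤ F' ⊔ N) hx
      · apply (le_sup_right : N ≤ F' ⊔ N)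
        rw [hN]
        exact IntermediateField.subset_adjoin _ _ (Or.inr hx)

/-- the inclusion of subrings -/
def iclMap {A B : Type*} [SetLike A Ω] [SetLike B Ω] [SubringClass A Ω] [SubringClass B Ω]
    (a : A) (b : B) (h : ∀ x ∈ a, x ∈ b) : a →+* b where
  toFun x := ⟨x, h x x.2⟩
  map_one' := rfl
  map_mul' _ _ := rfl
  map_zero' := rfl
  map_add' _ _ := rfl

theorem icl_frac_inst (hF : Frc R F) :
    letI : Algebra R F := (iclMap R F hF.le).toAlgebra
    IsFractionRing R F := by
  letI : Algebra R F := (iclMap R F hF.le).toAlgebra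
  have hinj : Function.Injective (algebraMap R F) := fun x y hxy =>
    Subtype.ext (congrArg (fun z : F => (z : Ω)) hxy)
  haveI : FaithfulSMul R F := (faithfulSMul_iff_algebraMap_injective R F).2 hinj
  refine IsFractionRing.of_field R F fun z => ?_
  obtain ⟨b, hb, d, hd, hd0, hbd⟩ := hF.frac z z.2
  exact ⟨⟨b, hb⟩, ⟨d, hd⟩, Subtype.ext hbd⟩

theorem icl_alg_iff (hF : Frc R F) {a : Ω} : IsAlgebraic R a ↔ IsAlgebraic F a := by
  letI : Algebra R F := (iclMap R F hF.le).toAlgebra
  haveI : IsScalarTower R F Ω := IsScalarTower.of_algebraMap_eq fun _ => rfl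
  haveI : IsFractionRing R F := icl_frac_inst hF
  exact IsFractionRing.isAlgebraic_iff R F Ω

/-- denominators: `N` is the field of fractions of `icl R N`, with denominators in `R` -/
theorem icl_frac (hF : Frc R F) (h : Fext F N) (a : Ω) (ha : a ∈ N) :
    ∃ b ∈ icl R N, ∃ d ∈ R, d ≠ 0 ∧ a = b / d := by
  obtain ⟨d, hd, hi⟩ := ((icl_alg_iff hF).2 (h.alg a ha)).exists_integral_multiple
  have hd0 : (d : Ω) ≠ 0 := fun h0 => hd (Subtype.ext h0)
  refine ⟨(d : Ω) * a, ⟨hi, mul_mem (h.le (hF.le _ d.2)) ha⟩, d, d.2, hd0, ?_⟩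
  rw [mul_div_cancel_left₀ _ hd0]

theorem icl_frc (hF : Frc R F) (h : Fext F N) : Frc (icl R N) N := by
  refine ⟨fun a ha => ha.2, fun a ha => ?_⟩
  obtain ⟨b, hb, d, hd, hd0, hbd⟩ := icl_frac hF h a ha
  exact ⟨b, hb, d, le_icl hF h hd, hd0, hbd⟩

/-- the integral closure is integrally closed -/
theorem icl_nrm (hF : Frc R F) (h : Fext F N) (a : Ω) (ha : a ∈ N)
    (hi : IsIntegral (icl R N) a) : a ∈ icl R N := by
  letI : Algebra R (icl R N) := (iclMap R (icl R N) fun x hx => le_icl hF h hx).toAlgebra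
  haveI : IsScalarTower R (icl R N) Ω := IsScalarTower.of_algebraMap_eq fun _ => rfl
  haveI : Algebra.IsIntegral R (icl R N) := ⟨fun x => by
    have h1 : IsIntegral R (x : Ω) := x.2.1
    exact (isIntegral_algebraMap_iff (A := icl R N) (B := Ω) Subtype.val_injective).1 h1⟩
  exact ⟨isIntegral_trans a hi, ha⟩

theorem icl_module_finite [CharZero k] (hR : IsNoetherianRing R) (hn : Nrm R) (hF : Frc R F)
    (h : Fext F N) :
    letI : Algebra R (icl R N) := (iclMap R (icl R N) fun x hx => le_icl hF h hx).toAlgebra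
    Module.Finite R (icl R N) := by
  letI : Algebra R (icl R N) := (iclMap R (icl R N) fun x hx => le_icl hF h hx).toAlgebra
  letI a1 : Algebra R F := (iclMap R F hF.le).toAlgebra
  haveI : IsFractionRing R F := icl_frac_inst hF
  letI a2 : Algebra F N := (iclMap F N fun x hx => h.le hx).toAlgebra
  letI a3 : Algebra R N := (iclMap R N fun x hx => h.le (hF.le x hx)).toAlgebra
  haveI : IsScalarTower R F N := IsScalarTower.of_algebraMap_eq fun _ => rfl
  letI a4 : Algebra (icl R N) N := (iclMap (icl R N) N fun x hx => (mem_icl.1 hx).2).toAlgebra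
  haveI : IsScalarTower R (icl R N) N := IsScalarTower.of_algebraMap_eq fun _ => rfl
  haveI : IsScalarTower R N Ω := IsScalarTower.of_algebraMap_eq fun _ => rfl
  haveI : IsIntegralClosure (icl R N) R N := by
    refine ⟨fun x y hxy => Subtype.ext (congrArg (fun z : N => (z : Ω)) hxy), fun {x} => ?_⟩
    have h1 : IsIntegral R x ↔ IsIntegral R (x : Ω) :=
      (isIntegral_algebraMap_iff (A := N) (B := Ω) Subtype.val_injective).symm
    rw [h1]
    constructor
    · intro h2
      exact ⟨⟨x, h2, x.2⟩, Subtype.ext rfl⟩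
    · rintro ⟨y, rfl⟩
      exact y.2.1
  haveI : FiniteDimensional F N := by
    have h1 := icl_fd h
    let f : (IntermediateField.extendScalars h.le : IntermediateField F Ω) →ₗ[F] N :=
      { toFun := fun x => ⟨x, x.2⟩
        map_add' := fun _ _ => rfl
        map_smul' := fun _ _ => rfl }
    exact Module.Finite.of_surjective f fun x => ⟨⟨x, x.2⟩, rfl⟩
  haveI : CharZero F := charZero_of_injective_algebraMap (algebraMap k F).injective
  haveI : IsIntegrallyClosed R := by
    rw [isIntegrallyClosed_iff F]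
    intro x hx
    obtain ⟨b, hb, d, hd, hd0, hbd⟩ := hF.frac x x.2
    haveI : IsScalarTower R F Ω := IsScalarTower.of_algebraMap_eq fun _ => rfl
    have h1 : IsIntegral R (x : Ω) := by
      have h2 := hx.map (IsScalarTower.toAlgHom R F Ω)
      exact h2
    rw [hbd] at h1
    have h3 := hn b hb d hd hd0 h1
    rw [← hbd] at h3
    exact ⟨⟨x, h3⟩, Subtype.ext rfl⟩
  haveI := hR
  exact IsIntegralClosure.finite R F N (icl R N)

/-- finiteness of the integral closure (Mathlib: `IsIntegralClosure.finite`, `isNoetherian`) -/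
theorem icl_finite [CharZero k] (hR : IsNoetherianRing R) (hn : Nrm R) (hF : Frc R F)
    (h : Fext F N) : ∃ s : Finset Ω, ∀ a ∈ icl R N, ∃ c : Ω → Ω, (∀ i, c i ∈ R) ∧
      a = ∑ i ∈ s, c i * i := by
  classical
  letI : Algebra R (icl R N) := (iclMap R (icl R N) fun x hx => le_icl hF h hx).toAlgebra
  haveI : Module.Finite R (icl R N) := icl_module_finite hR hn hF h
  obtain ⟨t, ht⟩ := (Module.Finite.fg_top : (⊤ : Submodule R (icl R N)).FG)
  refine ⟨t.image fun x : icl R N => (x : Ω), fun a ha => ?_⟩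
  have h1 : (⟨a, ha⟩ : icl R N) ∈ Submodule.span R (t : Set (icl R N)) := by
    rw [ht]
    exact Submodule.mem_top
  rw [Submodule.mem_span_finset] at h1
  obtain ⟨f, -, hf⟩ := h1
  refine ⟨fun x => if hx : x ∈ icl R N then (f ⟨x, hx⟩ : Ω) else 0, fun i => ?_, ?_⟩
  · dsimp only
    split_ifs with hx
    · exact (f _).2
    · exact R.zero_mem
  · rw [Finset.sum_image fun x _ y _ hxy => Subtype.ext hxy]
    have h2 := congrArg (fun x : icl R N => (x : Ω)) hf
    rw [AddSubmonoidClass.coe_finset_sum] at h2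
    refine Eq.trans h2.symm ?_
    refine Finset.sum_congr rfl fun x _ => ?_
    dsimp only
    rw [dif_pos x.2]
    rfl

theorem icl_fg [CharZero k] (hR : R.FG) (hn : Nrm R) (hF : Frc R F) (h : Fext F N) :
    (icl R N).FG := by
  letI : Algebra R (icl R N) := (iclMap R (icl R N) fun x hx => le_icl hF h hx).toAlgebra
  haveI : Module.Finite R (icl R N) :=
    icl_module_finite (isNoetherianRing_of_fg hR) hn hF h
  haveI : IsScalarTower k R (icl R N) := IsScalarTower.of_algebraMap_eq fun _ => rfl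
  rw [Subalgebra.fg_iff_finiteType] at hR ⊢
  exact Algebra.FiniteType.trans (S := R) hR inferInstance

/-- the elements which do not vanish at the point -/
def iclM (φ : R →ₐ[k] k) : Submonoid R where
  carrier := {c | φ c ≠ 0}
  mul_mem' := by
    intro a b ha hb
    show φ (a * b) ≠ 0
    rw [map_mul]
    exact mul_ne_zero ha hb
  one_mem' := by
    show φ 1 ≠ 0
    rw [map_one]
    exact one_ne_zero

theorem icl_isLoc (φ : R →ₐ[k] k) :
    letI : Algebra R (Loc R φ) := (iclMap R (Loc R φ) fun x hx => le_loc φ hx).toAlgebra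
    IsLocalization (iclM φ) (Loc R φ) := by
  letI : Algebra R (Loc R φ) := (iclMap R (Loc R φ) fun x hx => le_loc φ hx).toAlgebra
  rw [isLocalization_iff]
  refine ⟨fun y => ?_, fun z => ?_, fun {x y} hxy => ?_⟩
  · have hu : Un (Loc R φ) ((y : R) : Ω) := (un_loc φ (y : R)).2 y.2
    refine ⟨⟨⟨((y : R) : Ω), hu.2.1⟩, ⟨((y : R) : Ω)⁻¹, hu.2.2⟩, ?_, ?_⟩, rfl⟩
    · exact Subtype.ext (mul_inv_cancel₀ hu.1)
    · exact Subtype.ext (inv_mul_cancel₀ hu.1)
  · obtain ⟨b, c, hc, hbc⟩ := z.2
    refine ⟨(b, ⟨c, hc⟩), Subtype.ext ?_⟩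
    show (z : Ω) * (c : Ω) = (b : Ω)
    rw [hbc, div_mul_cancel₀ _ (loc_ne φ hc)]
  · refine ⟨1, ?_⟩
    rw [show x = y from Subtype.ext (congrArg (fun w : Loc R φ => (w : Ω)) hxy)]

theorem icl_multiple (φ : R →ₐ[k] k) (a : Ω) (ha : IsIntegral (Loc R φ) a) :
    ∃ c : R, φ c ≠ 0 ∧ IsIntegral R ((c : Ω) * a) := by
  letI : Algebra R (Loc R φ) := (iclMap R (Loc R φ) fun x hx => le_loc φ hx).toAlgebra
  haveI : IsScalarTower R (Loc R φ) Ω := IsScalarTower.of_algebraMap_eq fun _ => rfl
  haveI : IsLocalization (iclM φ) (Loc R φ) := icl_isLoc φ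
  obtain ⟨m, hm⟩ := IsIntegral.exists_multiple_integral_of_isLocalization (iclM φ) a ha
  exact ⟨m, m.2, hm⟩

/-- a localisation of an integrally closed ring is integrally closed -/
theorem nrm_loc (hn : Nrm R) (φ : R →ₐ[k] k) : Nrm (Loc R φ) := by
  intro a ha b hb hb0 hi
  obtain ⟨c, hc, hci⟩ := icl_multiple φ _ hi
  obtain ⟨a1, a2, ha2, rfl⟩ := ha
  obtain ⟨b1, b2, hb2, rfl⟩ := hb
  have ha0 := loc_ne φ ha2
  have hb20 := loc_ne φ hb2
  have hc0 := loc_ne φ hc
  have hb10 : (b1 : Ω) ≠ 0 := fun h0 => hb0 (by rw [h0, zero_div])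
  have h1 : (c : Ω) * ((a1 : Ω) / a2 / (b1 / b2)) = ((c * a1 * b2 : R) : Ω) / ((a2 * b1 : R) : Ω) := by
    simp only [MulMemClass.coe_mul]
    field_simp
  rw [h1] at hci
  have h2 := hn _ (c * a1 * b2).2 _ (a2 * b1).2 (by
    rw [MulMemClass.coe_mul]
    exact mul_ne_zero ha0 hb10) hci
  refine ⟨⟨_, h2⟩, c, hc, ?_⟩
  rw [eq_div_iff hc0, mul_comm]
  exact h1

theorem frc_loc (hF : Frc R F) (φ : R →ₐ[k] k) : Frc (Loc R φ) F := by
  refine ⟨?_, fun a ha => ?_⟩
  · rintro _ ⟨b, c, -, rfl⟩
    exact div_mem (hF.le _ b.2) (hF.le _ c.2)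
  · obtain ⟨b, hb, d, hd, hd0, hbd⟩ := hF.frac a ha
    exact ⟨b, le_loc φ hb, d, le_loc φ hd, hd0, hbd⟩

/-- integral closure and localisation commute -/
theorem icl_loc (φ : R →ₐ[k] k) (b : Ω) (hb : b ∈ icl (Loc R φ) N) (hF : Frc R F)
    (h : Fext F N) : ∃ c : R, φ c ≠ 0 ∧ (c : Ω) * b ∈ icl R N := by
  obtain ⟨c, hc, hci⟩ := icl_multiple φ b hb.1
  exact ⟨c, hc, hci, mul_mem (h.le (hF.le _ c.2)) hb.2⟩

end Pool.Agent.KMR
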