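import Pool.Agent.Lib.MP_732f67_ag.R.Pt

/-!
Localisations `R[1/g]` of subalgebras of `Ω`.
-/

namespace Pool.Agent.KMR

variable {k Ω : Type} [Field k] [Field Ω] [Algebra k Ω]

/-- the localisation `R[1/g]` -/
def Inv (R : Subalgebra k Ω) (g : Ω) : Subalgebra k Ω :=
  R ⊔ Algebra.adjoin k {g⁻¹}

theorem le_inv (R : Subalgebra k Ω) (g : Ω) : R ≤ Inv R g := le_sup_left

theorem inv_mem_inv (R : Subalgebra k Ω) (g : Ω) : g⁻¹ ∈ Inv R g :=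
  (le_sup_right : Algebra.adjoin k {g⁻¹} ≤ Inv R g)
    (Algebra.subset_adjoin (Set.mem_singleton _))

/-- auxiliary: the elements `a` with `a * g ^ N ∈ R` for some `N` -/
def invAux (R : Subalgebra k Ω) {g : Ω} (hg : g ∈ R) : Subalgebra k Ω where
  carrier := {a | ∃ N : ℕ, a * g ^ N ∈ R}
  mul_mem' := by
    rintro a b ⟨N, hN⟩ ⟨M, hM⟩
    refine ⟨N + M, ?_⟩
    have h1 : a * b * g ^ (N + M) = (a * g ^ N) * (b * g ^ M) := by ring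
    rw [h1]
    exact R.mul_mem hN hM
  add_mem' := by
    rintro a b ⟨N, hN⟩ ⟨M, hM⟩
    refine ⟨N + M, ?_⟩
    have h1 : (a + b) * g ^ (N + M) = (a * g ^ N) * g ^ M + (b * g ^ M) * g ^ N := by ring
    rw [h1]
    exact R.add_mem (R.mul_mem hN (R.pow_mem hg M)) (R.mul_mem hM (R.pow_mem hg N))
  algebraMap_mem' r := ⟨0, by
    rw [pow_zero, mul_one]
    exact R.algebraMap_mem r⟩

theorem mem_inv {R : Subalgebra k Ω} {g : Ω} (hg : g ∈ R) (h0 : g ≠ 0) {a : Ω} :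
    a ∈ Inv R g ↔ ∃ N : ℕ, a * g ^ N ∈ R := by
  constructor
  · have h1 : Inv R g ≤ invAux R hg := by
      refine sup_le ?_ ?_
      · intro b hb
        exact ⟨0, by rw [pow_zero, mul_one]; exact hb⟩
      · refine Algebra.adjoin_le ?_
        rintro _ rfl
        exact ⟨1, by rw [pow_one, inv_mul_cancel₀ h0]; exact R.one_mem⟩
    intro ha
    exact h1 ha
  · rintro ⟨N, hN⟩
    have h1 : a = a * g ^ N * (g⁻¹) ^ N := by
      rw [mul_assoc, ← mul_pow, mul_inv_cancel₀ h0, one_pow, mul_one]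
    rw [h1]
    exact (Inv R g).mul_mem (le_inv R g hN) ((Inv R g).pow_mem (inv_mem_inv R g) N)

theorem inv_fg {R : Subalgebra k Ω} (h : R.FG) (g : Ω) : (Inv R g).FG := by
  obtain ⟨s, hs⟩ := h
  classical
  refine ⟨s ∪ {g⁻¹}, ?_⟩
  rw [Finset.coe_union, Finset.coe_singleton, Algebra.adjoin_union, hs]
  rfl

/-- the points of `R[1/g]` are the points of `R` at which `g` does not vanish, with the same local
rings -/
theorem inv_pt {R : Subalgebra k Ω} {g : Ω} (hg : g ∈ R) (h0 : g ≠ 0) (φ : Inv R g →ₐ[k] k) :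
    ∃ ψ : R →ₐ[k] k, Loc R ψ = Loc (Inv R g) φ ∧ Un (Loc R ψ) g ∧
      ∀ (a : Ω) (h : a ∈ R) (h' : a ∈ Inv R g), ψ ⟨a, h⟩ = φ ⟨a, h'⟩ := by
  have hgu : φ ⟨g, le_inv R g hg⟩ ≠ 0 := by
    intro h1
    have h2 : (⟨g, le_inv R g hg⟩ : Inv R g) * ⟨g⁻¹, inv_mem_inv R g⟩ = 1 :=
      Subtype.ext (mul_inv_cancel₀ h0)
    have h3 := congrArg φ h2
    rw [map_mul, h1, zero_mul, map_one] at h3
    exact zero_ne_one h3
  set ψ : R →ₐ[k] k := φ.comp (Subalgebra.inclusion (le_inv R g)) with hψ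
  have hval : ∀ (a : Ω) (h : a ∈ R) (h' : a ∈ Inv R g), ψ ⟨a, h⟩ = φ ⟨a, h'⟩ := fun a h h' => rfl
  refine ⟨ψ, le_antisymm ?_ ?_, (un_loc ψ ⟨g, hg⟩).2 hgu, hval⟩
  · rintro _ ⟨b, c, hc, rfl⟩
    exact ⟨⟨b, le_inv R g b.2⟩, ⟨c, le_inv R g c.2⟩, hc, rfl⟩
  · rintro _ ⟨b, c, hc, rfl⟩
    obtain ⟨N, hN⟩ := (mem_inv hg h0).1 b.2
    obtain ⟨M, hM⟩ := (mem_inv hg h0).1 c.2
    have hb : (b : Ω) * g ^ N * g ^ M ∈ R := R.mul_mem hN (R.pow_mem hg M)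
    have hc' : (c : Ω) * g ^ M * g ^ N ∈ R := R.mul_mem hM (R.pow_mem hg N)
    refine ⟨⟨_, hb⟩, ⟨_, hc'⟩, ?_, ?_⟩
    · rw [hval _ hc' (le_inv R g hc')]
      have h1 : (⟨(c : Ω) * g ^ M * g ^ N, le_inv R g hc'⟩ : Inv R g) =
          c * ⟨g, le_inv R g hg⟩ ^ M * ⟨g, le_inv R g hg⟩ ^ N := rfl
      rw [h1, map_mul, map_mul, map_pow, map_pow]
      exact mul_ne_zero (mul_ne_zero hc (pow_ne_zero _ hgu)) (pow_ne_zero _ hgu)
    · change (b : Ω) / c = ((b : Ω) * g ^ N * g ^ M) / ((c : Ω) * g ^ M * g ^ N)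
      have h1 : ((c : Ω) * g ^ M * g ^ N) = c * (g ^ N * g ^ M) := by ring
      have h2 : ((b : Ω) * g ^ N * g ^ M) = b * (g ^ N * g ^ M) := by ring
      rw [h1, h2, mul_div_mul_right _ _ (mul_ne_zero (pow_ne_zero _ h0) (pow_ne_zero _ h0))]

theorem pt_inv {R : Subalgebra k Ω} {g : Ω} (hg : g ∈ R) (ψ : R →ₐ[k] k)
    (hu : Un (Loc R ψ) g) : ∃ φ : Inv R g →ₐ[k] k, Loc R ψ = Loc (Inv R g) φ ∧
      ∀ (a : Ω) (h : a ∈ R) (h' : a ∈ Inv R g), ψ ⟨a, h⟩ = φ ⟨a, h'⟩ := by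
  have hle : Inv R g ≤ Loc R ψ := by
    refine sup_le (le_loc ψ) (Algebra.adjoin_le ?_)
    rintro _ rfl
    exact hu.2.2
  set φ : Inv R g →ₐ[k] k := (locRes R ψ).comp (Subalgebra.inclusion hle) with hφ
  have hval : ∀ (a : Ω) (h : a ∈ R) (h' : a ∈ Inv R g), ψ ⟨a, h⟩ = φ ⟨a, h'⟩ := by
    intro a h h'
    have h1 := locRes_div ψ ⟨a, h⟩ 1 (by rw [map_one]; exact one_ne_zero)
      (Subalgebra.inclusion hle ⟨a, h'⟩) (by
        rw [OneMemClass.coe_one, div_one]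
        rfl)
    rw [map_one, div_one] at h1
    exact h1.symm
  refine ⟨φ, ?_, hval⟩
  obtain ⟨ψ', h1, _, h2⟩ := inv_pt hg hu.1 φ
  have h3 : ψ' = ψ := by
    ext a
    rw [show a = ⟨a, a.2⟩ from rfl, h2 a a.2 (le_inv R g a.2), hval a a.2 (le_inv R g a.2)]
  rw [← h1, h3]

end Pool.Agent.KMR
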