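import Pool.Agent.Lib.MP_732f67_ag.R.Tay
import Pool.Agent.Lib.MP_732f67_ag.R.Inv

/-!
Coordinates near a point, Jacobian determinants.
-/

namespace Pool.Agent.KMR

variable {k Ω : Type} [Field k] [Field Ω] [Algebra k Ω]

/-- finitely many elements of the local ring have a common denominator -/
theorem jac_den {R : Subalgebra k Ω} (φ : R →ₐ[k] k) (s : Finset Ω) (hs : ∀ a ∈ s, a ∈ Loc R φ) :
    ∃ g : R, φ g ≠ 0 ∧ ∀ a ∈ s, (g : Ω) * a ∈ R := by
  classical
  induction s using Finset.induction_on with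
  | empty =>
    refine ⟨1, by rw [map_one]; exact one_ne_zero, fun a ha => ?_⟩
    simp at ha
  | insert a s ha ih =>
    obtain ⟨g, hg, hgs⟩ := ih fun b hb => hs b (Finset.mem_insert_of_mem hb)
    obtain ⟨b, c, hc, hbc⟩ := hs a (Finset.mem_insert_self a s)
    refine ⟨c * g, by rw [map_mul]; exact mul_ne_zero hc hg, fun w hw => ?_⟩
    rw [MulMemClass.coe_mul]
    rcases Finset.mem_insert.1 hw with hw | hw
    · have h1 : (c : Ω) * g * w = g * b := by
        rw [hw, hbc, mul_comm (c : Ω), mul_assoc, mul_div_cancel₀ _ (loc_ne φ hc)]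
      rw [h1]
      exact R.mul_mem g.2 b.2
    · rw [mul_assoc]
      exact R.mul_mem c.2 (hgs w hw)

/-- a homomorphism which maps the variables to constants -/
theorem jac_ev {A B : Type} [CommRing A] [Algebra k A] [CommRing B] [Algebra k B]
    (χ : A →ₐ[k] B) {n : ℕ} (z : Fin n → A) (y : A) (e : Fin n → k)
    (he : ∀ i, χ (z i) = algebraMap k B (e i)) (g : Polynomial (MvPolynomial (Fin n) k)) :
    χ (g.eval₂ (MvPolynomial.aeval z : MvPolynomial (Fin n) k →ₐ[k] A).toRingHom y) =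
      Polynomial.aeval (χ y) (g.map (MvPolynomial.eval e)) := by
  have h1 : χ (g.eval₂ (MvPolynomial.aeval z : MvPolynomial (Fin n) k →ₐ[k] A).toRingHom y) =
      g.eval₂ ((χ : A →+* B).comp
        (MvPolynomial.aeval z : MvPolynomial (Fin n) k →ₐ[k] A).toRingHom) (χ y) :=
    Polynomial.hom_eval₂ g _ (χ : A →+* B) y
  have h2 : (χ : A →+* B).comp
      (MvPolynomial.aeval z : MvPolynomial (Fin n) k →ₐ[k] A).toRingHom =
      (algebraMap k B).comp (MvPolynomial.eval e) := by
    refine MvPolynomial.ringHom_ext (fun c => ?_) fun i => ?_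
    · change χ (MvPolynomial.aeval z (MvPolynomial.C c)) =
        algebraMap k B (MvPolynomial.eval e (MvPolynomial.C c))
      rw [MvPolynomial.aeval_C, MvPolynomial.eval_C, AlgHom.commutes]
    · change χ (MvPolynomial.aeval z (MvPolynomial.X i)) =
        algebraMap k B (MvPolynomial.eval e (MvPolynomial.X i))
      rw [MvPolynomial.aeval_X, MvPolynomial.eval_X, he]
  rw [h1, h2, Polynomial.aeval_def, Polynomial.eval₂_map]

/-- the standard étale chart has the coordinates `z i - e i` at all of its points -/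
theorem jac_ch {A : Subalgebra k Ω} {n : ℕ} {z : Fin n → Ω} {y u : Ω}
    (h : Ch A z y u) (ψ : A →ₐ[k] k) :
    ∃ e : Fin n → k, Par (Loc A ψ) (fun i => z i - algebraMap k Ω (e i)) := by
  have hzA : ∀ i, z i ∈ A := fun i => by
    rw [h.A_eq]
    exact Algebra.subset_adjoin (Or.inl ⟨i, rfl⟩)
  have hyA : y ∈ A := by
    rw [h.A_eq]
    exact Algebra.subset_adjoin (Or.inr (Or.inl rfl))
  have huA : u ∈ A := by
    rw [h.A_eq]
    exact Algebra.subset_adjoin (Or.inr (Or.inr rfl))
  have hle : Algebra.adjoin k (Set.range z ∪ {y}) ≤ A := by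
    rw [Algebra.adjoin_le_iff]
    rintro w (⟨i, rfl⟩ | hw)
    · exact hzA i
    · rw [Set.mem_singleton_iff] at hw
      rw [hw]
      exact hyA
  have huA' : u⁻¹ ∈ A := hle h.u_inv
  obtain ⟨f, hf, -, hf0, hf1, hf2⟩ := h.pol
  let zA : Fin n → A := fun i => ⟨z i, hzA i⟩
  let yA : A := ⟨y, hyA⟩
  let evA : Polynomial (MvPolynomial (Fin n) k) → A := fun g =>
    g.eval₂ (MvPolynomial.aeval zA : MvPolynomial (Fin n) k →ₐ[k] A).toRingHom yA
  have hevA : ∀ g, ((evA g : A) : Ω) = ev z y g := by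
    intro g
    have h1 : A.val (evA g) = g.eval₂ ((A.val : A →+* Ω).comp
        (MvPolynomial.aeval zA : MvPolynomial (Fin n) k →ₐ[k] A).toRingHom) (A.val yA) :=
      Polynomial.hom_eval₂ g _ (A.val : A →+* Ω) yA
    have h2 : (A.val : A →+* Ω).comp
        (MvPolynomial.aeval zA : MvPolynomial (Fin n) k →ₐ[k] A).toRingHom =
        (MvPolynomial.aeval z : MvPolynomial (Fin n) k →ₐ[k] Ω).toRingHom := by
      refine MvPolynomial.ringHom_ext (fun c => ?_) fun i => ?_
      · change A.val (MvPolynomial.aeval zA (MvPolynomial.C c)) =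
          MvPolynomial.aeval z (MvPolynomial.C c)
        rw [MvPolynomial.aeval_C, MvPolynomial.aeval_C, AlgHom.commutes]
      · change A.val (MvPolynomial.aeval zA (MvPolynomial.X i)) =
          MvPolynomial.aeval z (MvPolynomial.X i)
        rw [MvPolynomial.aeval_X, MvPolynomial.aeval_X]
        rfl
    rw [h2] at h1
    exact h1
  let e : Fin n → k := fun i => ψ (zA i)
  let η : k := ψ yA
  let O := Loc A ψ
  let w : Fin n → O := fun i => ⟨z i - algebraMap k Ω (e i),
    O.sub_mem (le_loc ψ (hzA i)) (O.algebraMap_mem _)⟩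
  let I : Ideal O := Ideal.span (Set.range w)
  let α : A →ₐ[k] O ⧸ I := (Ideal.Quotient.mkₐ k I).comp (Subalgebra.inclusion (le_loc ψ))
  have hα : ∀ a : A, α a = Ideal.Quotient.mk I ⟨a, le_loc ψ a.2⟩ := fun a => rfl
  have hαz : ∀ i, α (zA i) = algebraMap k (O ⧸ I) (e i) := by
    intro i
    have h1 : algebraMap k (O ⧸ I) (e i) = Ideal.Quotient.mk I (algebraMap k O (e i)) := rfl
    rw [h1, hα, Ideal.Quotient.eq]
    exact Ideal.subset_span ⟨i, rfl⟩
  have hunit : ∀ a : A, ψ a ≠ 0 → IsUnit (α a) := by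
    intro a ha
    rw [hα]
    refine IsUnit.map _ ?_
    rw [isUnit_iff_un]
    exact (un_loc ψ a).2 ha
  have hψev : ∀ g, ψ (evA g) = (g.map (MvPolynomial.eval e)).eval η := by
    intro g
    have h1 := jac_ev ψ zA yA e (fun i => rfl) g
    rw [Polynomial.coe_aeval_eq_eval] at h1
    exact h1
  -- the value of `y`
  have hαy : α yA = algebraMap k (O ⧸ I) η := by
    have h0 : evA f = 0 := Subtype.ext (by rw [hevA, hf0]; rfl)
    have h1 : (f.map (MvPolynomial.eval e)).eval η = 0 := by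
      rw [← hψev, h0, map_zero]
    obtain ⟨q, hq⟩ := Polynomial.dvd_iff_isRoot.2 h1
    have h2 : (f.derivative.map (MvPolynomial.eval e)).eval η = q.eval η := by
      rw [← Polynomial.derivative_map, hq, Polynomial.derivative_mul]
      simp
    have h3 : ψ (evA f.derivative) ≠ 0 := by
      intro h4
      have h5 : evA f.derivative * ⟨_, hf2⟩ = 1 := Subtype.ext (by
        change ((evA f.derivative : A) : Ω) * (ev z y f.derivative)⁻¹ = 1
        rw [hevA, mul_inv_cancel₀ hf1])
      have h6 := congrArg ψ h5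
      rw [map_mul, h4, zero_mul, map_one] at h6
      exact zero_ne_one h6
    rw [hψev, h2] at h3
    have h4 : Polynomial.aeval (α yA) (f.map (MvPolynomial.eval e)) = 0 := by
      rw [← jac_ev α zA yA e hαz f]
      change α (evA f) = 0
      rw [h0, map_zero]
    rw [hq, map_mul] at h4
    have h5 : IsUnit (Polynomial.aeval (α yA) q) := by
      rw [Polynomial.aeval_algHom_apply]
      refine hunit _ ?_
      rw [← Polynomial.aeval_algHom_apply, Polynomial.coe_aeval_eq_eval]
      exact h3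
    rw [h5.mul_left_eq_zero, map_sub, Polynomial.aeval_X, Polynomial.aeval_C, sub_eq_zero] at h4
    exact h4
  let β : A →ₐ[k] O ⧸ I := (Algebra.ofId k (O ⧸ I)).comp ψ
  have hβ : ∀ a : A, β a = algebraMap k (O ⧸ I) (ψ a) := fun a => rfl
  let K : Subalgebra k Ω := (AlgHom.equalizer α β).map A.val
  have hK : ∀ a : A, (a : Ω) ∈ K ↔ α a = β a := by
    intro a
    constructor
    · rintro ⟨b, hb, hba⟩
      have h1 : b = a := Subtype.ext hba
      rw [← h1]
      exact hb
    · intro h1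
      exact ⟨a, h1, rfl⟩
  have h1 : ∀ i, z i ∈ K := fun i => (hK (zA i)).2 (hαz i)
  have h2 : y ∈ K := (hK yA).2 hαy
  have h3 : Algebra.adjoin k (Set.range z ∪ {y}) ≤ K := by
    rw [Algebra.adjoin_le_iff]
    rintro w (⟨i, rfl⟩ | hw)
    · exact h1 i
    · rw [Set.mem_singleton_iff] at hw
      rw [hw]
      exact h2
  have h4 : u ∈ K := by
    have h5 : α ⟨u⁻¹, huA'⟩ = β ⟨u⁻¹, huA'⟩ := (hK ⟨u⁻¹, huA'⟩).1 (h3 h.u_inv)
    have h6 : (⟨u, huA⟩ : A) * ⟨u⁻¹, huA'⟩ = 1 := Subtype.ext (mul_inv_cancel₀ h.u_ne)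
    have h7 := congrArg α h6
    have h8 := congrArg β h6
    rw [map_mul, map_one] at h7 h8
    refine (hK ⟨u, huA⟩).2 ?_
    calc α ⟨u, huA⟩ = α ⟨u, huA⟩ * (β ⟨u, huA⟩ * β ⟨u⁻¹, huA'⟩) := by rw [h8, mul_one]
      _ = (α ⟨u, huA⟩ * α ⟨u⁻¹, huA'⟩) * β ⟨u, huA⟩ := by rw [h5]; ring
      _ = β ⟨u, huA⟩ := by rw [h7, one_mul]
  have h5 : A ≤ K := by
    conv_lhs => rw [h.A_eq]
    rw [Algebra.adjoin_le_iff]
    rintro w (⟨i, rfl⟩ | hw | hw)
    · exact h1 i
    · rw [hw]
      exact h2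
    · rw [Set.mem_singleton_iff] at hw
      rw [hw]
      exact h4
  refine ⟨e, par_of_loc ψ (fun i => ⟨(w i).2, ?_⟩) fun r hr => ?_⟩
  · have h6 : (z i - algebraMap k Ω (e i)) = ((zA i - algebraMap k A (e i) : A) : Ω) := rfl
    intro h7
    change Un (Loc A ψ) (z i - algebraMap k Ω (e i)) at h7
    rw [h6, un_loc] at h7
    apply h7
    rw [map_sub, AlgHom.commutes]
    exact sub_self _
  · have h6 : α r = β r := (hK r).1 (h5 r.2)
    rw [hβ, hr, map_zero, hα, Ideal.Quotient.eq_zero_iff_mem] at h6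
    rw [Ideal.mem_span_range_iff_exists_fun] at h6
    obtain ⟨c, hc⟩ := h6
    refine ⟨fun i => c i, fun i => (c i).2, ?_⟩
    have h7 := congrArg (fun t : O => (t : Ω)) hc
    refine Eq.trans h7.symm ?_
    rw [AddSubmonoidClass.coe_finsetSum]
    rfl

/-- PROOF. Let `A = k[z, y, u]` be the chart of `exists_ch`, `R ≤ A ≤ Loc R φ`; the generators of `A`
have a common denominator `g ∈ R`, so `A ≤ R[1/g]`, and the points `ψ` of `R` with `ψ g ≠ 0` are points
`ψ'` of `A` with the same local ring (`pt_inv`, `loc_between`). Let `e i = ψ' (z i)`, `η = ψ' y`. With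
`f` from `Ch`: `f (e, Y) = (Y - η) q (Y)`, `q (η) = f' (e, η) ≠ 0`, and
`0 = f (z, y) ≡ (y - η) q (y)` modulo the `z i - e i`; `q (y)` is a unit of the local ring, so `y - η` is
in the ideal of the `z i - e i`. The local ring of `A` is a local ring of `k[z, y]`, whose maximal
ideal is generated by the `z i - e i` and `y - η`. -/
theorem exists_coord [IsAlgClosed k] [CharZero k] {R : Subalgebra k Ω} {n : ℕ} (h : Dim R n)
    (φ : R →ₐ[k] k) (z : Fin n → Ω) (hz : Par (Loc R φ) z) :
    ∃ g : R, φ g ≠ 0 ∧ ∀ ψ : R →ₐ[k] k, ψ g ≠ 0 →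
      ∃ e : Fin n → k, Par (Loc R ψ) (fun i => z i - algebraMap k Ω (e i)) := by
  classical
  obtain ⟨A, y, u, hRA, hAL, -, hch⟩ := exists_ch h φ z hz ∅ (fun a ha => by simp at ha)
  obtain ⟨g, hg, hgs⟩ := jac_den φ (Finset.univ.image z ∪ {y, u}) (by
    intro a ha
    apply hAL
    rw [hch.A_eq]
    refine Algebra.subset_adjoin ?_
    rcases Finset.mem_union.1 ha with ha | ha
    · obtain ⟨i, -, rfl⟩ := Finset.mem_image.1 ha
      exact Or.inl ⟨i, rfl⟩
    · right
      rw [Finset.mem_insert, Finset.mem_singleton] at ha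
      exact ha)
  refine ⟨g, hg, fun ψ hψ => ?_⟩
  have hu := (un_loc ψ g).2 hψ
  have hmem : ∀ a : Ω, (g : Ω) * a ∈ R → a ∈ Loc R ψ := by
    intro a ha
    refine ⟨⟨_, ha⟩, g, hψ, ?_⟩
    change a = (g : Ω) * a / g
    rw [mul_div_cancel_left₀ _ hu.1]
  have hAψ : A ≤ Loc R ψ := by
    rw [hch.A_eq, Algebra.adjoin_le_iff]
    rintro w (⟨i, rfl⟩ | hw)
    · exact hmem _ (hgs _ (Finset.mem_union_left _ (Finset.mem_image_of_mem z (Finset.mem_univ i))))
    · refine hmem _ (hgs _ (Finset.mem_union_right _ ?_))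
      rw [Finset.mem_insert, Finset.mem_singleton]
      exact hw
  obtain ⟨ψ', hψ'⟩ := loc_between ψ hRA hAψ
  obtain ⟨e, he⟩ := jac_ch hch ψ'
  rw [hψ'] at he
  exact ⟨e, he⟩

/-- the Jacobian determinant of `z` -/
noncomputable def jac {n : ℕ} (D : Fin n → Derivation k Ω Ω) (z : Fin n → Ω) : Ω :=
  (Matrix.of fun i j => D i (z j)).det

/-- the dual derivations -/
theorem jac_dual [CharZero k] {n : ℕ} (z : Fin n → Ω) (E : Fin n → Derivation k Ω Ω)
    (hE : ∀ i j, E i (z j) = if i = j then 1 else 0) (D : Derivation k Ω Ω) (a : Ω)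
    (ha : IsAlgebraic (Algebra.adjoin k (Set.range z)) a) : D a = ∑ i, D (z i) * E i a := by
  classical
  have h1 : ∀ b, (∑ i, D (z i) • E i) b = ∑ i, D (z i) * E i b := by
    intro b
    have h2 : (∑ i, D (z i) • E i) b = ∑ i, (D (z i) • E i) b := by
      have h3 := map_sum (Derivation.coeFnAddMonoidHom : Derivation k Ω Ω →+ Ω → Ω)
        (fun i => D (z i) • E i) Finset.univ
      have h4 := congrFun h3 b
      rw [Finset.sum_apply] at h4
      exact h4
    rw [h2]
    rfl
  rw [← h1]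
  refine der_unique z D _ (fun j => ?_) a ha
  rw [h1, Finset.sum_eq_single j]
  · rw [hE, if_pos rfl, mul_one]
  · intro i _ hij
    rw [hE, if_neg hij, mul_zero]
  · intro hj
    exact absurd (Finset.mem_univ j) hj

/-- the derivations dual to parameters preserve the local ring, and every derivation is a
combination of them -/
theorem der_eq_sum [IsAlgClosed k] [CharZero k] {R : Subalgebra k Ω} {n : ℕ} (h : Dim R n)
    (φ : R →ₐ[k] k) (z : Fin n → Ω) (hz : Par (Loc R φ) z) :
    ∃ E : Fin n → Derivation k Ω Ω, (∀ i j, E i (z j) = if i = j then 1 else 0) ∧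
      (∀ i, ∀ a ∈ Loc R φ, E i a ∈ Loc R φ) ∧
      ∀ (D : Derivation k Ω Ω), ∀ a ∈ Loc R φ, D a = ∑ i, D (z i) * E i a := by
  obtain ⟨hind, halg⟩ := par_ind h φ z hz
  obtain ⟨E, hE⟩ := exists_der z hind
  refine ⟨E, hE, fun i a ha => ?_, fun D a ha => jac_dual z E hE D a (halg a ha)⟩
  refine der_mem h.fg φ z hz (E i) (fun j => ?_) a ha
  rw [hE]
  split_ifs
  · exact one_mem _
  · exact zero_mem _

theorem jac_det {O : Subalgebra k Ω} {n : ℕ} (M : Matrix (Fin n) (Fin n) Ω)
    (hM : ∀ i j, M i j ∈ O) : M.det ∈ O := by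
  rw [Matrix.det_apply]
  exact O.sum_mem fun σ _ => O.zsmul_mem (O.prod_mem fun i _ => hM _ _) _

/-- change of parameters. PROOF. `der_eq_sum` for `z` and for `z'`: the matrices `E i (z' j)` and
`E' i (z j)` have entries in the local ring and are inverse to each other; and
`D i (z' j) = ∑ l, D i (z l) * E l (z' j)`. -/
theorem jac_unit [IsAlgClosed k] [CharZero k] {R : Subalgebra k Ω} {n : ℕ} (h : Dim R n)
    (φ : R →ₐ[k] k) (D : Fin n → Derivation k Ω Ω) (z z' : Fin n → Ω) (hz : Par (Loc R φ) z)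
    (hz' : Par (Loc R φ) z') : ∃ e : Ω, Un (Loc R φ) e ∧ jac D z' = e * jac D z := by
  obtain ⟨E, hE1, hE2, hE3⟩ := der_eq_sum h φ z hz
  obtain ⟨E', hE1', hE2', hE3'⟩ := der_eq_sum h φ z' hz'
  have hzO : ∀ i, z i ∈ Loc R φ := fun i => (hz.1 i).1
  have hzO' : ∀ i, z' i ∈ Loc R φ := fun i => (hz'.1 i).1
  let C : Matrix (Fin n) (Fin n) Ω := Matrix.of fun i j => E i (z' j)
  let C' : Matrix (Fin n) (Fin n) Ω := Matrix.of fun i j => E' i (z j)
  have h1 : C' * C = 1 := by
    ext i j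
    rw [Matrix.mul_apply, Matrix.one_apply, ← hE1' i j, hE3 (E' i) (z' j) (hzO' j)]
    rfl
  have h2 : C'.det * C.det = 1 := by
    rw [← Matrix.det_mul, h1, Matrix.det_one]
  refine ⟨C.det, ⟨right_ne_zero_of_mul_eq_one h2, jac_det C fun i j => hE2 i _ (hzO' j), ?_⟩, ?_⟩
  · rw [← eq_inv_of_mul_eq_one_left h2]
    exact jac_det C' fun i j => hE2' i _ (hzO j)
  · have h3 : (Matrix.of fun i j => D i (z' j)) = (Matrix.of fun i j => D i (z j)) * C := by
      ext i j
      rw [Matrix.mul_apply]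
      exact hE3 (D i) (z' j) (hzO' j)
    rw [jac, jac, h3, Matrix.det_mul, mul_comm]

/-- PROOF. `D i (x j) = ∑ l, D i (z l) * E l (x j)` is the identity matrix (the `x j` are in the
field of fractions; extend `der_eq_sum` to quotients). -/
theorem jac_ne [IsAlgClosed k] [CharZero k] {R : Subalgebra k Ω} {n : ℕ} (h : Dim R n)
    (φ : R →ₐ[k] k) (D : Fin n → Derivation k Ω Ω) (x : Fin n → Ω)
    (hx : ∀ i, ∃ b ∈ R, ∃ d ∈ R, d ≠ 0 ∧ x i = b / d)
    (hD : ∀ i j, D i (x j) = if i = j then 1 else 0) (z : Fin n → Ω)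
    (hz : Par (Loc R φ) z) : jac D z ≠ 0 := by
  obtain ⟨hind, halg⟩ := par_ind h φ z hz
  obtain ⟨E, hE⟩ := exists_der z hind
  have hxa : ∀ i, IsAlgebraic (Algebra.adjoin k (Set.range z)) (x i) := by
    intro i
    obtain ⟨b, hb, d, hd, -, h1⟩ := hx i
    rw [h1, div_eq_mul_inv]
    exact (halg b (le_loc φ hb)).mul (halg d (le_loc φ hd)).inv
  have h1 : (Matrix.of fun i j => D i (z j)) * (Matrix.of fun i j => E i (x j)) = 1 := by
    ext i j
    rw [Matrix.mul_apply, Matrix.one_apply, ← hD i j, jac_dual z E hE (D i) (x j) (hxa j)]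
    rfl
  have h2 := congrArg Matrix.det h1
  rw [Matrix.det_mul, Matrix.det_one] at h2
  exact left_ne_zero_of_mul_eq_one h2

theorem jac_sub {n : ℕ} (D : Fin n → Derivation k Ω Ω) (z : Fin n → Ω) (e : Fin n → k) :
    jac D (fun i => z i - algebraMap k Ω (e i)) = jac D z := by
  rw [jac, jac]
  congr 1
  ext i j
  change D i (z j - algebraMap k Ω (e j)) = D i (z j)
  rw [map_sub, Derivation.map_algebraMap, sub_zero]

/-- an automorphism fixing the `x i` commutes with the derivations dual to the `x i`, on the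
elements algebraic over `k (x)` -/
theorem jac_map [CharZero k] {n : ℕ} (D : Fin n → Derivation k Ω Ω) (x : Fin n → Ω)
    (hD : ∀ i j, D i (x j) = if i = j then 1 else 0) (g : Ω ≃ₐ[k] Ω) (hg : ∀ i, g (x i) = x i)
    (z : Fin n → Ω) (hz : ∀ i, IsAlgebraic (Algebra.adjoin k (Set.range x)) (z i)) :
    g (jac D z) = jac D (fun i => g (z i)) := by
  have hfix : ∀ c ∈ Algebra.adjoin k (Set.range x), g c = c := by
    intro c hc
    induction hc using Algebra.adjoin_induction with
    | mem w hw =>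
      obtain ⟨i, rfl⟩ := hw
      exact hg i
    | algebraMap r => exact g.commutes r
    | add a b _ _ ha hb => rw [map_add, ha, hb]
    | mul a b _ _ ha hb => rw [map_mul, ha, hb]
  let g' : Ω →ₐ[Algebra.adjoin k (Set.range x)] Ω :=
    { toFun := g
      map_one' := map_one g
      map_mul' := map_mul g
      map_zero' := map_zero g
      map_add' := map_add g
      commutes' := fun c => hfix c c.2 }
  have halg : ∀ i, IsAlgebraic (Algebra.adjoin k (Set.range x)) (g (z i)) := fun i =>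
    (hz i).algHom g'
  let D' : Fin n → Derivation k Ω Ω := fun i =>
    Derivation.mk' ((g : Ω →ₗ[k] Ω) ∘ₗ (D i : Ω →ₗ[k] Ω) ∘ₗ (g.symm : Ω →ₗ[k] Ω))
      (fun a b => by
        change g (D i (g.symm (a * b))) = a * g (D i (g.symm b)) + b * g (D i (g.symm a))
        rw [map_mul, Derivation.leibniz, smul_eq_mul, smul_eq_mul, map_add, map_mul, map_mul,
          AlgEquiv.apply_symm_apply, AlgEquiv.apply_symm_apply])
  have hD' : ∀ i a, D' i a = g (D i (g.symm a)) := fun i a => rfl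
  have h1 : ∀ i j, g (D i (z j)) = D i (g (z j)) := by
    intro i j
    rw [← der_unique x (D' i) (D i) (fun l => ?_) (g (z j)) (halg j), hD',
      AlgEquiv.symm_apply_apply]
    have h2 : g.symm (x l) = x l := by
      rw [AlgEquiv.symm_apply_eq, hg]
    rw [hD', h2, hD]
    split_ifs
    · exact map_one g
    · exact map_zero g
  have h2 : g (jac D z) = (Matrix.map (Matrix.of fun i j => D i (z j)) g).det :=
    AlgEquiv.map_det g _
  rw [h2, jac]
  congr 1
  ext i j
  exact h1 i j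

end Pool.Agent.KMR
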