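import Pool.Agent.Lib.MP_732f67_ag.R.Kum

/-!
Adjoining the `m`-th roots: the rings and the orders.
-/

namespace Pool.Agent.KMR

variable {k Ω : Type} [Field k] [Field Ω] [Algebra k Ω]

namespace Mdl

variable {G : Subgroup (Ω ≃ₐ[k] Ω)} {M : Mdl k Ω G} {n : ℕ} {m : ℕ}

theorem kum_Ψ (u : Ωˣ) : u ∈ (M.kum m).Ψ ↔ u ^ m ∈ M.Ψ := Iff.rfl

theorem kum_v (j : M.J) (u : Ωˣ) : (M.kum m).v j u = M.v j (u ^ m) := rfl

theorem kum_x (c : M.ι) (j : M.J) : (M.kum m).x c j = rt m (M.x c j) := rfl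

theorem kum_S (c : M.ι) : (M.kum m).S c = M.S c := rfl

theorem kum_F_le : M.F ≤ (M.kum m).F := fun _ ha =>
  IntermediateField.subset_adjoin k _ (Or.inl ha)

theorem kum_F_root (u : Ωˣ) (hu : u ^ m ∈ M.Ψ) : (u : Ω) ∈ (M.kum m).F :=
  IntermediateField.subset_adjoin k _ (Or.inr ⟨u, hu, rfl⟩)

theorem kum_R_root (c : M.ι) (u : Ωˣ) (hu : u ^ m ∈ M.Ψ)
    (hv : ∀ j ∈ M.S c, 0 ≤ M.v j (u ^ m)) : (u : Ω) ∈ (M.kum m).R c :=
  (le_sup_right : _ ≤ M.R c ⊔ Algebra.adjoin k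
    {y | ∃ u : Ωˣ, u ^ m ∈ M.Ψ ∧ (∀ j ∈ M.S c, 0 ≤ M.v j (u ^ m)) ∧ y = u})
    (Algebra.subset_adjoin ⟨u, hu, hv, rfl⟩)

theorem kum_R_le (c : M.ι) (A : Subalgebra k Ω) (h1 : M.R c ≤ A)
    (h2 : ∀ u : Ωˣ, u ^ m ∈ M.Ψ → (∀ j ∈ M.S c, 0 ≤ M.v j (u ^ m)) → (u : Ω) ∈ A) :
    (M.kum m).R c ≤ A := by
  show M.R c ⊔ Algebra.adjoin k
    {y | ∃ u : Ωˣ, u ^ m ∈ M.Ψ ∧ (∀ j ∈ M.S c, 0 ≤ M.v j (u ^ m)) ∧ y = u} ≤ A
  refine sup_le h1 (Algebra.adjoin_le ?_)
  rintro _ ⟨u, hu, hv, rfl⟩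
  exact h2 u hu hv

/-- elements algebraic over a subring -/
def kalgF (A : Subalgebra k Ω) : IntermediateField k Ω where
  carrier := {a | IsAlgebraic A a}
  mul_mem' := fun ha hb => IsAlgebraic.mul ha hb
  add_mem' := fun ha hb => IsAlgebraic.add ha hb
  algebraMap_mem' := fun r => isAlgebraic_algebraMap (R := A) (A := Ω) (algebraMap k A r)
  inv_mem' := fun _ ha => IsAlgebraic.inv ha

/-- every element of the field of `M.kum m` is algebraic over the same elements -/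
theorem kum_alg (hm : m ≠ 0) (hv : M.OkV) (A : Subalgebra k Ω)
    (htr : ∀ a ∈ M.F, IsAlgebraic A a) (a : Ω) (ha : a ∈ (M.kum m).F) : IsAlgebraic A a := by
  have h1 : (M.kum m).F ≤ kalgF A := by
    show IntermediateField.adjoin k _ ≤ _
    rw [IntermediateField.adjoin_le_iff]
    rintro x (hx | ⟨u, hu, rfl⟩)
    · exact htr x hx
    · have h2 : IsAlgebraic A ((u : Ω) ^ m) := by
        have h3 := htr _ (hv.Ψ_F _ hu)
        rwa [Units.val_pow_eq_pow_val] at h3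
      exact h2.of_pow (Nat.pos_of_ne_zero hm)
  exact h1 ha

/-- the denominator of a root -/
def kden (M : Mdl k Ω G) (c : M.ι) (a : Ωˣ) : Ωˣ := ∏ j ∈ M.S c, M.x c j ^ (M.v j a).natAbs

theorem kden_mem (hv : M.OkV) (c : M.ι) (a : Ωˣ) : kden M c a ∈ M.Ψ :=
  M.Ψ.prod_mem fun j hj => M.Ψ.pow_mem (hv.x_Ψ c j hj) _

theorem kden_R (hv : M.OkV) (c : M.ι) (a : Ωˣ) : (kden M c a : Ω) ∈ M.R c := by
  unfold kden
  rw [Units.coe_prod]
  refine prod_mem fun j hj => ?_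
  rw [Units.val_pow_eq_pow_val]
  exact pow_mem (hv.x_R c j hj) _

theorem kden_v (hv : M.OkV) (c : M.ι) (a : Ωˣ) (j : M.J) (hj : j ∈ M.S c) :
    M.v j (kden M c a) = (M.v j a).natAbs := by
  unfold kden
  have h2 : ∀ i ∈ M.S c, M.v j (M.x c i ^ (M.v i a).natAbs) =
      ((M.v i a).natAbs : ℤ) * M.v j (M.x c i) := by
    intro i hi
    rw [← zpow_natCast, hv.v_zpow j _ (hv.x_Ψ c i hi)]
  rw [hv.v_prod j _ _ fun i hi => M.Ψ.pow_mem (hv.x_Ψ c i hi) _,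
    Finset.sum_congr rfl h2,
    Finset.sum_eq_single j (fun i hi hij => ?_) (fun hn => absurd hj hn), hv.v_x c j hj,
    mul_one]
  rw [hv.v_x' c j hj i hi hij.symm, mul_zero]

theorem kden_mul (hm : m ≠ 0) (hv : M.OkV) (c : M.ι) (u : Ωˣ) (hu : u ^ m ∈ M.Ψ) :
    ((u * kden M c (u ^ m) : Ωˣ) : Ω) ∈ (M.kum m).R c := by
  have hy := kden_mem hv c (u ^ m)
  have hp : (u * kden M c (u ^ m)) ^ m = u ^ m * kden M c (u ^ m) ^ m := mul_pow _ _ _
  refine kum_R_root (M := M) c _ ?_ fun j hj => ?_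
  · rw [hp]
    exact mul_mem hu (pow_mem hy m)
  · rw [hp, hv.v_mul j _ hu _ (pow_mem hy m), ← zpow_natCast (kden M c (u ^ m)) m,
      hv.v_zpow j _ hy, kden_v hv c _ j hj]
    have h3 : 1 ≤ (m : ℤ) := by
      have := Nat.pos_of_ne_zero hm
      omega
    have h4 : 0 ≤ ((M.v j (u ^ m)).natAbs : ℤ) := Int.natCast_nonneg _
    have h5 : -M.v j (u ^ m) ≤ ((M.v j (u ^ m)).natAbs : ℤ) := by omega
    nlinarith

theorem kum_frac (hm : m ≠ 0) (h : M.OkR n) (hv : M.OkV) (c : M.ι) (a : Ω)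
    (ha : a ∈ (M.kum m).F) :
    ∃ b ∈ (M.kum m).R c, ∃ d ∈ (M.kum m).R c, d ≠ 0 ∧ a = b / d := by
  have h1 : (M.kum m).F ≤ IntermediateField.adjoin k ((M.kum m).R c : Set Ω) := by
    show IntermediateField.adjoin k _ ≤ _
    rw [IntermediateField.adjoin_le_iff]
    rintro x (hx | ⟨u, hu, rfl⟩)
    · obtain ⟨y, hy, d, hd, -, rfl⟩ := h.frac c x hx
      exact div_mem (IntermediateField.subset_adjoin k _ (kum_le (M := M) c hy))
        (IntermediateField.subset_adjoin k _ (kum_le (M := M) c hd))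
    · have h3 : (u : Ω) = ((u * kden M c (u ^ m) : Ωˣ) : Ω) / (kden M c (u ^ m) : Ω) := by
        rw [Units.val_mul, mul_div_assoc, div_self (kden M c (u ^ m)).ne_zero, mul_one]
      rw [h3]
      exact div_mem (IntermediateField.subset_adjoin k _ (kden_mul (M := M) hm hv c u hu))
        (IntermediateField.subset_adjoin k _ (kum_le (M := M) c (kden_R hv c (u ^ m))))
  have h2 := h1 ha
  rw [IntermediateField.mem_adjoin_iff_div, Algebra.adjoin_eq] at h2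
  obtain ⟨x, hx, y, hy, rfl⟩ := h2
  by_cases hy0 : y = 0
  · exact ⟨0, zero_mem _, 1, one_mem _, one_ne_zero, by rw [hy0, div_zero, zero_div]⟩
  · exact ⟨x, hx, y, hy, hy0, rfl⟩

/-- integral elements are in the valuation rings -/
theorem mem_val_of_int (R : Subalgebra k Ω) (V : ValuationSubring Ω) (hc : ∀ a ∈ R, a ∈ V)
    (a : Ω) (h1 : IsIntegral R a) : a ∈ V := by
  have h2 : IsIntegral V a := by
    obtain ⟨P, hP, hP'⟩ := h1
    let f : R →+* V :=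
      { toFun := fun x => ⟨x, hc x x.2⟩
        map_one' := rfl
        map_mul' := fun _ _ => rfl
        map_zero' := rfl
        map_add' := fun _ _ => rfl }
    refine ⟨P.map f, hP.map f, ?_⟩
    rw [Polynomial.eval₂_map]
    exact hP'
  obtain ⟨y, hy⟩ := IsIntegrallyClosed.isIntegral_iff.1 h2
  rw [← hy]
  exact y.2

theorem kum_okR [IsAlgClosed Ω] (hm : m ≠ 0) (h : M.OkR n) (hv : M.OkV) :
    (M.kum m).OkR n := by
  refine ⟨h.fin, ?_, fun c => kum_R_fg (M := M) hm h hv c, fun c a ha => ?_,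
    fun c a ha => kum_frac (M := M) hm h hv c a ha, fun V hV => ?_⟩
  · obtain ⟨t, ht, hta, htr⟩ := h.trd
    exact ⟨t, fun i => kum_F_le (M := M) (ht i), hta, fun a ha =>
      kum_alg (M := M) hm hv _ htr a ha⟩
  · exact kum_R_le (M := M) (m := m) c (M.kum m).F.toSubalgebra
      (fun x hx => kum_F_le (M := M) (h.le c x hx))
      (fun u hu _ => kum_F_root (M := M) u hu) ha
  · obtain ⟨c, hc⟩ := h.complete V hV
    exact ⟨c, fun a ha => mem_val_of_int (M.R c) V hc a (kum_int (M := M) hm hv c a ha)⟩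

theorem kum_okV [IsAlgClosed Ω] (hm : m ≠ 0) (h : M.OkV) : (M.kum m).OkV := by
  have hx : ∀ c j, (M.kum m).x c j ^ m = M.x c j := fun c j => rt_pow hm _
  have hv : ∀ c j, j ∈ M.S c → ∀ i, M.v i ((M.kum m).x c j ^ m) = M.v i (M.x c j) :=
    fun c j _ i => congrArg (M.v i) (hx c j)
  have hxΨ : ∀ c, ∀ j ∈ M.S c, (M.kum m).x c j ^ m ∈ M.Ψ := fun c j hj => by
    have h1 := h.x_Ψ c j hj
    rw [← hx c j] at h1
    exact h1
  refine ⟨kum_fg (M := M) hm h.Ψ_fg, fun a ha => kum_F_root (M := M) a ha, hxΨ,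
    fun c j hj => kum_R_root (M := M) c _ (hxΨ c j hj) fun i hi => ?_,
    fun j a ha b hb => ?_, fun c j hj => ?_, fun c i hi j hj hij => ?_, fun c a ha hv0 => ?_⟩
  · refine le_of_le_of_eq ?_ (hv c j hj i).symm
    by_cases hij : i = j
    · rw [hij, h.v_x c j hj]
      exact zero_le_one
    · rw [h.v_x' c i hi j hj hij]
  · have ha' : a ^ m ∈ M.Ψ := ha
    have hb' : b ^ m ∈ M.Ψ := hb
    have h1 : M.v j ((a * b) ^ m) = M.v j (a ^ m) + M.v j (b ^ m) := by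
      rw [mul_pow]
      exact h.v_mul j _ ha' _ hb'
    exact h1
  · exact (hv c j hj j).trans (h.v_x c j hj)
  · exact (hv c j hj i).trans (h.v_x' c i hi j hj hij)
  · have ha' : a ^ m ∈ M.Ψ := ha
    have hv' : ∀ j ∈ M.S c, M.v j (a ^ m) = 0 := hv0
    refine ⟨a.ne_zero, kum_R_root (M := M) c a ha' fun j hj => (hv' j hj).ge, ?_⟩
    rw [← Units.val_inv_eq_inv_val]
    refine kum_R_root (M := M) c a⁻¹ ?_ fun j hj => ?_
    · rw [inv_pow]
      exact inv_mem ha'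
    · rw [inv_pow, h.v_inv j _ ha', hv' j hj, neg_zero]

end Mdl

end Pool.Agent.KMR
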