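import Pool.Agent.Lib.MP_732f67_ag.R.Psi

/-!
Orders of the elements of `Ψ`: use of the regularity.
-/

namespace Pool.Agent.KMR

variable {k Ω : Type} [Field k] [Field Ω] [Algebra k Ω]

namespace Mdl

variable {G : Subgroup (Ω ≃ₐ[k] Ω)} {M : Mdl k Ω G} {n : ℕ}

section alg

variable [IsAlgClosed k] [CharZero k] (h : M.Ok0 n)

include h

/-- parameters at a point, regularity -/
theorem Ok0.exists_reg (c : M.ι) (φ : M.R c →ₐ[k] k) : ∃ z : Fin n → Ω, Par (M.O c φ) z ∧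
    Reg (M.O c φ) z ∧ ∀ j, M.At c φ j → ∃ i, z i = M.x c j := by
  obtain ⟨z, hz, hzx⟩ := h.par c φ
  exact ⟨z, hz, reg_of_par (h.toOkR.dim c) φ z hz, hzx⟩

/-- the elements of `Ψ` as monomials in the parameters at a point -/
theorem Ok0.psiA_repr (c : M.ι) (φ : M.R c →ₐ[k] k) : ∃ (z : Fin n → Ω) (T : Finset (Fin n))
    (f : {i // i ∈ T} → M.J), Par (M.O c φ) z ∧ Reg (M.O c φ) z ∧ (∀ i, M.At c φ (f i)) ∧
    (∀ j, M.At c φ j → ∃ i, f i = j) ∧ ∀ a ∈ M.Ψ, ∃ e : Ω, Un (M.O c φ) e ∧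
      (a : Ω) = e * ∏ i ∈ T, z i ^ (if h : i ∈ T then M.v (f ⟨i, h⟩) a else 0) := by
  classical
  obtain ⟨z, hz, hr, hzx⟩ := h.exists_reg c φ
  have hxinj : ∀ j j', M.At c φ j → M.At c φ j' → (M.x c j : Ω) = M.x c j' → j = j' := by
    intro j j' hj hj' hxx
    by_contra hne
    have h1 : M.x c j = M.x c j' := Units.ext hxx
    have h2 := h.v_x c j hj.1
    have h3 := h.v_x' c j hj.1 j' hj'.1 hne
    rw [h1, h3] at h2
    exact absurd h2 (by norm_num)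
  have hzinj : ∀ i i', z i = z i' → i = i' := by
    intro i i' hii
    by_contra hne
    apply hr.indep i i' hne
    rw [← hii, div_self (hr.ne i)]
    exact one_mem _
  let T : Finset (Fin n) := Finset.univ.filter fun i => ∃ j, M.At c φ j ∧ z i = M.x c j
  have hT : ∀ i : {i // i ∈ T}, ∃ j, M.At c φ j ∧ z i = M.x c j := fun i =>
    (Finset.mem_filter.1 i.2).2
  choose f hf1 hf2 using hT
  have hsurj : ∀ j, M.At c φ j → ∃ i, f i = j := by
    intro j hj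
    obtain ⟨i, hi⟩ := hzx j hj
    have hiT : i ∈ T := Finset.mem_filter.2 ⟨Finset.mem_univ _, j, hj, hi⟩
    refine ⟨⟨i, hiT⟩, hxinj _ _ (hf1 _) hj ?_⟩
    rw [← hf2, ← hi]
  refine ⟨z, T, f, hz, hr, hf1, hsurj, ?_⟩
  intro a ha
  obtain ⟨e, -, he, hae⟩ := h.toOkV.eq_monomial c a ha
  -- the divisors through the point
  let J1 : Finset M.J := (M.S c).filter fun j => M.At c φ j
  have hprod : ∏ i ∈ T, z i ^ (if h : i ∈ T then M.v (f ⟨i, h⟩) a else 0) =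
      ∏ j ∈ J1, (M.x c j : Ω) ^ M.v j a := by
    refine Finset.prod_bij (fun i hi => f ⟨i, hi⟩) ?_ ?_ ?_ ?_
    · intro i hi
      exact Finset.mem_filter.2 ⟨(hf1 ⟨i, hi⟩).1, hf1 ⟨i, hi⟩⟩
    · intro i hi i' hi' hff
      apply hzinj
      have h1 := hf2 ⟨i, hi⟩
      have h2 := hf2 ⟨i', hi'⟩
      have hff' : f ⟨i, hi⟩ = f ⟨i', hi'⟩ := hff
      rw [hff'] at h1
      exact h1.trans h2.symm
    · intro j hj
      obtain ⟨i, hi⟩ := hsurj j (Finset.mem_filter.1 hj).2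
      exact ⟨i, i.2, hi⟩
    · intro i hi
      rw [dif_pos hi, ← hf2 ⟨i, hi⟩]
  have hle : ∀ y ∈ M.R c, y ∈ M.O c φ := fun y hy =>
    ⟨⟨y, hy⟩, 1, by rw [map_one]; exact one_ne_zero, by rw [OneMemClass.coe_one, div_one]⟩
  have hun_mul : ∀ y y' : Ω, Un (M.O c φ) y → Un (M.O c φ) y' → Un (M.O c φ) (y * y') := by
    intro y y' hy hy'
    refine ⟨mul_ne_zero hy.1 hy'.1, mul_mem hy.2.1 hy'.2.1, ?_⟩
    rw [mul_inv]
    exact mul_mem hy.2.2 hy'.2.2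
  have hun_one : Un (M.O c φ) (1 : Ω) :=
    ⟨one_ne_zero, one_mem _, by rw [inv_one]; exact one_mem _⟩
  have hun_inv : ∀ y : Ω, Un (M.O c φ) y → Un (M.O c φ) y⁻¹ := by
    intro y hy
    refine ⟨inv_ne_zero hy.1, hy.2.2, ?_⟩
    rw [inv_inv]
    exact hy.2.1
  have hun_pow : ∀ (y : Ω), Un (M.O c φ) y → ∀ m : ℕ, Un (M.O c φ) (y ^ m) := by
    intro y hy m
    induction m with
    | zero =>
      rw [pow_zero]
      exact hun_one
    | succ m ih =>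
      rw [pow_succ]
      exact hun_mul _ _ ih hy
  have hun_zpow : ∀ (y : Ω), Un (M.O c φ) y → ∀ m : ℤ, Un (M.O c φ) (y ^ m) := by
    intro y hy m
    cases m with
    | ofNat m =>
      rw [Int.ofNat_eq_natCast, zpow_natCast]
      exact hun_pow y hy m
    | negSucc m =>
      rw [zpow_negSucc]
      exact hun_inv _ (hun_pow y hy _)
  refine ⟨(e : Ω) * ∏ j ∈ (M.S c).filter (fun j => ¬ M.At c φ j), (M.x c j : Ω) ^ M.v j a, ?_, ?_⟩
  · refine hun_mul _ _ ⟨he.1, hle _ he.2.1, hle _ he.2.2⟩ ?_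
    refine Finset.prod_induction _ (fun y => Un (M.O c φ) y) hun_mul hun_one ?_
    intro j hj
    obtain ⟨h1, h2⟩ := Finset.mem_filter.1 hj
    apply hun_zpow
    by_contra h3
    exact h2 ⟨h1, h3⟩
  · rw [hprod]
    have h1 : (a : Ω) = (e : Ω) * ∏ j ∈ M.S c, (M.x c j : Ω) ^ M.v j a := by
      conv_lhs => rw [hae]
      rw [Units.val_mul, Units.coe_prod]
      simp only [Units.val_zpow_eq_zpow_val]
    rw [h1, ← Finset.prod_filter_mul_prod_filter_not (M.S c) (fun j => M.At c φ j), mul_assoc]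
    congr 1
    exact mul_comm _ _

/-- the order of `a ∈ Ψ` along the divisors through a point of `a` -/
theorem Ok0.mem_O_iff (c : M.ι) (φ : M.R c →ₐ[k] k) (a : Ωˣ) (ha : a ∈ M.Ψ) :
    (a : Ω) ∈ M.O c φ ↔ ∀ j, M.At c φ j → 0 ≤ M.v j a := by
  obtain ⟨z, T, f, hz, hr, hf1, hf2, hrep⟩ := h.psiA_repr c φ
  obtain ⟨e, he, hae⟩ := hrep a ha
  rw [hae, monomial_mem hr hz.1 T e he]
  constructor
  · intro h1 j hj
    obtain ⟨i, rfl⟩ := hf2 j hj
    have h2 := h1 i i.2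
    rw [dif_pos i.2] at h2
    exact h2
  · intro h1 i hi
    rw [dif_pos hi]
    exact h1 _ (hf1 _)

theorem Ok0.un_O_iff (c : M.ι) (φ : M.R c →ₐ[k] k) (a : Ωˣ) (ha : a ∈ M.Ψ) :
    Un (M.O c φ) (a : Ω) ↔ ∀ j, M.At c φ j → M.v j a = 0 := by
  constructor
  · intro hu j hj
    have h1 := (h.mem_O_iff c φ a ha).1 hu.2.1 j hj
    have h2 := (h.mem_O_iff c φ a⁻¹ (inv_mem ha)).1 (by
      rw [Units.val_inv_eq_inv_val]
      exact hu.2.2) j hj
    rw [h.toOkV.v_inv j a ha] at h2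
    omega
  · intro hv
    exact h.toOkV.un_O c φ a ha hv

end alg

section deep

variable [IsAlgClosed k] [CharZero k] (h : M.Ok n)

include h

/-- use the deep point -/
theorem Ok.mem_R_iff (c : M.ι) (a : Ωˣ) (ha : a ∈ M.Ψ) :
    (a : Ω) ∈ M.R c ↔ ∀ j ∈ M.S c, 0 ≤ M.v j a := by
  constructor
  · intro hmem j hj
    obtain ⟨φ, hφ⟩ := h.deep c
    refine (h.toOk0.mem_O_iff c φ a ha).1 ?_ j (hφ j hj)
    exact ⟨⟨a, hmem⟩, 1, by rw [map_one]; exact one_ne_zero, by rw [OneMemClass.coe_one, div_one]⟩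
  · intro hv
    exact h.toOkV.mem_R c a ha hv

theorem Ok.un_R_iff (c : M.ι) (a : Ωˣ) (ha : a ∈ M.Ψ) :
    Un (M.R c) (a : Ω) ↔ ∀ j ∈ M.S c, M.v j a = 0 := by
  constructor
  · intro hu j hj
    have h1 := (h.mem_R_iff c a ha).1 hu.2.1 j hj
    have h2 := (h.mem_R_iff c a⁻¹ (inv_mem ha)).1 (by
      rw [Units.val_inv_eq_inv_val]
      exact hu.2.2) j hj
    rw [h.toOkV.v_inv j a ha] at h2
    omega
  · intro hv
    exact h.unit c a ha hv

/-- the ultrametric inequality for the elements of `Ψ` (`monomial_add` at the deep point) -/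
theorem Ok.v_add (c : M.ι) (a b d : Ωˣ) (ha : a ∈ M.Ψ) (hb : b ∈ M.Ψ) (hd : d ∈ M.Ψ)
    (hab : (a : Ω) + b = d) : ∀ j ∈ M.S c, min (M.v j a) (M.v j b) ≤ M.v j d := by
  intro j hj
  obtain ⟨φ, hφ⟩ := h.deep c
  obtain ⟨z, T, f, hz, hr, hf1, hf2, hrep⟩ := h.toOk0.psiA_repr c φ
  obtain ⟨e₁, he₁, ha'⟩ := hrep a ha
  obtain ⟨e₂, he₂, hb'⟩ := hrep b hb
  obtain ⟨e₃, he₃, hd'⟩ := hrep d hd
  obtain ⟨i, rfl⟩ := hf2 j (hφ j hj)
  rw [ha', hb', hd'] at hab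
  have h1 := monomial_add hr hz.1 T e₁ e₂ e₃ he₁ he₂ he₃ _ _ _ hab i i.2
  simp only [dif_pos i.2] at h1
  exact h1

/-- `Ψ` is torsion free modulo constants: a power of `a ∈ Ψ` has order zero if and only if `a` has -/
theorem Ok.v_pow_eq_zero (j : M.J) (a : Ωˣ) (ha : a ∈ M.Ψ) (N : ℕ) (hN : N ≠ 0)
    (h0 : M.v j (a ^ N) = 0) : M.v j a = 0 := by
  have h1 := h.toOkV.v_zpow j a ha N
  rw [zpow_natCast, h0] at h1
  exact (mul_eq_zero.1 h1.symm).resolve_left (by exact_mod_cast hN)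

end deep

end Mdl

end Pool.Agent.KMR
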