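import Pool.Agent.Lib.MP_732f67_ag.R.Lab
import Pool.Agent.Lib.MP_732f67_ag.R.PsiS
import Pool.Agent.Lib.MP_732f67_ag.R.PsiA

/-!
Enlarging the boundary by a divisor.
-/

namespace Pool.Agent.KMR

variable {k Ω : Type} [Field k] [Field Ω] [Algebra k Ω]

namespace Mdl

variable {G : Subgroup (Ω ≃ₐ[k] Ω)} {M : Mdl k Ω G} {n : ℕ}

theorem LabD_some (M : Mdl k Ω G) (y : Ωˣ) (q : M.ι → Ωˣ) (mk : M.ι → Prop) (μ : M.J → ℤ)
    (c : M.ι) (i : M.J) : some i ∈ (M.addd y q mk μ).S c ↔ i ∈ M.S c := by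
  classical
  change (some i : Option M.J) ∈ (M.S c).map Function.Embedding.some ∪
    (if mk c then ({none} : Finset (Option M.J)) else ∅) ↔ i ∈ M.S c
  by_cases hc : mk c
  · simp [hc]
  · simp [hc]

theorem LabD_none (M : Mdl k Ω G) (y : Ωˣ) (q : M.ι → Ωˣ) (mk : M.ι → Prop) (μ : M.J → ℤ)
    (c : M.ι) : none ∈ (M.addd y q mk μ).S c ↔ mk c := by
  classical
  change (none : Option M.J) ∈ (M.S c).map Function.Embedding.some ∪
    (if mk c then ({none} : Finset (Option M.J)) else ∅) ↔ mk c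
  by_cases hc : mk c
  · simp [hc]
  · simp [hc]

section mem

variable {y : Ωˣ} {q : M.ι → Ωˣ} {mk : M.ι → Prop} {μ : M.J → ℤ}

theorem LabD_vnone (ha : M.AdddOk n y q mk μ) (a : Ωˣ) (haΨ : a ∈ M.Ψ) (e : ℤ) :
    (M.addd y q mk μ).v none (a * y ^ e) = e := by
  have h1 : vx M.Ψ y (fun _ => 0) 1 (a * y ^ e) = 0 + e * 1 :=
    vx_eq (u := fun _ => 0) (fun _ _ _ _ => by simp) (fun e he => by
      rw [ha.free e he]; simp) a haΨ e
  rw [zero_add, mul_one] at h1
  exact h1

theorem LabD_vsome (ha : M.AdddOk n y q mk μ) (h : M.OkV) (i : M.J) (a : Ωˣ) (haΨ : a ∈ M.Ψ)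
    (e : ℤ) : (M.addd y q mk μ).v (some i) (a * y ^ e) = M.v i a + e * μ i :=
  vx_eq (u := M.v i) (h.v_mul i) (fun e he => by
    rw [ha.free e he, zpow_zero, h.v_one, zero_mul]) a haΨ e

/-- `q c` is in the group generated by `Ψ` and `y` -/
theorem LabD_q (c : M.ι) : q c = (y * (q c)⁻¹)⁻¹ * y ^ (1 : ℤ) := by
  rw [zpow_one, mul_inv, inv_inv, mul_comm y⁻¹, mul_assoc, inv_mul_cancel, mul_one]

end mem

theorem addd_v {y : Ωˣ} {q : M.ι → Ωˣ} {mk : M.ι → Prop}
    {μ : M.J → ℤ} (ha : M.AdddOk n y q mk μ) (h : M.OkV) (j : M.J) :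
    (∀ a ∈ M.Ψ, (M.addd y q mk μ).v (some j) a = M.v j a) ∧
      (M.addd y q mk μ).v (some j) y = μ j ∧ (∀ a ∈ M.Ψ, (M.addd y q mk μ).v none a = 0) ∧
      (M.addd y q mk μ).v none y = 1 := by
  refine ⟨fun a haΨ => ?_, ?_, fun a haΨ => ?_, ?_⟩
  · have h1 := LabD_vsome ha h j a haΨ 0
    rwa [zpow_zero, mul_one, zero_mul, add_zero] at h1
  · have h1 := LabD_vsome ha h j 1 M.Ψ.one_mem 1
    rwa [zpow_one, one_mul, one_mul, h.v_one, zero_add] at h1
  · have h1 := LabD_vnone ha a haΨ 0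
    rwa [zpow_zero, mul_one] at h1
  · have h1 := LabD_vnone ha 1 M.Ψ.one_mem 1
    rwa [zpow_one, one_mul] at h1

/-- the first two groups of properties -/
theorem addd_okR (h : M.OkR n) (y : Ωˣ) (q : M.ι → Ωˣ) (mk : M.ι → Prop)
    (μ : M.J → ℤ) : (M.addd y q mk μ).OkR n :=
  ⟨h.fin, h.trd, h.fg, h.le, h.frac, h.complete⟩

theorem addd_okV (h : M.OkV) {y : Ωˣ} {q : M.ι → Ωˣ} {mk : M.ι → Prop}
    {μ : M.J → ℤ} (ha : M.AdddOk n y q mk μ) : (M.addd y q mk μ).OkV where
  Ψ_fg := adj_fg h.Ψ_fg y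
  Ψ_F := by
    intro z hz
    obtain ⟨a, haΨ, e, rfl⟩ := mem_adj.1 hz
    rw [Units.val_mul, Units.val_zpow_eq_zpow_val]
    exact mul_mem (h.Ψ_F a haΨ) (zpow_mem ha.y_F e)
  x_Ψ := by
    intro c j hj
    cases j with
    | none =>
      have h1 : q c ∈ adj M.Ψ y :=
        mem_adj.2 ⟨_, M.Ψ.inv_mem (ha.q_Ψ c), 1, LabD_q (M := M) c⟩
      exact h1
    | some i =>
      have hi : i ∈ M.S c := (LabD_some M y q mk μ c i).1 hj
      have h1 : M.x c i ∈ adj M.Ψ y := (le_sup_left : M.Ψ ≤ adj M.Ψ y) (h.x_Ψ c i hi)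
      exact h1
  x_R := by
    intro c j hj
    cases j with
    | none => exact ha.q_R c
    | some i => exact h.x_R c i ((LabD_some M y q mk μ c i).1 hj)
  v_mul := by
    intro j a haΨ b hb
    cases j with
    | none =>
      exact vx_mul (u := fun _ => 0) (fun _ _ _ _ => by simp) (fun e he => by
        rw [ha.free e he]; simp) a b haΨ hb
    | some i =>
      exact vx_mul (u := M.v i) (h.v_mul i) (fun e he => by
        rw [ha.free e he, zpow_zero, h.v_one, zero_mul]) a b haΨ hb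
  v_x := by
    intro c j hj
    cases j with
    | none =>
      have h1 := LabD_vnone ha _ (M.Ψ.inv_mem (ha.q_Ψ c)) 1
      rw [← LabD_q (M := M) c] at h1
      exact h1
    | some i =>
      have hi : i ∈ M.S c := (LabD_some M y q mk μ c i).1 hj
      have h1 := (addd_v ha h i).1 _ (h.x_Ψ c i hi)
      rw [h.v_x c i hi] at h1
      exact h1
  v_x' := by
    intro c i hi j hj hij
    cases i with
    | none =>
      cases j with
      | none => exact absurd rfl hij
      | some j =>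
        have hj' : j ∈ M.S c := (LabD_some M y q mk μ c j).1 hj
        exact (addd_v ha h j).2.2.1 _ (h.x_Ψ c j hj')
    | some i =>
      have hi' : i ∈ M.S c := (LabD_some M y q mk μ c i).1 hi
      cases j with
      | none =>
        have h1 := LabD_vsome ha h i _ (M.Ψ.inv_mem (ha.q_Ψ c)) 1
        rw [← LabD_q (M := M) c, h.v_inv i _ (ha.q_Ψ c), ha.q_v c i hi', one_mul, neg_add_cancel] at h1
        exact h1
      | some j =>
        have hj' : j ∈ M.S c := (LabD_some M y q mk μ c j).1 hj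
        have h1 := (addd_v ha h i).1 _ (h.x_Ψ c j hj')
        rw [h.v_x' c i hi' j hj' fun e => hij (congrArg some e)] at h1
        exact h1
  unit := by
    intro c z hz hv
    obtain ⟨a, haΨ, e, rfl⟩ := mem_adj.1 hz
    by_cases hc : mk c
    · have h1 := hv none ((LabD_none M y q mk μ c).2 hc)
      rw [LabD_vnone ha a haΨ e] at h1
      rw [h1, zpow_zero, mul_one] at hv ⊢
      refine h.unit c a haΨ fun j hj => ?_
      have h2 := hv (some j) ((LabD_some M y q mk μ c j).2 hj)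
      rwa [(addd_v ha h j).1 a haΨ] at h2
    · have hq := ha.un c hc
      have h1 : a * (y * (q c)⁻¹) ^ e ∈ M.Ψ := M.Ψ.mul_mem haΨ (M.Ψ.zpow_mem (ha.q_Ψ c) e)
      have h2 : Un (M.R c) ((a * (y * (q c)⁻¹) ^ e : Ωˣ) : Ω) := by
        refine h.unit c _ h1 fun j hj => ?_
        have h3 := hv (some j) ((LabD_some M y q mk μ c j).2 hj)
        rw [LabD_vsome ha h j a haΨ e] at h3
        rw [h.v_mul j a haΨ _ (M.Ψ.zpow_mem (ha.q_Ψ c) e), h.v_zpow j _ (ha.q_Ψ c),
          ha.q_v c j hj, h3]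
      have h3 : a * y ^ e = a * (y * (q c)⁻¹) ^ e * q c ^ e := by
        rw [mul_zpow, inv_zpow, mul_assoc, mul_assoc, inv_mul_cancel, mul_one]
      have h4 := h2.mul (hq.zpow e)
      rw [h3, Units.val_mul, Units.val_zpow_eq_zpow_val (q c)]
      exact h4

/-- the third group of properties -/
theorem addd_okP (h : M.OkP n) {y : Ωˣ} {q : M.ι → Ωˣ} {mk : M.ι → Prop}
    {μ : M.J → ℤ} (ha : M.AdddOk n y q mk μ) : (M.addd y q mk μ).OkP n where
  par := by
    intro c φ
    by_cases hn : (M.addd y q mk μ).At c φ none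
    · have hmk : mk c := (LabD_none M y q mk μ c).1 hn.1
      have hu : ¬ Un (M.O c φ) (q c : Ω) := hn.2
      obtain ⟨z, hz, hzj, hzq⟩ := ha.tr c hmk φ hu
      refine ⟨z, hz, fun j hj => ?_⟩
      cases j with
      | none => exact hzq
      | some i => exact hzj i ⟨(LabD_some M y q mk μ c i).1 hj.1, hj.2⟩
    · obtain ⟨z, hz, hzj⟩ := h.par c φ
      refine ⟨z, hz, fun j hj => ?_⟩
      cases j with
      | none => exact absurd hj hn
      | some i => exact hzj i ⟨(LabD_some M y q mk μ c i).1 hj.1, hj.2⟩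

/-- PROOF of `s_x` for the new label: `mk c`, not `mk c'`: `q c' / q c ∈ Ψ` has order zero along
the common labels, `q c'` is a unit of `R c'`: `psi_loc`. -/
theorem addd_ok0 [IsAlgClosed k] (h : M.Ok0 n) {y : Ωˣ} {q : M.ι → Ωˣ} {mk : M.ι → Prop}
    {μ : M.J → ℤ} (ha : M.AdddOk n y q mk μ) : (M.addd y q mk μ).Ok0 n where
  toOkR := addd_okR h.toOkR y q mk μ
  toOkV := addd_okV h.toOkV ha
  toOkP := addd_okP h.toOkP ha
  toOkS :=
    { s_mem := h.s_mem
      s_loc := h.s_loc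
      s_x := by
        intro c c' j hj hj'
        cases j with
        | none =>
          have hc' : ¬ mk c' := fun e => hj' ((LabD_none M y q mk μ c').2 e)
          have hq := ha.un c' hc'
          have h1 : (y * (q c)⁻¹) * (y * (q c')⁻¹)⁻¹ ∈ M.Ψ :=
            M.Ψ.mul_mem (ha.q_Ψ c) (M.Ψ.inv_mem (ha.q_Ψ c'))
          obtain ⟨N, hN⟩ := mul_loc h.toOkV h.toOkS c c' _ h1 (by
            intro i hi hi'
            rw [h.v_mul i _ (ha.q_Ψ c) _ (M.Ψ.inv_mem (ha.q_Ψ c')),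
              h.toOkV.v_inv i _ (ha.q_Ψ c'), ha.q_v c i hi, ha.q_v c' i hi']
            omega) _ hq.2.2
          refine ⟨N, ?_⟩
          have h2 := hN N le_rfl
          have h3 : ((q c' : Ω))⁻¹ * (((y * (q c)⁻¹) * (y * (q c')⁻¹)⁻¹ : Ωˣ) : Ω) =
              ((q c : Ω))⁻¹ := by
            have e1 : (y : Ω) ≠ 0 := y.ne_zero
            have e2 : (q c : Ω) ≠ 0 := (q c).ne_zero
            have e3 : (q c' : Ω) ≠ 0 := (q c').ne_zero
            simp only [Units.val_mul, Units.val_inv_eq_inv_val]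
            field_simp
          rw [h3] at h2
          have h4 : (M.s c' / M.s c : Ω) ^ N / (q c : Ω) =
              (q c : Ω)⁻¹ * (M.s c' / M.s c : Ω) ^ N := by
            rw [div_eq_mul_inv, mul_comm]
          have h5 : (M.s c' / M.s c : Ω) ^ N / (q c : Ω) ∈ M.R c := by
            rw [h4]
            exact h2
          exact h5
        | some i =>
          exact h.s_x c c' i ((LabD_some M y q mk μ c i).1 hj) fun e => hj' ((LabD_some M y q mk μ c' i).2 e)
      m_Ψ := fun c => (le_sup_left : M.Ψ ≤ adj M.Ψ y) (h.m_Ψ c)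
      m_s := h.m_s
      m_v := by
        intro c j hj
        cases j with
        | none =>
          have h1 : (M.addd y q mk μ).v none (M.m c) = 0 := by
            have h2 := LabD_vnone ha _ (h.m_Ψ c) 0
            rwa [zpow_zero, mul_one] at h2
          exact h1
        | some i =>
          have h1 := (addd_v ha h.toOkV i).1 _ (h.m_Ψ c)
          rw [h.m_v c i ((LabD_some M y q mk μ c i).1 hj)] at h1
          exact h1 }

theorem addd_eqJ {y : Ωˣ} {q : M.ι → Ωˣ} {mk : M.ι → Prop}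
    {μ : M.J → ℤ} (ha : M.AdddOk n y q mk μ) (h : M.OkV) (hJ : M.EqJ) :
    (M.addd y q mk μ).EqJ := by
  have hy : ∀ g : G, ga (g : Ω ≃ₐ[k] Ω) y = y := fun g => Units.ext (ha.inv g)
  have hga : ∀ (g : G) (a : Ωˣ) (e : ℤ), ga (g : Ω ≃ₐ[k] Ω) (a * y ^ e) =
      ga (g : Ω ≃ₐ[k] Ω) a * y ^ e := by
    intro g a e
    rw [map_mul, map_zpow, hy]
  refine ⟨?_, ?_, ?_⟩
  · intro g z hz
    obtain ⟨a, haΨ, e, rfl⟩ := mem_adj.1 hz
    rw [hga]
    exact mem_adj.2 ⟨_, hJ.Ψ_g g a haΨ, e, rfl⟩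
  · intro g z hz j
    obtain ⟨a, haΨ, e, rfl⟩ := mem_adj.1 hz
    rw [hga]
    cases j with
    | none =>
      rw [LabD_vnone ha a haΨ e]
      exact LabD_vnone ha _ (hJ.Ψ_g g a haΨ) e
    | some i =>
      rw [LabD_vsome ha h i a haΨ e, ← hJ.v_g g a haΨ i, ← ha.μ_g g i]
      exact LabD_vsome ha h (M.π g i) _ (hJ.Ψ_g g a haΨ) e
  · intro g c j hj hj'
    cases j with
    | none => rfl
    | some i =>
      have h1 : M.π g i ∈ M.S c := (LabD_some M y q mk μ c _).1 hj'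
      exact congrArg some (hJ.strict g c i ((LabD_some M y q mk μ c i).1 hj) h1)

end Mdl

end Pool.Agent.KMR
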