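import Pool.Agent.Lib.MP_732f67_ag.R.Lab
import Pool.Agent.Lib.MP_732f67_ag.R.PsiC

/-!
Enlarging the boundary by a divisor: equivariance.
-/

namespace Pool.Agent.KMR

variable {k Ω : Type} [Field k] [Field Ω] [Algebra k Ω]

namespace Mdl

variable {G : Subgroup (Ω ≃ₐ[k] Ω)} {M : Mdl k Ω G} {n : ℕ}

theorem labE_some (y : Ωˣ) (q : M.ι → Ωˣ) (mk : M.ι → Prop) (μ : M.J → ℤ) (c : M.ι)
    (φ : M.R c →ₐ[k] k) (j : M.J) : (M.addd y q mk μ).At c φ (some j) ↔ M.At c φ j := by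
  classical
  refine and_congr ?_ Iff.rfl
  show some j ∈ (M.S c).map Function.Embedding.some ∪ (if mk c then {none} else ∅) ↔ _
  by_cases hc : mk c <;> simp [hc]

theorem labE_none {y : Ωˣ} {q : M.ι → Ωˣ} {mk : M.ι → Prop} {μ : M.J → ℤ}
    (ha : M.AdddOk n y q mk μ) (c : M.ι) (φ : M.R c →ₐ[k] k) :
    (M.addd y q mk μ).At c φ none ↔ ¬ Un (M.O c φ) (q c : Ω) := by
  classical
  have h1 : (none : Option M.J) ∈ (M.addd y q mk μ).S c ↔ mk c := by
    show none ∈ (M.S c).map Function.Embedding.some ∪ (if mk c then {none} else ∅) ↔ _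
    by_cases hc : mk c <;> simp [hc]
  constructor
  · exact fun h => h.2
  · intro h
    refine ⟨h1.2 ?_, h⟩
    by_contra hc
    exact h ((ha.un c hc).mono (le_loc φ))

/-- PROOF. The new label: `g` maps the local ring `O` to `O'`, `y` is fixed; `y / q c` is a
monomial of `Ψ` with the exponents `μ`, so `q c` is a unit of `O` iff `q c'` is a unit of `O'`
(`g_x`). -/
theorem addd_eqP [IsAlgClosed k] [CharZero k] {y : Ωˣ} {q : M.ι → Ωˣ} {mk : M.ι → Prop}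
    {μ : M.J → ℤ} (ha : M.AdddOk n y q mk μ) (h : M.Ok0 n) (hJ : M.EqJ) (he : M.EqP) :
    (M.addd y q mk μ).EqP := by
  intro g c φ
  obtain ⟨c', φ', h1, h2⟩ := he g c φ
  refine ⟨c', φ', h1, fun j => ?_⟩
  cases j with
  | some j =>
    exact (labE_some y q mk μ c φ j).trans ((h2 j).trans (labE_some y q mk μ c' φ' _).symm)
  | none =>
    refine (labE_none ha c φ).trans (Iff.trans (not_congr ?_) (labE_none ha c' φ').symm)
    -- the unit
    have hy : ga (g : Ω ≃ₐ[k] Ω) y = y := Units.ext (ha.inv g)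
    have hq := ha.q_Ψ c
    have hq' := ha.q_Ψ c'
    have hgq := hJ.Ψ_g g _ hq
    have h3 : Un (M.O c' φ') ((ga (g : Ω ≃ₐ[k] Ω) (y * (q c)⁻¹) * (y * (q c')⁻¹)⁻¹ : Ωˣ) : Ω) := by
      refine h.toOkV.un_O c' φ' _ (mul_mem hgq (inv_mem hq')) fun j' hj' => ?_
      obtain ⟨i, rfl⟩ := (M.π g).surjective j'
      have hi := (h2 i).2 hj'
      rw [h.v_mul _ _ hgq _ (inv_mem hq'), h.toOkV.v_inv _ _ hq', hJ.v_g g _ hq,
        ha.q_v c i hi.1, ha.q_v c' _ hj'.1, ha.μ_g]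
      ring
    have h4 : ga (g : Ω ≃ₐ[k] Ω) (y * (q c)⁻¹) * (y * (q c')⁻¹)⁻¹ =
        (ga (g : Ω ≃ₐ[k] Ω) (q c))⁻¹ * q c' := by
      rw [map_mul, map_inv, hy, mul_inv, inv_inv]
      rw [mul_comm y, mul_assoc, mul_inv_cancel_left]
    rw [h4, Units.val_mul, Units.val_inv_eq_inv_val] at h3
    have h5 : Un (M.O c φ) (q c : Ω) ↔ Un (M.O c' φ') ((ga (g : Ω ≃ₐ[k] Ω) (q c) : Ωˣ) : Ω) := by
      show _ ↔ Un (M.O c' φ') ((g : Ω ≃ₐ[k] Ω) (q c : Ω))
      unfold Un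
      rw [← map_inv₀, h1, h1, map_ne_zero_iff _ (g : Ω ≃ₐ[k] Ω).injective]
    rw [h5]
    constructor
    · intro h6
      have h7 := h6.mul h3
      rwa [mul_inv_cancel_left₀ (Units.ne_zero _)] at h7
    · intro h6
      have h7 := h6.mul h3.inv
      rw [mul_inv_rev, inv_inv, ← mul_assoc, mul_inv_cancel₀ (Units.ne_zero _), one_mul] at h7
      exact h7

end Mdl

end Pool.Agent.KMR
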