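import Pool.Agent.Lib.MP_732f67_ag.R.Lab
import Pool.Agent.Lib.MP_732f67_ag.R.PsiC
import Pool.Agent.Lib.MP_732f67_ag.R.PsiS

/-!
Splitting the labels.
-/

namespace Pool.Agent.KMR

variable {k Ω : Type} [Field k] [Field Ω] [Algebra k Ω]

namespace Mdl

variable {G : Subgroup (Ω ≃ₐ[k] Ω)} {M : Mdl k Ω G} {n : ℕ}

/-- the monomial with the exponents `α c j` -/
def splP (M : Mdl k Ω G) (α : M.ι → M.J → ℤ) (c : M.ι) : Ωˣ := ∏ j ∈ M.S c, M.x c j ^ α c j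

theorem splP_mem (h : M.OkV) (α : M.ι → M.J → ℤ) (c : M.ι) : splP M α c ∈ M.Ψ :=
  M.Ψ.prod_mem fun j hj => M.Ψ.zpow_mem (h.x_Ψ c j hj) _

theorem splP_v (h : M.OkV) (α : M.ι → M.J → ℤ) (c : M.ι) (j : M.J) (hj : j ∈ M.S c) :
    M.v j (splP M α c) = α c j := by
  unfold splP
  rw [h.v_prod j _ _ fun i hi => M.Ψ.zpow_mem (h.x_Ψ c i hi) _,
    Finset.sum_eq_single j (fun i hi hij => ?_) (fun hn => absurd hj hn),
    h.v_zpow j _ (h.x_Ψ c j hj), h.v_x c j hj, mul_one]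
  rw [h.v_zpow j _ (h.x_Ψ c i hi), h.v_x' c j hj i hi hij.symm, mul_zero]

theorem spl_mem_S (α : M.ι → M.J → ℤ) (c : M.ι) (j : M.J × ℤ) :
    j ∈ (M.spl α).S c ↔ j.1 ∈ M.S c ∧ j.2 = α c j.1 := by
  show j ∈ (M.S c).map _ ↔ _
  rw [Finset.mem_map]
  constructor
  · rintro ⟨i, hi, rfl⟩
    exact ⟨hi, rfl⟩
  · rintro ⟨h1, h2⟩
    exact ⟨j.1, h1, Prod.ext rfl h2.symm⟩

theorem spl_at (α : M.ι → M.J → ℤ) (c : M.ι) (φ : M.R c →ₐ[k] k) (j : M.J × ℤ) :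
    (M.spl α).At c φ j ↔ M.At c φ j.1 ∧ j.2 = α c j.1 := by
  constructor
  · rintro ⟨h1, h2⟩
    have h3 := (spl_mem_S α c j).1 h1
    exact ⟨⟨h3.1, h2⟩, h3.2⟩
  · rintro ⟨⟨h1, h2⟩, h3⟩
    exact ⟨(spl_mem_S α c j).2 ⟨h1, h3⟩, h2⟩

/-- the exponents are determined by the local rings -/
theorem spl_eq [IsAlgClosed k] [CharZero k] (h : M.Ok0 n) {f : M.ι → Ωˣ}
    {α : M.ι → M.J → ℤ} (hf : M.SplOk f α) (c c' : M.ι) (φ : M.R c →ₐ[k] k)
    (φ' : M.R c' →ₐ[k] k) (he : M.O c φ = M.O c' φ') (j : M.J) (hj : M.At c φ j) :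
    α c j = α c' j := by
  have hj' : M.At c' φ' j := (h.at_iff c c' φ φ' he j).1 hj
  have h1 : Un (M.O c φ) (f c * (splP M α c)⁻¹ : Ωˣ) := (hf.eq c).mono (le_loc φ)
  have h2 : Un (M.O c φ) (f c' * (splP M α c')⁻¹ : Ωˣ) := by
    rw [he]
    exact (hf.eq c').mono (le_loc φ')
  have h3 : Un (M.O c φ) (f c / f c' : Ω) := hf.ov c c' φ φ' he
  have h4 : Un (M.O c φ) ((splP M α c * (splP M α c')⁻¹ : Ωˣ) : Ω) := by
    have h5 := (h1.inv.mul h3).mul h2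
    convert h5 using 1
    push_cast
    have := (f c).ne_zero
    have := (f c').ne_zero
    have := (splP M α c).ne_zero
    have := (splP M α c').ne_zero
    field_simp
  have hP := splP_mem h.toOkV α c
  have hP' := splP_mem h.toOkV α c'
  have h5 := (h.un_O_iff c φ _ (M.Ψ.mul_mem hP (M.Ψ.inv_mem hP'))).1 h4 j hj
  rw [h.v_mul j _ hP _ (M.Ψ.inv_mem hP'), h.toOkV.v_inv j _ hP', splP_v h.toOkV α c j hj.1,
    splP_v h.toOkV α c' j hj'.1] at h5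
  omega

/-- and compatible with the group -/
theorem spl_eq_g [IsAlgClosed k] [CharZero k] (h : M.Ok0 n) (hJ : M.EqJ) {f : M.ι → Ωˣ}
    {α : M.ι → M.J → ℤ} (hf : M.SplOk f α) (g : G) (c c' : M.ι) (φ : M.R c →ₐ[k] k)
    (φ' : M.R c' →ₐ[k] k) (he : ∀ a, a ∈ M.O c φ ↔ (g : Ω ≃ₐ[k] Ω) a ∈ M.O c' φ')
    (j : M.J) (hj : j ∈ M.S c) (hj' : M.At c' φ' (M.π g j)) :
    α c j = α c' (M.π g j) := by
  have hg : ∀ a, Un (M.O c φ) a → Un (M.O c' φ') ((g : Ω ≃ₐ[k] Ω) a) := by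
    rintro a ⟨h0, h1, h2⟩
    refine ⟨(map_ne_zero _).2 h0, (he a).1 h1, ?_⟩
    rw [← map_inv₀]
    exact (he _).1 h2
  have h1 : Un (M.O c' φ') ((g : Ω ≃ₐ[k] Ω) ((f c * (splP M α c)⁻¹ : Ωˣ) : Ω)) :=
    hg _ ((hf.eq c).mono (le_loc φ))
  have h2 : Un (M.O c' φ') (f c' * (splP M α c')⁻¹ : Ωˣ) := (hf.eq c').mono (le_loc φ')
  have h3 := hf.inv g c c' φ φ' he
  have h4 : Un (M.O c' φ')
      ((ga (g : Ω ≃ₐ[k] Ω) (splP M α c) * (splP M α c')⁻¹ : Ωˣ) : Ω) := by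
    have h5 := (h1.inv.mul h3).mul h2
    convert h5 using 1
    have h6 : ((ga (g : Ω ≃ₐ[k] Ω) (splP M α c) : Ωˣ) : Ω) =
      (g : Ω ≃ₐ[k] Ω) (splP M α c : Ω) := rfl
    push_cast
    rw [h6, map_mul, map_inv₀]
    have h7 : (g : Ω ≃ₐ[k] Ω) (f c : Ω) ≠ 0 := (map_ne_zero _).2 (f c).ne_zero
    have := (f c').ne_zero
    have h8 : (g : Ω ≃ₐ[k] Ω) (splP M α c : Ω) ≠ 0 := (map_ne_zero _).2 (splP M α c).ne_zero
    have := (splP M α c').ne_zero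
    field_simp
  have hP := splP_mem h.toOkV α c
  have hgP := hJ.Ψ_g g _ hP
  have hP' := splP_mem h.toOkV α c'
  have h5 := (h.un_O_iff c' φ' _ (M.Ψ.mul_mem hgP (M.Ψ.inv_mem hP'))).1 h4 _ hj'
  rw [h.v_mul _ _ hgP _ (M.Ψ.inv_mem hP'), h.toOkV.v_inv _ _ hP', hJ.v_g g _ hP,
    splP_v h.toOkV α c j hj, splP_v h.toOkV α c' _ hj'.1] at h5
  omega

/-- PROOF. The exponents are determined by the local rings: if `j` is a label through the point
`(c, φ)`, `O c φ = O c' φ'`, then `α c j = α c' j` (`monomial_mem`). Hence `s_x`: if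
`(j, α c j)` is not a label of `c'`, then `x c j` is a unit at all points of `c` at which
`s c' / s c` is a unit (they are points of `c'`, `exists_pt'`): `exists_pow_div`.
`EqP`: the label `(j, α c j)` goes to `(π g j, α c j)`, and `α c' (π g j) = α c j` by `inv`, `g_x`. -/
theorem spl_good [IsAlgClosed k] [CharZero k] (h : M.Good n) {f : M.ι → Ωˣ}
    {α : M.ι → M.J → ℤ} (hf : M.SplOk f α) : (M.spl α).Good n :=
  { fin := h.fin
    trd := h.trd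
    fg := h.fg
    le := h.le
    frac := h.frac
    complete := h.complete
    Ψ_fg := h.Ψ_fg
    Ψ_F := h.Ψ_F
    x_Ψ := fun c j hj => h.x_Ψ c j.1 ((spl_mem_S α c j).1 hj).1
    x_R := fun c j hj => h.x_R c j.1 ((spl_mem_S α c j).1 hj).1
    v_mul := fun j => h.v_mul j.1
    v_x := fun c j hj => h.v_x c j.1 ((spl_mem_S α c j).1 hj).1
    v_x' := fun c i hi j hj hij => by
      have h1 := (spl_mem_S α c i).1 hi
      have h2 := (spl_mem_S α c j).1 hj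
      refine h.v_x' c i.1 h1.1 j.1 h2.1 fun he => hij (Prod.ext he ?_)
      rw [h1.2, h2.2, he]
    unit := fun c a ha hv => h.unit c a ha fun j hj =>
      hv (j, α c j) ((spl_mem_S α c (j, α c j)).2 ⟨hj, rfl⟩)
    par := fun c φ => by
      obtain ⟨z, h1, h2⟩ := h.par c φ
      exact ⟨z, h1, fun j hj => h2 j.1 ((spl_at α c φ j).1 hj).1⟩
    s_mem := h.s_mem
    s_loc := h.s_loc
    s_x := fun c c' j hj hj' => by
      have h1 := (spl_mem_S α c j).1 hj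
      by_cases h2 : j.1 ∈ M.S c'
      · have h3 : j.2 ≠ α c' j.1 := fun h3 => hj' ((spl_mem_S α c' j).2 ⟨h2, h3⟩)
        refine exists_pow_div (h.fg c) _ _ (h.x_R c j.1 h1.1) (h.s_mem c c') fun φ hu => ?_
        obtain ⟨φ', h4⟩ := exists_pt' h.toOkS c c' φ hu
        by_contra h5
        have h6 := spl_eq h.toOk0 hf c c' φ φ' h4.symm j.1 ⟨h1.1, h5⟩
        exact h3 (h1.2.trans h6)
      · exact h.s_x c c' j.1 h1.1 h2
    m_Ψ := h.m_Ψ
    m_s := h.m_s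
    m_v := fun c j hj => h.m_v c j.1 ((spl_mem_S α c j).1 hj).1
    deep := fun c => by
      obtain ⟨φ, hφ⟩ := h.deep c
      exact ⟨φ, fun j hj => by
        have h1 := (spl_mem_S α c j).1 hj
        exact (spl_at α c φ j).2 ⟨hφ j.1 h1.1, h1.2⟩⟩
    Ψ_g := h.Ψ_g
    v_g := fun g a ha j => h.v_g g a ha j.1
    strict := fun g c j hj hj' => by
      have h1 := (spl_mem_S α c j).1 hj
      have h2 := (spl_mem_S α c _).1 hj'
      exact Prod.ext (h.strict g c j.1 h1.1 h2.1) rfl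
    eqP := fun g c φ => by
      obtain ⟨c', φ', h1, h2⟩ := h.eqP g c φ
      refine ⟨c', φ', h1, fun j => ?_⟩
      rw [spl_at, spl_at]
      have h3 : ((M.spl α).π g j).1 = M.π g j.1 := rfl
      have h4 : ((M.spl α).π g j).2 = j.2 := rfl
      rw [h3, h4]
      constructor
      · rintro ⟨h5, h6⟩
        have h7 := (h2 j.1).1 h5
        exact ⟨h7, h6.trans (spl_eq_g h.toOk0 h.toEqJ hf g c c' φ φ' h1 j.1 h5.1 h7)⟩
      · rintro ⟨h5, h6⟩
        have h7 := (h2 j.1).2 h5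
        exact ⟨h7, h6.trans (spl_eq_g h.toOk0 h.toEqJ hf g c c' φ φ' h1 j.1 h7.1 h5).symm⟩
    eqF := h.eqF }

end Mdl

end Pool.Agent.KMR
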