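import Pool.Agent.Lib.MP_732f67_ag.R.Loop
import Pool.Agent.Lib.MP_732f67_ag.R.BlS
import Pool.Agent.Lib.MP_732f67_ag.R.BlE
import Pool.Agent.Lib.MP_732f67_ag.R.Over

/-!
One blow-up.
-/

namespace Pool.Agent.KMR

variable {k Ω : Type} [Field k] [Field Ω] [Algebra k Ω]

namespace Mdl

variable {G : Subgroup (Ω ≃ₐ[k] Ω)} {n : ℕ}

theorem exists_step [IsAlgClosed k] [CharZero k] {M : Mdl k Ω G} (h : M.Good n)
    {P : Finset (M.J × M.J)} (hP : M.Ctr P) : ∃ N : ℕ, Step n M (M.bl P hP.stab N) := by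
  obtain ⟨N, hN⟩ := bl_okS hP h.toOkR.fin h.toOkV h.toOkS
  have h0 : (M.bl P hP.stab N).Ok0 n := ⟨bl_okR hP N h.toOkR h.toOkV, bl_okV hP N h.toOkV,
    bl_okP hP N h.toOkV h.toOkP, hN N le_rfl⟩
  refine ⟨N, P, hP, N, rfl, ⟨h0, bl_deep hP N h.toOk⟩, bl_eqJ hP N h.toOkV h.toEqJ, ?_, h.eqF⟩
  exact h0.eqP (bl_eqH hP N h.toOk0 h.toEqJ h.eqP)

/-- what is preserved by one blow-up; `Q` is any property of charts preserved by `bl` -/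
theorem Step.keep [IsAlgClosed k] [CharZero k] {M M' : Mdl k Ω G} (h : M.Good n)
    (hs : Step n M M') :
    M'.Ψ = M.Ψ ∧ M'.F = M.F ∧ M.Over M' ∧ ∀ a, M.Cmp a → M'.Cmp a := by
  obtain ⟨P, hP, N, rfl, hg⟩ := hs
  refine ⟨rfl, rfl, ?_, fun a ha => bl_cmp hP N a ha⟩
  rintro ⟨c, ε⟩ φ'
  obtain ⟨ψ, h1, -⟩ := bl_pt hP N c ε φ'
  refine ⟨c, ψ, h1, fun h2 => ?_⟩
  obtain ⟨h3, -⟩ := bl_pt_eq hP N h.toOkV c ε φ' ψ h1 fun p _ h4 => h2 _ h4.1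
  refine ⟨(hg.toOk0.off_iff (c, ε) φ').2 fun a ha => ?_, h3.symm⟩
  rw [h3]
  exact (h.toOk0.off_iff c ψ).1 h2 a ha

end Mdl

end Pool.Agent.KMR
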