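import Pool.Agent.Lib.MP_732f67_ag.R.MainDef

/-!
Dimension zero.
-/

namespace Pool.Agent.KMR

open Polynomial

variable {k Ω : Type} [Field k] [Field Ω] [Algebra k Ω]

/-- finite extensions of `k` are trivial -/
private theorem main0_bot [IsAlgClosed k] (x : Fin 0 → Ω) (L : IntermediateField k Ω)
    (hL : Fext (kt (k := k) x) L) {a : Ω} (ha : a ∈ L) : ∃ c : k, algebraMap k Ω c = a := by
  have h0 : kt (k := k) x = ⊥ := by
    unfold kt
    rw [Set.range_eq_empty x]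
    exact IntermediateField.adjoin_empty k Ω
  have h1 : IsAlgebraic (kt (k := k) x) a := hL.alg a ha
  rw [h0] at h1
  have h2 : IsAlgebraic k a := by
    have h3 : Algebra.IsAlgebraic k (⊥ : IntermediateField k Ω) := inferInstance
    exact IsAlgebraic.restrictScalars k h1
  have h4 : IsIntegral k a := h2.isIntegral
  have h5 := minpoly.irreducible h4
  have h6 := IsAlgClosed.degree_eq_one_of_irreducible k h5
  exact minpoly.mem_range_of_degree_eq_one k a h6

private theorem main0_mem_loc {φ : (⊥ : Subalgebra k Ω) →ₐ[k] k} {a : Ω} :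
    a ∈ Loc (⊥ : Subalgebra k Ω) φ ↔ ∃ c : k, algebraMap k Ω c = a := by
  constructor
  · rintro ⟨⟨b, hb⟩, ⟨c, hc⟩, -, rfl⟩
    obtain ⟨b', hb'⟩ := Algebra.mem_bot.1 hb
    obtain ⟨c', hc'⟩ := Algebra.mem_bot.1 hc
    refine ⟨b' / c', ?_⟩
    rw [map_div₀, hb', hc']
  · rintro ⟨c, rfl⟩
    exact (Loc _ φ).algebraMap_mem c

private theorem main0_par {φ : (⊥ : Subalgebra k Ω) →ₐ[k] k} (z : Fin 0 → Ω) :
    Par (Loc (⊥ : Subalgebra k Ω) φ) z := by
  refine ⟨fun i => i.elim0, fun r hr hu => ⟨fun i => i.elim0, fun i => i.elim0, ?_⟩⟩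
  rw [Finset.univ_eq_empty, Finset.sum_empty]
  obtain ⟨c, rfl⟩ := main0_mem_loc.1 hr
  by_cases hc : c = 0
  · rw [hc, map_zero]
  · exact absurd (un_algebraMap _ hc) hu

/-- the model -/
private noncomputable def main0 (L : IntermediateField k Ω) (Φ : Finset Ωˣ) :
    Mdl k Ω L.fixingSubgroup where
  F := L
  ι := Unit
  J := Empty
  R _ := ⊥
  S _ := ∅
  x _ j := j.elim
  s _ := 1
  m _ := 1
  Ψ := Subgroup.closure (Φ : Set Ωˣ)
  v j := j.elim
  h j := j.elim
  π := 1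

private theorem main0_Ψ {L : IntermediateField k Ω} {Φ : Finset Ωˣ}
    (hΦ : ∀ φ ∈ Φ, (φ : Ω) ∈ L) {a : Ωˣ} (ha : a ∈ Subgroup.closure (Φ : Set Ωˣ)) :
    (a : Ω) ∈ L := by
  induction ha using Subgroup.closure_induction with
  | mem x hx => exact hΦ x hx
  | one => exact L.one_mem
  | mul x y _ _ hx hy => exact L.mul_mem hx hy
  | inv x _ hx =>
    rw [Units.val_inv_eq_inv_val]
    exact L.inv_mem hx

private theorem main0_okR [IsAlgClosed k] {x : Fin 0 → Ω} (hx : AlgebraicIndependent k x)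
    {L : IntermediateField k Ω} (hL : Fext (kt (k := k) x) L) (Φ : Finset Ωˣ) :
    (main0 L Φ).OkR 0 where
  fin := inferInstanceAs (Finite Unit)
  trd := by
    refine ⟨x, fun i => i.elim0, hx, fun a ha => ?_⟩
    obtain ⟨c, rfl⟩ := main0_bot x L hL ha
    exact isAlgebraic_algebraMap (R := Algebra.adjoin k (Set.range x)) (A := Ω)
      (algebraMap k (Algebra.adjoin k (Set.range x)) c)
  fg _ := Subalgebra.fg_bot
  le _ a ha := by
    obtain ⟨c, rfl⟩ := Algebra.mem_bot.1 ha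
    exact L.algebraMap_mem c
  frac _ a ha := by
    obtain ⟨c, rfl⟩ := main0_bot x L hL ha
    exact ⟨algebraMap k Ω c, Subalgebra.algebraMap_mem _ c, 1, Subalgebra.one_mem _, one_ne_zero,
      by rw [div_one]⟩
  complete V hV := by
    refine ⟨(), fun a ha => ?_⟩
    obtain ⟨c, rfl⟩ := Algebra.mem_bot.1 ha
    exact hV c

private theorem main0_okV [IsAlgClosed k] {x : Fin 0 → Ω}
    {L : IntermediateField k Ω} (hL : Fext (kt (k := k) x) L) {Φ : Finset Ωˣ}
    (hΦ : ∀ φ ∈ Φ, (φ : Ω) ∈ L) : (main0 L Φ).OkV where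
  Ψ_fg := ⟨Φ, rfl⟩
  Ψ_F a ha := main0_Ψ hΦ ha
  x_Ψ _ j := j.elim
  x_R _ j := j.elim
  v_mul j := j.elim
  v_x _ j := j.elim
  v_x' _ j := j.elim
  unit _ a ha _ := by
    obtain ⟨c, hc⟩ := main0_bot x L hL (main0_Ψ hΦ ha)
    rw [← hc]
    refine un_algebraMap _ ?_
    rintro rfl
    rw [map_zero] at hc
    exact a.ne_zero hc.symm

private theorem main0_okS (L : IntermediateField k Ω) (Φ : Finset Ωˣ) : (main0 L Φ).OkS where
  s_mem _ _ := by
    change ((1 : Ωˣ) / (1 : Ωˣ) : Ω) ∈ (⊥ : Subalgebra k Ω)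
    rw [Units.val_one, div_one]
    exact Subalgebra.one_mem _
  s_loc _ _ a ha := ⟨0, by rw [pow_zero, mul_one]; exact ha⟩
  s_x _ _ j := j.elim
  m_Ψ _ := Subgroup.one_mem _
  m_s _ := by
    change Un (⊥ : Subalgebra k Ω) ((1 : Ωˣ) / (1 : Ωˣ) : Ω)
    rw [Units.val_one, div_one]
    exact Un.one _
  m_v _ j := j.elim

private theorem main0_ok0 [IsAlgClosed k] {x : Fin 0 → Ω} (hx : AlgebraicIndependent k x)
    {L : IntermediateField k Ω} (hL : Fext (kt (k := k) x) L) {Φ : Finset Ωˣ}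
    (hΦ : ∀ φ ∈ Φ, (φ : Ω) ∈ L) : (main0 L Φ).Ok0 0 where
  toOkR := main0_okR hx hL Φ
  toOkV := main0_okV hL hΦ
  toOkP := ⟨fun _ _ => ⟨fun i => i.elim0, main0_par _, fun j => j.elim⟩⟩
  toOkS := main0_okS L Φ

private theorem main0_fix {L : IntermediateField k Ω} (g : L.fixingSubgroup) {a : Ω}
    (ha : a ∈ L) : (g : Ω ≃ₐ[k] Ω) a = a :=
  (IntermediateField.mem_fixingSubgroup_iff L _).1 g.2 a ha

private theorem main0_good [IsAlgClosed k] {x : Fin 0 → Ω} (hx : AlgebraicIndependent k x)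
    {L : IntermediateField k Ω} (hL : Fext (kt (k := k) x) L) {Φ : Finset Ωˣ}
    (hΦ : ∀ φ ∈ Φ, (φ : Ω) ∈ L) : (main0 L Φ).Good 0 where
  toOk0 := main0_ok0 hx hL hΦ
  deep _ := ⟨(Algebra.botEquiv k Ω : (⊥ : Subalgebra k Ω) →ₐ[k] k), fun j => j.elim⟩
  Ψ_g g a ha := by
    have h1 : ga (g : Ω ≃ₐ[k] Ω) a = a := Units.ext (main0_fix g (main0_Ψ hΦ ha))
    rw [h1]
    exact ha
  v_g _ _ _ j := j.elim
  strict _ _ j := j.elim
  eqP g c φ := by
    refine ⟨c, φ, fun a => ?_, fun j => j.elim⟩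
    change a ∈ Loc (⊥ : Subalgebra k Ω) φ ↔ _ ∈ Loc (⊥ : Subalgebra k Ω) φ
    rw [main0_mem_loc, main0_mem_loc]
    refine exists_congr fun e => ?_
    rw [← (g : Ω ≃ₐ[k] Ω).commutes e]
    constructor
    · intro h
      have := congrArg (g : Ω ≃ₐ[k] Ω) h
      simpa using this
    · intro h
      have := (g : Ω ≃ₐ[k] Ω).injective h
      simpa using this
  eqF g a ha := by
    rw [main0_fix g ha]
    exact ha

/-- dimension zero: `L = k`; one chart, no labels, `R = k`, `Ψ` generated by `Φ` -/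
theorem main_zero [IsAlgClosed k] [CharZero k] : MainR k Ω 0 := by
  intro x hx L L' _ hLL hL' Φ hΦ
  have hEq : L' = L := by
    refine le_antisymm (fun a ha => ?_) hLL
    obtain ⟨c, rfl⟩ := main0_bot x L' hL' ha
    exact L.algebraMap_mem c
  rw [hEq] at hL' ⊢
  refine ⟨main0 L Φ, main0_good hx hL' hΦ, ⟨le_rfl, ∅, fun a ha => ?_, ?_⟩, le_rfl, ?_, ?_,
    fun i => i.elim0, 1, Subalgebra.one_mem _, Subgroup.one_mem _,
    fun _ => Or.inl fun j => j.elim, fun _ _ _ _ => fun j => j.elim⟩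
  · exact absurd ha (Finset.notMem_empty a)
  · rw [Finset.coe_empty, Set.union_empty]
    exact (IntermediateField.adjoin_self k L).symm
  · exact fun φ hφ => ⟨Subgroup.subset_closure hφ, fun _ => Or.inl fun j => j.elim⟩
  · exact fun _ _ _ => ⟨fun i => i.elim0, main0_par _⟩

end Pool.Agent.KMR
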