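import Pool.Agent.Lib.MP_732f67_ag.R.Can
import Pool.Agent.Lib.MP_732f67_ag.R.Spr

/-!
THE MAIN THEOREM OF PART R: the statement.
-/

namespace Pool.Agent.KMR

open Polynomial

variable {k Ω : Type} [Field k] [Field Ω] [Algebra k Ω]

/-- the statement in dimension `n`: `x` is a transcendence basis of `L`, `L'` a finite extension of
`L`, `Φ` a finite set of functions of `L`. There is a good model of a finite normal extension of `L`
containing `L'`, equivariant under all
automorphisms fixing `L`, such that the elements of `Φ` and the `x i` are in `Ψ` and comparable, the `x i` are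
coordinates off the boundary, and the boundary is the set of the points where some `x i` is
not regular or `f` is not a unit, for some polynomial `f` in the `x i`. -/
def MainR (k Ω : Type) [Field k] [Field Ω] [Algebra k Ω] (n : ℕ) : Prop :=
  ∀ x : Fin n → Ω, AlgebraicIndependent k x → ∀ L L' : IntermediateField k Ω,
    kt (k := k) x ≤ L → L ≤ L' → Fext (kt (k := k) x) L' →
      ∀ Φ : Finset Ωˣ, (∀ φ ∈ Φ, (φ : Ω) ∈ L) →
      ∃ M : Mdl k Ω L.fixingSubgroup, M.Good n ∧ Fext L M.F ∧ L' ≤ M.F ∧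
        (∀ φ ∈ Φ, φ ∈ M.Ψ ∧ M.Cmp φ) ∧
        M.CoordP x ∧ (∀ i, ∃ a ∈ M.Ψ, (a : Ω) = x i ∧ M.Cmp a) ∧
        ∃ f : Ωˣ, (f : Ω) ∈ Algebra.adjoin k (Set.range x) ∧ f ∈ M.Ψ ∧ M.Cmp f ∧
          ∀ c (φ : M.R c →ₐ[k] k), (∀ i, x i ∈ M.O c φ) → Un (M.O c φ) (f : Ω) → M.Off c φ

end Pool.Agent.KMR
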