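import Pool.Agent.Lib.MP_732f67_ag.R.Reg

/-!
Monomials in the parameters.
-/

namespace Pool.Agent.KMR

variable {k Ω : Type} [Field k] [Field Ω] [Algebra k Ω]

theorem Mono_mem {O : Subalgebra k Ω} {n : ℕ} {z : Fin n → Ω} (hz : ∀ i, z i ∈ O)
    (T : Finset (Fin n)) (β : Fin n → ℕ) : ∏ i ∈ T, z i ^ β i ∈ O :=
  prod_mem fun i _ => pow_mem (hz i) _

theorem Mono_div {n : ℕ} {z : Fin n → Ω} (T : Finset (Fin n)) (β : Fin n → ℕ) {i : Fin n}
    (hi : i ∈ T) (hβ : 0 < β i) (hz : z i ≠ 0) : (∏ j ∈ T, z j ^ β j) / z i =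
      ∏ j ∈ T, z j ^ Function.update β i (β i - 1) j := by
  have h1 : ∏ j ∈ T.erase i, z j ^ Function.update β i (β i - 1) j =
      ∏ j ∈ T.erase i, z j ^ β j := by
    refine Finset.prod_congr rfl (fun j hj => ?_)
    rw [Function.update_of_ne (Finset.ne_of_mem_erase hj)]
  rw [← Finset.mul_prod_erase T (fun j => z j ^ β j) hi,
    ← Finset.mul_prod_erase T (fun j => z j ^ Function.update β i (β i - 1) j) hi, h1,
    Function.update_self]
  have h2 : z i ^ β i = z i ^ (β i - 1) * z i := by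
    rw [← pow_succ, Nat.sub_add_cancel hβ]
  rw [h2, mul_right_comm, mul_div_assoc, div_self hz, mul_one]

theorem Mono_sum {n : ℕ} (T : Finset (Fin n)) (β : Fin n → ℕ) {i : Fin n}
    (hi : i ∈ T) (hβ : 0 < β i) :
    ∑ j ∈ T, Function.update β i (β i - 1) j + 1 = ∑ j ∈ T, β j := by
  have h1 : ∑ j ∈ T.erase i, Function.update β i (β i - 1) j = ∑ j ∈ T.erase i, β j := by
    refine Finset.sum_congr rfl (fun j hj => ?_)
    rw [Function.update_of_ne (Finset.ne_of_mem_erase hj)]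
  rw [← Finset.add_sum_erase T (fun j => β j) hi,
    ← Finset.add_sum_erase T (fun j => Function.update β i (β i - 1) j) hi, h1,
    Function.update_self]
  omega

/-- a divisor of a monomial is a monomial -/
theorem Mono_factor {O : Subalgebra k Ω} {n : ℕ} {z : Fin n → Ω} (h : Reg O z)
    (hz : ∀ i, z i ∈ O ∧ ¬ Un O (z i)) (T : Finset (Fin n)) : ∀ (m : ℕ) (β : Fin n → ℕ),
    ∑ j ∈ T, β j = m → ∀ (a b e : Ω), a ∈ O → b ∈ O → Un O e → a * b = e * ∏ i ∈ T, z i ^ β i →
      ∃ (e' : Ω) (α : Fin n → ℕ), Un O e' ∧ a = e' * ∏ i ∈ T, z i ^ α i := by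
  intro m
  induction m with
  | zero =>
    intro β hβ a b e ha hb he hab
    have h1 : ∏ i ∈ T, z i ^ β i = 1 := by
      refine Finset.prod_eq_one (fun i hi => ?_)
      rw [(Finset.sum_eq_zero_iff.1 hβ) i hi, pow_zero]
    rw [h1, mul_one] at hab
    refine ⟨a, 0, ⟨?_, ha, ?_⟩, by simp⟩
    · intro h0
      rw [h0, zero_mul] at hab
      exact he.1 hab.symm
    · have ha0 : a ≠ 0 := by
        intro h0
        rw [h0, zero_mul] at hab
        exact he.1 hab.symm
      have h2 : a⁻¹ = b * e⁻¹ := by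
        have he0 := he.1
        rw [← hab]
        have hb0 : b ≠ 0 := by
          intro h0
          rw [h0, mul_zero] at hab
          exact he.1 hab.symm
        field_simp
      rw [h2]
      exact mul_mem hb he.2.2
  | succ m ih =>
    intro β hβ a b e ha hb he hab
    obtain ⟨i, hi, hβi⟩ : ∃ i ∈ T, 0 < β i := by
      by_contra hcon
      push Not at hcon
      have : ∑ j ∈ T, β j = 0 := Finset.sum_eq_zero (fun j hj => Nat.le_zero.1 (hcon j hj))
      omega
    have hzi := h.ne i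
    have hd := Mono_div T β hi hβi hzi
    have hs := Mono_sum T β hi hβi
    have h1 : a * b / z i ∈ O := by
      rw [hab, mul_div_assoc, hd]
      exact mul_mem he.2.1 (Mono_mem (fun i => (hz i).1) T _)
    rcases h.prime i a ha b hb h1 with h2 | h2
    · obtain ⟨e', α, he', hα⟩ := ih (Function.update β i (β i - 1)) (by omega) (a / z i) b e h2 hb
        he (by rw [← hd, ← mul_div_assoc, ← hab, div_mul_eq_mul_div])
      refine ⟨e', Function.update α i (α i + 1), he', ?_⟩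
      have h3 := Mono_div (z := z) T (Function.update α i (α i + 1)) hi (by simp) hzi
      have h4 : Function.update (Function.update α i (α i + 1)) i
          ((Function.update α i (α i + 1)) i - 1) = α := by
        simp
      rw [h4, div_eq_iff hzi] at h3
      rw [h3, ← mul_assoc, ← hα, div_mul_cancel₀ a hzi]
    · obtain ⟨e', α, he', hα⟩ := ih (Function.update β i (β i - 1)) (by omega) a (b / z i) e ha h2
        he (by rw [← hd, ← mul_div_assoc, ← mul_div_assoc, ← hab])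
      exact ⟨e', α, he', hα⟩

/-- products of elements of `O` which are not divisible by `z i` -/
theorem Mono_ndvd {O : Subalgebra k Ω} {n : ℕ} {z : Fin n → Ω} (h : Reg O z)
    (hz : ∀ i, z i ∈ O ∧ ¬ Un O (z i)) (i : Fin n) (S : Finset (Fin n)) (hi : i ∉ S) (e : Ω)
    (he : Un O e) (m : Fin n → ℕ) : (e * ∏ j ∈ S, z j ^ m j) / z i ∉ O := by
  let p : Ω → Prop := fun y => y ∈ O ∧ y / z i ∉ O
  have hmul : ∀ a b, p a → p b → p (a * b) := by
    rintro a b ⟨ha, ha'⟩ ⟨hb, hb'⟩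
    refine ⟨mul_mem ha hb, fun hc => ?_⟩
    rcases h.prime i a ha b hb hc with h1 | h1
    · exact ha' h1
    · exact hb' h1
  have hunit : ∀ e, Un O e → p e := by
    intro e he
    refine ⟨he.2.1, fun hc => (hz i).2 ⟨h.ne i, (hz i).1, ?_⟩⟩
    have h1 : (z i)⁻¹ = e⁻¹ * (e / z i) := by
      have he0 := he.1
      have hzi := h.ne i
      field_simp
    rw [h1]
    exact mul_mem he.2.2 hc
  have hone : p 1 := hunit 1 ⟨one_ne_zero, one_mem _, by rw [inv_one]; exact one_mem _⟩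
  have hpow : ∀ y, p y → ∀ m : ℕ, p (y ^ m) := by
    intro y hy m
    induction m with
    | zero => rw [pow_zero]; exact hone
    | succ m ih => rw [pow_succ]; exact hmul _ _ ih hy
  have h1 : p (∏ j ∈ S, z j ^ m j) := by
    refine Finset.prod_induction _ p hmul hone ?_
    intro j hj
    refine hpow _ ⟨(hz j).1, ?_⟩ _
    exact h.indep i j (fun hij => hi (hij ▸ hj))
  exact (hmul _ _ (hunit e he) h1).2

/-- in a regular local ring: an element which becomes a unit after inverting some of the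
parameters is a unit times a monomial in them.
PROOF. `f ∈ O` with `f g = z^β`, `g ∈ O`: induction on the degree of `β`: if `β i > 0` then `z i`
divides `f` or `g` (`prime`). -/
theorem unit_mul_monomial {O : Subalgebra k Ω} {n : ℕ} {z : Fin n → Ω} (h : Reg O z)
    (hz : ∀ i, z i ∈ O ∧ ¬ Un O (z i)) (T : Finset (Fin n)) (f : Ω)
    (hf : ∃ N : ℕ, f * (∏ i ∈ T, z i) ^ N ∈ O ∧ f⁻¹ * (∏ i ∈ T, z i) ^ N ∈ O) (h0 : f ≠ 0) :
    ∃ (e : Ω) (a : Fin n → ℤ), Un O e ∧ f = e * ∏ i ∈ T, z i ^ a i := by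
  obtain ⟨N, h1, h2⟩ := hf
  have hP : (∏ i ∈ T, z i) ^ N = ∏ i ∈ T, z i ^ N := (Finset.prod_pow T N z).symm
  have hP0 : (∏ i ∈ T, z i) ^ N ≠ 0 := pow_ne_zero _ (Finset.prod_ne_zero_iff.2 fun i _ => h.ne i)
  obtain ⟨e, α, he, hα⟩ := Mono_factor h hz T _ (fun _ => N + N) rfl _ _ 1 h1 h2
    ⟨one_ne_zero, one_mem _, by rw [inv_one]; exact one_mem _⟩ (by
      rw [one_mul]
      have h3 : ∏ i ∈ T, z i ^ (N + N) = (∏ i ∈ T, z i) ^ N * (∏ i ∈ T, z i) ^ N := by
        rw [hP, ← Finset.prod_mul_distrib]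
        exact Finset.prod_congr rfl (fun i _ => pow_add _ _ _)
      rw [h3]
      field_simp)
  refine ⟨e, fun i => (α i : ℤ) - N, he, ?_⟩
  have h3 : ∏ i ∈ T, z i ^ ((α i : ℤ) - N) = (∏ i ∈ T, z i ^ α i) / (∏ i ∈ T, z i) ^ N := by
    rw [hP, ← Finset.prod_div_distrib]
    refine Finset.prod_congr rfl (fun i _ => ?_)
    rw [zpow_sub₀ (h.ne i), zpow_natCast, zpow_natCast]
  rw [h3, ← mul_div_assoc, ← hα, mul_div_assoc, div_self hP0, mul_one]

/-- a monomial with integral exponents times a unit is in `O` iff the exponents are `≥ 0` -/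
theorem monomial_mem {O : Subalgebra k Ω} {n : ℕ} {z : Fin n → Ω} (h : Reg O z)
    (hz : ∀ i, z i ∈ O ∧ ¬ Un O (z i)) (T : Finset (Fin n)) (e : Ω) (he : Un O e)
    (a : Fin n → ℤ) : e * ∏ i ∈ T, z i ^ a i ∈ O ↔ ∀ i ∈ T, 0 ≤ a i := by
  constructor
  · intro hmem i hi
    by_contra hcon
    push Not at hcon
    -- the parts with negative and nonnegative exponents
    let S := T.filter (fun j => 0 ≤ a j)
    have hiS : i ∉ S := by
      intro h1
      have := (Finset.mem_filter.1 h1).2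
      omega
    apply Mono_ndvd h hz i S hiS e he (fun j => (a j).toNat)
    have h1 : e * ∏ j ∈ S, z j ^ (a j).toNat =
        (e * ∏ j ∈ T, z j ^ a j) * ∏ j ∈ T.filter (fun j => ¬ 0 ≤ a j), z j ^ (-a j).toNat := by
      rw [← Finset.prod_filter_mul_prod_filter_not T (fun j => 0 ≤ a j)]
      have h2 : ∏ j ∈ T.filter (fun j => 0 ≤ a j), z j ^ a j = ∏ j ∈ S, z j ^ (a j).toNat := by
        refine Finset.prod_congr rfl (fun j hj => ?_)
        have h3 := (Finset.mem_filter.1 hj).2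
        conv_lhs => rw [← Int.toNat_of_nonneg h3]
        rw [zpow_natCast]
      have h4 : (∏ j ∈ T.filter (fun j => ¬ 0 ≤ a j), z j ^ a j) *
          ∏ j ∈ T.filter (fun j => ¬ 0 ≤ a j), z j ^ (-a j).toNat = 1 := by
        rw [← Finset.prod_mul_distrib]
        refine Finset.prod_eq_one (fun j hj => ?_)
        have h3 : 0 ≤ -a j := by
          have := (Finset.mem_filter.1 hj).2
          omega
        have h5 : z j ^ (-a j).toNat = z j ^ (-a j) := by
          conv_rhs => rw [← Int.toNat_of_nonneg h3]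
          rw [zpow_natCast]
        rw [h5, ← zpow_add₀ (h.ne j), add_neg_cancel, zpow_zero]
      rw [h2, mul_assoc, mul_assoc, h4, mul_one]
    have hiT : i ∈ T.filter (fun j => ¬ 0 ≤ a j) := Finset.mem_filter.2 ⟨hi, by omega⟩
    rw [h1, mul_div_assoc, Mono_div _ (fun j => (-a j).toNat) hiT (by
      show 0 < (-a i).toNat
      omega) (h.ne i)]
    exact mul_mem hmem (Mono_mem (fun i => (hz i).1) _ _)
  · intro ha
    refine mul_mem he.2.1 (prod_mem fun i hi => ?_)
    rw [← Int.toNat_of_nonneg (ha i hi), zpow_natCast]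
    exact pow_mem (hz i).1 _

/-- the ultrametric inequality for monomials -/
theorem monomial_add {O : Subalgebra k Ω} {n : ℕ} {z : Fin n → Ω} (h : Reg O z)
    (hz : ∀ i, z i ∈ O ∧ ¬ Un O (z i)) (T : Finset (Fin n)) (e₁ e₂ e₃ : Ω) (h₁ : Un O e₁)
    (h₂ : Un O e₂) (h₃ : Un O e₃) (a b c : Fin n → ℤ)
    (hab : e₁ * ∏ i ∈ T, z i ^ a i + e₂ * ∏ i ∈ T, z i ^ b i = e₃ * ∏ i ∈ T, z i ^ c i) :
    ∀ i ∈ T, min (a i) (b i) ≤ c i := by
  intro i hi
  let m : Fin n → ℤ := fun i => min (a i) (b i)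
  have hne : ∏ i ∈ T, z i ^ m i ≠ 0 := Finset.prod_ne_zero_iff.2 fun i _ => zpow_ne_zero _ (h.ne i)
  have hdiv : ∀ u : Fin n → ℤ, (∏ i ∈ T, z i ^ u i) / (∏ i ∈ T, z i ^ m i) =
      ∏ i ∈ T, z i ^ (u i - m i) := by
    intro u
    rw [← Finset.prod_div_distrib]
    exact Finset.prod_congr rfl (fun i _ => (zpow_sub₀ (h.ne i) _ _).symm)
  have h4 : e₃ * ∏ i ∈ T, z i ^ (c i - m i) ∈ O := by
    have h5 : e₃ * ∏ i ∈ T, z i ^ (c i - m i) =
        e₁ * ∏ i ∈ T, z i ^ (a i - m i) + e₂ * ∏ i ∈ T, z i ^ (b i - m i) := by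
      rw [← hdiv, ← hdiv, ← hdiv, ← mul_div_assoc, ← mul_div_assoc, ← mul_div_assoc, ← add_div, hab]
    rw [h5]
    refine add_mem ((monomial_mem h hz T e₁ h₁ _).2 fun i _ => ?_)
      ((monomial_mem h hz T e₂ h₂ _).2 fun i _ => ?_)
    · have : m i ≤ a i := min_le_left _ _
      show 0 ≤ a i - m i
      omega
    · have : m i ≤ b i := min_le_right _ _
      show 0 ≤ b i - m i
      omega
  have h5 := (monomial_mem h hz T e₃ h₃ _).1 h4 i hi
  have h6 : 0 ≤ c i - m i := h5
  show m i ≤ c i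
  omega

end Pool.Agent.KMR
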