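import Mathlib

/-!
General facts used for the normality of standard étale charts.
-/

namespace Pool.Agent.KMR

open Polynomial

section general

/-- the conductor formula: `f'(y) z` is a polynomial in `y` if `z` is integral -/
theorem norm_conductor_top {S0 K0 M : Type*} [CommRing S0] [IsDomain S0] [IsIntegrallyClosed S0]
    [Field K0] [CharZero K0] [Algebra S0 K0] [IsFractionRing S0 K0] [Field M] [Algebra K0 M]
    [Algebra S0 M] [IsScalarTower S0 K0 M] {y : M} {f : S0[X]} (hf : f.Monic)
    (h0 : aeval y f = 0) (htop : Algebra.adjoin K0 {y} = ⊤) {z : M} (hz : IsIntegral S0 z) :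
    aeval y (derivative f) * z ∈ Algebra.adjoin S0 {y} := by
  have hint : IsIntegral S0 y := ⟨f, hf, by simpa [aeval_def] using h0⟩
  have hintK : IsIntegral K0 y := hint.tower_top
  have hinj : FaithfulSMul S0 M := by
    rw [faithfulSMul_iff_algebraMap_injective, IsScalarTower.algebraMap_eq S0 K0 M]
    exact (algebraMap K0 M).injective.comp (IsFractionRing.injective S0 K0)
  have : FiniteDimensional K0 M := by
    have h := hintK.fg_adjoin_singleton
    rw [htop, Algebra.top_toSubmodule] at h
    exact ⟨h⟩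
  have hdual : z ∈ (Algebra.traceForm K0 M).dualSubmodule
      (Subalgebra.toSubmodule (Algebra.adjoin S0 {y})) := by
    rw [LinearMap.BilinForm.mem_dualSubmodule]
    intro b hb
    rw [Algebra.traceForm_apply]
    have hb' : IsIntegral S0 b := by
      have : Algebra.adjoin S0 {y} ≤ integralClosure S0 M := by
        rw [Algebra.adjoin_le_iff, Set.singleton_subset_iff]
        exact hint
      exact this hb
    have htr : IsIntegral S0 (Algebra.trace K0 M (z * b)) :=
      Algebra.isIntegral_trace (hz.mul hb')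
    obtain ⟨s, hs⟩ := IsIntegrallyClosed.isIntegral_iff.1 htr
    rw [Submodule.mem_one]
    exact ⟨s, hs⟩
  rw [traceForm_dualSubmodule_adjoin S0 K0 htop hint] at hdual
  have hne : aeval y (derivative (minpoly K0 y)) ≠ 0 :=
    (Algebra.IsSeparable.isSeparable K0 y).aeval_derivative_ne_zero (minpoly.aeval _ _)
  rw [Submodule.mem_smul_iff_inv_mul_mem (inv_ne_zero hne), inv_inv,
    Subalgebra.mem_toSubmodule] at hdual
  obtain ⟨q, hq⟩ := minpoly.isIntegrallyClosed_dvd hint h0
  have h2 := congrArg (fun g => aeval y (derivative g)) hq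
  simp only [derivative_mul, map_add, map_mul, minpoly.aeval, zero_mul, add_zero] at h2
  rw [h2]
  rw [minpoly.isIntegrallyClosed_eq_field_fractions' K0 hint, derivative_map,
    aeval_map_algebraMap] at hdual
  have h3 : aeval y q ∈ Algebra.adjoin S0 {y} := aeval_mem_adjoin_singleton S0 y
  have h4 := Subalgebra.mul_mem _ h3 hdual
  have h5 : aeval y (derivative (minpoly S0 y)) * aeval y q * z =
      aeval y q * (aeval y (derivative (minpoly S0 y)) * z) := by ring
  rw [h5]
  exact h4

/-- the conductor formula in a large field: `f'(y) z` is a polynomial in `y` if `z` is integral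
and in the field generated by `y` -/
theorem norm_conductor {S0 K0 L : Type*} [CommRing S0] [IsDomain S0] [IsIntegrallyClosed S0]
    [Field K0] [CharZero K0] [Algebra S0 K0] [IsFractionRing S0 K0] [Field L] [Algebra K0 L]
    [Algebra S0 L] [IsScalarTower S0 K0 L] {y : L} {f : S0[X]} (hf : f.Monic)
    (h0 : aeval y f = 0) {z : L} (hz : IsIntegral S0 z)
    (hzM : z ∈ IntermediateField.adjoin K0 {y}) :
    aeval y (derivative f) * z ∈ Algebra.adjoin S0 {y} := by
  have hint : IsIntegral S0 y := ⟨f, hf, by simpa [aeval_def] using h0⟩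
  have hintK : IsIntegral K0 y := hint.tower_top
  let M := IntermediateField.adjoin K0 {y}
  let y' : M := ⟨y, IntermediateField.mem_adjoin_simple_self K0 y⟩
  let z' : M := ⟨z, hzM⟩
  have htow : IsScalarTower S0 M L := IsScalarTower.of_algebraMap_eq fun r => by
    rw [IsScalarTower.algebraMap_apply S0 K0 L, IsScalarTower.algebraMap_apply S0 K0 M,
      ← IsScalarTower.algebraMap_apply K0 M L]
  let g : M →ₐ[S0] L := IsScalarTower.toAlgHom S0 M L
  have hg : Function.Injective g := (algebraMap M L).injective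
  have h0' : aeval y' f = 0 := by
    apply hg
    rw [map_zero, ← Polynomial.aeval_algHom_apply]
    exact h0
  have hz' : IsIntegral S0 z' := by
    rw [← isIntegral_algHom_iff g hg]
    exact hz
  have htop : Algebra.adjoin K0 {y'} = ⊤ := by
    have h1 : IsIntegral K0 y' := by
      rw [← isIntegral_algHom_iff (IsScalarTower.toAlgHom K0 M L) (algebraMap M L).injective]
      exact hintK
    rw [← IntermediateField.adjoin_simple_toSubalgebra_of_isAlgebraic h1.isAlgebraic]
    have h2 : IntermediateField.adjoin K0 {y'} = ⊤ := by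
      apply IntermediateField.map_injective M.val
      rw [IntermediateField.adjoin_map, Set.image_singleton]
      rw [← AlgHom.fieldRange_eq_map, IntermediateField.fieldRange_val]
      rfl
    rw [h2, IntermediateField.top_toSubalgebra]
  have h1 := norm_conductor_top hf h0' htop hz'
  have h2 : g (aeval y' (derivative f) * z') ∈ (Algebra.adjoin S0 {y'}).map g :=
    ⟨_, h1, rfl⟩
  rw [AlgHom.map_adjoin, Set.image_singleton, map_mul, ← Polynomial.aeval_algHom_apply] at h2
  exact h2

/-- the elements of `B[u]` multiplied by a power of `v = u⁻¹ ∈ B` are in `B` -/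
theorem norm_pow {k M : Type*} [Field k] [Field M] [Algebra k M] {s : Set M} {u : M} (hu : u ≠ 0)
    (hv : u⁻¹ ∈ Algebra.adjoin k s) {a : M} (ha : a ∈ Algebra.adjoin k (insert u s)) :
    ∃ N : ℕ, u⁻¹ ^ N * a ∈ Algebra.adjoin k s := by
  induction ha using Algebra.adjoin_induction with
  | mem z hz =>
    rcases hz with rfl | hz
    · exact ⟨1, by rw [pow_one, inv_mul_cancel₀ hu]; exact Subalgebra.one_mem _⟩
    · exact ⟨0, by rw [pow_zero, one_mul]; exact Algebra.subset_adjoin hz⟩
  | algebraMap r => exact ⟨0, by rw [pow_zero, one_mul]; exact Subalgebra.algebraMap_mem _ r⟩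
  | add z w _ _ hz hw =>
    obtain ⟨N, hN⟩ := hz
    obtain ⟨N', hN'⟩ := hw
    refine ⟨N + N', ?_⟩
    have h1 : u⁻¹ ^ (N + N') * (z + w) =
        u⁻¹ ^ N' * (u⁻¹ ^ N * z) + u⁻¹ ^ N * (u⁻¹ ^ N' * w) := by ring
    rw [h1]
    exact Subalgebra.add_mem _ (Subalgebra.mul_mem _ (Subalgebra.pow_mem _ hv _) hN)
      (Subalgebra.mul_mem _ (Subalgebra.pow_mem _ hv _) hN')
  | mul z w _ _ hz hw =>
    obtain ⟨N, hN⟩ := hz
    obtain ⟨N', hN'⟩ := hw
    refine ⟨N + N', ?_⟩
    have h1 : u⁻¹ ^ (N + N') * (z * w) = (u⁻¹ ^ N * z) * (u⁻¹ ^ N' * w) := by ring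
    rw [h1]
    exact Subalgebra.mul_mem _ hN hN'

/-- integral elements over `B[u]` multiplied by a power of `v = u⁻¹ ∈ B` are integral over every
ring over which `B` is integral -/
theorem norm_int {k M S0 : Type*} [Field k] [Field M] [Algebra k M] [CommRing S0] [Algebra S0 M]
    {s : Set M} {u : M} (hu : u ≠ 0) (hv : u⁻¹ ∈ Algebra.adjoin k s)
    (hB : ∀ b ∈ Algebra.adjoin k s, IsIntegral S0 b) {A : Subalgebra k M}
    (hA : A = Algebra.adjoin k (insert u s)) {w : M} (hw : IsIntegral A w) :
    ∃ N : ℕ, IsIntegral S0 (u⁻¹ ^ N * w) := by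
  classical
  obtain ⟨p, hp, hpw⟩ := hw
  have hle : Algebra.adjoin k s ≤ A := by
    rw [hA]
    exact Algebra.adjoin_mono (Set.subset_insert _ _)
  have h1 : ∀ i, ∃ N : ℕ, u⁻¹ ^ N * (p.coeff i : M) ∈ Algebra.adjoin k s := fun i =>
    norm_pow hu hv (hA ▸ (p.coeff i).2)
  choose m hm using h1
  let N := p.support.sup m
  refine ⟨N, ?_⟩
  let v : A := ⟨u⁻¹ ^ N, A.pow_mem (hle hv) N⟩
  have hq : (p.scaleRoots v).Monic := (monic_scaleRoots_iff v).2 hp
  have hqw : (p.scaleRoots v).eval₂ (algebraMap A M) (u⁻¹ ^ N * w) = 0 :=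
    scaleRoots_eval₂_eq_zero (s := v) (algebraMap A M) hpw
  have hcoef : ∀ i, (((p.scaleRoots v).coeff i : A) : M) ∈ Algebra.adjoin k s := by
    intro i
    rw [coeff_scaleRoots]
    rcases lt_trichotomy i p.natDegree with hi | hi | hi
    · by_cases h0 : p.coeff i = 0
      · rw [h0, zero_mul]
        exact Subalgebra.zero_mem _
      · have h2 : m i ≤ N := Finset.le_sup (f := m) (mem_support_iff.2 h0)
        have h3 : ((p.coeff i * v ^ (p.natDegree - i) : A) : M) =
            (u⁻¹ ^ (N - m i) * (u⁻¹ ^ N) ^ (p.natDegree - i - 1)) * (u⁻¹ ^ m i * (p.coeff i : M)) := by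
          have h4 : p.natDegree - i = (p.natDegree - i - 1) + 1 := by omega
          have h5 : (u⁻¹ ^ N : M) = u⁻¹ ^ (N - m i) * u⁻¹ ^ m i := by
            rw [← pow_add, Nat.sub_add_cancel h2]
          rw [MulMemClass.coe_mul, SubmonoidClass.coe_pow]
          change (p.coeff i : M) * (u⁻¹ ^ N) ^ (p.natDegree - i) = _
          rw [h4, pow_succ, Nat.add_sub_cancel]
          nth_rewrite 2 [h5]
          ring
        rw [h3]
        exact Subalgebra.mul_mem _ (Subalgebra.mul_mem _ (Subalgebra.pow_mem _ hv _)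
          (Subalgebra.pow_mem _ (Subalgebra.pow_mem _ hv _) _)) (hm i)
    · rw [hi, hp.coeff_natDegree, Nat.sub_self, pow_zero, one_mul]
      exact Subalgebra.one_mem _
    · rw [coeff_eq_zero_of_natDegree_lt hi, zero_mul]
      exact Subalgebra.zero_mem _
  have hlift : (p.scaleRoots v).map (algebraMap A M) ∈
      Polynomial.lifts (algebraMap (integralClosure S0 M) M) := by
    rw [lifts_iff_coeff_lifts]
    intro i
    rw [coeff_map]
    exact ⟨⟨_, hB _ (hcoef i)⟩, rfl⟩
  obtain ⟨Q, hQ, -, hQm⟩ := lifts_and_natDegree_eq_and_monic hlift (hq.map _)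
  have h2 : IsIntegral (integralClosure S0 M) (u⁻¹ ^ N * w) := by
    refine ⟨Q, hQm, ?_⟩
    rw [← eval_map, hQ, eval_map]
    exact hqw
  exact isIntegral_trans _ h2

end general

end Pool.Agent.KMR
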