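import Pool.Agent.Lib.MP_732f67_ag.R.EtCh
import Pool.Agent.Lib.MP_732f67_ag.R.NormA

/-!
Normality of the local rings.
-/

namespace Pool.Agent.KMR

open Polynomial

variable {k Ω : Type} [Field k] [Field Ω] [Algebra k Ω]

/-- a standard étale chart is integrally closed in its field of fractions -/
theorem Ch.closed [CharZero k] {A : Subalgebra k Ω} {n : ℕ} {z : Fin n → Ω} {y u : Ω}
    (h : Ch A z y u) {a b : Ω} (ha : a ∈ A) (hb : b ∈ A) (hab : IsIntegral A (a / b)) :
    a / b ∈ A := by
  obtain ⟨f, hf, -, hfy, hfne, hfA⟩ := h.pol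
  let S0 := MvPolynomial (Fin n) k
  let _ : Algebra S0 Ω := (MvPolynomial.aeval z : S0 →ₐ[k] Ω).toRingHom.toAlgebra
  have hinj : Function.Injective (algebraMap S0 Ω) := h.ind
  have : FaithfulSMul S0 Ω := (faithfulSMul_iff_algebraMap_injective _ _).2 hinj
  let K := FractionRing S0
  let _ : Algebra K Ω := FractionRing.liftAlgebra S0 Ω
  have : IsScalarTower S0 K Ω := FractionRing.isScalarTower_liftAlgebra S0 Ω
  have : CharZero Ω := charZero_of_injective_algebraMap (algebraMap k Ω).injective
  have : CharZero K := (algebraMap K Ω).charZero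
  have hy0 : aeval y f = 0 := hfy
  have hint : IsIntegral S0 y := ⟨f, hf, hfy⟩
  have hmap : ∀ c : k, algebraMap k Ω c = algebraMap S0 Ω (MvPolynomial.C c) := fun c =>
    ((MvPolynomial.aeval z : S0 →ₐ[k] Ω).commutes c).symm
  have hX : ∀ i, z i = algebraMap S0 Ω (MvPolynomial.X i) := fun i =>
    (MvPolynomial.aeval_X z i).symm
  have hB : ∀ b ∈ Algebra.adjoin k (Set.range z ∪ {y}), IsIntegral S0 b := by
    intro b hb
    induction hb using Algebra.adjoin_induction with
    | mem w hw =>
      rcases hw with ⟨i, rfl⟩ | rfl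
      · rw [hX i]
        exact isIntegral_algebraMap
      · exact hint
    | algebraMap r =>
      rw [hmap]
      exact isIntegral_algebraMap
    | add z w _ _ hz hw => exact hz.add hw
    | mul z w _ _ hz hw => exact hz.mul hw
  have hBK : ∀ b ∈ Algebra.adjoin k (Set.range z ∪ {y}), b ∈ IntermediateField.adjoin K {y} := by
    intro b hb
    induction hb using Algebra.adjoin_induction with
    | mem w hw =>
      rcases hw with ⟨i, rfl⟩ | rfl
      · rw [hX i, IsScalarTower.algebraMap_apply S0 K Ω]
        exact (IntermediateField.adjoin K {y}).algebraMap_mem _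
      · exact IntermediateField.mem_adjoin_simple_self K w
    | algebraMap r =>
      rw [hmap, IsScalarTower.algebraMap_apply S0 K Ω]
      exact (IntermediateField.adjoin K {y}).algebraMap_mem _
    | add z w _ _ hz hw => exact add_mem hz hw
    | mul z w _ _ hz hw => exact mul_mem hz hw
  have hSB : ∀ b ∈ Algebra.adjoin S0 {y}, b ∈ Algebra.adjoin k (Set.range z ∪ {y}) := by
    intro b hb
    induction hb using Algebra.adjoin_induction with
    | mem w hw =>
      rw [Set.mem_singleton_iff] at hw
      rw [hw]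
      exact Algebra.subset_adjoin (Or.inr rfl)
    | algebraMap r =>
      have h1 : (MvPolynomial.aeval z : S0 →ₐ[k] Ω) r ∈ Algebra.adjoin k (Set.range z) := by
        rw [Algebra.adjoin_range_eq_range_aeval]
        exact ⟨r, rfl⟩
      exact Algebra.adjoin_mono Set.subset_union_left h1
    | add z w _ _ hz hw => exact Subalgebra.add_mem _ hz hw
    | mul z w _ _ hz hw => exact Subalgebra.mul_mem _ hz hw
  have hset : Set.range z ∪ {y, u} = insert u (Set.range z ∪ {y}) := by
    ext a
    simp only [Set.mem_union, Set.mem_insert_iff, Set.mem_singleton_iff]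
    tauto
  have hA : A = Algebra.adjoin k (insert u (Set.range z ∪ {y})) := by rw [h.A_eq, hset]
  have hBA : Algebra.adjoin k (Set.range z ∪ {y}) ≤ A := by
    rw [hA]
    exact Algebra.adjoin_mono (Set.subset_insert _ _)
  have huA : u ∈ A := by
    rw [hA]
    exact Algebra.subset_adjoin (Set.mem_insert _ _)
  have hAK : ∀ c ∈ A, c ∈ IntermediateField.adjoin K {y} := by
    intro c hc
    obtain ⟨N, hN⟩ := norm_pow h.u_ne h.u_inv (hA ▸ hc)
    have h1 := hBK _ hN
    have h2 := pow_mem (hBK _ h.u_inv) N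
    have h3 : c = (u⁻¹ ^ N * c) / u⁻¹ ^ N := by
      rw [mul_div_cancel_left₀ _ (pow_ne_zero N (inv_ne_zero h.u_ne))]
    rw [h3]
    exact div_mem h1 h2
  obtain ⟨N, hN⟩ := norm_int h.u_ne h.u_inv hB hA hab
  have hmem : u⁻¹ ^ N * (a / b) ∈ IntermediateField.adjoin K {y} :=
    mul_mem (pow_mem (hBK _ h.u_inv) N) (div_mem (hAK a ha) (hAK b hb))
  have h1 := hBA (hSB _ (norm_conductor hf hy0 hN hmem))
  have h2 : a / b = (ev z y f.derivative)⁻¹ * u ^ N *
      (aeval y (derivative f) * (u⁻¹ ^ N * (a / b))) := by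
    have h3 : aeval y (derivative f) = ev z y f.derivative := rfl
    have h4 : u ^ N * u⁻¹ ^ N = 1 := by
      rw [← mul_pow, mul_inv_cancel₀ h.u_ne, one_pow]
    rw [h3]
    calc a / b = ((ev z y f.derivative)⁻¹ * ev z y f.derivative) * (u ^ N * u⁻¹ ^ N) * (a / b) := by
            rw [h4, inv_mul_cancel₀ hfne, one_mul, one_mul]
      _ = _ := by ring
  rw [h2]
  exact A.mul_mem (A.mul_mem hfA (A.pow_mem huA N)) h1

/-- PROOF. The chart `A = k[z, y, u]` of `exists_ch` is integrally closed: `k[z]` is, and the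
integral closure of `k[z]` in `k(z, y)` is contained in `f' (y)⁻¹ k[z, y]`
(Mathlib: `traceForm_dualSubmodule_adjoin`; see KC/EtaleA.lean, G of Stage 1), so it is in `A`; an
element integral over `A` becomes integral over `k[z]` after multiplication with a power of
`u⁻¹`. A localisation of an integrally closed ring is integrally closed. -/
theorem normal_loc [IsAlgClosed k] [CharZero k] {R : Subalgebra k Ω} {n : ℕ} (h : Dim R n)
    (φ : R →ₐ[k] k) (z : Fin n → Ω) (hz : Par (Loc R φ) z) :
    ∀ a ∈ Loc R φ, ∀ b ∈ Loc R φ, b ≠ 0 → IsIntegral (Loc R φ) (a / b) → a / b ∈ Loc R φ := by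
  classical
  intro a ha b hb _ hab
  obtain ⟨p, hp, hpw⟩ := hab
  let s : Finset Ω := insert a (insert b (p.support.image fun i => (p.coeff i : Ω)))
  have hs : ∀ c ∈ s, c ∈ Loc R φ := by
    intro c hc
    simp only [s, Finset.mem_insert, Finset.mem_image] at hc
    rcases hc with rfl | rfl | ⟨i, -, rfl⟩
    · exact ha
    · exact hb
    · exact (p.coeff i).2
  obtain ⟨A, y, u, -, hAL, hsA, hch⟩ := exists_ch h φ z hz s hs
  have haA : a ∈ A := hsA a (by simp [s])
  have hbA : b ∈ A := hsA b (by simp [s])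
  have hint : IsIntegral A (a / b) := by
    have hlift : p.map (algebraMap (Loc R φ) Ω) ∈ Polynomial.lifts (algebraMap A Ω) := by
      rw [lifts_iff_coeff_lifts]
      intro i
      rw [coeff_map]
      by_cases hi : p.coeff i = 0
      · rw [hi]
        exact ⟨0, by rw [map_zero, map_zero]⟩
      · refine ⟨⟨(p.coeff i : Ω), hsA _ ?_⟩, rfl⟩
        simp only [s, Finset.mem_insert, Finset.mem_image]
        exact Or.inr (Or.inr ⟨i, mem_support_iff.2 hi, rfl⟩)
    obtain ⟨Q, hQ, -, hQm⟩ := lifts_and_natDegree_eq_and_monic hlift (hp.map _)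
    refine ⟨Q, hQm, ?_⟩
    rw [← eval_map, hQ, eval_map]
    exact hpw
  exact hAL (hch.closed haA hbA hint)

end Pool.Agent.KMR
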