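import Pool.Agent.Lib.MP_732f67_ag.R.Icl

/-!
Prime divisors: the localisation at a prime ideal.
-/

namespace Pool.Agent.KMR

variable {k Ω : Type} [Field k] [Field Ω] [Algebra k Ω]

/-- the localisation of `R` at the prime ideal `P` -/
def LocI (R : Subalgebra k Ω) (P : Ideal R) (hP : P.IsPrime) : Subalgebra k Ω where
  carrier := {a | ∃ b c : R, c ∉ P ∧ a = b / c}
  mul_mem' := by
    rintro _ _ ⟨a, b, hb, rfl⟩ ⟨c, d, hd, rfl⟩
    refine ⟨a * c, b * d, fun h => ?_, ?_⟩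
    · rcases hP.mem_or_mem h with h | h
      · exact hb h
      · exact hd h
    · rw [MulMemClass.coe_mul, MulMemClass.coe_mul, div_mul_div_comm]
  add_mem' := by
    rintro _ _ ⟨a, b, hb, rfl⟩ ⟨c, d, hd, rfl⟩
    have h : ∀ e : R, e ∉ P → (e : Ω) ≠ 0 := fun e he h0 =>
      he (by rw [show e = 0 from Subtype.ext h0]; exact P.zero_mem)
    refine ⟨a * d + b * c, b * d, fun h => ?_, ?_⟩
    · rcases hP.mem_or_mem h with h | h
      · exact hb h
      · exact hd h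
    · rw [div_add_div _ _ (h b hb) (h d hd)]
      simp only [AddMemClass.coe_add, MulMemClass.coe_mul]
  algebraMap_mem' r := ⟨algebraMap k R r, 1, fun h => hP.ne_top ((Ideal.eq_top_iff_one P).2 h), by
    rw [OneMemClass.coe_one, div_one]; rfl⟩

/-- `P` is a prime divisor: the localisation is a discrete valuation ring -/
structure PrD (R : Subalgebra k Ω) (P : Ideal R) : Prop where
  prime : P.IsPrime
  gen : ∃ π ∈ P, (π : Ω) ≠ 0 ∧ ∀ a ∈ P, (a / π : Ω) ∈ LocI R P prime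

variable {R : Subalgebra k Ω} {F N : IntermediateField k Ω}

theorem le_locI {P : Ideal R} (hP : P.IsPrime) : R ≤ LocI R P hP := fun a ha =>
  ⟨⟨a, ha⟩, 1, fun h => hP.ne_top ((Ideal.eq_top_iff_one P).2 h), by
    rw [OneMemClass.coe_one, div_one]⟩

theorem locI_ne {P : Ideal R} {c : R} (hc : c ∉ P) : (c : Ω) ≠ 0 := fun h =>
  hc (by rw [show c = 0 from Subtype.ext h]; exact P.zero_mem)

theorem loc_le_locI {P : Ideal R} (hP : P.IsPrime) (φ : R →ₐ[k] k) (h : ∀ a ∈ P, φ a = 0) :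
    Loc R φ ≤ LocI R P hP := by
  rintro _ ⟨b, c, hc, rfl⟩
  exact ⟨b, c, fun hcP => hc (h c hcP), rfl⟩

theorem un_locI {P : Ideal R} (hP : P.IsPrime) (a : R) : Un (LocI R P hP) (a : Ω) ↔ a ∉ P := by
  constructor
  · rintro ⟨h0, -, b, c, hc, h⟩ ha
    have hc0 : (c : Ω) ≠ 0 := locI_ne hc
    have h1 : (a : Ω) * b = c := by
      rw [inv_eq_one_div, div_eq_div_iff h0 hc0, one_mul] at h
      rw [h, mul_comm]
    have h2 : a * b = c := Subtype.ext h1
    exact hc (h2 ▸ P.mul_mem_right b ha)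
  · intro ha
    refine ⟨locI_ne ha, le_locI hP a.2, 1, a, ha, ?_⟩
    rw [OneMemClass.coe_one, inv_eq_one_div]

theorem frc_locI {P : Ideal R} (hP : P.IsPrime) (hF : Frc R F) : Frc (LocI R P hP) F := by
  constructor
  · rintro _ ⟨b, c, -, rfl⟩
    exact F.div_mem (hF.le b b.2) (hF.le c c.2)
  · intro a ha
    obtain ⟨b, hb, d, hd, h0, rfl⟩ := hF.frac a ha
    exact ⟨b, le_locI hP hb, d, le_locI hP hd, h0, rfl⟩

theorem nrm_locI {P : Ideal R} (hP : P.IsPrime) (hn : Nrm R) : Nrm (LocI R P hP) := by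
  rintro _ ⟨a, c, hc, rfl⟩ _ ⟨b, d, hd, rfl⟩ h0 hi
  let _ : Algebra R (LocI R P hP) := (Subalgebra.inclusion (le_locI hP)).toRingHom.toAlgebra
  have hmap : ∀ r : R, ((algebraMap R (LocI R P hP) r : LocI R P hP) : Ω) = r := fun r => rfl
  have _ : IsScalarTower R (LocI R P hP) Ω := IsScalarTower.of_algebraMap_eq fun r => rfl
  have _ : IsLocalization P.primeCompl (LocI R P hP) := by
    refine ⟨⟨fun y => ?_, fun z => ?_, fun {x y} hxy => ?_⟩⟩
    · have hy : (y : R) ∉ P := y.2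
      refine isUnit_iff_exists_inv.2 ⟨⟨(y : R)⁻¹, 1, y, hy, ?_⟩, Subtype.ext ?_⟩
      · rw [OneMemClass.coe_one, inv_eq_one_div]
      · have hy0 : ((y : R) : Ω) ≠ 0 := locI_ne hy
        exact mul_inv_cancel₀ hy0
    · obtain ⟨z, u, v, hv, rfl⟩ := z
      refine ⟨(u, ⟨v, hv⟩), Subtype.ext ?_⟩
      exact div_mul_cancel₀ _ (locI_ne hv)
    · have hxy' : x = y := Subtype.ext (congrArg (fun t : LocI R P hP => (t : Ω)) hxy)
      exact ⟨1, by rw [hxy']⟩
  obtain ⟨m, hm⟩ := hi.exists_multiple_integral_of_isLocalization P.primeCompl _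
  have hm0 : (m : R) ∉ P := m.2
  have hc0 := locI_ne hc
  have hd0 := locI_ne hd
  have hb0 : (b : Ω) ≠ 0 := fun h => h0 (by rw [h, zero_div])
  have e1 : (m • ((a : Ω) / c / (b / d)) : Ω) = ((m : R) * a * d : R) / (c * b : R) := by
    show ((m : R) : Ω) * ((a : Ω) / c / (b / d)) = _
    rw [MulMemClass.coe_mul, MulMemClass.coe_mul, MulMemClass.coe_mul]
    field_simp
  rw [e1] at hm
  have h1 : (((m : R) * a * d : R) / (c * b : R) : Ω) ∈ R :=
    hn _ (Subtype.property _) _ (Subtype.property _)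
      (by rw [MulMemClass.coe_mul]; exact mul_ne_zero hc0 hb0) hm
  refine ⟨⟨_, h1⟩, m, hm0, ?_⟩
  have hm1 : ((m : R) : Ω) ≠ 0 := locI_ne hm0
  have e2 : ((m : R) : Ω) * ((a : Ω) / c / (b / d)) =
      (((m : R) * a * d : R) / (c * b : R) : Ω) := e1
  show (a : Ω) / c / (b / d) = (((m : R) * a * d : R) / (c * b : R) : Ω) / (m : R)
  rw [← e2, mul_div_cancel_left₀ _ hm1]

theorem PrD.exists_pt [IsAlgClosed k] (hR : R.FG) {P : Ideal R} (hP : P.IsPrime) :
    ∃ φ : R →ₐ[k] k, ∀ a ∈ P, φ a = 0 :=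
  exists_zero hR P hP.ne_top

end Pool.Agent.KMR
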