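import Pool.Agent.Lib.MP_732f67_ag.R.Psi

/-!
Extension of an order from a group `Ψ` to the group generated by `Ψ` and `y`.
-/

namespace Pool.Agent.KMR

variable {k Ω : Type} [Field k] [Field Ω] [Algebra k Ω]

/-- the group generated by `Ψ` and `y` -/
def adj (Ψ : Subgroup Ωˣ) (y : Ωˣ) : Subgroup Ωˣ := Ψ ⊔ Subgroup.zpowers y

theorem mem_adj {Ψ : Subgroup Ωˣ} {y z : Ωˣ} : z ∈ adj Ψ y ↔ ∃ a ∈ Ψ, ∃ e : ℤ, z = a * y ^ e := by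
  rw [adj, Subgroup.mem_sup]
  constructor
  · rintro ⟨a, ha, b, hb, rfl⟩
    obtain ⟨e, rfl⟩ := Subgroup.mem_zpowers_iff.1 hb
    exact ⟨a, ha, e, rfl⟩
  · rintro ⟨a, ha, e, rfl⟩
    exact ⟨a, ha, _, Subgroup.mem_zpowers_iff.2 ⟨e, rfl⟩, rfl⟩

theorem adj_fg {Ψ : Subgroup Ωˣ} (h : Ψ.FG) (y : Ωˣ) : (adj Ψ y).FG := by
  classical
  obtain ⟨S, hS⟩ := h
  refine ⟨S ∪ {y}, ?_⟩
  rw [Finset.coe_union, Subgroup.closure_union, hS, Finset.coe_singleton,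
    ← Subgroup.zpowers_eq_closure, adj]

open Classical in
/-- the order `u` on `Ψ`, `b` at `y` -/
noncomputable def vx (Ψ : Subgroup Ωˣ) (y : Ωˣ) (u : Ωˣ → ℤ) (b : ℤ) (z : Ωˣ) : ℤ :=
  if h : ∃ q : Ωˣ × ℤ, q.1 ∈ Ψ ∧ z = q.1 * y ^ q.2 then u h.choose.1 + h.choose.2 * b else 0

theorem vx_eq {Ψ : Subgroup Ωˣ} {y : Ωˣ} {u : Ωˣ → ℤ} {b : ℤ}
    (hu : ∀ a ∈ Ψ, ∀ a' ∈ Ψ, u (a * a') = u a + u a')
    (hy : ∀ e : ℤ, y ^ e ∈ Ψ → u (y ^ e) = e * b) (a : Ωˣ) (ha : a ∈ Ψ) (e : ℤ) :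
    vx Ψ y u b (a * y ^ e) = u a + e * b := by
  have h : ∃ q : Ωˣ × ℤ, q.1 ∈ Ψ ∧ a * y ^ e = q.1 * y ^ q.2 := ⟨(a, e), ha, rfl⟩
  rw [vx, dif_pos h]
  obtain ⟨h1, h2⟩ := h.choose_spec
  generalize h.choose = q at h1 h2 ⊢
  obtain ⟨a', e'⟩ := q
  dsimp only at h1 h2 ⊢
  have h3 : y ^ (e - e') = a⁻¹ * a' := by
    rw [zpow_sub, eq_inv_mul_iff_mul_eq, ← mul_assoc, h2, mul_inv_cancel_right]
  have h4 : y ^ (e - e') ∈ Ψ := by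
    rw [h3]
    exact mul_mem (inv_mem ha) h1
  have h5 : a' = a * y ^ (e - e') := by
    rw [h3, mul_inv_cancel_left]
  rw [h5, hu a ha _ h4, hy _ h4]
  ring

theorem vx_mul {Ψ : Subgroup Ωˣ} {y : Ωˣ} {u : Ωˣ → ℤ} {b : ℤ}
    (hu : ∀ a ∈ Ψ, ∀ a' ∈ Ψ, u (a * a') = u a + u a')
    (hy : ∀ e : ℤ, y ^ e ∈ Ψ → u (y ^ e) = e * b) (z z' : Ωˣ) (hz : z ∈ adj Ψ y)
    (hz' : z' ∈ adj Ψ y) : vx Ψ y u b (z * z') = vx Ψ y u b z + vx Ψ y u b z' := by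
  obtain ⟨a, ha, e, rfl⟩ := mem_adj.1 hz
  obtain ⟨a', ha', e', rfl⟩ := mem_adj.1 hz'
  have h1 : a * y ^ e * (a' * y ^ e') = a * a' * y ^ (e + e') := by
    rw [mul_mul_mul_comm, zpow_add]
  rw [h1, vx_eq hu hy _ (mul_mem ha ha'), vx_eq hu hy _ ha, vx_eq hu hy _ ha', hu a ha a' ha']
  ring

end Pool.Agent.KMR
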