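import Pool.Agent.Lib.MP_732f67_ag.R.PsiC
import Pool.Agent.Lib.MP_732f67_ag.R.Vx

/-!
Operation: the product of a model with the projective line with coordinate `w`.
-/

namespace Pool.Agent.KMR

variable {k Ω : Type} [Field k] [Field Ω] [Algebra k Ω]

namespace Mdl

variable {G : Subgroup (Ω ≃ₐ[k] Ω)} (M : Mdl k Ω G) {n : ℕ}

open Classical in
/-- the product with the projective line: charts `R c [w]` and `R c [w⁻¹]`, the new labels are
`inr true` (the section `w = 0`) and `inr false` (the section at infinity) -/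
noncomputable def prod (w : Ωˣ) : Mdl k Ω G where
  F := IntermediateField.adjoin k ((M.F : Set Ω) ∪ {(w : Ω)})
  ι := M.ι × Bool
  J := M.J ⊕ Bool
  R c := M.R c.1 ⊔ Algebra.adjoin k {(if c.2 then w else w⁻¹ : Ωˣ).val}
  S c := (M.S c.1).map Function.Embedding.inl ∪ {Sum.inr c.2}
  x c j := j.elim (M.x c.1) (fun b => if b then w else w⁻¹)
  s c := M.s c.1 * (if c.2 then 1 else w)
  m c := M.m c.1 * (if c.2 then 1 else w)
  Ψ := adj M.Ψ w
  v j := j.elim (fun i => vx M.Ψ w (M.v i) 0)
    (fun b => vx M.Ψ w (fun _ => 0) (if b then 1 else -1))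
  h j := j.elim M.h (fun b => if b then 0 else 1)
  π := MonoidHom.mk' (fun g => Equiv.sumCongr (M.π g) (Equiv.refl Bool)) (fun g g' => by
    ext j : 1
    rcases j with j | b <;> simp)

variable {M}

theorem prod_mem_inl (w : Ωˣ) (c : M.ι) (b : Bool) (j : M.J) :
    (Sum.inl j : M.J ⊕ Bool) ∈ (M.prod w).S (c, b) ↔ j ∈ M.S c := by
  classical
  show (Sum.inl j : M.J ⊕ Bool) ∈ (M.S c).map Function.Embedding.inl ∪ {Sum.inr b} ↔ _
  simp

theorem prod_mem_inr (w : Ωˣ) (c : M.ι) (b b' : Bool) :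
    (Sum.inr b' : M.J ⊕ Bool) ∈ (M.prod w).S (c, b) ↔ b' = b := by
  classical
  show (Sum.inr b' : M.J ⊕ Bool) ∈ (M.S c).map Function.Embedding.inl ∪ {Sum.inr b} ↔ _
  simp

/-- the coordinate on the chart `(c, b)` -/
def pw (w : Ωˣ) (b : Bool) : Ωˣ := if b then w else w⁻¹

theorem prod_R (w : Ωˣ) (c : M.ι) (b : Bool) :
    (M.prod w).R (c, b) = M.R c ⊔ Algebra.adjoin k {(pw w b : Ω)} := rfl

theorem prod_le (w : Ωˣ) (c : M.ι) (b : Bool) : M.R c ≤ (M.prod w).R (c, b) :=
  le_sup_left

theorem prod_pw (w : Ωˣ) (c : M.ι) (b : Bool) : (pw w b : Ω) ∈ (M.prod w).R (c, b) :=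
  (le_sup_right : _ ≤ M.R c ⊔ Algebra.adjoin k {(pw w b : Ω)})
    (Algebra.subset_adjoin (Set.mem_singleton _))

theorem prod_R_le (w : Ωˣ) (c : M.ι) (b : Bool) (A : Subalgebra k Ω) (h1 : M.R c ≤ A)
    (h2 : (pw w b : Ω) ∈ A) : (M.prod w).R (c, b) ≤ A := by
  rw [prod_R]
  exact sup_le h1 (Algebra.adjoin_le (Set.singleton_subset_iff.2 h2))

theorem prod_F_le (w : Ωˣ) : M.F ≤ (M.prod w).F := fun _ ha =>
  IntermediateField.subset_adjoin k _ (Or.inl ha)

theorem prod_F_w (w : Ωˣ) : (w : Ω) ∈ (M.prod w).F :=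
  IntermediateField.subset_adjoin k _ (Or.inr rfl)

theorem prod_F_pw (w : Ωˣ) (b : Bool) : (pw w b : Ω) ∈ (M.prod w).F := by
  unfold pw
  split_ifs
  · exact prod_F_w w
  · rw [Units.val_inv_eq_inv_val]
    exact inv_mem (prod_F_w w)

theorem prod_free (w : Ωˣ) (hw : Transcendental M.F (w : Ω)) (h : M.OkV) (e : ℤ)
    (he : w ^ e ∈ M.Ψ) : e = 0 := by
  by_contra hne
  have h1 : ((w ^ e : Ωˣ) : Ω) ∈ M.F := h.Ψ_F _ he
  have h2 : ((w : Ω)) ^ e.natAbs ∈ M.F := by
    rw [Units.val_zpow_eq_zpow_val] at h1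
    rcases Int.natAbs_eq e with h3 | h3
    · rw [h3, zpow_natCast] at h1
      exact h1
    · rw [h3, zpow_neg, zpow_natCast] at h1
      have := inv_mem h1
      rwa [inv_inv] at this
  apply hw
  have h3 : IsAlgebraic M.F ((w : Ω) ^ e.natAbs) := by
    have h4 := isAlgebraic_algebraMap (R := M.F) (A := Ω) (⟨_, h2⟩ : M.F)
    exact h4
  exact h3.of_pow (Int.natAbs_pos.2 hne)

/-- elements algebraic over a subring -/
def algF (A : Subalgebra k Ω) : IntermediateField k Ω where
  carrier := {a | IsAlgebraic A a}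
  mul_mem' := fun ha hb => IsAlgebraic.mul ha hb
  add_mem' := fun ha hb => IsAlgebraic.add ha hb
  algebraMap_mem' := fun r => isAlgebraic_algebraMap (R := A) (A := Ω) (algebraMap k A r)
  inv_mem' := fun _ ha => IsAlgebraic.inv ha

theorem prod_okR (w : Ωˣ) (hw : Transcendental M.F (w : Ω)) (h : M.OkR n) :
    (M.prod w).OkR (n + 1) where
  fin := by
    have := h.fin
    exact (inferInstance : Finite (M.ι × Bool))
  trd := by
    obtain ⟨t, ht, hta, htr⟩ := h.trd
    have hle : Algebra.adjoin k (Set.range t) ≤ M.F.toSubalgebra :=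
      Algebra.adjoin_le (by rintro _ ⟨i, rfl⟩; exact ht i)
    have hw' : Transcendental (Algebra.adjoin k (Set.range t)) (w : Ω) := by
      intro ha
      apply hw
      obtain ⟨P, hP0, hP⟩ := ha
      have hinj : Function.Injective (Subalgebra.inclusion hle) :=
        Subalgebra.inclusion_injective hle
      refine ⟨P.map (Subalgebra.inclusion hle).toRingHom,
        (Polynomial.map_ne_zero_iff (f := (Subalgebra.inclusion hle).toRingHom) hinj).2 hP0, ?_⟩
      rw [Polynomial.aeval_def, Polynomial.eval₂_map]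
      exact hP
    refine ⟨Fin.cons (w : Ω) t, fun i => ?_, ?_, fun a ha => ?_⟩
    · refine Fin.cases ?_ (fun i => ?_) i
      · exact prod_F_w w
      · exact prod_F_le w (ht i)
    · have h1 := (hta.option_iff_transcendental (w : Ω)).2 hw'
      have h2 := h1.comp (finSuccEquiv n) (finSuccEquiv n).injective
      convert h2 using 1
      ext i
      refine Fin.cases ?_ (fun i => ?_) i
      · simp
      · simp
    · have h1 : (M.prod w).F ≤ algF (Algebra.adjoin k (Set.range (Fin.cons (w : Ω) t :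
          Fin (n + 1) → Ω))) := by
        show IntermediateField.adjoin k _ ≤ _
        rw [IntermediateField.adjoin_le_iff]
        have hle' : Algebra.adjoin k (Set.range t) ≤
            Algebra.adjoin k (Set.range (Fin.cons (w : Ω) t : Fin (n + 1) → Ω)) := by
          refine Algebra.adjoin_mono ?_
          rintro _ ⟨i, rfl⟩
          exact ⟨i.succ, by simp⟩
        rintro x (hx | hx)
        · obtain ⟨P, hP0, hP⟩ := htr x hx
          have hinj : Function.Injective (Subalgebra.inclusion hle') :=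
            Subalgebra.inclusion_injective hle'
          refine ⟨P.map (Subalgebra.inclusion hle').toRingHom,
            (Polynomial.map_ne_zero_iff (f := (Subalgebra.inclusion hle').toRingHom) hinj).2 hP0,
            ?_⟩
          rw [Polynomial.aeval_def, Polynomial.eval₂_map]
          exact hP
        · rw [Set.mem_singleton_iff.1 hx]
          exact isAlgebraic_algebraMap (R := Algebra.adjoin k (Set.range (Fin.cons (w : Ω) t :
            Fin (n + 1) → Ω))) (A := Ω) ⟨w, Algebra.subset_adjoin ⟨0, by simp⟩⟩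
      exact h1 ha
  fg := by
    rintro ⟨c, b⟩
    rw [prod_R]
    exact (h.fg c).sup ⟨{(pw w b : Ω)}, by rw [Finset.coe_singleton]⟩
  le := by
    rintro ⟨c, b⟩ a ha
    exact prod_R_le w c b (M.prod w).F.toSubalgebra
      (fun x hx => prod_F_le w (h.le c x hx)) (prod_F_pw w b) ha
  frac := by
    rintro ⟨c, b⟩ a ha
    have h1 : (M.prod w).F ≤ IntermediateField.adjoin k ((M.prod w).R (c, b) : Set Ω) := by
      show IntermediateField.adjoin k _ ≤ _
      rw [IntermediateField.adjoin_le_iff]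
      rintro x (hx | hx)
      · obtain ⟨y, hy, d, hd, -, rfl⟩ := h.frac c x hx
        exact div_mem (IntermediateField.subset_adjoin k _ (prod_le w c b hy))
          (IntermediateField.subset_adjoin k _ (prod_le w c b hd))
      · rw [Set.mem_singleton_iff.1 hx]
        have h2 : (pw w b : Ω) ∈ IntermediateField.adjoin k ((M.prod w).R (c, b) : Set Ω) :=
          IntermediateField.subset_adjoin k _ (prod_pw w c b)
        unfold pw at h2
        split_ifs at h2
        · exact h2
        · rw [Units.val_inv_eq_inv_val] at h2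
          have h3 := inv_mem h2
          rwa [inv_inv] at h3
    have h2 := h1 ha
    rw [IntermediateField.mem_adjoin_iff_div, Algebra.adjoin_eq] at h2
    obtain ⟨x, hx, y, hy, rfl⟩ := h2
    by_cases hy0 : y = 0
    · exact ⟨0, zero_mem _, 1, one_mem _, one_ne_zero, by rw [hy0, div_zero, zero_div]⟩
    · exact ⟨x, hx, y, hy, hy0, rfl⟩
  complete := by
    intro V hV
    obtain ⟨c, hc⟩ := h.complete V hV
    let A : Subalgebra k Ω :=
      { V.toSubring with algebraMap_mem' := hV }
    rcases V.mem_or_inv_mem (w : Ω) with h1 | h1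
    · refine ⟨(c, true), fun a ha => ?_⟩
      exact prod_R_le w c true A hc h1 ha
    · refine ⟨(c, false), fun a ha => ?_⟩
      refine prod_R_le w c false A hc ?_ ha
      show ((w⁻¹ : Ωˣ) : Ω) ∈ V
      rw [Units.val_inv_eq_inv_val]
      exact h1

theorem prod_v_inl (w : Ωˣ) (hw : Transcendental M.F (w : Ω)) (h : M.OkV) (j : M.J) (a : Ωˣ)
    (ha : a ∈ M.Ψ) (e : ℤ) : (M.prod w).v (Sum.inl j) (a * w ^ e) = M.v j a := by
  show vx M.Ψ w (M.v j) 0 (a * w ^ e) = _
  rw [vx_eq (h.v_mul j) (fun e he => by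
    rw [prod_free w hw h e he, zpow_zero, h.v_one, zero_mul]) a ha e, mul_zero, add_zero]

theorem prod_v_inr (w : Ωˣ) (hw : Transcendental M.F (w : Ω)) (h : M.OkV) (b : Bool) (a : Ωˣ)
    (ha : a ∈ M.Ψ) (e : ℤ) :
    (M.prod w).v (Sum.inr b) (a * w ^ e) = e * (if b then 1 else -1) := by
  show vx M.Ψ w (fun _ => 0) (if b then 1 else -1) (a * w ^ e) = _
  rw [vx_eq (fun _ _ _ _ => by rw [add_zero]) (fun e he => by
    rw [prod_free w hw h e he, zero_mul]) a ha e, zero_add]

theorem prod_x_inl (w : Ωˣ) (c : M.ι) (b : Bool) (j : M.J) :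
    (M.prod w).x (c, b) (Sum.inl j) = M.x c j := rfl

theorem prod_x_inr (w : Ωˣ) (c : M.ι) (b b' : Bool) :
    (M.prod w).x (c, b) (Sum.inr b') = pw w b' := rfl

theorem prod_okV (w : Ωˣ) (hw : Transcendental M.F (w : Ω)) (h : M.OkV) : (M.prod w).OkV where
  Ψ_fg := adj_fg h.Ψ_fg w
  Ψ_F := by
    intro a ha
    obtain ⟨b, hb, e, rfl⟩ := mem_adj.1 ha
    rw [Units.val_mul, Units.val_zpow_eq_zpow_val]
    exact mul_mem (prod_F_le w (h.Ψ_F b hb)) (zpow_mem (prod_F_w w) e)
  x_Ψ := by
    rintro ⟨c, b⟩ (j | b') hj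
    · have h1 := (prod_mem_inl w c b j).1 hj
      exact mem_adj.2 ⟨_, h.x_Ψ c j h1, 0, by rw [zpow_zero, mul_one]; rfl⟩
    · rw [prod_x_inr]
      unfold pw
      split_ifs
      · exact mem_adj.2 ⟨1, one_mem _, 1, by rw [zpow_one, one_mul]⟩
      · exact mem_adj.2 ⟨1, one_mem _, -1, by rw [zpow_neg_one, one_mul]⟩
  x_R := by
    rintro ⟨c, b⟩ (j | b') hj
    · have h1 := (prod_mem_inl w c b j).1 hj
      exact prod_le w c b (h.x_R c j h1)
    · have h1 := (prod_mem_inr w c b b').1 hj
      subst h1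
      exact prod_pw w c b'
  v_mul := by
    rintro (j | b) a ha a' ha'
    · obtain ⟨y, hy, e, rfl⟩ := mem_adj.1 ha
      obtain ⟨y', hy', e', rfl⟩ := mem_adj.1 ha'
      have h1 : y * w ^ e * (y' * w ^ e') = y * y' * w ^ (e + e') := by
        rw [mul_mul_mul_comm, zpow_add]
      rw [h1, prod_v_inl w hw h _ _ (mul_mem hy hy'), prod_v_inl w hw h _ _ hy,
        prod_v_inl w hw h _ _ hy', h.v_mul j y hy y' hy']
    · obtain ⟨y, hy, e, rfl⟩ := mem_adj.1 ha
      obtain ⟨y', hy', e', rfl⟩ := mem_adj.1 ha'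
      have h1 : y * w ^ e * (y' * w ^ e') = y * y' * w ^ (e + e') := by
        rw [mul_mul_mul_comm, zpow_add]
      rw [h1, prod_v_inr w hw h _ _ (mul_mem hy hy'), prod_v_inr w hw h _ _ hy,
        prod_v_inr w hw h _ _ hy', add_mul]
  v_x := by
    rintro ⟨c, b⟩ (j | b') hj
    · have h1 := (prod_mem_inl w c b j).1 hj
      have h2 := prod_v_inl w hw h j _ (h.x_Ψ c j h1) 0
      rw [zpow_zero, mul_one, h.v_x c j h1] at h2
      exact h2
    · rw [prod_x_inr]
      cases b'
      · have h2 := prod_v_inr w hw h false 1 (one_mem _) (-1)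
        rw [zpow_neg_one, one_mul] at h2
        exact h2
      · have h2 := prod_v_inr w hw h true 1 (one_mem _) 1
        rw [zpow_one, one_mul] at h2
        exact h2
  v_x' := by
    rintro ⟨c, b⟩ (i | b') hi (j | b'') hj hij
    · have h1 := (prod_mem_inl w c b i).1 hi
      have h2 := (prod_mem_inl w c b j).1 hj
      have h3 := prod_v_inl w hw h i _ (h.x_Ψ c j h2) 0
      rw [zpow_zero, mul_one, h.v_x' c i h1 j h2 (fun he => hij (by rw [he]))] at h3
      exact h3
    · rw [prod_x_inr]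
      cases b''
      · have h2 := prod_v_inl w hw h i 1 (one_mem _) (-1)
        rw [zpow_neg_one, one_mul, h.v_one] at h2
        exact h2
      · have h2 := prod_v_inl w hw h i 1 (one_mem _) 1
        rw [zpow_one, one_mul, h.v_one] at h2
        exact h2
    · have h2 := (prod_mem_inl w c b j).1 hj
      have h3 := prod_v_inr w hw h b' _ (h.x_Ψ c j h2) 0
      rw [zpow_zero, mul_one, zero_mul] at h3
      exact h3
    · have h1 := (prod_mem_inr w c b b').1 hi
      have h2 := (prod_mem_inr w c b b'').1 hj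
      exact absurd (by rw [h1, h2]) hij
  unit := by
    rintro ⟨c, b⟩ a ha hv
    obtain ⟨y, hy, e, rfl⟩ := mem_adj.1 ha
    have h1 := hv (Sum.inr b) ((prod_mem_inr w c b b).2 rfl)
    rw [prod_v_inr w hw h b y hy e] at h1
    have h2 : e = 0 := by
      rcases mul_eq_zero.1 h1 with h2 | h2
      · exact h2
      · split_ifs at h2 <;> omega
    subst h2
    rw [zpow_zero, mul_one]
    refine (h.unit c y hy fun j hj => ?_).mono (prod_le w c b)
    have h3 := hv (Sum.inl j) ((prod_mem_inl w c b j).2 hj)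
    rwa [prod_v_inl w hw h j y hy 0] at h3

/-- the factor of the section on the chart `(c, b)` -/
def pt (w : Ωˣ) (b : Bool) : Ωˣ := if b then 1 else w

theorem prod_s (w : Ωˣ) (c : M.ι) (b : Bool) : (M.prod w).s (c, b) = M.s c * pt w b := rfl

theorem prod_m (w : Ωˣ) (c : M.ι) (b : Bool) : (M.prod w).m (c, b) = M.m c * pt w b := rfl

/-- `pt w b' / pt w b` is in the ring of the chart `b` -/
theorem pt_mem (w : Ωˣ) (c : M.ι) (b b' : Bool) :
    (pt w b' / pt w b : Ω) ∈ (M.prod w).R (c, b) := by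
  have h1 := prod_pw w c b
  cases b <;> cases b' <;> simp only [pt, pw, if_true, Bool.false_eq_true, if_false] at h1 ⊢
  · rw [div_self w.ne_zero]
    exact one_mem _
  · rw [Units.val_one, one_div, ← Units.val_inv_eq_inv_val]
    exact h1
  · rw [Units.val_one, div_one]
    exact h1
  · rw [Units.val_one, div_one]
    exact one_mem _

/-- the coordinate of the chart `b` on the chart `b'` -/
theorem pw_mem (w : Ωˣ) (c : M.ι) (b b' : Bool) :
    (pw w b : Ω) * (pt w b / pt w b' : Ω) ∈ (M.prod w).R (c, b') := by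
  have h1 := prod_pw w c b'
  cases b <;> cases b' <;> simp only [pt, pw, if_true, Bool.false_eq_true, if_false] at h1 ⊢
  · rw [div_self w.ne_zero, mul_one]
    exact h1
  · rw [Units.val_one, div_one, Units.inv_mul]
    exact one_mem _
  · rw [Units.val_one, one_div, mul_inv_cancel₀ w.ne_zero]
    exact one_mem _
  · rw [Units.val_one, div_one, mul_one]
    exact h1

theorem prod_s_div (w : Ωˣ) (c c' : M.ι) (b b' : Bool) :
    ((M.prod w).s (c', b') / (M.prod w).s (c, b) : Ω) =
      (M.s c' / M.s c : Ω) * (pt w b' / pt w b : Ω) := by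
  rw [prod_s, prod_s, Units.val_mul, Units.val_mul, mul_div_mul_comm]

theorem prod_okS (w : Ωˣ) (hw : Transcendental M.F (w : Ω)) (hv : M.OkV) (h : M.OkS) :
    (M.prod w).OkS where
  s_mem := by
    rintro ⟨c, b⟩ ⟨c', b'⟩
    rw [prod_s_div]
    exact mul_mem (prod_le w c b (h.s_mem c c')) (pt_mem w c b b')
  s_loc := by
    rintro ⟨c, b⟩ ⟨c', b'⟩ a ha
    have hq : (M.s c / M.s c' : Ω) * (pt w b / pt w b' : Ω) ∈ (M.prod w).R (c', b') :=
      mul_mem (prod_le w c' b' (h.s_mem c' c)) (pt_mem w c' b' b)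
    have key : ∀ x, x ∈ (M.prod w).R (c, b) → ∃ N : ℕ,
        x * ((M.s c / M.s c' : Ω) * (pt w b / pt w b' : Ω)) ^ N ∈ (M.prod w).R (c', b') := by
      let A : Subalgebra k Ω :=
        { carrier := {x | ∃ N : ℕ,
            x * ((M.s c / M.s c' : Ω) * (pt w b / pt w b' : Ω)) ^ N ∈ (M.prod w).R (c', b')}
          mul_mem' := by
            rintro x y ⟨N, hN⟩ ⟨N', hN'⟩
            refine ⟨N + N', ?_⟩
            have h1 := mul_mem hN hN'
            rwa [mul_mul_mul_comm, ← pow_add] at h1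
          add_mem' := by
            rintro x y ⟨N, hN⟩ ⟨N', hN'⟩
            refine ⟨N + N', ?_⟩
            have h1 := mul_mem hN (pow_mem hq N')
            have h2 := mul_mem hN' (pow_mem hq N)
            rw [mul_assoc, ← pow_add] at h1 h2
            rw [add_comm N' N] at h2
            rw [add_mul]
            exact add_mem h1 h2
          algebraMap_mem' := fun r => ⟨0, by
            rw [pow_zero, mul_one]
            exact Subalgebra.algebraMap_mem _ r⟩ }
      intro x hx
      refine prod_R_le w c b A (fun y hy => ?_) ?_ hx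
      · obtain ⟨N, hN⟩ := h.s_loc c c' y hy
        refine ⟨N, ?_⟩
        rw [mul_pow, ← mul_assoc]
        exact mul_mem (prod_le w c' b' hN) (pow_mem (pt_mem w c' b' b) N)
      · refine ⟨1, ?_⟩
        rw [pow_one, mul_left_comm]
        exact mul_mem (prod_le w c' b' (h.s_mem c' c)) (pw_mem w c' b b')
    obtain ⟨N, hN⟩ := key a ha
    refine ⟨N, ?_⟩
    rw [prod_s_div]
    exact hN
  s_x := by
    rintro ⟨c, b⟩ ⟨c', b'⟩ (j | b'') hj hj'
    · have h1 := (prod_mem_inl w c b j).1 hj
      have h2 : j ∉ M.S c' := fun h2 => hj' ((prod_mem_inl w c' b' j).2 h2)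
      obtain ⟨N, hN⟩ := h.s_x c c' j h1 h2
      refine ⟨N, ?_⟩
      rw [prod_s_div, mul_pow, mul_div_right_comm]
      exact mul_mem (prod_le w c b hN) (pow_mem (pt_mem w c b b') N)
    · have h1 := (prod_mem_inr w c b b'').1 hj
      subst h1
      have h2 : b'' ≠ b' := fun h2 => hj' ((prod_mem_inr w c' b' b'').2 h2)
      refine ⟨1, ?_⟩
      rw [pow_one, prod_s_div, prod_x_inr]
      have h3 : (pt w b' / pt w b'' : Ω) = (pw w b'' : Ω) := by
        cases b'' <;> cases b' <;> simp only [pt, pw, if_true, Bool.false_eq_true, if_false] <;>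
          first
          | exact absurd rfl h2
          | rw [Units.val_one, one_div, Units.val_inv_eq_inv_val]
          | rw [Units.val_one, div_one]
      rw [h3, mul_div_assoc, div_self (Units.ne_zero _), mul_one]
      exact prod_le w c b'' (h.s_mem c c')
  m_Ψ := by
    rintro ⟨c, b⟩
    rw [prod_m]
    unfold pt
    split_ifs
    · exact mem_adj.2 ⟨_, h.m_Ψ c, 0, by rw [zpow_zero]⟩
    · exact mem_adj.2 ⟨_, h.m_Ψ c, 1, by rw [zpow_one]⟩
  m_s := by
    rintro ⟨c, b⟩
    have h1 : ((M.prod w).s (c, b) / (M.prod w).m (c, b) : Ω) = (M.s c / M.m c : Ω) := by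
      rw [prod_s, prod_m, Units.val_mul, Units.val_mul, mul_div_mul_right _ _ (Units.ne_zero _)]
    rw [h1]
    exact (h.m_s c).mono (prod_le w c b)
  m_v := by
    rintro ⟨c, b⟩ j hj
    have h1 : (M.prod w).m (c, b) = M.m c * w ^ (if b then (0 : ℤ) else 1) := by
      rw [prod_m]
      cases b
      · simp [pt]
      · simp [pt]
    rw [h1]
    rcases j with j | b'
    · rw [prod_v_inl w hw hv j _ (h.m_Ψ c), h.m_v c j ((prod_mem_inl w c b j).1 hj)]
      rfl
    · rw [prod_v_inr w hw hv b' _ (h.m_Ψ c)]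
      have h2 := (prod_mem_inr w c b b').1 hj
      subst h2
      cases b'
      · show (1 : ℤ) * (-1) = -1
        norm_num
      · show (0 : ℤ) * 1 = -0
        norm_num

theorem prod_eqJ (w : Ωˣ) (hw : Transcendental M.F (w : Ω)) (hv : M.OkV) (h : M.EqJ)
    (hg : ∀ g : G, (g : Ω ≃ₐ[k] Ω) (w : Ω) = w) : (M.prod w).EqJ where
  Ψ_g := by
    intro g a ha
    obtain ⟨y, hy, e, rfl⟩ := mem_adj.1 ha
    have h1 : ga (g : Ω ≃ₐ[k] Ω) w = w := Units.ext (hg g)
    rw [map_mul, map_zpow, h1]
    exact mem_adj.2 ⟨_, h.Ψ_g g y hy, e, rfl⟩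
  v_g := by
    intro g a ha j
    obtain ⟨y, hy, e, rfl⟩ := mem_adj.1 ha
    have h1 : ga (g : Ω ≃ₐ[k] Ω) w = w := Units.ext (hg g)
    rw [map_mul, map_zpow, h1]
    rcases j with j | b
    · show (M.prod w).v (Sum.inl (M.π g j)) _ = _
      rw [prod_v_inl w hw hv _ _ (h.Ψ_g g y hy), prod_v_inl w hw hv _ _ hy, h.v_g g y hy j]
    · show (M.prod w).v (Sum.inr b) _ = _
      rw [prod_v_inr w hw hv _ _ (h.Ψ_g g y hy), prod_v_inr w hw hv _ _ hy]
  strict := by
    rintro g ⟨c, b⟩ (j | b') hj hj'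
    · have h1 := (prod_mem_inl w c b j).1 hj
      have h2 : M.π g j ∈ M.S c := (prod_mem_inl w c b _).1 hj'
      show Sum.inl (M.π g j) = Sum.inl j
      rw [h.strict g c j h1 h2]
    · rfl

end Mdl

end Pool.Agent.KMR
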