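import Pool.Agent.Lib.MP_732f67_ag.R.Prod

/-!
The product of a model with the projective line: points, parameters, equivariance.
-/

namespace Pool.Agent.KMR

variable {k Ω : Type} [Field k] [Field Ω] [Algebra k Ω]

namespace Mdl

variable {G : Subgroup (Ω ≃ₐ[k] Ω)} {M : Mdl k Ω G} {n : ℕ}

/-- the point under a point of the product, with the values -/
theorem prod_pt' (w : Ωˣ) (c : M.ι) (b : Bool) (φ : (M.prod w).R (c, b) →ₐ[k] k) :
    ∃ ψ : M.R c →ₐ[k] k, M.O c ψ ≤ (M.prod w).O (c, b) φ ∧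
      (∀ a ∈ M.O c ψ, Un (M.O c ψ) a ↔ Un ((M.prod w).O (c, b) φ) a) ∧
      ∀ (a : Ω) (h : a ∈ M.R c), ψ ⟨a, h⟩ = φ ⟨a, prod_le w c b h⟩ := by
  let ψ : M.R c →ₐ[k] k := φ.comp (Subalgebra.inclusion (prod_le w c b))
  have hle : M.O c ψ ≤ (M.prod w).O (c, b) φ := by
    rintro _ ⟨x, y, hy, rfl⟩
    exact ⟨⟨x, prod_le w c b x.2⟩, ⟨y, prod_le w c b y.2⟩, hy, rfl⟩
  exact ⟨ψ, hle, fun a ha => ⟨fun h => h.mono hle,
    fun h => IsPt.dom (isPt_loc ψ) (isPt_loc φ) hle a ha h⟩, fun a h => rfl⟩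

/-- the point under a point of the product -/
theorem prod_pt (w : Ωˣ) (c : M.ι) (b : Bool) (φ : (M.prod w).R (c, b) →ₐ[k] k) :
    ∃ ψ : M.R c →ₐ[k] k, M.O c ψ ≤ (M.prod w).O (c, b) φ ∧
      ∀ a ∈ M.O c ψ, Un (M.O c ψ) a ↔ Un ((M.prod w).O (c, b) φ) a := by
  obtain ⟨ψ, h1, h2, -⟩ := prod_pt' w c b φ
  exact ⟨ψ, h1, h2⟩

/-- division by `w - e` -/
theorem prod_div (w : Ωˣ) (c : M.ι) (b : Bool) (e : k) (r : Ω) (hr : r ∈ (M.prod w).R (c, b)) :
    ∃ s ∈ M.R c, ∃ q ∈ (M.prod w).R (c, b), r = s + ((pw w b : Ω) - algebraMap k Ω e) * q := by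
  have hpw := prod_pw w c b (M := M)
  let A : Subalgebra k Ω :=
    { carrier := {r | r ∈ (M.prod w).R (c, b) ∧ ∃ s ∈ M.R c, ∃ q ∈ (M.prod w).R (c, b),
        r = s + ((pw w b : Ω) - algebraMap k Ω e) * q}
      mul_mem' := by
        rintro x y ⟨hx, s, hs, q, hq, h1⟩ ⟨hy, s', hs', q', hq', h2⟩
        refine ⟨mul_mem hx hy, s * s', mul_mem hs hs', s * q' + q * y, ?_, ?_⟩
        · exact add_mem (mul_mem (prod_le w c b hs) hq') (mul_mem hq hy)
        · rw [h2] at hy ⊢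
          rw [h1]
          ring
      add_mem' := by
        rintro x y ⟨hx, s, hs, q, hq, h1⟩ ⟨hy, s', hs', q', hq', h2⟩
        refine ⟨add_mem hx hy, s + s', add_mem hs hs', q + q', add_mem hq hq', ?_⟩
        rw [h1, h2]
        ring
      algebraMap_mem' := fun r => ⟨Subalgebra.algebraMap_mem _ r, algebraMap k Ω r,
        Subalgebra.algebraMap_mem _ r, 0, zero_mem _, by rw [mul_zero, add_zero]⟩ }
  have h1 : (M.prod w).R (c, b) ≤ A := by
    refine prod_R_le w c b A (fun y hy => ⟨prod_le w c b hy, y, hy, 0, zero_mem _, ?_⟩) ?_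
    · rw [mul_zero, add_zero]
    · exact ⟨hpw, algebraMap k Ω e, Subalgebra.algebraMap_mem _ e, 1, one_mem _, by ring⟩
  exact (h1 hr).2

/-- PROOF. Parameters: those of the point below and `w - e` (resp. `w⁻¹ - e`). -/
theorem prod_okP (w : Ωˣ) (hw : Transcendental M.F (w : Ω)) (hr : M.OkR n) (hv : M.OkV)
    (h : M.OkP n) : (M.prod w).OkP (n + 1) where
  par := by
    rintro ⟨c, b⟩ φ
    obtain ⟨ψ, h1, h2, h3⟩ := prod_pt' w c b φ
    obtain ⟨z, ⟨hz1, hz2⟩, hz3⟩ := h.par c ψ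
    let y : (M.prod w).R (c, b) := ⟨(pw w b : Ω), prod_pw w c b⟩
    let e : k := φ y
    let u : (M.prod w).R (c, b) := y - algebraMap k _ e
    have hu : φ u = 0 := by
      show φ (y - algebraMap k _ e) = 0
      rw [map_sub, AlgHom.commutes]
      exact sub_self _
    have huv : (u : Ω) = (pw w b : Ω) - algebraMap k Ω e := rfl
    refine ⟨Fin.cons (u : Ω) z, par_of_loc φ (fun i => ?_) (fun r hr0 => ?_), ?_⟩
    · refine Fin.cases ?_ (fun i => ?_) i
      · rw [Fin.cons_zero]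
        exact ⟨le_loc φ u.2, fun hn => (un_loc φ u).1 hn hu⟩
      · rw [Fin.cons_succ]
        exact ⟨h1 (hz1 i).1, fun hn => (hz1 i).2 ((h2 _ (hz1 i).1).2 hn)⟩
    · obtain ⟨s, hs, q, hq, hrs⟩ := prod_div w c b e (r : Ω) r.2
      have h4 : r = ⟨s, prod_le w c b hs⟩ + u * ⟨q, hq⟩ := Subtype.ext hrs
      have h5 : ψ ⟨s, hs⟩ = 0 := by
        rw [h3]
        rw [h4, map_add, map_mul, hu, zero_mul, add_zero] at hr0
        exact hr0
      have h6 : ¬ Un (M.O c ψ) s := fun hn => (un_loc ψ ⟨s, hs⟩).1 hn h5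
      obtain ⟨a, ha1, ha2⟩ := hz2 s (le_loc ψ hs) h6
      refine ⟨Fin.cons q a, fun i => ?_, ?_⟩
      · refine Fin.cases ?_ (fun i => ?_) i
        · rw [Fin.cons_zero]
          exact le_loc φ hq
        · rw [Fin.cons_succ]
          exact h1 (ha1 i)
      · rw [Fin.sum_univ_succ]
        simp only [Fin.cons_zero, Fin.cons_succ]
        rw [← ha2, hrs, huv]
        ring
    · rintro (j | b') hj
      · have h4 := (prod_mem_inl w c b j).1 hj.1
        have h5 : M.At c ψ j := ⟨h4, fun hn => hj.2 ((h2 _ (le_loc ψ (hv.x_R c j h4))).1 hn)⟩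
        obtain ⟨i, hi⟩ := hz3 j h5
        exact ⟨i.succ, by rw [Fin.cons_succ]; exact hi⟩
      · have h4 := (prod_mem_inr w c b b').1 hj.1
        subst h4
        refine ⟨0, ?_⟩
        have h5 : e = 0 := by
          by_contra h6
          exact hj.2 ((un_loc φ y).2 h6)
        rw [Fin.cons_zero, huv, h5, map_zero, sub_zero]
        rfl

/-- the coordinates are transcendental -/
theorem prod_tr (w : Ωˣ) (hw : Transcendental M.F (w : Ω)) (hr : M.OkR n) (c : M.ι) (b : Bool) :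
    Transcendental (M.R c) (pw w b : Ω) := by
  have hle : M.R c ≤ M.F.toSubalgebra := fun a ha => hr.le c a ha
  have h1 : Transcendental M.F (pw w b : Ω) := by
    unfold pw
    split_ifs
    · exact hw
    · rw [Units.val_inv_eq_inv_val]
      exact fun ha => hw (IsAlgebraic.inv_iff.1 ha)
  intro ha
  apply h1
  obtain ⟨P, hP0, hP⟩ := ha
  have hinj : Function.Injective (Subalgebra.inclusion hle) :=
    Subalgebra.inclusion_injective hle
  refine ⟨P.map (Subalgebra.inclusion hle).toRingHom,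
    (Polynomial.map_ne_zero_iff (f := (Subalgebra.inclusion hle).toRingHom) hinj).2 hP0, ?_⟩
  rw [Polynomial.aeval_def, Polynomial.eval₂_map]
  exact hP

/-- points of the product over a given point -/
theorem exists_hom_prod (w : Ωˣ) (hw : Transcendental M.F (w : Ω)) (hr : M.OkR n) (c : M.ι)
    (b : Bool) (φ : M.R c →ₐ[k] k) (e : k) : ∃ φ' : (M.prod w).R (c, b) →ₐ[k] k,
      (∀ (a : Ω) (h : a ∈ M.R c), φ' ⟨a, prod_le w c b h⟩ = φ ⟨a, h⟩) ∧
      φ' ⟨(pw w b : Ω), prod_pw w c b⟩ = e := by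
  let f : Polynomial (M.R c) →ₐ[k] Ω :=
    (Polynomial.aeval (pw w b : Ω) : Polynomial (M.R c) →ₐ[M.R c] Ω).restrictScalars k
  have hinj : Function.Injective f := transcendental_iff_injective.1 (prod_tr w hw hr c b)
  let E := AlgEquiv.ofInjective f hinj
  have hC : ∀ (a : Ω) (h : a ∈ M.R c), f (Polynomial.C ⟨a, h⟩) = a := fun a h =>
    Polynomial.aeval_C _ _
  have hX : f Polynomial.X = (pw w b : Ω) := Polynomial.aeval_X _
  have hle : (M.prod w).R (c, b) ≤ f.range :=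
    prod_R_le w c b f.range (fun a ha => ⟨Polynomial.C ⟨a, ha⟩, hC a ha⟩) ⟨Polynomial.X, hX⟩
  let g : Polynomial (M.R c) →ₐ[k] k :=
    { Polynomial.eval₂RingHom (φ : M.R c →+* k) e with
      commutes' := fun r => by
        show Polynomial.eval₂ (φ : M.R c →+* k) e (algebraMap k (Polynomial (M.R c)) r) = _
        rw [Polynomial.algebraMap_apply, Polynomial.eval₂_C]
        exact φ.commutes r }
  let φ' : (M.prod w).R (c, b) →ₐ[k] k :=
    (g.comp (E.symm : f.range →ₐ[k] Polynomial (M.R c))).comp (Subalgebra.inclusion hle)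
  have key : ∀ (P : Polynomial (M.R c)) (x : (M.prod w).R (c, b)), (x : Ω) = f P → φ' x = g P := by
    intro P x hx
    show g (E.symm (Subalgebra.inclusion hle x)) = g P
    congr 1
    rw [AlgEquiv.symm_apply_eq]
    exact Subtype.ext hx
  refine ⟨φ', fun a h => ?_, ?_⟩
  · rw [key (Polynomial.C ⟨a, h⟩) _ (hC a h).symm]
    exact Polynomial.eval₂_C _ _
  · rw [key Polynomial.X _ hX.symm]
    exact Polynomial.eval₂_X _ _

theorem prod_deep (w : Ωˣ) (hw : Transcendental M.F (w : Ω)) (hr : M.OkR n) (hv : M.OkV)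
    (h : ∀ c, ∃ φ : M.R c →ₐ[k] k, ∀ j ∈ M.S c, M.At c φ j) (c : (M.prod w).ι) :
    ∃ φ : (M.prod w).R c →ₐ[k] k, ∀ j ∈ (M.prod w).S c, (M.prod w).At c φ j := by
  obtain ⟨c, b⟩ := c
  obtain ⟨φ, hφ⟩ := h c
  obtain ⟨φ', h1, h2⟩ := exists_hom_prod w hw hr c b φ 0
  refine ⟨φ', ?_⟩
  rintro (j | b') hj
  · have h3 := (prod_mem_inl w c b j).1 hj
    refine ⟨hj, fun hn => ?_⟩
    have h4 := (un_loc φ' ⟨(M.x c j : Ω), prod_le w c b (hv.x_R c j h3)⟩).1 hn
    rw [h1 _ (hv.x_R c j h3)] at h4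
    exact (hφ j h3).2 ((un_loc φ ⟨(M.x c j : Ω), hv.x_R c j h3⟩).2 h4)
  · have h3 := (prod_mem_inr w c b b').1 hj
    subst h3
    exact ⟨hj, fun hn => (un_loc φ' ⟨(pw w b' : Ω), prod_pw w c b'⟩).1 hn h2⟩

/-- PROOF. `φ'` over `φ`; `g O c φ = O c₁ φ₁`; `R' (c₁, b) ≤ g O'`; the point under `g O'`. -/
theorem prod_eqH [IsAlgClosed k] [CharZero k] (w : Ωˣ) (hw : Transcendental M.F (w : Ω))
    (h : M.Good n) (hg : ∀ g : G, (g : Ω ≃ₐ[k] Ω) (w : Ω) = w) : (M.prod w).EqH := by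
  rintro g ⟨c, b⟩ φ
  obtain ⟨ψ, h1, h2⟩ := prod_pt w c b φ
  obtain ⟨c₁, ψ₁, h3, h4⟩ := h.eqP g c ψ
  have hw' : (g : Ω ≃ₐ[k] Ω) (pw w b : Ω) = (pw w b : Ω) := by
    unfold pw
    split_ifs
    · exact hg g
    · rw [Units.val_inv_eq_inv_val, map_inv₀, hg g]
  have hO : IsPt (((M.prod w).O (c, b) φ).map ((g : Ω ≃ₐ[k] Ω) : Ω →ₐ[k] Ω)) :=
    (isPt_loc φ).map _
  have hsy : ∀ a : Ω, (g : Ω ≃ₐ[k] Ω) (((g : Ω ≃ₐ[k] Ω)).symm a) = a := fun a =>
    AlgEquiv.apply_symm_apply _ a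
  have hle : (M.prod w).R (c₁, b) ≤
      ((M.prod w).O (c, b) φ).map ((g : Ω ≃ₐ[k] Ω) : Ω →ₐ[k] Ω) := by
    refine prod_R_le w c₁ b _ (fun a ha => ?_) ?_
    · have h5 : ((g : Ω ≃ₐ[k] Ω)).symm a ∈ M.O c ψ := by
        rw [h3, hsy]
        exact le_loc ψ₁ ha
      rw [← hsy a, mem_map_iff]
      exact h1 h5
    · rw [← hw', mem_map_iff]
      exact le_loc φ (prod_pw w c b)
  obtain ⟨φ₁, h5, h6⟩ := hO.exists_loc _ hle
  refine ⟨(c₁, b), φ₁, fun a ha => ?_, ?_⟩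
  · have h7 := h6 ha
    rw [← hsy a, mem_map_iff] at h7
    exact h7
  · rintro (j | b') hj
    · have h7 := (prod_mem_inl w c b j).1 hj.1
      have h8 : M.At c ψ j :=
        ⟨h7, fun hn => hj.2 ((h2 _ (le_loc ψ (h.x_R c j h7))).1 hn)⟩
      have h9 := (h4 j).1 h8
      refine ⟨(prod_mem_inl w c₁ b _).2 h9.1, fun hn => h9.2 ?_⟩
      have h10 : Un (((M.prod w).O (c, b) φ).map ((g : Ω ≃ₐ[k] Ω) : Ω →ₐ[k] Ω))
          (M.x c₁ (M.π g j) : Ω) := hn.mono h6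
      rw [← hsy (M.x c₁ (M.π g j) : Ω), un_map_iff] at h10
      have h11 : ((g : Ω ≃ₐ[k] Ω)).symm (M.x c₁ (M.π g j) : Ω) ∈ M.O c ψ := by
        rw [h3, hsy]
        exact le_loc ψ₁ (h.x_R c₁ _ h9.1)
      have h12 := (h2 _ h11).2 h10
      refine ⟨Units.ne_zero _, le_loc ψ₁ (h.x_R c₁ _ h9.1), ?_⟩
      have h13 := (h3 _).1 h12.2.2
      rwa [map_inv₀, hsy] at h13
    · have h7 := (prod_mem_inr w c b b').1 hj.1
      subst h7
      refine ⟨(prod_mem_inr w c₁ b' b').2 rfl, fun hn => hj.2 ?_⟩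
      have h10 : Un (((M.prod w).O (c, b') φ).map ((g : Ω ≃ₐ[k] Ω) : Ω →ₐ[k] Ω))
          (pw w b' : Ω) := hn.mono h6
      rw [← hw', un_map_iff] at h10
      exact h10

theorem prod_good [IsAlgClosed k] [CharZero k] (w : Ωˣ) (hw : Transcendental M.F (w : Ω))
    (h : M.Good n) (hg : ∀ g : G, (g : Ω ≃ₐ[k] Ω) (w : Ω) = w) : (M.prod w).Good (n + 1) := by
  have h0 : (M.prod w).Ok0 (n + 1) :=
    { prod_okR w hw h.toOkR, prod_okV w hw h.toOkV, prod_okP w hw h.toOkR h.toOkV h.toOkP,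
      prod_okS w hw h.toOkV h.toOkS with }
  exact
    { toOk0 := h0
      deep := prod_deep w hw h.toOkR h.toOkV h.deep
      toEqJ := prod_eqJ w hw h.toOkV h.toEqJ hg
      eqP := h0.eqP (prod_eqH w hw h hg)
      eqF := fun g => by
        have h1 : (M.prod w).F ≤ ((M.prod w).F).comap ((g : Ω ≃ₐ[k] Ω) : Ω →ₐ[k] Ω) := by
          show IntermediateField.adjoin k _ ≤ _
          rw [IntermediateField.adjoin_le_iff]
          rintro x (hx | hx)
          · exact prod_F_le w (h.eqF g x hx)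
          · rw [Set.mem_singleton_iff.1 hx]
            show (g : Ω ≃ₐ[k] Ω) (w : Ω) ∈ (M.prod w).F
            rw [hg g]
            exact prod_F_w w
        exact fun a ha => h1 ha }

end Mdl

end Pool.Agent.KMR
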