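import Pool.Agent.Lib.MP_732f67_ag.R.Mono

/-!
Orders of the elements of `Ψ`: formal properties.
-/

namespace Pool.Agent.KMR

variable {k Ω : Type} [Field k] [Field Ω] [Algebra k Ω]

namespace Mdl

variable {G : Subgroup (Ω ≃ₐ[k] Ω)} {M : Mdl k Ω G} {n : ℕ}

/-- the field of fractions of `R c` is `F` -/
theorem OkR.dim (h : M.OkR n) (c : M.ι) : Dim (M.R c) n := by
  obtain ⟨t, ht, hi, ha⟩ := h.trd
  exact ⟨h.fg c, t, fun i => h.frac c (t i) (ht i), hi, fun a hac => ha a (h.le c a hac)⟩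

section v

variable (h : M.OkV)

include h

theorem OkV.v_one (j : M.J) : M.v j 1 = 0 := by
  have h1 := h.v_mul j 1 (one_mem _) 1 (one_mem _)
  rw [mul_one] at h1
  omega

theorem OkV.v_inv (j : M.J) (a : Ωˣ) (ha : a ∈ M.Ψ) : M.v j a⁻¹ = -M.v j a := by
  have h1 := h.v_mul j a ha a⁻¹ (inv_mem ha)
  rw [mul_inv_cancel, h.v_one] at h1
  omega

theorem OkV.v_zpow (j : M.J) (a : Ωˣ) (ha : a ∈ M.Ψ) (e : ℤ) : M.v j (a ^ e) = e * M.v j a := by
  have hn : ∀ m : ℕ, M.v j (a ^ m) = m * M.v j a := by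
    intro m
    induction m with
    | zero => rw [pow_zero, h.v_one]; simp
    | succ m ih =>
      rw [pow_succ, h.v_mul j _ (pow_mem ha m) _ ha, ih]
      push_cast
      ring
  rcases Int.eq_nat_or_neg e with ⟨m, rfl | rfl⟩
  · rw [zpow_natCast, hn]
  · rw [zpow_neg, zpow_natCast, h.v_inv j _ (pow_mem ha m), hn]
    ring

theorem OkV.v_prod (j : M.J) {κ : Type*} (s : Finset κ) (f : κ → Ωˣ) (hf : ∀ i ∈ s, f i ∈ M.Ψ) :
    M.v j (∏ i ∈ s, f i) = ∑ i ∈ s, M.v j (f i) := by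
  classical
  induction s using Finset.induction_on with
  | empty => rw [Finset.prod_empty, Finset.sum_empty, h.v_one]
  | insert i s hi ih =>
    rw [Finset.prod_insert hi, Finset.sum_insert hi,
      h.v_mul j _ (hf i (Finset.mem_insert_self i s)) _
        (prod_mem fun i' hi' => hf i' (Finset.mem_insert_of_mem hi')),
      ih fun i' hi' => hf i' (Finset.mem_insert_of_mem hi')]

/-- an element of `Ψ` is a unit of `R c` times a monomial in the `x c j` -/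
theorem OkV.eq_monomial (c : M.ι) (a : Ωˣ) (ha : a ∈ M.Ψ) :
    ∃ e ∈ M.Ψ, Un (M.R c) (e : Ω) ∧ a = e * ∏ j ∈ M.S c, M.x c j ^ M.v j a := by
  classical
  have hx : ∀ j ∈ M.S c, M.x c j ^ M.v j a ∈ M.Ψ := fun j hj => zpow_mem (h.x_Ψ c j hj) _
  have hp : (∏ j ∈ M.S c, M.x c j ^ M.v j a) ∈ M.Ψ := prod_mem hx
  refine ⟨a * (∏ j ∈ M.S c, M.x c j ^ M.v j a)⁻¹, mul_mem ha (inv_mem hp), ?_, by
    rw [inv_mul_cancel_right]⟩
  refine h.unit c _ (mul_mem ha (inv_mem hp)) ?_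
  intro j hj
  rw [h.v_mul j _ ha _ (inv_mem hp), h.v_inv j _ hp, h.v_prod j _ _ hx,
    Finset.sum_eq_single j]
  · rw [h.v_zpow j _ (h.x_Ψ c j hj), h.v_x c j hj]
    ring
  · intro i hi hij
    rw [h.v_zpow j _ (h.x_Ψ c i hi), h.v_x' c j hj i hi hij.symm, mul_zero]
  · intro hc
    exact absurd hj hc

theorem OkV.mem_R (c : M.ι) (a : Ωˣ) (ha : a ∈ M.Ψ) (hv : ∀ j ∈ M.S c, 0 ≤ M.v j a) :
    (a : Ω) ∈ M.R c := by
  obtain ⟨e, -, he, hae⟩ := h.eq_monomial c a ha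
  rw [hae, Units.val_mul, Units.coe_prod]
  refine mul_mem he.2.1 (prod_mem fun j hj => ?_)
  rw [Units.val_zpow_eq_zpow_val, ← Int.toNat_of_nonneg (hv j hj), zpow_natCast]
  exact pow_mem (h.x_R c j hj) _

/-- `a ∈ Ψ` is in the local ring if its order is `≥ 0` along the divisors through the point -/
theorem OkV.mem_O (c : M.ι) (φ : M.R c →ₐ[k] k) (a : Ωˣ) (ha : a ∈ M.Ψ)
    (hv : ∀ j, M.At c φ j → 0 ≤ M.v j a) : (a : Ω) ∈ M.O c φ := by
  have hle : ∀ y ∈ M.R c, y ∈ M.O c φ := by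
    intro y hy
    refine ⟨⟨y, hy⟩, 1, ?_, ?_⟩
    · rw [map_one]
      exact one_ne_zero
    · rw [OneMemClass.coe_one, div_one]
  obtain ⟨e, -, he, hae⟩ := h.eq_monomial c a ha
  rw [hae, Units.val_mul, Units.coe_prod]
  refine mul_mem (hle _ he.2.1) (prod_mem fun j hj => ?_)
  rw [Units.val_zpow_eq_zpow_val]
  by_cases hat : M.At c φ j
  · rw [← Int.toNat_of_nonneg (hv j hat), zpow_natCast]
    exact pow_mem (hle _ (h.x_R c j hj)) _
  · have hun : Un (M.O c φ) (M.x c j : Ω) := by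
      by_contra hc
      exact hat ⟨hj, hc⟩
    rcases Int.eq_nat_or_neg (M.v j a) with ⟨m, hm | hm⟩
    · rw [hm, zpow_natCast]
      exact pow_mem hun.2.1 _
    · rw [hm, zpow_neg, zpow_natCast, ← inv_pow]
      exact pow_mem hun.2.2 _

theorem OkV.un_O (c : M.ι) (φ : M.R c →ₐ[k] k) (a : Ωˣ) (ha : a ∈ M.Ψ)
    (hv : ∀ j, M.At c φ j → M.v j a = 0) : Un (M.O c φ) (a : Ω) := by
  refine ⟨a.ne_zero, h.mem_O c φ a ha fun j hj => (hv j hj).ge, ?_⟩
  rw [← Units.val_inv_eq_inv_val]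
  refine h.mem_O c φ a⁻¹ (inv_mem ha) fun j hj => ?_
  rw [h.v_inv j a ha, hv j hj]
  exact le_of_eq neg_zero.symm

end v

end Mdl

end Pool.Agent.KMR
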