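import Pool.Agent.Lib.MP_732f67_ag.R.PsiA

/-!
Comparison of the local rings of a model.
-/

namespace Pool.Agent.KMR

variable {k Ω : Type} [Field k] [Field Ω] [Algebra k Ω]

namespace Mdl

variable {G : Subgroup (Ω ≃ₐ[k] Ω)} {M : Mdl k Ω G} {n : ℕ}

section aux

/-- if `s c' / s c` is a unit of the local ring `O c φ` then `R c' ≤ O c φ` -/
theorem psiB_le (h : M.OkS) (c c' : M.ι) (O : Subalgebra k Ω) (hR : M.R c ≤ O)
    (hu : (M.s c / M.s c' : Ω) ∈ O) : M.R c' ≤ O := by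
  intro a ha
  obtain ⟨N, hN⟩ := h.s_loc c' c a ha
  have h1 : a = a * (M.s c' / M.s c : Ω) ^ N * (M.s c / M.s c' : Ω) ^ N := by
    have h2 := (M.s c).ne_zero
    have h3 := (M.s c').ne_zero
    rw [mul_assoc, ← mul_pow, div_mul_div_cancel₀ h2, div_self h3, one_pow, mul_one]
  rw [h1]
  exact O.mul_mem (hR hN) (O.pow_mem hu N)

theorem psiB_le_of_dom (h : M.OkS) (c c' : M.ι) (φ : M.R c →ₐ[k] k) (φ' : M.R c' →ₐ[k] k)
    (V : Subring Ω) (h1 : ∀ a ∈ M.O c φ, a ∈ V ∧ (a⁻¹ ∈ V → a = 0 ∨ Un (M.O c φ) a))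
    (h2 : ∀ a ∈ M.O c' φ', a ∈ V ∧ (a⁻¹ ∈ V → a = 0 ∨ Un (M.O c' φ') a)) :
    M.O c' φ' ≤ M.O c φ := by
  have e1 : (M.s c' / M.s c : Ω) ∈ M.O c φ := le_loc φ (h.s_mem c c')
  have e2 : (M.s c / M.s c' : Ω) ∈ M.O c' φ' := le_loc φ' (h.s_mem c' c)
  have e3 : (M.s c / M.s c' : Ω) ∈ M.O c φ := by
    have e4 := (h1 _ e1).2 (by
      rw [inv_div]
      exact (h2 _ e2).1)
    rcases e4 with e4 | e4
    · exact absurd e4 (div_ne_zero (M.s c').ne_zero (M.s c).ne_zero)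
    · have e5 := e4.2.2
      rwa [inv_div] at e5
  have hR := psiB_le h c c' (M.O c φ) (le_loc φ) e3
  rintro _ ⟨b, d, hd, rfl⟩
  have hdu : Un (M.O c' φ') (d : Ω) := (un_loc φ' d).2 hd
  rw [div_eq_mul_inv]
  refine (M.O c φ).mul_mem (hR b.2) ?_
  rcases (h1 _ (hR d.2)).2 (h2 _ hdu.2.2).1 with h3 | h3
  · exact absurd h3 hdu.1
  · exact h3.2.2

end aux

section alg

variable [IsAlgClosed k] [CharZero k] (h : M.Ok0 n)

include h

/-- Two local rings of a model contained in each other are equal (separatedness): `s c / s c'` is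
a unit of the bigger one, `a * (s c' / s c) ^ N ∈ R c` for `a ∈ R c'`. -/
theorem Ok0.eq_of_le (c c' : M.ι) (φ : M.R c →ₐ[k] k) (φ' : M.R c' →ₐ[k] k)
    (hle : M.O c φ ≤ M.O c' φ') : M.O c φ = M.O c' φ' := by
  have hdom := IsPt.dom (isPt_loc φ) (isPt_loc φ') hle
  refine le_antisymm hle (psiB_le_of_dom h.toOkS c c' φ φ' (M.O c' φ').toSubring ?_ ?_)
  · intro a ha
    refine ⟨hle ha, fun ha' => ?_⟩
    by_cases h0 : a = 0
    · exact Or.inl h0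
    · exact Or.inr (hdom a ha ⟨h0, hle ha, ha'⟩)
  · intro a ha
    refine ⟨ha, fun ha' => ?_⟩
    by_cases h0 : a = 0
    · exact Or.inl h0
    · exact Or.inr ⟨h0, ha, ha'⟩

/-- two local rings of a model dominated by the same local ring (for instance the valuation ring
`V`) are equal -/
theorem Ok0.eq_of_dom (c c' : M.ι) (φ : M.R c →ₐ[k] k) (φ' : M.R c' →ₐ[k] k)
    (V : Subring Ω) (h1 : ∀ a ∈ M.O c φ, a ∈ V ∧ (a⁻¹ ∈ V → a = 0 ∨ Un (M.O c φ) a))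
    (h2 : ∀ a ∈ M.O c' φ', a ∈ V ∧ (a⁻¹ ∈ V → a = 0 ∨ Un (M.O c' φ') a)) :
    M.O c φ = M.O c' φ' := by
  exact le_antisymm (psiB_le_of_dom h.toOkS c' c φ' φ V h2 h1)
    (psiB_le_of_dom h.toOkS c c' φ φ' V h1 h2)

theorem psiB_at (c c' : M.ι) (φ : M.R c →ₐ[k] k) (φ' : M.R c' →ₐ[k] k)
    (he : M.O c φ = M.O c' φ') (j : M.J) (hj : M.At c φ j) : M.At c' φ' j := by
  have e1 : (M.s c' / M.s c : Ω) ∈ M.O c φ := le_loc φ (h.s_mem c c')
  have e2 : (M.s c / M.s c' : Ω) ∈ M.O c φ := by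
    rw [he]
    exact le_loc φ' (h.s_mem c' c)
  have hjS : j ∈ M.S c' := by
    by_contra hn
    obtain ⟨N, hN⟩ := h.s_x c c' j hj.1 hn
    apply hj.2
    refine ⟨(M.x c j).ne_zero, le_loc φ (h.x_R c j hj.1), ?_⟩
    have h2 := (M.s c).ne_zero
    have h3 := (M.s c').ne_zero
    have h4 : (M.x c j : Ω)⁻¹ = (M.s c' / M.s c : Ω) ^ N / M.x c j * (M.s c / M.s c' : Ω) ^ N := by
      rw [div_mul_eq_mul_div, ← mul_pow, div_mul_div_cancel₀ h2, div_self h3, one_pow, one_div]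
    rw [h4]
    exact (M.O c φ).mul_mem (le_loc φ hN) ((M.O c φ).pow_mem e2 N)
  refine ⟨hjS, fun hu => ?_⟩
  rw [← he, h.un_O_iff c φ (M.x c' j) (h.x_Ψ c' j hjS)] at hu
  have h5 := hu j hj
  rw [h.v_x c' j hjS] at h5
  exact one_ne_zero h5

/-- the labels through a point depend only on its local ring -/
theorem Ok0.at_iff (c c' : M.ι) (φ : M.R c →ₐ[k] k) (φ' : M.R c' →ₐ[k] k)
    (he : M.O c φ = M.O c' φ') (j : M.J) : M.At c φ j ↔ M.At c' φ' j := by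
  exact ⟨psiB_at h c c' φ φ' he j, psiB_at h c' c φ' φ he.symm j⟩

/-- and the local equations are the same up to units -/
theorem Ok0.x_unit (c c' : M.ι) (φ : M.R c →ₐ[k] k) (φ' : M.R c' →ₐ[k] k)
    (he : M.O c φ = M.O c' φ') (j : M.J) (hj : M.At c φ j) :
    Un (M.O c φ) (M.x c j / M.x c' j : Ω) := by
  have hj' := psiB_at h c c' φ φ' he j hj
  have h1 := h.x_Ψ c j hj.1
  have h2 := h.x_Ψ c' j hj'.1
  have h3 : M.x c j / M.x c' j ∈ M.Ψ := M.Ψ.div_mem h1 h2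
  have h4 := (h.un_O_iff c φ (M.x c j / M.x c' j) h3).2 (by
    intro i hi
    have hi' := psiB_at h c c' φ φ' he i hi
    rw [div_eq_mul_inv, h.v_mul i _ h1 _ (M.Ψ.inv_mem h2), h.toOkV.v_inv i _ h2]
    by_cases hij : i = j
    · rw [hij, h.v_x c j hj.1, h.v_x c' j hj'.1]
      ring
    · rw [h.v_x' c i hi.1 j hj.1 hij, h.v_x' c' i hi'.1 j hj'.1 hij]
      ring)
  rwa [Units.val_div_eq_div_val] at h4

/-- every local ring `O` with residue field `k` which is contained in `F`, or in any subfield,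
dominates a point of the model, if its elements are ... : the centre of a local ring. Let `O` be a
local ring with residue field `k` containing a chart `R c`: the point under it -/
theorem Ok0.exists_pt (c : M.ι) (O : Subalgebra k Ω) (hO : IsPt O) (hc : M.R c ≤ O) :
    ∃ φ : M.R c →ₐ[k] k, M.O c φ ≤ O ∧ ∀ j, M.At c φ j ↔ j ∈ M.S c ∧ ¬ Un O (M.x c j : Ω) := by
  obtain ⟨φ, h1, h2⟩ := hO.exists_loc (M.R c) hc
  refine ⟨φ, h2, fun j => ?_⟩
  constructor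
  · rintro ⟨hj, hu⟩
    refine ⟨hj, fun hu' => hu ?_⟩
    exact (un_loc φ ⟨_, h.x_R c j hj⟩).2 ((h1 ⟨_, h.x_R c j hj⟩).2 hu')
  · rintro ⟨hj, hu⟩
    refine ⟨hj, fun hu' => hu ?_⟩
    exact (h1 ⟨_, h.x_R c j hj⟩).1 ((un_loc φ ⟨_, h.x_R c j hj⟩).1 hu')

/-- the points of the model dominated by a given local ring are unique -/
theorem Ok0.unique_pt (c c' : M.ι) (φ : M.R c →ₐ[k] k) (φ' : M.R c' →ₐ[k] k)
    (O : Subalgebra k Ω) (hO : IsPt O) (h1 : M.O c φ ≤ O) (h2 : M.O c' φ' ≤ O) :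
    M.O c φ = M.O c' φ' := by
  refine h.eq_of_dom c c' φ φ' O.toSubring ?_ ?_
  · intro a ha
    refine ⟨h1 ha, fun ha' => ?_⟩
    by_cases h0 : a = 0
    · exact Or.inl h0
    · exact Or.inr (IsPt.dom (isPt_loc φ) hO h1 a ha ⟨h0, h1 ha, ha'⟩)
  · intro a ha
    refine ⟨h2 ha, fun ha' => ?_⟩
    by_cases h0 : a = 0
    · exact Or.inl h0
    · exact Or.inr (IsPt.dom (isPt_loc φ') hO h2 a ha ⟨h0, h2 ha, ha'⟩)

end alg

end Mdl

end Pool.Agent.KMR
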