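import Pool.Agent.Lib.MP_732f67_ag.R.PsiA

/-!
The ultrametric inequality for differences.
-/

namespace Pool.Agent.KMR

variable {k Ω : Type} [Field k] [Field Ω] [Algebra k Ω]

namespace Mdl

variable {G : Subgroup (Ω ≃ₐ[k] Ω)} {M : Mdl k Ω G} {n : ℕ}

/-- as `Ok.v_add` (`monomial_add` with `- e₂`) -/
theorem Ok.v_sub [IsAlgClosed k] [CharZero k] (h : M.Ok n) (c : M.ι) (a b d : Ωˣ) (ha : a ∈ M.Ψ)
    (hb : b ∈ M.Ψ) (hd : d ∈ M.Ψ) (hab : (a : Ω) - b = d) :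
    ∀ j ∈ M.S c, min (M.v j a) (M.v j b) ≤ M.v j d := by
  intro j hj
  obtain ⟨φ, hφ⟩ := h.deep c
  obtain ⟨z, T, f, hz, hr, hf1, hf2, hrep⟩ := h.toOk0.psiA_repr c φ
  obtain ⟨e₁, he₁, ha'⟩ := hrep a ha
  obtain ⟨e₂, he₂, hb'⟩ := hrep b hb
  obtain ⟨e₃, he₃, hd'⟩ := hrep d hd
  obtain ⟨i, rfl⟩ := hf2 j (hφ j hj)
  rw [ha', hb', hd', sub_eq_add_neg, ← neg_mul] at hab
  have hn : Un (M.O c φ) (-e₂) := ⟨neg_ne_zero.2 he₂.1, neg_mem he₂.2.1, by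
    rw [inv_neg]
    exact neg_mem he₂.2.2⟩
  have h1 := monomial_add hr hz.1 T e₁ (-e₂) e₃ he₁ hn he₃ _ _ _ hab i i.2
  simp only [dif_pos i.2] at h1
  exact h1

end Mdl

end Pool.Agent.KMR
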