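import Pool.Agent.Lib.MP_732f67_ag.R.Defs

/-!
Local rings of points: elementary facts. No hypothesis on `k`, `Ω`.
-/

namespace Pool.Agent.KMR

variable {k Ω : Type} [Field k] [Field Ω] [Algebra k Ω]

theorem Un.one (O : Subalgebra k Ω) : Un O 1 :=
  ⟨one_ne_zero, O.one_mem, by rw [inv_one]; exact O.one_mem⟩

theorem Un.mul {O : Subalgebra k Ω} {a b : Ω} (ha : Un O a) (hb : Un O b) : Un O (a * b) :=
  ⟨mul_ne_zero ha.1 hb.1, O.mul_mem ha.2.1 hb.2.1, by
    rw [mul_inv]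
    exact O.mul_mem ha.2.2 hb.2.2⟩

theorem Un.inv {O : Subalgebra k Ω} {a : Ω} (ha : Un O a) : Un O a⁻¹ :=
  ⟨inv_ne_zero ha.1, ha.2.2, by rw [inv_inv]; exact ha.2.1⟩

theorem Un.pow {O : Subalgebra k Ω} {a : Ω} (ha : Un O a) (n : ℕ) : Un O (a ^ n) := by
  induction n with
  | zero => rw [pow_zero]; exact Un.one O
  | succ n ih => rw [pow_succ]; exact ih.mul ha

theorem Un.zpow {O : Subalgebra k Ω} {a : Ω} (ha : Un O a) (n : ℤ) : Un O (a ^ n) := by
  cases n with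
  | ofNat n =>
    rw [Int.ofNat_eq_natCast, zpow_natCast]
    exact ha.pow n
  | negSucc n =>
    rw [zpow_negSucc]
    exact (ha.pow (n + 1)).inv

theorem Un.prod {O : Subalgebra k Ω} {ι : Type*} (s : Finset ι) (f : ι → Ω)
    (h : ∀ i ∈ s, Un O (f i)) : Un O (∏ i ∈ s, f i) :=
  Finset.prod_induction f (Un O) (fun _ _ ha hb => ha.mul hb) (Un.one O) h

theorem Un.mono {O O' : Subalgebra k Ω} (h : O ≤ O') {a : Ω} (ha : Un O a) : Un O' a :=
  ⟨ha.1, h ha.2.1, h ha.2.2⟩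

/-- `a * b` is a unit of `O`, `a, b ∈ O`: both are units -/
theorem Un.of_mul {O : Subalgebra k Ω} {a b : Ω} (ha : a ∈ O) (hb : b ∈ O) (h : Un O (a * b)) :
    Un O a ∧ Un O b := by
  have ha0 : a ≠ 0 := left_ne_zero_of_mul h.1
  have hb0 : b ≠ 0 := right_ne_zero_of_mul h.1
  refine ⟨⟨ha0, ha, ?_⟩, ⟨hb0, hb, ?_⟩⟩
  · have h1 : a⁻¹ = b * (a * b)⁻¹ := by field_simp
    rw [h1]
    exact O.mul_mem hb h.2.2
  · have h1 : b⁻¹ = a * (a * b)⁻¹ := by field_simp
    rw [h1]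
    exact O.mul_mem ha h.2.2

theorem un_algebraMap (O : Subalgebra k Ω) {e : k} (he : e ≠ 0) : Un O (algebraMap k Ω e) :=
  ⟨(map_ne_zero _).2 he, O.algebraMap_mem e, by
    rw [← map_inv₀]
    exact O.algebraMap_mem _⟩

section loc

variable {R : Subalgebra k Ω} (φ : R →ₐ[k] k)

theorem le_loc : R ≤ Loc R φ := fun a ha =>
  ⟨⟨a, ha⟩, 1, by rw [map_one]; exact one_ne_zero, by rw [OneMemClass.coe_one, div_one]⟩

theorem mem_loc {a : Ω} : a ∈ Loc R φ ↔ ∃ b c : R, φ c ≠ 0 ∧ a = b / c := Iff.rfl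

theorem loc_ne {c : R} (hc : φ c ≠ 0) : (c : Ω) ≠ 0 := fun h =>
  hc (by rw [show c = 0 from Subtype.ext h, map_zero])

theorem un_loc (a : R) : Un (Loc R φ) (a : Ω) ↔ φ a ≠ 0 := by
  constructor
  · rintro ⟨h0, _, b, c, hc, hbc⟩ ha
    have hc0 := loc_ne φ hc
    have h1 : (c : Ω) = a * b := by
      have h2 : (a : Ω) * (b / c) = 1 := by rw [← hbc, mul_inv_cancel₀ h0]
      field_simp at h2
      exact h2.symm
    apply hc
    rw [show c = a * b from Subtype.ext h1, map_mul, ha, zero_mul]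
  · intro ha
    exact ⟨loc_ne φ ha, le_loc φ a.2, 1, a, ha, by rw [OneMemClass.coe_one, one_div]⟩

/-- `b / c = b' / c'` implies `φ b / φ c = φ b' / φ c'` -/
theorem loc_wd {b c b' c' : R} (hc : φ c ≠ 0) (hc' : φ c' ≠ 0)
    (h : (b : Ω) / c = b' / c') : φ b / φ c = φ b' / φ c' := by
  rw [div_eq_div_iff (loc_ne φ hc) (loc_ne φ hc')] at h
  have h1 : b * c' = b' * c := Subtype.ext h
  rw [div_eq_div_iff hc hc', ← map_mul, h1, map_mul]

/-- the residue map -/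
noncomputable def locRes (R : Subalgebra k Ω) (φ : R →ₐ[k] k) : Loc R φ →ₐ[k] k where
  toFun a := φ a.2.choose / φ a.2.choose_spec.choose
  map_one' := by
    have h := (1 : Loc R φ).2.choose_spec.choose_spec
    have h1 := loc_wd φ h.1 (b' := 1) (c' := 1) (by rw [map_one]; exact one_ne_zero) (by
      rw [← h.2, OneMemClass.coe_one, OneMemClass.coe_one, div_one])
    rw [h1, map_one, div_one]
  map_mul' a b := by
    have h := (a * b).2.choose_spec.choose_spec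
    have ha := a.2.choose_spec.choose_spec
    have hb := b.2.choose_spec.choose_spec
    have h1 := loc_wd φ h.1 (b' := a.2.choose * b.2.choose)
      (c' := a.2.choose_spec.choose * b.2.choose_spec.choose)
      (by rw [map_mul]; exact mul_ne_zero ha.1 hb.1) (by
        rw [← h.2, MulMemClass.coe_mul, MulMemClass.coe_mul, MulMemClass.coe_mul, mul_div_mul_comm,
          ← ha.2, ← hb.2])
    rw [h1, map_mul, map_mul, mul_div_mul_comm]
  map_zero' := by
    have h := (0 : Loc R φ).2.choose_spec.choose_spec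
    have h1 := loc_wd φ h.1 (b' := 0) (c' := 1) (by rw [map_one]; exact one_ne_zero) (by
      rw [← h.2, ZeroMemClass.coe_zero, ZeroMemClass.coe_zero, zero_div])
    rw [h1, map_zero, zero_div]
  map_add' a b := by
    have h := (a + b).2.choose_spec.choose_spec
    have ha := a.2.choose_spec.choose_spec
    have hb := b.2.choose_spec.choose_spec
    have h1 := loc_wd φ h.1 (b' := a.2.choose * b.2.choose_spec.choose +
        a.2.choose_spec.choose * b.2.choose)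
      (c' := a.2.choose_spec.choose * b.2.choose_spec.choose)
      (by rw [map_mul]; exact mul_ne_zero ha.1 hb.1) (by
        rw [← h.2, AddMemClass.coe_add, AddMemClass.coe_add, MulMemClass.coe_mul,
          MulMemClass.coe_mul, MulMemClass.coe_mul,
          ← div_add_div _ _ (loc_ne φ ha.1) (loc_ne φ hb.1), ← ha.2, ← hb.2])
    rw [h1, map_add, map_mul, map_mul, map_mul, ← div_add_div _ _ ha.1 hb.1]
  commutes' r := by
    have h := (algebraMap k (Loc R φ) r).2.choose_spec.choose_spec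
    have h1 := loc_wd φ h.1 (b' := algebraMap k R r) (c' := 1)
      (by rw [map_one]; exact one_ne_zero) (by
        rw [← h.2, OneMemClass.coe_one, div_one]
        rfl)
    rw [h1, map_one, div_one, AlgHom.commutes]

theorem locRes_div (b c : R) (hc : φ c ≠ 0) (a : Loc R φ) (ha : (a : Ω) = b / c) :
    locRes R φ a = φ b / φ c := by
  have h := a.2.choose_spec.choose_spec
  exact loc_wd φ h.1 hc (by rw [← h.2, ha])

theorem locRes_ne (a : Loc R φ) : locRes R φ a ≠ 0 ↔ Un (Loc R φ) (a : Ω) := by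
  constructor
  · intro h
    obtain ⟨b, c, hc, hbc⟩ := a.2
    rw [locRes_div φ b c hc a hbc] at h
    have hb : φ b ≠ 0 := fun h0 => h (by rw [h0, zero_div])
    refine ⟨?_, a.2, c, b, hb, ?_⟩
    · rw [hbc]
      exact div_ne_zero (loc_ne φ hb) (loc_ne φ hc)
    · rw [hbc, inv_div]
  · intro h h0
    have h1 : a * ⟨(a : Ω)⁻¹, h.2.2⟩ = 1 := Subtype.ext (mul_inv_cancel₀ h.1)
    have h2 := congrArg (locRes R φ) h1
    rw [map_mul, h0, zero_mul, map_one] at h2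
    exact zero_ne_one h2

/-- the residue map `b / c ↦ φ b / φ c` -/
theorem isPt_loc : IsPt (Loc R φ) := ⟨locRes R φ, locRes_ne φ⟩

end loc

/-- an algebra map to `k` does not vanish on units -/
theorem ne_of_un {O : Subalgebra k Ω} (φ : O →ₐ[k] k) (a : O) (h : Un O (a : Ω)) : φ a ≠ 0 := by
  intro h0
  have h1 : a * ⟨(a : Ω)⁻¹, h.2.2⟩ = 1 := Subtype.ext (mul_inv_cancel₀ h.1)
  have h2 := congrArg φ h1
  rw [map_mul, h0, zero_mul, map_one] at h2
  exact zero_ne_one h2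

namespace IsPt

variable {O : Subalgebra k Ω} (h : IsPt O)

include h

/-- every element of `O` is a constant plus a non-unit -/
theorem res (a : Ω) (ha : a ∈ O) : ∃ e : k, ¬ Un O (a - algebraMap k Ω e) := by
  obtain ⟨φ, hφ⟩ := h
  refine ⟨φ ⟨a, ha⟩, fun hu => ?_⟩
  have h1 := (hφ (⟨a, ha⟩ - algebraMap k O (φ ⟨a, ha⟩))).2 hu
  rw [map_sub, AlgHom.commutes] at h1
  exact h1 (sub_self _)

theorem res_unique (a : Ω) (e e' : k) (ha : a ∈ O) (h1 : ¬ Un O (a - algebraMap k Ω e))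
    (h2 : ¬ Un O (a - algebraMap k Ω e')) : e = e' := by
  obtain ⟨φ, hφ⟩ := h
  have key : ∀ e : k, ¬ Un O (a - algebraMap k Ω e) → φ ⟨a, ha⟩ = e := by
    intro e he
    by_contra h3
    apply he
    have h4 := (hφ (⟨a, ha⟩ - algebraMap k O e)).1 (by
      rw [map_sub, AlgHom.commutes]
      exact sub_ne_zero.2 h3)
    exact h4
  rw [← key e h1, key e' h2]

theorem add (a b : Ω) (ha : a ∈ O) (hb : b ∈ O) (h1 : ¬ Un O a) (h2 : ¬ Un O b) :
    ¬ Un O (a + b) := by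
  obtain ⟨φ, hφ⟩ := h
  have h3 : φ ⟨a, ha⟩ = 0 := by
    by_contra h4
    exact h1 ((hφ _).1 h4)
  have h5 : φ ⟨b, hb⟩ = 0 := by
    by_contra h4
    exact h2 ((hφ _).1 h4)
  intro hu
  have h6 := (hφ (⟨a, ha⟩ + ⟨b, hb⟩)).2 hu
  rw [map_add, h3, h5, add_zero] at h6
  exact h6 rfl

/-- `1 + a` is a unit if `a ∈ O` is not -/
theorem one_add (a : Ω) (ha : a ∈ O) (h1 : ¬ Un O a) : Un O (1 + a) := by
  obtain ⟨φ, hφ⟩ := h
  have h3 : φ ⟨a, ha⟩ = 0 := by
    by_contra h4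
    exact h1 ((hφ _).1 h4)
  have h4 := (hφ (1 + ⟨a, ha⟩)).1 (by
    rw [map_add, h3, map_one, add_zero]
    exact one_ne_zero)
  exact h4

theorem mul (a b : Ω) (ha : a ∈ O) (hb : b ∈ O) (h1 : ¬ Un O a) : ¬ Un O (a * b) :=
  fun hu => h1 (Un.of_mul ha hb hu).1

theorem sum {ι : Type*} (s : Finset ι) (f : ι → Ω) (h1 : ∀ i ∈ s, f i ∈ O ∧ ¬ Un O (f i)) :
    ¬ Un O (∑ i ∈ s, f i) := by
  have key : (∑ i ∈ s, f i) ∈ O ∧ ¬ Un O (∑ i ∈ s, f i) :=
    Finset.sum_induction f (fun a => a ∈ O ∧ ¬ Un O a)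
      (fun a b ha hb => ⟨O.add_mem ha.1 hb.1, h.add a b ha.1 hb.1 ha.2 hb.2⟩)
      ⟨O.zero_mem, fun h0 => h0.1 rfl⟩ h1
  exact key.2

/-- a subalgebra `R` of a local ring `O` with residue field `k`: the point of `R` under `O` -/
theorem exists_loc (R : Subalgebra k Ω) (hR : R ≤ O) :
    ∃ φ : R →ₐ[k] k, (∀ a : R, φ a ≠ 0 ↔ Un O (a : Ω)) ∧ Loc R φ ≤ O := by
  obtain ⟨φ, hφ⟩ := h
  have h1 : ∀ a : R, (φ.comp (Subalgebra.inclusion hR)) a ≠ 0 ↔ Un O (a : Ω) := fun a =>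
    hφ (Subalgebra.inclusion hR a)
  refine ⟨φ.comp (Subalgebra.inclusion hR), h1, ?_⟩
  rintro _ ⟨b, c, hc, rfl⟩
  rw [div_eq_mul_inv]
  exact O.mul_mem (hR b.2) ((h1 c).1 hc).2.2

/-- if moreover `O` consists of the quotients of elements of `R` whose denominators are units of
`O`, then `O = Loc R φ` -/
theorem exists_eq_loc (R : Subalgebra k Ω) (hR : R ≤ O)
    (h1 : ∀ a ∈ O, ∃ b ∈ R, ∃ c ∈ R, Un O c ∧ a = b / c) :
    ∃ φ : R →ₐ[k] k, (∀ a : R, φ a ≠ 0 ↔ Un O (a : Ω)) ∧ Loc R φ = O := by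
  obtain ⟨φ, hφ, hle⟩ := h.exists_loc R hR
  refine ⟨φ, hφ, le_antisymm hle fun a ha => ?_⟩
  obtain ⟨b, hb, c, hc, hu, rfl⟩ := h1 a ha
  exact ⟨⟨b, hb⟩, ⟨c, hc⟩, (hφ ⟨c, hc⟩).2 hu, rfl⟩

/-- a local ring of the form `IsPt` is its own localisation -/
theorem loc_self (φ : O →ₐ[k] k) : Loc O φ = O := by
  refine le_antisymm ?_ (le_loc φ)
  rintro _ ⟨b, c, hc, rfl⟩
  have hu : Un O (c : Ω) := by
    obtain ⟨ψ, hψ⟩ := h
    by_contra hn
    have h1 : ¬ Un O ((c - algebraMap k O (φ c) : O) : Ω) := fun hu => by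
      have h2 := ne_of_un φ _ hu
      rw [map_sub, AlgHom.commutes] at h2
      exact h2 (sub_self _)
    have h2 : ψ c = 0 := by
      by_contra h3
      exact hn ((hψ c).1 h3)
    have h3 : ψ (c - algebraMap k O (φ c)) = 0 := by
      by_contra h4
      exact h1 ((hψ _).1 h4)
    rw [map_sub, AlgHom.commutes, h2, zero_sub, neg_eq_zero] at h3
    exact hc h3
  rw [div_eq_mul_inv]
  exact O.mul_mem b.2 hu.2.2

end IsPt

/-- `O ≤ O'`, both local with residue field `k`: `O'` dominates `O` -/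
theorem IsPt.dom {O O' : Subalgebra k Ω} (h : IsPt O) (h' : IsPt O') (hle : O ≤ O') (a : Ω)
    (ha : a ∈ O) (hu : Un O' a) : Un O a := by
  obtain ⟨φ, hφ⟩ := h
  obtain ⟨ψ, hψ⟩ := h'
  have h1 : ψ ⟨a, hle ha⟩ ≠ 0 := (hψ _).2 hu
  set e := ψ ⟨a, hle ha⟩ with he
  have h2 : ¬ Un O' ((⟨a, hle ha⟩ - algebraMap k O' e : O') : Ω) := fun h3 => by
    have h4 := (hψ _).2 h3
    rw [map_sub, AlgHom.commutes, ← he] at h4
    exact h4 (sub_self _)
  have h3 : φ (⟨a, ha⟩ - algebraMap k O e) = 0 := by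
    by_contra h4
    exact h2 (((hφ _).1 h4).mono hle)
  rw [map_sub, AlgHom.commutes, sub_eq_zero] at h3
  exact (hφ ⟨a, ha⟩).1 (by rw [h3]; exact h1)

end Pool.Agent.KMR
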