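import Pool.Agent.Lib.MP_732f67_ag.R.Ref

/-!
Refinement of the charts: rings, orders, parameters.
-/

namespace Pool.Agent.KMR

variable {k Ω : Type} [Field k] [Field Ω] [Algebra k Ω]

namespace Mdl

variable {G : Subgroup (Ω ≃ₐ[k] Ω)} {M : Mdl k Ω G} {n : ℕ} {r : M.Rf} (N : ℕ)

/-- the labels which are not kept have units as equations -/
theorem ref_un (h : M.OkV) (hr : r.Ok) (i : r.I) (j : M.J) (hj : j ∈ M.S (r.idx i))
    (hj' : j ∉ r.T i) :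
    Un (Inv (M.R (r.idx i)) (r.g i : Ω)) (M.x (r.idx i) j : Ω) := by
  obtain ⟨m, hm⟩ := hr.off i j hj hj'
  refine ⟨Units.ne_zero _, le_inv _ _ (h.x_R _ j hj), ?_⟩
  rw [mem_inv (hr.g_mem i) (Units.ne_zero _)]
  exact ⟨m, by rwa [mul_comm, ← div_eq_mul_inv]⟩

/-- PROOF of `complete`: `exists_val` -/
theorem ref_okR [IsAlgClosed k] (h : M.OkR n) (hr : r.Ok) : (M.ref r N).OkR n where
  fin := hr.fin
  trd := h.trd
  fg i := inv_fg (h.fg _) _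
  le i a ha := by
    have hg : (r.g i : Ω) ∈ M.F := h.le _ _ (hr.g_mem i)
    obtain ⟨m, hm⟩ := (mem_inv (hr.g_mem i) (Units.ne_zero _)).1 ha
    have h1 : a = a * (r.g i : Ω) ^ m * ((r.g i : Ω) ^ m)⁻¹ := by
      rw [mul_assoc, mul_inv_cancel₀ (pow_ne_zero _ (Units.ne_zero _)), mul_one]
    rw [h1]
    exact M.F.mul_mem (h.le _ _ hm) (M.F.inv_mem (pow_mem hg m))
  frac i a ha := by
    obtain ⟨b, hb, d, hd, hd0, rfl⟩ := h.frac (r.idx i) a ha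
    exact ⟨b, le_inv _ _ hb, d, le_inv _ _ hd, hd0, rfl⟩
  complete V hV := by
    classical
    obtain ⟨c, hc⟩ := h.complete V hV
    have hfin : Finite r.I := hr.fin
    have hft : Fintype r.I := Fintype.ofFinite _
    obtain ⟨i, hi, -, hi'⟩ := exists_val (h.fg c) (Finset.univ.filter fun i => r.idx i = c)
      (fun i => (r.g i : Ω)) (fun i hi => by
        have h1 := (Finset.mem_filter.1 hi).2
        rw [← h1]
        exact hr.g_mem i) (fun φ => by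
        obtain ⟨i, hi, hu⟩ := hr.cov c φ
        exact ⟨i, Finset.mem_filter.2 ⟨Finset.mem_univ _, hi⟩, hu⟩) V hc
    have h1 := (Finset.mem_filter.1 hi).2
    refine ⟨i, fun a ha => ?_⟩
    obtain ⟨m, hm⟩ := (mem_inv (hr.g_mem i) (Units.ne_zero _)).1 ha
    have h2 : a = a * (r.g i : Ω) ^ m * ((r.g i : Ω)⁻¹) ^ m := by
      rw [inv_pow, mul_assoc, mul_inv_cancel₀ (pow_ne_zero _ (Units.ne_zero _)), mul_one]
    rw [h2]
    have h3 : a * (r.g i : Ω) ^ m ∈ M.R c := by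
      rw [← h1]
      exact hm
    exact V.mul_mem _ _ (hc _ h3) (pow_mem hi' m)

/-- PROOF of `unit`: if `v j a = 0` for `j ∈ T i`, write `a = e * ∏ x^(v j a)` on `R (idx i)`; the
`x j`, `j ∉ T i`, divide powers of `g i`. -/
theorem ref_okV (h : M.OkV) (hr : r.Ok) : (M.ref r N).OkV where
  Ψ_fg := h.Ψ_fg
  Ψ_F := h.Ψ_F
  x_Ψ i j hj := h.x_Ψ _ j (hr.sub i hj)
  x_R i j hj := le_inv _ _ (h.x_R _ j (hr.sub i hj))
  v_mul := h.v_mul
  v_x i j hj := h.v_x _ j (hr.sub i hj)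
  v_x' i j hj j' hj' hne := h.v_x' _ j (hr.sub i hj) j' (hr.sub i hj') hne
  unit i a ha hv := by
    obtain ⟨e, -, hu, hea⟩ := h.eq_monomial (r.idx i) a ha
    have h1 : (a : Ω) = (e : Ω) * ∏ j ∈ M.S (r.idx i), (M.x (r.idx i) j : Ω) ^ M.v j a := by
      conv_lhs => rw [hea]
      rw [Units.val_mul, Units.coe_prod]
      congr 1
      exact Finset.prod_congr rfl fun j _ => Units.val_zpow_eq_zpow_val _ _
    rw [h1]
    refine (hu.mono (le_inv _ _)).mul (Un.prod _ _ fun j hj => ?_)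
    by_cases hj' : j ∈ r.T i
    · have h2 : M.v j a = 0 := hv j hj'
      rw [h2, zpow_zero]
      exact Un.one _
    · exact (ref_un h hr i j hj hj').zpow _

theorem ref_at (h : M.OkV) (hr : r.Ok) (i : r.I) (φ : (M.ref r N).R i →ₐ[k] k)
    (ψ : M.R (r.idx i) →ₐ[k] k) (he : M.O (r.idx i) ψ = (M.ref r N).O i φ) (j : M.J) :
    M.At (r.idx i) ψ j ↔ (M.ref r N).At i φ j := by
  constructor
  · rintro ⟨h1, h2⟩
    rw [he] at h2
    have h3 : j ∈ r.T i := by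
      by_contra h3
      exact h2 ((ref_un h hr i j h1 h3).mono (le_loc φ))
    exact ⟨h3, h2⟩
  · rintro ⟨h1, h2⟩
    refine ⟨hr.sub i h1, ?_⟩
    rw [he]
    exact h2

/-- the points of the refined model are the points of `M`, with the same labels -/
theorem ref_pt (h : M.OkV) (hr : r.Ok) (i : r.I) (φ : (M.ref r N).R i →ₐ[k] k) :
    ∃ ψ : M.R (r.idx i) →ₐ[k] k, M.O (r.idx i) ψ = (M.ref r N).O i φ ∧
      ∀ j, M.At (r.idx i) ψ j ↔ (M.ref r N).At i φ j := by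
  obtain ⟨ψ, h1, -, -⟩ := inv_pt (hr.g_mem i) (Units.ne_zero _) φ
  exact ⟨ψ, h1, ref_at N h hr i φ ψ h1⟩

theorem pt_ref (h : M.OkV) (hr : r.Ok) (i : r.I) (ψ : M.R (r.idx i) →ₐ[k] k)
    (hu : Un (M.O (r.idx i) ψ) (r.g i : Ω)) :
    ∃ φ : (M.ref r N).R i →ₐ[k] k, M.O (r.idx i) ψ = (M.ref r N).O i φ ∧
      ∀ j, M.At (r.idx i) ψ j ↔ (M.ref r N).At i φ j := by
  obtain ⟨φ, h1, -⟩ := pt_inv (hr.g_mem i) ψ hu
  exact ⟨φ, h1, ref_at N h hr i φ ψ h1⟩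

theorem ref_okP (h : M.OkV) (hp : M.OkP n) (hr : r.Ok) : (M.ref r N).OkP n where
  par i φ := by
    obtain ⟨ψ, h1, h2⟩ := ref_pt N h hr i φ
    obtain ⟨z, hz, hz'⟩ := hp.par _ ψ
    rw [h1] at hz
    exact ⟨z, hz, fun j hj => hz' j ((h2 j).2 hj)⟩

theorem ref_deep (h : M.OkV) (hr : r.Ok) (hd : r.Deep) (i : r.I) :
    ∃ φ : (M.ref r N).R i →ₐ[k] k, ∀ j ∈ (M.ref r N).S i, (M.ref r N).At i φ j := by
  obtain ⟨ψ, h1, h2⟩ := hd i
  obtain ⟨φ, -, h3⟩ := pt_ref N h hr i ψ h1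
  exact ⟨φ, fun j hj => (h3 j).1 (h2 j hj)⟩

theorem ref_eqJ (h : M.EqJ) (hr : r.Ok) : (M.ref r N).EqJ where
  Ψ_g := h.Ψ_g
  v_g := h.v_g
  strict g i j hj hj' := h.strict g _ j (hr.sub i hj) (hr.sub i hj')

theorem ref_eqP (h : M.OkV) (hr : r.Ok) (he : M.EqP) : (M.ref r N).EqP := by
  intro g i φ
  obtain ⟨ψ, h1, h2⟩ := ref_pt N h hr i φ
  obtain ⟨c', ψ', h3, h4⟩ := he g _ ψ
  obtain ⟨i', rfl, hu⟩ := hr.cov c' ψ'
  obtain ⟨φ', h5, h6⟩ := pt_ref N h hr i' ψ' hu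
  refine ⟨i', φ', fun a => ?_, fun j => ?_⟩
  · rw [← h1, ← h5]
    exact h3 a
  · exact ((h2 j).symm.trans (h4 j)).trans (h6 _)

theorem ref_cmp (hr : r.Ok) (a : Ωˣ) (h : M.Cmp a) : (M.ref r N).Cmp a := by
  intro i
  rcases h (r.idx i) with h1 | h1
  · exact Or.inl fun j hj => h1 j (hr.sub i hj)
  · exact Or.inr fun j hj => h1 j (hr.sub i hj)

end Mdl

end Pool.Agent.KMR
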