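import Pool.Agent.Lib.MP_732f67_ag.R.RefA
import Pool.Agent.Lib.MP_732f67_ag.R.PsiS

/-!
Refinement of the charts: projectivity; and existence of refinements with deep points.
-/

namespace Pool.Agent.KMR

variable {k Ω : Type} [Field k] [Field Ω] [Algebra k Ω]

namespace Mdl

variable {G : Subgroup (Ω ≃ₐ[k] Ω)} {M : Mdl k Ω G} {n : ℕ} {r : M.Rf}

theorem RefS_ratio (r : M.Rf) (N : ℕ) (i i' : r.I) :
    (((M.ref r N).s i' : Ω) / (M.ref r N).s i) * (r.g i : Ω) =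
      (r.g i' : Ω) * (M.s (r.idx i') / M.s (r.idx i) : Ω) ^ N := by
  show (((M.s (r.idx i') ^ N * r.g i' : Ωˣ) : Ω) / ((M.s (r.idx i) ^ N * r.g i : Ωˣ) : Ω)) *
    (r.g i : Ω) = _
  have h1 : (r.g i : Ω) ≠ 0 := (r.g i).ne_zero
  have h2 : (M.s (r.idx i) : Ω) ≠ 0 := (M.s (r.idx i)).ne_zero
  push_cast
  field_simp
  rw [div_pow, mul_div_cancel₀ _ (pow_ne_zero N h2)]

theorem RefS_ratio_pow (r : M.Rf) (N m : ℕ) (i i' : r.I) :
    (((M.ref r N).s i' : Ω) / (M.ref r N).s i) ^ m * (r.g i : Ω) ^ m =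
      (r.g i' : Ω) ^ m * (M.s (r.idx i') / M.s (r.idx i) : Ω) ^ (N * m) := by
  rw [← mul_pow, RefS_ratio, mul_pow, ← pow_mul]

/-- powers of an element regular on the overlap -/
theorem RefS_pow (hs : M.OkS) (c c' : M.ι) (a : Ω) (N m N' : ℕ) (hN : N * m ≤ N')
    (h : a * (M.s c' / M.s c : Ω) ^ N ∈ M.R c) : a ^ m * (M.s c' / M.s c : Ω) ^ N' ∈ M.R c := by
  refine loc_mono hs c c' _ (N * m) N' hN ?_
  have h1 : a ^ m * (M.s c' / M.s c : Ω) ^ (N * m) = (a * (M.s c' / M.s c : Ω) ^ N) ^ m := by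
    rw [mul_pow, ← pow_mul]
  rw [h1]
  exact pow_mem h m

/-- PROOF. Choose `N₀` such that for all `i`, `i'`: `g i' * (s c' / s c) ^ N₀ ∈ R c`
(`c = idx i`, `c' = idx i'`; `s_loc`), and `N > N₀`.
`s_mem`: `(s c' / s c) ^ N * g i' / g i`.
`s_loc`: `a = b / g i ^ e`, `b ∈ R c`; for `N' ≥ e`
`a * (s i / s i') ^ N' = b (g i) ^ (N' - e) (s c / s c') ^ (N N') / g i' ^ N'`, where
`g i * (s c / s c') ^ N₀ ∈ R c'`, `b * (s c / s c') ^ N₁ ∈ R c'`, and
`N N' ≥ N₀ (N' - e) + N₁` for `N'` large.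
`s_x`: `j ∈ T i`, `j ∉ T i'`: if `j ∉ S c'` use `s_x` of `M`; if `j ∈ S c'`: `g i' ^ e / x c' j`
is in `R c'` (`off`), and `x c' j / x c j` is regular on the overlap (`psi_loc`). -/
theorem ref_okS (h : M.OkV) (hs : M.OkS) (hr : r.Ok) :
    ∃ N₀ : ℕ, ∀ N ≥ N₀, (M.ref r N).OkS := by
  classical
  have hfin : Finite r.I := hr.fin
  have : Fintype r.I := Fintype.ofFinite r.I
  choose e he using fun (i i' : r.I) =>
    hs.s_loc (r.idx i') (r.idx i) (r.g i' : Ω) (hr.g_mem i')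
  let N₀ : ℕ := ∑ i, ∑ i', e i i'
  have hN₀ : ∀ i i', e i i' ≤ N₀ := fun i i' =>
    (Finset.single_le_sum (f := fun i' => e i i') (fun _ _ => Nat.zero_le _)
      (Finset.mem_univ i')).trans
      (Finset.single_le_sum (f := fun i => ∑ i', e i i') (fun _ _ => Nat.zero_le _)
        (Finset.mem_univ i))
  have hg : ∀ i i' : r.I, (r.g i' : Ω) * (M.s (r.idx i') / M.s (r.idx i) : Ω) ^ N₀ ∈
      M.R (r.idx i) := fun i i' => loc_mono hs _ _ _ _ _ (hN₀ i i') (he i i')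
  refine ⟨N₀ + 1, fun N hN => ?_⟩
  have hmem : ∀ (i : r.I) (a : Ω), a ∈ (M.ref r N).R i ↔
      ∃ m : ℕ, a * (r.g i : Ω) ^ m ∈ M.R (r.idx i) := fun i a =>
    mem_inv (hr.g_mem i) (r.g i).ne_zero
  constructor
  · intro i i'
    rw [hmem]
    refine ⟨1, ?_⟩
    rw [pow_one, RefS_ratio]
    exact loc_mono hs _ _ _ _ _ (by omega) (hg i i')
  · intro i i' a ha
    obtain ⟨m, hm⟩ := (hmem i a).1 ha
    obtain ⟨N₁, hN₁⟩ := hs.s_loc (r.idx i) (r.idx i') _ hm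
    refine ⟨m + N₁, ?_⟩
    rw [hmem]
    refine ⟨m + N₁, ?_⟩
    have h1 : a * ((M.ref r N).s i / (M.ref r N).s i' : Ω) ^ (m + N₁) * (r.g i' : Ω) ^ (m + N₁) =
        (a * (r.g i : Ω) ^ m * (M.s (r.idx i) / M.s (r.idx i') : Ω) ^ N₁) *
          ((r.g i : Ω) ^ N₁ * (M.s (r.idx i) / M.s (r.idx i') : Ω) ^ (N * (m + N₁) - N₁)) := by
      rw [mul_assoc, RefS_ratio_pow]
      have h2 : N * (m + N₁) = N₁ + (N * (m + N₁) - N₁) := by
        have h3 : N₁ ≤ N * (m + N₁) := by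
          calc N₁ ≤ m + N₁ := Nat.le_add_left _ _
            _ ≤ N * (m + N₁) := Nat.le_mul_of_pos_left _ (by omega)
        omega
      conv_lhs => rw [h2, pow_add, pow_add]
      ring
    rw [h1]
    refine mul_mem hN₁ (RefS_pow hs _ _ _ N₀ N₁ _ ?_ (hg i' i))
    have h4 : (N₀ + 1) * (m + N₁) ≤ N * (m + N₁) := Nat.mul_le_mul_right _ hN
    have h5 : (N₀ + 1) * (m + N₁) = N₀ * N₁ + N₁ + (N₀ * m + m) := by ring
    omega
  · intro i i' j hj hj'
    have hjc : j ∈ M.S (r.idx i) := hr.sub i hj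
    by_cases hjS : j ∈ M.S (r.idx i')
    · obtain ⟨m, hm⟩ := hr.off i' j hjS hj'
      have hx1 := h.x_Ψ _ j hjc
      have hx2 := h.x_Ψ _ j hjS
      obtain ⟨N₁, hN₁⟩ := mul_loc h hs (r.idx i) (r.idx i')
        (M.x (r.idx i') j * (M.x (r.idx i) j)⁻¹) (mul_mem hx2 (inv_mem hx1)) (by
          intro l hl hl'
          rw [h.v_mul l _ hx2 _ (inv_mem hx1), h.v_inv l _ hx1]
          by_cases hlj : l = j
          · subst hlj
            rw [h.v_x _ _ hl, h.v_x _ _ hl']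
            norm_num
          · rw [h.v_x' _ l hl' j hjS hlj, h.v_x' _ l hl j hjc hlj]
            norm_num) _ hm
      refine ⟨m + N₁, ?_⟩
      rw [hmem]
      refine ⟨m + N₁, ?_⟩
      have hxn1 : (M.x (r.idx i) j : Ω) ≠ 0 := (M.x (r.idx i) j).ne_zero
      have hxn2 : (M.x (r.idx i') j : Ω) ≠ 0 := (M.x (r.idx i') j).ne_zero
      have h1 : ((M.ref r N).s i' / (M.ref r N).s i : Ω) ^ (m + N₁) / (M.ref r N).x i j *
          (r.g i : Ω) ^ (m + N₁) =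
          ((r.g i' : Ω) ^ m / M.x (r.idx i') j *
            ((M.x (r.idx i') j * (M.x (r.idx i) j)⁻¹ : Ωˣ) : Ω) *
            (M.s (r.idx i') / M.s (r.idx i) : Ω) ^ N₁) *
          ((r.g i' : Ω) ^ N₁ *
            (M.s (r.idx i') / M.s (r.idx i) : Ω) ^ (N * (m + N₁) - N₁)) := by
        show ((M.ref r N).s i' / (M.ref r N).s i : Ω) ^ (m + N₁) / (M.x (r.idx i) j : Ω) *
          (r.g i : Ω) ^ (m + N₁) = _
        rw [div_mul_eq_mul_div, RefS_ratio_pow]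
        have h2 : N * (m + N₁) = N₁ + (N * (m + N₁) - N₁) := by
          have h3 : N₁ ≤ N * (m + N₁) := by
            calc N₁ ≤ m + N₁ := Nat.le_add_left _ _
              _ ≤ N * (m + N₁) := Nat.le_mul_of_pos_left _ (by omega)
          omega
        conv_lhs => rw [h2, pow_add, pow_add]
        rw [Units.val_mul, Units.val_inv_eq_inv_val]
        field_simp
      rw [h1]
      refine mul_mem (hN₁ N₁ le_rfl) (RefS_pow hs _ _ _ N₀ N₁ _ ?_ (hg i i'))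
      have h4 : (N₀ + 1) * (m + N₁) ≤ N * (m + N₁) := Nat.mul_le_mul_right _ hN
      have h5 : (N₀ + 1) * (m + N₁) = N₀ * N₁ + N₁ + (N₀ * m + m) := by ring
      omega
    · obtain ⟨m, hm⟩ := hs.s_x (r.idx i) (r.idx i') j hjc hjS
      refine ⟨m, ?_⟩
      rw [hmem]
      refine ⟨m, ?_⟩
      have h1 : ((M.ref r N).s i' / (M.ref r N).s i : Ω) ^ m / (M.ref r N).x i j *
          (r.g i : Ω) ^ m =
          ((M.s (r.idx i') / M.s (r.idx i) : Ω) ^ m / M.x (r.idx i) j) *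
          ((r.g i' : Ω) ^ m *
            (M.s (r.idx i') / M.s (r.idx i) : Ω) ^ (N * m - m)) := by
        show ((M.ref r N).s i' / (M.ref r N).s i : Ω) ^ m / (M.x (r.idx i) j : Ω) *
          (r.g i : Ω) ^ m = _
        rw [div_mul_eq_mul_div, RefS_ratio_pow]
        have h2 : N * m = m + (N * m - m) := by
          have h3 : m ≤ N * m := Nat.le_mul_of_pos_left _ (by omega)
          omega
        conv_lhs => rw [h2, pow_add]
        ring
      rw [h1]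
      refine mul_mem hm (RefS_pow hs _ _ _ N₀ m _ ?_ (hg i i'))
      have h4 : (N₀ + 1) * m ≤ N * m := Nat.mul_le_mul_right _ hN
      have h5 : (N₀ + 1) * m = N₀ * m + m := by ring
      omega
  · intro i
    exact pow_mem (hs.m_Ψ _) N
  · intro i
    have hle := le_inv (M.R (r.idx i)) (r.g i : Ω)
    have h1 : Un (Inv (M.R (r.idx i)) (r.g i : Ω)) (r.g i : Ω) :=
      ⟨(r.g i).ne_zero, hle (hr.g_mem i), by
        rw [mem_inv (hr.g_mem i) (r.g i).ne_zero]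
        refine ⟨1, ?_⟩
        rw [pow_one, inv_mul_cancel₀ (r.g i).ne_zero]
        exact one_mem _⟩
    have h2 := ((hs.m_s (r.idx i)).mono hle).pow N
    have h3 : (((M.ref r N).s i : Ω) / (M.ref r N).m i) =
        (M.s (r.idx i) / M.m (r.idx i) : Ω) ^ N * (r.g i : Ω) := by
      show (((M.s (r.idx i) ^ N * r.g i : Ωˣ) : Ω) / ((M.m (r.idx i) ^ N : Ωˣ) : Ω)) = _
      push_cast
      rw [div_pow]
      ring
    rw [h3]
    exact h2.mul h1
  · intro i j hj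
    show M.v j (M.m (r.idx i) ^ N) = -((N : ℤ) * M.h j)
    rw [← zpow_natCast, h.v_zpow j _ (hs.m_Ψ _), hs.m_v _ j (hr.sub i hj)]
    ring

theorem ref_ok0 [IsAlgClosed k] (h : M.Ok0 n) (hr : r.Ok) :
    ∃ N₀ : ℕ, ∀ N ≥ N₀, (M.ref r N).Ok0 n := by
  obtain ⟨N₀, h1⟩ := ref_okS h.toOkV h.toOkS hr
  exact ⟨N₀, fun N hN => ⟨ref_okR N h.toOkR hr, ref_okV N h.toOkV hr,
    ref_okP N h.toOkV h.toOkP hr, h1 N hN⟩⟩

/-- all together -/
theorem ref_good [IsAlgClosed k] (h : M.Ok0 n) (hJ : M.EqJ) (he : M.EqP) (hF : M.EqF)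
    (hr : r.Ok) (hd : r.Deep) : ∃ N₀ : ℕ, ∀ N ≥ N₀, (M.ref r N).Good n := by
  obtain ⟨N₀, h1⟩ := ref_ok0 h hr
  exact ⟨N₀, fun N hN => ⟨⟨h1 N hN, ref_deep N h.toOkV hr hd⟩, ref_eqJ N hJ hr,
    ref_eqP N h.toOkV hr he, hF⟩⟩

/-- the refinement which creates deep points: the charts are `(c, T)`, where `T` is the set of the
labels through some point of `c`, with `g = ∏ j ∈ S c \ T, x c j` -/
theorem exists_deep [IsAlgClosed k] (h : M.Ok0 n) : ∃ r : M.Rf, r.Ok ∧ r.Deep := by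
  classical
  have hfin : Finite M.ι := h.toOkR.fin
  let I : Type := {p : (Σ c : M.ι, {T // T ∈ (M.S c).powerset}) //
    ∃ φ : M.R p.1 →ₐ[k] k, ∀ j, j ∈ p.2.1 ↔ M.At p.1 φ j}
  let r : M.Rf :=
    { I := I
      idx := fun i => i.1.1
      g := fun i => ∏ j ∈ M.S i.1.1 \ i.1.2.1, M.x i.1.1 j
      T := fun i => i.1.2.1 }
  have hcoe : ∀ (c : M.ι) (s : Finset M.J),
      ((∏ j ∈ s, M.x c j : Ωˣ) : Ω) = ∏ j ∈ s, (M.x c j : Ω) := fun c s => Units.coe_prod _ _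
  refine ⟨r, ?_, ?_⟩
  · refine ⟨?_, ?_, ?_, ?_, ?_⟩
    · show Finite I
      infer_instance
    · intro i
      show ((∏ j ∈ M.S i.1.1 \ i.1.2.1, M.x i.1.1 j : Ωˣ) : Ω) ∈ M.R i.1.1
      rw [hcoe]
      exact prod_mem fun j hj => h.toOkV.x_R _ j (Finset.mem_sdiff.1 hj).1
    · intro i
      exact Finset.mem_powerset.1 i.1.2.2
    · intro c φ
      refine ⟨⟨⟨c, (M.S c).filter (fun j => M.At c φ j), Finset.mem_powerset.2
        (Finset.filter_subset _ _)⟩, φ, fun j => ?_⟩, rfl, ?_⟩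
      · rw [Finset.mem_filter]
        exact ⟨fun hj => hj.2, fun hj => ⟨hj.1, hj⟩⟩
      · show Un (M.O c φ)
          ((∏ j ∈ M.S c \ (M.S c).filter (fun j => M.At c φ j), M.x c j : Ωˣ) : Ω)
        rw [hcoe]
        refine Un.prod _ _ (fun j hj => ?_)
        rw [Finset.mem_sdiff, Finset.mem_filter] at hj
        by_contra hcon
        exact hj.2 ⟨hj.1, hj.1, hcon⟩
    · intro i j hj hj'
      refine ⟨1, ?_⟩
      show ((∏ j ∈ M.S i.1.1 \ i.1.2.1, M.x i.1.1 j : Ωˣ) : Ω) ^ 1 / (M.x i.1.1 j : Ω) ∈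
        M.R i.1.1
      have hjm : j ∈ M.S i.1.1 \ i.1.2.1 := Finset.mem_sdiff.2 ⟨hj, hj'⟩
      rw [pow_one, hcoe, ← Finset.mul_prod_erase _ _ hjm, mul_div_right_comm,
        div_self (M.x i.1.1 j).ne_zero, one_mul]
      exact prod_mem fun l hl =>
        h.toOkV.x_R _ l (Finset.mem_sdiff.1 (Finset.mem_of_mem_erase hl)).1
  · intro i
    obtain ⟨φ, hφ⟩ := i.2
    refine ⟨φ, ?_, fun j hj => (hφ j).1 hj⟩
    show Un (M.O i.1.1 φ) ((∏ j ∈ M.S i.1.1 \ i.1.2.1, M.x i.1.1 j : Ωˣ) : Ω)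
    rw [hcoe]
    refine Un.prod _ _ (fun j hj => ?_)
    rw [Finset.mem_sdiff] at hj
    by_contra hcon
    exact hj.2 ((hφ j).2 ⟨hj.1, hcon⟩)

end Mdl

end Pool.Agent.KMR
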