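import Pool.Agent.Lib.MP_732f67_ag.R.RegK

/-!
Consequences of the Taylor expansion: the ideals generated by parameters are prime.
-/

namespace Pool.Agent.KMR

variable {k Ω : Type} [Field k] [Field Ω] [Algebra k Ω]

/-- PROOF: pass to power series. `k[[X]] / (X i, i ∈ T)` is a domain: look at the power series
without the variables `X i`. -/
theorem reg_of_tay' {O : Subalgebra k Ω} {n : ℕ} {z : Fin n → Ω} {τ} (h : IsTay O z τ) :
    (∀ (T : Finset (Fin n)), ∀ a ∈ O, ∀ b ∈ O,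
    (∃ c : Fin n → Ω, (∀ i, c i ∈ O) ∧ a * b = ∑ i ∈ T, c i * z i) →
      (∃ c : Fin n → Ω, (∀ i, c i ∈ O) ∧ a = ∑ i ∈ T, c i * z i) ∨
      (∃ c : Fin n → Ω, (∀ i, c i ∈ O) ∧ b = ∑ i ∈ T, c i * z i)) ∧
    (∀ (T : Finset (Fin n)) (j : Fin n), j ∉ T →
    ¬ ∃ c : Fin n → Ω, (∀ i, c i ∈ O) ∧ z j = ∑ i ∈ T, c i * z i) :=
  ⟨fun T a ha b hb hab => h.sprime T a ha b hb hab, fun T j hj => h.sindep T j hj⟩

end Pool.Agent.KMR
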