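import Pool.Agent.Lib.MP_732f67_ag.R.RegA
import Pool.Agent.Lib.MP_732f67_ag.R.RegB
import Pool.Agent.Lib.MP_732f67_ag.R.Norm

/-!
Regularity of the local rings: summary.
-/

namespace Pool.Agent.KMR

variable {k Ω : Type} [Field k] [Field Ω] [Algebra k Ω]

/-- the consequences of `IsTay` which are used -/
structure Reg (O : Subalgebra k Ω) {n : ℕ} (z : Fin n → Ω) : Prop where
  ne : ∀ i, z i ≠ 0
  /-- `z i` is a prime element -/
  prime : ∀ i, ∀ a ∈ O, ∀ b ∈ O, a * b / z i ∈ O → a / z i ∈ O ∨ b / z i ∈ O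
  /-- different parameters do not divide each other -/
  indep : ∀ i j, i ≠ j → z j / z i ∉ O
  /-- the order along `z i` is finite -/
  fin : ∀ i, ∀ a ∈ O, a ≠ 0 → ∃ N : ℕ, a / z i ^ N ∉ O
  /-- the ideals generated by some of the parameters are prime, and do not contain the others -/
  sprime : ∀ (T : Finset (Fin n)), ∀ a ∈ O, ∀ b ∈ O,
    (∃ c : Fin n → Ω, (∀ i, c i ∈ O) ∧ a * b = ∑ i ∈ T, c i * z i) →
      (∃ c : Fin n → Ω, (∀ i, c i ∈ O) ∧ a = ∑ i ∈ T, c i * z i) ∨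
      (∃ c : Fin n → Ω, (∀ i, c i ∈ O) ∧ b = ∑ i ∈ T, c i * z i)
  sindep : ∀ (T : Finset (Fin n)) (j : Fin n), j ∉ T →
    ¬ ∃ c : Fin n → Ω, (∀ i, c i ∈ O) ∧ z j = ∑ i ∈ T, c i * z i
  /-- `O` is integrally closed in its field of fractions -/
  normal : ∀ a ∈ O, ∀ b ∈ O, b ≠ 0 → IsIntegral O (a / b) → a / b ∈ O

theorem reg_of_par [IsAlgClosed k] [CharZero k] {R : Subalgebra k Ω} {n : ℕ} (h : Dim R n)
    (φ : R →ₐ[k] k) (z : Fin n → Ω) (hz : Par (Loc R φ) z) : Reg (Loc R φ) z := by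
  obtain ⟨τ, hτ⟩ := exists_tay h φ z hz
  obtain ⟨h1, h2, h3, h4⟩ := reg_of_tay hτ
  obtain ⟨h5, h6⟩ := reg_of_tay' hτ
  exact ⟨h1, h2, h3, h4, h5, h6, normal_loc h φ z hz⟩

end Pool.Agent.KMR
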