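import Pool.Agent.Lib.MP_732f67_ag.R.RegK

/-!
Consequences of the Taylor expansion: the parameters are prime elements.
-/

namespace Pool.Agent.KMR

variable {k Ω : Type} [Field k] [Field Ω] [Algebra k Ω]

/-- PROOF (all but `normal`): pass to power series. `k[[X]] / (X i, i ∈ T)` is a domain: look at
the power series without the variables `X i`. -/
theorem reg_of_tay {O : Subalgebra k Ω} {n : ℕ} {z : Fin n → Ω} {τ} (h : IsTay O z τ) :
    (∀ i, z i ≠ 0) ∧ (∀ i, ∀ a ∈ O, ∀ b ∈ O, a * b / z i ∈ O → a / z i ∈ O ∨ b / z i ∈ O) ∧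
      (∀ i j, i ≠ j → z j / z i ∉ O) ∧ (∀ i, ∀ a ∈ O, a ≠ 0 → ∃ N : ℕ, a / z i ^ N ∉ O) := by
  refine ⟨h.z_ne, fun i a ha b hb hab => ?_, fun i j hij hc => ?_, fun i a ha h0 =>
    h.fin_order i a ha h0⟩
  · rw [h.div_iff] at hab
    rw [h.div_iff, h.div_iff]
    exact h.sprime {i} a ha b hb hab
  · rw [h.div_iff] at hc
    exact h.sindep {i} j (by
      rw [Finset.mem_singleton]
      exact fun e => hij e.symm) hc

end Pool.Agent.KMR
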