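import Pool.Agent.Lib.MP_732f67_ag.R.Tay

/-!
Power series modulo some of the variables; membership in the ideals generated by parameters.
-/

namespace Pool.Agent.KMR

variable {k Ω : Type} [Field k] [Field Ω] [Algebra k Ω]

open Finset

/-- kill the variables `X i`, `i ∈ T` -/
noncomputable def kil {n : ℕ} (T : Finset (Fin n)) (f : MvPowerSeries (Fin n) k) :
    MvPowerSeries (Fin n) k :=
  fun α => if ∀ i ∈ T, α i = 0 then MvPowerSeries.coeff α f else 0

theorem coeff_kil {n : ℕ} (T : Finset (Fin n)) (f : MvPowerSeries (Fin n) k) (α : Fin n →₀ ℕ) :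
    MvPowerSeries.coeff α (kil T f) = if ∀ i ∈ T, α i = 0 then MvPowerSeries.coeff α f else 0 :=
  rfl

theorem kil_mul {n : ℕ} (T : Finset (Fin n)) (f g : MvPowerSeries (Fin n) k) :
    kil T (f * g) = kil T f * kil T g := by
  classical
  ext α
  rw [coeff_kil, MvPowerSeries.coeff_mul, MvPowerSeries.coeff_mul]
  split_ifs with h
  · refine Finset.sum_congr rfl fun p hp => ?_
    rw [Finset.HasAntidiagonal.mem_antidiagonal] at hp
    have h1 : ∀ i ∈ T, p.1 i = 0 := by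
      intro i hi
      have := h i hi
      rw [← hp, Finsupp.add_apply] at this
      omega
    have h2 : ∀ i ∈ T, p.2 i = 0 := by
      intro i hi
      have := h i hi
      rw [← hp, Finsupp.add_apply] at this
      omega
    rw [coeff_kil, coeff_kil, if_pos h1, if_pos h2]
  · symm
    refine Finset.sum_eq_zero fun p hp => ?_
    rw [Finset.HasAntidiagonal.mem_antidiagonal] at hp
    rw [coeff_kil, coeff_kil]
    by_cases h1 : ∀ i ∈ T, p.1 i = 0
    · by_cases h2 : ∀ i ∈ T, p.2 i = 0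
      · exfalso
        apply h
        intro i hi
        rw [← hp, Finsupp.add_apply, h1 i hi, h2 i hi]
      · rw [if_neg h2, mul_zero]
    · rw [if_neg h1, zero_mul]

theorem kil_sum {n : ℕ} (T : Finset (Fin n)) {ι : Type*} (s : Finset ι)
    (f : ι → MvPowerSeries (Fin n) k) : kil T (∑ i ∈ s, f i) = ∑ i ∈ s, kil T (f i) := by
  classical
  ext α
  rw [coeff_kil, map_sum, map_sum]
  simp only [coeff_kil]
  split_ifs with h
  · rfl
  · rw [Finset.sum_const_zero]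

theorem kil_X {n : ℕ} (T : Finset (Fin n)) (i : Fin n) (hi : i ∈ T) :
    kil T (MvPowerSeries.X i : MvPowerSeries (Fin n) k) = 0 := by
  classical
  ext α
  rw [coeff_kil, MvPowerSeries.coeff_X, map_zero]
  split_ifs with h h1
  · exfalso
    have := h i hi
    rw [h1, Finsupp.single_eq_same] at this
    exact one_ne_zero this
  · rfl
  · rfl

theorem kil_X' {n : ℕ} (T : Finset (Fin n)) (i : Fin n) (hi : i ∉ T) :
    kil T (MvPowerSeries.X i : MvPowerSeries (Fin n) k) ≠ 0 := by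
  classical
  intro h
  have h1 := congrArg (MvPowerSeries.coeff (Finsupp.single i 1)) h
  rw [coeff_kil, map_zero, if_pos, MvPowerSeries.coeff_X, if_pos rfl] at h1
  · exact one_ne_zero h1
  · intro j hj
    exact Finsupp.single_eq_of_ne (fun h => hi (h ▸ hj))

theorem kil_eq_zero {n : ℕ} (T : Finset (Fin n)) (f : MvPowerSeries (Fin n) k) (h : kil T f = 0)
    (α : Fin n →₀ ℕ) (hα : MvPowerSeries.coeff α f ≠ 0) : ∃ i ∈ T, α i ≠ 0 := by
  by_contra hc
  push Not at hc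
  have h1 := congrArg (MvPowerSeries.coeff α) h
  rw [coeff_kil, map_zero, if_pos hc] at h1
  exact hα h1

namespace IsTay

variable {O : Subalgebra k Ω} {n : ℕ} {z : Fin n → Ω} {τ : O →ₐ[k] MvPowerSeries (Fin n) k}
  (h : IsTay O z τ)

include h

theorem mem_iff (T : Finset (Fin n)) (a : Ω) (ha : a ∈ O) :
    (∃ c : Fin n → Ω, (∀ i, c i ∈ O) ∧ a = ∑ i ∈ T, c i * z i) ↔ kil T (τ ⟨a, ha⟩) = 0 := by
  constructor
  · rintro ⟨c, hc, hca⟩
    have h1 : (⟨a, ha⟩ : O) = ∑ i ∈ T, ⟨c i, hc i⟩ * ⟨z i, h.z_O i⟩ := by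
      refine Subtype.ext ?_
      rw [AddSubmonoidClass.coe_finsetSum]
      exact hca
    rw [h1, map_sum, kil_sum]
    refine Finset.sum_eq_zero fun i hi => ?_
    rw [map_mul, kil_mul, h.z_X, kil_X T i hi, mul_zero]
  · intro h1
    exact h.mem T ⟨a, ha⟩ (kil_eq_zero T _ h1)

theorem sprime (T : Finset (Fin n)) (a : Ω) (ha : a ∈ O) (b : Ω) (hb : b ∈ O)
    (hab : ∃ c : Fin n → Ω, (∀ i, c i ∈ O) ∧ a * b = ∑ i ∈ T, c i * z i) :
    (∃ c : Fin n → Ω, (∀ i, c i ∈ O) ∧ a = ∑ i ∈ T, c i * z i) ∨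
      (∃ c : Fin n → Ω, (∀ i, c i ∈ O) ∧ b = ∑ i ∈ T, c i * z i) := by
  rw [h.mem_iff T _ (mul_mem ha hb)] at hab
  have h1 : (⟨a * b, mul_mem ha hb⟩ : O) = ⟨a, ha⟩ * ⟨b, hb⟩ := rfl
  rw [h1, map_mul, kil_mul, mul_eq_zero] at hab
  rw [h.mem_iff T _ ha, h.mem_iff T _ hb]
  exact hab

theorem sindep (T : Finset (Fin n)) (j : Fin n) (hj : j ∉ T) :
    ¬ ∃ c : Fin n → Ω, (∀ i, c i ∈ O) ∧ z j = ∑ i ∈ T, c i * z i := by
  rw [h.mem_iff T _ (h.z_O j), h.z_X]
  exact kil_X' T j hj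

theorem z_ne (i : Fin n) : z i ≠ 0 := by
  intro h0
  refine h.sindep ∅ i (Finset.notMem_empty i) ⟨fun _ => 0, fun _ => zero_mem _, ?_⟩
  rw [h0, Finset.sum_empty]

theorem div_iff (i : Fin n) (a : Ω) :
    a / z i ∈ O ↔ ∃ c : Fin n → Ω, (∀ i, c i ∈ O) ∧ a = ∑ i ∈ {i}, c i * z i := by
  constructor
  · intro h1
    refine ⟨fun _ => a / z i, fun _ => h1, ?_⟩
    rw [Finset.sum_singleton, div_mul_cancel₀ _ (h.z_ne i)]
  · rintro ⟨c, hc, h1⟩
    rw [h1, Finset.sum_singleton, mul_div_cancel_right₀ _ (h.z_ne i)]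
    exact hc i

theorem eq_zero (a : Ω) (ha : a ∈ O) (h0 : τ ⟨a, ha⟩ = 0) : a = 0 := by
  obtain ⟨c, _, h1⟩ := h.mem ∅ ⟨a, ha⟩ (fun α hα => by
    rw [h0, map_zero] at hα
    exact absurd rfl hα)
  rw [Finset.sum_empty] at h1
  exact h1

theorem fin_order (i : Fin n) (a : Ω) (ha : a ∈ O) (h0 : a ≠ 0) : ∃ N : ℕ, a / z i ^ N ∉ O := by
  by_contra hc
  push Not at hc
  apply h0
  apply h.eq_zero a ha
  rw [← MvPowerSeries.order_eq_top_iff, ENat.eq_top_iff_forall_ge]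
  intro N
  have h1 : (⟨a, ha⟩ : O) = ⟨a / z i ^ N, hc N⟩ * ⟨z i, h.z_O i⟩ ^ N := by
    refine Subtype.ext ?_
    change a = a / z i ^ N * z i ^ N
    rw [div_mul_cancel₀ _ (pow_ne_zero _ (h.z_ne i))]
  rw [h1, map_mul, map_pow, h.z_X]
  refine le_trans ?_ MvPowerSeries.le_order_mul
  have h2 : (N : ℕ∞) ≤ ((MvPowerSeries.X i : MvPowerSeries (Fin n) k) ^ N).order := by
    classical
    refine MvPowerSeries.le_order fun d hd => ?_
    rw [MvPowerSeries.coeff_X_pow, if_neg]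
    rintro rfl
    rw [Finsupp.degree_single] at hd
    exact lt_irrefl _ hd
  exact le_trans h2 le_add_self

end IsTay

end Pool.Agent.KMR
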