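import Pool.Agent.Lib.MP_732f67_ag.R.Fib

/-!
Adding a section `w = c` to a fibration: definitions.
`l d` is a section nearest to the chart `d`; `u = (w - l) / (c - l)` or its inverse is regular on
the chart; the new divisor is `u = 1`, given by
`q = (w - c) / (c - l) = u - 1` or by `q = (w - c) / (w - l) = 1 - u⁻¹`.
-/

namespace Pool.Agent.KMR

variable {k Ω : Type} [Field k] [Field Ω] [Algebra k Ω]

namespace Mdl

variable {G : Subgroup (Ω ≃ₐ[k] Ω)} {n : ℕ}

variable (M : Mdl k Ω G) (w : Ωˣ) (c : Ω) (l : M.ι → Ω)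

/-- `u` is regular on the chart `d` -/
def BigS (d : M.ι) : Prop := ∀ j ∈ M.S d, M.v j (sb c (l d)) ≤ M.v j (sb (w : Ω) (l d))

open Classical in
/-- local equations of the new divisor -/
noncomputable def qS (d : M.ι) : Ωˣ :=
  if M.BigS w c l d then sb (w : Ω) c * (sb c (l d))⁻¹ else sb (w : Ω) c * (sb (w : Ω) (l d))⁻¹

open Classical in
/-- the labels along which `u` has a zero or a pole: they do not meet the new divisor -/
noncomputable def ES (d : M.ι) : Finset M.J :=
  (M.S d).filter (fun j => M.v j (sb (w : Ω) (l d)) ≠ M.v j (sb c (l d)))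

open Classical in
/-- the order of `w - c` along the label `j` -/
noncomputable def μS (j : M.J) : ℤ :=
  if h : ∃ d, j ∈ M.S d then
    min (M.v j (sb (w : Ω) (l h.choose))) (M.v j (sb c (l h.choose))) else 0

open Classical in
/-- the refinement: on `(d, false)` the new divisor is removed, on `(d, true)` the labels of
`ES d` are removed -/
noncomputable def rS : M.Rf where
  I := M.ι × Bool
  idx := Prod.fst
  g i := if i.2 then ∏ j ∈ M.ES w c l i.1, M.x i.1 j else M.qS w c l i.1
  T i := if i.2 then M.S i.1 \ M.ES w c l i.1 else M.S i.1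

/-- the situation -/
structure SecOk (n : ℕ) (B : IntermediateField k Ω) (D : Derivation k Ω Ω) (C : Finset Ω) :
    Prop where
  good : M.Good n
  fib : M.Fib B w D C
  fibD : FibD B w D
  c_B : c ∈ B
  c_C : c ∉ C
  c_G : ∀ g : G, (g : Ω ≃ₐ[k] Ω) c = c
  c_Ψ : ∀ a ∈ C, sb c a ∈ M.Ψ
  c_Ψ' : ∀ a ∈ C, sb a c ∈ M.Ψ
  near : ∀ d, M.Near w D C d (l d)
  cmp : ∀ d, M.BigS w c l d ∨ ∀ j ∈ M.S d, M.v j (sb (w : Ω) (l d)) ≤ M.v j (sb c (l d))

end Mdl

end Pool.Agent.KMR
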