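import Pool.Agent.Lib.MP_732f67_ag.R.Sec
import Pool.Agent.Lib.MP_732f67_ag.R.PsiD
import Pool.Agent.Lib.MP_732f67_ag.R.LabT

/-!
Adding a section: orders, and the local equations.
-/

namespace Pool.Agent.KMR

variable {k Ω : Type} [Field k] [Field Ω] [Algebra k Ω]

namespace Mdl

variable {G : Subgroup (Ω ≃ₐ[k] Ω)} {n : ℕ} {M : Mdl k Ω G} {w : Ωˣ} {c : Ω} {l : M.ι → Ω}
  {B : IntermediateField k Ω} {D : Derivation k Ω Ω} {C : Finset Ω}

theorem secA_mem (h : M.SecOk w c l n B D C) (d : M.ι) : l d ∈ C := (h.near d).1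

theorem secA_wl (h : M.SecOk w c l n B D C) {l' : Ω} (hl : l' ∈ C) :
    (sb (w : Ω) l' : Ω) = w - l' := sb_val (h.fib.ne h.fibD l' (h.fib.C_B l' hl))

theorem secA_wc (h : M.SecOk w c l n B D C) : (sb (w : Ω) c : Ω) = w - c :=
  sb_val (h.fib.ne h.fibD c h.c_B)

theorem secA_cne (h : M.SecOk w c l n B D C) {l' : Ω} (hl : l' ∈ C) : c ≠ l' := fun h0 =>
  h.c_C (h0 ▸ hl)

theorem secA_cl (h : M.SecOk w c l n B D C) {l' : Ω} (hl : l' ∈ C) :
    (sb c l' : Ω) = c - l' := sb_val (secA_cne h hl)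

/-- `min (v (w - l)) (v (c - l))` is the same for two nearest sections.
PROOF. `l₂ - l₁ = (w - l₁) - (w - l₂)` has order `≥ ν := v (w - l₁) = v (w - l₂)` (`v_sub`,
`C_C`), and `c - l₁ = (c - l₂) + (l₂ - l₁)`, so `v (c - l₁) ≥ min (v (c - l₂)) ν` (`v_add`), and
symmetrically. -/
theorem sec_min [IsAlgClosed k] [CharZero k] (h : M.SecOk w c l n B D C) (d : M.ι) (j : M.J)
    (hj : j ∈ M.S d) (l₁ l₂ : Ω) (h₁ : l₁ ∈ C) (h₂ : l₂ ∈ C)
    (he : M.v j (sb (w : Ω) l₁) = M.v j (sb (w : Ω) l₂)) :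
    min (M.v j (sb (w : Ω) l₁)) (M.v j (sb c l₁)) =
      min (M.v j (sb (w : Ω) l₂)) (M.v j (sb c l₂)) := by
  have key : ∀ l₁ l₂ : Ω, l₁ ∈ C → l₂ ∈ C → M.v j (sb (w : Ω) l₁) = M.v j (sb (w : Ω) l₂) →
      min (M.v j (sb (w : Ω) l₁)) (M.v j (sb c l₁)) ≤
        min (M.v j (sb (w : Ω) l₂)) (M.v j (sb c l₂)) := by
    intro l₁ l₂ h₁ h₂ he
    by_cases hll : l₁ = l₂
    · rw [hll]
    have hne : l₁ ≠ l₂ := hll
    have h3 := h.good.toOk.v_sub d (sb (w : Ω) l₂) (sb (w : Ω) l₁) (sb l₁ l₂)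
      (h.fib.C_Ψ l₂ h₂) (h.fib.C_Ψ l₁ h₁) (h.fib.C_C l₁ h₁ l₂ h₂ hne) (by
        rw [secA_wl h h₂, secA_wl h h₁, sb_val hne]
        ring) j hj
    have h4 := h.good.toOk.v_add d (sb c l₁) (sb l₁ l₂) (sb c l₂)
      (h.c_Ψ l₁ h₁) (h.fib.C_C l₁ h₁ l₂ h₂ hne) (h.c_Ψ l₂ h₂) (by
        rw [secA_cl h h₁, secA_cl h h₂, sb_val hne]
        ring) j hj
    rw [he, min_self] at h3
    rw [he]
    refine le_min (min_le_left _ _) ?_
    refine le_trans ?_ h4
    exact le_min (min_le_right _ _) (le_trans (min_le_left _ _) h3)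
  exact le_antisymm (key l₁ l₂ h₁ h₂ he) (key l₂ l₁ h₂ h₁ he.symm)

theorem μS_eq [IsAlgClosed k] [CharZero k] (h : M.SecOk w c l n B D C) (d : M.ι) (j : M.J)
    (hj : j ∈ M.S d) :
    M.μS w c l j = min (M.v j (sb (w : Ω) (l d))) (M.v j (sb c (l d))) := by
  have hex : ∃ d, j ∈ M.S d := ⟨d, hj⟩
  unfold μS
  rw [dif_pos hex]
  refine sec_min h d j hj _ _ (secA_mem h _) (secA_mem h d) ?_
  exact le_antisymm ((h.near d).2.1 _ (secA_mem h _) j hj)
    ((h.near _).2.1 _ (secA_mem h d) j hex.choose_spec)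

theorem secA_ga (g : G) {a b : Ω} (ha : (g : Ω ≃ₐ[k] Ω) a = a)
    (hb : (g : Ω ≃ₐ[k] Ω) b = b) : ga (g : Ω ≃ₐ[k] Ω) (sb a b) = sb a b := by
  by_cases hab : a = b
  · have h1 : sb a b = 1 := by
      unfold sb
      rw [dif_pos (sub_eq_zero.2 hab)]
    rw [h1, map_one]
  · apply Units.ext
    show (g : Ω ≃ₐ[k] Ω) (sb a b : Ω) = _
    rw [sb_val hab, map_sub, ha, hb]

/-- PROOF. `w`, `c`, the elements of `C` are fixed by `G`, so `v (π g j) (w - l') = v j (w - l')`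
for `l' ∈ C`; `j` occurs if and only if `π g j` does (`Good.occ`); `sec_min`. -/
theorem μS_g [IsAlgClosed k] [CharZero k] (h : M.SecOk w c l n B D C) (g : G) (j : M.J) :
    M.μS w c l (M.π g j) = M.μS w c l j := by
  have hw : ∀ l' ∈ C, M.v (M.π g j) (sb (w : Ω) l') = M.v j (sb (w : Ω) l') := by
    intro l' hl'
    have h1 := h.good.v_g g _ (h.fib.C_Ψ l' hl') j
    rwa [secA_ga g (h.fib.w_G g) (h.fib.C_G l' hl' g)] at h1
  have hc : ∀ l' ∈ C, M.v (M.π g j) (sb c l') = M.v j (sb c l') := by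
    intro l' hl'
    have h1 := h.good.v_g g _ (h.c_Ψ l' hl') j
    rwa [secA_ga g (h.c_G g) (h.fib.C_G l' hl' g)] at h1
  by_cases hj : ∃ d, j ∈ M.S d
  · obtain ⟨d, hd⟩ := hj
    obtain ⟨d', hd'⟩ := Good.occ M h.good g j ⟨d, hd⟩
    rw [μS_eq h d j hd, μS_eq h d' _ hd', hw _ (secA_mem h d'), hc _ (secA_mem h d')]
    refine sec_min h d j hd _ _ (secA_mem h d') (secA_mem h d) ?_
    refine le_antisymm ((h.near d).2.1 _ (secA_mem h d') j hd) ?_
    rw [← hw _ (secA_mem h d'), ← hw _ (secA_mem h d)]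
    exact (h.near d').2.1 _ (secA_mem h d) _ hd'
  · have hj' : ¬ ∃ d, M.π g j ∈ M.S d := by
      intro hex
      apply hj
      have h1 := Good.occ M h.good g⁻¹ (M.π g j) hex
      rw [map_inv, ← Equiv.Perm.mul_apply, inv_mul_cancel, Equiv.Perm.one_apply] at h1
      exact h1
    unfold μS
    rw [dif_neg hj, dif_neg hj']

theorem secA_v (h : M.SecOk w c l n B D C) (j : M.J) {a b : Ωˣ} (ha : a ∈ M.Ψ) (hb : b ∈ M.Ψ) :
    M.v j (a * b⁻¹) = M.v j a - M.v j b := by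
  rw [h.good.toOkV.v_mul j a ha _ (inv_mem hb), h.good.toOkV.v_inv j b hb, sub_eq_add_neg]

theorem secA_big (h : M.SecOk w c l n B D C) (d : M.ι) (hb : M.BigS w c l d) :
    (M.qS w c l d : Ω) = ((sb (w : Ω) (l d) * (sb c (l d))⁻¹ : Ωˣ) : Ω) - 1 := by
  unfold qS
  rw [if_pos hb, Units.val_mul, Units.val_mul, Units.val_inv_eq_inv_val, secA_wc h,
    secA_cl h (secA_mem h d), secA_wl h (secA_mem h d)]
  have h1 : c - l d ≠ 0 := sub_ne_zero.2 (secA_cne h (secA_mem h d))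
  field_simp
  ring

theorem secA_small (h : M.SecOk w c l n B D C) (d : M.ι) (hb : ¬ M.BigS w c l d) :
    (M.qS w c l d : Ω) = 1 - ((sb c (l d) * (sb (w : Ω) (l d))⁻¹ : Ωˣ) : Ω) := by
  unfold qS
  rw [if_neg hb, Units.val_mul, Units.val_mul, Units.val_inv_eq_inv_val, secA_wc h,
    secA_cl h (secA_mem h d), secA_wl h (secA_mem h d)]
  have h1 : (w : Ω) - l d ≠ 0 :=
    sub_ne_zero.2 (h.fib.ne h.fibD _ (h.fib.C_B _ (secA_mem h d)))
  field_simp
  ring

theorem secA_le (h : M.SecOk w c l n B D C) (d : M.ι) (hb : ¬ M.BigS w c l d) (j : M.J)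
    (hj : j ∈ M.S d) : M.v j (sb (w : Ω) (l d)) ≤ M.v j (sb c (l d)) :=
  (h.cmp d).resolve_left hb j hj

/-- the local equation is regular -/
theorem qS_mem [IsAlgClosed k] [CharZero k] (h : M.SecOk w c l n B D C) (d : M.ι) :
    (M.qS w c l d : Ω) ∈ M.R d := by
  have h1 := h.fib.C_Ψ _ (secA_mem h d)
  have h2 := h.c_Ψ _ (secA_mem h d)
  by_cases hb : M.BigS w c l d
  · rw [secA_big h d hb]
    refine sub_mem (h.good.toOkV.mem_R d _ (mul_mem h1 (inv_mem h2)) fun j hj => ?_)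
      (one_mem _)
    rw [secA_v h j h1 h2]
    have := hb j hj
    omega
  · rw [secA_small h d hb]
    refine sub_mem (one_mem _)
      (h.good.toOkV.mem_R d _ (mul_mem h2 (inv_mem h1)) fun j hj => ?_)
    rw [secA_v h j h2 h1]
    have := secA_le h d hb j hj
    omega

theorem qS_Ψ [IsAlgClosed k] [CharZero k] (h : M.SecOk w c l n B D C) (d : M.ι) :
    sb (w : Ω) c * (M.qS w c l d)⁻¹ ∈ M.Ψ ∧
      ∀ j ∈ M.S d, M.v j (sb (w : Ω) c * (M.qS w c l d)⁻¹) = M.μS w c l j := by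
  by_cases hb : M.BigS w c l d
  · have h1 : sb (w : Ω) c * (M.qS w c l d)⁻¹ = sb c (l d) := by
      unfold qS
      rw [if_pos hb, mul_inv, inv_inv, mul_inv_cancel_left]
    rw [h1]
    refine ⟨h.c_Ψ _ (secA_mem h d), fun j hj => ?_⟩
    rw [μS_eq h d j hj, min_eq_right (hb j hj)]
  · have h1 : sb (w : Ω) c * (M.qS w c l d)⁻¹ = sb (w : Ω) (l d) := by
      unfold qS
      rw [if_neg hb, mul_inv, inv_inv, mul_inv_cancel_left]
    rw [h1]
    refine ⟨h.fib.C_Ψ _ (secA_mem h d), fun j hj => ?_⟩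
    rw [μS_eq h d j hj, min_eq_left (secA_le h d hb j hj)]

section free

open Polynomial

/-- unique factorisation in `B[w]`, by evaluation at `c` -/
theorem secA_eval {B : IntermediateField k Ω} {w : Ω} (hw : Transcendental B w) (C : Finset B)
    (c : B) (hc : c ∉ C) (b : B) (hb : b ≠ 0) (m n : ℕ) (p q : B → ℕ)
    (h : (w - c) ^ m * ∏ x ∈ C, (w - x) ^ p x =
      (b : Ω) * ((w - c) ^ n * ∏ x ∈ C, (w - x) ^ q x)) : m = 0 ↔ n = 0 := by
  have hinj := transcendental_iff_injective.1 hw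
  have h1 : (X - Polynomial.C c) ^ m * ∏ x ∈ C, (X - Polynomial.C x) ^ p x =
      Polynomial.C b * ((X - Polynomial.C c) ^ n * ∏ x ∈ C, (X - Polynomial.C x) ^ q x) := by
    apply hinj
    simp only [map_mul, map_pow, map_prod, map_sub, aeval_X, aeval_C]
    exact h
  have h2 := congrArg (Polynomial.eval c) h1
  simp only [eval_mul, eval_pow, eval_prod, eval_sub, eval_X, eval_C, sub_self] at h2
  have h3 : ∀ r : B → ℕ, ∏ x ∈ C, (c - x) ^ r x ≠ 0 := fun r =>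
    Finset.prod_ne_zero_iff.2 fun x hx => pow_ne_zero _ (sub_ne_zero.2 fun h0 => hc (h0 ▸ hx))
  constructor
  · intro hm
    by_contra hn
    rw [hm, pow_zero, one_mul, zero_pow hn, zero_mul, mul_zero] at h2
    exact h3 p h2
  · intro hn
    by_contra hm
    rw [hn, pow_zero, one_mul, zero_pow hm, zero_mul] at h2
    exact (mul_ne_zero hb (h3 q)) h2.symm

end free

/-- `w - c` is multiplicatively independent of `Ψ`: `Fib.psi` and unique factorisation in `B[w]`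
(`w` is transcendental over `B`) -/
theorem sec_free (h : M.SecOk w c l n B D C) (e : ℤ) (he : sb (w : Ω) c ^ e ∈ M.Ψ) : e = 0 := by
  classical
  obtain ⟨b, hb, f, hf⟩ := h.fib.psi _ he
  let C' : Finset B := C.attach.image (fun x => ⟨x.1, h.fib.C_B x.1 x.2⟩)
  have hprod : ∀ F : Ω → Ω, ∏ x ∈ C', F (x : Ω) = ∏ x ∈ C, F x := by
    intro F
    rw [Finset.prod_image, Finset.prod_attach C F]
    intro x _ y _ hxy
    have h1 : (⟨x.1, h.fib.C_B x.1 x.2⟩ : B) = ⟨y.1, h.fib.C_B y.1 y.2⟩ := hxy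
    exact Subtype.ext (congrArg (fun t : B => (t : Ω)) h1)
  have hcC : (⟨c, h.c_B⟩ : B) ∉ C' := by
    intro h0
    obtain ⟨x, -, hx⟩ := Finset.mem_image.1 h0
    have h1 : x.1 = c := congrArg Subtype.val hx
    exact h.c_C (h1 ▸ x.2)
  have hpm : ∀ (y : Ω) (z : ℤ), y ≠ 0 → y ^ z * y ^ (-z).toNat = y ^ z.toNat := by
    intro y z hy
    rw [← zpow_natCast, ← zpow_natCast, ← zpow_add₀ hy]
    congr 1
    omega
  have hwc : (w : Ω) - c ≠ 0 := sub_ne_zero.2 (h.fib.ne h.fibD c h.c_B)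
  have hwl : ∀ x ∈ C, (w : Ω) - x ≠ 0 := fun x hx =>
    sub_ne_zero.2 (h.fib.ne h.fibD x (h.fib.C_B x hx))
  have hf' : ((w : Ω) - c) ^ e = (b : Ω) * ∏ x ∈ C, ((w : Ω) - x) ^ f x := by
    have h1 := congrArg Units.val hf
    rw [Units.val_zpow_eq_zpow_val, secA_wc h, Units.val_mul, Units.coe_prod] at h1
    rw [h1]
    congr 1
    refine Finset.prod_congr rfl fun x hx => ?_
    rw [Units.val_zpow_eq_zpow_val, secA_wl h hx]
  have hmain : ((w : Ω) - c) ^ e.toNat * ∏ x ∈ C, ((w : Ω) - x) ^ (-(f x)).toNat =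
      (b : Ω) * (((w : Ω) - c) ^ (-e).toNat * ∏ x ∈ C, ((w : Ω) - x) ^ (f x).toNat) := by
    have h2 : ∏ x ∈ C, ((w : Ω) - x) ^ (f x).toNat =
        (∏ x ∈ C, ((w : Ω) - x) ^ f x) * ∏ x ∈ C, ((w : Ω) - x) ^ (-(f x)).toNat := by
      rw [← Finset.prod_mul_distrib]
      exact Finset.prod_congr rfl fun x hx => (hpm _ _ (hwl x hx)).symm
    rw [h2, ← hpm _ e hwc, hf']
    ring
  have key := secA_eval h.fibD.tr C' ⟨c, h.c_B⟩ hcC ⟨b, hb⟩
    (fun h0 => b.ne_zero (congrArg Subtype.val h0)) e.toNat (-e).toNat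
    (fun x => (-(f x)).toNat) (fun x => (f x).toNat) (by
      rw [hprod (fun x => ((w : Ω) - x) ^ (-(f x)).toNat),
        hprod (fun x => ((w : Ω) - x) ^ (f x).toNat)]
      exact hmain)
  omega

theorem secA_neg {O : Subalgebra k Ω} {a : Ω} (ha : Un O a) : Un O (-a) :=
  ⟨neg_ne_zero.2 ha.1, neg_mem ha.2.1, by
    rw [inv_neg]
    exact neg_mem ha.2.2⟩

/-- if a label of `ES d` passes through the point, then `qS d` is a unit there (`u` or `u⁻¹`
vanishes there, so `qS d` is `∓ 1` plus a non-unit) -/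
theorem qS_un [IsAlgClosed k] [CharZero k] (h : M.SecOk w c l n B D C) (d : M.ι)
    (φ : M.R d →ₐ[k] k) (j : M.J) (hj : j ∈ M.ES w c l d) (ha : M.At d φ j) :
    Un (M.O d φ) (M.qS w c l d : Ω) := by
  have hO : IsPt (M.O d φ) := isPt_loc φ
  have h1 := h.fib.C_Ψ _ (secA_mem h d)
  have h2 := h.c_Ψ _ (secA_mem h d)
  obtain ⟨-, hne⟩ := Finset.mem_filter.1 hj
  have key : ∀ a b : Ωˣ, a ∈ M.Ψ → b ∈ M.Ψ → (∀ j ∈ M.S d, M.v j b ≤ M.v j a) →
      M.v j a ≠ M.v j b → Un (M.O d φ) (1 + -((a * b⁻¹ : Ωˣ) : Ω)) := by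
    intro a b ha' hb' hle hne'
    have hmem : ((a * b⁻¹ : Ωˣ) : Ω) ∈ M.O d φ :=
      le_loc φ (h.good.toOkV.mem_R d _ (mul_mem ha' (inv_mem hb')) fun i hi => by
        rw [secA_v h i ha' hb']
        have := hle i hi
        omega)
    refine hO.one_add _ (neg_mem hmem) fun hu => ?_
    have hu' := secA_neg hu
    rw [neg_neg] at hu'
    have h3 := (h.good.toOk.toOk0.un_O_iff d φ _ (mul_mem ha' (inv_mem hb'))).1 hu' j ha
    rw [secA_v h j ha' hb'] at h3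
    exact hne' (by omega)
  by_cases hb : M.BigS w c l d
  · have h3 := secA_neg (key _ _ h1 h2 hb hne)
    rw [secA_big h d hb]
    convert h3 using 1
    ring
  · have h3 := key _ _ h2 h1 (secA_le h d hb) hne.symm
    rw [secA_small h d hb, sub_eq_add_neg]
    exact h3

/-- the refinement is admissible.
PROOF. `off` for `(d, true)`: `x d j` divides `∏ j ∈ ES d, x d j`. `cov`: `qS_un`. -/
theorem rS_ok [IsAlgClosed k] [CharZero k] (h : M.SecOk w c l n B D C) : (M.rS w c l).Ok := by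
  classical
  have hES : ∀ d, M.ES w c l d ⊆ M.S d := fun d => Finset.filter_subset _ _
  constructor
  · have := h.good.fin
    show Finite (M.ι × Bool)
    infer_instance
  · rintro ⟨d, b⟩
    cases b with
    | false =>
      show ((if (false : Bool) = true then ∏ j ∈ M.ES w c l d, M.x d j
        else M.qS w c l d : Ωˣ) : Ω) ∈ M.R d
      rw [if_neg (by decide)]
      exact qS_mem h d
    | true =>
      show ((if (true : Bool) = true then ∏ j ∈ M.ES w c l d, M.x d j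
        else M.qS w c l d : Ωˣ) : Ω) ∈ M.R d
      rw [if_pos rfl, Units.coe_prod]
      exact prod_mem fun j hj => h.good.x_R d j (hES d hj)
  · rintro ⟨d, b⟩
    cases b with
    | false => exact Finset.Subset.refl _
    | true => exact Finset.sdiff_subset
  · intro d φ
    by_cases hu : Un (M.O d φ) (M.qS w c l d : Ω)
    · exact ⟨(d, false), rfl, hu⟩
    · refine ⟨(d, true), rfl, ?_⟩
      show Un (M.O d φ) ((∏ j ∈ M.ES w c l d, M.x d j : Ωˣ) : Ω)
      rw [Units.coe_prod]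
      refine Un.prod _ _ fun j hj => ?_
      by_contra hnu
      exact hu (qS_un h d φ j hj ⟨hES d hj, hnu⟩)
  · rintro ⟨d, b⟩ j hj hnj
    cases b with
    | false => exact absurd hj hnj
    | true =>
      have hjE : j ∈ M.ES w c l d := by
        by_contra h0
        exact hnj (Finset.mem_sdiff.2 ⟨hj, h0⟩)
      refine ⟨1, ?_⟩
      show ((∏ j ∈ M.ES w c l d, M.x d j : Ωˣ) : Ω) ^ 1 / M.x d j ∈ M.R d
      rw [pow_one, Units.coe_prod, ← Finset.mul_prod_erase _ _ hjE, mul_comm,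
        mul_div_assoc, div_self (Units.ne_zero _), mul_one]
      exact prod_mem fun i hi => h.good.x_R d i (hES d (Finset.mem_of_mem_erase hi))

end Mdl

end Pool.Agent.KMR
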