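import Pool.Agent.Lib.MP_732f67_ag.R.SecT
import Pool.Agent.Lib.MP_732f67_ag.R.RefS
import Pool.Agent.Lib.MP_732f67_ag.R.LabD
import Pool.Agent.Lib.MP_732f67_ag.R.LabE
import Pool.Agent.Lib.MP_732f67_ag.R.LoopC

/-!
Adding a section: the new model.
-/

namespace Pool.Agent.KMR

variable {k Ω : Type} [Field k] [Field Ω] [Algebra k Ω]

theorem secB_un_inv {R : Subalgebra k Ω} {g : Ω} (hg : g ∈ R) (h0 : g ≠ 0) : Un (Inv R g) g :=
  ⟨h0, le_inv R g hg, inv_mem_inv R g⟩

namespace Mdl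

variable {G : Subgroup (Ω ≃ₐ[k] Ω)} {n : ℕ} {M : Mdl k Ω G} {w : Ωˣ} {c : Ω} {l : M.ι → Ω}
  {B : IntermediateField k Ω} {D : Derivation k Ω Ω} {C : Finset Ω}

theorem secB_R_false (N : ℕ) (d : M.ι) :
    (M.ref (M.rS w c l) N).R (d, false) = Inv (M.R d) (M.qS w c l d : Ω) := by
  show Inv (M.R d) ((if (false : Bool) = true then ∏ j ∈ M.ES w c l d, M.x d j
    else M.qS w c l d : Ωˣ) : Ω) = _
  rw [if_neg (by decide)]

theorem secB_T_true (d : M.ι) (j : M.J) :
    j ∈ (M.rS w c l).T (d, true) ↔ j ∈ M.S d ∧ j ∉ M.ES w c l d := by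
  classical
  exact Finset.mem_sdiff

/-- the conditions for `addd` on the refined model; `ref_pt` -/
theorem sec_addd [IsAlgClosed k] [CharZero k] (h : M.SecOk w c l n B D C) (N : ℕ) :
    (M.ref (M.rS w c l) N).AdddOk n (sb (w : Ω) c) (fun i => M.qS w c l i.1)
      (fun i => i.2 = true) (M.μS w c l) where
  y_F := by
    rw [secA_wc h]
    show (w : Ω) - c ∈ M.F
    rw [h.fib.F_eq]
    exact sub_mem (IntermediateField.subset_adjoin k _ (Or.inr rfl))
      (IntermediateField.subset_adjoin k _ (Or.inl h.c_B))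
  q_R := fun i => le_inv _ _ (qS_mem h i.1)
  q_Ψ := fun i => (qS_Ψ h i.1).1
  q_v := fun i j hj => (qS_Ψ h i.1).2 j ((rS_ok h).sub i hj)
  un := by
    rintro ⟨d, b⟩ hi
    cases b with
    | true => exact absurd rfl hi
    | false =>
      rw [secB_R_false]
      exact secB_un_inv (qS_mem h d) (Units.ne_zero _)
  tr := by
    rintro ⟨d, b⟩ - φ hq
    obtain ⟨ψ, h1, h2⟩ := ref_pt N h.good.toOkV (rS_ok h) (d, b) φ
    rw [← h1] at hq
    obtain ⟨z, hz1, hz2, hz3⟩ := sec_tr h d ψ hq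
    refine ⟨z, ?_, fun j hj => hz2 j ((h2 j).2 hj), hz3⟩
    rw [← h1]
    exact hz1
  free := fun e he => sec_free h e he
  inv := fun g => by
    rw [secA_wc h, map_sub, h.fib.w_G g, h.c_G g]
  μ_g := fun g j => μS_g h g j

/-- the derivation on a localisation -/
theorem secB_der {R : Subalgebra k Ω} {g : Ω} (hg : g ∈ R) (θ : Derivation k Ω Ω)
    (h : ∀ a ∈ R, θ a ∈ R) : ∀ a ∈ Inv R g, θ a ∈ Inv R g := by
  refine fib_sup _ (fun a ha => le_inv _ _ (h a ha)) ?_
  rw [Derivation.leibniz_inv, smul_eq_mul]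
  exact mul_mem (neg_mem (pow_mem (inv_mem_inv R g) 2)) (le_inv _ _ (h g hg))

/-- the new model is a fibration with one more section.
PROOF of `near`. On `(d, false)` the section `l d` is still nearest: `v j (w - c) = μ j ≤
v j (w - l d)`. On `(d, true)` the new section `c` is nearest: `v j (w - c) = v j (w - l d)` for the
remaining `j` (there `v j (w - l d) = v j (c - l d)`), and `1 > 0` along the new label;
`(w - c) D = ((w - c) / (w - l d)) (w - l d) D`. The ring is a localisation of `R d` by an element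
whose logarithmic derivative is in it. -/
theorem sec_fib [IsAlgClosed k] [CharZero k] [DecidableEq Ω] (h : M.SecOk w c l n B D C) (N : ℕ)
    (hv : (M.ref (M.rS w c l) N).OkV) :
    ((M.ref (M.rS w c l) N).addd (sb (w : Ω) c) (fun i => M.qS w c l i.1)
      (fun i => i.2 = true) (M.μS w c l)).Fib B w D (insert c C) := by
  classical
  have hr := rS_ok h
  have ha := sec_addd h N
  have hle : M.Ψ ≤ adj M.Ψ (sb (w : Ω) c) := le_sup_left
  refine ⟨h.fib.F_eq, ?_, ?_, h.fib.w_G, ?_, ?_, ?_, ?_⟩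
  · intro l' hl'
    rcases Finset.mem_insert.1 hl' with rfl | hl'
    · exact h.c_B
    · exact h.fib.C_B l' hl'
  · intro l' hl' g
    rcases Finset.mem_insert.1 hl' with rfl | hl'
    · exact h.c_G g
    · exact h.fib.C_G l' hl' g
  · intro l' hl'
    show sb (w : Ω) l' ∈ adj M.Ψ (sb (w : Ω) c)
    rcases Finset.mem_insert.1 hl' with rfl | hl'
    · exact mem_adj.2 ⟨1, one_mem _, 1, by rw [one_mul, zpow_one]⟩
    · exact hle (h.fib.C_Ψ l' hl')
  · intro l₁ hl₁ l₂ hl₂ hne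
    show sb l₁ l₂ ∈ adj M.Ψ (sb (w : Ω) c)
    rcases Finset.mem_insert.1 hl₁ with h1 | h1
    · rcases Finset.mem_insert.1 hl₂ with h2 | h2
      · exact absurd (h1.trans h2.symm) hne
      · rw [h1]
        exact hle (h.c_Ψ l₂ h2)
    · rcases Finset.mem_insert.1 hl₂ with h2 | h2
      · rw [h2]
        exact hle (h.c_Ψ' l₁ h1)
      · exact hle (h.fib.C_C l₁ h1 l₂ h2 hne)
  · intro a haΨ
    obtain ⟨a', ha', e, rfl⟩ := mem_adj.1 (show a ∈ adj M.Ψ (sb (w : Ω) c) from haΨ)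
    obtain ⟨b, hb, f, rfl⟩ := h.fib.psi a' ha'
    refine ⟨b, hb, Function.update f c e, ?_⟩
    rw [Finset.prod_insert h.c_C, Function.update_self]
    have h1 : ∏ x ∈ C, sb (w : Ω) x ^ Function.update f c e x = ∏ x ∈ C, sb (w : Ω) x ^ f x :=
      Finset.prod_congr rfl fun x hx => by
        have hxc : x ≠ c := fun h0 => h.c_C (h0 ▸ hx)
        rw [Function.update_of_ne hxc]
    rw [h1, mul_comm (sb (w : Ω) c ^ e), mul_assoc]
  · rintro ⟨d, b⟩
    have hnear := h.near d
    have hld := secA_mem h d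
    cases b with
    | false =>
      refine ⟨l d, Finset.mem_insert_of_mem hld, ?_, ?_⟩
      · intro l' hl' j hj
        cases j with
        | none =>
          have h1 := (LabD_none (M.ref (M.rS w c l) N) (sb (w : Ω) c)
            (fun i => M.qS w c l i.1) (fun i => i.2 = true) (M.μS w c l) (d, false)).1 hj
          exact absurd (show (false : Bool) = true from h1) (by decide)
        | some j =>
          have h1 : j ∈ M.S d := (LabD_some (M.ref (M.rS w c l) N) (sb (w : Ω) c)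
            (fun i => M.qS w c l i.1) (fun i => i.2 = true) (M.μS w c l) (d, false) j).1 hj
          obtain ⟨h2, h3, -, -⟩ := addd_v ha hv j
          refine le_of_le_of_eq ?_ (h2 _ (h.fib.C_Ψ _ hld)).symm
          rcases Finset.mem_insert.1 hl' with rfl | hl'
          · refine le_of_eq_of_le h3 ?_
            rw [μS_eq h d j h1]
            exact min_le_left _ _
          · exact le_of_eq_of_le (h2 _ (h.fib.C_Ψ _ hl')) (hnear.2.1 l' hl' j h1)
      · have h1 : ∀ a ∈ Inv (M.R d) (M.qS w c l d : Ω), (((w : Ω) - l d) • D) a ∈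
            Inv (M.R d) (M.qS w c l d : Ω) :=
          secB_der (qS_mem h d) _ (fun a ha => hnear.2.2 a ha)
        rw [← secB_R_false N d] at h1
        exact h1
    | true =>
      refine ⟨c, Finset.mem_insert_self c C, ?_, ?_⟩
      · intro l' hl' j hj
        cases j with
        | none =>
          have h2 := LabD_vnone ha 1 (one_mem _) 1
          rw [zpow_one, one_mul] at h2
          rcases Finset.mem_insert.1 hl' with h0 | h0
          · rw [h0]
          · have h3 := LabD_vnone ha (sb (w : Ω) l') (h.fib.C_Ψ l' h0) 0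
            rw [zpow_zero, mul_one] at h3
            refine le_of_eq_of_le h3 (le_of_le_of_eq ?_ h2.symm)
            exact zero_le_one
        | some j =>
          have h1 : j ∈ (M.rS w c l).T (d, true) :=
            (LabD_some (M.ref (M.rS w c l) N) (sb (w : Ω) c)
            (fun i => M.qS w c l i.1) (fun i => i.2 = true) (M.μS w c l) (d, true) j).1 hj
          obtain ⟨h4, h5⟩ := (secB_T_true d j).1 h1
          obtain ⟨h2, h3, -, -⟩ := addd_v ha hv j
          have h6 : M.v j (sb (w : Ω) (l d)) = M.v j (sb c (l d)) := by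
            by_contra h7
            exact h5 (Finset.mem_filter.2 ⟨h4, h7⟩)
          have h7 : M.μS w c l j = M.v j (sb (w : Ω) (l d)) := by
            rw [μS_eq h d j h4, ← h6, min_self]
          rcases Finset.mem_insert.1 hl' with rfl | hl'
          · exact le_refl _
          · refine le_of_eq_of_le (h2 _ (h.fib.C_Ψ _ hl')) (le_of_le_of_eq ?_ h3.symm)
            rw [h7]
            exact hnear.2.1 l' hl' j h4
      · -- the factor `(w - c) / (w - l d)`
        have hR : M.R d ≤ (M.ref (M.rS w c l) N).R (d, true) := le_inv _ _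
        have hfac : ((w : Ω) - c) / (w - l d) ∈ (M.ref (M.rS w c l) N).R (d, true) := by
          have hwl0 : (w : Ω) - l d ≠ 0 :=
            sub_ne_zero.2 (h.fib.ne h.fibD _ (h.fib.C_B _ hld))
          have hcl0 : c - l d ≠ 0 := sub_ne_zero.2 (secA_cne h hld)
          have hqR := hR (qS_mem h d)
          by_cases hb : M.BigS w c l d
          · have h1 : (M.qS w c l d : Ω) = ((w : Ω) - c) / (c - l d) := by
              unfold qS
              rw [if_pos hb, Units.val_mul, Units.val_inv_eq_inv_val, secA_wc h, secA_cl h hld]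
              exact (div_eq_mul_inv _ _).symm
            have h2 : Un ((M.ref (M.rS w c l) N).R (d, true))
                ((sb c (l d) * (sb (w : Ω) (l d))⁻¹ : Ωˣ) : Ω) := by
              refine hv.unit (d, true) _ (mul_mem (h.c_Ψ _ hld)
                (inv_mem (h.fib.C_Ψ _ hld))) fun j hj => ?_
              obtain ⟨h4, h5⟩ := (secB_T_true d j).1 hj
              have h6 : M.v j (sb (w : Ω) (l d)) = M.v j (sb c (l d)) := by
                by_contra h7
                exact h5 (Finset.mem_filter.2 ⟨h4, h7⟩)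
              show M.v j (sb c (l d) * (sb (w : Ω) (l d))⁻¹) = 0
              rw [secA_v h j (h.c_Ψ _ hld) (h.fib.C_Ψ _ hld), h6, sub_self]
            have h3 : ((w : Ω) - c) / (w - l d) = (M.qS w c l d : Ω) *
                ((sb c (l d) * (sb (w : Ω) (l d))⁻¹ : Ωˣ) : Ω) := by
              rw [h1, Units.val_mul, Units.val_inv_eq_inv_val, secA_wl h hld, secA_cl h hld]
              field_simp
            rw [h3]
            exact mul_mem hqR h2.2.1
          · have h1 : (M.qS w c l d : Ω) = ((w : Ω) - c) / (w - l d) := by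
              unfold qS
              rw [if_neg hb, Units.val_mul, Units.val_inv_eq_inv_val, secA_wc h, secA_wl h hld]
              exact (div_eq_mul_inv _ _).symm
            rw [← h1]
            exact hqR
        have h1 : ∀ a ∈ (M.ref (M.rS w c l) N).R (d, true), (((w : Ω) - l d) • D) a ∈
            (M.ref (M.rS w c l) N).R (d, true) :=
          secB_der (hr.g_mem (d, true)) _ (fun a ha => hnear.2.2 a ha)
        intro a ha'
        have hwl0 : (w : Ω) - l d ≠ 0 :=
          sub_ne_zero.2 (h.fib.ne h.fibD _ (h.fib.C_B _ hld))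
        have h2 : ((w : Ω) - c) * D a =
            ((w : Ω) - c) / (w - l d) * (((w : Ω) - l d) • D) a := by
          rw [Derivation.smul_apply, smul_eq_mul]
          field_simp
        rw [h2]
        exact mul_mem hfac (h1 a ha')

/-- one section. PROOF. `sec_addd`, `sec_fib`, then `exists_deep` and `ref_good`, `fib_ref`. -/
theorem sec_good [IsAlgClosed k] [CharZero k] [DecidableEq Ω] (h : M.SecOk w c l n B D C) :
    ∃ M' : Mdl k Ω G, M'.Good n ∧ M'.Fib B w D (insert c C) ∧ M.Ψ ≤ M'.Ψ ∧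
      sb (w : Ω) c ∈ M'.Ψ ∧ M.Lie M' ∧ M'.Ψ ≤ adj M.Ψ (sb (w : Ω) c) := by
  have hr := rS_ok h
  obtain ⟨N, hN⟩ := ref_ok0 h.good.toOk0 hr
  have h0 := hN N le_rfl
  have hJ := ref_eqJ N h.good.toEqJ hr
  have hP := ref_eqP N h.good.toOkV hr h.good.eqP
  have ha := sec_addd h N
  have k0 := addd_ok0 h0 ha
  have kJ := addd_eqJ ha h0.toOkV hJ
  have kP := addd_eqP ha h0 hJ hP
  have kF : ((M.ref (M.rS w c l) N).addd (sb (w : Ω) c) (fun i => M.qS w c l i.1)
      (fun i => i.2 = true) (M.μS w c l)).EqF := fun g a ha' => h.good.eqF g a ha'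
  have kf := sec_fib h N h0.toOkV
  obtain ⟨r, hr1, hr2⟩ := exists_deep k0
  obtain ⟨N', hN'⟩ := ref_good k0 kJ kP kF hr1 hr2
  refine ⟨_, hN' N' le_rfl, fib_ref kf h.fibD k0.toOkV hr1 N', ?_, ?_, ?_,
    le_refl (adj M.Ψ (sb (w : Ω) c))⟩
  · show M.Ψ ≤ adj M.Ψ (sb (w : Ω) c)
    exact le_sup_left
  · show sb (w : Ω) c ∈ adj M.Ψ (sb (w : Ω) c)
    exact mem_adj.2 ⟨1, one_mem _, 1, by rw [one_mul, zpow_one]⟩
  · intro i φ
    obtain ⟨ψ, h1, -⟩ := ref_pt N' k0.toOkV hr1 i φ
    obtain ⟨ψ', h2, -⟩ := ref_pt N h.good.toOkV hr (r.idx i) ψ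
    have h3 : M.O ((M.rS w c l).idx (r.idx i)) ψ' = _ := h2.trans h1
    exact ⟨_, ψ', h3.le, fun _ => h3⟩

/-- blow-ups and the like are also `Lie` -/
theorem over_lie [IsAlgClosed k] [CharZero k] {M M' : Mdl k Ω G} (h : M.Ok0 n) (h' : M'.Ok0 n)
    (hΨ : M.Ψ ≤ M'.Ψ) (ho : M.Over M') : M.Lie M' := by
  intro c' φ'
  obtain ⟨c, φ, h1, h2⟩ := ho c' φ'
  refine ⟨c, φ, h1, fun h3 => (h2 fun j hj => ?_).2⟩
  have h4 := (h'.off_iff c' φ').1 h3 _ (hΨ (h.x_Ψ c j hj.1))
  exact hj.2 (IsPt.dom (isPt_loc φ) (isPt_loc φ') h1 _ (le_loc φ (h.x_R c j hj.1)) h4)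

/-- finitely many blow-ups -/
theorem secB_steps [IsAlgClosed k] [CharZero k] {M M' : Mdl k Ω G} (h : M.Good n)
    (hf : M.Fib B w D C) (hd : FibD B w D) (hs : Relation.ReflTransGen (Step n) M M') :
    M'.Fib B w D C := by
  induction hs with
  | refl => exact hf
  | tail h1 h2 ih => exact fib_step ih hd (loopC_keep h h1).1.toOkV h2

theorem secB_ga (g : G) {a b : Ω} (ha : (g : Ω ≃ₐ[k] Ω) a = a)
    (hb : (g : Ω ≃ₐ[k] Ω) b = b) : (g : Ω ≃ₐ[k] Ω) (sb a b : Ω) = sb a b := by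
  have h1 := secA_ga g ha hb
  exact congrArg Units.val h1

/-- PROOF. First make `(w - l) / (c - l)`, `l ∈ C`, comparable by blow-ups (`exists_cmps`; along
the way `fib_step`), then `sec_good`. -/
theorem fib_add [IsAlgClosed k] [CharZero k] [DecidableEq Ω] (h : M.Good n)
    (hf : M.Fib B w D C) (hd : FibD B w D) (hcB : c ∈ B) (hcC : c ∉ C)
    (hcG : ∀ g : G, (g : Ω ≃ₐ[k] Ω) c = c) (hcΨ : ∀ a ∈ C, sb c a ∈ M.Ψ)
    (hcΨ' : ∀ a ∈ C, sb a c ∈ M.Ψ) :
    ∃ M' : Mdl k Ω G, M'.Good n ∧ M'.Fib B w D (insert c C) ∧ M.Ψ ≤ M'.Ψ ∧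
      sb (w : Ω) c ∈ M'.Ψ ∧ M.Lie M' ∧ M'.Ψ ≤ adj M.Ψ (sb (w : Ω) c) := by
  classical
  obtain ⟨M₁, h1, h2, h3, h4, h5, h6, h7⟩ := exists_cmps h
    (C.image fun x => sb (w : Ω) x * (sb c x)⁻¹) (fun a ha => by
      obtain ⟨x, hx, rfl⟩ := Finset.mem_image.1 ha
      exact mul_mem (hf.C_Ψ x hx) (inv_mem (hcΨ x hx))) (fun g a ha => by
      obtain ⟨x, hx, rfl⟩ := Finset.mem_image.1 ha
      rw [Units.val_mul, Units.val_inv_eq_inv_val, map_mul, map_inv₀,
        secB_ga g (hf.w_G g) (hf.C_G x hx g), secB_ga g (hcG g) (hf.C_G x hx g)])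
  have hf₁ : M₁.Fib B w D C := secB_steps h hf hd h1
  choose l hl using hf₁.near
  have hcmp : ∀ d x, x ∈ C → (∀ j ∈ M₁.S d, M₁.v j (sb c x) ≤ M₁.v j (sb (w : Ω) x)) ∨
      ∀ j ∈ M₁.S d, M₁.v j (sb (w : Ω) x) ≤ M₁.v j (sb c x) := by
    intro d x hx
    have hcx : sb c x ∈ M₁.Ψ := by
      rw [h3]
      exact hcΨ x hx
    have hv : ∀ j, M₁.v j (sb (w : Ω) x * (sb c x)⁻¹) =
        M₁.v j (sb (w : Ω) x) - M₁.v j (sb c x) := by
      intro j
      rw [h2.v_mul j _ (hf₁.C_Ψ x hx) _ (inv_mem hcx), h2.toOkV.v_inv j _ hcx, sub_eq_add_neg]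
    rcases h7 _ (Finset.mem_image_of_mem _ hx) d with h8 | h8
    · left
      intro j hj
      have := h8 j hj
      rw [hv] at this
      omega
    · right
      intro j hj
      have := h8 j hj
      rw [hv] at this
      omega
  have hS : M₁.SecOk w c l n B D C :=
    { good := h2
      fib := hf₁
      fibD := hd
      c_B := hcB
      c_C := hcC
      c_G := hcG
      c_Ψ := fun a ha => by
        rw [h3]
        exact hcΨ a ha
      c_Ψ' := fun a ha => by
        rw [h3]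
        exact hcΨ' a ha
      near := hl
      cmp := fun d => hcmp d (l d) (hl d).1 }
  obtain ⟨M₂, k1, k2, k3, k4, k5, k6⟩ := sec_good hS
  have hΨ : M.Ψ ≤ M₁.Ψ := h3.ge
  rw [h3] at k6
  exact ⟨M₂, k1, k2, hΨ.trans k3, k4,
    Lie.trans h2.toOk0 k1.toOk0 k3 (over_lie h.toOk0 h2.toOk0 hΨ h5) k5, k6⟩

/-- all the sections, and then `exists_cmps` for the `w - l` (`over_lie`): from a model `M` of the base field `B = M.F` to a model of `B (w)`.
`C` contains `0`; the differences of the elements of `C` are in `Ψ`. The elements of `M'.Ψ` are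
products of elements of `M.Ψ` and of powers of the `w - l`, `l ∈ C`. -/
theorem exists_fib [IsAlgClosed k] [CharZero k] [DecidableEq Ω] {M : Mdl k Ω G} (h : M.Good n)
    (hd : FibD M.F w D) (hg : ∀ g : G, (g : Ω ≃ₐ[k] Ω) (w : Ω) = w) (C : Finset Ω)
    (h0 : 0 ∈ C) (hC : ∀ l ∈ C, l ∈ M.F) (hG : ∀ l ∈ C, ∀ g : G, (g : Ω ≃ₐ[k] Ω) l = l)
    (hΨ : ∀ l ∈ C, ∀ l' ∈ C, l ≠ l' → sb l l' ∈ M.Ψ) :
    ∃ M' : Mdl k Ω G, M'.Good (n + 1) ∧ M'.Fib M.F w D C ∧ M.Ψ ≤ M'.Ψ ∧
      (M.prod w).Lie M' ∧ (∀ l ∈ C, M'.Cmp (sb (w : Ω) l)) ∧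
      M'.Ψ ≤ M.Ψ ⊔ Subgroup.closure {y | ∃ l ∈ C, y = sb (w : Ω) l} := by
  classical
  obtain ⟨K, hK⟩ : ∃ K, K = M.Ψ ⊔ Subgroup.closure {y | ∃ l ∈ C, y = sb (w : Ω) l} := ⟨_, rfl⟩
  have hKl : ∀ l ∈ C, sb (w : Ω) l ∈ K := fun l hl => by
    rw [hK]
    exact (le_sup_right : Subgroup.closure {y | ∃ l ∈ C, y = sb (w : Ω) l} ≤ _)
      (Subgroup.subset_closure ⟨l, hl, rfl⟩)
  have hK0 : (M.prod w).Ψ ≤ K := by
    show adj M.Ψ w ≤ K
    refine sup_le ?_ ?_
    · rw [hK]
      exact le_sup_left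
    · rw [Subgroup.zpowers_le]
      have h1 : sb (w : Ω) 0 = w := Units.ext (by rw [sb_val w.ne_zero, sub_zero])
      rw [← h1]
      exact hKl 0 h0
  rw [← hK]
  have hp := prod_good w hd.tr h hg
  have hfp := fib_prod h hd hg
  have hΨp : M.Ψ ≤ (M.prod w).Ψ := (le_sup_left : M.Ψ ≤ adj M.Ψ w)
  have key : ∀ C' : Finset Ω, C' ⊆ C → ∃ M' : Mdl k Ω G, M'.Good (n + 1) ∧
      M'.Fib M.F w D (insert 0 C') ∧ (M.prod w).Ψ ≤ M'.Ψ ∧ (M.prod w).Lie M' ∧ M'.Ψ ≤ K := by
    intro C'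
    induction C' using Finset.induction_on with
    | empty =>
      intro _
      exact ⟨M.prod w, hp, by simpa using hfp, le_rfl,
        over_lie hp.toOk0 hp.toOk0 le_rfl (Over.refl _), hK0⟩
    | insert c C' hc ih =>
      intro hsub
      obtain ⟨M', k1, k2, k3, k4, k5⟩ := ih fun x hx => hsub (Finset.mem_insert_of_mem hx)
      have hcC : c ∈ C := hsub (Finset.mem_insert_self c C')
      by_cases hc0 : c ∈ insert 0 C'
      · refine ⟨M', k1, ?_, k3, k4, k5⟩
        have h1 : insert 0 (insert c C') = insert 0 C' := by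
          rw [Finset.insert_comm, Finset.insert_eq_of_mem hc0]
        rw [h1]
        exact k2
      · have hin : ∀ a ∈ insert 0 C', a ∈ C := by
          intro a ha
          rcases Finset.mem_insert.1 ha with rfl | ha
          · exact h0
          · exact hsub (Finset.mem_insert_of_mem ha)
        have hne : ∀ a ∈ insert 0 C', c ≠ a := fun a ha h1 => hc0 (h1 ▸ ha)
        obtain ⟨M'', m1, m2, m3, m4, m5, m6⟩ := fib_add (c := c) k1 k2 hd (hC c hcC) hc0
          (fun g => hG c hcC g)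
          (fun a ha => k3 (hΨp (hΨ c hcC a (hin a ha) (hne a ha))))
          (fun a ha => k3 (hΨp (hΨ a (hin a ha) c hcC (hne a ha).symm)))
        refine ⟨M'', m1, ?_, k3.trans m3, Lie.trans k1.toOk0 m1.toOk0 m3 k4 m5,
          m6.trans (sup_le k5 (by rw [Subgroup.zpowers_le]; exact hKl c hcC))⟩
        rw [Finset.insert_comm]
        exact m2
  obtain ⟨M', k1, k2, k3, k4, k5⟩ := key C Finset.Subset.rfl
  rw [Finset.insert_eq_of_mem h0] at k2
  obtain ⟨M'', m1, m2, m3, -, m5, -, m7⟩ := exists_cmps k1 (C.image fun x => sb (w : Ω) x)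
    (fun a ha => by
      obtain ⟨x, hx, rfl⟩ := Finset.mem_image.1 ha
      exact k2.C_Ψ x hx) (fun g a ha => by
      obtain ⟨x, hx, rfl⟩ := Finset.mem_image.1 ha
      exact secB_ga g (hg g) (hG x hx g))
  have hΨ' : M'.Ψ ≤ M''.Ψ := m3.ge
  exact ⟨M'', m2, secB_steps k1 k2 hd m1, hΨp.trans (k3.trans hΨ'),
    Lie.trans k1.toOk0 m2.toOk0 hΨ' k4 (over_lie k1.toOk0 m2.toOk0 hΨ' m5),
    fun x hx => m7 _ (Finset.mem_image_of_mem _ hx), m3.le.trans k5⟩

end Mdl

end Pool.Agent.KMR
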