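import Pool.Agent.Lib.MP_732f67_ag.R.SecA
import Pool.Agent.Lib.MP_732f67_ag.R.Par

/-!
Adding a section: transversality.
-/

namespace Pool.Agent.KMR

variable {k Ω : Type} [Field k] [Field Ω] [Algebra k Ω]

namespace Mdl

variable {G : Subgroup (Ω ≃ₐ[k] Ω)} {n : ℕ} {M : Mdl k Ω G} {w : Ωˣ} {c : Ω} {l : M.ι → Ω}
  {B : IntermediateField k Ω} {D : Derivation k Ω Ω} {C : Finset Ω}

/-- a derivation which preserves the ring preserves the local rings -/
theorem secT_loc {R : Subalgebra k Ω} (θ : Derivation k Ω Ω) (hθ : ∀ a ∈ R, θ a ∈ R)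
    (φ : R →ₐ[k] k) : ∀ a ∈ Loc R φ, θ a ∈ Loc R φ := by
  rintro _ ⟨a, b, hb, rfl⟩
  have hb0 := loc_ne φ hb
  have hb' := (un_loc φ b).2 hb
  have h1 : θ ((a : Ω) / b) = (θ a * b - a * θ b) * ((b : Ω) * b)⁻¹ := by
    have h2 : θ (((a : Ω) / b) * b) = θ a := by rw [div_mul_cancel₀ _ hb0]
    rw [Derivation.leibniz, smul_eq_mul, smul_eq_mul] at h2
    have h3 : (b : Ω) * θ ((a : Ω) / b) = θ a - (a : Ω) / b * θ b := by
      rw [← h2]
      ring
    have h4 : θ ((a : Ω) / b) = (θ a - (a : Ω) / b * θ b) * (b : Ω)⁻¹ := by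
      rw [← h3]
      field_simp
    rw [h4]
    field_simp
  rw [h1]
  refine mul_mem (sub_mem (mul_mem (le_loc φ (hθ _ a.2)) (le_loc φ b.2))
    (mul_mem (le_loc φ a.2) (le_loc φ (hθ _ b.2)))) (hb'.mul hb').2.2

theorem secT_D (h : M.SecOk w c l n B D C) {a b : Ω} (ha : a ∈ B) (hb : b ∈ B) (hab : a ≠ b) :
    D (((w : Ω) - a) / (a - b)) = 1 / (a - b) := by
  have h0 : a - b ≠ 0 := sub_ne_zero.2 hab
  have h1 : D (((w : Ω) - a) / (a - b) * (a - b)) = D ((w : Ω) - a) := by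
    rw [div_mul_cancel₀ _ h0]
  rw [Derivation.leibniz, map_sub, map_sub, h.fibD.D_w, h.fibD.D_B a ha, h.fibD.D_B b hb,
    sub_zero, smul_zero, zero_add, smul_eq_mul] at h1
  field_simp
  linear_combination h1

theorem secT_D' (h : M.SecOk w c l n B D C) {a b : Ω} (ha : a ∈ B) (hb : b ∈ B) :
    D (((w : Ω) - a) / (w - b)) = (a - b) / ((w : Ω) - b) ^ 2 := by
  have h0 : (w : Ω) - b ≠ 0 := sub_ne_zero.2 (h.fib.ne h.fibD b hb)
  have h1 : D (((w : Ω) - a) / (w - b) * (w - b)) = D ((w : Ω) - a) := by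
    rw [div_mul_cancel₀ _ h0]
  rw [Derivation.leibniz, map_sub, map_sub, h.fibD.D_w, h.fibD.D_B a ha, h.fibD.D_B b hb,
    sub_zero, smul_eq_mul, smul_eq_mul, mul_one] at h1
  field_simp
  have h2 : ((w : Ω) - b) * (((w : Ω) - a) / (w - b)) = w - a := by
    field_simp
  linear_combination ((w : Ω) - b) * h1 - h2

/-- TRANSVERSALITY. PROOF. Let `θ = (w - l d) D`; it preserves `R d` (`near`), hence
`O = M.O d φ`, and `θ a / a ∈ R d` for `a ∈ Ψ` (`Fib.log`). `θ (qS d)` is `u` or `u⁻¹`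
(`θ (w - c) = w - l`, `θ (c - l) = 0`), which is a unit of `O` since `qS d` is not a unit
(`u = 1 + qS` resp. `u⁻¹ = 1 - qS`). Let `z` be parameters with the labels, `qS d = ∑ a i * z i`.
`θ (qS d) = ∑ θ (a i) z i + a i θ (z i)`, so `a i θ (z i)` is a unit for some `i`; `z i` is not a
label, because `θ (x j) = x j * (θ (x j) / x j)` is not a unit. `Par.replace`. -/
theorem sec_tr [IsAlgClosed k] [CharZero k] (h : M.SecOk w c l n B D C) (d : M.ι)
    (φ : M.R d →ₐ[k] k) (hq : ¬ Un (M.O d φ) (M.qS w c l d : Ω)) :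
    ∃ z : Fin n → Ω, Par (M.O d φ) z ∧ (∀ j, M.At d φ j → ∃ i, z i = M.x d j) ∧
      ∃ i, z i = M.qS w c l d := by
  classical
  have hO : IsPt (M.O d φ) := isPt_loc φ
  have hlC := secA_mem h d
  have hqO : (M.qS w c l d : Ω) ∈ M.O d φ := le_loc φ (qS_mem h d)
  -- the derivation
  let θ : Derivation k Ω Ω := ((w : Ω) - l d) • D
  have hθ : ∀ a, θ a = ((w : Ω) - l d) * D a := fun a => rfl
  have hθR : ∀ a ∈ M.R d, θ a ∈ M.R d := fun a ha => (h.near d).2.2 a ha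
  have hθO : ∀ a ∈ M.O d φ, θ a ∈ M.O d φ := secT_loc θ hθR φ
  -- `θ (qS d)` is a unit
  have hu : Un (M.O d φ) (θ (M.qS w c l d : Ω)) := by
    have hwl0 : (w : Ω) - l d ≠ 0 := sub_ne_zero.2 (h.fib.ne h.fibD _ (h.fib.C_B _ hlC))
    have hcl0 : c - l d ≠ 0 := sub_ne_zero.2 (secA_cne h hlC)
    by_cases hb : M.BigS w c l d
    · have h1 : θ (M.qS w c l d : Ω) = 1 + M.qS w c l d := by
        have h2 : (M.qS w c l d : Ω) = ((w : Ω) - c) / (c - l d) := by
          unfold qS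
          rw [if_pos hb, Units.val_mul, Units.val_inv_eq_inv_val, secA_wc h, secA_cl h hlC]
          exact (div_eq_mul_inv _ _).symm
        rw [hθ, h2, secT_D h h.c_B (h.fib.C_B _ hlC) (secA_cne h hlC)]
        field_simp
        ring
      rw [h1]
      exact hO.one_add _ hqO hq
    · have h1 : θ (M.qS w c l d : Ω) = 1 + -(M.qS w c l d : Ω) := by
        have h2 : (M.qS w c l d : Ω) = ((w : Ω) - c) / (w - l d) := by
          unfold qS
          rw [if_neg hb, Units.val_mul, Units.val_inv_eq_inv_val, secA_wc h, secA_wl h hlC]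
          exact (div_eq_mul_inv _ _).symm
        rw [hθ, h2, secT_D' h h.c_B (h.fib.C_B _ hlC)]
        field_simp
        ring
      rw [h1]
      refine hO.one_add _ (neg_mem hqO) fun hun => hq ?_
      have h3 := secA_neg hun
      rwa [neg_neg] at h3
  -- parameters
  obtain ⟨z, hz, hzx⟩ := h.good.par d φ
  obtain ⟨a, ha, hqa⟩ := hz.2 _ hqO hq
  have hsum : θ (M.qS w c l d : Ω) = ∑ i, θ (a i) * z i + ∑ i, a i * θ (z i) := by
    rw [hqa, map_sum, ← Finset.sum_add_distrib]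
    refine Finset.sum_congr rfl fun i _ => ?_
    rw [Derivation.leibniz, smul_eq_mul, smul_eq_mul]
    ring
  have hex : ∃ i, Un (M.O d φ) (a i * θ (z i)) := by
    by_contra hcon
    push Not at hcon
    have h1 := hO.sum Finset.univ (fun i => a i * θ (z i)) fun i _ =>
      ⟨mul_mem (ha i) (hθO _ (hz.1 i).1), hcon i⟩
    have h2 := hO.sum Finset.univ (fun i => θ (a i) * z i) fun i _ =>
      ⟨mul_mem (hθO _ (ha i)) (hz.1 i).1, by
        rw [mul_comm]
        exact hO.mul _ _ (hz.1 i).1 (hθO _ (ha i)) (hz.1 i).2⟩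
    have h3 := hO.add _ _ (sum_mem fun i _ => mul_mem (hθO _ (ha i)) (hz.1 i).1)
      (sum_mem fun i _ => mul_mem (ha i) (hθO _ (hz.1 i).1)) h2 h1
    rw [← hsum] at h3
    exact h3 hu
  obtain ⟨i₀, hi₀⟩ := hex
  obtain ⟨hai, hzi⟩ := Un.of_mul (ha i₀) (hθO _ (hz.1 i₀).1) hi₀
  have hlab : ∀ j, M.At d φ j → z i₀ ≠ M.x d j := by
    intro j hj hzj
    have h1 : ((w : Ω) - l d) * D (M.x d j : Ω) / M.x d j ∈ M.R d :=
      h.fib.log h.fibD h.good.toOkV d (l d) (h.near d) _ (h.good.x_Ψ d j hj.1)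
    have h2 : θ (z i₀) = M.x d j * (((w : Ω) - l d) * D (M.x d j : Ω) / M.x d j) := by
      rw [hzj, hθ]
      field_simp
    rw [h2] at hzi
    exact hO.mul _ _ (le_loc φ (h.good.x_R d j hj.1)) (le_loc φ h1) hj.2 hzi
  refine ⟨Function.update z i₀ (∑ i, a i * z i), Par.replace hO hz a ha i₀ hai, ?_, i₀, ?_⟩
  · intro j hj
    obtain ⟨i, hi⟩ := hzx j hj
    refine ⟨i, ?_⟩
    rw [Function.update_of_ne, hi]
    intro h0
    exact hlab j hj (h0 ▸ hi)
  · rw [Function.update_self, hqa]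

end Mdl

end Pool.Agent.KMR
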