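import Pool.Agent.Lib.MP_732f67_ag.R.LabS
import Pool.Agent.Lib.MP_732f67_ag.R.RefS

/-!
Refine the charts, such that the local equations of a divisor supported on the boundary are
monomials.
-/

namespace Pool.Agent.KMR

variable {k Ω : Type} [Field k] [Field Ω] [Algebra k Ω]

theorem spqR_inv {R : Subalgebra k Ω} {g a b : Ω} (ha : a ∈ R) (hb : b ∈ R) (hg : g = a * b)
    (h0 : g ≠ 0) : Un (Inv R g) a := by
  have hgR : g ∈ R := by
    rw [hg]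
    exact mul_mem ha hb
  have h1 : Un (Inv R g) g := ⟨h0, le_inv R g hgR, inv_mem_inv R g⟩
  have h2 : Un (Inv R g) (a * b) := by
    rw [← hg]
    exact h1
  exact (Un.of_mul (le_inv R g ha) (le_inv R g hb) h2).1

namespace Mdl

variable {G : Subgroup (Ω ≃ₐ[k] Ω)} {M : Mdl k Ω G} {n : ℕ}

/-- the same points with the same local rings, and the same complement of the boundary -/
def Same {G' : Subgroup (Ω ≃ₐ[k] Ω)} (M : Mdl k Ω G) (M' : Mdl k Ω G') : Prop :=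
  (∀ c' (φ' : M'.R c' →ₐ[k] k), ∃ c, ∃ φ : M.R c →ₐ[k] k, M.O c φ = M'.O c' φ' ∧
    (M.Off c φ ↔ M'.Off c' φ')) ∧
  ∀ c (φ : M.R c →ₐ[k] k), ∃ c', ∃ φ' : M'.R c' →ₐ[k] k, M.O c φ = M'.O c' φ' ∧
    (M.Off c φ ↔ M'.Off c' φ')

/-- `Q O f`: `f` is a local equation at `O` of a divisor supported on the boundary and invariant
under `G` -/
structure Lq (M : Mdl k Ω G) (Q : Subalgebra k Ω → Ω → Prop) : Prop where
  ex : ∀ c (φ : M.R c →ₐ[k] k), ∃ (f : Ωˣ) (g : M.R c), φ g ≠ 0 ∧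
    ∀ ψ : M.R c →ₐ[k] k, ψ g ≠ 0 → Q (M.O c ψ) f
  off : ∀ c φ (f : Ωˣ), M.Off c φ → Q (M.O c φ) f → Un (M.O c φ) (f : Ω)
  ov : ∀ c φ (f f' : Ωˣ), Q (M.O c φ) f → Q (M.O c φ) f' → Un (M.O c φ) (f / f' : Ω)
  inv : ∀ (g : G) c c' φ φ' (f f' : Ωˣ),
    (∀ a, a ∈ M.O c φ ↔ (g : Ω ≃ₐ[k] Ω) a ∈ M.O c' φ') →
      Q (M.O c φ) f → Q (M.O c' φ') f' → Un (M.O c' φ') ((g : Ω ≃ₐ[k] Ω) (f : Ω) / f')

/-- the refinement near a point -/
theorem rfy_pt [IsAlgClosed k] [CharZero k] (h : M.Ok0 n) {Q : Subalgebra k Ω → Ω → Prop}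
    (hQ : M.Lq Q) (c : M.ι) (φ : M.R c →ₐ[k] k) :
    ∃ (g' : Ωˣ) (T : Finset M.J) (f : Ωˣ) (α : M.J → ℤ), (g' : Ω) ∈ M.R c ∧
      Un (M.O c φ) (g' : Ω) ∧ T ⊆ M.S c ∧ (∀ j ∈ T, M.At c φ j) ∧
      (∀ j ∈ M.S c, j ∉ T → ∃ N : ℕ, (g' : Ω) ^ N / M.x c j ∈ M.R c) ∧
      (∀ ψ : M.R c →ₐ[k] k, Un (M.O c ψ) (g' : Ω) → Q (M.O c ψ) f) ∧
      Un (Inv (M.R c) (g' : Ω)) ((f * (∏ j ∈ T, M.x c j ^ α j)⁻¹ : Ωˣ) : Ω) := by
  classical
  obtain ⟨f, g, hg, hgQ⟩ := hQ.ex c φ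
  have hgu : Un (M.O c φ) (g : Ω) := (un_loc φ g).2 hg
  let X : Ωˣ := ∏ j ∈ M.S c, M.x c j
  have hXv : (X : Ω) = ∏ j ∈ M.S c, (M.x c j : Ω) := Units.coe_prod _ _
  have hXR : (X : Ω) ∈ M.R c := by
    rw [hXv]
    exact prod_mem fun j hj => h.x_R c j hj
  have hgX0 : (g : Ω) * X ≠ 0 := mul_ne_zero hgu.1 X.ne_zero
  -- `f` is a unit where `g X` is a unit
  have hfu : ∀ ψ : M.R c →ₐ[k] k, Un (M.O c ψ) ((g : Ω) * X) → Un (M.O c ψ) (f : Ω) := by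
    intro ψ hu
    obtain ⟨h1, h2⟩ := Un.of_mul (le_loc ψ g.2) (le_loc ψ hXR) hu
    refine hQ.off c ψ f (fun j hj => hj.2 ?_) (hgQ ψ ((un_loc ψ g).1 h1))
    rw [hXv, ← Finset.mul_prod_erase _ _ hj.1] at h2
    exact (Un.of_mul (le_loc ψ (h.x_R c j hj.1))
      (prod_mem fun i hi => le_loc ψ (h.x_R c i (Finset.mem_of_mem_erase hi))) h2).1
  obtain ⟨N₁, hN₁⟩ := exists_pow_mul (h.fg c) (f : Ω) _ (mul_mem g.2 hXR) hgX0
    fun ψ hu => (hfu ψ hu).2.1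
  obtain ⟨N₂, hN₂⟩ := exists_pow_mul (h.fg c) ((f : Ω)⁻¹) _ (mul_mem g.2 hXR) hgX0
    fun ψ hu => (hfu ψ hu).2.2
  -- the labels through the point
  let T : Finset M.J := (M.S c).filter fun j => M.At c φ j
  have hTS : T ⊆ M.S c := Finset.filter_subset _ _
  have hTat : ∀ j ∈ T, M.At c φ j := fun j hj => (Finset.mem_filter.1 hj).2
  have hTn : ∀ j ∈ M.S c, j ∉ T → Un (M.O c φ) (M.x c j : Ω) := by
    intro j hj hjT
    by_contra hn
    exact hjT (Finset.mem_filter.2 ⟨hj, hj, hn⟩)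
  obtain ⟨z, hz, hr, hzx⟩ := h.exists_reg c φ
  have hzx' : ∀ j : {j // j ∈ T}, ∃ i, z i = M.x c j := fun j => hzx j (hTat j j.2)
  choose ι' hι using hzx'
  have hιinj : Function.Injective ι' := by
    intro j j' hjj
    apply Subtype.ext
    by_contra hne
    have h1 : M.x c j = M.x c j' := Units.ext (by rw [← hι, ← hι, hjj])
    have h2 := h.v_x c j (hTS j.2)
    have h3 := h.v_x' c j (hTS j.2) j' (hTS j'.2) hne
    rw [h1, h3] at h2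
    exact absurd h2 (by norm_num)
  let T' : Finset (Fin n) := Finset.univ.image ι'
  have hprod : ∀ a : Fin n → ℤ, ∏ i ∈ T', z i ^ a i =
      ∏ j ∈ T, (M.x c j : Ω) ^ (if hj : j ∈ T then a (ι' ⟨j, hj⟩) else 0) := by
    intro a
    show ∏ i ∈ Finset.univ.image ι', z i ^ a i = _
    rw [Finset.prod_image (fun _ _ _ _ h => hιinj h)]
    rw [← Finset.prod_coe_sort T]
    refine Finset.prod_congr rfl fun j _ => ?_
    rw [dif_pos j.2, hι]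
  have hprod1 : ∏ i ∈ T', z i = ∏ j ∈ T, (M.x c j : Ω) := by
    have h1 := hprod (fun _ => 1)
    simp only [zpow_one] at h1
    rw [h1]
    refine Finset.prod_congr rfl fun j hj => ?_
    rw [dif_pos hj, zpow_one]
  -- `X` is a unit times the product over `T`
  have hXT : (X : Ω) = (∏ i ∈ T', z i) *
      ∏ j ∈ (M.S c).filter (fun j => ¬ M.At c φ j), (M.x c j : Ω) := by
    rw [hprod1, hXv]
    exact (Finset.prod_filter_mul_prod_filter_not _ _ _).symm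
  have hYu : Un (M.O c φ)
      (∏ j ∈ (M.S c).filter (fun j => ¬ M.At c φ j), (M.x c j : Ω)) := by
    refine Un.prod _ _ fun j hj => ?_
    obtain ⟨h1, h2⟩ := Finset.mem_filter.1 hj
    exact hTn j h1 fun h3 => h2 (hTat j h3)
  have hpow : ∀ (a : Ω) (N : ℕ), a * ((g : Ω) * X) ^ N ∈ M.R c →
      a * (∏ i ∈ T', z i) ^ N ∈ M.O c φ := by
    intro a N hN
    have h1 : a * (∏ i ∈ T', z i) ^ N = a * ((g : Ω) * X) ^ N *
        (((g : Ω) * ∏ j ∈ (M.S c).filter (fun j => ¬ M.At c φ j), (M.x c j : Ω)) ^ N)⁻¹ := by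
      have h2 : ((g : Ω) * X) ^ N = (∏ i ∈ T', z i) ^ N *
          ((g : Ω) * ∏ j ∈ (M.S c).filter (fun j => ¬ M.At c φ j), (M.x c j : Ω)) ^ N := by
        rw [hXT, ← mul_pow]
        ring
      rw [h2, ← mul_assoc, mul_inv_cancel_right₀]
      exact pow_ne_zero _ (mul_ne_zero hgu.1 hYu.1)
    rw [h1]
    exact mul_mem (le_loc φ hN) ((hgu.mul hYu).pow N).2.2
  have hzT : ∀ i, z i ∈ M.O c φ := fun i => (hz.1 i).1
  have hP : ∏ i ∈ T', z i ∈ M.O c φ := prod_mem fun i _ => hzT i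
  obtain ⟨e, a, he, hfe⟩ := unit_mul_monomial hr hz.1 T' (f : Ω) ⟨N₁ + N₂, by
      rw [pow_add, ← mul_assoc]
      exact mul_mem (hpow _ _ hN₁) (pow_mem hP _), by
      rw [add_comm, pow_add, ← mul_assoc]
      exact mul_mem (hpow _ _ hN₂) (pow_mem hP _)⟩ f.ne_zero
  rw [hprod] at hfe
  set α : M.J → ℤ := fun j => if hj : j ∈ T then a (ι' ⟨j, hj⟩) else 0 with hα
  obtain ⟨b, d, hd, hbd⟩ := he.2.1
  have hdu : Un (M.O c φ) (d : Ω) := (un_loc φ d).2 hd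
  have hbu : Un (M.O c φ) (b : Ω) := by
    have h1 : (b : Ω) = e * d := by
      rw [hbd, div_mul_cancel₀ _ hdu.1]
    rw [h1]
    exact he.mul hdu
  -- the open set
  let Z : Ω := ∏ j ∈ (M.S c).filter (fun j => ¬ M.At c φ j), (M.x c j : Ω)
  have hZR : Z ∈ M.R c := prod_mem fun j hj => h.x_R c j (Finset.mem_filter.1 hj).1
  have hg'0 : (g : Ω) * b * d * Z ≠ 0 :=
    mul_ne_zero (mul_ne_zero (mul_ne_zero hgu.1 hbu.1) hdu.1) hYu.1
  have hg'R : (g : Ω) * b * d * Z ∈ M.R c := mul_mem (mul_mem (mul_mem g.2 b.2) d.2) hZR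
  refine ⟨Units.mk0 _ hg'0, T, f, α, hg'R, ((hgu.mul hbu).mul hdu).mul hYu, hTS, hTat, ?_, ?_, ?_⟩
  · intro j hj hjT
    have hjn : j ∈ (M.S c).filter (fun j => ¬ M.At c φ j) :=
      Finset.mem_filter.2 ⟨hj, fun h1 => hjT (Finset.mem_filter.2 ⟨hj, h1⟩)⟩
    refine ⟨1, ?_⟩
    have h1 : ((Units.mk0 _ hg'0 : Ωˣ) : Ω) ^ 1 / M.x c j = (g : Ω) * b * d *
        ∏ i ∈ ((M.S c).filter (fun j => ¬ M.At c φ j)).erase j, (M.x c i : Ω) := by
      rw [pow_one, Units.val_mk0]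
      show (g : Ω) * b * d * (∏ j ∈ (M.S c).filter (fun j => ¬ M.At c φ j), (M.x c j : Ω)) /
        M.x c j = _
      rw [← Finset.mul_prod_erase _ _ hjn, mul_left_comm, mul_div_assoc, mul_comm]
      have := (M.x c j).ne_zero
      field_simp
    rw [h1]
    exact mul_mem (mul_mem (mul_mem g.2 b.2) d.2) (prod_mem fun i hi =>
      h.x_R c i (Finset.mem_filter.1 (Finset.mem_of_mem_erase hi)).1)
  · intro ψ hu
    rw [Units.val_mk0, mul_assoc, mul_assoc] at hu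
    exact hgQ ψ ((un_loc ψ g).1 (Un.of_mul (le_loc ψ g.2)
      (mul_mem (le_loc ψ b.2) (mul_mem (le_loc ψ d.2) (le_loc ψ hZR))) hu).1)
  · have h1 : ((f * (∏ j ∈ T, M.x c j ^ α j)⁻¹ : Ωˣ) : Ω) = (b : Ω) / d := by
      have h2 : ((∏ j ∈ T, M.x c j ^ α j : Ωˣ) : Ω) = ∏ j ∈ T, (M.x c j : Ω) ^ α j := by
        rw [Units.coe_prod]
        exact Finset.prod_congr rfl fun j _ => Units.val_zpow_eq_zpow_val _ _
      have h3 : ∏ j ∈ T, (M.x c j : Ω) ^ α j ≠ 0 := by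
        rw [← h2]
        exact Units.ne_zero _
      rw [Units.val_mul, Units.val_inv_eq_inv_val, h2, hfe, ← hbd, mul_assoc, mul_inv_cancel₀ h3,
        mul_one]
    rw [h1, Units.val_mk0, div_eq_mul_inv]
    have hb1 : Un (Inv (M.R c) ((g : Ω) * b * d * Z)) (b : Ω) :=
      spqR_inv b.2 (mul_mem (mul_mem g.2 d.2) hZR) (by ring) hg'0
    have hd1 : Un (Inv (M.R c) ((g : Ω) * b * d * Z)) (d : Ω) :=
      spqR_inv d.2 (mul_mem (mul_mem g.2 b.2) hZR) (by ring) hg'0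
    exact hb1.mul hd1.inv

/-- PROOF. For a point `(c, φ)` take `f`, `g`; let `X` be the product of all the `x c j`. At the
points with `g X` a unit `f` is a unit, so `f (g X) ^ N`, `f⁻¹ (g X) ^ N ∈ R c` (`exists_pow_mul`), and
by `unit_mul_monomial` (`exists_reg`) `f = e * ∏ j ∈ T, x c j ^ a j`, `T` = the labels through
`φ`, `e` a unit of `O c φ`. Write `e = b / d`; on the open set of
`g' = g * b * d * ∏ j ∈ S c \ T, x c j` this holds with `e` a unit, and `φ` is a deep point. Finitely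
many of these open sets cover (`exists_finset`). -/
theorem exists_rfy [IsAlgClosed k] [CharZero k] (h : M.Ok0 n) {Q : Subalgebra k Ω → Ω → Prop}
    (hQ : M.Lq Q) : ∃ (r : M.Rf) (f : r.I → Ωˣ) (α : r.I → M.J → ℤ), r.Ok ∧ r.Deep ∧
      (∀ i (ψ : M.R (r.idx i) →ₐ[k] k), Un (M.O (r.idx i) ψ) (r.g i : Ω) →
        Q (M.O (r.idx i) ψ) (f i)) ∧
      ∀ i, Un (Inv (M.R (r.idx i)) (r.g i))
        ((f i * (∏ j ∈ r.T i, M.x (r.idx i) j ^ α i j)⁻¹ : Ωˣ) : Ω) := by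
  classical
  choose g' T f α h1 h2 h3 h4 h5 h6 h7 using fun c φ => rfy_pt h hQ c φ
  have hfin : ∀ c, ∃ s : Finset (M.R c →ₐ[k] k), ∀ φ : M.R c →ₐ[k] k, ∃ i ∈ s,
      Un (Loc (M.R c) φ) (g' c i : Ω) := fun c =>
    exists_finset (h.fg c) (fun i => (g' c i : Ω)) (h1 c) fun φ => ⟨φ, h2 c φ⟩
  choose s hs using hfin
  have hι : Finite M.ι := h.toOkR.fin
  let r : M.Rf :=
    { I := Σ c : M.ι, {φ : M.R c →ₐ[k] k // φ ∈ s c}
      idx := fun i => i.1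
      g := fun i => g' i.1 i.2.1
      T := fun i => T i.1 i.2.1 }
  refine ⟨r, fun i => f i.1 i.2.1, fun i => α i.1 i.2.1, ?_, ?_, ?_, ?_⟩
  · refine ⟨?_, fun i => h1 _ _, fun i => h3 _ _, fun c φ => ?_, fun i => h5 _ _⟩
    · show Finite (Σ c : M.ι, {φ : M.R c →ₐ[k] k // φ ∈ s c})
      infer_instance
    · obtain ⟨i, hi, hu⟩ := hs c φ
      exact ⟨⟨c, i, hi⟩, rfl, hu⟩
  · intro i
    exact ⟨i.2.1, h2 _ _, h4 _ _⟩
  · intro i ψ hu
    exact h6 _ _ ψ hu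
  · intro i
    exact h7 _ _

end Mdl

end Pool.Agent.KMR
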