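import Pool.Agent.Lib.MP_732f67_ag.R.Unr
import Pool.Agent.Lib.MP_732f67_ag.R.NormA

/-!
The conductor of `V[θ]`.
-/

namespace Pool.Agent.KMR

open Polynomial

variable {k Ω : Type} [Field k] [Field Ω] [Algebra k Ω]

/-- the algebra structure for `V ≤ E` -/
abbrev unrAlg {V : Subring Ω} {E : IntermediateField k Ω} (hVE : ∀ a ∈ V, a ∈ E) : Algebra V E :=
  (V.subtype.codRestrict E (fun x => hVE x x.2)).toAlgebra

theorem unr_tower {V : Subring Ω} {E : IntermediateField k Ω} (hVE : ∀ a ∈ V, a ∈ E) :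
    @IsScalarTower V E Ω (unrAlg hVE).toSMul _ _ := by
  let _ := unrAlg hVE
  exact IsScalarTower.of_algebraMap_eq fun _ => rfl

theorem unr_frac {V : Subring Ω} {E : IntermediateField k Ω} (hVE : ∀ a ∈ V, a ∈ E)
    (hE : ∀ a ∈ E, ∃ b ∈ V, ∃ d ∈ V, d ≠ 0 ∧ a = b / d) :
    @IsFractionRing V _ E _ (unrAlg hVE) := by
  let _ := unrAlg hVE
  have hval : ∀ x : V, ((algebraMap V E x : E) : Ω) = x := fun _ => rfl
  refine { map_units := ?_, surj := ?_, exists_of_eq := ?_ }
  · intro y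
    refine isUnit_iff_ne_zero.2 fun h0 => nonZeroDivisors.coe_ne_zero y ?_
    have h1 := congrArg (fun x : E => (x : Ω)) h0
    exact Subtype.ext h1
  · intro z
    obtain ⟨b, hb, d, hd, hd0, he⟩ := hE z z.2
    refine ⟨(⟨b, hb⟩, ⟨⟨d, hd⟩, mem_nonZeroDivisors_of_ne_zero fun h0 =>
      hd0 (congrArg (fun x : V => (x : Ω)) h0)⟩), Subtype.ext ?_⟩
    change (z : Ω) * d = b
    rw [he, div_mul_cancel₀ _ hd0]
  · intro x y hxy
    refine ⟨1, ?_⟩
    have h1 := congrArg (fun x : E => (x : Ω)) hxy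
    have h2 : x = y := Subtype.ext h1
    rw [h2]

theorem unr_int_iff {V : Subring Ω} {E : IntermediateField k Ω} (hVE : ∀ a ∈ V, a ∈ E) (x : E) :
    @IsIntegral V E _ _ (unrAlg hVE) x ↔ IsIntegral V (x : Ω) := by
  let _ := unrAlg hVE
  let _ := unr_tower hVE
  exact (isIntegral_algHom_iff (IsScalarTower.toAlgHom V E Ω) (algebraMap E Ω).injective).symm

theorem unr_closed {V : Subring Ω} {E : IntermediateField k Ω} (hVE : ∀ a ∈ V, a ∈ E)
    (hE : ∀ a ∈ E, ∃ b ∈ V, ∃ d ∈ V, d ≠ 0 ∧ a = b / d)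
    (hV : ∀ a ∈ E, IsIntegral V a → a ∈ V) : IsIntegrallyClosed V := by
  let _ := unrAlg hVE
  let _ := unr_tower hVE
  let _ := unr_frac hVE hE
  rw [isIntegrallyClosed_iff E]
  intro x hx
  exact ⟨⟨x, hV x x.2 ((unr_int_iff hVE x).1 hx)⟩, rfl⟩

/-- the minimal polynomial over `E` of an integral element has its coefficients in `V` -/
theorem unr_minpoly {V : Subring Ω} {E : IntermediateField k Ω} (hVE : ∀ a ∈ V, a ∈ E)
    (hE : ∀ a ∈ E, ∃ b ∈ V, ∃ d ∈ V, d ≠ 0 ∧ a = b / d)
    (hV : ∀ a ∈ E, IsIntegral V a → a ∈ V) (θ : Ω) (hθ : IsIntegral V θ) :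
    (minpoly E θ).map (algebraMap E Ω) = (minpoly V θ).map (algebraMap V Ω) := by
  let _ := unrAlg hVE
  let _ := unr_tower hVE
  let _ := unr_frac hVE hE
  let _ := unr_closed hVE hE hV
  rw [minpoly.isIntegrallyClosed_eq_field_fractions' E hθ, Polynomial.map_map]
  rfl

/-- the conductor: `V` integrally closed with field of fractions `E`, `θ` integral over `V`: if
`b ∈ E(θ)` is integral over `V` then `f' (θ) b ∈ V[θ]` (Mathlib, `traceForm_dualSubmodule_adjoin`
or `conductor`; compare `NormA.lean`) -/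
theorem conductor {V : Subring Ω} {E : IntermediateField k Ω} [CharZero k]
    (hE : ∀ a ∈ E, ∃ b ∈ V, ∃ d ∈ V, d ≠ 0 ∧ a = b / d)
    (hV : ∀ a ∈ E, IsIntegral V a → a ∈ V) (hVE : ∀ a ∈ V, a ∈ E) (θ : Ω) (hθ : IsIntegral V θ)
    (b : Ω) (hb : b ∈ IntermediateField.adjoin k ((E : Set Ω) ∪ {θ})) (hi : IsIntegral V b) :
    (aeval θ (derivative (minpoly E θ))) * b ∈ Subring.closure ((V : Set Ω) ∪ {θ}) := by
  let _ := unrAlg hVE
  let _ := unr_tower hVE
  let _ := unr_frac hVE hE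
  let _ := unr_closed hVE hE hV
  have hc : CharZero E := charZero_of_injective_algebraMap (algebraMap k E).injective
  have hb' : b ∈ IntermediateField.adjoin E {θ} := by
    have h1 : IntermediateField.adjoin k ((E : Set Ω) ∪ {θ}) ≤
        (IntermediateField.adjoin E {θ}).restrictScalars k := by
      rw [IntermediateField.adjoin_le_iff]
      rintro x (hx | hx)
      · exact (IntermediateField.adjoin E {θ}).algebraMap_mem ⟨x, hx⟩
      · rw [Set.mem_singleton_iff.1 hx]
        exact IntermediateField.mem_adjoin_simple_self E θ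
    exact h1 hb
  have h1 := norm_conductor (K0 := E) (minpoly.monic hθ) (minpoly.aeval V θ) hi hb'
  have h2 : aeval θ (derivative (minpoly E θ)) = aeval θ (derivative (minpoly V θ)) := by
    rw [aeval_def, aeval_def, ← eval_map, ← eval_map, ← derivative_map, ← derivative_map,
      unr_minpoly hVE hE hV θ hθ]
  rw [h2]
  have h3 : ∀ x ∈ Algebra.adjoin V {θ}, x ∈ Subring.closure ((V : Set Ω) ∪ {θ}) := by
    intro x hx
    induction hx using Algebra.adjoin_induction with
    | mem y hy => exact Subring.subset_closure (Or.inr hy)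
    | algebraMap r => exact Subring.subset_closure (Or.inl r.2)
    | add y z _ _ hy hz => exact Subring.add_mem _ hy hz
    | mul y z _ _ hy hz => exact Subring.mul_mem _ hy hz
  exact h3 _ h1

end Pool.Agent.KMR
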